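import Mathlib
import Pool.Agent.N715.AC.Stm

/-!
Project AD: a constant lower bound for the canonical heights of points of bounded degree over the
field generated by all roots of unity.  Statements of the independent parts.
-/

set_option autoImplicit false
set_option linter.unusedSectionVars false

namespace Pool.Agent.N715.AD

open NumberField Module Polynomial
open Pool.Agent.W238.Leh (act canH Bds hC)
open Pool.Agent.H627.LR (GR GoodK)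
open Pool.Agent.H420R3 (mi nv TP ew)
open Pool.Agent.R829.BG (XD E2)
open Pool.Agent.N715.AB (ev)
open Pool.Agent.N715.AC (PPrim CF)

noncomputable section

/-! ### Definitions -/

/-- a pair of conjugate elements which are wildly close at the place `v` -/
def FC (K : Type) {L : Type} [Field K] [NumberField K] [Field L] [NumberField L] [Algebra K L]
    (v : FinitePlace L) (c : ℝ) (M : IntermediateField K L) (x y : L) : Prop :=
  ∃ φ : Gal(L/K), (∀ z ∈ M, v (φ z - z) ≤ Real.exp (-(c * ew K v)) * v z) ∧ φ x = y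

/-- the determinant of the Jacobian matrix of a pair of forms -/
def jac {R : Type} [CommRing R] (Φ : Fin (1 + 1) → MvPolynomial (Fin (1 + 1)) R) :
    MvPolynomial (Fin (1 + 1)) R :=
  MvPolynomial.pderiv 0 (Φ 0) * MvPolynomial.pderiv 1 (Φ 1) -
    MvPolynomial.pderiv 1 (Φ 0) * MvPolynomial.pderiv 0 (Φ 1)

/-- the iterates of a pair of forms -/
def itF {R : Type} [CommRing R] (Φ : Fin (1 + 1) → MvPolynomial (Fin (1 + 1)) R) :
    ℕ → Fin (1 + 1) → MvPolynomial (Fin (1 + 1)) R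
  | 0 => MvPolynomial.X
  | n + 1 => fun i => MvPolynomial.bind₁ (itF Φ n) (Φ i)

/-- the values of a pair of forms -/
def pt {R : Type} [CommRing R] (Φ : Fin (1 + 1) → MvPolynomial (Fin (1 + 1)) R)
    (z : Fin (1 + 1) → R) : Fin (1 + 1) → R := fun i => MvPolynomial.eval z (Φ i)

/-- the determinant of two vectors -/
def wdg {R : Type} [CommRing R] (x y : Fin (1 + 1) → R) : R := x 0 * y 1 - x 1 * y 0

/-- the linear form vanishing at `y` -/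
def lin {R : Type} [CommRing R] (y : Fin (1 + 1) → R) : MvPolynomial (Fin (1 + 1)) R :=
  MvPolynomial.C (y 1) * MvPolynomial.X 0 - MvPolynomial.C (y 0) * MvPolynomial.X 1

/-- dehomogenisation -/
def dz {R : Type} [CommRing R] (p : MvPolynomial (Fin (1 + 1)) R) : R[X] :=
  MvPolynomial.aeval ![X, 1] p

/-- `∑ C_i R ^ i S ^ (N - i)` -/
def hom1 {R : Type} [CommRing R] (N : ℕ) (f g C : R[X]) : R[X] :=
  ∑ i ∈ Finset.range (N + 1), Polynomial.C (C.coeff i) * f ^ i * g ^ (N - i)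

/-- `∑ g_{ij} R(X) ^ i S(X) ^ (b - i) R(Y) ^ j S(Y) ^ (b - j)` -/
def hom2 {R : Type} [CommRing R] (b : ℕ) (f s : R[X]) (g : R[X][X]) : R[X][X] :=
  ∑ j ∈ Finset.range (b + 1), Polynomial.C (hom1 b f s (g.coeff j)) *
    (f.map Polynomial.C) ^ j * (s.map Polynomial.C) ^ (b - j)

/-- the degree in the first variable is at most `A` -/
def XR {R : Type} [CommRing R] (A : ℕ) (G : R[X][X]) : Prop := ∀ n, (G.coeff n).natDegree ≤ A

/-- no common zero -/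
def NZ {k : Type} [Field k] (Φ : Fin (1 + 1) → MvPolynomial (Fin (1 + 1)) k) : Prop :=
  ∀ z : Fin (1 + 1) → k, pt Φ z = 0 → z = 0

/-- the residue field -/
abbrev rf {W : Type} [Field W] (A : ValuationSubring W) : Type := IsLocalRing.ResidueField A

/-- reduction -/
abbrev red {W : Type} [Field W] (A : ValuationSubring W) : A →+* rf A := IsLocalRing.residue A

/-- a ramification datum for the point `y = Φ^n (c)`: the `n`-th iterate has local degree at least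
`e` at the point `c` -/
def Dat {k : Type} [Field k] (Φ : Fin (1 + 1) → MvPolynomial (Fin (1 + 1)) k)
    (c : Fin (1 + 1) → k) (n e : ℕ) : Prop :=
  lin c ^ e ∣ MvPolynomial.bind₁ (itF Φ n) (lin ((pt Φ)^[n] c))

/-! ### Common elementary facts -/

/-- (RST) restriction of a place to a subfield -/
def RstLem : Prop :=
  ∀ (K : Type) [Field K] [NumberField K] (M : Type) [Field M] [NumberField M]
    (L : Type) [Field L] [NumberField L] [Algebra K M] [Algebra M L] [Algebra K L]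
    [IsScalarTower K M L] (P : Ideal (𝓞 K)) [P.IsMaximal], P ≠ ⊥ → ∀ v ∈ TP L P,
    ∃ u ∈ TP M P, ∃ d : ℝ, 0 < d ∧ (∀ z : M, v (algebraMap M L z) = u z ^ d) ∧
      ew K v = d * ew K u

/-- (BIN) binary forms -/
def BinLem : Prop :=
  (∀ (k : Type) [Field k] (y : Fin (1 + 1) → k) (p : MvPolynomial (Fin (1 + 1)) k) (d : ℕ),
    y ≠ 0 → p.IsHomogeneous d → MvPolynomial.eval y p = 0 → lin y ∣ p) ∧
  (∀ (k : Type) [Field k] (y : Fin (1 + 1) → k), y ≠ 0 → Prime (lin y)) ∧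
  (∀ (k : Type) [Field k] [IsAlgClosed k] (p : MvPolynomial (Fin (1 + 1)) k) (d : ℕ), 1 ≤ d →
    p.IsHomogeneous d → ∃ z : Fin (1 + 1) → k, z ≠ 0 ∧ MvPolynomial.eval z p = 0) ∧
  (∀ (k : Type) [Field k] [IsAlgClosed k] (D : ℕ)
    (Φ : Fin (1 + 1) → MvPolynomial (Fin (1 + 1)) k), (∀ i, (Φ i).IsHomogeneous D) → 1 ≤ D →
    NZ Φ → ∀ y : Fin (1 + 1) → k, y ≠ 0 →
    ∃ (z : Fin (1 + 1) → k) (c : k), z ≠ 0 ∧ c ≠ 0 ∧ pt Φ z = c • y) ∧
  (∀ (k : Type) [Field k] [IsAlgClosed k] (D : ℕ)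
    (Φ : Fin (1 + 1) → MvPolynomial (Fin (1 + 1)) k), (∀ i, (Φ i).IsHomogeneous D) → 1 ≤ D →
    NZ Φ → ∀ (p : MvPolynomial (Fin (1 + 1)) k) (d : ℕ), p.IsHomogeneous d →
    MvPolynomial.bind₁ Φ p = 0 → p = 0) ∧
  (∀ (k : Type) [Field k] (p r : MvPolynomial (Fin (1 + 1)) k) (d : ℕ), p ≠ 0 →
    p.IsHomogeneous d → r ∣ p → ∃ e, r.IsHomogeneous e)

/-- (CHR) the chain rule -/
def ChrLem : Prop :=
  (∀ (R : Type) [CommRing R] (Ψ Θ : Fin (1 + 1) → MvPolynomial (Fin (1 + 1)) R),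
    jac (fun i => MvPolynomial.bind₁ Θ (Ψ i)) = MvPolynomial.bind₁ Θ (jac Ψ) * jac Θ) ∧
  (∀ (R : Type) [CommRing R] (Φ : Fin (1 + 1) → MvPolynomial (Fin (1 + 1)) R) (a b : ℕ)
    (i : Fin (1 + 1)), itF Φ (a + b) i = MvPolynomial.bind₁ (itF Φ b) (itF Φ a i))

/-- (GNZ) no common zero modulo `P` -/
def GnzLem : Prop :=
  ∀ (K : Type) [Field K] [NumberField K] (P : Ideal (𝓞 K)) [P.IsMaximal] (q : ℕ)
    (F : Fin (1 + 1) → MvPolynomial (Fin (1 + 1)) K)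
    (G : Fin (1 + 1) → MvPolynomial (Fin (1 + 1)) (𝓞 K)),
    (∀ i, F i = MvPolynomial.map (algebraMap (𝓞 K) K) (G i)) → GoodK P F q →
    ∀ (k : Type) [Field k] (χ : 𝓞 K →+* k), (∀ a, χ a = 0 ↔ a ∈ P) →
      NZ (fun i => MvPolynomial.map χ (G i))

/-! ### Arithmetic: wildly close pairs -/

/-- (CYK) the last step of a cyclotomic tower -/
def CycKey : Prop :=
  ∀ (K : Type) [Field K] [NumberField K] (M : Type) [Field M] [NumberField M] [Algebra K M]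
    (P : Ideal (𝓞 K)) [P.IsMaximal], P ≠ ⊥ →
    ∀ p : ℕ, p.Prime → (p : 𝓞 K) ∈ P → (p : 𝓞 K) ∉ P ^ 2 →
    ∀ (a m : ℕ) (ζ : M), 2 ≤ a → ¬ p ∣ m → IsPrimitiveRoot ζ (p ^ a * m) →
    IntermediateField.adjoin K {ζ} = ⊤ →
    ∀ σ : Gal(M/K), σ (ζ ^ p) = ζ ^ p → ∀ v ∈ TP M P, ∀ z : M,
      v (σ z - z) ≤ Real.exp (-(ew K v / p)) * v z

/-- (CYT) tame ramification at the bottom of a cyclotomic tower -/
def CycTame : Prop :=
  ∀ (K : Type) [Field K] [NumberField K] (M : Type) [Field M] [NumberField M] [Algebra K M]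
    (P : Ideal (𝓞 K)) [P.IsMaximal], P ≠ ⊥ → ∀ p : ℕ, p.Prime → (p : 𝓞 K) ∈ P →
    ∀ (N : ℕ) (ζ : M), ¬ p ^ 2 ∣ N → IsPrimitiveRoot ζ N → IntermediateField.adjoin K {ζ} = ⊤ →
    ∀ u ∈ TP M P, ¬ p ∣ (mi u).ramificationIdx (𝓞 K)

/-- (CYD) an element of the Galois group which moves all elements very little -/
def CycLem : Prop :=
  ∀ (K : Type) [Field K] [NumberField K] (L : Type) [Field L] [NumberField L] [Algebra K L]
    [IsGalois K L] (P : Ideal (𝓞 K)) [P.IsMaximal], P ≠ ⊥ →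
    ∀ p : ℕ, p.Prime → (p : 𝓞 K) ∈ P → (p : 𝓞 K) ∉ P ^ 2 →
    ∀ (N : ℕ) (ζ : L) (E : IntermediateField K L), N ≠ 0 → IsPrimitiveRoot ζ N →
    E ≤ IntermediateField.adjoin K {ζ} →
    (∃ u ∈ TP E P, p ∣ (mi u).ramificationIdx (𝓞 K)) →
    ∃ ρ : Gal(L/K), (∃ z ∈ E, ρ z ≠ z) ∧ ∀ v ∈ TP L P, ∀ z ∈ E,
      v (ρ z - z) ≤ Real.exp (-(ew K v / p)) * v z

/-- (LIF) lifting to the field generated by the conjugates of an element of bounded degree -/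
def LiftLem : Prop :=
  ∀ (K : Type) [Field K] [NumberField K] (L : Type) [Field L] [NumberField L] [Algebra K L]
    [IsGalois K L] (P : Ideal (𝓞 K)) [P.IsMaximal], P ≠ ⊥ →
    ∀ p : ℕ, p.Prime → (p : 𝓞 K) ∈ P →
    ∀ (E : IntermediateField K L) [IsAbelianGalois K E] (x : L) (r : ℕ),
    E ≤ IntermediateField.adjoin K {x} → (minpoly E x).natDegree ≤ r → r < p →
    ∀ (c : ℝ), 0 < c → ∀ ρ : Gal(L/K),
    (∀ v ∈ TP L P, ∀ z ∈ E, v (ρ z - z) ≤ Real.exp (-(c * ew K v)) * v z) →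
    ∀ v ∈ TP L P, ∃ φ : Gal(L/K), (∀ z ∈ E, φ z = ρ z) ∧
      ∀ z ∈ CF K x, v (φ z - z) ≤ Real.exp (-(c * ew K v)) * v z

/-- (PIG) one conjugate for many places -/
def PigLem : Prop :=
  ∀ (K : Type) [Field K] [NumberField K] (L : Type) [Field L] [NumberField L] [Algebra K L]
    [IsGalois K L] (P : Ideal (𝓞 K)) [P.IsMaximal], P ≠ ⊥ →
    ∀ (E : IntermediateField K L) [IsAbelianGalois K E] (x : L) (r : ℕ) (c : ℝ),
    E ≤ IntermediateField.adjoin K {x} → (minpoly E x).natDegree ≤ r →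
    ∀ ρ : Gal(L/K), (∃ z ∈ E, ρ z ≠ z) →
    (∀ v ∈ TP L P, ∃ φ : Gal(L/K), (∀ z ∈ E, φ z = ρ z) ∧
      ∀ z ∈ CF K x, v (φ z - z) ≤ Real.exp (-(c * ew K v)) * v z) →
    ∃ τ : Gal(L/K), τ x ≠ x ∧ ∀ σ : Gal(L/K), ∑ v ∈ TP L P, ew K v ≤
      r * ∑ v ∈ TP L P, (open Classical in if FC K v c (CF K x) (σ x) (σ (τ x)) then
        ew K v else 0)

/-- (TAM) the tame case -/
def TamLem : Prop :=
  ∀ (K : Type) [Field K] [NumberField K] (q : ℕ), 2 ≤ q →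
    ∀ F : Fin (1 + 1) → MvPolynomial (Fin (1 + 1)) K, (∀ i, (F i).IsHomogeneous q) →
    (∀ z : Fin (1 + 1) → AlgebraicClosure K, (∀ i, MvPolynomial.aeval z (F i) = 0) → z = 0) →
    ∀ (a : ℕ) (A : ℝ), Bds F q A a → ∀ r : ℕ, ∃ C : ℕ, 1 ≤ C ∧
    ∀ (L : Type) [Field L] [NumberField L] [Algebra K L] [IsGalois K L]
      (E : IntermediateField K L) [IsAbelianGalois K E] (x : Fin (1 + 1) → L), x 1 ≠ 0 →
      Pool.Agent.H627.LP.Wnd F x → E ≤ IntermediateField.adjoin K {x 0 / x 1} →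
      (minpoly E (x 0 / x 1)).natDegree ≤ r →
      ∀ (P : Ideal (𝓞 K)) [P.IsMaximal], P ≠ ⊥ → (C : 𝓞 K) ∉ P →
      (∀ p : ℕ, p.Prime → (p : 𝓞 K) ∈ P → ∀ u ∈ TP E P, ¬ p ∣ (mi u).ramificationIdx (𝓞 K)) →
      1 / (C * (P.absNorm : ℝ) ^ C) ≤ canH F q x

/-! ### Interpolation -/

/-- (TWP) the two-variable interpolation inequality for pairs of close points -/
def TwoPLem : Prop :=
  ∀ (K : Type) [Field K] [NumberField K] (M : Type) [Field M] [NumberField M] [Algebra K M]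
    (ι : Type) [Fintype ι] [DecidableEq ι]
    (F : Fin (1 + 1) → MvPolynomial (Fin (1 + 1)) K) (q c a : ℕ) (A : ℝ),
    Bds F q A a → 2 ≤ q → (∀ i, (F i).IsHomogeneous q) →
    (∀ m, c + q ≤ m → ∀ p : MvPolynomial (Fin (1 + 1)) K, p.IsHomogeneous m →
      p ∈ Ideal.span (Set.range F)) →
    ∀ (x y : ι → M) (T : Finset (FinitePlace M)), (∀ v ∈ T, GR v F q) →
    ∀ (g : FinitePlace M → ℝ) (Bad : FinitePlace M → Finset ι), (∀ v ∈ T, 0 < g v) →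
    (∀ v ∈ T, ∀ i, i ∉ Bad v → v (y i - x i) ≤ Real.exp (-g v) * v (x i)) →
    ∀ w₀ : ℝ, (∀ i, w₀ ≤ ∑ v ∈ T, if i ∉ Bad v then g v else 0) →
    ∀ H : ℝ, (∀ i, canH F q ![x i, 1] ≤ H) → (∀ i, canH F q ![y i, 1] ≤ H) →
    ∀ m n s r : ℕ, r = finrank M (E2 K (fun i => ![x i, 1]) (fun i => ![y i, 1]) m n) → 1 ≤ r →
      s * (r * w₀ - (∑ v ∈ T, g v) * (s * (2 * (m + n + 1)) : ℕ)) ≤
        finrank ℚ M * (r * ((m + n) * H +
          hC A a * (c + q : ℕ) * (1 + Nat.log 2 m : ℕ) +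
          hC A a * (c + q : ℕ) * (1 + Nat.log 2 n : ℕ) + Real.log r))

/-- (BAD) a polynomial which is not zero modulo `P` is rarely very small at the conjugates of a
small point of large degree -/
def Bad2Lem : Prop :=
  ∀ (K : Type) [Field K] [NumberField K] (L : Type) [Field L] [NumberField L] [Algebra K L]
    [IsGalois K L]
    (F : Fin (1 + 1) → MvPolynomial (Fin (1 + 1)) K) (q c a : ℕ) (A : ℝ),
    Bds F q A a → 2 ≤ q → (∀ i, (F i).IsHomogeneous q) →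
    (∀ m, c + q ≤ m → ∀ p : MvPolynomial (Fin (1 + 1)) K, p.IsHomogeneous m →
      p ∈ Ideal.span (Set.range F)) →
    ∀ (P : Ideal (𝓞 K)) [P.IsMaximal], P ≠ ⊥ → GoodK P F q →
    ∀ (x : L) (γ ω : ℝ), 0 < γ → 0 < ω →
    ∀ (u t s R n : ℕ), 1 ≤ u → R = 2 * u * t * (s + 1) → n + 1 ≤ t →
    (finrank ℚ K : ℝ) * t * ω ≤ γ * Real.log P.absNorm →
    ∀ f : K[X], PPrim P f → f.natDegree ≤ n →
    R ≤ (minpoly K x).natDegree →
    R * canH F q ![x, 1] + hC A a * (c + q : ℕ) * (1 + Nat.log 2 R : ℕ) + Real.log R <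
      s * ω / (2 * u) →
    u * ∑ v ∈ TP L P, (open Classical in
      if Real.exp (-(γ * ew K v)) * max 1 (v x) ^ n < v (aeval x f) then 0 else ew K v) ≤
      ∑ v ∈ TP L P, ew K v

/-- (CLO) a relation between two close points -/
def CloLem : Prop :=
  ∀ (K : Type) [Field K] [NumberField K] (L : Type) [Field L] [NumberField L] [Algebra K L]
    (v : FinitePlace L) (b : ℕ) (g : K[X][X]), g.natDegree ≤ b → XD b g →
    (∀ i j, ∃ a : 𝓞 K, (g.coeff j).coeff i = (a : K)) →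
    ∀ (x y : L) (η : ℝ), 0 ≤ η → η < 1 → v (y - x) ≤ η * v x → ev x y g = 0 →
      v (aeval x (g.eval X)) ≤ η * max 1 (v x) ^ (2 * b)

/-- (WRO) the difference quotient -/
def WroLem : Prop :=
  ∀ (R : Type) [CommRing R] (q : ℕ) (f s : R[X]), f.natDegree ≤ q → s.natDegree ≤ q →
    ∃ T : R[X][X], T.natDegree ≤ q ∧ XR q T ∧
      Polynomial.C f * s.map Polynomial.C - f.map Polynomial.C * Polynomial.C s =
        (Polynomial.C X - X) * T ∧
      T.eval X = derivative f * s - f * derivative s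

/-- (NRM) normalisation of a relation -/
def NrmLem : Prop :=
  ∀ (K : Type) [Field K] [NumberField K] (P : Ideal (𝓞 K)) [P.IsMaximal], P ≠ ⊥ →
    ∀ g : K[X][X], g ≠ 0 → ∃ c : K, c ≠ 0 ∧
      (∀ i j, ∃ a : 𝓞 K, c * (g.coeff j).coeff i = (a : K)) ∧
      ∃ i j, ∃ a : 𝓞 K, a ∉ P ∧ c * (g.coeff j).coeff i = (a : K)

/-- (INV) an irreducible relation which holds at a point of large degree and at its image is
invariant -/
def InvLem : Prop :=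
  ∀ (K : Type) [Field K] (L : Type) [Field L] [Algebra K L] [FiniteDimensional K L]
    (b D : ℕ) (g : K[X][X]), Irreducible g → 1 ≤ g.natDegree → g.natDegree ≤ b → XD b g →
    ∀ f s : K[X], f.natDegree ≤ D → s.natDegree ≤ D →
    ∀ x y : L, ev x y g = 0 → aeval x s ≠ 0 → aeval y s ≠ 0 →
    ev (aeval x f / aeval x s) (aeval y f / aeval y s) g = 0 →
    2 * b * b * D < (minpoly K x).natDegree → g ∣ hom2 b f s g

/-! ### Algebra: the reduction modulo `P` -/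

/-- (VAL) an extension of the valuation -/
def ValLem : Prop :=
  ∀ (K : Type) [Field K] [NumberField K] (P : Ideal (𝓞 K)) [P.IsMaximal], P ≠ ⊥ →
    ∃ (A : ValuationSubring (AlgebraicClosure K)) (ψ : 𝓞 K →+* A),
      (∀ a, ((ψ a : A) : AlgebraicClosure K) = algebraMap K (AlgebraicClosure K) (a : K)) ∧
      (∀ a, red A (ψ a) = 0 ↔ a ∈ P)

/-- (ACL) the residue field is algebraically closed -/
def AclLem : Prop :=
  ∀ (W : Type) [Field W] [IsAlgClosed W] (A : ValuationSubring W), IsAlgClosed (rf A)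

/-- (GAU) the lemma of Gauss -/
def GauLem : Prop :=
  ∀ (W : Type) [Field W] (A : ValuationSubring W) (g N : A[X][X]) (h : W[X][X]),
    g.map (mapRingHom (red A)) ≠ 0 →
    N.map (mapRingHom A.subtype) = g.map (mapRingHom A.subtype) * h → ∃ h' : A[X][X], N = g * h'

/-- (INF) the infinitesimal structure of an invariant curve which degenerates to the diagonal -/
def InfLem : Prop :=
  ∀ (W : Type) [Field W] [IsAlgClosed W] (A : ValuationSubring W) (b : ℕ) (f s : A[X])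
    (g h : A[X][X]), g.natDegree ≤ b → XR b g → g.map (mapRingHom (red A)) ≠ 0 →
    g.eval X ≠ 0 → (g.eval X).map (red A) = 0 →
    (derivative f * s - f * derivative s).map (red A) ≠ 0 → hom2 b f s g = g * h →
    ∃ (m : ℕ) (C₁ C₂ : (rf A)[X]), 1 ≤ m ∧ C₁ ≠ 0 ∧ C₂ ≠ 0 ∧ C₁.natDegree ≤ 2 * b ∧
      C₂.natDegree ≤ 2 * b ∧
      hom1 (2 * b) (f.map (red A)) (s.map (red A)) C₁ * C₂ * (s.map (red A)) ^ (2 * m) =
        C₁ * hom1 (2 * b) (f.map (red A)) (s.map (red A)) C₂ *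
          ((derivative f * s - f * derivative s).map (red A)) ^ m

/-- (HOM) homogenisation -/
def HomLem : Prop :=
  ∀ (k : Type) [Field k] (D : ℕ) (Φ : Fin (1 + 1) → MvPolynomial (Fin (1 + 1)) k),
    (∀ i, (Φ i).IsHomogeneous D) → 1 ≤ D → (D : k) ≠ 0 →
    ∀ (N m : ℕ) (C₁ C₂ : k[X]), C₁ ≠ 0 → C₂ ≠ 0 → C₁.natDegree ≤ N → C₂.natDegree ≤ N →
    hom1 N (dz (Φ 0)) (dz (Φ 1)) C₁ * C₂ * (dz (Φ 1)) ^ (2 * m) =
      C₁ * hom1 N (dz (Φ 0)) (dz (Φ 1)) C₂ *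
        (derivative (dz (Φ 0)) * dz (Φ 1) - dz (Φ 0) * derivative (dz (Φ 1))) ^ m →
    ∃ (A₁ A₂ : MvPolynomial (Fin (1 + 1)) k) (c : k), A₁ ≠ 0 ∧ A₂ ≠ 0 ∧
      A₁.IsHomogeneous (N + 2 * m) ∧ A₂.IsHomogeneous N ∧ c ≠ 0 ∧
      MvPolynomial.bind₁ Φ A₁ * A₂ =
        MvPolynomial.C c * A₁ * MvPolynomial.bind₁ Φ A₂ * jac Φ ^ m

/-- (FRM) the denominator is constant -/
def FrmLem : Prop :=
  ∀ (k : Type) [Field k] [IsAlgClosed k] (D : ℕ)
    (Φ : Fin (1 + 1) → MvPolynomial (Fin (1 + 1)) k), (∀ i, (Φ i).IsHomogeneous D) → 2 ≤ D →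
    NZ Φ → ∀ (N m : ℕ) (A₁ A₂ : MvPolynomial (Fin (1 + 1)) k) (c : k), A₁ ≠ 0 → A₂ ≠ 0 →
    A₁.IsHomogeneous (N + 2 * m) → A₂.IsHomogeneous N → c ≠ 0 →
    MvPolynomial.bind₁ Φ A₁ * A₂ =
      MvPolynomial.C c * A₁ * MvPolynomial.bind₁ Φ A₂ * jac Φ ^ m →
    ∃ A : MvPolynomial (Fin (1 + 1)) k, A ≠ 0 ∧ A.IsHomogeneous (2 * m) ∧
      MvPolynomial.bind₁ Φ A = MvPolynomial.C c * A * jac Φ ^ m

/-- (ITR) the iterates -/
def ItrLem : Prop :=
  ∀ (k : Type) [Field k] [IsAlgClosed k] (q : ℕ)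
    (Φ : Fin (1 + 1) → MvPolynomial (Fin (1 + 1)) k), (∀ i, (Φ i).IsHomogeneous q) → 2 ≤ q →
    NZ Φ → ∀ (l m : ℕ) (A : MvPolynomial (Fin (1 + 1)) k) (c : k), 1 ≤ l → c ≠ 0 →
    A.IsHomogeneous (2 * m) →
    MvPolynomial.bind₁ (itF Φ l) A = MvPolynomial.C c * A * jac (itF Φ l) ^ m →
    ∀ j : ℕ, ∃ c' : k, c' ≠ 0 ∧
      MvPolynomial.bind₁ (itF Φ (l * j)) A = MvPolynomial.C c' * A * jac (itF Φ (l * j)) ^ m

/-- (LDG) local degrees can be read on the iterates of an iterate -/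
def LdgLem : Prop :=
  ∀ (k : Type) [Field k] [IsAlgClosed k] (q : ℕ)
    (Φ : Fin (1 + 1) → MvPolynomial (Fin (1 + 1)) k), (∀ i, (Φ i).IsHomogeneous q) → 2 ≤ q →
    NZ Φ → ∀ (c : Fin (1 + 1) → k) (n e l : ℕ), c ≠ 0 → 1 ≤ l → Dat Φ c n e →
    ∃ (c' : Fin (1 + 1) → k) (j : ℕ), c' ≠ 0 ∧ 1 ≤ j ∧ Dat Φ c' (l * j) e ∧
      wdg ((pt Φ)^[n] c) ((pt Φ)^[l * j] c') = 0

/-- (MUL) the multiplicity of the invariant form at a ramified value -/
def MulLem : Prop :=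
  ∀ (k : Type) [Field k] [IsAlgClosed k] (D : ℕ)
    (Ψ : Fin (1 + 1) → MvPolynomial (Fin (1 + 1)) k), (∀ i, (Ψ i).IsHomogeneous D) → 1 ≤ D →
    NZ Ψ → ∀ (m d : ℕ) (A : MvPolynomial (Fin (1 + 1)) k) (c : k), A ≠ 0 → c ≠ 0 →
    A.IsHomogeneous d → MvPolynomial.bind₁ Ψ A = MvPolynomial.C c * A * jac Ψ ^ m →
    ∀ (z : Fin (1 + 1) → k) (e : ℕ), z ≠ 0 → 1 ≤ e →
    lin z ^ e ∣ MvPolynomial.bind₁ Ψ (lin (pt Ψ z)) →
    ∃ μ : ℕ, m * (e - 1) ≤ e * μ ∧ lin (pt Ψ z) ^ μ ∣ A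

/-- (SUM) the sum of the multiplicities -/
def SumLem : Prop :=
  ∀ (k : Type) [Field k] (A : MvPolynomial (Fin (1 + 1)) k) (d : ℕ), A ≠ 0 →
    A.IsHomogeneous d → ∀ (s : ℕ) (y : Fin s → Fin (1 + 1) → k) (μ : Fin s → ℕ),
    (∀ i, y i ≠ 0) → (∀ i j, i ≠ j → wdg (y i) (y j) ≠ 0) → (∀ i, lin (y i) ^ μ i ∣ A) →
    ∑ i, μ i ≤ d

/-- (NZJ) separable reduction -/
def NzjLem : Prop :=
  ∀ (k : Type) [Field k] [IsAlgClosed k] (D : ℕ)
    (Φ : Fin (1 + 1) → MvPolynomial (Fin (1 + 1)) k), (∀ i, (Φ i).IsHomogeneous D) → 1 ≤ D →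
    NZ Φ → (D : k) ≠ 0 → jac Φ ≠ 0 ∧
      derivative (dz (Φ 0)) * dz (Φ 1) - dz (Φ 0) * derivative (dz (Φ 1)) ≠ 0

/-- (ITF) elementary properties of iterates -/
def ItfLem : Prop :=
  (∀ (R : Type) [CommRing R] (Φ : Fin (1 + 1) → MvPolynomial (Fin (1 + 1)) R) (q : ℕ),
    (∀ i, (Φ i).IsHomogeneous q) → ∀ l i, (itF Φ l i).IsHomogeneous (q ^ l)) ∧
  (∀ (R S : Type) [CommRing R] [CommRing S] (f : R →+* S)
    (Φ : Fin (1 + 1) → MvPolynomial (Fin (1 + 1)) R) (l : ℕ) (i : Fin (1 + 1)),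
    MvPolynomial.map f (itF Φ l i) = itF (fun i => MvPolynomial.map f (Φ i)) l i) ∧
  (∀ (R : Type) [CommRing R] (Φ : Fin (1 + 1) → MvPolynomial (Fin (1 + 1)) R) (l : ℕ)
    (z : Fin (1 + 1) → R), pt (itF Φ l) z = (pt Φ)^[l] z) ∧
  (∀ (K L : Type) [Field K] [Field L] [Algebra K L]
    (F : Fin (1 + 1) → MvPolynomial (Fin (1 + 1)) K) (l : ℕ) (z : Fin (1 + 1) → L),
    act (itF F l) z = (act F)^[l] z) ∧
  (∀ (k : Type) [Field k] (Φ : Fin (1 + 1) → MvPolynomial (Fin (1 + 1)) k) (q : ℕ),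
    (∀ i, (Φ i).IsHomogeneous q) → NZ Φ → ∀ l, NZ (itF Φ l)) ∧
  (∀ (R : Type) [CommRing R] (p : MvPolynomial (Fin (1 + 1)) R) (D : ℕ), p.IsHomogeneous D →
    (dz p).natDegree ≤ D) ∧
  (∀ (R S : Type) [CommRing R] [CommRing S] (f : R →+* S) (p : MvPolynomial (Fin (1 + 1)) R),
    (dz p).map f = dz (MvPolynomial.map f p)) ∧
  (∀ (R S : Type) [CommRing R] [CommRing S] (φ : R →+* S) (b : ℕ) (f s : R[X]) (g : R[X][X]),
    (hom2 b f s g).map (mapRingHom φ) =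
      hom2 b (f.map φ) (s.map φ) (g.map (mapRingHom φ)))

/-- (CRT) reduction of ramification data modulo almost all primes -/
def CrtLem : Prop :=
  ∀ (K : Type) [Field K] [NumberField K] (q : ℕ)
    (G : Fin (1 + 1) → MvPolynomial (Fin (1 + 1)) (𝓞 K)), (∀ i, (G i).IsHomogeneous q) → 1 ≤ q →
    ∀ (s : ℕ) (c : Fin s → Fin (1 + 1) → AlgebraicClosure K) (n e : Fin s → ℕ),
    (∀ i, Dat (fun j => MvPolynomial.map
      ((algebraMap K (AlgebraicClosure K)).comp (algebraMap (𝓞 K) K)) (G j)) (c i) (n i) (e i)) →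
    (∀ i j, i ≠ j → wdg
      ((pt (fun j => MvPolynomial.map
        ((algebraMap K (AlgebraicClosure K)).comp (algebraMap (𝓞 K) K)) (G j)))^[n i] (c i))
      ((pt (fun j => MvPolynomial.map
        ((algebraMap K (AlgebraicClosure K)).comp (algebraMap (𝓞 K) K)) (G j)))^[n j] (c j)) ≠ 0) →
    2 ≤ s →
    ∃ N : ℕ, N ≠ 0 ∧ ∀ (A : ValuationSubring (AlgebraicClosure K)) (ψ : 𝓞 K →+* A),
      (∀ a, ((ψ a : A) : AlgebraicClosure K) = algebraMap K (AlgebraicClosure K) (a : K)) →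
      ((N : ℕ) : rf A) ≠ 0 →
      ∃ c' : Fin s → Fin (1 + 1) → rf A, (∀ i, c' i ≠ 0) ∧
        (∀ i, Dat (fun j => MvPolynomial.map ((red A).comp ψ) (G j)) (c' i) (n i) (e i)) ∧
        ∀ i j, i ≠ j → wdg
          ((pt (fun j => MvPolynomial.map ((red A).comp ψ) (G j)))^[n i] (c' i))
          ((pt (fun j => MvPolynomial.map ((red A).comp ψ) (G j)))^[n j] (c' j)) ≠ 0

/-! ### Numbers -/

/-- (PAR) the parameters -/
def Par3 : Prop :=
  ∀ (E c₀ ω₀ : ℝ) (r q : ℕ), 0 ≤ E → 0 < c₀ → 0 < ω₀ → 1 ≤ r → 2 ≤ q →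
    ∃ (S₁ S₂ b t R : ℕ), 1 ≤ S₁ ∧ b = 12 * r * S₁ ∧ t = 2 * (b + q) + 1 ∧
      R = 2 * (2 * r) * t * (S₂ + 1) ∧
      2 + E * (1 + Nat.log 2 b : ℕ) + E * (1 + Nat.log 2 b : ℕ) +
        Real.log ((b + 1) * (b + 1) : ℕ) < S₁ * (c₀ * ω₀) / (4 * r) ∧
      2 + E * (1 + Nat.log 2 R : ℕ) + Real.log R < S₂ * (c₀ * ω₀ / t) / (2 * (2 * r))

/-- (PRM) a prime -/
def PrmLem : Prop :=
  ∀ (K : Type) [Field K] [NumberField K] (n : ℕ), ∃ (p : ℕ) (P : Ideal (𝓞 K)), p.Prime ∧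
    P.IsMaximal ∧ P ≠ ⊥ ∧ (p : 𝓞 K) ∈ P ∧ (p : 𝓞 K) ∉ P ^ 2 ∧ n < p

end

end Pool.Agent.N715.AD
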