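import Mathlib
import Pool.Agent.N715.AD.Stm
import Pool.Agent.N715.AC.Dis

/-!
Project AD: the last step of a cyclotomic tower moves everything very little (CYK).
-/

set_option autoImplicit false
set_option linter.unusedSectionVars false

namespace Pool.Agent.N715.AD

open NumberField Module Polynomial
open Pool.Agent.H420R3 (mi nv TP ew mem_TP nv_pos v_fixed_le v_lt_one_iff card_inertia
  liesOver_of_mem)
open Pool.Agent.N715.AC.Dis (w_nat)
open Pool.Agent.R829.BH (inertia_lt inertia_v)

noncomputable section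

namespace Cyk

section Basic

variable {M : Type} [Field M] [NumberField M] (v : FinitePlace M)

lemma v_int (a : 𝓞 M) : v (a : M) ≤ 1 := H420R3.v_le_one v a

lemma v_root {z : M} {n : ℕ} (hn : n ≠ 0) (h : z ^ n = 1) : v z = 1 := by
  have h1 : v z ^ n = 1 := by rw [← map_pow, h, map_one]
  exact (pow_eq_one_iff_of_nonneg (apply_nonneg v z) hn).1 h1

lemma v_sub_le' (x y : M) : v (x - y) ≤ max (v x) (v y) := H420R3.v_sub_le v x y

lemma v_sum_le {ι : Type} (s : Finset ι) (f : ι → M) {c : ℝ} (hc : 0 ≤ c)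
    (h : ∀ i ∈ s, v (f i) ≤ c) : v (∑ i ∈ s, f i) ≤ c := by
  classical
  induction s using Finset.induction_on with
  | empty => simpa using hc
  | insert a s ha ih =>
    rw [Finset.sum_insert ha]
    exact (FinitePlace.add_le v _ _).trans (max_le (h a (Finset.mem_insert_self a s))
      (ih fun i hi => h i (Finset.mem_insert_of_mem hi)))

lemma v_sum_lt {ι : Type} (s : Finset ι) (f : ι → M) {c : ℝ} (hc : 0 < c)
    (h : ∀ i ∈ s, v (f i) < c) : v (∑ i ∈ s, f i) < c := by
  classical
  induction s using Finset.induction_on with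
  | empty => simpa using hc
  | insert a s ha ih =>
    rw [Finset.sum_insert ha]
    exact (FinitePlace.add_le v _ _).trans_lt (max_lt (h a (Finset.mem_insert_self a s))
      (ih fun i hi => h i (Finset.mem_insert_of_mem hi)))

/-- a root of unity of order prime to the residue characteristic -/
lemma root_eq_one {t : M} {m : ℕ} (hm : v (m : M) = 1) (ht : t ^ m = 1) (hlt : v (t - 1) < 1) :
    t = 1 := by
  by_contra hne
  have h1 : ∑ i ∈ Finset.range m, t ^ i = 0 := by
    have h2 := geom_sum_mul t m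
    rw [ht, sub_self] at h2
    exact (mul_eq_zero.1 h2).resolve_right (sub_ne_zero.2 hne)
  have h2 : ∑ i ∈ Finset.range m, (t ^ i - 1) = -(m : M) := by
    rw [Finset.sum_sub_distrib, h1, Finset.sum_const, Finset.card_range, nsmul_eq_mul, mul_one,
      zero_sub]
  have hm0 : m ≠ 0 := by
    rintro rfl
    rw [Nat.cast_zero, map_zero] at hm
    exact zero_ne_one hm
  have hvt : v t = 1 := v_root v hm0 ht
  have h3 : ∀ i ∈ Finset.range m, v (t ^ i - 1) < 1 := by
    intro i _
    rw [← mul_geom_sum t i] at *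
    have h4 : v (∑ j ∈ Finset.range i, t ^ j) ≤ 1 := by
      refine v_sum_le v _ _ zero_le_one fun j _ => ?_
      rw [map_pow, hvt, one_pow]
    rw [map_mul]
    calc v (t - 1) * v (∑ j ∈ Finset.range i, t ^ j) ≤ v (t - 1) * 1 :=
          mul_le_mul_of_nonneg_left h4 (apply_nonneg v _)
      _ < 1 := by rwa [mul_one]
  have h4 := v_sum_lt v _ _ one_pos h3
  rw [h2] at h4
  have h5 : v (-(m : M)) = v (m : M) := by
    rw [neg_eq_neg_one_mul, map_mul]
    have : v (-1 : M) = 1 := v_root v two_ne_zero (by norm_num)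
    rw [this, one_mul]
  rw [h5, hm] at h4
  exact lt_irrefl _ h4

/-- the value of `1 - t` -/
lemma v_one_sub {t t' : M} {n : ℕ} (hn : n ≠ 0) (ht : IsPrimitiveRoot t n)
    (ht' : IsPrimitiveRoot t' n) : v (1 - t) ≤ v (1 - t') := by
  have : NeZero n := ⟨hn⟩
  obtain ⟨i, -, rfl⟩ := ht'.eq_pow_of_pow_eq_one ht.pow_eq_one
  have h1 : 1 - t' ^ i = (1 - t') * ∑ j ∈ Finset.range i, t' ^ j := (mul_neg_geom_sum t' i).symm
  rw [h1, map_mul]
  refine mul_le_of_le_one_right (apply_nonneg v _) ?_
  refine v_sum_le v _ _ zero_le_one fun j _ => ?_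
  rw [map_pow, v_root v hn ht'.pow_eq_one, one_pow]

lemma v_prim {p : ℕ} (hp : p.Prime) {c : ℕ} {t : M} (ht : IsPrimitiveRoot t (p ^ (c + 1))) :
    v (1 - t) ^ (p ^ c * (p - 1)) = v (p : M) := by
  have : Fact p.Prime := ⟨hp⟩
  have hn : p ^ (c + 1) ≠ 0 := pow_ne_zero _ hp.ne_zero
  have h1 : eval 1 (cyclotomic (p ^ (c + 1)) M) = p := eval_one_cyclotomic_prime_pow c
  rw [cyclotomic_eq_prod_X_sub_primitiveRoots ht, eval_prod] at h1
  rw [← h1, map_prod]
  have h2 : ∀ μ ∈ primitiveRoots (p ^ (c + 1)) M, v (eval 1 (X - C μ)) = v (1 - t) := by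
    intro μ hμ
    rw [mem_primitiveRoots (Nat.pos_of_ne_zero hn)] at hμ
    rw [eval_sub, eval_X, eval_C]
    exact le_antisymm (v_one_sub v hn hμ ht) (v_one_sub v hn ht hμ)
  rw [Finset.prod_congr rfl h2, Finset.prod_const, ht.card_primitiveRoots,
    Nat.totient_prime_pow_succ hp]

/-- powers of two close elements -/
lemma v_pow_sub {x y : M} {c : ℝ} (hc : 0 ≤ c) (hc1 : c ≤ 1) (h : v (x - y) ≤ c * v y) (i : ℕ) :
    v (x ^ i - y ^ i) ≤ c * v y ^ i := by
  have hx : v x ≤ v y := by
    have h1 : x = (x - y) + y := by ring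
    rw [h1]
    refine (FinitePlace.add_le v _ _).trans (max_le (h.trans ?_) le_rfl)
    exact mul_le_of_le_one_left (apply_nonneg v _) hc1
  induction i with
  | zero => simpa using hc
  | succ i ih =>
    have h1 : x ^ (i + 1) - y ^ (i + 1) = x * (x ^ i - y ^ i) + (x - y) * y ^ i := by ring
    rw [h1]
    refine (FinitePlace.add_le v _ _).trans (max_le ?_ ?_)
    · rw [map_mul]
      calc v x * v (x ^ i - y ^ i) ≤ v y * (c * v y ^ i) :=
            mul_le_mul hx ih (apply_nonneg v _) (apply_nonneg v _)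
        _ = _ := by ring
    · rw [map_mul, map_pow]
      calc v (x - y) * v y ^ i ≤ c * v y * v y ^ i :=
            mul_le_mul_of_nonneg_right h (pow_nonneg (apply_nonneg v _) _)
        _ = _ := by ring

lemma pow_term {x ϖ : M} {ρ : ℝ} (hρ : 0 < ρ) {n : ℕ} (h : v ϖ ^ n = ρ) {k : ℤ}
    (hk : v x = ρ ^ k) (i : ℕ) : v (x * ϖ ^ i) ^ n = ρ ^ (k * n + i) := by
  rw [map_mul, map_pow, mul_pow, hk, ← pow_mul, mul_comm i n, pow_mul, h,
    zpow_add₀ hρ.ne', zpow_mul, zpow_natCast, zpow_natCast]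

/-- the dominating term of a sum -/
lemma v_dom {n : ℕ} (f : ℕ → M)
    (hf : ∀ i < n, ∀ j < n, f i ≠ 0 → v (f i) = v (f j) → i = j) :
    ∀ i < n, v (f i) ≤ v (∑ j ∈ Finset.range n, f j) := by
  intro i hi
  obtain ⟨k, hk, hmax⟩ := Finset.exists_max_image (Finset.range n) (fun j => v (f j))
    ⟨i, Finset.mem_range.2 hi⟩
  rw [Finset.mem_range] at hk
  refine (hmax i (Finset.mem_range.2 hi)).trans ?_
  by_cases h0 : f k = 0
  · rw [h0, map_zero]
    exact apply_nonneg v _
  · have hpos : 0 < v (f k) := FinitePlace.pos_iff.mpr h0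
    rw [← Finset.add_sum_erase _ _ (Finset.mem_range.2 hk)]
    have h1 : v (∑ j ∈ (Finset.range n).erase k, f j) < v (f k) := by
      refine v_sum_lt v _ _ hpos fun j hj => ?_
      have h2 := Finset.mem_erase.1 hj
      refine lt_of_le_of_ne (hmax j h2.2) fun h3 => h2.1 ?_
      exact (hf k hk j (Finset.mem_range.1 h2.2) h0 h3.symm).symm
    by_contra hcon
    push Not at hcon
    have h2 : f k = (f k + ∑ j ∈ (Finset.range n).erase k, f j) -
        ∑ j ∈ (Finset.range n).erase k, f j := by ring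
    have h3 : v (f k) < v (f k) := by
      conv_lhs => rw [h2]
      exact (v_sub_le' v _ _).trans_lt (max_lt hcon h1)
    exact lt_irrefl _ h3

end Basic

section Prime

variable {K : Type} [Field K] [NumberField K] {M : Type} [Field M] [NumberField M] [Algebra K M]
  {P : Ideal (𝓞 K)} [hP : P.IsMaximal]

/-- the value of `p` -/
lemma v_p (hP0 : P ≠ ⊥) {v : FinitePlace M} (hv : v ∈ TP M P) {p : ℕ} (hpP : (p : 𝓞 K) ∈ P)
    (hp2 : (p : 𝓞 K) ∉ P ^ 2) : v (p : M) = Real.exp (-ew K v) := by
  have hlo := liesOver_of_mem hP0 hv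
  have hp0 : (p : 𝓞 K) ≠ 0 := fun h => hp2 (h ▸ Submodule.zero_mem _)
  have hp0M : (p : 𝓞 M) ≠ 0 := by
    intro h
    apply hp0
    have h1 : (p : ℕ) = 0 := by exact_mod_cast h
    rw [h1, Nat.cast_zero]
  obtain ⟨J, hJ⟩ : P ∣ Ideal.span {(p : 𝓞 K)} := by
    rw [Ideal.dvd_span_singleton]
    exact hpP
  have hJP : ¬ J ≤ P := by
    intro h
    apply hp2
    rw [sq, ← Ideal.span_singleton_le_iff_mem, hJ]
    exact Ideal.mul_mono_right h
  have h1 : Ideal.span {(p : 𝓞 M)} = P.map (algebraMap (𝓞 K) (𝓞 M)) *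
      J.map (algebraMap (𝓞 K) (𝓞 M)) := by
    rw [← Ideal.map_mul, ← hJ, Ideal.map_span, Set.image_singleton, map_natCast]
  have hprime : Prime (mi v) := Ideal.prime_of_isPrime (H420R3.mi_ne_bot v) inferInstance
  have hfin := H420R3.finMult v hp0M
  have h2 : multiplicity (mi v) (Ideal.span {(p : 𝓞 M)}) = (mi v).ramificationIdx (𝓞 K) := by
    have hPM : P.map (algebraMap (𝓞 K) (𝓞 M)) ≠ ⊥ := Ideal.map_ne_bot_of_ne_bot hP0
    rw [h1] at hfin ⊢
    rw [multiplicity_mul hprime hfin,
      ← Ideal.IsDedekindDomain.ramificationIdx'_eq_multiplicity hPM inferInstance,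
      Ideal.ramificationIdx'_eq_ramificationIdx P (mi v) hP0]
    have h3 : multiplicity (mi v) (J.map (algebraMap (𝓞 K) (𝓞 M))) = 0 := by
      apply multiplicity_eq_zero.2
      intro h
      apply hJP
      have h4 := Ideal.map_le_iff_le_comap.1 (Ideal.le_of_dvd h)
      have h5 : (mi v).under (𝓞 K) = P := hlo.over.symm
      rw [← h5]
      exact h4
    rw [h3, add_zero]
  have h3 := H420R3.v_eq v hp0M
  rw [h2] at h3
  have h4 : ((p : 𝓞 M) : M) = (p : M) := by simp
  rw [h4] at h3
  rw [h3, Real.exp_neg]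
  unfold ew
  rw [Real.exp_nat_mul, Real.exp_log (nv_pos v)]

end Prime

end Cyk

open Cyk in
theorem cycKey : CycKey := by
  intro K _ _ M _ _ _ P hPm hP0 p hp hpP hp2 a m ζ ha hm hζ htop σ hσ v hv z
  have hv' := v_p (M := M) hP0 hv hpP hp2
  have hm0 : m ≠ 0 := by
    rintro rfl
    exact hm (dvd_zero p)
  have hpa0 : p ^ a ≠ 0 := pow_ne_zero _ hp.ne_zero
  have hN0 : p ^ a * m ≠ 0 := mul_ne_zero hpa0 hm0
  -- the extension is Galois
  have hcyc : IsCyclotomicExtension {p ^ a * m} K M := by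
    rw [IsCyclotomicExtension.iff_adjoin_eq_top]
    refine ⟨fun s hs _ => ⟨ζ, by rw [Set.mem_singleton_iff.1 hs]; exact hζ⟩, ?_⟩
    have h1 : Algebra.adjoin K {ζ} = ⊤ := by
      have h2 := IntermediateField.adjoin_simple_toSubalgebra_of_isAlgebraic
        (Algebra.IsAlgebraic.isAlgebraic (R := K) ζ)
      rw [htop, IntermediateField.top_toSubalgebra] at h2
      exact h2.symm
    rw [eq_top_iff, ← h1]
    exact Algebra.adjoin_mono (Set.singleton_subset_iff.2
      ⟨p ^ a * m, rfl, hN0, hζ.pow_eq_one⟩)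
  have hgal : IsGalois K M := IsCyclotomicExtension.isGalois {p ^ a * m} K M
  -- the residue characteristic
  have hew := H420R3.ew_pos (K := K) v
  have hρ1 : v (p : M) < 1 := by
    rw [hv', Real.exp_lt_one_iff]
    linarith
  have hρ0 : 0 < v (p : M) := by
    rw [hv']
    exact Real.exp_pos _
  have hvm : v (m : M) = 1 := w_nat hp hρ1 m hm
  -- the two roots of unity
  set z1 : M := ζ ^ m with hz1
  set z2 : M := ζ ^ (p ^ a) with hz2
  have hz1p : IsPrimitiveRoot z1 (p ^ a) := hζ.pow (Nat.pos_of_ne_zero hN0) (mul_comm _ _)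
  have hz2p : z2 ^ m = 1 := by rw [hz2, ← pow_mul, hζ.pow_eq_one]
  have hvz2 : v z2 = 1 := v_root v hm0 hz2p
  have hz20 : z2 ≠ 0 := by
    intro h
    rw [h, map_zero] at hvz2
    exact zero_ne_one hvz2
  set U : IntermediateField K M := IntermediateField.adjoin K {z2} with hU
  -- the fixed elements
  have hfixU : ∀ τ : Gal(M/K), τ z2 = z2 → ∀ x ∈ U, τ x = x := by
    intro τ hτ x hx
    have hle : U ≤ IntermediateField.fixedField (Subgroup.zpowers τ) := by
      rw [hU, IntermediateField.adjoin_le_iff, Set.singleton_subset_iff]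
      change z2 ∈ IntermediateField.fixedField (Subgroup.zpowers τ)
      rw [IntermediateField.mem_fixedField_iff]
      intro g hg
      have h1 : Subgroup.zpowers τ ≤ MulAction.stabilizer Gal(M/K) z2 := by
        rw [Subgroup.zpowers_le]
        exact hτ
      exact h1 hg
    have h1 := hle hx
    rw [IntermediateField.mem_fixedField_iff] at h1
    exact h1 τ (Subgroup.mem_zpowers τ)
  have hinert : ∀ τ ∈ (mi v).inertia Gal(M/K), τ z2 = z2 := by
    intro τ hτ
    have h1 : (τ z2 / z2) ^ m = 1 := by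
      rw [div_pow, ← map_pow, hz2p, map_one, div_one]
    have h2 : v (τ z2 / z2 - 1) < 1 := by
      have h3 : τ z2 / z2 - 1 = (τ z2 - z2) / z2 := by
        field_simp
      rw [h3, map_div₀, hvz2, div_one]
      exact inertia_lt hτ hvz2.le
    have h3 := root_eq_one v hvm h1 h2
    rwa [div_eq_one_iff_eq hz20] at h3
  have hUgap : ∀ x ∈ U, v x < 1 → v x ≤ v (p : M) := by
    intro x hx hx1
    have h1 := v_fixed_le v ((mi v).inertia Gal(M/K)) le_rfl
      (fun h hh => hfixU h (hinert h hh) x hx) hx1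
    refine h1.trans (le_of_eq ?_)
    rw [hv', ← card_inertia hP0 hv, Real.exp_neg, Real.exp_nat_mul, Real.exp_log (nv_pos v)]
  have hUpow : ∀ x ∈ U, x ≠ 0 → ∃ k : ℤ, v x = v (p : M) ^ k := by
    intro x hx hx0
    have hxpos : 0 < v x := FinitePlace.pos_iff.mpr hx0
    obtain ⟨k, hk⟩ := exists_mem_Ioc_zpow hxpos (one_lt_inv_iff₀.2 ⟨hρ0, hρ1⟩)
    -- `ρ^-k < v x ≤ ρ^-(k+1)`
    have hpM0 : (p : M) ≠ 0 := FinitePlace.pos_iff.mp hρ0
    set y : M := x * (p : M) ^ (k + 1) with hy
    have hyU : y ∈ U := by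
      rw [hy]
      exact U.mul_mem hx (zpow_mem (natCast_mem U p) _)
    have hvy : v y = v x * v (p : M) ^ (k + 1) := by
      rw [hy, map_mul, map_zpow₀]
    have h1 : v y ≤ 1 := by
      rw [hvy]
      calc v x * v (p : M) ^ (k + 1) ≤ (v (p : M))⁻¹ ^ (k + 1) * v (p : M) ^ (k + 1) :=
            mul_le_mul_of_nonneg_right hk.2 (zpow_nonneg hρ0.le _)
        _ = 1 := by
          rw [← mul_zpow, inv_mul_cancel₀ hρ0.ne', one_zpow]
    have h2 : v (p : M) < v y := by
      rw [hvy]
      calc v (p : M) = (v (p : M))⁻¹ ^ k * v (p : M) ^ (k + 1) := by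
            rw [zpow_add_one₀ hρ0.ne', ← mul_assoc, ← mul_zpow, inv_mul_cancel₀ hρ0.ne', one_zpow,
              one_mul]
        _ < _ := mul_lt_mul_of_pos_right hk.1 (zpow_pos hρ0 _)
    have h3 : v y = 1 := by
      refine le_antisymm h1 ?_
      by_contra hcon
      exact absurd (hUgap y hyU (not_le.1 hcon)) (not_le.2 h2)
    refine ⟨-(k + 1), ?_⟩
    rw [zpow_neg]
    rw [hvy] at h3
    exact eq_inv_of_mul_eq_one_left h3
  -- the uniformizer
  obtain ⟨c, rfl⟩ : ∃ c, a = c + 2 := ⟨a - 2, by omega⟩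
  set n : ℕ := p ^ (c + 1) * (p - 1) with hn
  set ϖ : M := 1 - z1 with hϖ
  have hϖv : v ϖ ^ n = v (p : M) := v_prim v hp hz1p
  have hp1 : 1 ≤ p - 1 := by have := hp.two_le; omega
  have hn0 : n ≠ 0 := Nat.mul_ne_zero (pow_ne_zero _ hp.ne_zero) (by omega)
  have hϖ0 : 0 < v ϖ := by
    refine lt_of_le_of_ne (apply_nonneg v _) fun h => ?_
    rw [← h, zero_pow hn0] at hϖv
    exact hρ0.ne hϖv
  -- the representation
  have hrep : ∃ f : ℕ → M, (∀ i, f i ∈ U) ∧ z = ∑ i ∈ Finset.range n, f i * ϖ ^ i := by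
    have hz1U : IntermediateField.adjoin U {ϖ} = ⊤ := by
      have h1 : ζ ∈ (IntermediateField.adjoin U {ϖ}).restrictScalars K := by
        have h2 : z1 ∈ (IntermediateField.adjoin U {ϖ}).restrictScalars K := by
          have h3 : z1 = 1 - ϖ := by rw [hϖ]; ring
          rw [h3]
          refine sub_mem (one_mem _) ?_
          exact IntermediateField.mem_adjoin_simple_self U ϖ
        have h3 : z2 ∈ (IntermediateField.adjoin U {ϖ}).restrictScalars K := by
          have h4 : z2 ∈ U := IntermediateField.mem_adjoin_simple_self K z2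
          exact (IntermediateField.adjoin U {ϖ}).algebraMap_mem ⟨z2, h4⟩
        have hcop : Nat.Coprime (p ^ (c + 2)) m :=
          Nat.Coprime.pow_left _ ((Nat.Prime.coprime_iff_not_dvd hp).2 hm)
        have h4 : ζ = z2 ^ (Nat.gcdA (p ^ (c + 2)) m) * z1 ^ (Nat.gcdB (p ^ (c + 2)) m) := by
          rw [hz1, hz2, ← zpow_natCast, ← zpow_natCast, ← zpow_mul, ← zpow_mul,
            ← zpow_add₀ (hζ.ne_zero hN0), ← Nat.gcd_eq_gcd_ab, hcop.gcd_eq_one, Nat.cast_one,
            zpow_one]
        rw [h4]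
        exact mul_mem (zpow_mem h3 _) (zpow_mem h2 _)
      have h2 : (⊤ : IntermediateField K M) ≤
          (IntermediateField.adjoin U {ϖ}).restrictScalars K := by
        rw [← htop, IntermediateField.adjoin_le_iff, Set.singleton_subset_iff]
        exact h1
      rw [eq_top_iff]
      intro x _
      exact h2 (IntermediateField.mem_top (x := x))
    have hint : IsIntegral U ϖ := Algebra.IsIntegral.isIntegral ϖ
    have hadj : Algebra.adjoin U {ϖ} = ⊤ := by
      have h2 := IntermediateField.adjoin_simple_toSubalgebra_of_isAlgebraic hint.isAlgebraic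
      rw [hz1U, IntermediateField.top_toSubalgebra] at h2
      exact h2.symm
    have hzm : z ∈ Algebra.adjoin U {ϖ} := by
      rw [hadj]
      exact Algebra.mem_top
    rw [Algebra.adjoin_singleton_eq_range_aeval] at hzm
    obtain ⟨g, hg⟩ := hzm
    have hg' : aeval ϖ g = z := hg
    -- the degree of the minimal polynomial
    have hdeg : (minpoly U ϖ).natDegree ≤ n := by
      set Q : U[X] := (cyclotomic (p ^ (c + 2)) U).comp (1 - X) with hQ
      have hQdeg : Q.natDegree = n := by
        rw [hQ, natDegree_comp, natDegree_cyclotomic, Nat.totient_prime_pow_succ hp]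
        have : (1 - X : U[X]).natDegree = 1 := by
          have h5 : (1 - X : U[X]) = -(X - C 1) := by rw [C_1]; ring
          rw [h5, natDegree_neg, natDegree_X_sub_C]
        rw [this, mul_one]
      have hQ0 : Q ≠ 0 := by
        intro h
        rw [h, natDegree_zero] at hQdeg
        exact hn0 hQdeg.symm
      have hQr : aeval ϖ Q = 0 := by
        rw [hQ, aeval_comp]
        have h5 : aeval ϖ (1 - X : U[X]) = z1 := by
          rw [map_sub, map_one, aeval_X, hϖ]
          ring
        rw [h5, aeval_def, ← eval_map, map_cyclotomic]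
        exact hz1p.isRoot_cyclotomic (Nat.pos_of_ne_zero hpa0)
      rw [← hQdeg]
      exact natDegree_le_of_dvd (minpoly.dvd U ϖ hQr) hQ0
    set g' : U[X] := g %ₘ (minpoly U ϖ) with hg''
    have hmon := minpoly.monic hint
    have hgz : aeval ϖ g' = z := by
      rw [hg'', ← hg']
      conv_rhs => rw [← modByMonic_add_div g (minpoly U ϖ)]
      rw [map_add, map_mul, minpoly.aeval, zero_mul, add_zero]
    have hgd : g'.natDegree < n := by
      have h5 : g'.natDegree < (minpoly U ϖ).natDegree := by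
        refine natDegree_modByMonic_lt g hmon fun h => ?_
        have h6 := minpoly.natDegree_pos hint
        rw [h, natDegree_one] at h6
        exact lt_irrefl _ h6
      omega
    refine ⟨fun i => ((g'.coeff i : U) : M), fun i => (g'.coeff i).2, ?_⟩
    rw [← hgz, aeval_eq_sum_range' hgd]
    refine Finset.sum_congr rfl fun i _ => ?_
    rw [Algebra.smul_def]
    rfl
  obtain ⟨f, hfU, hz⟩ := hrep
  -- the terms are dominated
  have hdom : ∀ i < n, v (f i * ϖ ^ i) ≤ v z := by
    rw [hz]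
    refine v_dom v (fun i => f i * ϖ ^ i) ?_
    intro i hi j hj hne heq
    have hne' : f j * ϖ ^ j ≠ 0 := by
      intro h
      have heq' : v (f i * ϖ ^ i) = v (f j * ϖ ^ j) := heq
      rw [h, map_zero] at heq'
      exact (FinitePlace.pos_iff.mpr hne).ne' heq'
    obtain ⟨k, hk⟩ := hUpow (f i) (hfU i) (left_ne_zero_of_mul hne)
    obtain ⟨l, hl⟩ := hUpow (f j) (hfU j) (left_ne_zero_of_mul hne')
    have h1 : v (f i * ϖ ^ i) ^ n = v (p : M) ^ (k * n + i) := pow_term v hρ0 hϖv hk i
    have h2 : v (f j * ϖ ^ j) ^ n = v (p : M) ^ (l * n + j) := pow_term v hρ0 hϖv hl j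
    have h3 : v (p : M) ^ (k * n + i) = v (p : M) ^ (l * n + j) := by
      rw [← h1, ← h2]
      exact congrArg (· ^ n) heq
    have h4 : k * n + i = l * n + j := zpow_right_injective₀ hρ0 hρ1.ne h3
    have h5 : (k * n + i) % (n : ℤ) = i := by
      rw [Int.add_comm, Int.add_mul_emod_self_right]
      exact Int.emod_eq_of_lt (by positivity) (by exact_mod_cast hi)
    have h6 : (l * n + j) % (n : ℤ) = j := by
      rw [Int.add_comm, Int.add_mul_emod_self_right]
      exact Int.emod_eq_of_lt (by positivity) (by exact_mod_cast hj)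
    rw [h4, h6] at h5
    exact_mod_cast h5.symm
  -- the action of `σ`
  have hσz2 : σ z2 = z2 := by
    have h1 : z2 = (ζ ^ p) ^ (p ^ (c + 1)) := by
      rw [hz2, ← pow_mul]
      congr 1
      ring
    rw [h1, map_pow, hσ]
  have hσU := hfixU σ hσz2
  have hσz1 : (σ z1) ^ p = z1 ^ p := by
    rw [← map_pow]
    have h1 : z1 ^ p = (ζ ^ p) ^ m := by
      rw [hz1, ← pow_mul, ← pow_mul, mul_comm]
    rw [h1, map_pow, hσ]
  have hvz1 : v z1 = 1 := v_root v hpa0 hz1p.pow_eq_one
  have hz10 : z1 ≠ 0 := by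
    intro h
    rw [h, map_zero] at hvz1
    exact zero_ne_one hvz1
  set η : ℝ := Real.exp (-(ew K v / p)) with hη
  have hppos : (0 : ℝ) < p := by exact_mod_cast hp.pos
  have hη1 : η ≤ 1 := by
    rw [hη, Real.exp_le_one_iff]
    have : 0 ≤ ew K v / p := by positivity
    linarith
  have hclose : v (σ ϖ - ϖ) ≤ η * v ϖ := by
    have h1 : σ ϖ - ϖ = z1 * (1 - σ z1 / z1) := by
      rw [hϖ, map_sub, map_one]
      field_simp
      ring
    rw [h1, map_mul, hvz1, one_mul]
    set w : M := σ z1 / z1 with hw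
    have hwp : w ^ p = 1 := by
      rw [hw, div_pow, hσz1, div_self (pow_ne_zero _ hz10)]
    by_cases hw1 : w = 1
    · rw [hw1, sub_self, map_zero]
      positivity
    · have hwprim : IsPrimitiveRoot w (p ^ (0 + 1)) := by
        rw [zero_add, pow_one]
        have : Fact p.Prime := ⟨hp⟩
        have h0 := IsPrimitiveRoot.orderOf w
        rwa [orderOf_eq_prime hwp hw1] at h0
      have h2 := v_prim v hp hwprim
      rw [pow_zero, one_mul] at h2
      have hw0 : 0 < v (1 - w) := FinitePlace.pos_iff.mpr (sub_ne_zero.2 (Ne.symm hw1))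
      have h3 : ((p - 1 : ℕ) : ℝ) * Real.log (v (1 - w)) = -ew K v := by
        rw [← Real.log_pow, h2, hv', Real.log_exp]
      have h4 : (n : ℝ) * Real.log (v ϖ) = -ew K v := by
        rw [← Real.log_pow, hϖv, hv', Real.log_exp]
      rw [hη, ← Real.exp_log hw0, ← Real.exp_log hϖ0, ← Real.exp_add, Real.exp_le_exp]
      have hq : (0 : ℝ) < ((p - 1 : ℕ) : ℝ) := by exact_mod_cast hp1
      have hnpos : (0 : ℝ) < n := by exact_mod_cast Nat.pos_of_ne_zero hn0
      have h5 : Real.log (v (1 - w)) = -(ew K v / ((p - 1 : ℕ) : ℝ)) := by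
        field_simp
        linarith
      have h6 : Real.log (v ϖ) = -(ew K v / n) := by
        field_simp
        linarith
      rw [h5, h6]
      have h7 : ((p * (p - 1) : ℕ) : ℝ) ≤ n := by
        have : p * (p - 1) ≤ n := by
          rw [hn]
          exact Nat.mul_le_mul_right _ (Nat.le_self_pow (by omega) p)
        exact_mod_cast this
      have h8 : ew K v / n ≤ ew K v / ((p * (p - 1) : ℕ) : ℝ) := by
        apply div_le_div_of_nonneg_left hew.le _ h7
        push_cast
        positivity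
      have h9 : ew K v / ((p * (p - 1) : ℕ) : ℝ) + ew K v / p = ew K v / ((p - 1 : ℕ) : ℝ) := by
        have h10 : (p : ℝ) = ((p - 1 : ℕ) : ℝ) + 1 := by
          rw [Nat.cast_sub hp.one_le]
          ring
        rw [Nat.cast_mul]
        field_simp
        linarith
      linarith
  have hσz : σ z - z = ∑ i ∈ Finset.range n, f i * ((σ ϖ) ^ i - ϖ ^ i) := by
    rw [hz, map_sum, ← Finset.sum_sub_distrib]
    refine Finset.sum_congr rfl fun i _ => ?_
    rw [map_mul, map_pow, hσU _ (hfU i)]
    ring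
  rw [hσz]
  refine v_sum_le v _ _ (by positivity) fun i hi => ?_
  rw [map_mul]
  calc v (f i) * v ((σ ϖ) ^ i - ϖ ^ i) ≤ v (f i) * (η * v ϖ ^ i) :=
        mul_le_mul_of_nonneg_left (v_pow_sub v (Real.exp_pos _).le hη1 hclose i)
          (apply_nonneg v _)
    _ = η * v (f i * ϖ ^ i) := by
        rw [map_mul, map_pow]
        ring
    _ ≤ η * v z := mul_le_mul_of_nonneg_left (hdom i (Finset.mem_range.1 hi)) (Real.exp_pos _).le

end

end Pool.Agent.N715.AD
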