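import Mathlib
import Pool.Agent.N715.AD.Stm
import Pool.Agent.N715.AC.Dis

/-!
Project AD (helper715): lifting a very small move to the field generated by the conjugates of an
element of bounded degree (LIF).  By helper592.
-/

set_option autoImplicit false
set_option linter.unusedSectionVars false

namespace Pool.Agent.N715.AD

namespace Lif

open NumberField Module Polynomial
open Pool.Agent.H420R3 (mi nv TP ew mem_TP v_smul nv_pos v_fixed_le v_lt_one_iff v_sub_le)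
open Pool.Agent.R829.BG (mul_close v_sum_lt)
open Pool.Agent.R829.BH (inertia_lt inertia_v)
open Pool.Agent.N715.AC (CF)
open Pool.Agent.N715.AC.Dis (pow_fact_conj w_nat mem_fix)
open scoped Pointwise

noncomputable section

section Val

variable {L : Type} [Field L] [NumberField L] {v : FinitePlace L}

lemma v_ne {x : L} (hx : x ≠ 0) : v x ≠ 0 := (FinitePlace.pos_iff.mpr hx).ne'

lemma v_nn (x : L) : 0 ≤ v x := by positivity

lemma add_lt {a b : L} {c : ℝ} (ha : v a < c) (hb : v b < c) : v (a + b) < c :=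
  lt_of_le_of_lt (FinitePlace.add_le v a b) (max_lt ha hb)

/-- elements close to one -/
lemma one_of_close {t : L} (h : v (t - 1) < 1) : v t = 1 := by
  apply le_antisymm
  · have h1 : t = (t - 1) + 1 := by ring
    rw [h1]
    refine (FinitePlace.add_le v _ _).trans (max_le h.le ?_)
    rw [map_one]
  · by_contra hcon
    push Not at hcon
    have h1 : (1 : L) = t - (t - 1) := by ring
    have h2 : v (1 : L) < 1 := by
      rw [h1]
      exact lt_of_le_of_lt (v_sub_le v _ _) (max_lt hcon h)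
    rw [map_one] at h2
    exact lt_irrefl _ h2

lemma pow_close_one {t : L} (h : v (t - 1) < 1) (n : ℕ) : v (t ^ n - 1) ≤ v (t - 1) := by
  induction n with
  | zero => simp
  | succ n ih =>
    have h1 : t ^ (n + 1) - 1 = t * (t ^ n - 1) + (t - 1) := by ring
    rw [h1]
    refine (FinitePlace.add_le v _ _).trans (max_le ?_ le_rfl)
    rw [map_mul, one_of_close h, one_mul]
    exact ih

lemma pow_sub_one {t : L} (h : v (t - 1) < 1) {n : ℕ} (hn : v (n : L) = 1) :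
    v (t ^ n - 1) = v (t - 1) := by
  rw [← geom_sum_mul, map_mul]
  have h1 : v ((∑ i ∈ Finset.range n, t ^ i) - n) < 1 := by
    have h2 : (∑ i ∈ Finset.range n, t ^ i) - (n : L) = ∑ i ∈ Finset.range n, (t ^ i - 1) := by
      rw [Finset.sum_sub_distrib, Finset.sum_const, Finset.card_range, nsmul_eq_mul, mul_one]
    rw [h2]
    exact v_sum_lt _ _ fun i _ => lt_of_le_of_lt (pow_close_one h i) h
  have h3 : v (∑ i ∈ Finset.range n, t ^ i) = 1 := by
    apply le_antisymm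
    · have h4 : (∑ i ∈ Finset.range n, t ^ i) = ((∑ i ∈ Finset.range n, t ^ i) - n) + n := by ring
      rw [h4]
      exact (FinitePlace.add_le v _ _).trans (max_le h1.le hn.le)
    · by_contra hcon
      push Not at hcon
      have h4 : (n : L) = (∑ i ∈ Finset.range n, t ^ i) - ((∑ i ∈ Finset.range n, t ^ i) - n) := by
        ring
      have h5 : v (n : L) < 1 := by
        rw [h4]
        exact lt_of_le_of_lt (v_sub_le v _ _) (max_lt hcon h1)
      rw [hn] at h5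
      exact lt_irrefl _ h5
  rw [h3, one_mul]

lemma close_of_pow {p : ℕ} (hp : p.Prime) (hvp : v (p : L) < 1) {t : L} (ht : v t ≤ 1) (a : ℕ)
    (h : v (t ^ p ^ a - 1) < 1) : v (t - 1) < 1 := by
  have h1 := H420R3.v_pow_char (v := v) (r := a) hp le_rfl (v_nn _) ht (y := (1 : L))
    (by rw [map_one])
  rw [one_pow] at h1
  have h2 : v ((t - 1) ^ p ^ a) < 1 := by
    have h3 : (t - 1) ^ p ^ a = (t ^ p ^ a - 1) - (t ^ p ^ a - 1 - (t - 1) ^ p ^ a) := by ring
    rw [h3]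
    refine lt_of_le_of_lt (v_sub_le v _ _) (max_lt h (lt_of_le_of_lt h1 ?_))
    have h4 : v (t - 1) ≤ 1 := (v_sub_le v _ _).trans (max_le ht (by rw [map_one]))
    calc v (p : L) * v (t - 1) ≤ v (p : L) * 1 := by
          gcongr
      _ < 1 := by rw [mul_one]; exact hvp
  rw [map_pow] at h2
  by_contra hcon
  push Not at hcon
  exact absurd h2 (not_lt.2 (one_le_pow₀ hcon))

/-- the values are powers of the norm -/
lemma v_pow_of_le {x : L} (hx : x ≠ 0) (hx1 : v x ≤ 1) : ∃ k : ℕ, v x = (nv v ^ k)⁻¹ := by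
  obtain ⟨a, c, hc, hac⟩ := H420R3.exists_frac v hx1
  have hvc : v (c : L) = 1 := by
    apply le_antisymm (H420R3.v_le_one v c)
    by_contra h
    push Not at h
    exact hc ((v_lt_one_iff v c).mp h)
  have ha0 : a ≠ 0 := by
    rintro rfl
    apply hx
    rw [hac]
    simp
  have h1 : v x = v (a : L) := by
    rw [hac, map_div₀, hvc, div_one]
  rw [h1, H420R3.v_eq v ha0]
  exact ⟨_, rfl⟩

/-- a power of a unit is close to one -/
lemma exists_pow_close {p : ℕ} (hp : p.Prime) (hvp : v (p : L) < 1) {u : L} (hu : v u = 1) :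
    ∃ k : ℕ, v (k : L) = 1 ∧ v (u ^ k - 1) < 1 := by
  obtain ⟨a, c, hc, hac⟩ := H420R3.exists_frac v hu.le
  have hvc : v (c : L) = 1 := by
    apply le_antisymm (H420R3.v_le_one v c)
    by_contra h
    push Not at h
    exact hc ((v_lt_one_iff v c).mp h)
  have hva : v (a : L) = 1 := by
    have h1 : v u = v (a : L) := by rw [hac, map_div₀, hvc, div_one]
    rw [← h1, hu]
  have ha : a ∉ mi v := fun h => by
    have := (v_lt_one_iff v a).mpr h
    linarith
  let : Field (𝓞 L ⧸ mi v) := Ideal.Quotient.field (mi v)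
  have hfin : Finite (𝓞 L ⧸ mi v) := Ideal.finiteQuotientOfFreeOfNeBot (mi v) (H420R3.mi_ne_bot v)
  let : Fintype (𝓞 L ⧸ mi v) := Fintype.ofFinite _
  obtain ⟨q, hq⟩ : ∃ q, q = Fintype.card (𝓞 L ⧸ mi v) := ⟨_, rfl⟩
  have hpm : (p : 𝓞 L) ∈ mi v := by
    rw [← v_lt_one_iff]
    simpa using hvp
  have hchar : CharP (𝓞 L ⧸ mi v) p := by
    obtain ⟨l, hl⟩ := CharP.exists (𝓞 L ⧸ mi v)
    have h1 : (p : 𝓞 L ⧸ mi v) = 0 := by
      rw [← map_natCast (Ideal.Quotient.mk (mi v)), Ideal.Quotient.eq_zero_iff_mem]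
      exact hpm
    have h2 : l ∣ p := (CharP.cast_eq_zero_iff _ l p).mp h1
    have h3 : l ≠ 1 := CharP.char_ne_one (𝓞 L ⧸ mi v) l
    rw [← (Nat.dvd_prime hp).mp h2 |>.resolve_left h3]
    exact hl
  have hone : ∀ b : 𝓞 L, b ∉ mi v → v ((b : L) ^ (q - 1) - 1) < 1 := by
    intro b hb
    have h1 : Ideal.Quotient.mk (mi v) b ≠ 0 := by
      rwa [Ne, Ideal.Quotient.eq_zero_iff_mem]
    have h2 := FiniteField.pow_card_sub_one_eq_one _ h1
    rw [← hq, ← map_pow, ← map_one (Ideal.Quotient.mk (mi v)), Ideal.Quotient.eq,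
      ← v_lt_one_iff] at h2
    simpa using h2
  refine ⟨q - 1, ?_, ?_⟩
  · apply w_nat hp hvp
    intro h
    have h1 : p ∣ q := by
      obtain ⟨n, hpp, hn⟩ := FiniteField.card (𝓞 L ⧸ mi v) p
      rw [hq, hn]
      exact dvd_pow_self _ n.ne_zero
    have hq1 : 1 ≤ q := by rw [hq]; exact Fintype.card_pos
    have h2 : p ∣ q - (q - 1) := Nat.dvd_sub h1 h
    have h3 : q - (q - 1) = 1 := by omega
    rw [h3] at h2
    exact hp.one_lt.ne' (Nat.dvd_one.1 h2)
  · have h1 := hone a ha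
    have h2 := hone c hc
    have hc0 : (c : L) ≠ 0 := by
      intro h
      rw [h, map_zero] at hvc
      exact zero_ne_one hvc
    have h3 : u ^ (q - 1) - 1 = (((a : L) ^ (q - 1) - 1) - ((c : L) ^ (q - 1) - 1)) /
        (c : L) ^ (q - 1) := by
      rw [hac, div_pow]
      field_simp
      ring
    rw [h3, map_div₀, map_pow, hvc, one_pow, div_one]
    exact lt_of_le_of_lt (v_sub_le v _ _) (max_lt h1 h2)

end Val

section Mov

variable {K L : Type} [Field K] [Field L] [NumberField L] [Algebra K L] {v : FinitePlace L}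

/-- the relative size of the move of `z` -/
def D (v : FinitePlace L) (φ : Gal(L/K)) (z : L) : ℝ := v (φ z / z - 1)

lemma D_eq (φ : Gal(L/K)) {z : L} (hz : z ≠ 0) : v (φ z - z) = D v φ z * v z := by
  unfold D
  rw [← map_mul]
  congr 1
  field_simp

lemma D_lt {φ : Gal(L/K)} {z : L} (hz : z ≠ 0) {c : ℝ} : D v φ z ≤ c ↔ v (φ z - z) ≤ c * v z := by
  rw [D_eq φ hz]
  constructor
  · intro h
    gcongr
  · intro h
    exact le_of_mul_le_mul_right h (FinitePlace.pos_iff.mpr hz)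

variable {φ : Gal(L/K)} (hφ : ∀ z : L, z ≠ 0 → D v φ z < 1)

include hφ

lemma D_mul {x y : L} (hx : x ≠ 0) (hy : y ≠ 0) : D v φ (x * y) ≤ max (D v φ x) (D v φ y) := by
  have h1 : φ (x * y) / (x * y) - 1 = (φ x / x) * (φ y / y - 1) + (φ x / x - 1) := by
    rw [map_mul]
    field_simp
    ring
  unfold D
  rw [h1]
  refine (FinitePlace.add_le v _ _).trans ?_
  rw [map_mul, one_of_close (hφ x hx), one_mul, max_comm]

lemma D_inv {x : L} (hx : x ≠ 0) : D v φ x⁻¹ = D v φ x := by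
  have hx' : φ x ≠ 0 := (map_ne_zero φ).mpr hx
  have h1 : φ x⁻¹ / x⁻¹ - 1 = -((φ x / x - 1) / (φ x / x)) := by
    rw [map_inv₀]
    field_simp
    ring
  unfold D
  rw [h1, H627.LR.v_neg, map_div₀, one_of_close (hφ x hx), div_one]

lemma D_pow_le {x : L} (hx : x ≠ 0) (n : ℕ) : D v φ (x ^ n) ≤ D v φ x := by
  unfold D
  rw [map_pow, ← div_pow]
  exact pow_close_one (hφ x hx) n

lemma D_pow {x : L} (hx : x ≠ 0) {n : ℕ} (hn : v (n : L) = 1) : D v φ (x ^ n) = D v φ x := by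
  unfold D
  rw [map_pow, ← div_pow]
  exact pow_sub_one (hφ x hx) hn

lemma D_zpow_le {x : L} (hx : x ≠ 0) (n : ℤ) : D v φ (x ^ n) ≤ D v φ x := by
  obtain ⟨m, rfl | rfl⟩ := n.eq_nat_or_neg
  · rw [zpow_natCast]
    exact D_pow_le hφ hx m
  · rw [zpow_neg, zpow_natCast, D_inv hφ (pow_ne_zero m hx)]
    exact D_pow_le hφ hx m

/-- units move less than the maximum -/
lemma D_unit {p : ℕ} (hp : p.Prime) (hvp : v (p : L) < 1) (M : IntermediateField K L) {ε : ℝ}
    (hε : 0 < ε) (hM : ∀ z ∈ M, z ≠ 0 → D v φ z ≤ ε) {u : L} (hu : u ∈ M) (hvu : v u = 1) :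
    D v φ u < ε := by
  have hu0 : u ≠ 0 := by
    rintro rfl
    rw [map_zero] at hvu
    exact zero_ne_one hvu
  obtain ⟨k, hk, hk'⟩ := exists_pow_close hp hvp hvu
  rw [← D_pow hφ hu0 hk]
  obtain ⟨y, hy⟩ : ∃ y, y = u ^ k - 1 := ⟨_, rfl⟩
  have hyM : y ∈ M := by
    rw [hy]
    exact M.sub_mem (pow_mem hu k) M.one_mem
  have h1 : φ (u ^ k) / u ^ k - 1 = (φ y - y) / u ^ k := by
    have h2 : φ y = φ (u ^ k) - 1 := by rw [hy, map_sub, map_one]
    rw [h2, hy]
    have := pow_ne_zero k hu0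
    field_simp
    ring
  unfold D
  rw [h1, map_div₀, map_pow, hvu, one_pow, div_one]
  rcases eq_or_ne y 0 with h0 | h0
  · rw [h0, map_zero, sub_zero, map_zero]
    exact hε
  · rw [D_eq φ h0]
    rw [← hy] at hk'
    calc D v φ y * v y ≤ ε * v y := by
          gcongr
          exact hM y hyM h0
      _ < ε * 1 := by gcongr
      _ = ε := mul_one ε

end Mov

section Ord

variable {K L : Type} [Field K] [NumberField K] [Field L] [NumberField L] [Algebra K L]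
  {v : FinitePlace L}

/-- elements of order a power of the residue characteristic in the inertia group are wild -/
lemma wild_of_order {p : ℕ} (hp : p.Prime) (hvp : v (p : L) < 1) {φ : Gal(L/K)}
    (hφ : φ ∈ (mi v).inertia Gal(L/K)) {a : ℕ} (ho : φ ^ p ^ a = 1) :
    ∀ z : L, z ≠ 0 → D v φ z < 1 := by
  intro z hz
  obtain ⟨t, ht⟩ : ∃ t, t = φ z / z := ⟨_, rfl⟩
  have hvt : v t = 1 := by
    rw [ht, map_div₀, inertia_v hφ, div_self (v_ne hz)]
  have hpow : ∀ n : ℕ, φ ^ n ∈ (mi v).inertia Gal(L/K) := fun n => Subgroup.pow_mem _ hφ n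
  have h1 : ∀ n : ℕ, v ((φ ^ n) z / z - t ^ n) < 1 := by
    intro n
    induction n with
    | zero =>
      rw [pow_zero, pow_zero, AlgEquiv.one_apply, div_self hz, sub_self, map_zero]
      exact one_pos
    | succ n ih =>
      obtain ⟨s, hs⟩ : ∃ s, s = (φ ^ n) z / z := ⟨_, rfl⟩
      have hvs : v s = 1 := by
        rw [hs, map_div₀, inertia_v (hpow n), div_self (v_ne hz)]
      have h2 : (φ ^ (n + 1)) z / z = φ s * t := by
        rw [hs, ht, pow_succ', AlgEquiv.mul_apply, map_div₀]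
        have : φ z ≠ 0 := (map_ne_zero φ).mpr hz
        field_simp
      have h3 : (φ ^ (n + 1)) z / z - t ^ (n + 1) = ((φ s - s) + (s - t ^ n)) * t := by
        rw [h2]
        ring
      rw [h3, map_mul, hvt, mul_one]
      refine add_lt (inertia_lt hφ hvs.le) ?_
      rw [hs]
      exact ih
  have h2 := h1 (p ^ a)
  rw [ho, AlgEquiv.one_apply, div_self hz] at h2
  unfold D
  rw [← ht]
  refine close_of_pow hp hvp hvt.le a ?_
  rw [← H627.LR.v_neg, neg_sub]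
  exact h2

/-- the inertia group of `L / E` -/
lemma card_S [IsGalois K L] {P : Ideal (𝓞 K)} [hP : P.IsMaximal] (hP0 : P ≠ ⊥)
    (hv : v ∈ TP L P) (E : IntermediateField K L) :
    Nat.card ((mi v).inertia Gal(L/K) ⊓ E.fixingSubgroup : Subgroup Gal(L/K)) =
      (mi v).ramificationIdx (𝓞 E) := by
  have hlo := H420R3.liesOver_of_mem hP0 hv
  set 𝔮 : Ideal (𝓞 E) := (mi v).under (𝓞 E) with h𝔮
  have hlo1 : (mi v).LiesOver 𝔮 := ⟨rfl⟩
  have hEm : 𝔮.IsMaximal := Ideal.isMaximal_comap_of_isIntegral_of_isMaximal (mi v)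
  have h3 : Nat.card ((mi v).inertia Gal(L/E)) = (mi v).ramificationIdx (𝓞 E) := by
    rw [Ideal.card_inertia_eq_ramificationIdxIn (G := Gal(L/E)) 𝔮 (mi v)]
    exact Ideal.ramificationIdxIn_eq_ramificationIdx 𝔮 (mi v) Gal(L/E)
  rw [← h3]
  symm
  have key : ∀ g : (mi v).inertia Gal(L/E), (g : Gal(L/E)).restrictScalars K ∈
      ((mi v).inertia Gal(L/K) ⊓ E.fixingSubgroup : Subgroup Gal(L/K)) := by
    intro g
    refine ⟨?_, ?_⟩
    · change (g : Gal(L/E)).restrictScalars K ∈ (mi v).inertia Gal(L/K)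
      rw [AddSubgroup.mem_inertia]
      intro x
      exact AddSubgroup.mem_inertia.mp g.2 x
    · change (g : Gal(L/E)).restrictScalars K ∈ E.fixingSubgroup
      rw [IntermediateField.mem_fixingSubgroup_iff]
      intro y hy
      exact (g : Gal(L/E)).commutes ⟨y, hy⟩
  refine Nat.card_congr (Equiv.ofBijective (fun g => ⟨_, key g⟩) ⟨?_, ?_⟩)
  · intro a b hab
    have h6 := congrArg Subtype.val hab
    apply Subtype.ext
    ext x
    exact AlgEquiv.congr_fun h6 x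
  · rintro ⟨s, hs1, hs2⟩
    refine ⟨⟨IntermediateField.fixingSubgroupEquiv E ⟨s, hs2⟩, ?_⟩, ?_⟩
    · rw [AddSubgroup.mem_inertia]
      intro x
      exact AddSubgroup.mem_inertia.mp hs1 x
    · apply Subtype.ext
      ext x
      rfl

/-- an element of `E` with the largest possible absolute value -/
lemma exists_unif [IsGalois K L] {P : Ideal (𝓞 K)} [hP : P.IsMaximal] (hP0 : P ≠ ⊥)
    (hv : v ∈ TP L P) (E : IntermediateField K L) : ∃ z ∈ E, z ≠ 0 ∧ v z < 1 ∧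
    (nv v ^ Nat.card ((mi v).inertia Gal(L/K) ⊓ E.fixingSubgroup : Subgroup Gal(L/K)))⁻¹ ≤
      v z := by
  rw [card_S hP0 hv E]
  have hlo := H420R3.liesOver_of_mem hP0 hv
  set 𝔮 : Ideal (𝓞 E) := (mi v).under (𝓞 E) with h𝔮
  have hlo1 : (mi v).LiesOver 𝔮 := ⟨rfl⟩
  have hEm : 𝔮.IsMaximal := Ideal.isMaximal_comap_of_isIntegral_of_isMaximal (mi v)
  have hq0 : 𝔮 ≠ ⊥ := by
    intro h
    exact H420R3.mi_ne_bot v (Ideal.eq_bot_of_comap_eq_bot (R := 𝓞 E) h)
  have hmap : 𝔮.map (algebraMap (𝓞 E) (𝓞 L)) ≠ ⊥ := Ideal.map_ne_bot_of_ne_bot hq0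
  have he := Ideal.IsDedekindDomain.ramificationIdx_eq_multiplicity (R := 𝓞 E) 𝔮 (mi v) hmap
  have hfin : FiniteMultiplicity (mi v) (𝔮.map (algebraMap (𝓞 E) (𝓞 L))) := by
    apply FiniteMultiplicity.of_not_isUnit
    · intro h
      have h1 := Ideal.isUnit_iff.mp h
      exact Ideal.IsMaximal.ne_top inferInstance h1
    · exact hmap
  obtain ⟨b, hb, hb'⟩ : ∃ b ∈ 𝔮, algebraMap (𝓞 E) (𝓞 L) b ∉
      mi v ^ ((mi v).ramificationIdx (𝓞 E) + 1) := by
    by_contra hcon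
    push Not at hcon
    have h1 : 𝔮.map (algebraMap (𝓞 E) (𝓞 L)) ≤ mi v ^ ((mi v).ramificationIdx (𝓞 E) + 1) :=
      Ideal.map_le_iff_le_comap.mpr hcon
    have h2 := hfin.pow_dvd_iff_le_multiplicity.mp (Ideal.dvd_iff_le.mpr h1)
    rw [← he] at h2
    omega
  have hb0 : algebraMap (𝓞 E) (𝓞 L) b ≠ 0 := by
    intro h
    rw [h] at hb'
    exact hb' (Submodule.zero_mem _)
  refine ⟨((algebraMap (𝓞 E) (𝓞 L) b : 𝓞 L) : L), ?_, ?_, ?_, ?_⟩
  · exact (b : E).2
  · exact RingOfIntegers.coe_ne_zero_iff.mpr hb0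
  · rw [v_lt_one_iff]
    exact hb
  · rw [← H420R3.v_le_iff, H420R3.v_eq v hb0] at hb'
    rw [H420R3.v_eq v hb0]
    have h1 := H420R3.one_lt_nv v
    have h2 := nv_pos v
    rw [inv_le_inv₀ (by positivity) (by positivity), pow_le_pow_iff_right₀ h1] at hb' ⊢
    omega

/-- the inertia group of `L / K` maps onto that of `E / K` -/
lemma exists_inertia [IsGalois K L] {P : Ideal (𝓞 K)} [hP : P.IsMaximal] (hP0 : P ≠ ⊥)
    (hv : v ∈ TP L P) (E : IntermediateField K L) [IsGalois K E] (ρ : Gal(L/K))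
    (hρ : ∀ z ∈ E, v z ≤ 1 → v (ρ z - z) < 1) :
    ∃ φ ∈ (mi v).inertia Gal(L/K), ∀ z ∈ E, φ z = ρ z := by
  classical
  have hlo := H420R3.liesOver_of_mem hP0 hv
  obtain ⟨𝔮, h𝔮⟩ : ∃ 𝔮 : Ideal (𝓞 E), 𝔮 = (mi v).under (𝓞 E) := ⟨_, rfl⟩
  have hlo1 : (mi v).LiesOver 𝔮 := ⟨h𝔮⟩
  have hEm : 𝔮.IsMaximal := by
    rw [h𝔮]
    exact Ideal.isMaximal_comap_of_isIntegral_of_isMaximal (mi v)
  have hloE : 𝔮.under (𝓞 K) = P := by
    rw [h𝔮, Ideal.under_under]
    exact hlo.over.symm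
  have hqlo : 𝔮.LiesOver P := ⟨hloE.symm⟩
  have hmem : ∀ (φ : Gal(L/K)) (y : 𝓞 E), AlgEquiv.restrictNormalHom E φ • y - y ∈ 𝔮 ↔
      v (φ ((y : E) : L) - ((y : E) : L)) < 1 := by
    intro φ y
    have h1 : (((algebraMap (𝓞 E) (𝓞 L) (AlgEquiv.restrictNormalHom E φ • y - y) : 𝓞 L)) : L) =
        φ ((y : E) : L) - ((y : E) : L) := by
      rw [map_sub]
      have h2 : (((algebraMap (𝓞 E) (𝓞 L) (AlgEquiv.restrictNormalHom E φ • y) : 𝓞 L)) : L) =
          φ ((y : E) : L) := AlgEquiv.restrictNormal_commutes φ E (y : E)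
      exact congrArg₂ (fun a b : L => a - b) h2 rfl
    rw [← h1, v_lt_one_iff, h𝔮]
    rfl
  have hmap : ∀ φ : (mi v).inertia Gal(L/K),
      AlgEquiv.restrictNormalHom E (φ : Gal(L/K)) ∈ 𝔮.inertia Gal(E/K) := by
    intro φ
    rw [AddSubgroup.mem_inertia]
    intro y
    change AlgEquiv.restrictNormalHom E (φ : Gal(L/K)) • y - y ∈ 𝔮
    rw [hmem]
    apply inertia_lt φ.2
    have h1 := H420R3.v_le_one v (algebraMap (𝓞 E) (𝓞 L) y)
    exact h1
  let f : (mi v).inertia Gal(L/K) →* 𝔮.inertia Gal(E/K) :=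
    { toFun := fun φ => ⟨_, hmap φ⟩
      map_one' := by
        apply Subtype.ext
        exact map_one (AlgEquiv.restrictNormalHom E)
      map_mul' := fun a b => by
        apply Subtype.ext
        exact map_mul (AlgEquiv.restrictNormalHom E) (a : Gal(L/K)) b }
  have h1 : Nat.card ((mi v).inertia Gal(L/K)) = (mi v).ramificationIdx (𝓞 K) := by
    rw [Ideal.card_inertia_eq_ramificationIdxIn (G := Gal(L/K)) P (mi v)]
    exact Ideal.ramificationIdxIn_eq_ramificationIdx P (mi v) Gal(L/K)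
  have h2 : (mi v).ramificationIdx (𝓞 K) =
      𝔮.ramificationIdx (𝓞 K) * (mi v).ramificationIdx (𝓞 E) :=
    Ideal.ramificationIdx_tower (R := 𝓞 K) 𝔮 (mi v)
  have h3 : Nat.card (𝔮.inertia Gal(E/K)) = 𝔮.ramificationIdx (𝓞 K) := by
    rw [Ideal.card_inertia_eq_ramificationIdxIn (G := Gal(E/K)) P 𝔮]
    exact Ideal.ramificationIdxIn_eq_ramificationIdx P 𝔮 Gal(E/K)
  have h4 : Nat.card f.ker ≤ (mi v).ramificationIdx (𝓞 E) := by
    rw [← card_S hP0 hv E]
    refine Nat.card_le_card_of_injective (fun g => (⟨((g : (mi v).inertia Gal(L/K)) : Gal(L/K)),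
      (g : (mi v).inertia Gal(L/K)).2, ?_⟩ :
      ((mi v).inertia Gal(L/K) ⊓ E.fixingSubgroup : Subgroup Gal(L/K)))) ?_
    · change ((g : (mi v).inertia Gal(L/K)) : Gal(L/K)) ∈ E.fixingSubgroup
      rw [IntermediateField.mem_fixingSubgroup_iff]
      intro y hy
      have h5 : AlgEquiv.restrictNormalHom E
          ((g : (mi v).inertia Gal(L/K)) : Gal(L/K)) = 1 := congrArg Subtype.val g.2
      have h6 := AlgEquiv.restrictNormal_commutes
        ((g : (mi v).inertia Gal(L/K)) : Gal(L/K)) E ⟨y, hy⟩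
      have h7 : (((g : (mi v).inertia Gal(L/K)) : Gal(L/K)).restrictNormal E) = 1 := h5
      rw [h7] at h6
      exact h6.symm
    · intro a b hab
      have h5 := congrArg Subtype.val hab
      apply Subtype.ext
      apply Subtype.ext
      exact h5
  have h5 : 0 < Nat.card (𝔮.inertia Gal(E/K)) := Nat.card_pos
  have hsurj := MonoidHom.surjective_of_card_ker_le_div f (by
    rw [h1, h2, h3]
    rw [h3] at h5
    rw [Nat.mul_div_cancel_left _ h5]
    exact h4)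
  have hρm : AlgEquiv.restrictNormalHom E ρ ∈ 𝔮.inertia Gal(E/K) := by
    rw [AddSubgroup.mem_inertia]
    intro y
    change AlgEquiv.restrictNormalHom E ρ • y - y ∈ 𝔮
    rw [hmem]
    apply hρ _ (y : E).2
    have h1 := H420R3.v_le_one v (algebraMap (𝓞 E) (𝓞 L) y)
    exact h1
  obtain ⟨φ, hφ⟩ := hsurj ⟨_, hρm⟩
  refine ⟨φ, φ.2, fun z hz => ?_⟩
  have h6 : AlgEquiv.restrictNormalHom E (φ : Gal(L/K)) = AlgEquiv.restrictNormalHom E ρ :=
    congrArg Subtype.val hφ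
  have h7 := AlgEquiv.restrictNormal_commutes (φ : Gal(L/K)) E ⟨z, hz⟩
  have h8 := AlgEquiv.restrictNormal_commutes ρ E ⟨z, hz⟩
  have h9 : (φ : Gal(L/K)).restrictNormal E = ρ.restrictNormal E := h6
  rw [h9] at h7
  exact h7.symm.trans h8

/-- the order of a small move is a power of the residue characteristic -/
lemma order_pow {p : ℕ} (hp : p.Prime) (hvp : v (p : L) < 1) [IsGalois K L]
    (E : IntermediateField K L) [IsGalois K E] (ρ : Gal(L/K)) {δ : ℝ} (hδ1 : δ < 1)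
    (hρ : ∀ z ∈ E, v (ρ z - z) ≤ δ * v z) : ∃ k : ℕ, ∀ z ∈ E, (ρ ^ p ^ k) z = z := by
  have hstab : ∀ (σ : Gal(L/K)) (z : L), z ∈ E → σ z ∈ E := by
    intro σ z hz
    have h2 : (σ.restrictNormal E ⟨z, hz⟩ : L) = σ z :=
      AlgEquiv.restrictNormal_commutes σ E ⟨z, hz⟩
    rw [← h2]
    exact (σ.restrictNormal E ⟨z, hz⟩).2
  have hvv : ∀ z ∈ E, v (ρ z) = v z := by
    intro z hz
    rcases eq_or_ne z 0 with rfl | h0
    · rw [map_zero]
    · have hz0 : 0 < v z := FinitePlace.pos_iff.mpr h0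
      have h1 : v (z - ρ z) < v z := by
        rw [← H627.LR.v_neg, neg_sub]
        refine lt_of_le_of_lt (hρ z hz) ?_
        nlinarith
      exact H420R3.v_eq_of_sub_lt v h1
  have hpow : ∀ i : ℕ, ∀ z ∈ E, v ((ρ ^ i) z) = v z ∧ (z ≠ 0 → v ((ρ ^ i) z - z) ≤ δ * v z) := by
    intro i
    induction i with
    | zero =>
      intro z hz
      refine ⟨rfl, fun h0 => ?_⟩
      rw [pow_zero, AlgEquiv.one_apply, sub_self, map_zero]
      have h1 := (v_nn (v := v) (ρ z - z)).trans (hρ z hz)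
      exact h1
    | succ i ih =>
      intro z hz
      have h1 := hstab (ρ ^ i) z hz
      have h2 : (ρ ^ (i + 1)) z = ρ ((ρ ^ i) z) := by rw [pow_succ', AlgEquiv.mul_apply]
      refine ⟨by rw [h2, hvv _ h1, (ih z hz).1], fun h0 => ?_⟩
      have h3 : (ρ ^ (i + 1)) z - z = (ρ ((ρ ^ i) z) - (ρ ^ i) z) + ((ρ ^ i) z - z) := by
        rw [h2]
        ring
      rw [h3]
      refine (FinitePlace.add_le v _ _).trans (max_le ?_ ((ih z hz).2 h0))
      refine (hρ _ h1).trans ?_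
      rw [(ih z hz).1]
  obtain ⟨k, n', hn', hn⟩ := Nat.exists_eq_pow_mul_and_not_dvd (orderOf_pos ρ).ne' p hp.one_lt.ne'
  refine ⟨k, fun z hz => ?_⟩
  obtain ⟨s, hs⟩ : ∃ s, s = ρ ^ p ^ k := ⟨_, rfl⟩
  rw [← hs]
  have hsn : s ^ n' = 1 := by rw [hs, ← pow_mul, ← hn, pow_orderOf_eq_one]
  have hvn : v (n' : L) = 1 := w_nat hp hvp n' hn'
  have hn0 : (n' : L) ≠ 0 := by
    intro h
    rw [h, map_zero] at hvn
    exact zero_ne_one hvn
  have hspow : ∀ i : ℕ, s ^ i = ρ ^ (p ^ k * i) := fun i => by rw [hs, ← pow_mul]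
  let A : L → L := fun y => ∑ j ∈ Finset.range n', (s ^ j) y
  have hsA : ∀ y, s (A y) = A y := by
    intro y
    have h1 : s (A y) = ∑ j ∈ Finset.range n', (s ^ (j + 1)) y := by
      change s (∑ j ∈ Finset.range n', (s ^ j) y) = _
      rw [map_sum]
      refine Finset.sum_congr rfl fun i _ => ?_
      rw [pow_succ', AlgEquiv.mul_apply]
    have h2 : ∑ i ∈ Finset.range n', (s ^ (i + 1)) y + (s ^ 0) y =
        ∑ i ∈ Finset.range n', (s ^ i) y + (s ^ n') y := by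
      rw [← Finset.sum_range_succ' (fun i => (s ^ i) y), Finset.sum_range_succ]
    rw [hsn, pow_zero] at h2
    rw [h1]
    exact add_right_cancel h2
  have hsjA : ∀ y, ∀ j : ℕ, (s ^ j) (A y) = A y := by
    intro y j
    induction j with
    | zero => rfl
    | succ j ih => rw [pow_succ, AlgEquiv.mul_apply, hsA, ih]
  obtain ⟨y, hy⟩ : ∃ y, y = n' * z - A z := ⟨_, rfl⟩
  have hAE : A z ∈ E := E.sum_mem fun j _ => hstab _ z hz
  have hyE : y ∈ E := by
    rw [hy]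
    refine E.sub_mem (E.mul_mem ?_ hz) hAE
    exact natCast_mem E n'
  have hAy : A y = 0 := by
    have h1 : A y = ∑ j ∈ Finset.range n', ((n' : L) * (s ^ j) z - A z) := by
      change ∑ j ∈ Finset.range n', (s ^ j) y = _
      refine Finset.sum_congr rfl fun j _ => ?_
      rw [hy, map_sub, map_mul, map_natCast, hsjA]
    rw [h1, Finset.sum_sub_distrib, ← Finset.mul_sum, Finset.sum_const, Finset.card_range,
      nsmul_eq_mul]
    exact sub_self _
  have hy0 : y = 0 := by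
    by_contra h0
    have hv0 : 0 < v y := FinitePlace.pos_iff.mpr h0
    have h1 : (n' : L) * y = ∑ j ∈ Finset.range n', (y - (s ^ j) y) := by
      rw [Finset.sum_sub_distrib, Finset.sum_const, Finset.card_range, nsmul_eq_mul]
      have h2 : ∑ j ∈ Finset.range n', (s ^ j) y = 0 := hAy
      rw [h2, sub_zero]
    have h2 : v ((n' : L) * y) ≤ δ * v y := by
      rw [h1]
      have hδ0 : 0 ≤ δ * v y := (v_nn _).trans (hρ y hyE)
      refine H420R3.v_sum_le v _ _ hδ0 fun j _ => ?_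
      rw [← H627.LR.v_neg, neg_sub, hspow]
      exact (hpow _ y hyE).2 h0
    rw [map_mul, hvn, one_mul] at h2
    nlinarith
  have h1 : (n' : L) * z = A z := by
    rw [hy] at hy0
    exact sub_eq_zero.1 hy0
  have h2 := congrArg s h1
  rw [map_mul, map_natCast, hsA, ← h1] at h2
  exact mul_left_cancel₀ hn0 h2

/-- the largest value -/
lemma exists_max (s : Set L) (hne : ∃ z ∈ s, z ≠ 0) (hle : ∀ z ∈ s, v z ≤ 1) :
    ∃ z ∈ s, z ≠ 0 ∧ ∀ y ∈ s, v y ≤ v z := by
  classical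
  have hex : ∃ k : ℕ, ∃ z ∈ s, z ≠ 0 ∧ v z = (nv v ^ k)⁻¹ := by
    obtain ⟨z, hz, hz0⟩ := hne
    obtain ⟨k, hk⟩ := v_pow_of_le hz0 (hle z hz)
    exact ⟨k, z, hz, hz0, hk⟩
  obtain ⟨z, hz, hz0, hk⟩ := Nat.find_spec hex
  refine ⟨z, hz, hz0, fun y hy => ?_⟩
  rcases eq_or_ne y 0 with rfl | hy0
  · rw [map_zero]
    exact v_nn _
  · obtain ⟨k', hk'⟩ := v_pow_of_le hy0 (hle y hy)
    have h1 := Nat.find_min' hex ⟨y, hy, hy0, hk'⟩
    rw [hk, hk']
    have h2 := nv_pos v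
    exact inv_anti₀ (by positivity) (pow_le_pow_right₀ (H420R3.one_lt_nv v).le h1)

/-- division with remainder of the values -/
lemma exists_zpow {π y : L} (hπ0 : π ≠ 0) (hπ1 : v π < 1) (hy : y ≠ 0) :
    ∃ n : ℤ, v π < v (y * π ^ n) ∧ v (y * π ^ n) ≤ 1 := by
  have h0 : 0 < v π := FinitePlace.pos_iff.mpr hπ0
  obtain ⟨n, hn1, hn2⟩ := exists_mem_Ioc_zpow (FinitePlace.pos_iff.mpr hy : 0 < v y)
    (one_lt_inv₀ h0 |>.mpr hπ1)
  refine ⟨n + 1, ?_, ?_⟩
  · rw [map_mul, map_zpow₀]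
    have h1 : v π = (v π)⁻¹ ^ n * v π ^ (n + 1) := by
      rw [zpow_add₀ h0.ne', zpow_one, inv_zpow, ← mul_assoc, inv_mul_cancel₀ (zpow_ne_zero n h0.ne'),
        one_mul]
    calc v π = (v π)⁻¹ ^ n * v π ^ (n + 1) := h1
      _ < v y * v π ^ (n + 1) := by
          have : 0 < v π ^ (n + 1) := zpow_pos h0 _
          gcongr
  · rw [map_mul, map_zpow₀]
    have : 0 < v π ^ (n + 1) := zpow_pos h0 _
    calc v y * v π ^ (n + 1) ≤ (v π)⁻¹ ^ (n + 1) * v π ^ (n + 1) := by gcongr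
      _ = 1 := by rw [inv_zpow, inv_mul_cancel₀ this.ne']

/-- divisibility of orders -/
lemma exists_exp {p k a m : ℕ} (hp : p.Prime) (hm : ¬ p ∣ m) : ∃ n : ℕ,
    (∃ j, n = 1 + p ^ k * j) ∧ p ^ a * m ∣ n * p ^ a := by
  have hcop : Nat.Coprime (p ^ k) m := Nat.Coprime.pow_left k ((Nat.Prime.coprime_iff_not_dvd hp).mpr hm)
  obtain ⟨n, hn1, hn2⟩ := Nat.chineseRemainder hcop 1 0
  have hm0 : m ≠ 0 := by
    rintro rfl
    exact hm (dvd_zero _)
  refine ⟨n + p ^ k * m, ?_, ?_⟩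
  · have h1 : n + p ^ k * m ≡ 1 [MOD p ^ k] := by
      have h2 : n + p ^ k * m ≡ 1 + 0 [MOD p ^ k] :=
        Nat.ModEq.add hn1 ((Nat.modEq_zero_iff_dvd).mpr (Dvd.intro _ rfl))
      simpa using h2
    have hpos : 0 < p ^ k * m := Nat.mul_pos (pow_pos hp.pos k) (Nat.pos_of_ne_zero hm0)
    obtain ⟨j, hj⟩ := (Nat.modEq_iff_dvd' (by omega : 1 ≤ n + p ^ k * m)).mp h1.symm
    exact ⟨j, by omega⟩
  · have h1 : m ∣ n := (Nat.modEq_zero_iff_dvd).mp hn2
    have h2 : m ∣ n + p ^ k * m := Nat.dvd_add h1 (Dvd.intro_left _ rfl)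
    rw [mul_comm (n + p ^ k * m)]
    exact Nat.mul_dvd_mul_left _ h2

end Ord

theorem liftLem : LiftLem := by
  intro K _ _ L _ _ _ _ P hPm hP0 p hp hpP E _ x r hEx hr hrp c hc ρ hρ v hv
  classical
  have hlo := H420R3.liesOver_of_mem hP0 hv
  have hGE : IsGalois K E := inferInstance
  have hvp : v (p : L) < 1 := by
    have h4 : (algebraMap (𝓞 K) (𝓞 L) (p : 𝓞 K)) ∈ mi v := by
      have h5 : (p : 𝓞 K) ∈ (mi v).under (𝓞 K) := by
        rw [← hlo.over]
        exact hpP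
      exact h5
    rw [map_natCast] at h4
    have h5 := (v_lt_one_iff v _).mpr h4
    simpa using h5
  obtain ⟨δ, hδ⟩ : ∃ δ, δ = Real.exp (-(c * ew K v)) := ⟨_, rfl⟩
  have hδ1 : δ < 1 := by
    rw [hδ, Real.exp_lt_one_iff]
    have := H420R3.ew_pos (K := K) v
    have := mul_pos hc this
    linarith
  have hρv := hρ v hv
  rw [← hδ] at hρv ⊢
  -- the field generated by the conjugates
  obtain ⟨M, hM⟩ : ∃ M, M = CF K x := ⟨_, rfl⟩
  have hEM : E ≤ M := by
    refine hEx.trans ?_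
    rw [hM]
    unfold CF
    apply IntermediateField.adjoin.mono
    rintro _ rfl
    exact ⟨1, rfl⟩
  have hstabE : ∀ (σ : Gal(L/K)) (z : L), z ∈ E → σ z ∈ E := by
    intro σ z hz
    have h2 : (σ.restrictNormal E ⟨z, hz⟩ : L) = σ z :=
      AlgEquiv.restrictNormal_commutes σ E ⟨z, hz⟩
    rw [← h2]
    exact (σ.restrictNormal E ⟨z, hz⟩).2
  have hNM : Normal K M := by
    rw [IntermediateField.normal_iff_forall_map_le']
    intro σ
    rw [hM]
    unfold CF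
    rw [IntermediateField.adjoin_map]
    apply IntermediateField.adjoin.mono
    rintro _ ⟨_, ⟨τ, rfl⟩, rfl⟩
    exact ⟨σ * τ, rfl⟩
  have hcomm : ∀ (σ : Gal(L/K)) (y : M), ((AlgEquiv.restrictNormalHom M σ y : M) : L) = σ y :=
    fun σ y => AlgEquiv.restrictNormal_commutes σ M y
  -- the lift in the inertia group
  obtain ⟨φ₀, hφ₀I, hφ₀⟩ := exists_inertia hP0 hv E ρ (fun z hz hz1 => by
    rcases eq_or_ne z 0 with rfl | h0
    · rw [map_zero, sub_zero, map_zero]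
      exact one_pos
    · refine lt_of_le_of_lt (hρv z hz) ?_
      have : 0 < v z := FinitePlace.pos_iff.mpr h0
      nlinarith)
  obtain ⟨k, hk⟩ := order_pow hp hvp E ρ hδ1 hρv
  obtain ⟨a, m, hm, ham⟩ := Nat.exists_eq_pow_mul_and_not_dvd (orderOf_pos φ₀).ne' p
    hp.one_lt.ne'
  obtain ⟨n, ⟨j, hj⟩, hn⟩ := exists_exp (k := k) (a := a) hp hm
  obtain ⟨φ, hφ⟩ : ∃ φ, φ = φ₀ ^ n := ⟨_, rfl⟩
  have hφI : φ ∈ (mi v).inertia Gal(L/K) := by
    rw [hφ]
    exact Subgroup.pow_mem _ hφ₀I n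
  have hφo : φ ^ p ^ a = 1 := by
    rw [hφ, ← pow_mul]
    rw [← ham] at hn
    exact orderOf_dvd_iff_pow_eq_one.mp hn
  have hφρ : ∀ z ∈ E, φ z = ρ z := by
    intro z hz
    have h1 : ∀ i : ℕ, ∀ z ∈ E, (φ₀ ^ i) z = (ρ ^ i) z := by
      intro i
      induction i with
      | zero => exact fun z _ => rfl
      | succ i ih =>
        intro z hz
        rw [pow_succ, pow_succ, AlgEquiv.mul_apply, AlgEquiv.mul_apply, hφ₀ z hz,
          ih _ (hstabE ρ z hz)]
    have h2 : ∀ i : ℕ, ∀ z ∈ E, ((ρ ^ p ^ k) ^ i) z = z := by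
      intro i
      induction i with
      | zero => exact fun z _ => rfl
      | succ i ih =>
        intro z hz
        rw [pow_succ, AlgEquiv.mul_apply, hk z hz, ih z hz]
    rw [hφ, h1 n z hz, hj, pow_add, pow_one, pow_mul, AlgEquiv.mul_apply, h2 j z hz]
  have hwild := wild_of_order hp hvp hφI hφo
  refine ⟨φ, hφρ, ?_⟩
  rw [← hM]
  by_cases htriv : ∀ z ∈ M, φ z = z
  · intro z hz
    rw [htriv z hz, sub_self, map_zero, hδ]
    have := v_nn (v := v) z
    positivity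
  push Not at htriv
  obtain ⟨z₀, hz₀, hz₀'⟩ := htriv
  have hz₀0 : z₀ ≠ 0 := by
    rintro rfl
    exact hz₀' (map_zero φ)
  -- the maximal move
  obtain ⟨_, ⟨z₁, ⟨hz₁, hz₁0⟩, rfl⟩, hmax0, hmax⟩ := exists_max (v := v)
    ((fun z => φ z / z - 1) '' {z | z ∈ M ∧ z ≠ 0})
    ⟨_, ⟨z₀, ⟨hz₀, hz₀0⟩, rfl⟩, by
      intro h
      apply hz₀'
      have h1 : φ z₀ / z₀ = 1 := sub_eq_zero.1 h
      rwa [div_eq_one_iff_eq hz₀0] at h1⟩
    (by
      rintro _ ⟨z, ⟨_, hz0⟩, rfl⟩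
      exact (hwild z hz0).le)
  obtain ⟨ε, hε⟩ : ∃ ε, ε = D v φ z₁ := ⟨_, rfl⟩
  have hε0 : 0 < ε := by
    rw [hε]
    exact FinitePlace.pos_iff.mpr hmax0
  have hle : ∀ z ∈ M, z ≠ 0 → D v φ z ≤ ε := by
    intro z hz hz0
    rw [hε]
    exact hmax _ ⟨z, ⟨hz, hz0⟩, rfl⟩
  have hunit : ∀ u ∈ M, v u = 1 → D v φ u < ε := fun u hu hvu =>
    D_unit hwild hp hvp M hε0 hle hu hvu
  -- it is enough to bound the maximal move
  suffices hεδ : ε ≤ δ by
    intro z hz
    rcases eq_or_ne z 0 with rfl | h0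
    · rw [map_zero, sub_zero, map_zero, mul_zero]
    · exact (D_lt (v := v) (φ := φ) h0).mp ((hle z hz h0).trans hεδ)
  -- the uniformizer of `M`
  have hpM : (p : L) ∈ M := natCast_mem M p
  have hp0 : (p : L) ≠ 0 := by exact_mod_cast hp.ne_zero
  obtain ⟨π, ⟨hπM, hπ1⟩, hπ0, hπmax⟩ := exists_max (v := v) {z | z ∈ M ∧ v z < 1}
    ⟨(p : L), ⟨hpM, hvp⟩, hp0⟩ (fun z hz => hz.2.le)
  have hfac : ∀ z ∈ M, z ≠ 0 → ∃ n : ℤ, z * π ^ n ∈ M ∧ v (z * π ^ n) = 1 := by
    intro z hz hz0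
    obtain ⟨n, hn1, hn2⟩ := exists_zpow hπ0 hπ1 hz0
    have hmem : z * π ^ n ∈ M := M.mul_mem hz (zpow_mem hπM n)
    refine ⟨n, hmem, ?_⟩
    by_contra hne
    have h1 := hπmax _ ⟨hmem, lt_of_le_of_ne hn2 hne⟩
    linarith
  have hsplit : ∀ z ∈ M, z ≠ 0 → ∀ y ∈ M, y ≠ 0 → ∀ n : ℤ, v (z * y ^ n) = 1 → ε ≤ D v φ z →
      ε ≤ D v φ y := by
    intro z hz hz0 y hy hy0 n hn hDz
    by_contra hlt
    push Not at hlt
    have hyn : y ^ n ≠ 0 := zpow_ne_zero n hy0
    have h1 : z = (z * y ^ n) * (y ^ n)⁻¹ := by field_simp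
    have h2 : D v φ z ≤ max (D v φ (z * y ^ n)) (D v φ (y ^ n)⁻¹) := by
      have := D_mul hwild (mul_ne_zero hz0 hyn) (inv_ne_zero hyn)
      rwa [← h1] at this
    have h3 := hunit _ (M.mul_mem hz (zpow_mem hy n)) hn
    rw [D_inv hwild hyn] at h2
    have h4 := D_zpow_le hwild hy0 n
    have h5 : max (D v φ (z * y ^ n)) (D v φ (y ^ n)) < ε := max_lt h3 (h4.trans_lt hlt)
    linarith
  have hDπ : D v φ π = ε := by
    apply le_antisymm (hle π hπM hπ0)
    obtain ⟨n, _, hn⟩ := hfac z₁ hz₁ hz₁0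
    exact hsplit z₁ hz₁ hz₁0 π hπM hπ0 n hn hε.le
  -- the tame group
  obtain ⟨S, hS⟩ : ∃ S : Subgroup Gal(L/K), S = (mi v).inertia Gal(L/K) ⊓ E.fixingSubgroup :=
    ⟨_, rfl⟩
  obtain ⟨T, hT⟩ : ∃ T : Subgroup Gal(M/K), T = S.map (AlgEquiv.restrictNormalHom M) := ⟨_, rfl⟩
  have hTmem : ∀ g : Gal(M/K), g ∈ T → ∃ s ∈ S, AlgEquiv.restrictNormalHom M s = g := by
    intro g hg
    rw [hT] at hg
    obtain ⟨s, hs, hst⟩ := hg
    exact ⟨s, hs, hst⟩
  have hfp : Fact p.Prime := ⟨hp⟩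
  have hTp : ¬ p ∣ Nat.card T := by
    intro hdvd
    obtain ⟨t, ht⟩ := exists_prime_orderOf_dvd_card' p hdvd
    obtain ⟨s, hsS, hst⟩ := hTmem t t.2
    rw [hS] at hsS
    have hfix : ∀ e ∈ E, s e = e := (IntermediateField.mem_fixingSubgroup_iff _ _).mp hsS.2
    have h1 : s ^ r.factorial ∈ M.fixingSubgroup := by
      rw [hM]
      exact mem_fix fun τ => pow_fact_conj E x hr hfix τ
    have h2 : (t : Gal(M/K)) ^ r.factorial = 1 := by
      rw [← hst, ← map_pow]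
      ext y
      rw [hcomm]
      exact (IntermediateField.mem_fixingSubgroup_iff _ _).mp h1 y y.2
    have h3 : orderOf (t : Gal(M/K)) ∣ r.factorial := orderOf_dvd_of_pow_eq_one h2
    rw [Subgroup.orderOf_coe, ht] at h3
    have h4 := (Nat.Prime.dvd_factorial hp).mp h3
    omega
  have hvT : v ((Nat.card T : ℕ) : L) = 1 := w_nat hp hvp _ hTp
  -- the norm
  have hTfin : Fintype T := Fintype.ofFinite T
  obtain ⟨π', hπ'⟩ : ∃ π' : M, (π' : L) = π := ⟨⟨π, hπM⟩, rfl⟩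
  obtain ⟨w, hw⟩ : ∃ w : M, w = ∏ t : T, (t : Gal(M/K)) π' := ⟨_, rfl⟩
  have hvt : ∀ t : T, v (((t : Gal(M/K)) π' : M) : L) = v π := by
    intro t
    obtain ⟨s, hsS, hst⟩ := hTmem t t.2
    rw [hS] at hsS
    rw [← hst, hcomm, hπ', inertia_v hsS.1]
  have hvw : v (w : L) = v π ^ Nat.card T := by
    rw [hw]
    have h1 : ((∏ t : T, (t : Gal(M/K)) π' : M) : L) = ∏ t : T, (((t : Gal(M/K)) π' : M) : L) :=
      map_prod (algebraMap M L) _ _
    rw [h1, map_prod, Finset.prod_congr rfl fun t _ => hvt t, Finset.prod_const,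
      Finset.card_univ, Nat.card_eq_fintype_card]
  have hw0 : (w : L) ≠ 0 := by
    intro h
    rw [h, map_zero] at hvw
    exact pow_ne_zero _ (v_ne hπ0) hvw.symm
  have hwS : ∀ s ∈ S, s (w : L) = w := by
    intro s hs
    have hsT : AlgEquiv.restrictNormalHom M s ∈ T := by
      rw [hT]
      exact ⟨s, hs, rfl⟩
    rw [← hcomm]
    congr 1
    rw [hw, map_prod]
    refine Fintype.prod_equiv (Equiv.mulLeft (⟨_, hsT⟩ : T)) _ _ fun t => ?_
    rfl
  have hDw : ε ≤ D v φ w := by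
    by_contra hlt
    push Not at hlt
    have hπT : π ^ Nat.card T ≠ 0 := pow_ne_zero _ hπ0
    obtain ⟨u, hu⟩ : ∃ u, u = π ^ Nat.card T * (w : L)⁻¹ := ⟨_, rfl⟩
    have huM : u ∈ M := by
      rw [hu]
      exact M.mul_mem (pow_mem hπM _) (M.inv_mem w.2)
    have hvu : v u = 1 := by
      rw [hu, map_mul, map_pow, map_inv₀, hvw]
      exact mul_inv_cancel₀ (pow_ne_zero _ (v_ne hπ0))
    have hu0 : u ≠ 0 := by
      rw [hu]
      exact mul_ne_zero hπT (inv_ne_zero hw0)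
    have h1 : π ^ Nat.card T = u * w := by
      rw [hu]
      field_simp
    have h2 := D_mul hwild hu0 hw0
    rw [← h1, D_pow hwild hπ0 hvT, hDπ] at h2
    have h3 := max_lt (hunit u huM hvu) hlt
    linarith
  -- comparison with `E`
  obtain ⟨e, heE, he0, he1, he2⟩ := exists_unif hP0 hv E
  rw [← hS] at he2
  obtain ⟨n', hn1, hn2⟩ := exists_zpow he0 he1 hw0
  have hn3 : v ((w : L) * e ^ n') = 1 := by
    by_contra hne
    have h1 := v_fixed_le v S (by rw [hS]; exact inf_le_left) (y := (w : L) * e ^ n')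
      (fun s hs => by
        have h2 : s e = e := by
          rw [hS] at hs
          exact (IntermediateField.mem_fixingSubgroup_iff _ _).mp hs.2 e heE
        rw [map_mul, map_zpow₀, h2, hwS s hs]) (lt_of_le_of_ne hn2 hne)
    linarith
  have hDe := hsplit w w.2 hw0 e (hEM heE) he0 n' hn3 hDw
  refine hDe.trans ?_
  rw [D_lt he0, hφρ e heE]
  exact hρv e heE

end

end Lif

/-- (LIF) -/
theorem liftLem : LiftLem := Lif.liftLem

end Pool.Agent.N715.AD
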