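import Mathlib
import Pool.Agent.N715.AD.Stm

/-!
Project AD, second part: wild ramification in abelian extensions at primes of degree one.
Statements of the independent parts.
-/

set_option autoImplicit false
set_option linter.unusedSectionVars false

namespace Pool.Agent.N715.AD

open NumberField Module
open Pool.Agent.H420R3 (mi nv TP ew)

noncomputable section

/-- the `n`-th ramification group at the place `v` (for `n ≥ 1`, lower numbering) -/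
def Rn (K : Type) {M : Type} [Field K] [Field M] [NumberField M] [Algebra K M]
    (v : FinitePlace M) (n : ℕ) (σ : Gal(M/K)) : Prop :=
  ∀ z : M, v (σ z - z) ≤ (nv v)⁻¹ ^ n * v z

/-- the inertia group at `v` -/
def In (K : Type) {M : Type} [Field K] [NumberField K] [Field M] [NumberField M] [Algebra K M]
    (v : FinitePlace M) : Subgroup Gal(M/K) := (mi v).inertia Gal(M/K)

/-- (RV) units move less -/
def RvLem : Prop :=
  ∀ (K : Type) [Field K] [NumberField K] (M : Type) [Field M] [NumberField M] [Algebra K M]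
    (P : Ideal (𝓞 K)) [P.IsMaximal], P ≠ ⊥ → ∀ v ∈ TP M P, ∀ (t : ℕ) (σ : Gal(M/K)), 1 ≤ t →
    Rn K v t σ → ∀ z : M, v z = 1 → v (σ z - z) ≤ (nv v)⁻¹ ^ (t + 1)

/-- (RU) the test on a uniformiser -/
def RuLem : Prop :=
  ∀ (K : Type) [Field K] [NumberField K] (M : Type) [Field M] [NumberField M] [Algebra K M]
    [IsGalois K M] (P : Ideal (𝓞 K)) [P.IsMaximal], P ≠ ⊥ → ∀ v ∈ TP M P,
    ∀ σ ∈ In K v, ∀ (n : ℕ) (π : M), 1 ≤ n → v π = (nv v)⁻¹ →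
    v (σ π - π) ≤ (nv v)⁻¹ ^ n * v π → Rn K v n σ

/-- (RW) elements of the inertia group whose order is a power of `p` -/
def RwLem : Prop :=
  ∀ (K : Type) [Field K] [NumberField K] (M : Type) [Field M] [NumberField M] [Algebra K M]
    [IsGalois K M] (P : Ideal (𝓞 K)) [P.IsMaximal], P ≠ ⊥ → ∀ p : ℕ, p.Prime → (p : 𝓞 K) ∈ P →
    ∀ v ∈ TP M P, ∀ σ ∈ In K v, ∀ k : ℕ, σ ^ p ^ k = 1 → Rn K v 1 σ

/-- (RP) the `p`-th power -/
def RpLem : Prop :=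
  ∀ (K : Type) [Field K] [NumberField K] (M : Type) [Field M] [NumberField M] [Algebra K M]
    (v : FinitePlace M) (p e n : ℕ), p.Prime → v (p : M) = (nv v)⁻¹ ^ e →
    ∀ σ : Gal(M/K), Rn K v n σ → Rn K v (min (p * n) (n + e)) (σ ^ p)

/-- (RO) elements of order `p` -/
def RoLem : Prop :=
  ∀ (K : Type) [Field K] [NumberField K] (M : Type) [Field M] [NumberField M] [Algebra K M]
    (v : FinitePlace M) (p e n : ℕ), p.Prime → v (p : M) = (nv v)⁻¹ ^ e → 1 ≤ n →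
    ∀ σ : Gal(M/K), Rn K v n σ → σ ^ p = 1 → σ ≠ 1 → (p - 1) * n ≤ e

/-- (RT) the tame part divides the jumps -/
def RtLem : Prop :=
  ∀ (K : Type) [Field K] [NumberField K] (M : Type) [Field M] [NumberField M] [Algebra K M]
    [IsAbelianGalois K M] (P : Ideal (𝓞 K)) [P.IsMaximal], P ≠ ⊥ → ∀ p : ℕ, p.Prime →
    (p : 𝓞 K) ∈ P → ∀ v ∈ TP M P, ∀ (e₀ w t : ℕ) (σ : Gal(M/K)), ¬ p ∣ e₀ →
    Nat.card (In K v) = e₀ * p ^ w → 1 ≤ t → Rn K v t σ → ¬ Rn K v (t + 1) σ → e₀ ∣ t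

/-- (RE) the tame part, at a prime of degree one -/
def ReLem : Prop :=
  ∀ (K : Type) [Field K] [NumberField K] (M : Type) [Field M] [NumberField M] [Algebra K M]
    [IsAbelianGalois K M] (P : Ideal (𝓞 K)) [P.IsMaximal], P ≠ ⊥ → ∀ p : ℕ, p.Prime →
    (p : 𝓞 K) ∈ P → P.absNorm = p → ∀ v ∈ TP M P, ∀ (e₀ w : ℕ), ¬ p ∣ e₀ →
    Nat.card (In K v) = e₀ * p ^ w → e₀ ≤ p - 1

/-- (RQ) the graded pieces, at a prime of degree one -/
def RqLem : Prop :=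
  ∀ (K : Type) [Field K] [NumberField K] (M : Type) [Field M] [NumberField M] [Algebra K M]
    [IsAbelianGalois K M] (P : Ideal (𝓞 K)) [P.IsMaximal], P ≠ ⊥ → ∀ p : ℕ, p.Prime →
    (p : 𝓞 K) ∈ P → P.absNorm = p → ∀ v ∈ TP M P, ∀ (t : ℕ) (σ σ' : Gal(M/K)), 1 ≤ t →
    Rn K v t σ → ¬ Rn K v (t + 1) σ → Rn K v t σ' → ∃ k : ℕ, Rn K v (t + 1) (σ' * σ ^ k)

/-- (RR) restriction to a subextension -/
def RrLem : Prop :=
  ∀ (K : Type) [Field K] [NumberField K] (M : Type) [Field M] [NumberField M] [Algebra K M]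
    [IsGalois K M] (M' : IntermediateField K M) [IsGalois K M'] (P : Ideal (𝓞 K)) [P.IsMaximal],
    P ≠ ⊥ → ∀ v ∈ TP M P, ∃ v' ∈ TP M' P, ∃ f : ℕ, 1 ≤ f ∧
      Nat.card (In K v) = f * Nat.card (In K v') ∧
      f = Nat.card (In K v ⊓ M'.fixingSubgroup : Subgroup Gal(M/K)) ∧
      (∀ z : M', ∀ k : ℕ, v' z ≤ (nv v')⁻¹ ^ k ↔ v (z : M) ≤ (nv v)⁻¹ ^ (f * k)) ∧
      (∀ (σ : Gal(M/K)) (n : ℕ), Rn K v' n (AlgEquiv.restrictNormalHom M' σ) ↔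
        ∀ z ∈ M', v (σ z - z) ≤ (nv v)⁻¹ ^ (f * n) * v z) ∧
      (∀ σ ∈ In K v, AlgEquiv.restrictNormalHom M' σ ∈ In K v') ∧
      ∀ σ' ∈ In K v', ∃ σ ∈ In K v, AlgEquiv.restrictNormalHom M' σ = σ'

/-- (RN) an estimate for norms in an extension of degree `p` -/
def RnLem : Prop :=
  ∀ (K : Type) [Field K] [NumberField K] (M : Type) [Field M] [NumberField M] [Algebra K M]
    (v : FinitePlace M) (p e t₁ t₂ T : ℕ) (h : Gal(M/K)) (a : M), p.Prime →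
    v (p : M) = (nv v)⁻¹ ^ e → h ^ p = 1 → Rn K v t₁ h → v a ≤ (nv v)⁻¹ ^ t₂ →
    T ≤ t₂ + (p - 1) * t₁ → T ≤ e + t₂ → T ≤ p * t₂ →
    v (∏ j ∈ Finset.range p, (1 + (h ^ j) a) - 1) ≤ (nv v)⁻¹ ^ T

/-- (NPP) the wild inertia group is not of type `(p, p)` -/
def NppLem : Prop :=
  ∀ (K : Type) [Field K] [NumberField K] (M : Type) [Field M] [NumberField M] [Algebra K M]
    [IsAbelianGalois K M] (P : Ideal (𝓞 K)) [P.IsMaximal], P ≠ ⊥ → ∀ p : ℕ, p.Prime → 3 ≤ p →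
    (p : 𝓞 K) ∈ P → (p : 𝓞 K) ∉ P ^ 2 → P.absNorm = p → ∀ v ∈ TP M P, ∀ e₀ : ℕ, ¬ p ∣ e₀ →
    Nat.card (In K v) = e₀ * p ^ 2 → (∀ σ ∈ In K v, σ ^ p ^ 2 = 1 → σ ^ p = 1) → False

/-- (CYW) the wild inertia group is cyclic -/
def CywLem : Prop :=
  ∀ (K : Type) [Field K] [NumberField K] (M : Type) [Field M] [NumberField M] [Algebra K M]
    [IsAbelianGalois K M] (P : Ideal (𝓞 K)) [P.IsMaximal], P ≠ ⊥ → ∀ p : ℕ, p.Prime → 3 ≤ p →
    (p : 𝓞 K) ∈ P → (p : 𝓞 K) ∉ P ^ 2 → P.absNorm = p → ∀ v ∈ TP M P, ∀ e₀ w : ℕ, ¬ p ∣ e₀ →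
    Nat.card (In K v) = e₀ * p ^ w → ∃ σ ∈ In K v, orderOf σ = p ^ w

/-- (ABW) an element of the Galois group which moves all elements very little -/
def AbLem : Prop :=
  ∀ (K : Type) [Field K] [NumberField K] (L : Type) [Field L] [NumberField L] [Algebra K L]
    [IsGalois K L] (P : Ideal (𝓞 K)) [P.IsMaximal], P ≠ ⊥ →
    ∀ p : ℕ, p.Prime → 3 ≤ p → (p : 𝓞 K) ∈ P → (p : 𝓞 K) ∉ P ^ 2 → P.absNorm = p →
    ∀ (E : IntermediateField K L) [IsAbelianGalois K E],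
    (∃ u ∈ TP E P, p ∣ (mi u).ramificationIdx (𝓞 K)) →
    ∃ ρ : Gal(L/K), (∃ z ∈ E, ρ z ≠ z) ∧ ∀ v ∈ TP L P, ∀ z ∈ E,
      v (ρ z - z) ≤ Real.exp (-(ew K v / (p : ℝ) ^ 2)) * v z

/-- (PR1) a prime of degree one -/
def Prm1Lem : Prop :=
  ∀ (K : Type) [Field K] [NumberField K] (n : ℕ), ∃ (p : ℕ) (P : Ideal (𝓞 K)), p.Prime ∧
    P.IsMaximal ∧ P ≠ ⊥ ∧ (p : 𝓞 K) ∈ P ∧ (p : 𝓞 K) ∉ P ^ 2 ∧ n < p ∧ P.absNorm = p

end

end Pool.Agent.N715.AD
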