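import Mathlib
import Pool.Agent.N715.AD.Stm2
import Pool.Agent.N715.AD.Cyk
import Pool.Agent.N715.AD.Lif

/-!
Project AD2 (helper715): an element of the Galois group which moves everything very little (ABW).
By helper7.
-/

set_option autoImplicit false
set_option linter.unusedSectionVars false

namespace Pool.Agent.N715.AD

open NumberField Module
open Pool.Agent.H420R3 (mi nv TP ew)
open scoped Pointwise

noncomputable section

namespace Abw

section conj

variable {K : Type} [Field K] [NumberField K] {M : Type} [Field M] [NumberField M] [Algebra K M]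
  [IsGalois K M] {P : Ideal (𝓞 K)} [hP : P.IsMaximal]

/-- the norms of the places over `P` are equal -/
lemma nv_eq (hP0 : P ≠ ⊥) {u u' : FinitePlace M} (hu : u ∈ TP M P) (hu' : u' ∈ TP M P) :
    nv u = nv u' := by
  have hlo := H420R3.liesOver_of_mem hP0 hu
  have hlo' := H420R3.liesOver_of_mem hP0 hu'
  have h1 := Ideal.absNorm_eq_pow_inertiaDeg'_of_liesOver (mi u) P inferInstance hP0
  have h2 := Ideal.absNorm_eq_pow_inertiaDeg'_of_liesOver (mi u') P inferInstance hP0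
  have h3 := Ideal.inertiaDeg_eq_of_isGaloisGroup P (mi u) (mi u') Gal(M/K)
  rw [← Ideal.inertiaDeg'_eq_inertiaDeg P (mi u), ← Ideal.inertiaDeg'_eq_inertiaDeg P (mi u')] at h3
  unfold nv
  rw [h1, h2, h3]

/-- the ramification indices of the places over `P` are equal -/
lemma ram_eq (hP0 : P ≠ ⊥) {u u' : FinitePlace M} (hu : u ∈ TP M P) (hu' : u' ∈ TP M P) :
    (mi u).ramificationIdx (𝓞 K) = (mi u').ramificationIdx (𝓞 K) := by
  have hlo := H420R3.liesOver_of_mem hP0 hu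
  have hlo' := H420R3.liesOver_of_mem hP0 hu'
  exact Ideal.ramificationIdx_eq_of_isGaloisGroup P (mi u) (mi u') Gal(M/K)

lemma ew_eq (hP0 : P ≠ ⊥) {u u' : FinitePlace M} (hu : u ∈ TP M P) (hu' : u' ∈ TP M P) :
    ew K u = ew K u' := by
  unfold ew
  rw [ram_eq hP0 hu hu', nv_eq hP0 hu hu']

/-- the order of the inertia group -/
lemma card_In (hP0 : P ≠ ⊥) {u : FinitePlace M} (hu : u ∈ TP M P) :
    Nat.card (In K u) = (mi u).ramificationIdx (𝓞 K) := by
  have hlo := H420R3.liesOver_of_mem hP0 hu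
  have h1 : Nat.card ((mi u).inertia Gal(M/K)) = P.ramificationIdxIn (𝓞 M) :=
    Ideal.card_inertia_eq_ramificationIdxIn (G := Gal(M/K)) P (mi u)
  have h2 : P.ramificationIdxIn (𝓞 M) = (mi u).ramificationIdx (𝓞 K) :=
    Ideal.ramificationIdxIn_eq_ramificationIdx P (mi u) Gal(M/K)
  exact h1.trans h2

lemma conj_le {u u' : FinitePlace M} (hn : nv u = nv u') {g : Gal(M/K)}
    (hg : g • mi u = mi u') (a : 𝓞 M) : u' (g (a : M)) ≤ u (a : M) := by
  rcases eq_or_ne a 0 with rfl | ha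
  · simp
  · rw [H420R3.v_eq u ha, hn, ← H420R3.coe_smul, H420R3.v_le_iff]
    have h1 : a ∈ mi u ^ (multiplicity (mi u) (Ideal.span {a})) := by
      rw [← H420R3.v_le_iff, ← H420R3.v_eq u ha]
    have h2 : g • a ∈ g • (mi u ^ (multiplicity (mi u) (Ideal.span {a}))) :=
      Ideal.smul_mem_pointwise_smul_iff.mpr h1
    have h3 : g • (mi u ^ (multiplicity (mi u) (Ideal.span {a}))) =
        (g • mi u) ^ (multiplicity (mi u) (Ideal.span {a})) := smul_pow' _ _ _
    rwa [h3, hg] at h2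

/-- conjugate places -/
lemma conj_int {u u' : FinitePlace M} (hn : nv u = nv u') {g : Gal(M/K)}
    (hg : g • mi u = mi u') (a : 𝓞 M) : u' (g (a : M)) = u (a : M) := by
  apply le_antisymm (conj_le hn hg a)
  have hg' : g⁻¹ • mi u' = mi u := by rw [inv_smul_eq_iff, hg]
  have h1 := conj_le hn.symm hg' (g • a)
  rw [H420R3.coe_smul] at h1
  have h3 : (g⁻¹ : Gal(M/K)) (g (a : M)) = (a : M) := by
    rw [← AlgEquiv.mul_apply, inv_mul_cancel]
    rfl
  rwa [h3] at h1

lemma conj_apply {u u' : FinitePlace M} (hn : nv u = nv u') {g : Gal(M/K)}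
    (hg : g • mi u = mi u') (y : M) : u' (g y) = u y := by
  obtain ⟨a, b, hb, hab⟩ := IsFractionRing.div_surjective (A := 𝓞 M) y
  rw [← hab, map_div₀, map_div₀, map_div₀]
  rw [show (algebraMap (𝓞 M) M) a = (a : M) from rfl,
    show (algebraMap (𝓞 M) M) b = (b : M) from rfl, conj_int hn hg, conj_int hn hg]

end conj

section wild

variable {K : Type} [Field K] [NumberField K] {M : Type} [Field M] [NumberField M] [Algebra K M]

lemma Rn_mono {v : FinitePlace M} {m n : ℕ} (hmn : m ≤ n) {σ : Gal(M/K)} (h : Rn K v n σ) :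
    Rn K v m σ := by
  intro z
  refine (h z).trans ?_
  have h1 : (nv v)⁻¹ ^ n ≤ (nv v)⁻¹ ^ m :=
    pow_le_pow_of_le_one (inv_nonneg.2 (H420R3.nv_pos v).le)
      (inv_le_one_of_one_le₀ (H420R3.one_lt_nv v).le) hmn
  exact mul_le_mul_of_nonneg_right h1 (apply_nonneg v z)

lemma Rn_pow (h2 : RpLem) {v : FinitePlace M} {p e : ℕ} (hp : p.Prime)
    (hv : v (p : M) = (nv v)⁻¹ ^ e) {σ : Gal(M/K)} (h : Rn K v 1 σ) (k : ℕ) :
    Rn K v (min (p ^ k) e) (σ ^ p ^ k) := by
  induction k with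
  | zero =>
    rw [pow_zero, pow_one]
    exact Rn_mono (min_le_left _ _) h
  | succ k ih =>
    have h3 := h2 K M v p e _ hp hv _ ih
    rw [pow_succ, pow_mul]
    refine Rn_mono ?_ h3
    have hp1 := hp.one_lt
    refine le_min ?_ ?_
    · rcases le_total (p ^ k) e with h4 | h4
      · rw [min_eq_left h4]
        exact (min_le_left _ _).trans (mul_comm _ _).le
      · rw [min_eq_right h4]
        exact (min_le_right _ _).trans (Nat.le_mul_of_pos_left e hp.pos)
    · exact (min_le_right _ _).trans (Nat.le_add_left _ _)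

end wild

end Abw

theorem abLem (h1 : RwLem) (h2 : RpLem) (h3 : ReLem) (h4 : CywLem) (h5 : RstLem) : AbLem := by
  intro K _ _ L _ _ _ _ P hPm hP0 p hp hp3 hpP hpP2 hN E _ ⟨u, hu, hr⟩
  -- the order of the inertia group
  obtain ⟨e, he⟩ : ∃ e, e = (mi u).ramificationIdx (𝓞 K) := ⟨_, rfl⟩
  have hcard : Nat.card (In K u) = e := by rw [he]; exact Abw.card_In hP0 hu
  have he0 : e ≠ 0 := by
    rw [he]
    exact (H420R3.ramIdx_pos u).ne'
  obtain ⟨w, e₀, he₀, hew⟩ := Nat.exists_eq_pow_mul_and_not_dvd he0 p hp.ne_one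
  have hcard' : Nat.card (In K u) = e₀ * p ^ w := by rw [hcard, hew, mul_comm]
  have hw : 1 ≤ w := by
    rcases Nat.eq_zero_or_pos w with rfl | h
    · exfalso
      rw [pow_zero, one_mul] at hew
      rw [← he, hew] at hr
      exact he₀ hr
    · exact h
  obtain ⟨s, hs, hord⟩ := h4 K E P hP0 p hp hp3 hpP hpP2 hN u hu e₀ w he₀ hcard'
  have hle := h3 K E P hP0 p hp hpP hN u hu e₀ w he₀ hcard'
  have hR1 := h1 K E P hP0 p hp hpP u hu s hs w (by rw [← hord, pow_orderOf_eq_one])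
  have hvp : u (p : E) = (nv u)⁻¹ ^ e := by
    rw [Cyk.v_p (M := E) hP0 hu hpP hpP2, Real.exp_neg]
    unfold ew
    rw [Real.exp_nat_mul, Real.exp_log (H420R3.nv_pos u), ← he, inv_pow]
  obtain ⟨r₀, hr₀⟩ : ∃ r₀, r₀ = s ^ p ^ (w - 1) := ⟨_, rfl⟩
  have hR := Abw.Rn_pow h2 hp hvp hR1 (w - 1)
  rw [← hr₀] at hR
  obtain ⟨m, hm⟩ : ∃ m, m = min (p ^ (w - 1)) e := ⟨_, rfl⟩
  rw [← hm] at hR
  have hme : e ≤ m * p ^ 2 := by
    have e1 : p ^ w = p ^ (w - 1) * p := by
      rw [← pow_succ]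
      congr 1
      omega
    have e2 : e ≤ p ^ (w - 1) * p ^ 2 := by
      rw [hew, e1]
      have : e₀ ≤ p := by omega
      calc p ^ (w - 1) * p * e₀ ≤ p ^ (w - 1) * p * p := Nat.mul_le_mul_left _ this
        _ = p ^ (w - 1) * p ^ 2 := by ring
    have e3 : e ≤ e * p ^ 2 := Nat.le_mul_of_pos_right e (pow_pos hp.pos 2)
    rw [hm]
    rcases le_total (p ^ (w - 1)) e with h6 | h6
    · rw [min_eq_left h6]
      exact e2
    · rw [min_eq_right h6]
      exact e3
  have hr₀1 : r₀ ≠ 1 := by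
    rw [hr₀]
    intro h6
    have h7 := orderOf_dvd_of_pow_eq_one h6
    rw [hord] at h7
    have h8 := (Nat.pow_dvd_pow_iff_le_right hp.one_lt).1 h7
    omega
  have key : ∀ z : E, u (r₀ z - z) ≤ Real.exp (-(ew K u / (p : ℝ) ^ 2)) * u z := by
    intro z
    refine (hR z).trans (mul_le_mul_of_nonneg_right ?_ (apply_nonneg u z))
    have hlog := H420R3.log_nv_pos u
    have e1 : (nv u)⁻¹ ^ m = Real.exp (-(m * Real.log (nv u))) := by
      rw [Real.exp_neg, Real.exp_nat_mul, Real.exp_log (H420R3.nv_pos u), inv_pow]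
    rw [e1]
    apply Real.exp_le_exp.2
    apply neg_le_neg
    have hpp : (0 : ℝ) < (p : ℝ) ^ 2 := by
      have : (0 : ℝ) < p := by exact_mod_cast hp.pos
      positivity
    rw [div_le_iff₀ hpp]
    unfold ew
    rw [← he]
    have hme' : (e : ℝ) ≤ m * (p : ℝ) ^ 2 := by exact_mod_cast hme
    calc (e : ℝ) * Real.log (nv u) ≤ (m * (p : ℝ) ^ 2) * Real.log (nv u) := by gcongr
      _ = m * Real.log (nv u) * (p : ℝ) ^ 2 := by ring
  have key' : ∀ u' ∈ TP E P, ∀ z : E,
      u' (r₀ z - z) ≤ Real.exp (-(ew K u' / (p : ℝ) ^ 2)) * u' z := by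
    intro u' hu' z
    have hlo := H420R3.liesOver_of_mem hP0 hu
    have hlo' := H420R3.liesOver_of_mem hP0 hu'
    obtain ⟨g, hg⟩ := Ideal.exists_smul_eq_of_isGaloisGroup P (mi u) (mi u') Gal(E/K)
    have hn := Abw.nv_eq (K := K) hP0 hu hu'
    obtain ⟨y, rfl⟩ := g.surjective z
    have hcomm : r₀ (g y) = g (r₀ y) := by
      rw [← AlgEquiv.mul_apply, ← AlgEquiv.mul_apply]
      congr 1
      exact IsMulCommutative.is_comm.comm r₀ g
    rw [hcomm, ← map_sub, Abw.conj_apply hn hg, Abw.conj_apply hn hg, ← Abw.ew_eq hP0 hu hu']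
    exact key y
  obtain ⟨ρ, hρ⟩ := AlgEquiv.restrictNormalHom_surjective (F := K) (K₁ := E) L r₀
  have hρz : ∀ z : E, ρ (z : L) = ((r₀ z : E) : L) := by
    intro z
    rw [← hρ]
    exact (AlgEquiv.restrictNormal_commutes ρ E z).symm
  refine ⟨ρ, ?_, ?_⟩
  · by_contra hcon
    push Not at hcon
    apply hr₀1
    ext z
    rw [← hρz, hcon z z.2]
    rfl
  · intro v hv z hz
    obtain ⟨u', hu', d, hd, huv, hew'⟩ := h5 K E L P hP0 v hv
    have e1 : v (ρ z - z) = u' (r₀ ⟨z, hz⟩ - ⟨z, hz⟩) ^ d := by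
      rw [← huv, map_sub (algebraMap E L)]
      change v (ρ z - z) = v (((r₀ ⟨z, hz⟩ : E) : L) - z)
      rw [← hρz]
    have e2 : v z = u' (⟨z, hz⟩ : E) ^ d := by
      rw [← huv]
      rfl
    rw [e1, e2, hew']
    calc u' (r₀ ⟨z, hz⟩ - ⟨z, hz⟩) ^ d
        ≤ (Real.exp (-(ew K u' / (p : ℝ) ^ 2)) * u' (⟨z, hz⟩ : E)) ^ d :=
          Real.rpow_le_rpow (apply_nonneg _ _) (key' u' hu' _) hd.le
      _ = Real.exp (-(ew K u' / (p : ℝ) ^ 2)) ^ d * u' (⟨z, hz⟩ : E) ^ d :=
          Real.mul_rpow (Real.exp_pos _).le (apply_nonneg _ _)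
      _ = Real.exp (-(d * ew K u' / (p : ℝ) ^ 2)) * u' (⟨z, hz⟩ : E) ^ d := by
          rw [← Real.exp_mul]
          congr 2
          ring

end

end Pool.Agent.N715.AD
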