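import Mathlib
import Pool.Agent.N715.AD.Stm

/-!
Project AD: an invariant curve which degenerates to the diagonal modulo `P` does not exist.
-/

set_option autoImplicit false
set_option linter.unusedSectionVars false

namespace Pool.Agent.N715.AD

open NumberField Module Polynomial
open Pool.Agent.H627.LR (GR GoodK)
open Pool.Agent.R829.BG (XD E2)

noncomputable section

lemma wdg_ne {k : Type} [Field k] {a a' b b' : Fin (1 + 1) → k} (h1 : wdg a a' = 0)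
    (h2 : wdg b b' = 0) (ha : a' ≠ 0) (hb : b' ≠ 0) (h : wdg a b ≠ 0) : wdg a' b' ≠ 0 := by
  intro h3
  unfold wdg at *
  have h4 : a' 0 * b 1 - a' 1 * b 0 ≠ 0 := by
    intro h4
    apply ha
    funext i
    have : (a 0 * b 1 - a 1 * b 0) * a' i = 0 := by
      fin_cases i
      · change (a 0 * b 1 - a 1 * b 0) * a' 0 = 0
        linear_combination a 0 * h4 + b 0 * h1
      · change (a 0 * b 1 - a 1 * b 0) * a' 1 = 0
        linear_combination a 1 * h4 + b 1 * h1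
    exact (mul_eq_zero.mp this).resolve_left h
  apply hb
  funext i
  have : (a' 0 * b 1 - a' 1 * b 0) * b' i = 0 := by
    fin_cases i
    · change (a' 0 * b 1 - a' 1 * b 0) * b' 0 = 0
      linear_combination b 0 * h3 - a' 0 * h2
    · change (a' 0 * b 1 - a' 1 * b 0) * b' 1 = 0
      linear_combination b 1 * h3 - a' 1 * h2
  exact (mul_eq_zero.mp this).resolve_left h4

/-- the weights -/
lemma weights {s m : ℕ} (hm : 1 ≤ m) {e μ : Fin s → ℕ} (he : ∀ i, 1 ≤ e i)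
    (h1 : ∀ i, m * (e i - 1) ≤ e i * μ i) (h2 : ∑ i, μ i ≤ 2 * m)
    (h3 : 2 < ∑ i, (1 - 1 / (e i : ℝ))) : False := by
  have h4 : ∀ i, (m : ℝ) * (1 - 1 / (e i : ℝ)) ≤ μ i := by
    intro i
    have he0 : (0 : ℝ) < e i := by exact_mod_cast he i
    have h5 : ((m * (e i - 1) : ℕ) : ℝ) ≤ ((e i * μ i : ℕ) : ℝ) := by exact_mod_cast h1 i
    rw [Nat.cast_mul, Nat.cast_mul, Nat.cast_sub (he i), Nat.cast_one] at h5
    have h6 : (m : ℝ) * (1 - 1 / (e i : ℝ)) = (m * ((e i : ℝ) - 1)) / e i := by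
      field_simp
    rw [h6, div_le_iff₀ he0]
    linarith
  have h5 := Finset.sum_le_sum (fun i (_ : i ∈ Finset.univ) => h4 i)
  rw [← Finset.mul_sum] at h5
  have h6 : (∑ i, (μ i : ℝ)) ≤ 2 * m := by exact_mod_cast h2
  have hm0 : (0 : ℝ) < m := by exact_mod_cast hm
  nlinarith

variable {K : Type} [Field K] [NumberField K] {P : Ideal (𝓞 K)} [hP : P.IsMaximal]

theorem alg_false (hVal : ValLem) (hAcl : AclLem) (hGau : GauLem) (hInf : InfLem)
    (hHom : HomLem) (hFrm : FrmLem) (hItr : ItrLem) (hLdg : LdgLem) (hMul : MulLem)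
    (hSum : SumLem) (hNzj : NzjLem) (hItf : ItfLem) (hGnz : GnzLem)
    {F : Fin (1 + 1) → MvPolynomial (Fin (1 + 1)) K} {q : ℕ}
    (hP0 : P ≠ ⊥) (hG : GoodK P F q) (hq : 2 ≤ q)
    {G : Fin (1 + 1) → MvPolynomial (Fin (1 + 1)) (𝓞 K)}
    (hGF : ∀ i, F i = MvPolynomial.map (algebraMap (𝓞 K) K) (G i))
    (hGh : ∀ i, (G i).IsHomogeneous q) (hqP : (q : 𝓞 K) ∉ P)
    {s : ℕ} {n e : Fin s → ℕ} (he : ∀ i, 1 ≤ e i) (hsum : 2 < ∑ i, (1 - 1 / (e i : ℝ)))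
    (hdat : ∀ (A : ValuationSubring (AlgebraicClosure K)) (ψ : 𝓞 K →+* A),
      (∀ a, ((ψ a : A) : AlgebraicClosure K) = algebraMap K (AlgebraicClosure K) (a : K)) →
      (∀ a, red A (ψ a) = 0 ↔ a ∈ P) →
      ∃ c' : Fin s → Fin (1 + 1) → rf A, (∀ i, c' i ≠ 0) ∧
        (∀ i, Dat (fun j => MvPolynomial.map ((red A).comp ψ) (G j)) (c' i) (n i) (e i)) ∧
        ∀ i j, i ≠ j → wdg
          ((pt (fun j => MvPolynomial.map ((red A).comp ψ) (G j)))^[n i] (c' i))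
          ((pt (fun j => MvPolynomial.map ((red A).comp ψ) (G j)))^[n j] (c' j)) ≠ 0)
    {l b : ℕ} (hl : 1 ≤ l) {g : K[X][X]} (hgb : g.natDegree ≤ b) (hgX : XD b g)
    (hgI : ∀ i j, ∃ a : 𝓞 K, (g.coeff j).coeff i = (a : K))
    (hgP : ∃ i j, ∃ a : 𝓞 K, a ∉ P ∧ (g.coeff j).coeff i = (a : K))
    (hg0 : g.eval X ≠ 0)
    (hgD : ∀ i, ∃ a : 𝓞 K, a ∈ P ∧ (g.eval X).coeff i = (a : K))
    (hdiv : g ∣ hom2 b (dz (itF F l 0)) (dz (itF F l 1)) g) : False := by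
  obtain ⟨A, ψ, hψ1, hψ2⟩ := hVal K P hP0
  obtain ⟨hI1, hI2, hI3, -, hI5, hI6, hI7, hI8⟩ := hItf
  obtain ⟨c', hc1, hc2, hc3⟩ := hdat A ψ hψ1 hψ2
  have hAC : IsAlgClosed (rf A) := hAcl _ A
  obtain ⟨ι, hι⟩ : ∃ ι : 𝓞 K →+* K, ι = algebraMap (𝓞 K) K := ⟨_, rfl⟩
  have hιi : Function.Injective ι := by
    rw [hι]
    exact RingOfIntegers.coe_injective
  have hι' : ∀ a : 𝓞 K, ι a = (a : K) := fun a => by rw [hι]
  obtain ⟨j, hj⟩ : ∃ j : K →+* AlgebraicClosure K, j = algebraMap K (AlgebraicClosure K) :=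
    ⟨_, rfl⟩
  have hji : Function.Injective j := j.injective
  have hcomp : A.subtype.comp ψ = j.comp ι := by
    ext a
    rw [RingHom.comp_apply, RingHom.comp_apply, hι', hj]
    exact hψ1 a
  -- the integral model of the relation
  obtain ⟨g₀, hg₀⟩ : ∃ g₀ : (𝓞 K)[X][X], g₀.map (mapRingHom ι) = g := by
    have h1 : g ∈ Polynomial.lifts (mapRingHom ι) := by
      rw [Polynomial.lifts_iff_coeff_lifts]
      intro m
      have h2 : g.coeff m ∈ Polynomial.lifts ι := by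
        rw [Polynomial.lifts_iff_coeff_lifts]
        intro i
        obtain ⟨a, ha⟩ := hgI i m
        exact ⟨a, by rw [ha, hι']⟩
      obtain ⟨p, hp⟩ := (Polynomial.mem_lifts _).mp h2
      exact ⟨p, hp⟩
    obtain ⟨p, hp⟩ := (Polynomial.mem_lifts _).mp h1
    exact ⟨p, hp⟩
  have hmi : Function.Injective (mapRingHom ι) := Polynomial.map_injective ι hιi
  have hg₀c : ∀ i m, ι ((g₀.coeff m).coeff i) = (g.coeff m).coeff i := by
    intro i m
    rw [← hg₀, Polynomial.coeff_map, coe_mapRingHom, Polynomial.coeff_map]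
  have hg₀b : g₀.natDegree ≤ b := by
    rw [← hg₀, Polynomial.natDegree_map_eq_of_injective hmi] at hgb
    exact hgb
  have hg₀X : ∀ m, (g₀.coeff m).natDegree ≤ b := by
    intro m
    have h1 := hgX m
    rw [← hg₀, Polynomial.coeff_map, coe_mapRingHom,
      Polynomial.natDegree_map_eq_of_injective hιi] at h1
    exact h1
  -- the data over the valuation ring
  obtain ⟨gA, hgA⟩ : ∃ gA : A[X][X], gA = g₀.map (mapRingHom ψ) := ⟨_, rfl⟩
  obtain ⟨f₀, hf₀⟩ : ∃ f₀ : (𝓞 K)[X], f₀ = dz (itF G l 0) := ⟨_, rfl⟩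
  obtain ⟨s₀, hs₀⟩ : ∃ s₀ : (𝓞 K)[X], s₀ = dz (itF G l 1) := ⟨_, rfl⟩
  have hFG : (fun i => MvPolynomial.map ι (G i)) = F := by
    funext i
    rw [hGF i, hι]
  have hfK : f₀.map ι = dz (itF F l 0) := by
    rw [hf₀, hI7, hI2, hFG]
  have hsK : s₀.map ι = dz (itF F l 1) := by
    rw [hs₀, hI7, hI2, hFG]
  obtain ⟨h, hh⟩ := hdiv
  have hmm : ∀ {R S T : Type} [CommRing R] [CommRing S] [CommRing T] (f : R →+* S) (g : S →+* T)
      (p : R[X][X]), (p.map (mapRingHom f)).map (mapRingHom g) = p.map (mapRingHom (g.comp f)) := by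
    intro R S T _ _ _ f g p
    rw [Polynomial.map_map, mapRingHom_comp]
  have hNA : (hom2 b (f₀.map ψ) (s₀.map ψ) gA).map (mapRingHom A.subtype) =
      gA.map (mapRingHom A.subtype) * h.map (mapRingHom j) := by
    have h1 : hom2 b (f₀.map ψ) (s₀.map ψ) gA = (hom2 b f₀ s₀ g₀).map (mapRingHom ψ) := by
      rw [hI8, hgA]
    have h2 : gA.map (mapRingHom A.subtype) = g.map (mapRingHom j) := by
      rw [hgA, hmm, hcomp, ← hmm, hg₀]
    rw [h1, hmm, hcomp, ← hmm, hI8, hg₀, hfK, hsK, hh, Polynomial.map_mul, h2]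
  obtain ⟨χ, hχ⟩ : ∃ χ : 𝓞 K →+* rf A, χ = (red A).comp ψ := ⟨_, rfl⟩
  have hχP : ∀ a, χ a = 0 ↔ a ∈ P := fun a => by
    rw [hχ, RingHom.comp_apply]
    exact hψ2 a
  rw [← hχ] at hc2 hc3
  obtain ⟨Γ, hΓ⟩ : ∃ Γ : Fin (1 + 1) → MvPolynomial (Fin (1 + 1)) (rf A),
    Γ = fun i => MvPolynomial.map χ (G i) := ⟨_, rfl⟩
  rw [← hΓ] at hc2 hc3
  have hΓh : ∀ i, (Γ i).IsHomogeneous q := by
    intro i
    rw [hΓ]
    exact (hGh i).map χ
  have hΓn : NZ Γ := by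
    rw [hΓ]
    exact hGnz K P q F G hGF hG (rf A) χ hχP
  have hgr : gA.map (mapRingHom (red A)) = g₀.map (mapRingHom χ) := by
    rw [hgA, hmm, hχ]
  have hgr0 : gA.map (mapRingHom (red A)) ≠ 0 := by
    obtain ⟨i, m, a, haP, ha⟩ := hgP
    intro h0
    rw [hgr] at h0
    have h1 := congrArg (fun p => (Polynomial.coeff p m).coeff i) h0
    simp only [Polynomial.coeff_zero] at h1
    rw [Polynomial.coeff_map, coe_mapRingHom, Polynomial.coeff_map, hχP] at h1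
    apply haP
    have h2 : (g₀.coeff m).coeff i = a := hιi (by rw [hg₀c, ha, hι'])
    rwa [h2] at h1
  obtain ⟨h', hh'⟩ := hGau _ A gA (hom2 b (f₀.map ψ) (s₀.map ψ) gA) (h.map (mapRingHom j)) hgr0 hNA
  -- the diagonal
  have hev : ∀ {R S : Type} [CommRing R] [CommRing S] (f : R →+* S) (p : R[X][X]),
      (p.eval X).map f = (p.map (mapRingHom f)).eval X := by
    intro R S _ _ f p
    rw [Polynomial.eval_map]
    have h1 := Polynomial.hom_eval₂ p (RingHom.id (R[X])) (mapRingHom f) (X : R[X])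
    rw [Polynomial.eval₂_id] at h1
    rw [← coe_mapRingHom, h1, RingHom.comp_id, coe_mapRingHom, Polynomial.map_X]
  have hgA0 : gA.eval X ≠ 0 := by
    intro h0
    apply hg0
    have h1 : (gA.eval X).map A.subtype = (g.eval X).map j := by
      rw [hev, hev, hgA, hmm, hcomp, ← hmm, hg₀]
    rw [h0, Polynomial.map_zero] at h1
    exact (Polynomial.map_eq_zero_iff hji).mp h1.symm
  have hgAr : (gA.eval X).map (red A) = 0 := by
    rw [hev, hgr, ← hev]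
    ext i
    rw [Polynomial.coeff_map, Polynomial.coeff_zero, hχP]
    obtain ⟨a, haP, ha⟩ := hgD i
    have h1 : (g₀.eval X).coeff i = a := by
      apply hιi
      rw [← Polynomial.coeff_map, hev, hg₀, ha, hι']
    rwa [h1]
  -- the forms over the residue field
  obtain ⟨Φ, hΦ⟩ : ∃ Φ : Fin (1 + 1) → MvPolynomial (Fin (1 + 1)) (rf A), Φ = itF Γ l :=
    ⟨_, rfl⟩
  have hfr : (f₀.map ψ).map (red A) = dz (Φ 0) := by
    rw [Polynomial.map_map, ← hχ, hf₀, hI7, hI2, hΦ, hΓ]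
  have hsr : (s₀.map ψ).map (red A) = dz (Φ 1) := by
    rw [Polynomial.map_map, ← hχ, hs₀, hI7, hI2, hΦ, hΓ]
  have hqχ : (q : rf A) ≠ 0 := by
    intro h0
    apply hqP
    rw [← hχP, map_natCast]
    exact h0
  have hql : ((q ^ l : ℕ) : rf A) ≠ 0 := by
    rw [Nat.cast_pow]
    exact pow_ne_zero _ hqχ
  have hΦh : ∀ i, (Φ i).IsHomogeneous (q ^ l) := by
    intro i
    rw [hΦ]
    exact hI1 (rf A) Γ q hΓh l i
  have hΦn : NZ Φ := by
    rw [hΦ]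
    exact hI5 (rf A) Γ q hΓh hΓn l
  have hql2 : 2 ≤ q ^ l := by
    calc 2 ≤ q := hq
      _ = q ^ 1 := (pow_one q).symm
      _ ≤ q ^ l := Nat.pow_le_pow_right (by omega) hl
  obtain ⟨-, hwr⟩ := hNzj (rf A) (q ^ l) Φ hΦh (by omega) hΦn hql
  have hwr' : (derivative (f₀.map ψ) * s₀.map ψ - f₀.map ψ * derivative (s₀.map ψ)).map (red A) =
      derivative (dz (Φ 0)) * dz (Φ 1) - dz (Φ 0) * derivative (dz (Φ 1)) := by
    rw [Polynomial.map_sub, Polynomial.map_mul, Polynomial.map_mul, ← Polynomial.derivative_map,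
      ← Polynomial.derivative_map, hfr, hsr]
  obtain ⟨m, C₁, C₂, hm, hC₁, hC₂, hC₁d, hC₂d, hrel⟩ := hInf _ A b (f₀.map ψ) (s₀.map ψ) gA h'
    (by
      rw [hgA]
      exact (Polynomial.natDegree_map_le).trans hg₀b)
    (fun t => by
      rw [hgA, Polynomial.coeff_map, coe_mapRingHom]
      exact (Polynomial.natDegree_map_le).trans (hg₀X t)) hgr0 hgA0 hgAr (by rw [hwr']; exact hwr)
    hh'
  rw [hfr, hsr, hwr'] at hrel
  obtain ⟨A₁, A₂, c, hA₁, hA₂, hA₁h, hA₂h, hc, hAA⟩ := hHom (rf A) (q ^ l) Φ hΦh (by omega) hql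
    (2 * b) m C₁ C₂ hC₁ hC₂ hC₁d hC₂d hrel
  obtain ⟨B, hB0, hBh, hB⟩ := hFrm (rf A) (q ^ l) Φ hΦh hql2 hΦn (2 * b) m A₁ A₂ c hA₁ hA₂ hA₁h
    hA₂h hc hAA
  -- the multiplicities
  have hmul : ∀ i, ∃ (y : Fin (1 + 1) → rf A) (μ : ℕ), y ≠ 0 ∧
      wdg ((pt Γ)^[n i] (c' i)) y = 0 ∧ m * (e i - 1) ≤ e i * μ ∧ lin y ^ μ ∣ B := by
    intro i
    obtain ⟨z, t, hz0, ht, hzd, hzw⟩ := hLdg (rf A) q Γ hΓh hq hΓn (c' i) (n i) (e i) l (hc1 i) hl
      (hc2 i)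
    obtain ⟨c₂, hc₂, hB₂⟩ := hItr (rf A) q Γ hΓh hq hΓn l m B c hl hc hBh (by rw [← hΦ]; exact hB) t
    have hpt : pt (itF Γ (l * t)) z = (pt Γ)^[l * t] z := hI3 (rf A) Γ (l * t) z
    have hNZt : NZ (itF Γ (l * t)) := hI5 (rf A) Γ q hΓh hΓn (l * t)
    obtain ⟨μ, hμ1, hμ2⟩ := hMul (rf A) (q ^ (l * t)) (itF Γ (l * t))
      (hI1 (rf A) Γ q hΓh (l * t)) (Nat.one_le_pow _ _ (by omega)) hNZt m (2 * m) B c₂ hB0 hc₂ hBh
      hB₂ z (e i) hz0 (he i) (by rw [hpt]; exact hzd)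
    rw [hpt] at hμ2
    refine ⟨_, μ, ?_, hzw, hμ1, hμ2⟩
    intro h0
    exact hz0 (hNZt z (by rw [hpt]; exact h0))
  choose y μ hy0 hyw hμ1 hμ2 using hmul
  have hyy : ∀ i j, i ≠ j → wdg (y i) (y j) ≠ 0 := fun i j hij =>
    wdg_ne (hyw i) (hyw j) (hy0 i) (hy0 j) (hc3 i j hij)
  exact weights hm he hμ1 (hSum (rf A) B (2 * m) hB0 hBh s y μ hy0 hyy hμ2) hsum

end

end Pool.Agent.N715.AD
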