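import Mathlib
import Pool.Agent.N715.AD.Stm

/-!
Project AD, third part: the full orbifold condition (least common multiples of the local degrees).
Statements of the independent parts.
-/

set_option autoImplicit false
set_option linter.unusedSectionVars false

namespace Pool.Agent.N715.AD

open NumberField Module

noncomputable section

/-- the form `A` vanishes to order exactly `μ` at the point `z` -/
def Ord {k : Type} [Field k] (A : MvPolynomial (Fin (1 + 1)) k) (z : Fin (1 + 1) → k) (μ : ℕ) :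
    Prop := lin z ^ μ ∣ A ∧ ¬ lin z ^ (μ + 1) ∣ A

/-- the local degree at the point `z` of the map defined by `Ψ` is `e` -/
def Deg {k : Type} [Field k] (Ψ : Fin (1 + 1) → MvPolynomial (Fin (1 + 1)) k)
    (z : Fin (1 + 1) → k) (e : ℕ) : Prop := Ord (MvPolynomial.bind₁ Ψ (lin (pt Ψ z))) z e

/-- (DML) local degrees are multiplicative -/
def DmlLem : Prop :=
  ∀ (k : Type) [Field k] [IsAlgClosed k] (q : ℕ)
    (Φ : Fin (1 + 1) → MvPolynomial (Fin (1 + 1)) k), (∀ i, (Φ i).IsHomogeneous q) → 2 ≤ q →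
    NZ Φ → ∀ (a b e₁ e₂ : ℕ) (z : Fin (1 + 1) → k), z ≠ 0 →
    Deg (itF Φ a) (pt (itF Φ b) z) e₁ → Deg (itF Φ b) z e₂ → Deg (itF Φ (a + b)) z (e₁ * e₂)

/-- (ML1) the orders of the invariant form at a point and at its image -/
def Ml1Lem : Prop :=
  ∀ (k : Type) [Field k] [IsAlgClosed k] (D : ℕ)
    (Ψ : Fin (1 + 1) → MvPolynomial (Fin (1 + 1)) k), (∀ i, (Ψ i).IsHomogeneous D) → 1 ≤ D →
    NZ Ψ → (D : k) ≠ 0 → ∀ (m d : ℕ) (A : MvPolynomial (Fin (1 + 1)) k) (c : k), A ≠ 0 → c ≠ 0 →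
    A.IsHomogeneous d → MvPolynomial.bind₁ Ψ A = MvPolynomial.C c * A * jac Ψ ^ m →
    ∀ (z : Fin (1 + 1) → k) (e μ μ' : ℕ), z ≠ 0 → Deg Ψ z e → (e : k) ≠ 0 → Ord A z μ →
    Ord A (pt Ψ z) μ' → m + e * μ' = μ + e * m

/-- (ML2) the local degrees of the iterates are prime to the characteristic -/
def Ml2Lem : Prop :=
  ∀ (k : Type) [Field k] [IsAlgClosed k] (q : ℕ)
    (Φ : Fin (1 + 1) → MvPolynomial (Fin (1 + 1)) k), (∀ i, (Φ i).IsHomogeneous q) → 2 ≤ q →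
    NZ Φ → (∀ j : ℕ, 1 ≤ j → j ≤ q → (j : k) ≠ 0) →
    ∀ (n e : ℕ) (z : Fin (1 + 1) → k), z ≠ 0 → Deg (itF Φ n) z e → (e : k) ≠ 0

/-- (ML3) the order of the invariant form at a point with several ramified preimages -/
def Ml3Lem : Prop :=
  ∀ (k : Type) [Field k] [IsAlgClosed k] (q : ℕ)
    (Φ : Fin (1 + 1) → MvPolynomial (Fin (1 + 1)) k), (∀ i, (Φ i).IsHomogeneous q) → 2 ≤ q →
    NZ Φ → (∀ j : ℕ, 1 ≤ j → j ≤ q → (j : k) ≠ 0) →
    ∀ (l m : ℕ) (A : MvPolynomial (Fin (1 + 1)) k) (c : k), 1 ≤ l → 1 ≤ m → A ≠ 0 → c ≠ 0 →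
    A.IsHomogeneous (2 * m) →
    MvPolynomial.bind₁ (itF Φ l) A = MvPolynomial.C c * A * jac (itF Φ l) ^ m →
    ∀ (y : Fin (1 + 1) → k) (μ : ℕ), y ≠ 0 → Ord A y μ →
    ∀ (S : Finset ℕ), (∀ e ∈ S, ∃ (z : Fin (1 + 1) → k) (n : ℕ), z ≠ 0 ∧
      Deg (itF Φ n) z e ∧ wdg (pt (itF Φ n) z) y = 0) →
    m * (S.lcm id - 1) ≤ S.lcm id * μ

/-- (CR2) reduction of exact ramification data modulo almost all primes -/
def Crt2Lem : Prop :=
  ∀ (K : Type) [Field K] [NumberField K] (q : ℕ)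
    (G : Fin (1 + 1) → MvPolynomial (Fin (1 + 1)) (𝓞 K)), (∀ i, (G i).IsHomogeneous q) → 1 ≤ q →
    ∀ (d s : ℕ) (y : Fin d → Fin (1 + 1) → AlgebraicClosure K)
      (c : Fin s → Fin (1 + 1) → AlgebraicClosure K) (n e : Fin s → ℕ) (t : Fin s → Fin d),
    (∀ i, y i ≠ 0) → (∀ i j, i ≠ j → wdg (y i) (y j) ≠ 0) →
    (∀ j, c j ≠ 0 ∧ Deg (itF (fun a => MvPolynomial.map
        ((algebraMap K (AlgebraicClosure K)).comp (algebraMap (𝓞 K) K)) (G a)) (n j)) (c j) (e j) ∧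
      wdg (pt (itF (fun a => MvPolynomial.map
        ((algebraMap K (AlgebraicClosure K)).comp (algebraMap (𝓞 K) K)) (G a)) (n j)) (c j))
        (y (t j)) = 0) →
    ∃ N : ℕ, N ≠ 0 ∧ ∀ (A : ValuationSubring (AlgebraicClosure K)) (ψ : 𝓞 K →+* A),
      (∀ a, ((ψ a : A) : AlgebraicClosure K) = algebraMap K (AlgebraicClosure K) (a : K)) →
      ((N : ℕ) : rf A) ≠ 0 →
      ∃ (y' : Fin d → Fin (1 + 1) → rf A) (c' : Fin s → Fin (1 + 1) → rf A),
        (∀ i, y' i ≠ 0) ∧ (∀ i j, i ≠ j → wdg (y' i) (y' j) ≠ 0) ∧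
        ∀ j, c' j ≠ 0 ∧
          Deg (itF (fun a => MvPolynomial.map ((red A).comp ψ) (G a)) (n j)) (c' j) (e j) ∧
          wdg (pt (itF (fun a => MvPolynomial.map ((red A).comp ψ) (G a)) (n j)) (c' j))
            (y' (t j)) = 0

end

end Pool.Agent.N715.AD
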