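import Mathlib
import Pool.Agent.N715.AD.Stm3
import Pool.Agent.N715.AD.Alg

/-!
Project AD: an invariant curve which degenerates to the diagonal modulo `P` does not exist.
-/

set_option autoImplicit false
set_option linter.unusedSectionVars false

namespace Pool.Agent.N715.AD

open NumberField Module Polynomial
open Pool.Agent.H627.LR (GR GoodK)
open Pool.Agent.R829.BG (XD E2)

noncomputable section

/-- the weights -/
lemma weights2 {s m : ℕ} (hm : 1 ≤ m) {L ν μ : Fin s → ℕ} (hν : ∀ i, 1 ≤ ν i)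
    (hL : ∀ i, ν i ≤ L i)
    (h1 : ∀ i, m * (L i - 1) ≤ L i * μ i) (h2 : ∑ i, μ i ≤ 2 * m)
    (h3 : 2 < ∑ i, (1 - 1 / (ν i : ℝ))) : False := by
  refine weights hm (e := L) (μ := μ) (fun i => (hν i).trans (hL i)) h1 h2 (h3.trans_le ?_)
  refine Finset.sum_le_sum fun i _ => ?_
  have h4 : (0 : ℝ) < ν i := by exact_mod_cast hν i
  have h5 : (ν i : ℝ) ≤ L i := by exact_mod_cast hL i
  have h6 := one_div_le_one_div_of_le h4 h5
  linarith

lemma exists_ord (hBin : BinLem) {k : Type} [Field k] {A : MvPolynomial (Fin (1 + 1)) k}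
    (hA : A ≠ 0) {y : Fin (1 + 1) → k} (hy : y ≠ 0) : ∃ μ, Ord A y μ := by
  have h1 : Prime (lin y) := hBin.2.1 k y hy
  have h2 : FiniteMultiplicity (lin y) A := FiniteMultiplicity.of_prime_left h1 hA
  exact ⟨multiplicity (lin y) A, pow_multiplicity_dvd _ _,
    h2.not_pow_dvd_of_multiplicity_lt (Nat.lt_succ_self _)⟩

variable {K : Type} [Field K] [NumberField K] {P : Ideal (𝓞 K)} [hP : P.IsMaximal]

theorem alg_false2 (hVal : ValLem) (hAcl : AclLem) (hGau : GauLem) (hInf : InfLem)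
    (hHom : HomLem) (hFrm : FrmLem) (hMl3 : Ml3Lem) (hBin : BinLem)
    (hSum : SumLem) (hNzj : NzjLem) (hItf : ItfLem) (hGnz : GnzLem)
    {F : Fin (1 + 1) → MvPolynomial (Fin (1 + 1)) K} {q : ℕ}
    (hP0 : P ≠ ⊥) (hG : GoodK P F q) (hq : 2 ≤ q)
    {G : Fin (1 + 1) → MvPolynomial (Fin (1 + 1)) (𝓞 K)}
    (hGF : ∀ i, F i = MvPolynomial.map (algebraMap (𝓞 K) K) (G i))
    (hGh : ∀ i, (G i).IsHomogeneous q) (hqP : ∀ j : ℕ, 1 ≤ j → j ≤ q → (j : 𝓞 K) ∉ P)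
    {d s : ℕ} {ν : Fin d → ℕ} {n e : Fin s → ℕ} {t : Fin s → Fin d} (hν : ∀ i, 1 ≤ ν i)
    (hL : ∀ i, ν i ≤ ((Finset.univ.filter fun j => t j = i).image e).lcm id)
    (hsum : 2 < ∑ i, (1 - 1 / (ν i : ℝ)))
    (hdat : ∀ (A : ValuationSubring (AlgebraicClosure K)) (ψ : 𝓞 K →+* A),
      (∀ a, ((ψ a : A) : AlgebraicClosure K) = algebraMap K (AlgebraicClosure K) (a : K)) →
      (∀ a, red A (ψ a) = 0 ↔ a ∈ P) →
      ∃ (y' : Fin d → Fin (1 + 1) → rf A) (c' : Fin s → Fin (1 + 1) → rf A),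
        (∀ i, y' i ≠ 0) ∧ (∀ i j, i ≠ j → wdg (y' i) (y' j) ≠ 0) ∧
        ∀ j, c' j ≠ 0 ∧
          Deg (itF (fun a => MvPolynomial.map ((red A).comp ψ) (G a)) (n j)) (c' j) (e j) ∧
          wdg (pt (itF (fun a => MvPolynomial.map ((red A).comp ψ) (G a)) (n j)) (c' j))
            (y' (t j)) = 0)
    {l b : ℕ} (hl : 1 ≤ l) {g : K[X][X]} (hgb : g.natDegree ≤ b) (hgX : XD b g)
    (hgI : ∀ i j, ∃ a : 𝓞 K, (g.coeff j).coeff i = (a : K))
    (hgP : ∃ i j, ∃ a : 𝓞 K, a ∉ P ∧ (g.coeff j).coeff i = (a : K))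
    (hg0 : g.eval X ≠ 0)
    (hgD : ∀ i, ∃ a : 𝓞 K, a ∈ P ∧ (g.eval X).coeff i = (a : K))
    (hdiv : g ∣ hom2 b (dz (itF F l 0)) (dz (itF F l 1)) g) : False := by
  obtain ⟨A, ψ, hψ1, hψ2⟩ := hVal K P hP0
  obtain ⟨hI1, hI2, hI3, -, hI5, hI6, hI7, hI8⟩ := hItf
  obtain ⟨y, c', hy0, hyy, hcc⟩ := hdat A ψ hψ1 hψ2
  have hAC : IsAlgClosed (rf A) := hAcl _ A
  obtain ⟨ι, hι⟩ : ∃ ι : 𝓞 K →+* K, ι = algebraMap (𝓞 K) K := ⟨_, rfl⟩
  have hιi : Function.Injective ι := by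
    rw [hι]
    exact RingOfIntegers.coe_injective
  have hι' : ∀ a : 𝓞 K, ι a = (a : K) := fun a => by rw [hι]
  obtain ⟨j, hj⟩ : ∃ j : K →+* AlgebraicClosure K, j = algebraMap K (AlgebraicClosure K) :=
    ⟨_, rfl⟩
  have hji : Function.Injective j := j.injective
  have hcomp : A.subtype.comp ψ = j.comp ι := by
    ext a
    rw [RingHom.comp_apply, RingHom.comp_apply, hι', hj]
    exact hψ1 a
  -- the integral model of the relation
  obtain ⟨g₀, hg₀⟩ : ∃ g₀ : (𝓞 K)[X][X], g₀.map (mapRingHom ι) = g := by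
    have h1 : g ∈ Polynomial.lifts (mapRingHom ι) := by
      rw [Polynomial.lifts_iff_coeff_lifts]
      intro m
      have h2 : g.coeff m ∈ Polynomial.lifts ι := by
        rw [Polynomial.lifts_iff_coeff_lifts]
        intro i
        obtain ⟨a, ha⟩ := hgI i m
        exact ⟨a, by rw [ha, hι']⟩
      obtain ⟨p, hp⟩ := (Polynomial.mem_lifts _).mp h2
      exact ⟨p, hp⟩
    obtain ⟨p, hp⟩ := (Polynomial.mem_lifts _).mp h1
    exact ⟨p, hp⟩
  have hmi : Function.Injective (mapRingHom ι) := Polynomial.map_injective ι hιi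
  have hg₀c : ∀ i m, ι ((g₀.coeff m).coeff i) = (g.coeff m).coeff i := by
    intro i m
    rw [← hg₀, Polynomial.coeff_map, coe_mapRingHom, Polynomial.coeff_map]
  have hg₀b : g₀.natDegree ≤ b := by
    rw [← hg₀, Polynomial.natDegree_map_eq_of_injective hmi] at hgb
    exact hgb
  have hg₀X : ∀ m, (g₀.coeff m).natDegree ≤ b := by
    intro m
    have h1 := hgX m
    rw [← hg₀, Polynomial.coeff_map, coe_mapRingHom,
      Polynomial.natDegree_map_eq_of_injective hιi] at h1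
    exact h1
  -- the data over the valuation ring
  obtain ⟨gA, hgA⟩ : ∃ gA : A[X][X], gA = g₀.map (mapRingHom ψ) := ⟨_, rfl⟩
  obtain ⟨f₀, hf₀⟩ : ∃ f₀ : (𝓞 K)[X], f₀ = dz (itF G l 0) := ⟨_, rfl⟩
  obtain ⟨s₀, hs₀⟩ : ∃ s₀ : (𝓞 K)[X], s₀ = dz (itF G l 1) := ⟨_, rfl⟩
  have hFG : (fun i => MvPolynomial.map ι (G i)) = F := by
    funext i
    rw [hGF i, hι]
  have hfK : f₀.map ι = dz (itF F l 0) := by
    rw [hf₀, hI7, hI2, hFG]
  have hsK : s₀.map ι = dz (itF F l 1) := by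
    rw [hs₀, hI7, hI2, hFG]
  obtain ⟨h, hh⟩ := hdiv
  have hmm : ∀ {R S T : Type} [CommRing R] [CommRing S] [CommRing T] (f : R →+* S) (g : S →+* T)
      (p : R[X][X]), (p.map (mapRingHom f)).map (mapRingHom g) = p.map (mapRingHom (g.comp f)) := by
    intro R S T _ _ _ f g p
    rw [Polynomial.map_map, mapRingHom_comp]
  have hNA : (hom2 b (f₀.map ψ) (s₀.map ψ) gA).map (mapRingHom A.subtype) =
      gA.map (mapRingHom A.subtype) * h.map (mapRingHom j) := by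
    have h1 : hom2 b (f₀.map ψ) (s₀.map ψ) gA = (hom2 b f₀ s₀ g₀).map (mapRingHom ψ) := by
      rw [hI8, hgA]
    have h2 : gA.map (mapRingHom A.subtype) = g.map (mapRingHom j) := by
      rw [hgA, hmm, hcomp, ← hmm, hg₀]
    rw [h1, hmm, hcomp, ← hmm, hI8, hg₀, hfK, hsK, hh, Polynomial.map_mul, h2]
  obtain ⟨χ, hχ⟩ : ∃ χ : 𝓞 K →+* rf A, χ = (red A).comp ψ := ⟨_, rfl⟩
  have hχP : ∀ a, χ a = 0 ↔ a ∈ P := fun a => by
    rw [hχ, RingHom.comp_apply]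
    exact hψ2 a
  rw [← hχ] at hcc
  obtain ⟨Γ, hΓ⟩ : ∃ Γ : Fin (1 + 1) → MvPolynomial (Fin (1 + 1)) (rf A),
    Γ = fun i => MvPolynomial.map χ (G i) := ⟨_, rfl⟩
  rw [← hΓ] at hcc
  have hΓh : ∀ i, (Γ i).IsHomogeneous q := by
    intro i
    rw [hΓ]
    exact (hGh i).map χ
  have hΓn : NZ Γ := by
    rw [hΓ]
    exact hGnz K P q F G hGF hG (rf A) χ hχP
  have hgr : gA.map (mapRingHom (red A)) = g₀.map (mapRingHom χ) := by
    rw [hgA, hmm, hχ]
  have hgr0 : gA.map (mapRingHom (red A)) ≠ 0 := by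
    obtain ⟨i, m, a, haP, ha⟩ := hgP
    intro h0
    rw [hgr] at h0
    have h1 := congrArg (fun p => (Polynomial.coeff p m).coeff i) h0
    simp only [Polynomial.coeff_zero] at h1
    rw [Polynomial.coeff_map, coe_mapRingHom, Polynomial.coeff_map, hχP] at h1
    apply haP
    have h2 : (g₀.coeff m).coeff i = a := hιi (by rw [hg₀c, ha, hι'])
    rwa [h2] at h1
  obtain ⟨h', hh'⟩ := hGau _ A gA (hom2 b (f₀.map ψ) (s₀.map ψ) gA) (h.map (mapRingHom j)) hgr0 hNA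
  -- the diagonal
  have hev : ∀ {R S : Type} [CommRing R] [CommRing S] (f : R →+* S) (p : R[X][X]),
      (p.eval X).map f = (p.map (mapRingHom f)).eval X := by
    intro R S _ _ f p
    rw [Polynomial.eval_map]
    have h1 := Polynomial.hom_eval₂ p (RingHom.id (R[X])) (mapRingHom f) (X : R[X])
    rw [Polynomial.eval₂_id] at h1
    rw [← coe_mapRingHom, h1, RingHom.comp_id, coe_mapRingHom, Polynomial.map_X]
  have hgA0 : gA.eval X ≠ 0 := by
    intro h0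
    apply hg0
    have h1 : (gA.eval X).map A.subtype = (g.eval X).map j := by
      rw [hev, hev, hgA, hmm, hcomp, ← hmm, hg₀]
    rw [h0, Polynomial.map_zero] at h1
    exact (Polynomial.map_eq_zero_iff hji).mp h1.symm
  have hgAr : (gA.eval X).map (red A) = 0 := by
    rw [hev, hgr, ← hev]
    ext i
    rw [Polynomial.coeff_map, Polynomial.coeff_zero, hχP]
    obtain ⟨a, haP, ha⟩ := hgD i
    have h1 : (g₀.eval X).coeff i = a := by
      apply hιi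
      rw [← Polynomial.coeff_map, hev, hg₀, ha, hι']
    rwa [h1]
  -- the forms over the residue field
  obtain ⟨Φ, hΦ⟩ : ∃ Φ : Fin (1 + 1) → MvPolynomial (Fin (1 + 1)) (rf A), Φ = itF Γ l :=
    ⟨_, rfl⟩
  have hfr : (f₀.map ψ).map (red A) = dz (Φ 0) := by
    rw [Polynomial.map_map, ← hχ, hf₀, hI7, hI2, hΦ, hΓ]
  have hsr : (s₀.map ψ).map (red A) = dz (Φ 1) := by
    rw [Polynomial.map_map, ← hχ, hs₀, hI7, hI2, hΦ, hΓ]
  have hjχ : ∀ j : ℕ, 1 ≤ j → j ≤ q → (j : rf A) ≠ 0 := by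
    intro j hj1 hj2 h0
    apply hqP j hj1 hj2
    rw [← hχP, map_natCast]
    exact h0
  have hqχ : (q : rf A) ≠ 0 := hjχ q (by omega) le_rfl
  have hql : ((q ^ l : ℕ) : rf A) ≠ 0 := by
    rw [Nat.cast_pow]
    exact pow_ne_zero _ hqχ
  have hΦh : ∀ i, (Φ i).IsHomogeneous (q ^ l) := by
    intro i
    rw [hΦ]
    exact hI1 (rf A) Γ q hΓh l i
  have hΦn : NZ Φ := by
    rw [hΦ]
    exact hI5 (rf A) Γ q hΓh hΓn l
  have hql2 : 2 ≤ q ^ l := by
    calc 2 ≤ q := hq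
      _ = q ^ 1 := (pow_one q).symm
      _ ≤ q ^ l := Nat.pow_le_pow_right (by omega) hl
  obtain ⟨-, hwr⟩ := hNzj (rf A) (q ^ l) Φ hΦh (by omega) hΦn hql
  have hwr' : (derivative (f₀.map ψ) * s₀.map ψ - f₀.map ψ * derivative (s₀.map ψ)).map (red A) =
      derivative (dz (Φ 0)) * dz (Φ 1) - dz (Φ 0) * derivative (dz (Φ 1)) := by
    rw [Polynomial.map_sub, Polynomial.map_mul, Polynomial.map_mul, ← Polynomial.derivative_map,
      ← Polynomial.derivative_map, hfr, hsr]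
  obtain ⟨m, C₁, C₂, hm, hC₁, hC₂, hC₁d, hC₂d, hrel⟩ := hInf _ A b (f₀.map ψ) (s₀.map ψ) gA h'
    (by
      rw [hgA]
      exact (Polynomial.natDegree_map_le).trans hg₀b)
    (fun t => by
      rw [hgA, Polynomial.coeff_map, coe_mapRingHom]
      exact (Polynomial.natDegree_map_le).trans (hg₀X t)) hgr0 hgA0 hgAr (by rw [hwr']; exact hwr)
    hh'
  rw [hfr, hsr, hwr'] at hrel
  obtain ⟨A₁, A₂, c, hA₁, hA₂, hA₁h, hA₂h, hc, hAA⟩ := hHom (rf A) (q ^ l) Φ hΦh (by omega) hql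
    (2 * b) m C₁ C₂ hC₁ hC₂ hC₁d hC₂d hrel
  obtain ⟨B, hB0, hBh, hB⟩ := hFrm (rf A) (q ^ l) Φ hΦh hql2 hΦn (2 * b) m A₁ A₂ c hA₁ hA₂ hA₁h
    hA₂h hc hAA
  -- the multiplicities
  choose μ hμ using fun i => exists_ord hBin hB0 (hy0 i)
  refine weights2 hm hν hL (μ := μ) (fun i => ?_) (hSum (rf A) B (2 * m) hB0 hBh d y μ hy0 hyy
    (fun i => (hμ i).1)) hsum
  refine hMl3 (rf A) q Γ hΓh hq hΓn hjχ l m B c hl hm hB0 hc hBh (by rw [← hΦ]; exact hB) (y i)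
    (μ i) (hy0 i) (hμ i) _ ?_
  intro e' he'
  obtain ⟨j, hj, rfl⟩ := Finset.mem_image.mp he'
  have hti : t j = i := (Finset.mem_filter.mp hj).2
  obtain ⟨h5, h6, h7⟩ := hcc j
  rw [hti] at h7
  exact ⟨c' j, n j, h5, h6, h7⟩

end

end Pool.Agent.N715.AD
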