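import Mathlib
import Pool.Agent.N715.AD.Stm
import Pool.Agent.N715.AC.Bad

/-!
Project AD, part BD2 (helper128): small values of a polynomial at the conjugates of a small point.
-/

set_option autoImplicit false
set_option linter.unusedSectionVars false

namespace Pool.Agent.N715.AD

namespace Bd2Aux

open NumberField Module
open Pool.Agent.W238.Leh
open Pool.Agent.H627.LP hiding det_ineq det_ineq' local_gain
open Pool.Agent.H627.LR (res res_spec res_eq v_neg wd wd_st exists_int transport_le transport_lt GR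
  GoodK dl dl_comm dl_self dl_tri near_of_dl dl_nonneg)
open Pool.Agent.H627.LU (Classes)
open Pool.Agent.H420R3 (mi nv TP ew mem_TP nv_pos v_lt_one_iff ew_pos sum_ew v_eq v_le_iff
  v_le_one ew_pos ramIdx_pos)
open Pool.Agent.N715.AC (PPrim)
open scoped Pointwise

noncomputable section

variable {K : Type} [Field K] [NumberField K] {M : Type} [Field M] [NumberField M] [Algebra K M]
  {v : FinitePlace M}

/-! ### Coefficients of products -/

theorem v_sum_le {ι : Type} (s : Finset ι) (f : ι → M) {B : ℝ} (hB : 0 ≤ B)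
    (h : ∀ i ∈ s, v (f i) ≤ B) : v (∑ i ∈ s, f i) ≤ B := by
  refine Finset.sum_induction _ (fun y => v y ≤ B) ?_ ?_ h
  · intro a b ha hb
    exact (FinitePlace.add_le v _ _).trans (max_le ha hb)
  · rw [map_zero]
    exact hB

theorem coeff_mul_le {g h : Polynomial M} {B C : ℝ} (hB : 0 ≤ B) (hC : 0 ≤ C)
    (hg : ∀ r, v (g.coeff r) ≤ B) (hh : ∀ r, v (h.coeff r) ≤ C) (r : ℕ) :
    v ((g * h).coeff r) ≤ B * C := by
  rw [Polynomial.coeff_mul]
  refine v_sum_le _ _ (mul_nonneg hB hC) fun i _ => ?_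
  rw [map_mul]
  exact mul_le_mul (hg _) (hh _) (v_nonneg v _) hB

theorem coeff_prod_le {ι : Type} (s : Finset ι) (g : ι → Polynomial M) (B : ι → ℝ)
    (hB : ∀ i ∈ s, 0 ≤ B i) (hg : ∀ i ∈ s, ∀ r, v ((g i).coeff r) ≤ B i) (r : ℕ) :
    v ((∏ i ∈ s, g i).coeff r) ≤ ∏ i ∈ s, B i := by
  classical
  induction s using Finset.induction_on generalizing r with
  | empty =>
    rw [Finset.prod_empty, Finset.prod_empty, Polynomial.coeff_one]
    split_ifs
    · rw [map_one]
    · rw [map_zero]
      exact zero_le_one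
  | insert a s ha ih =>
    rw [Finset.prod_insert ha, Finset.prod_insert ha]
    refine coeff_mul_le (hB a (Finset.mem_insert_self _ _)) (Finset.prod_nonneg fun i hi =>
      hB i (Finset.mem_insert_of_mem hi)) (hg a (Finset.mem_insert_self _ _)) (fun r => ?_) r
    exact ih (fun i hi => hB i (Finset.mem_insert_of_mem hi))
      (fun i hi => hg i (Finset.mem_insert_of_mem hi)) r

theorem nmf_pair (x : M) : nmf v ![x, 1] = max 1 (v x) := by
  apply le_antisymm
  · apply nmf_le
    intro i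
    fin_cases i
    · exact le_max_right _ _
    · change v (1 : M) ≤ _
      rw [map_one]
      exact le_max_left _ _
  · apply max_le
    · have := le_nmf v ![x, 1] 1
      change v (1 : M) ≤ _ at this
      rwa [map_one] at this
    · exact le_nmf v ![x, 1] 0

theorem pair_ne (x : M) : (![x, 1] : Fin (1 + 1) → M) ≠ 0 := by
  intro h0
  have := congrFun h0 1
  simp at this

theorem dl_pair (x y : M) :
    dl v ![x, 1] ![y, 1] = v (x - y) / (max 1 (v x) * max 1 (v y)) := by
  unfold dl
  rw [nmf_pair, nmf_pair]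
  have : wd ![x, 1] ![y, 1] = x - y := by simp [wd]
  rw [this]

/-- the coefficients of the factors of the Lagrange basis -/
theorem divisor_le {x y : M} {η : ℝ} (hη : 0 < η) (h : η < dl v ![x, 1] ![y, 1]) (r : ℕ) :
    v ((Lagrange.basisDivisor x y).coeff r) ≤ 1 / (η * max 1 (v x)) := by
  rw [dl_pair] at h
  have hmx : 0 < max 1 (v x) := lt_of_lt_of_le one_pos (le_max_left _ _)
  have hmy : 0 < max 1 (v y) := lt_of_lt_of_le one_pos (le_max_left _ _)
  rw [lt_div_iff₀ (by positivity)] at h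
  have hxy : 0 < v (x - y) := lt_of_le_of_lt (by positivity) h
  have h1 : ∀ r, v ((Polynomial.X - Polynomial.C y).coeff r) ≤ max 1 (v y) := by
    intro r
    rw [Polynomial.coeff_sub, Polynomial.coeff_X, Polynomial.coeff_C]
    refine (v_sub_le v _ _).trans (max_le ?_ ?_)
    · split_ifs
      · rw [map_one]; exact le_max_left _ _
      · rw [map_zero]; exact hmy.le
    · split_ifs
      · exact le_max_right _ _
      · rw [map_zero]; exact hmy.le
  unfold Lagrange.basisDivisor
  rw [Polynomial.coeff_C_mul, map_mul, map_inv₀, inv_mul_eq_div, div_le_div_iff₀ hxy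
    (by positivity)]
  have h2 := h1 r
  calc v ((Polynomial.X - Polynomial.C y).coeff r) * (η * max 1 (v x))
      ≤ max 1 (v y) * (η * max 1 (v x)) := by gcongr
    _ = η * (max 1 (v x) * max 1 (v y)) := by ring
    _ ≤ 1 * v (x - y) := by linarith

/-- there are few separated points at which `f` is small -/
theorem few {P : Ideal (𝓞 K)} [P.IsMaximal] (hP0 : P ≠ ⊥) (hv : v ∈ TP M P)
    {f : Polynomial K} (hf : PPrim P f) {n t : ℕ} (hn : f.natDegree ≤ n) (ht : n + 1 ≤ t)
    {G : ℝ} (hG : 0 < G) (s : Finset M) (hs : s.card = n + 1)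
    (hsm : ∀ x ∈ s, v (Polynomial.aeval x f) ≤ Real.exp (-G) * max 1 (v x) ^ n)
    (hsep : ∀ x ∈ s, ∀ y ∈ s, x ≠ y → Real.exp (-(G / t)) < dl v ![x, 1] ![y, 1]) : False := by
  classical
  have hlo := H420R3.liesOver_of_mem hP0 hv
  obtain ⟨n₀, a₀, ha₀, hn₀⟩ := hf.2
  have hva : v (algebraMap K M (a₀ : K)) = 1 := by
    have h1 : algebraMap K M (a₀ : K) = ((algebraMap (𝓞 K) (𝓞 M) a₀ : 𝓞 M) : M) := rfl
    rw [h1]
    apply H420R3.v_eq_one_of_notMem v
    intro h2
    apply ha₀
    rw [hlo.over]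
    exact h2
  set F : Polynomial M := f.map (algebraMap K M) with hF
  have hFc : v (F.coeff n₀) = 1 := by rw [hF, Polynomial.coeff_map, hn₀, hva]
  have hdeg : F.degree < (s.card : WithBot ℕ) := by
    rw [hs]
    have h1 : F.natDegree ≤ n := Polynomial.natDegree_map_le.trans hn
    exact lt_of_le_of_lt Polynomial.degree_le_natDegree (by exact_mod_cast Nat.lt_succ_of_le h1)
  have hint := Lagrange.eq_interpolate (s := s) (v := id) (f := F) (fun a _ b _ h => h) hdeg
  set η : ℝ := Real.exp (-(G / t)) with hη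
  have hη0 : 0 < η := Real.exp_pos _
  have hbound : v (F.coeff n₀) ≤ Real.exp (-G) / η ^ n := by
    rw [hint, Lagrange.interpolate_apply, Polynomial.finsetSum_coeff]
    refine v_sum_le _ _ (by positivity) fun x hx => ?_
    rw [Polynomial.coeff_C_mul, map_mul]
    have hmx : 0 < max 1 (v x) := lt_of_lt_of_le one_pos (le_max_left _ _)
    have h1 : v (F.eval (id x)) ≤ Real.exp (-G) * max 1 (v x) ^ n := by
      have h2 : F.eval (id x) = Polynomial.aeval x f := by
        rw [hF, id, Polynomial.eval_map_algebraMap]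
      rw [h2]
      exact hsm x hx
    have h2 : v ((Lagrange.basis s id x).coeff n₀) ≤ (1 / (η * max 1 (v x))) ^ n := by
      unfold Lagrange.basis
      have h3 := coeff_prod_le (v := v) (s.erase x) (fun y => Lagrange.basisDivisor x y)
        (fun _ => 1 / (η * max 1 (v x))) (fun _ _ => by positivity) (fun y hy r =>
          divisor_le hη0 (hsep x hx y (Finset.mem_of_mem_erase hy)
            (Finset.ne_of_mem_erase hy).symm) r) n₀
      rw [Finset.prod_const, Finset.card_erase_of_mem hx, hs] at h3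
      exact h3
    calc v (F.eval (id x)) * v ((Lagrange.basis s id x).coeff n₀)
        ≤ (Real.exp (-G) * max 1 (v x) ^ n) * (1 / (η * max 1 (v x))) ^ n :=
          mul_le_mul h1 h2 (v_nonneg v _) (by positivity)
      _ = Real.exp (-G) / η ^ n := by
          rw [div_pow, mul_pow, one_pow]
          field_simp
  rw [hFc] at hbound
  have h3 : Real.exp (-G) / η ^ n < 1 := by
    rw [div_lt_one (by positivity), hη, ← Real.exp_nat_mul, Real.exp_lt_exp]
    have h4 : (0 : ℝ) < t := by
      have : 0 < t := by omega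
      exact_mod_cast this
    have h5 : (n : ℝ) < t := by exact_mod_cast ht
    have h6 : (n : ℝ) * (G / t) < G := by
      rw [← mul_div_assoc, div_lt_iff₀ h4]
      nlinarith
    linarith
  linarith

/-- a maximal separated subset -/
theorem exists_net {ι : Type} [Fintype ι] [DecidableEq ι] (R : ι → ι → Prop)
    (hrefl : ∀ i, R i i) (hsymm : ∀ i j, R i j → R j i) (U : Finset ι) :
    ∃ S ⊆ U, (∀ i ∈ S, ∀ j ∈ S, i ≠ j → ¬ R i j) ∧ ∀ i ∈ U, ∃ j ∈ S, R i j := by
  classical
  obtain ⟨S, hS, hmax⟩ := Finset.exists_max_image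
    (U.powerset.filter fun S => ∀ i ∈ S, ∀ j ∈ S, i ≠ j → ¬ R i j) Finset.card
    ⟨∅, by simp⟩
  rw [Finset.mem_filter, Finset.mem_powerset] at hS
  refine ⟨S, hS.1, hS.2, fun i hi => ?_⟩
  by_contra hcon
  push Not at hcon
  have hiS : i ∉ S := fun h => hcon i h (hrefl i)
  have h1 := hmax (insert i S) (by
    rw [Finset.mem_filter, Finset.mem_powerset]
    refine ⟨Finset.insert_subset hi hS.1, ?_⟩
    intro a ha b hb hab
    rcases Finset.mem_insert.1 ha with rfl | ha'
    · rcases Finset.mem_insert.1 hb with rfl | hb'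
      · exact absurd rfl hab
      · exact hcon b hb'
    · rcases Finset.mem_insert.1 hb with rfl | hb'
      · exact fun h => hcon a ha' (hsymm _ _ h)
      · exact hS.2 a ha' b hb' hab)
  rw [Finset.card_insert_of_notMem hiS] at h1
  omega

/-- **few clusters** of points at which `f` is small -/
theorem classes_small {P : Ideal (𝓞 K)} [P.IsMaximal] (hP0 : P ≠ ⊥) (hv : v ∈ TP M P)
    {f : Polynomial K} (hf : PPrim P f) {n t : ℕ} (hn : f.natDegree ≤ n) (ht : n + 1 ≤ t)
    {G : ℝ} (hG : 0 < G) {ι : Type} [Fintype ι] [DecidableEq ι] (x : ι → M)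
    (Bad : Finset ι)
    (hBad : ∀ i, i ∉ Bad → v (Polynomial.aeval (x i) f) ≤ Real.exp (-G) * max 1 (v (x i)) ^ n) :
    Classes v (fun i => ![x i, 1]) Bad t (G / t) := by
  classical
  set R : ι → ι → Prop := fun i j => dl v ![x i, 1] ![x j, 1] ≤ Real.exp (-(G / t)) with hR
  obtain ⟨S, hSU, hsep, hnet⟩ := exists_net R (fun i => by
      simp only [hR]
      rw [dl_self]
      exact (Real.exp_pos _).le) (fun i j h => by
      simp only [hR] at h ⊢
      rw [dl_comm]
      exact h) (Finset.univ \ Bad)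
  choose! κ hκS hκR using hnet
  refine ⟨ι, κ, S, ?_, ?_, ?_⟩
  · by_contra hcon
    push Not at hcon
    obtain ⟨S', hS'S, hS'card⟩ := Finset.exists_subset_card_eq (s := S) (n := n + 1) (by omega)
    have hxinj : Set.InjOn x S' := by
      intro i hi j hj hij
      by_contra hne
      apply hsep i (hS'S hi) j (hS'S hj) hne
      simp only [hR]
      rw [hij, dl_self]
      exact (Real.exp_pos _).le
    refine few hP0 hv hf hn ht hG (S'.image x) (by rw [Finset.card_image_of_injOn hxinj, hS'card])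
      ?_ ?_
    · intro y hy
      obtain ⟨i, hi, rfl⟩ := Finset.mem_image.1 hy
      exact hBad i (Finset.mem_sdiff.1 (hSU (hS'S hi))).2
    · intro y hy z hz hyz
      obtain ⟨i, hi, rfl⟩ := Finset.mem_image.1 hy
      obtain ⟨j, hj, rfl⟩ := Finset.mem_image.1 hz
      have h1 := hsep i (hS'S hi) j (hS'S hj) (fun h => hyz (by rw [h]))
      exact not_le.1 h1
  · intro i hi
    exact hκS i (Finset.mem_sdiff.2 ⟨Finset.mem_univ _, hi⟩)
  · intro i i' hi hi' hii
    apply near_of_dl (pair_ne _) (pair_ne _)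
    have h1 := hκR i (Finset.mem_sdiff.2 ⟨Finset.mem_univ _, hi⟩)
    have h2 := hκR i' (Finset.mem_sdiff.2 ⟨Finset.mem_univ _, hi'⟩)
    rw [← hii] at h2
    simp only [hR] at h1 h2
    refine (dl_tri (pair_ne (x i)) (pair_ne (x (κ i))) (pair_ne (x i'))).trans (max_le h1 ?_)
    rw [dl_comm]
    exact h2

/-! ### Transport -/

theorem transport_int_le {v w : FinitePlace M} {σ : Gal(M/K)} (h : mi v = σ • mi w)
    (hnv : nv v = nv w) (a : 𝓞 M) : v (σ (a : M)) ≤ w (a : M) := by
  have h0 : σ (a : M) = ((σ • a : 𝓞 M) : M) := rfl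
  rw [h0]
  rcases eq_or_ne a 0 with rfl | ha
  · simp
  · rw [v_eq w ha, ← hnv, v_le_iff, h, ← smul_pow', Ideal.smul_mem_pointwise_smul_iff, ← v_le_iff,
      ← v_eq w ha]

theorem transport_eq {v w : FinitePlace M} {σ : Gal(M/K)} (h : mi v = σ • mi w)
    (hnv : nv v = nv w) (y : M) : v (σ y) = w y := by
  have hint : ∀ a : 𝓞 M, v (σ (a : M)) = w (a : M) := by
    intro a
    apply le_antisymm (transport_int_le h hnv a)
    have h' : mi w = σ⁻¹ • mi v := by rw [h, inv_smul_smul]
    have h1 := transport_int_le h' hnv.symm (σ • a)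
    have h2 : σ⁻¹ (((σ • a : 𝓞 M)) : M) = (a : M) := by
      have h0 : ((σ • a : 𝓞 M) : M) = σ (a : M) := rfl
      rw [h0, ← AlgEquiv.mul_apply, inv_mul_cancel]
      rfl
    rw [h2] at h1
    exact h1
  obtain ⟨a, b, hb, rfl⟩ := IsFractionRing.div_surjective (A := 𝓞 M) y
  rw [map_div₀, map_div₀, map_div₀]
  have h1 : v (σ (algebraMap (𝓞 M) M a)) = w (algebraMap (𝓞 M) M a) := hint a
  have h2 : v (σ (algebraMap (𝓞 M) M b)) = w (algebraMap (𝓞 M) M b) := hint b
  rw [h1, h2]

/-- transport of sums over the places above `P` -/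
theorem sum_transport [IsGalois K M] {P : Ideal (𝓞 K)} [P.IsMaximal] (hP0 : P ≠ ⊥)
    (σ : Gal(M/K)) (Φ : ℝ → (M → ℝ) → ℝ) :
    ∑ v ∈ TP M P, Φ (ew K v) (fun y => v y) = ∑ v ∈ TP M P, Φ (ew K v) (fun y => v (σ y)) := by
  classical
  have hex : ∀ w, w ∈ TP M P → ∃ v ∈ TP M P, mi v = σ • mi w := fun w hw =>
    exists_place_smul hP0 hw σ
  obtain ⟨v₀, _⟩ := H420R3.TP_nonempty (M := M) (P := P) hP0
  have hnon : Nonempty (FinitePlace M) := ⟨v₀⟩
  choose! φ hφT hφ using hex
  have hinj : ∀ a ∈ TP M P, ∀ b ∈ TP M P, φ a = φ b → a = b := by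
    intro a ha b hb hab
    have h1 := hφ a ha
    rw [hab, hφ b hb] at h1
    have h2 : mi b = mi a := smul_left_cancel σ h1
    apply FinitePlace.maximalIdeal_injective
    exact (IsDedekindDomain.HeightOneSpectrum.ext h2).symm
  have hram : ∀ v ∈ TP M P, ∀ w ∈ TP M P,
      (mi v).ramificationIdx (𝓞 K) = (mi w).ramificationIdx (𝓞 K) := by
    intro v hv w hw
    have hlov := H420R3.liesOver_of_mem hP0 hv
    have hlow := H420R3.liesOver_of_mem hP0 hw
    rw [← Ideal.ramificationIdxIn_eq_ramificationIdx P (mi v) Gal(M/K),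
      ← Ideal.ramificationIdxIn_eq_ramificationIdx P (mi w) Gal(M/K)]
  have hewc : ∀ v ∈ TP M P, ∀ w ∈ TP M P, ew K v = ew K w := by
    intro v hv w hw
    have hlov := H420R3.liesOver_of_mem hP0 hv
    have hlow := H420R3.liesOver_of_mem hP0 hw
    rw [ew_eq hP0 hv, ew_eq hP0 hw, hram v hv w hw,
      ← Ideal.inertiaDegIn_eq_inertiaDeg P (mi v) Gal(M/K),
      ← Ideal.inertiaDegIn_eq_inertiaDeg P (mi w) Gal(M/K)]
  have hnvc : ∀ v ∈ TP M P, ∀ w ∈ TP M P, nv v = nv w := by
    intro v hv w hw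
    have h1 := hewc v hv w hw
    unfold ew at h1
    rw [hram v hv w hw] at h1
    have h2 : ((mi w).ramificationIdx (𝓞 K) : ℝ) ≠ 0 := by
      have := ramIdx_pos (K := K) w
      positivity
    have h3 := mul_left_cancel₀ h2 h1
    exact Real.log_injOn_pos (nv_pos v) (nv_pos w) h3
  have himg : (TP M P).image φ = TP M P := by
    apply Finset.eq_of_subset_of_card_le
    · intro w hw
      obtain ⟨v, hv, rfl⟩ := Finset.mem_image.mp hw
      exact hφT v hv
    · rw [Finset.card_image_of_injOn]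
      intro a ha b hb hab
      exact hinj a ha b hb hab
  conv_rhs => rw [← himg]
  rw [Finset.sum_image fun a ha b hb h => hinj a ha b hb h]
  refine Finset.sum_congr rfl fun v hv => ?_
  have h1 : (fun y => φ v (σ y)) = fun y => v y := by
    funext y
    exact transport_eq (hφ v hv) (hnvc _ (hφT v hv) _ hv) y
  rw [h1, hewc _ (hφT v hv) _ hv]

end

end Bd2Aux

open NumberField Module Polynomial
open Pool.Agent.W238.Leh (act canH Bds hC)
open Pool.Agent.H627.LR (GR GoodK)
open Pool.Agent.H420R3 (mi nv TP ew)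
open Pool.Agent.N715.AC (PPrim CF)

noncomputable section

/-- (BAD) a polynomial which is not zero modulo `P` is rarely very small at the conjugates of a
small point of large degree -/
theorem bad2Lem : Bad2Lem := by
  classical
  intro K _ _ L _ _ _ _ F q c a A hB hq hF hc P _ hP0 hG x γ ω hγ hω0 u t s R n hu hR hnt hω f hf
    hfn hRdeg hsmall
  have hfd : FiniteDimensional K L := Module.Finite.of_restrictScalars_finite ℚ K L
  by_contra hcon
  push Not at hcon
  obtain ⟨ι, hι⟩ : ∃ ι : Finset L, ι = Finset.univ.image (fun σ : Gal(L/K) => σ x) := ⟨_, rfl⟩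
  have hcard : Fintype.card ι = (minpoly K x).natDegree := by
    rw [Fintype.card_coe, hι]
    exact AB.last_card x
  have hmem : ∀ i : ι, ∃ σ : Gal(L/K), σ x = i := by
    rintro ⟨i, h1⟩
    have h2 : i ∈ Finset.univ.image (fun σ : Gal(L/K) => σ x) := hι ▸ h1
    obtain ⟨σ, _, h3⟩ := Finset.mem_image.1 h2
    exact ⟨σ, h3⟩
  have hx1 : (![x, 1] : Fin (1 + 1) → L) ≠ 0 := Bd2Aux.pair_ne x
  have hu0 : (0 : ℝ) < u := by exact_mod_cast hu
  have ht : 1 ≤ t := by omega
  have ht0 : (0 : ℝ) < t := by exact_mod_cast ht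
  -- the points
  have hp : ∀ i : ι, (![(i : L), 1] : Fin (1 + 1) → L) ≠ 0 := fun i => Bd2Aux.pair_ne _
  have hp1 : ∀ i : ι, (![(i : L), 1] : Fin (1 + 1) → L) 1 = 1 := fun i => rfl
  have hinj' : Function.Injective (fun i : ι => (![(i : L), 1] : Fin (1 + 1) → L)) := by
    intro i j hij
    exact Subtype.ext (congrFun hij 0)
  have hH : ∀ i : ι, canH F q ![(i : L), 1] ≤ canH F q ![x, 1] := by
    intro i
    obtain ⟨σ, hσ⟩ := hmem i
    have h1 := Pool.Agent.R829.DL.canH_hom (σ : L →ₐ[K] L) F q (![x, 1] : Fin (1 + 1) → L)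
    have h2 : (fun j => (σ : L →ₐ[K] L) ((![x, 1] : Fin (1 + 1) → L) j)) = ![(i : L), 1] := by
      funext j
      fin_cases j
      · exact hσ
      · exact map_one σ
    rw [h2] at h1
    exact h1.le
  -- the good points
  set Bad : FinitePlace L → Finset ι := fun v =>
    Finset.univ.filter fun i =>
      Real.exp (-(γ * ew K v)) * max 1 (v (i : L)) ^ n < v (aeval (i : L) f) with hBaddef
  have hcl : ∀ v ∈ TP L P, H627.LU.Classes v (fun i : ι => ![(i : L), 1]) (Bad v) t
      (γ * ew K v / t) := by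
    intro v hv
    refine Bd2Aux.classes_small hP0 hv hf hfn hnt (mul_pos hγ (H420R3.ew_pos v))
      (fun i : ι => (i : L)) (Bad v) ?_
    intro i hi
    by_contra h1
    push Not at h1
    exact hi (Finset.mem_filter.mpr ⟨Finset.mem_univ _, h1⟩)
  -- the sum
  set w₀ : ℝ := ∑ v ∈ TP L P, (if Real.exp (-(γ * ew K v)) * max 1 (v x) ^ n < v (aeval x f)
    then 0 else γ * ew K v / t) with hw₀
  have hw : ∀ i : ι, w₀ ≤ ∑ v ∈ TP L P, if i ∉ Bad v then γ * ew K v / t else 0 := by
    intro i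
    obtain ⟨σ, hσ⟩ := hmem i
    have h1 := Bd2Aux.sum_transport hP0 σ (fun e w => if Real.exp (-(γ * e)) * max 1 (w x) ^ n <
      w (aeval x f) then 0 else γ * e / t)
    rw [hw₀]
    refine le_of_eq ?_
    refine h1.trans ?_
    refine Finset.sum_congr rfl fun v _ => ?_
    have h4 : σ (aeval x f) = aeval (σ x) f :=
      (Polynomial.aeval_algHom_apply (σ : L →ₐ[K] L) x f).symm
    beta_reduce
    rw [h4, hσ]
    have h2 : i ∈ Bad v ↔
        Real.exp (-(γ * ew K v)) * max 1 (v (i : L)) ^ n < v (aeval (i : L) f) := by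
      rw [hBaddef, Finset.mem_filter]
      simp
    by_cases h3 : Real.exp (-(γ * ew K v)) * max 1 (v (i : L)) ^ n < v (aeval (i : L) f)
    · rw [if_pos h3, if_neg (not_not.mpr (h2.mpr h3))]
    · rw [if_neg h3, if_pos (fun h => h3 (h2.mp h))]
  have hR1 : 1 ≤ R := by
    rw [hR]
    have : 0 < 2 * u * t * (s + 1) := by positivity
    omega
  have hfr : finrank L (Pool.Agent.W238.Leh.EL K
      (fun i : ι => (![(i : L), 1] : Fin (1 + 1) → L)) (R - 1)) = R := by
    apply le_antisymm
    · have := Pool.Agent.W238.Leh.finrank_EL_le (K := K) hp1 (R - 1)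
      rw [pow_one] at this
      omega
    · have := Pool.Agent.W238.Leh.le_finrank_EL (K := K) hp1 hinj' (R - 1)
      rw [hcard] at this
      omega
  have hfs : finrank L (Pool.Agent.W238.Leh.EL K
      (fun i : ι => (![(i : L), 1] : Fin (1 + 1) → L)) (1 * s)) ≤ s + 1 := by
    have := Pool.Agent.W238.Leh.finrank_EL_le (K := K) hp1 (1 * s)
    rw [pow_one, one_mul] at this
    rw [one_mul]
    exact this
  have hmain := Pool.Agent.H627.LU.hilb_ineq hB hq hF hc hp (TP L P)
    (fun v hv => hG.gr hP0 (by omega) hv) (fun v => γ * ew K v / t)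
    (fun v _ => div_pos (mul_pos hγ (H420R3.ew_pos v)) ht0) Bad hcl hw hH (R - 1) s
    (by rw [hfr]; exact hR1)
  rw [hfr] at hmain
  obtain ⟨W, hW⟩ : ∃ W, W = ∑ v ∈ TP L P, γ * ew K v / (t : ℝ) := ⟨_, rfl⟩
  rw [← hW] at hmain
  have hWe : W = γ / t * ∑ v ∈ TP L P, ew K v := by
    rw [hW, Finset.mul_sum]
    exact Finset.sum_congr rfl fun v _ => by ring
  have hw₀e : w₀ = γ / t * ∑ v ∈ TP L P, (if Real.exp (-(γ * ew K v)) * max 1 (v x) ^ n <
      v (aeval x f) then 0 else ew K v) := by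
    rw [hw₀, Finset.mul_sum]
    refine Finset.sum_congr rfl fun v _ => ?_
    split_ifs
    · simp
    · ring
  have hγt : 0 < γ / t := div_pos hγ ht0
  have hWlt : W < u * w₀ := by
    rw [hWe, hw₀e]
    have h1 := mul_lt_mul_of_pos_left hcon hγt
    calc γ / t * ∑ v ∈ TP L P, ew K v < _ := h1
      _ = _ := by ring
  have hD : (0 : ℝ) < finrank ℚ L := by exact_mod_cast Module.finrank_pos
  have hWω : (finrank ℚ L : ℝ) * ω ≤ W := by
    rw [hWe, H420R3.sum_ew hP0, ← Module.finrank_mul_finrank ℚ K L]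
    push_cast
    rw [div_mul_eq_mul_div, le_div_iff₀ ht0]
    have h2 := mul_le_mul_of_nonneg_left hω (Nat.cast_nonneg (α := ℝ) (finrank K L))
    nlinarith
  have hW0 : 0 < W := lt_of_lt_of_le (mul_pos hD hω0) hWω
  have hR0 : (0 : ℝ) < R := by exact_mod_cast hR1
  have hs0 : (0 : ℝ) ≤ s := Nat.cast_nonneg _
  have hfs' : ((finrank L (Pool.Agent.W238.Leh.EL K
      (fun i : ι => (![(i : L), 1] : Fin (1 + 1) → L)) (1 * s)) : ℕ) : ℝ) ≤
      s + 1 := by exact_mod_cast hfs
  have hRr : (R : ℝ) = 2 * u * t * (s + 1) := by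
    rw [hR]
    push_cast
    ring
  -- the main inequality
  have h5 : (finrank ℚ L : ℝ) * (R * (s * ω / (2 * u))) ≤ s * (R * w₀ - W * (t * (finrank L
      (Pool.Agent.W238.Leh.EL K (fun i : ι => (![(i : L), 1] : Fin (1 + 1) → L)) (1 * s)) : ℕ))) := by
    have h6 : (t : ℝ) * (finrank L (Pool.Agent.W238.Leh.EL K (fun i : ι =>
      (![(i : L), 1] : Fin (1 + 1) → L)) (1 * s)) : ℕ) ≤ R / (2 * u) := by
      rw [le_div_iff₀ (by positivity), hRr]
      have := mul_le_mul_of_nonneg_left hfs' ht0.le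
      nlinarith
    have h7 := mul_le_mul_of_nonneg_left h6 hW0.le
    have h8 : R * (W / u) ≤ R * w₀ := by
      apply mul_le_mul_of_nonneg_left _ hR0.le
      rw [div_le_iff₀ hu0]
      linarith
    have h9 : R * (W / u) - W * (R / (2 * u)) = W * R / (2 * u) := by
      field_simp
      ring
    have h10 : (finrank ℚ L : ℝ) * ω * R / (2 * u) ≤ W * R / (2 * u) := by
      gcongr
    have h11 : (finrank ℚ L : ℝ) * (R * (s * ω / (2 * u))) =
        s * ((finrank ℚ L : ℝ) * ω * R / (2 * u)) := by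
      field_simp
    rw [h11]
    apply mul_le_mul_of_nonneg_left _ hs0
    linarith
  have h7 := h5.trans hmain
  have h8 := le_of_mul_le_mul_left h7 hD
  have h9 := le_of_mul_le_mul_left h8 hR0
  have h10 : (Nat.log 2 (R - 1) : ℝ) ≤ Nat.log 2 R := by
    exact_mod_cast Nat.log_mono_right (by omega)
  have hE : 0 ≤ hC A a * ((c + q : ℕ) : ℝ) := mul_nonneg hB.hC_nonneg (Nat.cast_nonneg _)
  have h11 : hC A a * (((c + q : ℕ) : ℝ) * ((1 + Nat.log 2 (R - 1) : ℕ) : ℝ)) ≤
      hC A a * (c + q : ℕ) * (1 + Nat.log 2 R : ℕ) := by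
    rw [← mul_assoc]
    apply mul_le_mul_of_nonneg_left _ hE
    push_cast
    linarith
  have hH0 := hB.canH_nonneg hq hx1
  have h12 : ((R - 1 : ℕ) : ℝ) * canH F q ![x, 1] ≤ R * canH F q ![x, 1] := by
    apply mul_le_mul_of_nonneg_right _ hH0
    exact_mod_cast Nat.sub_le _ _
  linarith

end

end Pool.Agent.N715.AD
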