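import Pool.Agent.N715.AD.Stm

/-!
Project AD: elementary facts on binary forms.
-/

set_option autoImplicit false

namespace Pool.Agent.N715.AD

namespace Bin

open MvPolynomial

/-- a form at a scalar multiple of a point -/
theorem aeval_smul {k : Type} [Field k] {A : Type} [CommRing A] [Algebra k A]
    (p : MvPolynomial (Fin (1 + 1)) k) (d : ℕ) (hp : p.IsHomogeneous d) (c : A)
    (v : Fin (1 + 1) → A) : aeval (fun i => c * v i) p = c ^ d * aeval v p := by
  rw [aeval_def, aeval_def, eval₂_eq', eval₂_eq', Finset.mul_sum]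
  refine Finset.sum_congr rfl fun s hs => ?_
  have hdeg : ∑ i, s i = d := by
    have h := hp (mem_support_iff.mp hs)
    have h2 : Finsupp.degree s = d := by
      rw [← h, Finsupp.degree_eq_weight_one]; rfl
    rw [← h2, Finsupp.degree_eq_sum]
  simp only [mul_pow]
  rw [Finset.prod_mul_distrib, Finset.prod_pow_eq_pow_sum, hdeg]
  ring

theorem eval_smul {k : Type} [Field k] (p : MvPolynomial (Fin (1 + 1)) k) (d : ℕ)
    (hp : p.IsHomogeneous d) (c : k) (v : Fin (1 + 1) → k) :
    eval (c • v) p = c ^ d * eval v p := by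
  have := aeval_smul p d hp c v
  rw [← coe_aeval_eq_eval, ← coe_aeval_eq_eval]
  exact this

/-- the value at a point of the base field -/
theorem aeval_alg {k : Type} [Field k] {A : Type} [CommRing A] [Algebra k A]
    (p : MvPolynomial (Fin (1 + 1)) k) (y : Fin (1 + 1) → k) :
    aeval (fun i => algebraMap k A (y i)) p = algebraMap k A (eval y p) := by
  rw [← coe_aeval_eq_eval]
  exact aeval_algebraMap_apply A y p

theorem b1 {k : Type} [Field k] (y : Fin (1 + 1) → k) (p : MvPolynomial (Fin (1 + 1)) k) (d : ℕ)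
    (hy : y ≠ 0) (hp : p.IsHomogeneous d) (h0 : eval y p = 0) : lin y ∣ p := by
  rw [← Ideal.mem_span_singleton, ← Ideal.Quotient.eq_zero_iff_mem]
  obtain ⟨j, hj⟩ : ∃ j, y j ≠ 0 := by
    by_contra hcon
    push Not at hcon
    exact hy (funext hcon)
  set I : Ideal (MvPolynomial (Fin (1 + 1)) k) := Ideal.span {lin y} with hI
  have hrel : (algebraMap k (MvPolynomial (Fin (1 + 1)) k ⧸ I) (y 1)) *
      Ideal.Quotient.mk I (X 0) = (algebraMap k (MvPolynomial (Fin (1 + 1)) k ⧸ I) (y 0)) *
      Ideal.Quotient.mk I (X 1) := by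
    have h1 : Ideal.Quotient.mk I (lin y) = 0 :=
      Ideal.Quotient.eq_zero_iff_mem.2 (Ideal.mem_span_singleton_self _)
    rw [lin, map_sub, map_mul, map_mul, sub_eq_zero] at h1
    exact h1
  have key : ∀ i, (algebraMap k (MvPolynomial (Fin (1 + 1)) k ⧸ I) (y j)) *
      Ideal.Quotient.mk I (X i) = Ideal.Quotient.mk I (X j) *
      (algebraMap k (MvPolynomial (Fin (1 + 1)) k ⧸ I) (y i)) := by
    intro i
    fin_cases j <;> fin_cases i
    · exact mul_comm _ _
    · refine hrel.symm.trans (mul_comm _ _)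
    · refine hrel.trans (mul_comm _ _)
    · exact mul_comm _ _
  have h1 : aeval (fun i => (algebraMap k (MvPolynomial (Fin (1 + 1)) k ⧸ I) (y j)) *
      Ideal.Quotient.mk I (X i)) p = (algebraMap k _ (y j)) ^ d *
      aeval (fun i => Ideal.Quotient.mk I (X i)) p := aeval_smul p d hp _ _
  have h2 : aeval (fun i => Ideal.Quotient.mk I (X j) *
      (algebraMap k (MvPolynomial (Fin (1 + 1)) k ⧸ I) (y i))) p =
      (Ideal.Quotient.mk I (X j)) ^ d *
      aeval (fun i => algebraMap k (MvPolynomial (Fin (1 + 1)) k ⧸ I) (y i)) p :=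
    aeval_smul p d hp _ _
  rw [aeval_alg, h0, map_zero, mul_zero] at h2
  rw [funext key, h2] at h1
  have h3 : aeval (fun i => Ideal.Quotient.mk I (X i)) p = Ideal.Quotient.mk I p := by
    have : (aeval fun i => Ideal.Quotient.mk I (X i)) = Ideal.Quotient.mkₐ k I := by
      apply algHom_ext
      intro i
      rw [aeval_X]
      rfl
    rw [this]
    rfl
  rw [h3] at h1
  have hu : IsUnit ((algebraMap k (MvPolynomial (Fin (1 + 1)) k ⧸ I) (y j)) ^ d) :=
    ((isUnit_iff_ne_zero.2 hj).map (algebraMap k _)).pow d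
  exact (hu.mul_right_eq_zero).1 h1.symm

/-- restriction to the line -/
noncomputable def phi {k : Type} [Field k] (y : Fin (1 + 1) → k) :
    MvPolynomial (Fin (1 + 1)) k →ₐ[k] Polynomial k :=
  aeval (fun i => Polynomial.X * algebraMap k (Polynomial k) (y i))

theorem phi_hom {k : Type} [Field k] (y : Fin (1 + 1) → k) (p : MvPolynomial (Fin (1 + 1)) k)
    (d : ℕ) (hp : p.IsHomogeneous d) : phi y p = Polynomial.X ^ d * Polynomial.C (eval y p) := by
  unfold phi
  rw [aeval_smul p d hp, aeval_alg]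
  rfl

theorem dvd_of_phi {k : Type} [Field k] (y : Fin (1 + 1) → k) (hy : y ≠ 0)
    (p : MvPolynomial (Fin (1 + 1)) k) (h : phi y p = 0) : lin y ∣ p := by
  have h1 : phi y p = ∑ d ∈ Finset.range (p.totalDegree + 1),
      Polynomial.X ^ d * Polynomial.C (eval y (homogeneousComponent d p)) := by
    conv_lhs => rw [← sum_homogeneousComponent p]
    rw [map_sum]
    refine Finset.sum_congr rfl fun d _ => ?_
    exact phi_hom y _ d (homogeneousComponent_isHomogeneous d p)
  rw [← sum_homogeneousComponent p]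
  refine Finset.dvd_sum fun d hd => ?_
  apply b1 y _ d hy (homogeneousComponent_isHomogeneous d p)
  have h2 := congrArg (fun q => Polynomial.coeff q d) h1
  simp only [h, Polynomial.coeff_zero, Polynomial.finset_sum_coeff] at h2
  rw [Finset.sum_eq_single d] at h2
  · rw [Polynomial.coeff_X_pow_mul', if_pos le_rfl, Nat.sub_self, Polynomial.coeff_C_zero] at h2
    exact h2.symm
  · intro e _ he
    rw [Polynomial.coeff_X_pow_mul']
    split_ifs with hle
    · rw [Polynomial.coeff_C, if_neg]
      omega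
    · rfl
  · intro h
    exact absurd hd h

theorem phi_lin {k : Type} [Field k] (y : Fin (1 + 1) → k) : phi y (lin y) = 0 := by
  unfold phi lin
  rw [map_sub, map_mul, map_mul, aeval_X, aeval_X, aeval_C, aeval_C]
  ring

theorem b2 {k : Type} [Field k] (y : Fin (1 + 1) → k) (hy : y ≠ 0) : Prime (lin y) := by
  refine ⟨?_, ?_, ?_⟩
  · intro h
    apply hy
    have h1 := congrArg (eval ![(1 : k), 0]) h
    have h2 := congrArg (eval ![(0 : k), 1]) h
    unfold lin at h1 h2
    simp only [map_sub, map_mul, eval_C, eval_X, map_zero, Matrix.cons_val_zero,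
      Matrix.cons_val_one, mul_one, mul_zero, sub_zero, zero_sub, neg_eq_zero] at h1 h2
    funext i
    fin_cases i
    · exact h2
    · exact h1
  · intro h
    have := h.map (phi y)
    rw [phi_lin] at this
    exact not_isUnit_zero this
  · rintro a b ⟨c, hc⟩
    have h1 : phi y a * phi y b = 0 := by
      rw [← map_mul, hc, map_mul, phi_lin, zero_mul]
    rcases mul_eq_zero.1 h1 with h | h
    · left
      exact dvd_of_phi y hy a h
    · right
      exact dvd_of_phi y hy b h

theorem eval_uni {k : Type} [Field k] (v : Fin (1 + 1) → Polynomial k)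
    (p : MvPolynomial (Fin (1 + 1)) k) (t : k) :
    Polynomial.eval t (aeval v p) = eval (fun i => Polynomial.eval t (v i)) p := by
  have h : (Polynomial.evalRingHom t).comp
      (aeval v : MvPolynomial (Fin (1 + 1)) k →ₐ[k] Polynomial k).toRingHom =
      eval (fun i => Polynomial.eval t (v i)) := by
    apply ringHom_ext
    · intro a
      simp
    · intro i
      simp
  exact DFunLike.congr_fun h p

theorem b3 {k : Type} [Field k] [IsAlgClosed k] (p : MvPolynomial (Fin (1 + 1)) k) (d : ℕ)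
    (hd : 1 ≤ d) (hp : p.IsHomogeneous d) : ∃ z : Fin (1 + 1) → k, z ≠ 0 ∧ eval z p = 0 := by
  set q : Polynomial k := aeval ![(1 : Polynomial k), Polynomial.X] p with hq
  have hqe : ∀ t : k, q.eval t = eval ![1, t] p := by
    intro t
    rw [hq, eval_uni]
    congr 2
    funext i
    fin_cases i <;> simp
  by_cases hdeg : q.degree = 0
  · rw [Polynomial.eq_C_of_degree_eq_zero hdeg] at hqe
    set c := q.coeff 0 with hc
    refine ⟨![0, 1], fun h => one_ne_zero (congrFun h 1), ?_⟩
    set r : Polynomial k := aeval ![Polynomial.X, (1 : Polynomial k)] p with hr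
    have hre : ∀ t : k, r.eval t = eval ![t, 1] p := by
      intro t
      rw [hr, eval_uni]
      congr 2
      funext i
      fin_cases i <;> simp
    have h1 : Polynomial.X * r = Polynomial.X * (Polynomial.C c * Polynomial.X ^ d) := by
      apply Polynomial.funext
      intro t
      rw [Polynomial.eval_mul, Polynomial.eval_mul, Polynomial.eval_X, hre]
      by_cases ht : t = 0
      · rw [ht, zero_mul, zero_mul]
      · have h2 : (![t, 1] : Fin (1 + 1) → k) = t • ![1, t⁻¹] := by
          funext i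
          fin_cases i
          · simp
          · simp [ht]
        rw [h2, eval_smul p d hp, ← hqe, Polynomial.eval_C, Polynomial.eval_mul,
          Polynomial.eval_C, Polynomial.eval_pow, Polynomial.eval_X]
        ring
    have h2 : r = Polynomial.C c * Polynomial.X ^ d := mul_left_cancel₀ Polynomial.X_ne_zero h1
    have h3 := hre 0
    rw [h2] at h3
    rw [← h3]
    simp
    right
    omega
  · obtain ⟨t, ht⟩ := IsAlgClosed.exists_root q hdeg
    refine ⟨![1, t], fun h => one_ne_zero (congrFun h 0), ?_⟩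
    rw [← hqe]
    exact ht

theorem b4 {k : Type} [Field k] [IsAlgClosed k] (D : ℕ)
    (Φ : Fin (1 + 1) → MvPolynomial (Fin (1 + 1)) k) (hΦ : ∀ i, (Φ i).IsHomogeneous D)
    (hD : 1 ≤ D) (hN : NZ Φ) (y : Fin (1 + 1) → k) (hy : y ≠ 0) :
    ∃ (z : Fin (1 + 1) → k) (c : k), z ≠ 0 ∧ c ≠ 0 ∧ pt Φ z = c • y := by
  have hhom : (C (y 1) * Φ 0 - C (y 0) * Φ 1).IsHomogeneous D :=
    ((hΦ 0).C_mul _).sub ((hΦ 1).C_mul _)
  obtain ⟨z, hz, hz0⟩ := b3 _ D hD hhom
  rw [map_sub, map_mul, map_mul, eval_C, eval_C, sub_eq_zero] at hz0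
  have hw : pt Φ z ≠ 0 := fun h => hz (hN z h)
  have hw0 : pt Φ z 0 = eval z (Φ 0) := rfl
  have hw1 : pt Φ z 1 = eval z (Φ 1) := rfl
  rw [← hw0, ← hw1] at hz0
  by_cases h0 : y 0 = 0
  · have h1 : y 1 ≠ 0 := by
      intro h1
      apply hy
      funext i
      fin_cases i
      · exact h0
      · exact h1
    rw [h0, zero_mul] at hz0
    have h2 : pt Φ z 0 = 0 := (mul_eq_zero.1 hz0).resolve_left h1
    refine ⟨z, pt Φ z 1 / y 1, hz, ?_, ?_⟩
    · intro h3
      apply hw
      rw [div_eq_zero_iff] at h3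
      funext i
      fin_cases i
      · exact h2
      · exact h3.resolve_right h1
    · funext i
      fin_cases i
      · simp only [Fin.zero_eta, Pi.smul_apply, smul_eq_mul]
        rw [h0, mul_zero]
        exact h2
      · simp only [Fin.mk_one, Pi.smul_apply, smul_eq_mul]
        rw [div_mul_cancel₀ _ h1]
  · refine ⟨z, pt Φ z 0 / y 0, hz, ?_, ?_⟩
    · intro h3
      rw [div_eq_zero_iff] at h3
      have h4 : pt Φ z 0 = 0 := h3.resolve_right h0
      rw [h4, mul_zero] at hz0
      have h5 : pt Φ z 1 = 0 := (mul_eq_zero.1 hz0.symm).resolve_left h0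
      apply hw
      funext i
      fin_cases i
      · exact h4
      · exact h5
    · funext i
      fin_cases i
      · simp only [Fin.zero_eta, Pi.smul_apply, smul_eq_mul]
        rw [div_mul_cancel₀ _ h0]
      · simp only [Fin.mk_one, Pi.smul_apply, smul_eq_mul]
        rw [div_mul_eq_mul_div, eq_div_iff h0]
        linear_combination -hz0

theorem b5 {k : Type} [Field k] [IsAlgClosed k] (D : ℕ)
    (Φ : Fin (1 + 1) → MvPolynomial (Fin (1 + 1)) k) (hΦ : ∀ i, (Φ i).IsHomogeneous D)
    (hD : 1 ≤ D) (hN : NZ Φ) (p : MvPolynomial (Fin (1 + 1)) k) (d : ℕ) (hp : p.IsHomogeneous d)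
    (h0 : bind₁ Φ p = 0) : p = 0 := by
  have key : ∀ y : Fin (1 + 1) → k, y ≠ 0 → eval y p = 0 := by
    intro y hy
    obtain ⟨z, c, hz, hc, h1⟩ := b4 D Φ hΦ hD hN y hy
    have h2 : eval (pt Φ z) p = eval z (bind₁ Φ p) := by
      rw [← coe_aeval_eq_eval, ← coe_aeval_eq_eval]
      change aeval (pt Φ z) p = aeval z (bind₁ Φ p)
      rw [aeval_bind₁]
      rfl
    rw [h0, map_zero, h1, eval_smul p d hp] at h2
    exact (mul_eq_zero.1 h2).resolve_left (pow_ne_zero _ hc)
  apply MvPolynomial.funext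
  intro y
  rw [map_zero]
  by_cases hy : y = 0
  · have h1 : (fun _ => 1 : Fin (1 + 1) → k) ≠ 0 := fun h => one_ne_zero (congrFun h 0)
    have h2 := eval_smul p d hp 0 (fun _ => 1 : Fin (1 + 1) → k)
    rw [key _ h1, mul_zero, zero_smul] at h2
    rw [hy]
    exact h2
  · exact key y hy

/-- a divisor of a form is a form (after Pool.Agent.Chud.PD1) -/
theorem b6 {k : Type} [Field k] (F G : MvPolynomial (Fin (1 + 1)) k) (n : ℕ)
    (hF0 : F ≠ 0) (hF : F.IsHomogeneous n) (h : G ∣ F) : ∃ e, G.IsHomogeneous e := by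
  refine ⟨G.totalDegree, ?_⟩
  obtain ⟨K, rfl⟩ := h
  have hG0 : G ≠ 0 := left_ne_zero_of_mul hF0
  have hK0 : K ≠ 0 := right_ne_zero_of_mul hF0
  have hle : ∀ P : MvPolynomial (Fin (1 + 1)) k, P ≠ 0 →
      (P : MvPowerSeries (Fin (1 + 1)) k).order ≤ P.totalDegree := by
    intro P hP
    obtain ⟨d, hd⟩ := MvPolynomial.ne_zero_iff.1 hP
    have h1 : (P : MvPowerSeries (Fin (1 + 1)) k).order ≤ (d.degree : ℕ∞) :=
      MvPowerSeries.order_le (by simpa using hd)
    refine h1.trans ?_
    have h2 : d.degree ≤ P.totalDegree := by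
      have := MvPolynomial.le_totalDegree (p := P) (s := d) (MvPolynomial.mem_support_iff.2 hd)
      simpa [Finsupp.degree_apply, Finsupp.sum] using this
    exact_mod_cast h2
  have hmul : ((G * K : MvPolynomial (Fin (1 + 1)) k) : MvPowerSeries (Fin (1 + 1)) k).order =
      (G : MvPowerSeries (Fin (1 + 1)) k).order + (K : MvPowerSeries (Fin (1 + 1)) k).order := by
    rw [MvPolynomial.coe_mul, MvPowerSeries.order_mul]
  have hFo : (n : ℕ∞) ≤
      ((G * K : MvPolynomial (Fin (1 + 1)) k) : MvPowerSeries (Fin (1 + 1)) k).order := by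
    apply MvPowerSeries.nat_le_order
    intro d hd
    rw [MvPolynomial.coeff_coe]
    by_contra hne
    have := hF hne
    have h' : d.degree = n := by rw [← this, Finsupp.degree_eq_weight_one]; rfl
    omega
  have hT : (G * K).totalDegree = n := hF.totalDegree hF0
  rw [MvPolynomial.totalDegree_mul_of_isDomain hG0 hK0] at hT
  have hGo := hle G hG0
  have hKo := hle K hK0
  rw [hmul] at hFo
  intro d hd
  have h1 : (G : MvPowerSeries (Fin (1 + 1)) k).order ≤ (d.degree : ℕ∞) :=
      MvPowerSeries.order_le (by simpa using hd)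
  have h2 : d.degree ≤ G.totalDegree := by
      have := MvPolynomial.le_totalDegree (p := G) (s := d) (MvPolynomial.mem_support_iff.2 hd)
      simpa [Finsupp.degree_apply, Finsupp.sum] using this
  have h3 : (n : ℕ∞) ≤ (d.degree : ℕ∞) + (K.totalDegree : ℕ∞) := hFo.trans (add_le_add h1 hKo)
  have h4 : n ≤ d.degree + K.totalDegree := by exact_mod_cast h3
  have h5 : d.degree = G.totalDegree := by omega
  rw [← h5, Finsupp.degree_eq_weight_one]
  rfl

end Bin

/-- (BIN) binary forms -/
theorem binLem : BinLem :=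
  ⟨fun _ _ y p d h1 h2 h3 => Bin.b1 y p d h1 h2 h3, fun _ _ y hy => Bin.b2 y hy,
    fun _ _ _ p d h1 h2 => Bin.b3 p d h1 h2,
    fun _ _ _ D Φ h1 h2 h3 y hy => Bin.b4 D Φ h1 h2 h3 y hy,
    fun _ _ _ D Φ h1 h2 h3 p d h4 h5 => Bin.b5 D Φ h1 h2 h3 p d h4 h5,
    fun _ _ p r d h1 h2 h3 => Bin.b6 p r d h1 h2 h3⟩

end Pool.Agent.N715.AD
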