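import Mathlib
import Pool.Agent.N715.AD.Stm3

/-!
Project AD: finitely many local degrees suffice.
-/

set_option autoImplicit false
set_option linter.unusedSectionVars false

namespace Pool.Agent.N715.AD

open Module

noncomputable section

lemma deg_pos (hBin : BinLem) {k : Type} [Field k] {D : ℕ}
    {Ψ : Fin (1 + 1) → MvPolynomial (Fin (1 + 1)) k} (hΨ : ∀ i, (Ψ i).IsHomogeneous D)
    {z : Fin (1 + 1) → k} (hz : z ≠ 0) {e : ℕ} (h : Deg Ψ z e) : 1 ≤ e := by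
  by_contra hcon
  obtain rfl : e = 0 := by omega
  apply h.2
  rw [zero_add, pow_one]
  apply hBin.1 k z _ D hz
  · unfold lin
    simp only [map_sub, map_mul, MvPolynomial.bind₁_C_right, MvPolynomial.bind₁_X_right]
    have h1 := (MvPolynomial.isHomogeneous_C (Fin (1 + 1)) (pt Ψ z 1)).mul (hΨ 0)
    have h2 := (MvPolynomial.isHomogeneous_C (Fin (1 + 1)) (pt Ψ z 0)).mul (hΨ 1)
    rw [zero_add] at h1 h2
    exact h1.sub h2
  · unfold lin
    simp only [map_sub, map_mul, MvPolynomial.bind₁_C_right, MvPolynomial.bind₁_X_right,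
      MvPolynomial.eval_C]
    change pt Ψ z 1 * pt Ψ z 0 - pt Ψ z 0 * pt Ψ z 1 = 0
    ring

lemma exists_cert {S : Set ℕ} (hS : ∀ e ∈ S, 1 ≤ e) {ν : ℕ}
    (h : ∀ M : ℕ, 1 ≤ M → (∀ e ∈ S, e ∣ M) → ν ≤ M) :
    ∃ T : Finset ℕ, (∀ e ∈ T, e ∈ S) ∧ ν ≤ T.lcm id := by
  classical
  by_contra hcon
  push Not at hcon
  obtain ⟨M, hM⟩ : ∃ M, M = sSup {m : ℕ | ∃ T : Finset ℕ, (∀ e ∈ T, e ∈ S) ∧ T.lcm id = m} :=
    ⟨_, rfl⟩
  have hbdd : BddAbove {m : ℕ | ∃ T : Finset ℕ, (∀ e ∈ T, e ∈ S) ∧ T.lcm id = m} := by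
    refine ⟨ν, ?_⟩
    rintro m ⟨T, hT, rfl⟩
    exact (hcon T hT).le
  have hne : {m : ℕ | ∃ T : Finset ℕ, (∀ e ∈ T, e ∈ S) ∧ T.lcm id = m}.Nonempty :=
    ⟨_, ∅, by simp, rfl⟩
  have hmem := Nat.sSup_mem hne hbdd
  rw [← hM] at hmem
  obtain ⟨T, hT, hTM⟩ := hmem
  have hT0 : T.lcm id ≠ 0 := by
    rw [Ne, Finset.lcm_eq_zero_iff]
    rintro ⟨e, he, he0⟩
    have := hS e (hT e (by simpa using he))
    simp only [id] at he0
    omega
  have h1 := h (T.lcm id) (Nat.pos_of_ne_zero hT0) (fun e he => by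
    have h2 : (insert e T).lcm id ≤ M := by
      rw [hM]
      refine le_csSup hbdd ⟨insert e T, ?_, rfl⟩
      intro x hx
      rcases Finset.mem_insert.mp hx with rfl | hx
      · exact he
      · exact hT x hx
    have h3 : T.lcm id ∣ (insert e T).lcm id := Finset.lcm_mono (Finset.subset_insert e T)
    have h4 : (insert e T).lcm id ≠ 0 := by
      rw [Ne, Finset.lcm_eq_zero_iff]
      rintro ⟨x, hx, hx0⟩
      simp only [id] at hx0
      rcases Finset.mem_insert.mp (by simpa using hx) with h5 | h5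
      · have := hS e he
        omega
      · have := hS x (hT x h5)
        omega
    have h5 : (insert e T).lcm id = T.lcm id := by
      refine le_antisymm ?_ (Nat.le_of_dvd (Nat.pos_of_ne_zero h4) h3)
      rw [hTM]
      exact h2
    rw [← h5]
    exact Finset.dvd_lcm (f := id) (Finset.mem_insert_self e T))
  exact absurd h1 (not_le.mpr (hcon T hT))

/-- finitely many ramification data -/
lemma exists_data (hBin : BinLem) {k : Type} [Field k] {q : ℕ → ℕ}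
    {Ψ : ℕ → Fin (1 + 1) → MvPolynomial (Fin (1 + 1)) k} (hΨ : ∀ n i, (Ψ n i).IsHomogeneous (q n))
    {d : ℕ} (y : Fin d → Fin (1 + 1) → k) (ν : Fin d → ℕ)
    (h : ∀ i, ∀ M : ℕ, 1 ≤ M → (∀ (n : ℕ) (z : Fin (1 + 1) → k) (e : ℕ), z ≠ 0 →
      wdg (pt (Ψ n) z) (y i) = 0 → Deg (Ψ n) z e → e ∣ M) → ν i ≤ M) :
    ∃ (l : ℕ) (w : Fin l → Fin (1 + 1) → k) (n e : Fin l → ℕ) (tt : Fin l → Fin d),
      (∀ i, ν i ≤ ((Finset.univ.filter fun j => tt j = i).image e).lcm id) ∧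
      ∀ j, w j ≠ 0 ∧ Deg (Ψ (n j)) (w j) (e j) ∧ wdg (pt (Ψ (n j)) (w j)) (y (tt j)) = 0 := by
  classical
  have h1 : ∀ i, ∃ T : Finset ℕ, (∀ e ∈ T, ∃ (n : ℕ) (z : Fin (1 + 1) → k), z ≠ 0 ∧
      wdg (pt (Ψ n) z) (y i) = 0 ∧ Deg (Ψ n) z e) ∧ ν i ≤ T.lcm id := by
    intro i
    obtain ⟨T, hT, hT'⟩ := exists_cert (S := {e | ∃ (n : ℕ) (z : Fin (1 + 1) → k), z ≠ 0 ∧
      wdg (pt (Ψ n) z) (y i) = 0 ∧ Deg (Ψ n) z e}) (ν := ν i) (by
        rintro e ⟨n, z, hz, -, he⟩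
        exact deg_pos hBin (hΨ n) hz he) (fun M hM hM' => h i M hM (fun n z e hz h1 h2 =>
          hM' e ⟨n, z, hz, h1, h2⟩))
    exact ⟨T, hT, hT'⟩
  choose T hT hT' using h1
  choose n z hz hz' hz'' using hT
  let I := (i : Fin d) × {e // e ∈ T i}
  let φ : I ≃ Fin (Fintype.card I) := Fintype.equivFin I
  refine ⟨Fintype.card I, fun j => z (φ.symm j).1 _ (φ.symm j).2.2,
    fun j => n (φ.symm j).1 _ (φ.symm j).2.2, fun j => ((φ.symm j).2 : ℕ), fun j => (φ.symm j).1,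
    ?_, ?_⟩
  · intro i
    have h2 : ((Finset.univ.filter fun j => (φ.symm j).1 = i).image
        fun j => ((φ.symm j).2 : ℕ)) = T i := by
      ext e
      simp only [Finset.mem_image, Finset.mem_filter, Finset.mem_univ, true_and]
      constructor
      · rintro ⟨j, hj, rfl⟩
        rw [← hj]
        exact (φ.symm j).2.2
      · intro he
        refine ⟨φ ⟨i, ⟨e, he⟩⟩, ?_, ?_⟩
        · rw [Equiv.symm_apply_apply]
        · rw [Equiv.symm_apply_apply]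
    rw [h2]
    exact hT' i
  · intro j
    exact ⟨hz _ _ _, hz'' _ _ _, hz' _ _ _⟩

end

end Pool.Agent.N715.AD
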