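import Pool.Agent.N715.AD.Stm

/-!
Project AD: the chain rule for the Jacobians of pairs of forms.
-/

set_option autoImplicit false

namespace Pool.Agent.N715.AD

namespace Chr

/-- the derivatives of a composition -/
lemma pd_bind {R : Type} [CommRing R] (Θ : Fin (1 + 1) → MvPolynomial (Fin (1 + 1)) R)
    (i : Fin (1 + 1)) (p : MvPolynomial (Fin (1 + 1)) R) :
    MvPolynomial.pderiv i (MvPolynomial.bind₁ Θ p) =
      ∑ j, MvPolynomial.bind₁ Θ (MvPolynomial.pderiv j p) * MvPolynomial.pderiv i (Θ j) := by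
  classical
  induction p using MvPolynomial.induction_on with
  | C a => simp
  | add p q hp hq =>
    simp only [map_add, hp, hq, add_mul, Finset.sum_add_distrib]
  | mul_X p n hp =>
    rw [map_mul, MvPolynomial.bind₁_X_right, Derivation.leibniz, hp]
    simp only [Derivation.leibniz, map_add, smul_eq_mul, map_mul, MvPolynomial.bind₁_X_right,
      MvPolynomial.pderiv_X]
    simp only [add_mul, Finset.sum_add_distrib]
    congr 1
    · rw [Finset.sum_eq_single n]
      · simp
      · intro j _ hj
        simp [Ne.symm hj]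
      · simp
    · rw [Finset.mul_sum]
      exact Finset.sum_congr rfl fun j _ => by ring

lemma jac_bind {R : Type} [CommRing R] (Ψ Θ : Fin (1 + 1) → MvPolynomial (Fin (1 + 1)) R) :
    jac (fun i => MvPolynomial.bind₁ Θ (Ψ i)) = MvPolynomial.bind₁ Θ (jac Ψ) * jac Θ := by
  unfold jac
  simp only [pd_bind, map_sub, map_mul]
  have h : ∀ F : Fin (1 + 1) → MvPolynomial (Fin (1 + 1)) R, ∑ j, F j = F 0 + F 1 :=
    fun F => Fin.sum_univ_two F
  simp only [h]
  ring

lemma itF_add {R : Type} [CommRing R] (Φ : Fin (1 + 1) → MvPolynomial (Fin (1 + 1)) R)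
    (a b : ℕ) (i : Fin (1 + 1)) :
    itF Φ (a + b) i = MvPolynomial.bind₁ (itF Φ b) (itF Φ a i) := by
  induction a generalizing i with
  | zero =>
    rw [Nat.zero_add]
    simp only [itF, MvPolynomial.bind₁_X_right]
  | succ a ih =>
    rw [Nat.add_right_comm]
    simp only [itF]
    rw [MvPolynomial.bind₁_bind₁]
    congr 2
    funext j
    exact ih j

end Chr

theorem chrLem : ChrLem :=
  ⟨fun _ _ Ψ Θ => Chr.jac_bind Ψ Θ, fun _ _ Φ a b i => Chr.itF_add Φ a b i⟩

end Pool.Agent.N715.AD
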