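import Mathlib
import Pool.Agent.N715.AD.Stm

/-! Project AD, part CLO (helper306): a relation between two close points. -/

set_option autoImplicit false

namespace Pool.Agent.N715.AD

open NumberField Module Polynomial
open Pool.Agent.R829.BG (XD)
open Pool.Agent.N715.AB (ev)

namespace CloAux

/-- `ev` as a ring homomorphism -/
noncomputable def evH (K : Type) {L : Type} [Field K] [Field L] [Algebra K L] (x y : L) :
    K[X][X] →+* L :=
  (evalEvalRingHom x y).comp (mapRingHom (mapRingHom (algebraMap K L)))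

variable {K L : Type} [Field K] [Field L] [Algebra K L]

lemma ev_eq (x y : L) (G : K[X][X]) : ev x y G = evH K x y G := rfl

lemma evH_C (x y : L) (c : K[X]) : evH K x y (C c : K[X][X]) = aeval x c := by
  show (evalEvalRingHom x y) ((mapRingHom (mapRingHom (algebraMap K L))) (C c)) = _
  rw [coe_mapRingHom, Polynomial.map_C]
  show evalEval x y (C ((mapRingHom (algebraMap K L)) c)) = _
  rw [evalEval_C, coe_mapRingHom, eval_map_algebraMap]

lemma evH_X (x y : L) : evH K x y (X : K[X][X]) = y := by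
  show (evalEvalRingHom x y) ((mapRingHom (mapRingHom (algebraMap K L))) X) = _
  rw [coe_mapRingHom, Polynomial.map_X]
  show evalEval x y X = _
  simp [evalEval]

lemma ev_sum (b : ℕ) (g : K[X][X]) (hg : g.natDegree ≤ b) (x y : L) :
    ev x y g = ∑ j ∈ Finset.range (b + 1), aeval x (g.coeff j) * y ^ j := by
  conv_lhs => rw [ev_eq, g.as_sum_range_C_mul_X_pow' (Nat.lt_succ_of_le hg)]
  rw [map_sum]
  refine Finset.sum_congr rfl fun j _ => ?_
  rw [map_mul, map_pow, evH_C, evH_X]

lemma eval_sum (b : ℕ) (g : K[X][X]) (hg : g.natDegree ≤ b) (x : L) :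
    aeval x (g.eval X) = ∑ j ∈ Finset.range (b + 1), aeval x (g.coeff j) * x ^ j := by
  rw [eval_eq_sum_range' (Nat.lt_succ_of_le hg), map_sum]
  refine Finset.sum_congr rfl fun j _ => ?_
  rw [map_mul, map_pow, aeval_X]

end CloAux

open CloAux

/-- (CLO) -/
theorem cloLem : CloLem := by
  intro K _ _ L _ _ _ v b g hg hX hint x y η hη0 hη1 hxy hev
  set m : ℝ := max 1 (v x) with hm
  have hm1 : 1 ≤ m := le_max_left _ _
  have hxm : v x ≤ m := le_max_right _ _
  have hx0 : 0 ≤ v x := Pool.Agent.H420R3.v_nonneg v x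
  have hy : v y ≤ v x := by
    have h1 : y = (y - x) + x := by ring
    rw [h1]
    refine (FinitePlace.add_le v _ _).trans (max_le (hxy.trans ?_) le_rfl)
    nlinarith
  have hpow : ∀ j : ℕ, v (x ^ j - y ^ j) ≤ η * v x ^ j := by
    intro j
    induction j with
    | zero => simpa using hη0
    | succ j ih =>
      have h1 : x ^ (j + 1) - y ^ (j + 1) = x ^ j * -(y - x) + (x ^ j - y ^ j) * y := by ring
      rw [h1]
      refine (FinitePlace.add_le v _ _).trans (max_le ?_ ?_)
      · rw [map_mul, map_pow, Pool.Agent.H420R3.v_neg]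
        calc v x ^ j * v (y - x) ≤ v x ^ j * (η * v x) :=
              mul_le_mul_of_nonneg_left hxy (by positivity)
          _ = η * v x ^ (j + 1) := by ring
      · rw [map_mul]
        calc v (x ^ j - y ^ j) * v y ≤ (η * v x ^ j) * v x :=
              mul_le_mul ih hy (Pool.Agent.H420R3.v_nonneg v y) (by positivity)
          _ = η * v x ^ (j + 1) := by ring
  have hcoef : ∀ j, v (aeval x (g.coeff j)) ≤ m ^ b := by
    intro j
    rw [aeval_eq_sum_range' (Nat.lt_succ_of_le (hX j))]
    refine Pool.Agent.H420R3.v_sum_le v _ _ (by positivity) fun i hi => ?_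
    obtain ⟨a, ha⟩ := hint i j
    rw [ha, Algebra.smul_def, map_mul, map_pow, ← IsScalarTower.algebraMap_apply (𝓞 K) K L a]
    have h1 : v (algebraMap (𝓞 K) L a) ≤ 1 := Pool.Agent.H420R3.coeff_le_one v a
    have h2 : v x ^ i ≤ m ^ b := by
      calc v x ^ i ≤ m ^ i := pow_le_pow_left₀ hx0 hxm i
        _ ≤ m ^ b := pow_le_pow_right₀ hm1 (Nat.lt_succ_iff.1 (Finset.mem_range.1 hi))
    calc v (algebraMap (𝓞 K) L a) * v x ^ i ≤ 1 * m ^ b :=
          mul_le_mul h1 h2 (by positivity) zero_le_one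
      _ = m ^ b := one_mul _
  have hval : aeval x (g.eval X) =
      ∑ j ∈ Finset.range (b + 1), aeval x (g.coeff j) * (x ^ j - y ^ j) := by
    have h1 := ev_sum b g hg x y
    rw [hev] at h1
    rw [eval_sum b g hg x, ← sub_zero (∑ j ∈ Finset.range (b + 1), aeval x (g.coeff j) * x ^ j), h1,
      ← Finset.sum_sub_distrib]
    exact Finset.sum_congr rfl fun j _ => (mul_sub _ _ _).symm
  rw [hval]
  refine Pool.Agent.H420R3.v_sum_le v _ _ (by positivity) fun j hj => ?_
  rw [map_mul]
  have h2 : v (x ^ j - y ^ j) ≤ η * m ^ b := by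
    refine (hpow j).trans (mul_le_mul_of_nonneg_left ?_ hη0)
    calc v x ^ j ≤ m ^ j := pow_le_pow_left₀ hx0 hxm j
      _ ≤ m ^ b := pow_le_pow_right₀ hm1 (Nat.lt_succ_iff.1 (Finset.mem_range.1 hj))
  calc v (aeval x (g.coeff j)) * v (x ^ j - y ^ j) ≤ m ^ b * (η * m ^ b) :=
        mul_le_mul (hcoef j) h2 (Pool.Agent.H420R3.v_nonneg v _) (by positivity)
    _ = η * m ^ (2 * b) := by ring

end Pool.Agent.N715.AD
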