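import Mathlib
import Pool.Agent.N715.AD.Stm

/-!
AD-CRT: reduction of ramification data modulo almost all primes.
-/

set_option autoImplicit false
set_option linter.unusedSectionVars false

namespace Pool.Agent.N715.AD

open NumberField

noncomputable section

namespace Crt

section base

variable {R S : Type} [CommRing R] [CommRing S]

lemma map_itF (f : R →+* S) (Φ : Fin (1 + 1) → MvPolynomial (Fin (1 + 1)) R) (l : ℕ)
    (i : Fin (1 + 1)) :
    MvPolynomial.map f (itF Φ l i) = itF (fun i => MvPolynomial.map f (Φ i)) l i := by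
  induction l generalizing i with
  | zero => simp [itF]
  | succ l ih =>
    change MvPolynomial.map f (MvPolynomial.bind₁ (itF Φ l) (Φ i)) =
      MvPolynomial.bind₁ (itF (fun i => MvPolynomial.map f (Φ i)) l) (MvPolynomial.map f (Φ i))
    rw [MvPolynomial.map_bind₁]
    congr 2
    funext j
    exact ih j

lemma map_pt (f : R →+* S) (Φ : Fin (1 + 1) → MvPolynomial (Fin (1 + 1)) R)
    (z : Fin (1 + 1) → R) :
    pt (fun i => MvPolynomial.map f (Φ i)) (fun i => f (z i)) = fun i => f (pt Φ z i) := by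
  funext i
  simp only [pt]
  rw [MvPolynomial.eval_map]
  have h := MvPolynomial.eval₂_comp_left f (RingHom.id R) z (Φ i)
  rw [RingHom.comp_id] at h
  exact h.symm

lemma map_ptn (f : R →+* S) (Φ : Fin (1 + 1) → MvPolynomial (Fin (1 + 1)) R)
    (n : ℕ) (z : Fin (1 + 1) → R) :
    (pt (fun i => MvPolynomial.map f (Φ i)))^[n] (fun i => f (z i)) =
      fun i => f ((pt Φ)^[n] z i) := by
  induction n with
  | zero => rfl
  | succ n ih => rw [Function.iterate_succ_apply', Function.iterate_succ_apply', ih, map_pt]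

lemma map_lin (f : R →+* S) (y : Fin (1 + 1) → R) :
    MvPolynomial.map f (lin y) = lin (fun i => f (y i)) := by
  simp [lin]

lemma map_wdg (f : R →+* S) (x y : Fin (1 + 1) → R) :
    f (wdg x y) = wdg (fun i => f (x i)) (fun i => f (y i)) := by
  simp [wdg]

lemma eval_mul {p : MvPolynomial (Fin (1 + 1)) R} {q : ℕ} (hp : p.IsHomogeneous q) (a : R)
    (z : Fin (1 + 1) → R) :
    MvPolynomial.eval (fun i => a * z i) p = a ^ q * MvPolynomial.eval z p := by
  rw [MvPolynomial.eval_eq', MvPolynomial.eval_eq', Finset.mul_sum]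
  refine Finset.sum_congr rfl fun d hd => ?_
  have h := hp (MvPolynomial.mem_support_iff.1 hd)
  have h' : d 0 + d 1 = q := by
    rw [← h]
    simp [Finsupp.weight_apply, Finsupp.sum_fintype]
  have h2 : ∀ g : Fin (1 + 1) → R, ∏ i, g i = g 0 * g 1 := fun g => Fin.prod_univ_two g
  rw [h2, h2, ← h', pow_add]
  ring

lemma ptn_mul {Φ : Fin (1 + 1) → MvPolynomial (Fin (1 + 1)) R} {q : ℕ}
    (hΦ : ∀ i, (Φ i).IsHomogeneous q) (a : R) (n : ℕ) (z : Fin (1 + 1) → R) :
    (pt Φ)^[n] (fun i => a * z i) = fun i => a ^ q ^ n * (pt Φ)^[n] z i := by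
  induction n with
  | zero => simp
  | succ n ih =>
    rw [Function.iterate_succ_apply', Function.iterate_succ_apply', ih]
    funext i
    simp only [pt]
    rw [eval_mul (hΦ i), ← pow_mul, pow_succ]

lemma ptn_zero {Φ : Fin (1 + 1) → MvPolynomial (Fin (1 + 1)) R} {q : ℕ}
    (hΦ : ∀ i, (Φ i).IsHomogeneous q) (hq : 1 ≤ q) (n : ℕ) :
    (pt Φ)^[n] (fun _ => 0) = fun _ => 0 := by
  have h := ptn_mul hΦ 0 n (fun _ => 0)
  simp only [mul_zero] at h
  rw [h]
  funext i
  rw [zero_pow (pow_ne_zero _ (by omega)), zero_mul]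

lemma lin_mul (a : R) (y : Fin (1 + 1) → R) :
    lin (fun i => a * y i) = MvPolynomial.C a * lin y := by
  simp only [lin, map_mul]
  ring

lemma lin_ne {y : Fin (1 + 1) → R} (hy : y ≠ 0) : lin y ≠ 0 := by
  intro h
  apply hy
  have h1 := congrArg (MvPolynomial.eval ![1, 0]) h
  have h2 := congrArg (MvPolynomial.eval ![0, 1]) h
  simp [lin] at h1 h2
  funext i
  fin_cases i
  · exact h2
  · exact h1

end base

/-- the lemma of Gauss -/
lemma gauss {σ W : Type} [Field W] (A : ValuationSubring W) (P Q : MvPolynomial σ A)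
    (hP : MvPolynomial.map (red A) P ≠ 0)
    (h : MvPolynomial.map A.subtype P ∣ MvPolynomial.map A.subtype Q) :
    MvPolynomial.map (red A) P ∣ MvPolynomial.map (red A) Q := by
  have inj : Function.Injective (MvPolynomial.map (σ := σ) A.subtype) :=
    MvPolynomial.map_injective _ (Subtype.val_injective)
  obtain ⟨U, hU⟩ := h
  rcases eq_or_ne U 0 with rfl | hU0
  · rw [mul_zero] at hU
    have : Q = 0 := inj (by rw [hU, map_zero])
    rw [this, map_zero]
    exact dvd_zero _
  obtain ⟨m0, hm0, hmax⟩ := Finset.exists_max_image U.support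
    (fun m => A.valuation (U.coeff m)) (MvPolynomial.support_nonempty.2 hU0)
  set c := U.coeff m0 with hc
  have hc0 : c ≠ 0 := MvPolynomial.mem_support_iff.1 hm0
  have hmem : ∀ m, c⁻¹ * U.coeff m ∈ A := by
    intro m
    by_cases hm : m ∈ U.support
    · have h1 := hmax m hm
      rw [← A.valuation_le_one_iff, map_mul, map_inv₀]
      have h2 : A.valuation c ≠ 0 := (Valuation.ne_zero_iff _).2 hc0
      calc (A.valuation c)⁻¹ * A.valuation (U.coeff m) ≤ (A.valuation c)⁻¹ * A.valuation c := by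
            gcongr
        _ = 1 := inv_mul_cancel₀ h2
    · rw [MvPolynomial.notMem_support_iff.1 hm, mul_zero]
      exact A.zero_mem
  let U1 : MvPolynomial σ A := ∑ m ∈ U.support, MvPolynomial.monomial m ⟨_, hmem m⟩
  have hU1 : MvPolynomial.map A.subtype U1 = MvPolynomial.C c⁻¹ * U := by
    conv_rhs => rw [← MvPolynomial.support_sum_monomial_coeff U, Finset.mul_sum]
    simp only [U1, map_sum, MvPolynomial.map_monomial, MvPolynomial.C_mul_monomial]
    rfl
  have hU1' : MvPolynomial.map (red A) U1 ≠ 0 := by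
    intro h0
    have h1 := congrArg (MvPolynomial.coeff m0) h0
    rw [MvPolynomial.coeff_map, MvPolynomial.coeff_zero] at h1
    have h2 : MvPolynomial.coeff m0 U1 = 1 := by
      have h3 := congrArg (MvPolynomial.coeff m0) hU1
      rw [MvPolynomial.coeff_map, MvPolynomial.coeff_C_mul, ← hc, inv_mul_cancel₀ hc0] at h3
      exact Subtype.ext h3
    rw [h2, map_one] at h1
    exact one_ne_zero h1
  by_cases hcA : c ∈ A
  · have h1 : Q = P * (MvPolynomial.C ⟨c, hcA⟩ * U1) := by
      apply inj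
      rw [hU, map_mul, map_mul, hU1, MvPolynomial.map_C]
      change _ = _ * (MvPolynomial.C c * _)
      rw [← mul_assoc (MvPolynomial.C c), ← map_mul, mul_inv_cancel₀ hc0, map_one, one_mul]
    rw [h1, map_mul]
    exact dvd_mul_right _ _
  · exfalso
    have hcA' : c⁻¹ ∈ A := (A.mem_or_inv_mem c).resolve_left hcA
    have h1 : MvPolynomial.C ⟨c⁻¹, hcA'⟩ * Q = P * U1 := by
      apply inj
      rw [map_mul, map_mul, hU, hU1, MvPolynomial.map_C]
      change MvPolynomial.C c⁻¹ * _ = _
      ring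
    have h2 : red A ⟨c⁻¹, hcA'⟩ = 0 := by
      rw [IsLocalRing.residue_eq_zero_iff, IsLocalRing.mem_maximalIdeal, mem_nonunits_iff]
      intro hu
      obtain ⟨w, hw⟩ := hu.exists_right_inv
      have h3 := congrArg (fun x : A => (x : W)) hw
      change c⁻¹ * (w : W) = 1 at h3
      have h4 : (w : W) = c := by
        field_simp at h3
        exact h3
      exact hcA (h4 ▸ w.2)
    have h3 := congrArg (MvPolynomial.map (red A)) h1
    rw [map_mul, map_mul, MvPolynomial.map_C, h2, map_zero, zero_mul] at h3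
    exact (mul_ne_zero hP hU1') h3.symm

lemma core {W : Type} [Field W] (A : ValuationSubring W)
    (GA : Fin (1 + 1) → MvPolynomial (Fin (1 + 1)) A) (c : Fin (1 + 1) → A) (n e : ℕ)
    (hc : (fun i => red A (c i)) ≠ 0)
    (h : Dat (fun j => MvPolynomial.map A.subtype (GA j)) (fun i => A.subtype (c i)) n e) :
    Dat (fun j => MvPolynomial.map (red A) (GA j)) (fun i => red A (c i)) n e := by
  unfold Dat at h ⊢
  rw [map_ptn, ← map_lin, ← map_lin] at h ⊢
  have h1 : ∀ (S : Type) [CommRing S] (f : A →+* S) (p : MvPolynomial (Fin (1 + 1)) A),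
      MvPolynomial.bind₁ (itF (fun j => MvPolynomial.map f (GA j)) n) (MvPolynomial.map f p) =
        MvPolynomial.map f (MvPolynomial.bind₁ (itF GA n) p) := by
    intro S _ f p
    rw [MvPolynomial.map_bind₁]
    congr 2
    funext j
    exact (map_itF f GA n j).symm
  rw [h1, ← map_pow] at h ⊢
  refine gauss A _ _ ?_ h
  rw [map_pow, map_lin]
  exact pow_ne_zero _ (lin_ne hc)

lemma exN (K : Type) [Field K] [NumberField K] (x : AlgebraicClosure K) :
    ∃ N : ℕ, N ≠ 0 ∧ IsIntegral ℤ ((N : AlgebraicClosure K) * x) := by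
  have h1 : Algebra.IsAlgebraic ℚ (AlgebraicClosure K) := Algebra.IsAlgebraic.trans ℚ K _
  have h2 : IsAlgebraic ℤ x := (IsFractionRing.isAlgebraic_iff ℤ ℚ (AlgebraicClosure K)).2
    (h1.isAlgebraic x)
  obtain ⟨y, hy0, hy⟩ := h2.exists_integral_multiple
  refine ⟨y.natAbs, Int.natAbs_ne_zero.2 hy0, ?_⟩
  have h3 : ((y.natAbs : ℕ) : AlgebraicClosure K) = y ∨
      ((y.natAbs : ℕ) : AlgebraicClosure K) = -y := by
    rcases Int.natAbs_eq y with h | h
    · left
      conv_rhs => rw [h]
      simp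
    · right
      conv_rhs => rw [h]
      simp
  rw [zsmul_eq_mul] at hy
  rcases h3 with h | h
  · rw [h]
    exact hy
  · rw [h, neg_mul]
    exact hy.neg

lemma mem_of_int {W : Type} [Field W] (A : ValuationSubring W) {x : W} (hx : IsIntegral ℤ x) :
    x ∈ A := by
  have h1 : IsIntegral A x := hx.tower_top
  obtain ⟨y, hy⟩ := IsIntegrallyClosed.isIntegral_iff.1 h1
  rw [← hy]
  exact y.2

end Crt

theorem crtLem : CrtLem := by
  intro K _ _ q G hG hq s c n e hD hw hs
  set ι : 𝓞 K →+* AlgebraicClosure K :=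
    (algebraMap K (AlgebraicClosure K)).comp (algebraMap (𝓞 K) K) with hι
  set GW : Fin (1 + 1) → MvPolynomial (Fin (1 + 1)) (AlgebraicClosure K) :=
    fun j => MvPolynomial.map ι (G j) with hGW
  have hGWh : ∀ i, (GW i).IsHomogeneous q := fun i => (hG i).map _
  -- the denominators
  choose a ha0 ha using fun (i : Fin s) => Crt.exN K (c i 0)
  choose b hb0 hb using fun (i : Fin s) => Crt.exN K (c i 1)
  set d : Fin s → AlgebraicClosure K := fun i => (a i : AlgebraicClosure K) * b i with hd
  have hd0 : ∀ i, d i ≠ 0 := fun i => mul_ne_zero (by exact_mod_cast ha0 i)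
    (by exact_mod_cast hb0 i)
  set c1 : Fin s → Fin (1 + 1) → AlgebraicClosure K := fun i j => d i * c i j with hc1
  have hint : ∀ i j, IsIntegral ℤ (c1 i j) := by
    intro i j
    have e1 : IsIntegral ℤ (a i : AlgebraicClosure K) := by
      have := isIntegral_algebraMap (R := ℤ) (A := AlgebraicClosure K) (x := (a i : ℤ))
      simpa using this
    have e2 : IsIntegral ℤ (b i : AlgebraicClosure K) := by
      have := isIntegral_algebraMap (R := ℤ) (A := AlgebraicClosure K) (x := (b i : ℤ))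
      simpa using this
    fin_cases j
    · have : c1 i 0 = (b i : AlgebraicClosure K) * ((a i : AlgebraicClosure K) * c i 0) := by
        simp only [hc1, hd]
        ring
      change IsIntegral ℤ (c1 i 0)
      rw [this]
      exact e2.mul (ha i)
    · have : c1 i 1 = (a i : AlgebraicClosure K) * ((b i : AlgebraicClosure K) * c i 1) := by
        simp only [hc1, hd]
        ring
      change IsIntegral ℤ (c1 i 1)
      rw [this]
      exact e1.mul (hb i)
  set y1 : Fin s → Fin (1 + 1) → AlgebraicClosure K := fun i => (pt GW)^[n i] (c1 i) with hy1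
  have hy1' : ∀ i, y1 i = fun j => d i ^ q ^ n i * (pt GW)^[n i] (c i) j := fun i =>
    Crt.ptn_mul hGWh (d i) (n i) (c i)
  have hD1 : ∀ i, Dat GW (c1 i) (n i) (e i) := by
    intro i
    have h1 := hD i
    unfold Dat at h1 ⊢
    have h2 : (pt GW)^[n i] (c1 i) = fun j => d i ^ q ^ n i * (pt GW)^[n i] (c i) j := hy1' i
    rw [h2, Crt.lin_mul (d i ^ q ^ n i), map_mul, MvPolynomial.bind₁_C_right]
    change lin (fun j => d i * c i j) ^ e i ∣ _
    rw [Crt.lin_mul, mul_pow]
    have hu : IsUnit ((MvPolynomial.C (d i) : MvPolynomial (Fin (1 + 1)) (AlgebraicClosure K)) ^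
        e i) := by
      refine IsUnit.pow _ ?_
      exact (isUnit_iff_ne_zero.2 (hd0 i)).map MvPolynomial.C
    exact (hu.mul_left_dvd).2 (h1.mul_left _)
  have hw1 : ∀ i j, i ≠ j → wdg (y1 i) (y1 j) ≠ 0 := by
    intro i j hij
    have h1 := hw i j hij
    have h2 : wdg (y1 i) (y1 j) = d i ^ q ^ n i * d j ^ q ^ n j *
        wdg ((pt GW)^[n i] (c i)) ((pt GW)^[n j] (c j)) := by
      rw [hy1' i, hy1' j]
      simp only [wdg]
      ring
    rw [h2]
    exact mul_ne_zero (mul_ne_zero (pow_ne_zero _ (hd0 i)) (pow_ne_zero _ (hd0 j))) h1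
  choose M hM0 hM using fun (i j : Fin s) => Crt.exN K (wdg (y1 i) (y1 j))⁻¹
  refine ⟨∏ i, ∏ j, M i j, Finset.prod_ne_zero_iff.2 fun i _ => Finset.prod_ne_zero_iff.2
    fun j _ => hM0 i j, ?_⟩
  intro A ψ hψ hN
  have hM1 : ∀ i j, ((M i j : ℕ) : rf A) ≠ 0 := by
    intro i j h
    apply hN
    push_cast
    exact Finset.prod_eq_zero (Finset.mem_univ i) (Finset.prod_eq_zero (Finset.mem_univ j) h)
  set GA : Fin (1 + 1) → MvPolynomial (Fin (1 + 1)) A := fun j => MvPolynomial.map ψ (G j)
    with hGA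
  have hGAW : (fun j => MvPolynomial.map A.subtype (GA j)) = GW := by
    funext j
    simp only [hGA, hGW]
    rw [MvPolynomial.map_map]
    have h1 : A.subtype.comp ψ = ι := RingHom.ext fun a => hψ a
    rw [h1]
  have hGAr : (fun j => MvPolynomial.map (red A) (GA j)) =
      fun j => MvPolynomial.map ((red A).comp ψ) (G j) := by
    funext j
    simp only [hGA]
    rw [MvPolynomial.map_map]
  set cA : Fin s → Fin (1 + 1) → A := fun i j => ⟨c1 i j, Crt.mem_of_int A (hint i j)⟩ with hcA
  have hyW : ∀ i, (fun j => A.subtype ((pt GA)^[n i] (cA i) j)) = y1 i := by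
    intro i
    rw [← Crt.map_ptn, hGAW]
    rfl
  have hyr : ∀ i, (pt (fun j => MvPolynomial.map (red A) (GA j)))^[n i]
      (fun j => red A (cA i j)) = fun j => red A ((pt GA)^[n i] (cA i) j) := fun i =>
    Crt.map_ptn _ _ _ _
  have hwA : ∀ i j, i ≠ j → red A (wdg ((pt GA)^[n i] (cA i)) ((pt GA)^[n j] (cA j))) ≠ 0 := by
    intro i j hij h0
    apply hM1 i j
    have h1 : ((M i j : ℕ) : A) = wdg ((pt GA)^[n i] (cA i)) ((pt GA)^[n j] (cA j)) *
        ⟨_, Crt.mem_of_int A (hM i j)⟩ := by
      apply (show Function.Injective A.subtype from Subtype.val_injective)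
      rw [map_mul, Crt.map_wdg, hyW, hyW, map_natCast]
      change _ = _ * ((M i j : AlgebraicClosure K) * (wdg (y1 i) (y1 j))⁻¹)
      have := hw1 i j hij
      field_simp
    have h2 := congrArg (red A) h1
    rw [map_natCast, map_mul, h0, zero_mul] at h2
    exact h2
  have hGr : ∀ i, (MvPolynomial.map (red A) (GA i)).IsHomogeneous q := fun i =>
    ((hG i).map _).map _
  have hex : ∀ i : Fin s, ∃ j : Fin s, i ≠ j := by
    intro i
    have : Nontrivial (Fin s) := Fin.nontrivial_iff_two_le.2 hs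
    obtain ⟨j, hj⟩ := exists_ne i
    exact ⟨j, hj.symm⟩
  have hcr : ∀ i, (fun j => red A (cA i j)) ≠ 0 := by
    intro i h0
    obtain ⟨j, hij⟩ := hex i
    apply hwA i j hij
    rw [Crt.map_wdg, ← hyr i, h0]
    have h1 := Crt.ptn_zero hGr hq (n i)
    change wdg ((pt fun j => MvPolynomial.map (red A) (GA j))^[n i] (fun _ => 0)) _ = 0
    rw [h1]
    simp [wdg]
  refine ⟨fun i j => red A (cA i j), hcr, ?_, ?_⟩
  · intro i
    rw [← hGAr]
    refine Crt.core A GA (cA i) (n i) (e i) (hcr i) ?_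
    rw [hGAW]
    exact hD1 i
  · intro i j hij
    rw [← hGAr, hyr, hyr, ← Crt.map_wdg]
    exact hwA i j hij

end

end Pool.Agent.N715.AD
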