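import Mathlib
import Pool.Agent.N715.AD.Stm

/-!
Project AD, part ITF: elementary properties of iterates and substitutions.
-/

set_option autoImplicit false
set_option maxHeartbeats 400000

namespace Pool.Agent.N715.AD

open Polynomial
open Pool.Agent.W238.Leh (act)

namespace Itf

theorem hom_it {R : Type} [CommRing R] (Φ : Fin (1 + 1) → MvPolynomial (Fin (1 + 1)) R) (q : ℕ)
    (h : ∀ i, (Φ i).IsHomogeneous q) : ∀ l i, (itF Φ l i).IsHomogeneous (q ^ l) := by
  intro l
  induction l with
  | zero => intro i; rw [pow_zero]; exact MvPolynomial.isHomogeneous_X _ i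
  | succ l ih =>
    intro i
    have h1 := (h i).aeval (fun j => itF Φ l j) (n := q ^ l) ih
    rw [pow_succ]
    exact h1

theorem map_it {R S : Type} [CommRing R] [CommRing S] (f : R →+* S)
    (Φ : Fin (1 + 1) → MvPolynomial (Fin (1 + 1)) R) (l : ℕ) : ∀ (i : Fin (1 + 1)),
    MvPolynomial.map f (itF Φ l i) = itF (fun i => MvPolynomial.map f (Φ i)) l i := by
  induction l with
  | zero => intro i; exact MvPolynomial.map_X f i
  | succ l ih =>
    intro i
    show MvPolynomial.map f (MvPolynomial.bind₁ (itF Φ l) (Φ i)) =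
      MvPolynomial.bind₁ (itF (fun i => MvPolynomial.map f (Φ i)) l) (MvPolynomial.map f (Φ i))
    rw [MvPolynomial.map_bind₁]
    congr 1
    congr 1
    funext j
    exact ih j

theorem pt_it {R : Type} [CommRing R] (Φ : Fin (1 + 1) → MvPolynomial (Fin (1 + 1)) R) (l : ℕ)
    (z : Fin (1 + 1) → R) : pt (itF Φ l) z = (pt Φ)^[l] z := by
  induction l with
  | zero =>
    funext i
    exact MvPolynomial.eval_X i
  | succ l ih =>
    rw [Function.iterate_succ_apply', ← ih]
    funext i
    show MvPolynomial.eval z (MvPolynomial.bind₁ (itF Φ l) (Φ i)) =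
      MvPolynomial.eval (fun j => MvPolynomial.eval z (itF Φ l j)) (Φ i)
    have h := MvPolynomial.eval₂Hom_bind₁ (RingHom.id R) z (itF Φ l) (Φ i)
    exact h

theorem act_it {K L : Type} [Field K] [Field L] [Algebra K L]
    (F : Fin (1 + 1) → MvPolynomial (Fin (1 + 1)) K) (l : ℕ) (z : Fin (1 + 1) → L) :
    act (itF F l) z = (act F)^[l] z := by
  induction l with
  | zero =>
    funext i
    exact MvPolynomial.aeval_X z i
  | succ l ih =>
    rw [Function.iterate_succ_apply', ← ih]
    funext i
    show MvPolynomial.aeval z (MvPolynomial.bind₁ (itF F l) (F i)) =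
      MvPolynomial.aeval (fun j => MvPolynomial.aeval z (itF F l j)) (F i)
    exact MvPolynomial.aeval_bind₁ z (itF F l) (F i)

theorem nz_it {k : Type} [Field k] (Φ : Fin (1 + 1) → MvPolynomial (Fin (1 + 1)) k)
    (hN : NZ Φ) : ∀ l, NZ (itF Φ l) := by
  intro l z hz
  rw [pt_it] at hz
  induction l with
  | zero => exact hz
  | succ l ih =>
    rw [Function.iterate_succ_apply'] at hz
    exact ih (hN _ hz)

theorem deg_dz {R : Type} [CommRing R] (p : MvPolynomial (Fin (1 + 1)) R) (D : ℕ)
    (hp : p.IsHomogeneous D) : (dz p).natDegree ≤ D := by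
  unfold dz
  rw [MvPolynomial.aeval_def, MvPolynomial.eval₂_eq']
  refine Polynomial.natDegree_sum_le_of_forall_le _ _ fun d hd => ?_
  have h0 : MvPolynomial.coeff d p ≠ 0 := MvPolynomial.mem_support_iff.1 hd
  have h1 : ∑ i, d i = D := by
    have := hp h0
    rw [← this, Finsupp.weight_apply, Finsupp.sum_fintype]
    · simp
    · simp
  rw [Fin.prod_univ_two]
  have e : (algebraMap R R[X]) (MvPolynomial.coeff d p) * ((![X, 1] : Fin 2 → R[X]) 0 ^ d 0 *
      (![X, 1] : Fin 2 → R[X]) 1 ^ d 1) = C (MvPolynomial.coeff d p) * X ^ d 0 := by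
    simp
  rw [e]
  refine (Polynomial.natDegree_C_mul_X_pow_le _ _).trans ?_
  rw [← h1]
  exact Finset.single_le_sum (f := fun i => d i) (fun _ _ => Nat.zero_le _) (Finset.mem_univ 0)

theorem map_dz {R S : Type} [CommRing R] [CommRing S] (f : R →+* S)
    (p : MvPolynomial (Fin (1 + 1)) R) : (dz p).map f = dz (MvPolynomial.map f p) := by
  unfold dz
  induction p using MvPolynomial.induction_on with
  | C a => simp
  | add p q hp hq => rw [map_add, Polynomial.map_add, hp, hq, map_add, map_add]
  | mul_X p i hp =>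
    rw [map_mul, Polynomial.map_mul, hp, map_mul, map_mul, MvPolynomial.map_X,
      MvPolynomial.aeval_X, MvPolynomial.aeval_X]
    congr 1
    fin_cases i <;> simp

theorem map_hom1 {R S : Type} [CommRing R] [CommRing S] (φ : R →+* S) (N : ℕ) (f g c : R[X]) :
    (hom1 N f g c).map φ = hom1 N (f.map φ) (g.map φ) (c.map φ) := by
  unfold hom1
  rw [Polynomial.map_sum]
  refine Finset.sum_congr rfl fun i _ => ?_
  rw [Polynomial.map_mul, Polynomial.map_mul, Polynomial.map_pow, Polynomial.map_pow,
    Polynomial.map_C, Polynomial.coeff_map]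

theorem map_C_map {R S : Type} [CommRing R] [CommRing S] (φ : R →+* S) (f : R[X]) :
    (f.map C).map (mapRingHom φ) = (f.map φ).map C := by
  rw [Polynomial.map_map, Polynomial.map_map]
  congr 1
  ext a
  simp

theorem map_hom2 {R S : Type} [CommRing R] [CommRing S] (φ : R →+* S) (b : ℕ) (f s : R[X])
    (g : R[X][X]) : (hom2 b f s g).map (mapRingHom φ) =
      hom2 b (f.map φ) (s.map φ) (g.map (mapRingHom φ)) := by
  unfold hom2
  rw [Polynomial.map_sum]
  refine Finset.sum_congr rfl fun j _ => ?_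
  rw [Polynomial.map_mul, Polynomial.map_mul, Polynomial.map_pow, Polynomial.map_pow,
    Polynomial.map_C, map_C_map, map_C_map, Polynomial.coeff_map, Polynomial.coe_mapRingHom,
    map_hom1]

end Itf

theorem itfLem : ItfLem :=
  ⟨fun _ _ Φ q h => Itf.hom_it Φ q h, fun _ _ _ _ f Φ l i => Itf.map_it f Φ l i,
    fun _ _ Φ l z => Itf.pt_it Φ l z, fun _ _ _ _ _ F l z => Itf.act_it F l z,
    fun _ _ Φ _ _ hN => Itf.nz_it Φ hN, fun _ _ p D hp => Itf.deg_dz p D hp,
    fun _ _ _ _ f p => Itf.map_dz f p, fun _ _ _ _ φ b f s g => Itf.map_hom2 φ b f s g⟩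

end Pool.Agent.N715.AD
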