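import Mathlib
import Pool.Agent.N715.AD.Stm3
import Pool.Agent.N715.AD.Crt
import Pool.Agent.N715.AD.Bin
import Pool.Agent.N715.AD.Itf

/-!
AD3-CR2: reduction of exact ramification data modulo almost all primes (helper543, after
`Pool.Agent.N715.AD.Crt` by helper216).
-/

set_option autoImplicit false
set_option linter.unusedSectionVars false

namespace Pool.Agent.N715.AD

open NumberField

noncomputable section

namespace Cr2

/-- the lemma of Gauss: the quotient has coefficients in `A` -/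
lemma gauss' {σ W : Type} [Field W] (A : ValuationSubring W) (P Q : MvPolynomial σ A)
    (hP : MvPolynomial.map (red A) P ≠ 0)
    (h : MvPolynomial.map A.subtype P ∣ MvPolynomial.map A.subtype Q) : P ∣ Q := by
  have inj : Function.Injective (MvPolynomial.map (σ := σ) A.subtype) :=
    MvPolynomial.map_injective _ (Subtype.val_injective)
  obtain ⟨U, hU⟩ := h
  rcases eq_or_ne U 0 with rfl | hU0
  · rw [mul_zero] at hU
    have : Q = 0 := inj (by rw [hU, map_zero])
    rw [this]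
    exact dvd_zero _
  obtain ⟨m0, hm0, hmax⟩ := Finset.exists_max_image U.support
    (fun m => A.valuation (U.coeff m)) (MvPolynomial.support_nonempty.2 hU0)
  set c := U.coeff m0 with hc
  have hc0 : c ≠ 0 := MvPolynomial.mem_support_iff.1 hm0
  have hmem : ∀ m, c⁻¹ * U.coeff m ∈ A := by
    intro m
    by_cases hm : m ∈ U.support
    · have h1 := hmax m hm
      rw [← A.valuation_le_one_iff, map_mul, map_inv₀]
      have h2 : A.valuation c ≠ 0 := (Valuation.ne_zero_iff _).2 hc0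
      calc (A.valuation c)⁻¹ * A.valuation (U.coeff m) ≤ (A.valuation c)⁻¹ * A.valuation c := by
            gcongr
        _ = 1 := inv_mul_cancel₀ h2
    · rw [MvPolynomial.notMem_support_iff.1 hm, mul_zero]
      exact A.zero_mem
  let U1 : MvPolynomial σ A := ∑ m ∈ U.support, MvPolynomial.monomial m ⟨_, hmem m⟩
  have hU1 : MvPolynomial.map A.subtype U1 = MvPolynomial.C c⁻¹ * U := by
    conv_rhs => rw [← MvPolynomial.support_sum_monomial_coeff U, Finset.mul_sum]
    simp only [U1, map_sum, MvPolynomial.map_monomial, MvPolynomial.C_mul_monomial]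
    rfl
  have hU1' : MvPolynomial.map (red A) U1 ≠ 0 := by
    intro h0
    have h1 := congrArg (MvPolynomial.coeff m0) h0
    rw [MvPolynomial.coeff_map, MvPolynomial.coeff_zero] at h1
    have h2 : MvPolynomial.coeff m0 U1 = 1 := by
      have h3 := congrArg (MvPolynomial.coeff m0) hU1
      rw [MvPolynomial.coeff_map, MvPolynomial.coeff_C_mul, ← hc, inv_mul_cancel₀ hc0] at h3
      exact Subtype.ext h3
    rw [h2, map_one] at h1
    exact one_ne_zero h1
  by_cases hcA : c ∈ A
  · have h1 : Q = P * (MvPolynomial.C ⟨c, hcA⟩ * U1) := by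
      apply inj
      rw [hU, map_mul, map_mul, hU1, MvPolynomial.map_C]
      change _ = _ * (MvPolynomial.C c * _)
      rw [← mul_assoc (MvPolynomial.C c), ← map_mul, mul_inv_cancel₀ hc0, map_one, one_mul]
    exact ⟨_, h1⟩
  · exfalso
    have hcA' : c⁻¹ ∈ A := (A.mem_or_inv_mem c).resolve_left hcA
    have h1 : MvPolynomial.C ⟨c⁻¹, hcA'⟩ * Q = P * U1 := by
      apply inj
      rw [map_mul, map_mul, hU, hU1, MvPolynomial.map_C]
      change MvPolynomial.C c⁻¹ * _ = _
      ring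
    have h2 : red A ⟨c⁻¹, hcA'⟩ = 0 := by
      rw [IsLocalRing.residue_eq_zero_iff, IsLocalRing.mem_maximalIdeal, mem_nonunits_iff]
      intro hu
      obtain ⟨w, hw⟩ := hu.exists_right_inv
      have h3 := congrArg (fun x : A => (x : W)) hw
      change c⁻¹ * (w : W) = 1 at h3
      have h4 : (w : W) = c := by
        field_simp at h3
        exact h3
      exact hcA (h4 ▸ w.2)
    have h3 := congrArg (MvPolynomial.map (red A)) h1
    rw [map_mul, map_mul, MvPolynomial.map_C, h2, map_zero, zero_mul] at h3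
    exact (mul_ne_zero hP hU1') h3.symm

lemma eval_lin {R : Type} [CommRing R] (z : Fin (1 + 1) → R) : MvPolynomial.eval z (lin z) = 0 := by
  simp only [lin, map_sub, map_mul, MvPolynomial.eval_C, MvPolynomial.eval_X]
  ring

/-- rescaling of the point -/
lemma deg_smul {k : Type} [Field k] {Ψ : Fin (1 + 1) → MvPolynomial (Fin (1 + 1)) k} {D : ℕ}
    (hΨ : ∀ i, (Ψ i).IsHomogeneous D) {a : k} (ha : a ≠ 0) {z : Fin (1 + 1) → k} {e : ℕ}
    (h : Deg Ψ z e) : Deg Ψ (fun i => a * z i) e := by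
  unfold Deg Ord at h ⊢
  have h1 : pt Ψ (fun i => a * z i) = fun i => a ^ D * pt Ψ z i := by
    funext i
    exact Crt.eval_mul (hΨ i) a z
  have hu : ∀ m : ℕ, IsUnit ((MvPolynomial.C a : MvPolynomial (Fin (1 + 1)) k) ^ m) := fun m =>
    ((isUnit_iff_ne_zero.2 ha).map MvPolynomial.C).pow m
  have hv : IsUnit (MvPolynomial.C (a ^ D) : MvPolynomial (Fin (1 + 1)) k) :=
    (isUnit_iff_ne_zero.2 (pow_ne_zero D ha)).map MvPolynomial.C
  rw [h1, Crt.lin_mul (a ^ D), map_mul, MvPolynomial.bind₁_C_right, Crt.lin_mul a, mul_pow, mul_pow]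
  refine ⟨((hu e).mul_left_dvd).2 (h.1.mul_left _), fun h2 => h.2 ?_⟩
  exact (hv.dvd_mul_left).1 (((hu (e + 1)).mul_left_dvd).1 h2)

/-- the cofactor -/
lemma cof {k : Type} [Field k] {Ψ : Fin (1 + 1) → MvPolynomial (Fin (1 + 1)) k} {D : ℕ}
    (hΨ : ∀ i, (Ψ i).IsHomogeneous D) {z : Fin (1 + 1) → k} (hz : z ≠ 0) {e : ℕ}
    (h : Deg Ψ z e) : ∃ U : MvPolynomial (Fin (1 + 1)) k,
      MvPolynomial.bind₁ Ψ (lin (pt Ψ z)) = lin z ^ e * U ∧ MvPolynomial.eval z U ≠ 0 := by
  obtain ⟨⟨U, hU⟩, h2⟩ := h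
  refine ⟨U, hU, fun h0 => h2 ?_⟩
  have hQ0 : MvPolynomial.bind₁ Ψ (lin (pt Ψ z)) ≠ 0 := by
    intro h3
    exact h2 (by rw [h3]; exact dvd_zero _)
  have hQh : (MvPolynomial.bind₁ Ψ (lin (pt Ψ z))).IsHomogeneous D := by
    have e1 : MvPolynomial.bind₁ Ψ (lin (pt Ψ z)) =
        MvPolynomial.C (pt Ψ z 1) * Ψ 0 - MvPolynomial.C (pt Ψ z 0) * Ψ 1 := by
      simp only [lin, map_sub, map_mul, MvPolynomial.bind₁_C_right, MvPolynomial.bind₁_X_right]
    rw [e1]
    have h4 : ∀ (a : k) (i : Fin (1 + 1)), (MvPolynomial.C a * Ψ i).IsHomogeneous D := by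
      intro a i
      have := (MvPolynomial.isHomogeneous_C (Fin (1 + 1)) a).mul (hΨ i)
      rwa [zero_add] at this
    exact (h4 _ 0).sub (h4 _ 1)
  obtain ⟨d, hd⟩ := binLem.2.2.2.2.2 k _ U D hQ0 hQh ⟨lin z ^ e, by rw [hU]; ring⟩
  obtain ⟨V, hV⟩ := binLem.1 k z U d hz hd h0
  rw [hU, hV]
  exact ⟨V, by ring⟩

/-- a number which is a unit at almost all places -/
lemma red_ne {W : Type} [Field W] (A : ValuationSubring W) (a : A) {M : ℕ} (ha : (a : W) ≠ 0)
    (hM : IsIntegral ℤ ((M : W) * (a : W)⁻¹)) (hM1 : ((M : ℕ) : rf A) ≠ 0) : red A a ≠ 0 := by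
  intro h0
  apply hM1
  have h1 : ((M : ℕ) : A) = a * ⟨_, Crt.mem_of_int A hM⟩ := by
    apply (show Function.Injective A.subtype from Subtype.val_injective)
    rw [map_mul, map_natCast]
    change _ = (a : W) * ((M : W) * (a : W)⁻¹)
    field_simp
  have h2 := congrArg (red A) h1
  rw [map_natCast, map_mul, h0, zero_mul] at h2
  exact h2

lemma exV (K : Type) [Field K] [NumberField K] (v : Fin (1 + 1) → AlgebraicClosure K) :
    ∃ N : ℕ, N ≠ 0 ∧ ∀ i, IsIntegral ℤ ((N : AlgebraicClosure K) * v i) := by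
  obtain ⟨a, ha0, ha⟩ := Crt.exN K (v 0)
  obtain ⟨b, hb0, hb⟩ := Crt.exN K (v 1)
  have e1 : ∀ m : ℕ, IsIntegral ℤ (m : AlgebraicClosure K) := by
    intro m
    have := isIntegral_algebraMap (R := ℤ) (A := AlgebraicClosure K) (x := (m : ℤ))
    simpa using this
  refine ⟨a * b, mul_ne_zero ha0 hb0, fun i => ?_⟩
  fin_cases i
  · change IsIntegral ℤ (((a * b : ℕ) : AlgebraicClosure K) * v 0)
    have : ((a * b : ℕ) : AlgebraicClosure K) * v 0 = (b : AlgebraicClosure K) * ((a : AlgebraicClosure K) * v 0) := by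
      push_cast; ring
    rw [this]
    exact (e1 b).mul ha
  · change IsIntegral ℤ (((a * b : ℕ) : AlgebraicClosure K) * v 1)
    have : ((a * b : ℕ) : AlgebraicClosure K) * v 1 = (a : AlgebraicClosure K) * ((b : AlgebraicClosure K) * v 1) := by
      push_cast; ring
    rw [this]
    exact (e1 a).mul hb

/-- the reduction of one datum -/
lemma core2 {W : Type} [Field W] (A : ValuationSubring W)
    (ΨA : Fin (1 + 1) → MvPolynomial (Fin (1 + 1)) A) (c : Fin (1 + 1) → A) (e : ℕ)
    (hc : (fun i => red A (c i)) ≠ 0) (U : MvPolynomial (Fin (1 + 1)) W)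
    (hU : MvPolynomial.bind₁ (fun j => MvPolynomial.map A.subtype (ΨA j))
      (lin (pt (fun j => MvPolynomial.map A.subtype (ΨA j)) (fun i => A.subtype (c i)))) =
      lin (fun i => A.subtype (c i)) ^ e * U)
    (hU0 : MvPolynomial.eval (fun i => A.subtype (c i)) U ≠ 0) {M : ℕ}
    (hM : IsIntegral ℤ ((M : W) * (MvPolynomial.eval (fun i => A.subtype (c i)) U)⁻¹))
    (hM1 : ((M : ℕ) : rf A) ≠ 0) :
    Deg (fun j => MvPolynomial.map (red A) (ΨA j)) (fun i => red A (c i)) e := by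
  have inj : Function.Injective (MvPolynomial.map (σ := Fin (1 + 1)) A.subtype) :=
    MvPolynomial.map_injective _ (Subtype.val_injective)
  have key : ∀ (S : Type) [CommRing S] (f : A →+* S),
      MvPolynomial.bind₁ (fun j => MvPolynomial.map f (ΨA j))
        (lin (pt (fun j => MvPolynomial.map f (ΨA j)) (fun i => f (c i)))) =
        MvPolynomial.map f (MvPolynomial.bind₁ ΨA (lin (pt ΨA c))) := by
    intro S _ f
    rw [Crt.map_pt, ← Crt.map_lin, MvPolynomial.map_bind₁]
  rw [key W A.subtype, ← Crt.map_lin] at hU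
  have hP : MvPolynomial.map (red A) (lin c ^ e) ≠ 0 := by
    rw [map_pow, Crt.map_lin]
    exact pow_ne_zero _ (Crt.lin_ne hc)
  obtain ⟨UA, hUA⟩ := gauss' A (lin c ^ e) (MvPolynomial.bind₁ ΨA (lin (pt ΨA c))) hP
    ⟨U, by rw [hU, map_pow]⟩
  have hc' : (fun i => A.subtype (c i)) ≠ 0 := by
    intro h0
    apply hc
    funext i
    have h1 := congrFun h0 i
    have h2 : c i = 0 := Subtype.ext h1
    rw [h2, map_zero]; rfl
  have hUU : MvPolynomial.map A.subtype UA = U := by
    have h1 : MvPolynomial.map A.subtype (lin c) ^ e * MvPolynomial.map A.subtype UA =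
        MvPolynomial.map A.subtype (lin c) ^ e * U := by
      rw [← hU, hUA, map_mul, map_pow]
    refine mul_left_cancel₀ (pow_ne_zero e ?_) h1
    rw [Crt.map_lin]
    exact Crt.lin_ne hc'
  have hev : MvPolynomial.eval (fun i => A.subtype (c i)) U = ((MvPolynomial.eval c UA : A) : W) := by
    rw [← hUU, MvPolynomial.eval_map]
    have h := MvPolynomial.eval₂_comp_left A.subtype (RingHom.id A) c UA
    rw [RingHom.comp_id] at h
    exact h.symm
  rw [hev] at hU0 hM
  have hr := red_ne A (MvPolynomial.eval c UA) hU0 hM hM1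
  unfold Deg Ord
  rw [key (rf A) (red A), hUA, map_mul, map_pow, Crt.map_lin]
  refine ⟨dvd_mul_right _ _, ?_⟩
  rintro ⟨V, hV⟩
  have h1 : MvPolynomial.map (red A) UA = lin (fun i => red A (c i)) * V := by
    refine mul_left_cancel₀ (pow_ne_zero e (Crt.lin_ne hc)) ?_
    rw [hV]; ring
  apply hr
  have h2 : MvPolynomial.eval (fun i => red A (c i)) (MvPolynomial.map (red A) UA) =
      red A (MvPolynomial.eval c UA) := by
    rw [MvPolynomial.eval_map]
    have h := MvPolynomial.eval₂_comp_left (red A) (RingHom.id A) c UA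
    rw [RingHom.comp_id] at h
    exact h.symm
  rw [← h2, h1, map_mul, eval_lin, zero_mul]

end Cr2

theorem crt2Lem : Crt2Lem := by
  intro K _ _ q G hG hq d s y c n e t hy hw hcj
  set ι : 𝓞 K →+* AlgebraicClosure K :=
    (algebraMap K (AlgebraicClosure K)).comp (algebraMap (𝓞 K) K) with hι
  set GW : Fin (1 + 1) → MvPolynomial (Fin (1 + 1)) (AlgebraicClosure K) :=
    fun j => MvPolynomial.map ι (G j) with hGW
  have hGWh : ∀ i, (GW i).IsHomogeneous q := fun i => (hG i).map _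
  have hIh : ∀ (m : ℕ) i, (itF GW m i).IsHomogeneous (q ^ m) := fun m i =>
    itfLem.1 _ GW q hGWh m i
  -- the denominators
  choose a ha0 ha using fun (j : Fin s) => Cr2.exV K (c j)
  choose b hb0 hb using fun (i : Fin d) => Cr2.exV K (y i)
  have ha0' : ∀ j, ((a j : ℕ) : AlgebraicClosure K) ≠ 0 := fun j => by exact_mod_cast ha0 j
  have hb0' : ∀ i, ((b i : ℕ) : AlgebraicClosure K) ≠ 0 := fun i => by exact_mod_cast hb0 i
  set c1 : Fin s → Fin (1 + 1) → AlgebraicClosure K := fun j i => (a j : AlgebraicClosure K) * c j i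
    with hc1
  set y1 : Fin d → Fin (1 + 1) → AlgebraicClosure K := fun j i => (b j : AlgebraicClosure K) * y j i
    with hy1
  have hc10 : ∀ j, c1 j ≠ 0 := by
    intro j h0
    apply (hcj j).1
    funext i
    have h1 : (a j : AlgebraicClosure K) * c j i = 0 := congrFun h0 i
    exact (mul_eq_zero.1 h1).resolve_left (ha0' j)
  have hy10 : ∀ j, y1 j ≠ 0 := by
    intro j h0
    apply hy j
    funext i
    have h1 : (b j : AlgebraicClosure K) * y j i = 0 := congrFun h0 i
    exact (mul_eq_zero.1 h1).resolve_left (hb0' j)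
  have hdeg : ∀ j, Deg (itF GW (n j)) (c1 j) (e j) := fun j =>
    Cr2.deg_smul (hIh (n j)) (ha0' j) (hcj j).2.1
  have hpt : ∀ j, wdg (pt (itF GW (n j)) (c1 j)) (y1 (t j)) = 0 := by
    intro j
    have h1 : pt (itF GW (n j)) (c1 j) = fun i => (a j : AlgebraicClosure K) ^ q ^ n j *
        pt (itF GW (n j)) (c j) i := by
      funext i
      exact Crt.eval_mul (hIh (n j) i) _ _
    have h2 := (hcj j).2.2
    have h3 : wdg (pt (itF GW (n j)) (c1 j)) (y1 (t j)) = (a j : AlgebraicClosure K) ^ q ^ n j *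
        (b (t j) : AlgebraicClosure K) * wdg (pt (itF GW (n j)) (c j)) (y (t j)) := by
      rw [h1]
      simp only [wdg, hy1]
      ring
    rw [h3]
    have h4 : wdg (pt (itF GW (n j)) (c j)) (y (t j)) = 0 := h2
    rw [h4, mul_zero]
  have hw1 : ∀ i j, i ≠ j → wdg (y1 i) (y1 j) ≠ 0 := by
    intro i j hij
    have h2 : wdg (y1 i) (y1 j) = (b i : AlgebraicClosure K) * b j * wdg (y i) (y j) := by
      simp only [wdg, hy1]
      ring
    rw [h2]
    exact mul_ne_zero (mul_ne_zero (hb0' i) (hb0' j)) (hw i j hij)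
  choose U hU hU0 using fun (j : Fin s) => Cr2.cof (hIh (n j)) (hc10 j) (hdeg j)
  choose kc hkc using fun (j : Fin s) => Function.ne_iff.1 (hc10 j)
  choose ky hky using fun (j : Fin d) => Function.ne_iff.1 (hy10 j)
  choose M1 hM10 hM1 using fun (j : Fin s) => Crt.exN K (MvPolynomial.eval (c1 j) (U j))⁻¹
  choose M2 hM20 hM2 using fun (j : Fin s) => Crt.exN K (c1 j (kc j))⁻¹
  choose M3 hM30 hM3 using fun (j : Fin d) => Crt.exN K (y1 j (ky j))⁻¹
  choose M4 hM40 hM4 using fun (i j : Fin d) => Crt.exN K (wdg (y1 i) (y1 j))⁻¹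
  refine ⟨(∏ j, M1 j) * (∏ j, M2 j) * (∏ j, M3 j) * ∏ i, ∏ j, M4 i j, ?_, ?_⟩
  · refine mul_ne_zero (mul_ne_zero (mul_ne_zero ?_ ?_) ?_) ?_
    · exact Finset.prod_ne_zero_iff.2 fun j _ => hM10 j
    · exact Finset.prod_ne_zero_iff.2 fun j _ => hM20 j
    · exact Finset.prod_ne_zero_iff.2 fun j _ => hM30 j
    · exact Finset.prod_ne_zero_iff.2 fun i _ => Finset.prod_ne_zero_iff.2 fun j _ => hM40 i j
  intro A ψ hψ hN
  push_cast at hN
  have hN4 := right_ne_zero_of_mul hN
  have hN3 := right_ne_zero_of_mul (left_ne_zero_of_mul hN)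
  have hN2 := right_ne_zero_of_mul (left_ne_zero_of_mul (left_ne_zero_of_mul hN))
  have hN1 := left_ne_zero_of_mul (left_ne_zero_of_mul (left_ne_zero_of_mul hN))
  have hR1 : ∀ j, ((M1 j : ℕ) : rf A) ≠ 0 := fun j => Finset.prod_ne_zero_iff.1 hN1 j (Finset.mem_univ j)
  have hR2 : ∀ j, ((M2 j : ℕ) : rf A) ≠ 0 := fun j => Finset.prod_ne_zero_iff.1 hN2 j (Finset.mem_univ j)
  have hR3 : ∀ j, ((M3 j : ℕ) : rf A) ≠ 0 := fun j => Finset.prod_ne_zero_iff.1 hN3 j (Finset.mem_univ j)
  have hR4 : ∀ i j, ((M4 i j : ℕ) : rf A) ≠ 0 := fun i j =>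
    Finset.prod_ne_zero_iff.1 (Finset.prod_ne_zero_iff.1 hN4 i (Finset.mem_univ i)) j (Finset.mem_univ j)
  set GA : Fin (1 + 1) → MvPolynomial (Fin (1 + 1)) A := fun j => MvPolynomial.map ψ (G j)
    with hGA
  have hGAW : (fun j => MvPolynomial.map A.subtype (GA j)) = GW := by
    funext j
    simp only [hGA, hGW]
    rw [MvPolynomial.map_map]
    have h1 : A.subtype.comp ψ = ι := RingHom.ext fun a => hψ a
    rw [h1]
  have hGAr : (fun j => MvPolynomial.map (red A) (GA j)) =
      fun j => MvPolynomial.map ((red A).comp ψ) (G j) := by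
    funext j
    simp only [hGA]
    rw [MvPolynomial.map_map]
  have hIW : ∀ m : ℕ, (fun j => MvPolynomial.map A.subtype (itF GA m j)) = itF GW m := by
    intro m
    funext j
    rw [Crt.map_itF, hGAW]
  have hIr : ∀ m : ℕ, (fun j => MvPolynomial.map (red A) (itF GA m j)) =
      itF (fun j => MvPolynomial.map ((red A).comp ψ) (G j)) m := by
    intro m
    funext j
    rw [Crt.map_itF, hGAr]
  set cA : Fin s → Fin (1 + 1) → A := fun i j => ⟨c1 i j, Crt.mem_of_int A (ha i j)⟩ with hcA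
  set yA : Fin d → Fin (1 + 1) → A := fun i j => ⟨y1 i j, Crt.mem_of_int A (hb i j)⟩ with hyA
  have hcr : ∀ j, (fun i => red A (cA j i)) ≠ 0 := by
    intro j h0
    exact Cr2.red_ne A (cA j (kc j)) (hkc j) (hM2 j) (hR2 j) (congrFun h0 (kc j))
  have hyr : ∀ j, (fun i => red A (yA j i)) ≠ 0 := by
    intro j h0
    exact Cr2.red_ne A (yA j (ky j)) (hky j) (hM3 j) (hR3 j) (congrFun h0 (ky j))
  refine ⟨fun i j => red A (yA i j), fun i j => red A (cA i j), hyr, ?_, ?_⟩
  · intro i j hij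
    rw [← Crt.map_wdg]
    have h1 : ((wdg (yA i) (yA j) : A) : AlgebraicClosure K) = wdg (y1 i) (y1 j) :=
      Crt.map_wdg A.subtype (yA i) (yA j)
    refine Cr2.red_ne A _ (by rw [h1]; exact hw1 i j hij) ?_ (hR4 i j)
    rw [h1]
    exact hM4 i j
  · intro j
    refine ⟨hcr j, ?_, ?_⟩
    · rw [← hIr (n j)]
      refine Cr2.core2 A (itF GA (n j)) (cA j) (e j) (hcr j) (U j) ?_ (hU0 j) (hM1 j) (hR1 j)
      rw [hIW]
      exact hU j
    · rw [← hIr (n j), Crt.map_pt, ← Crt.map_wdg]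
      have h1 : wdg (pt (itF GA (n j)) (cA j)) (yA (t j)) = 0 := by
        apply (show Function.Injective A.subtype from Subtype.val_injective)
        rw [Crt.map_wdg, ← Crt.map_pt, hIW, map_zero]
        exact hpt j
      rw [h1, map_zero]

end

end Pool.Agent.N715.AD
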