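import Mathlib
import Pool.Agent.N715.AD.Stm

/-!
Project AD, part CYD: an element of the Galois group which moves all elements of a wildly ramified
subfield of a cyclotomic extension very little.
-/

set_option autoImplicit false
set_option linter.unusedSectionVars false

namespace Pool.Agent.N715.AD

open NumberField Module Polynomial
open Pool.Agent.H420R3 (mi nv TP ew)

noncomputable section

namespace Cyd

section top

variable {K L : Type} [Field K] [Field L] [Algebra K L]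

/-- the generator generates the top field -/
lemma adjoin_gen_top (ζ : L) (M : IntermediateField K L) (hM : M = IntermediateField.adjoin K {ζ})
    (h : ζ ∈ M) : IntermediateField.adjoin K {(⟨ζ, h⟩ : M)} = ⊤ := by
  apply (IntermediateField.lift_injective M)
  rw [IntermediateField.lift_top, IntermediateField.lift_adjoin]
  rw [Set.image_singleton]
  exact hM.symm

/-- the image of a root of unity lies in the field which it generates -/
lemma map_root_mem {N : ℕ} {ζ : L} (hN : N ≠ 0) (hζ : IsPrimitiveRoot ζ N) (ρ : L ≃ₐ[K] L) :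
    ρ ζ ∈ IntermediateField.adjoin K {ζ} := by
  have h1 : (ρ ζ) ^ N = 1 := by rw [← map_pow, hζ.pow_eq_one, map_one]
  have : NeZero N := ⟨hN⟩
  obtain ⟨i, -, hi⟩ := hζ.eq_pow_of_pow_eq_one h1
  rw [← hi]
  exact pow_mem (IntermediateField.mem_adjoin_simple_self K ζ) i

end top

section norm

variable {K L : Type} [Field K] [Field L] [Algebra K L] [FiniteDimensional K L]

/-- restriction of automorphisms -/
lemma exists_restrict {N : ℕ} {ζ : L} (hN : N ≠ 0) (hζ : IsPrimitiveRoot ζ N)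
    (ρ : L ≃ₐ[K] L) : ∃ s : Gal(IntermediateField.adjoin K {ζ}/K),
      ∀ z : IntermediateField.adjoin K {ζ}, ((s z : IntermediateField.adjoin K {ζ}) : L) = ρ z := by
  have h1 : (IntermediateField.adjoin K {ζ}).map ρ.toAlgHom ≤
      IntermediateField.adjoin K {ζ} := by
    rw [IntermediateField.adjoin_map, Set.image_singleton, IntermediateField.adjoin_le_iff,
      Set.singleton_subset_iff]
    exact map_root_mem hN hζ ρ
  let f : (IntermediateField.adjoin K {ζ}) →ₐ[K] (IntermediateField.adjoin K {ζ}) :=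
    (ρ.toAlgHom.comp (IntermediateField.adjoin K {ζ}).val).codRestrict
      (IntermediateField.adjoin K {ζ}).toSubalgebra
      (fun z => h1 ⟨z, z.2, rfl⟩)
  have hf : Function.Bijective f := Algebra.IsAlgebraic.algHom_bijective f
  exact ⟨AlgEquiv.ofBijective f hf, fun z => rfl⟩

end norm

section places

variable {K : Type} [Field K] [NumberField K] {M : Type} [Field M] [NumberField M] [Algebra K M]
  {N : Type} [Field N] [NumberField N] [Algebra K N] {P : Ideal (𝓞 K)} [hP : P.IsMaximal]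

/-- ramification indices in towers -/
lemma ram_up (hP0 : P ≠ ⊥) (φ : M →ₐ[K] N) {u : FinitePlace M} (hu : u ∈ TP M P) :
    ∃ w ∈ TP N P, (mi u).ramificationIdx (𝓞 K) ∣ (mi w).ramificationIdx (𝓞 K) := by
  let _ : Algebra M N := φ.toRingHom.toAlgebra
  have htow : IsScalarTower K M N := IsScalarTower.of_algebraMap_eq fun z => (φ.commutes z).symm
  have hlo := H420R3.liesOver_of_mem hP0 hu
  obtain ⟨𝔓, h1, h2⟩ := Ideal.exists_maximal_ideal_liesOver_of_isIntegral (S := 𝓞 N) (mi u)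
  have h3 : 𝔓.LiesOver P := Ideal.LiesOver.trans 𝔓 (mi u) P
  have h0 : 𝔓 ≠ ⊥ := Ideal.ne_bot_of_liesOver_of_ne_bot hP0 𝔓
  let w : IsDedekindDomain.HeightOneSpectrum (𝓞 N) := ⟨𝔓, h1.isPrime, h0⟩
  have hw : mi (FinitePlace.mk w) = 𝔓 := by
    unfold mi
    rw [FinitePlace.maximalIdeal_mk]
  refine ⟨FinitePlace.mk w, ?_, ?_⟩
  · rw [H420R3.mem_TP hP0, hw]
    exact ⟨h1.isPrime, h3⟩
  · rw [hw]
    exact Ideal.ramificationIdx_below_dvd (R := 𝓞 K) (q := mi u) (r := 𝔓)

end places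

section main

variable {K : Type} [Field K] [NumberField K] {L : Type} [Field L] [NumberField L] [Algebra K L]
  {P : Ideal (𝓞 K)} [hP : P.IsMaximal]

/-- the tame case -/
lemma tame_absurd (h2 : CycTame) (hP0 : P ≠ ⊥) {p : ℕ} (hp : p.Prime) (hpP : (p : 𝓞 K) ∈ P)
    {N : ℕ} {ζ : L} {E : IntermediateField K L} (hN : ¬ p ^ 2 ∣ N) (hζ : IsPrimitiveRoot ζ N)
    (hE : E ≤ IntermediateField.adjoin K {ζ}) {u : FinitePlace E} (hu : u ∈ TP E P)
    (hr : p ∣ (mi u).ramificationIdx (𝓞 K)) : False := by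
  obtain ⟨w, hw, hd⟩ := ram_up hP0 (IntermediateField.inclusion hE) hu
  have hmem := IntermediateField.mem_adjoin_simple_self K ζ
  have hζ' : IsPrimitiveRoot (⟨ζ, hmem⟩ : IntermediateField.adjoin K {ζ}) N :=
    IsPrimitiveRoot.of_map_of_injective (f := (IntermediateField.adjoin K {ζ}).val)
      (by exact hζ) (IntermediateField.adjoin K {ζ}).val.injective
  exact h2 K (IntermediateField.adjoin K {ζ}) P hP0 p hp hpP N ⟨ζ, hmem⟩ hN hζ'
    (adjoin_gen_top ζ _ rfl hmem) w hw (hr.trans hd)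

/-- the main step -/
lemma main_step [IsGalois K L] (h1 : CycKey) (h3 : RstLem) (hP0 : P ≠ ⊥) {p : ℕ} (hp : p.Prime)
    (hpP : (p : 𝓞 K) ∈ P) (hpP2 : (p : 𝓞 K) ∉ P ^ 2) {a m : ℕ} {ζ : L}
    {E : IntermediateField K L} (ha : 2 ≤ a) (hm : ¬ p ∣ m) (hζ : IsPrimitiveRoot ζ (p ^ a * m))
    (hE : E ≤ IntermediateField.adjoin K {ζ}) (hE' : ¬ E ≤ IntermediateField.adjoin K {ζ ^ p}) :
    ∃ ρ : Gal(L/K), (∃ z ∈ E, ρ z ≠ z) ∧ ∀ v ∈ TP L P, ∀ z ∈ E,
      v (ρ z - z) ≤ Real.exp (-(ew K v / p)) * v z := by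
  obtain ⟨z, hzE, hz⟩ := SetLike.not_le_iff_exists.mp hE'
  have hm0 : m ≠ 0 := by
    rintro rfl
    exact hm (dvd_zero p)
  have hN : p ^ a * m ≠ 0 := mul_ne_zero (pow_ne_zero _ hp.ne_zero) hm0
  rw [← IsGalois.fixedField_fixingSubgroup (IntermediateField.adjoin K {ζ ^ p})] at hz
  obtain ⟨ρ, hρ, hρz⟩ : ∃ ρ ∈ (IntermediateField.adjoin K {ζ ^ p}).fixingSubgroup, ρ z ≠ z := by
    by_contra hcon
    push Not at hcon
    apply hz
    rw [IntermediateField.mem_fixedField_iff]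
    exact hcon
  refine ⟨ρ, ⟨z, hzE, hρz⟩, ?_⟩
  intro v hv y hy
  obtain ⟨s, hs⟩ := exists_restrict hN hζ ρ
  have hmem := IntermediateField.mem_adjoin_simple_self K ζ
  have hζ' : IsPrimitiveRoot (⟨ζ, hmem⟩ : IntermediateField.adjoin K {ζ}) (p ^ a * m) :=
    IsPrimitiveRoot.of_map_of_injective (f := (IntermediateField.adjoin K {ζ}).val)
      (by exact hζ) (IntermediateField.adjoin K {ζ}).val.injective
  have hsp : s ((⟨ζ, hmem⟩ : IntermediateField.adjoin K {ζ}) ^ p) = (⟨ζ, hmem⟩ :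
      IntermediateField.adjoin K {ζ}) ^ p := by
    apply Subtype.ext
    rw [hs]
    rw [IntermediateField.mem_fixingSubgroup_iff] at hρ
    have := hρ (ζ ^ p) (IntermediateField.mem_adjoin_simple_self K (ζ ^ p))
    exact this
  obtain ⟨u, hu, d, hd, huv, hew⟩ := h3 K (IntermediateField.adjoin K {ζ}) L P hP0 v hv
  have key := h1 K (IntermediateField.adjoin K {ζ}) P hP0 p hp hpP hpP2 a m ⟨ζ, hmem⟩ ha hm hζ'
    (adjoin_gen_top ζ _ rfl hmem) s hsp u hu ⟨y, hE hy⟩
  have e1 : v (ρ y - y) = u (s ⟨y, hE hy⟩ - ⟨y, hE hy⟩) ^ d := by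
    rw [← huv, map_sub (algebraMap (IntermediateField.adjoin K {ζ}) L)]
    change v (ρ y - y) = v (((s ⟨y, hE hy⟩ : IntermediateField.adjoin K {ζ}) : L) - y)
    rw [hs]
  have e2 : v y = u (⟨y, hE hy⟩ : IntermediateField.adjoin K {ζ}) ^ d := by
    rw [← huv]
    rfl
  rw [e1, e2, hew]
  calc u (s ⟨y, hE hy⟩ - ⟨y, hE hy⟩) ^ d
      ≤ (Real.exp (-(ew K u / p)) * u (⟨y, hE hy⟩ : IntermediateField.adjoin K {ζ})) ^ d :=
        Real.rpow_le_rpow (apply_nonneg _ _) key hd.le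
    _ = Real.exp (-(ew K u / p)) ^ d *
        u (⟨y, hE hy⟩ : IntermediateField.adjoin K {ζ}) ^ d :=
        Real.mul_rpow (Real.exp_pos _).le (apply_nonneg _ _)
    _ = Real.exp (-(d * ew K u / p)) *
        u (⟨y, hE hy⟩ : IntermediateField.adjoin K {ζ}) ^ d := by
        rw [← Real.exp_mul]
        congr 2
        ring

/-- induction on the exponent of `p` -/
lemma main_ind [IsGalois K L] (h1 : CycKey) (h2 : CycTame) (h3 : RstLem) (hP0 : P ≠ ⊥) {p : ℕ}
    (hp : p.Prime) (hpP : (p : 𝓞 K) ∈ P) (hpP2 : (p : 𝓞 K) ∉ P ^ 2) {m : ℕ} (hm : ¬ p ∣ m)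
    {E : IntermediateField K L} {u : FinitePlace E} (hu : u ∈ TP E P)
    (hr : p ∣ (mi u).ramificationIdx (𝓞 K)) :
    ∀ (a : ℕ) (ζ : L), IsPrimitiveRoot ζ (p ^ a * m) → E ≤ IntermediateField.adjoin K {ζ} →
    ∃ ρ : Gal(L/K), (∃ z ∈ E, ρ z ≠ z) ∧ ∀ v ∈ TP L P, ∀ z ∈ E,
      v (ρ z - z) ≤ Real.exp (-(ew K v / p)) * v z := by
  intro a
  induction a with
  | zero =>
    intro ζ hζ hE
    exfalso
    refine tame_absurd h2 hP0 hp hpP ?_ hζ hE hu hr
    rw [pow_zero, one_mul]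
    intro h
    exact hm ((dvd_pow_self p two_ne_zero).trans h)
  | succ a ih =>
    intro ζ hζ hE
    rcases Nat.eq_zero_or_pos a with rfl | ha
    · exfalso
      refine tame_absurd h2 hP0 hp hpP ?_ hζ hE hu hr
      rw [zero_add, pow_one, pow_two]
      intro h
      exact hm (Nat.dvd_of_mul_dvd_mul_left hp.pos h)
    · by_cases hE' : E ≤ IntermediateField.adjoin K {ζ ^ p}
      · refine ih (ζ ^ p) ?_ hE'
        refine hζ.pow ?_ ?_
        · refine Nat.pos_of_ne_zero (mul_ne_zero (pow_ne_zero _ hp.ne_zero) ?_)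
          rintro rfl
          exact hm (dvd_zero p)
        · rw [pow_succ]
          ring
      · exact main_step h1 h3 hP0 hp hpP hpP2 (by omega) hm hζ hE hE'

end main

end Cyd

theorem cycLem (h1 : CycKey) (h2 : CycTame) (h3 : RstLem) : CycLem := by
  intro K _ _ L _ _ _ _ P _ hP0 p hp hpP hpP2 N ζ E hN hζ hE ⟨u, hu, hr⟩
  obtain ⟨a, m, hm, hNm⟩ := Nat.exists_eq_pow_mul_and_not_dvd hN p hp.ne_one
  subst hNm
  exact Cyd.main_ind h1 h2 h3 hP0 hp hpP hpP2 hm hu hr a ζ hζ hE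

end

end Pool.Agent.N715.AD
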