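import Mathlib
import Pool.Agent.N715.AD.Stm
import Pool.Agent.R829.BH.Tame

/-!
Project AD, part (CYT): tame ramification at the bottom of a cyclotomic tower.
-/

set_option autoImplicit false
set_option linter.unusedSectionVars false

namespace Pool.Agent.N715.AD

open NumberField Module Polynomial
open Pool.Agent.W238.Leh
open Pool.Agent.H420R3 (mi nv TP ew mem_TP v_lt_one_iff liesOver_of_mem)
open Pool.Agent.R829.BG (pow_close v_sum_lt)
open scoped Pointwise

noncomputable section

namespace Cyt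

section Alg

variable {K M : Type} [Field K] [Field M] [Algebra K M]

/-- the field generated by a primitive root of unity is Galois -/
lemma isGal [FiniteDimensional K M] {N : ℕ} (hN : N ≠ 0) {ζ : M} (hζ : IsPrimitiveRoot ζ N)
    (htop : IntermediateField.adjoin K {ζ} = ⊤) : IsGalois K M := by
  have hcyc : IsCyclotomicExtension {N} K M := by
    rw [IsCyclotomicExtension.iff_adjoin_eq_top]
    refine ⟨fun n hn _ => ?_, ?_⟩
    · rw [Set.mem_singleton_iff] at hn
      subst hn
      exact ⟨ζ, hζ⟩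
    · have h1 : (IntermediateField.adjoin K {ζ}).toSubalgebra = Algebra.adjoin K {ζ} :=
        IntermediateField.adjoin_simple_toSubalgebra_of_isAlgebraic
          (Algebra.IsAlgebraic.isAlgebraic ζ)
      rw [htop, IntermediateField.top_toSubalgebra] at h1
      rw [eq_top_iff, h1]
      apply Algebra.adjoin_mono
      intro x hx
      rw [Set.mem_singleton_iff] at hx
      subst hx
      exact ⟨N, rfl, hN, hζ.pow_eq_one⟩
  exact IsCyclotomicExtension.isGalois {N} K M

/-- an automorphism fixing a generator is trivial -/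
lemma eq_one {ζ : M} (htop : IntermediateField.adjoin K {ζ} = ⊤) {s : Gal(M/K)}
    (hs : s ζ = ζ) : s = 1 := by
  have h1 : IntermediateField.adjoin K {ζ} ≤
      IntermediateField.fixedField (Subgroup.zpowers s) := by
    rw [IntermediateField.adjoin_simple_le_iff]
    rintro ⟨g, hg⟩
    have h2 : Subgroup.zpowers s ≤ MulAction.stabilizer Gal(M/K) ζ := by
      rw [Subgroup.zpowers_le]
      exact hs
    exact h2 hg
  ext x
  have h2 : x ∈ IntermediateField.fixedField (Subgroup.zpowers s) := by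
    apply h1
    rw [htop]
    exact IntermediateField.mem_top
  exact h2 ⟨s, Subgroup.mem_zpowers s⟩

end Alg

section Val

variable {M : Type} [Field M] [NumberField M] (w : FinitePlace M)

/-- two roots of unity of order prime to `p` which are congruent are equal -/
lemma root_eq {m : ℕ} (hm0 : m ≠ 0) (hm : w (m : M) = 1) {a b : M} (ha : a ^ m = 1) (hb : b ^ m = 1)
    (h : w (a - b) < 1) : a = b := by
  have hb0 : b ≠ 0 := by
    rintro rfl
    rw [zero_pow hm0] at hb
    exact zero_ne_one hb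
  have hw1 : ∀ z : M, z ^ m = 1 → w z = 1 := by
    intro z hz
    have h1 : w z ^ m = 1 := by rw [← map_pow, hz, map_one]
    exact (pow_eq_one_iff_of_nonneg (v_nonneg w _) hm0).mp h1
  by_contra hab
  set ξ : M := a / b with hξ
  have hξm : ξ ^ m = 1 := by rw [hξ, div_pow, ha, hb, div_one]
  have hξ1 : ξ ≠ 1 := by
    intro h1
    rw [hξ, div_eq_one_iff_eq hb0] at h1
    exact hab h1
  have hcl : w (ξ - 1) < 1 := by
    have h1 : ξ - 1 = (a - b) / b := by
      rw [hξ]
      field_simp
    rw [h1, map_div₀, hw1 b hb, div_one]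
    exact h
  have hsum : ∑ i ∈ Finset.range m, ξ ^ i = 0 := by
    have h1 := geom_sum_mul ξ m
    rw [hξm, sub_self] at h1
    exact (mul_eq_zero.mp h1).resolve_right (sub_ne_zero.mpr hξ1)
  have h2 : (m : M) = -∑ i ∈ Finset.range m, (ξ ^ i - 1) := by
    rw [Finset.sum_sub_distrib, hsum, Finset.sum_const, Finset.card_range, nsmul_eq_mul, mul_one]
    ring
  have h3 : w (∑ i ∈ Finset.range m, (ξ ^ i - 1)) < 1 := by
    apply v_sum_lt
    intro i _
    have h4 := pow_close (v := w) (hw1 ξ hξm).le (by rw [map_one]) hcl i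
    rwa [one_pow] at h4
  rw [h2] at hm
  have h5 : w (-∑ i ∈ Finset.range m, (ξ ^ i - 1)) = w (∑ i ∈ Finset.range m, (ξ ^ i - 1)) :=
    Pool.Agent.H627.LR.v_neg _
  rw [h5] at hm
  exact h3.ne hm

end Val

end Cyt

/-- (CYT) tame ramification at the bottom of a cyclotomic tower -/
theorem cycTame : CycTame := by
  intro K _ _ M _ _ _ P _ hP0 p hp hpP N ζ hN hζ htop w hw hdvd
  classical
  have hfact : Fact p.Prime := ⟨hp⟩
  have hN0 : N ≠ 0 := by
    rintro rfl
    exact hN (dvd_zero _)
  have hgal : IsGalois K M := Cyt.isGal hN0 hζ htop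
  have hlo : (mi w).LiesOver P := liesOver_of_mem hP0 hw
  have hI : Nat.card ((mi w).inertia Gal(M/K)) = (mi w).ramificationIdx (𝓞 K) := by
    rw [Ideal.card_inertia_eq_ramificationIdxIn (G := Gal(M/K)) P (mi w)]
    exact Ideal.ramificationIdxIn_eq_ramificationIdx P (mi w) Gal(M/K)
  rw [← hI] at hdvd
  obtain ⟨τ, hτ⟩ := exists_prime_orderOf_dvd_card' p hdvd
  have hτI : (τ : Gal(M/K)) ∈ (mi w).inertia Gal(M/K) := τ.2
  obtain ⟨s, hs⟩ : ∃ s : Gal(M/K), s = τ := ⟨_, rfl⟩
  have hso : orderOf s = p := by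
    rw [hs, Subgroup.orderOf_coe, hτ]
  rw [← hs] at hτI
  -- the residue characteristic
  have hwp : w (p : M) < 1 := by
    have h4 : (algebraMap (𝓞 K) (𝓞 M) (p : 𝓞 K)) ∈ mi w := by
      have h5 : (p : 𝓞 K) ∈ (mi w).under (𝓞 K) := by
        rw [← hlo.over]
        exact hpP
      exact h5
    rw [map_natCast] at h4
    have h5 := (v_lt_one_iff w _).mpr h4
    simpa using h5
  have hcop : ∀ n : ℕ, ¬ p ∣ n → w (n : M) = 1 := by
    intro n hn
    apply le_antisymm
    · have := H420R3.v_le_one w (n : 𝓞 M)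
      simpa using this
    · by_contra hcon
      push Not at hcon
      have hcop : Nat.Coprime p n := (Nat.Prime.coprime_iff_not_dvd hp).mpr hn
      have h4 : ((p : M) * (Nat.gcdA p n : ℤ) + (n : M) * (Nat.gcdB p n : ℤ)) = 1 := by
        have h5 := Nat.gcd_eq_gcd_ab p n
        rw [Nat.Coprime.gcd_eq_one hcop] at h5
        exact_mod_cast h5.symm
      have h5 : w (1 : M) < 1 := by
        rw [← h4]
        have hz : ∀ z : ℤ, w (z : M) ≤ 1 := fun z => by
          have := H420R3.v_le_one w (z : 𝓞 M)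
          simpa using this
        refine lt_of_le_of_lt (FinitePlace.add_le w _ _) (max_lt ?_ ?_)
        · rw [map_mul]
          exact lt_of_le_of_lt (mul_le_of_le_one_right (v_nonneg w _) (hz _)) hwp
        · rw [map_mul]
          exact lt_of_le_of_lt (mul_le_of_le_one_right (v_nonneg w _) (hz _)) hcon
      rw [map_one] at h5
      exact lt_irrefl _ h5
  -- roots of unity of order prime to `p` are fixed
  have hfix : ∀ (m : ℕ) (z : M), ¬ p ∣ m → z ^ m = 1 → s z = z := by
    intro m z hm hz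
    have hm0 : m ≠ 0 := by
      rintro rfl
      exact hm (dvd_zero _)
    have hwz : w z ≤ 1 := by
      have h1 : w z ^ m = 1 := by rw [← map_pow, hz, map_one]
      exact ((pow_eq_one_iff_of_nonneg (v_nonneg w _) hm0).mp h1).le
    exact Cyt.root_eq w hm0 (hcop m hm) (by rw [← map_pow, hz, map_one]) hz
      (R829.BH.inertia_lt hτI hwz)
  have hs1 : s ≠ 1 := by
    rintro rfl
    rw [orderOf_one] at hso
    exact hp.one_lt.ne hso
  by_cases hpN : p ∣ N
  · obtain ⟨m, rfl⟩ := hpN
    have hm : ¬ p ∣ m := by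
      rintro ⟨k, rfl⟩
      exact hN ⟨k, by ring⟩
    have hz2 : s (ζ ^ p) = ζ ^ p := hfix m _ hm (by rw [← pow_mul]; exact hζ.pow_eq_one)
    have hz1 : IsPrimitiveRoot (ζ ^ m) p := hζ.pow (Nat.pos_of_ne_zero hN0) (mul_comm p m)
    have hp0 : NeZero p := ⟨hp.ne_zero⟩
    obtain ⟨j, hj, hjs⟩ := hz1.eq_pow_of_pow_eq_one (ξ := s (ζ ^ m))
      (by rw [← map_pow, hz1.pow_eq_one, map_one])
    have hpow : ∀ k : ℕ, (s ^ k) (ζ ^ m) = (ζ ^ m) ^ (j ^ k) := by
      intro k
      induction k with
      | zero => rw [pow_zero, pow_zero, pow_one]; rfl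
      | succ k ih =>
        rw [pow_succ', AlgEquiv.mul_apply, ih, map_pow, ← hjs, ← pow_mul, ← pow_succ']
    have hpj : ¬ p ∣ j := by
      intro h1
      have hj0 : j = 0 := Nat.eq_zero_of_dvd_of_lt h1 hj
      rw [hj0, pow_zero] at hjs
      have h2 : ζ ^ m = 1 := by
        apply s.injective
        rw [map_one]
        exact hjs.symm
      rw [h2] at hz1
      exact hp.one_lt.ne' (hz1.unique IsPrimitiveRoot.one)
    have hflt : j ^ (p - 1) ≡ 1 [MOD p] := by
      have h1 := Nat.ModEq.pow_totient (Nat.Coprime.symm ((hp.coprime_iff_not_dvd).mpr hpj))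
      rwa [Nat.totient_prime hp] at h1
    have hfz1 : (s ^ (p - 1)) (ζ ^ m) = ζ ^ m := by
      rw [hpow]
      have h1 : (ζ ^ m) ^ (j ^ (p - 1)) = (ζ ^ m) ^ 1 := by
        rw [pow_eq_pow_mod (j ^ (p - 1)) hz1.pow_eq_one, pow_eq_pow_mod 1 hz1.pow_eq_one]
        exact congrArg _ hflt
      rw [h1, pow_one]
    have hfz2 : (s ^ (p - 1)) (ζ ^ p) = ζ ^ p := by
      have h1 : ∀ k : ℕ, (s ^ k) (ζ ^ p) = ζ ^ p := by
        intro k
        induction k with
        | zero => rfl
        | succ k ih => rw [pow_succ', AlgEquiv.mul_apply, ih, hz2]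
      exact h1 _
    have hone : s ^ (p - 1) = 1 := by
      apply Cyt.eq_one htop
      have hc : Nat.Coprime p m := (hp.coprime_iff_not_dvd).mpr hm
      have hζ0 : ζ ≠ 0 := hζ.ne_zero hN0
      have h1 : ζ = (ζ ^ p) ^ (Nat.gcdA p m) * (ζ ^ m) ^ (Nat.gcdB p m) := by
        have h2 := Nat.gcd_eq_gcd_ab p m
        rw [Nat.Coprime.gcd_eq_one hc] at h2
        rw [← zpow_natCast ζ p, ← zpow_natCast ζ m, ← zpow_mul, ← zpow_mul, ← zpow_add₀ hζ0, ← h2]
        simp
      conv_lhs => rw [h1]
      rw [map_mul, map_zpow₀, map_zpow₀, hfz1, hfz2]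
      exact h1.symm
    have h2 := orderOf_dvd_of_pow_eq_one hone
    rw [hso] at h2
    have h3 := Nat.le_of_dvd (Nat.sub_pos_of_lt hp.one_lt) h2
    have h4 := hp.pos
    omega
  · exact hs1 (Cyt.eq_one htop (hfix N ζ hpN hζ.pow_eq_one))

end

end Pool.Agent.N715.AD
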