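import Mathlib
import Pool.Agent.N715.AD.Stm2

/-!
Project AD2 (helper715): the wild inertia group is cyclic (CYW).  By helper46.
-/

set_option autoImplicit false
set_option linter.unusedSectionVars false

namespace Pool.Agent.N715.AD

open NumberField Module
open Pool.Agent.H420R3 (mi nv TP ew)

namespace Cyw

theorem grp {I : Type} [CommGroup I] [Finite I] (p e₀ w : ℕ) (hp : p.Prime) (he : ¬ p ∣ e₀)
    (hc : Nat.card I = e₀ * p ^ w) (hno : ∀ s : I, orderOf s ≠ p ^ w) :
    ∃ N : Subgroup I, N.index = p ^ 2 ∧ ∀ s : I, s ^ p ∈ N := by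
  have : Fact p.Prime := ⟨hp⟩
  let H : Subgroup I := (powMonoidHom p : I →* I).range
  have hQ : ∀ q : I ⧸ H, q ^ p = 1 := by
    intro q
    induction q using QuotientGroup.induction_on with
    | H s =>
      rw [← QuotientGroup.mk_pow, QuotientGroup.eq_one_iff]
      exact ⟨s, rfl⟩
  have hpg : IsPGroup p (I ⧸ H) := fun q => ⟨1, by rw [pow_one]; exact hQ q⟩
  obtain ⟨k, hk⟩ := IsPGroup.iff_card.mp hpg
  by_cases h2 : 2 ≤ k
  · obtain ⟨N', hN'⟩ := Sylow.exists_subgroup_card_pow_prime (G := I ⧸ H) p (n := k - 2)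
      (by rw [hk]; exact pow_dvd_pow _ (by omega))
    refine ⟨N'.comap (QuotientGroup.mk' H), ?_, ?_⟩
    · rw [Subgroup.index_comap_of_surjective _ (QuotientGroup.mk'_surjective H)]
      have h3 := N'.card_mul_index
      rw [hN', hk] at h3
      have h4 : p ^ k = p ^ (k - 2) * p ^ 2 := by
        rw [← pow_add]
        congr 1
        omega
      rw [h4] at h3
      exact Nat.eq_of_mul_eq_mul_left (pow_pos hp.pos _) h3
    · intro s
      rw [Subgroup.mem_comap]
      have h3 : (QuotientGroup.mk' H) (s ^ p) = 1 := by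
        rw [map_pow]
        exact hQ _
      rw [h3]
      exact N'.one_mem
  · exfalso
    have hcyc : IsCyclic (I ⧸ H) := by
      have hk' : k = 0 ∨ k = 1 := by omega
      rcases hk' with rfl | rfl
      · rw [pow_zero] at hk
        have : Subsingleton (I ⧸ H) := (Nat.card_eq_one_iff_unique.mp hk).1
        infer_instance
      · rw [pow_one] at hk
        exact isCyclic_of_prime_card hk
    obtain ⟨q, hq⟩ := hcyc.exists_generator
    obtain ⟨g, rfl⟩ := QuotientGroup.mk_surjective q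
    have hstep : ∀ s : I, ∃ u : I, ∃ a : ℤ, s = g ^ a * u ^ p := by
      intro s
      obtain ⟨a, ha⟩ := Subgroup.mem_zpowers_iff.mp (hq (s : I ⧸ H))
      have h3 : (g ^ a)⁻¹ * s ∈ H := by
        rw [← QuotientGroup.eq]
        rw [← ha]
        rfl
      obtain ⟨u, hu⟩ := h3
      refine ⟨u, a, ?_⟩
      have h4 : u ^ p = (g ^ a)⁻¹ * s := hu
      rw [h4, mul_inv_cancel_left]
    have hind : ∀ (n : ℕ) (s : I), ∃ u : I, ∃ a : ℤ, s = g ^ a * u ^ (p ^ n) := by
      intro n
      induction n with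
      | zero => exact fun s => ⟨s, 0, by simp⟩
      | succ n ih =>
        intro s
        obtain ⟨u, a, hu⟩ := ih s
        obtain ⟨t, b, ht⟩ := hstep u
        refine ⟨t, a + b * (p ^ n : ℕ), ?_⟩
        rw [hu, ht, mul_pow, zpow_add, zpow_mul, zpow_natCast, ← pow_mul, mul_assoc, pow_succ,
          mul_comm p]
    have hpow : ∀ s : I, s ^ e₀ ∈ Subgroup.zpowers g := by
      intro s
      obtain ⟨u, a, hu⟩ := hind w s
      have h3 : (u ^ (p ^ w)) ^ e₀ = 1 := by
        rw [← pow_mul, mul_comm, ← hc]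
        exact pow_card_eq_one'
      rw [hu, mul_pow, h3, mul_one]
      exact Subgroup.pow_mem _ (Subgroup.zpow_mem _ (Subgroup.mem_zpowers g) _) _
    let P : Sylow p I := default
    have he0 : e₀ ≠ 0 := fun h => he (h ▸ dvd_zero p)
    have hPc : Nat.card P = p ^ w := by
      rw [P.card_eq_multiplicity, hc, Nat.factorization_mul he0 (pow_ne_zero _ hp.ne_zero),
        Finsupp.add_apply, Nat.factorization_eq_zero_of_not_dvd he, zero_add,
        hp.factorization_pow, Finsupp.single_eq_same]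
    have hPz : (P : Subgroup I) ≤ Subgroup.zpowers g := by
      intro s hs
      have h3 : s ^ (p ^ w) = 1 := by
        have h4 : (⟨s, hs⟩ : (P : Subgroup I)) ^ (Nat.card P) = 1 := pow_card_eq_one'
        rw [hPc] at h4
        exact congrArg Subtype.val h4
      have h5 : Nat.Coprime e₀ (p ^ w) :=
        (((Nat.Prime.coprime_iff_not_dvd hp).mpr he).symm).pow_right _
      have h6 : orderOf s ∣ p ^ w := orderOf_dvd_of_pow_eq_one h3
      have h7 : Nat.Coprime e₀ (orderOf s) := h5.coprime_dvd_right h6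
      obtain ⟨m, hm⟩ := exists_pow_eq_self_of_coprime h7
      rw [← hm]
      exact Subgroup.pow_mem _ (hpow s) _
    have hdvd : p ^ w ∣ orderOf g := by
      rw [← Nat.card_zpowers, ← hPc]
      exact Subgroup.card_dvd_of_le hPz
    exact hno (g ^ (orderOf g / p ^ w)) (orderOf_pow_orderOf_div (orderOf_pos g).ne' hdvd)


theorem grp' {I : Type} [Group I] [Finite I] (hcomm : ∀ a b : I, a * b = b * a) (p e₀ w : ℕ)
    (hp : p.Prime) (he : ¬ p ∣ e₀) (hc : Nat.card I = e₀ * p ^ w)
    (hno : ∀ s : I, orderOf s ≠ p ^ w) :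
    ∃ N : Subgroup I, N.index = p ^ 2 ∧ ∀ s : I, s ^ p ∈ N := by
  let c : CommGroup I := { (inferInstance : Group I) with mul_comm := hcomm }
  exact grp p e₀ w hp he hc hno

end Cyw

theorem cywLem (h1 : NppLem) (h2 : RrLem) : CywLem := by
  intro K _ _ M _ _ _ _ P _ hP p hp hp3 hpP hpP2 hPn v hv e₀ w he hcard
  by_contra hcon
  push Not at hcon
  have hcomm : ∀ a b : In K v, a * b = b * a := fun a b => by
    apply Subtype.ext
    exact IsMulCommutative.is_comm.comm (a : Gal(M/K)) (b : Gal(M/K))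
  have hcomm' : ∀ a b : Gal(M/K), a * b = b * a := fun a b => IsMulCommutative.is_comm.comm a b
  obtain ⟨N, hNi, hNp⟩ := Cyw.grp' hcomm p e₀ w hp he hcard (fun s => by
    have h3 := hcon (s : Gal(M/K)) s.2
    rwa [Subgroup.orderOf_coe] at h3)
  obtain ⟨N₁, hN₁⟩ : ∃ N₁ : Subgroup Gal(M/K), N₁ = N.map (In K v).subtype := ⟨_, rfl⟩
  have hN₁c : Nat.card N₁ = Nat.card N := by
    rw [hN₁]
    exact Nat.card_congr (N.equivMapOfInjective _ (Subgroup.subtype_injective _)).symm.toEquiv
  have hN₁le : N₁ ≤ In K v := by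
    rw [hN₁]
    exact Subgroup.map_subtype_le N
  obtain ⟨v', hv', f, hf1, hf2, hf3, -, -, hf4, hf5⟩ :=
    h2 K M (IntermediateField.fixedField N₁) P hP v hv
  have hfix : (IntermediateField.fixedField N₁).fixingSubgroup = N₁ :=
    IntermediateField.fixingSubgroup_fixedField N₁
  have hNc : f = Nat.card N := by
    rw [hf3, hfix, inf_eq_right.mpr hN₁le, hN₁c]
  have hcard' : Nat.card (In K v') = 1 * p ^ 2 := by
    have h3 := N.card_mul_index
    rw [hNi, hf2, hNc] at h3
    have h4 : 0 < Nat.card N := by rw [← hNc]; exact hf1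
    rw [one_mul]
    exact (Nat.eq_of_mul_eq_mul_left h4 h3).symm
  refine h1 K (IntermediateField.fixedField N₁) P hP p hp hp3 hpP hpP2 hPn v' hv' 1
    (fun h => hp.one_lt.ne' (Nat.dvd_one.1 h)) hcard' ?_
  intro s' hs' _
  obtain ⟨s, hs, rfl⟩ := hf5 s' hs'
  have h3 : s ^ p ∈ N₁ := by
    rw [hN₁]
    exact ⟨(⟨s, hs⟩ : In K v) ^ p, hNp _, rfl⟩
  rw [← map_pow]
  rw [← hfix, ← IntermediateField.restrictNormalHom_ker] at h3
  exact h3

end Pool.Agent.N715.AD
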