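import Mathlib
import Pool.Agent.N715.AD.Stm

/-!
Project AD, part MUL: the multiplicity of the invariant form at a ramified value.
-/

set_option autoImplicit false

namespace Pool.Agent.N715.AD

namespace MulAux

open MvPolynomial

theorem eval_lin_self {R : Type} [CommRing R] (z : Fin (1 + 1) → R) :
    MvPolynomial.eval z (lin z) = 0 := by
  simp [lin]; ring

theorem lin_hom {R : Type} [CommRing R] (z : Fin (1 + 1) → R) :
    (lin z).IsHomogeneous 1 := by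
  unfold lin
  exact ((MvPolynomial.isHomogeneous_C_mul_X _ _)).sub (MvPolynomial.isHomogeneous_C_mul_X _ _)

theorem eval_bind {R : Type} [CommRing R] (Ψ : Fin (1 + 1) → MvPolynomial (Fin (1 + 1)) R)
    (z : Fin (1 + 1) → R) (B : MvPolynomial (Fin (1 + 1)) R) :
    MvPolynomial.eval z (MvPolynomial.bind₁ Ψ B) = MvPolynomial.eval (pt Ψ z) B := by
  have := MvPolynomial.eval₂Hom_bind₁ (RingHom.id R) z Ψ B
  exact this

/-- exact multiplicities -/
theorem le_of_dvd {R : Type} [CommRing R] [IsDomain R] {p U : R} (hp : Prime p) (hU : ¬ p ∣ U)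
    {a b : ℕ} (h : p ^ a ∣ p ^ b * U) : a ≤ b := by
  by_contra hlt
  push Not at hlt
  have h1 : p ^ (b + 1) ∣ p ^ b * U := (pow_dvd_pow p hlt).trans h
  rw [pow_succ] at h1
  exact hU ((mul_dvd_mul_iff_left (pow_ne_zero b hp.ne_zero)).1 h1)

theorem pderiv_dvd {R : Type} [CommRing R] (i : Fin (1 + 1)) (p U : MvPolynomial (Fin (1 + 1)) R)
    (e : ℕ) : p ^ (e - 1) ∣ MvPolynomial.pderiv i (p ^ e * U) := by
  rw [MvPolynomial.pderiv_mul, MvPolynomial.pderiv_pow]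
  apply dvd_add
  · exact Dvd.dvd.mul_right (Dvd.dvd.mul_right (Dvd.intro_left _ rfl) _) _
  · exact Dvd.dvd.mul_right (pow_dvd_pow _ (Nat.sub_le _ _)) _

theorem arith (m e e' μ : ℕ) (h1 : 1 ≤ e) (h2 : e ≤ e') (h : m * (e' - 1) ≤ e' * μ) :
    m * (e - 1) ≤ e * μ := by
  obtain ⟨f, rfl⟩ : ∃ f, e = f + 1 := ⟨e - 1, by omega⟩
  obtain ⟨f', rfl⟩ : ∃ f', e' = f' + 1 := ⟨e' - 1, by omega⟩
  simp only [Nat.add_sub_cancel] at h ⊢
  rcases le_or_gt m μ with hm | hm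
  · calc m * f ≤ μ * f := Nat.mul_le_mul_right _ hm
      _ ≤ (f + 1) * μ := by nlinarith
  · obtain ⟨d, rfl⟩ : ∃ d, m = μ + d := ⟨m - μ, by omega⟩
    have h3 : f ≤ f' := by omega
    have h4 : d * f ≤ d * f' := Nat.mul_le_mul_left _ h3
    nlinarith

end MulAux

open MulAux in
theorem mulLem (h : BinLem) : MulLem := by
  intro k _ _ D Ψ hΨ hD hNZ m d A c hA hc hAh hinv z e hz he hdvd
  obtain ⟨b1, b2, -, -, b5, b6⟩ := h
  set y := pt Ψ z with hy
  have hy0 : y ≠ 0 := fun h0 => hz (hNZ z h0)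
  have hpz : Prime (lin z) := b2 k z hz
  have hpy : Prime (lin y) := b2 k y hy0
  obtain ⟨μ, B, hB, hAB⟩ := WfDvdMonoid.max_power_factor hA hpy.irreducible
  refine ⟨μ, ?_, ⟨B, hAB⟩⟩
  have hBA : B ∣ A := ⟨lin y ^ μ, by rw [hAB]; ring⟩
  obtain ⟨dB, hBh⟩ := b6 k A B d hA hAh hBA
  have hBy : MvPolynomial.eval y B ≠ 0 := fun h0 => hB (b1 k y B dB hy0 hBh h0)
  have hbB : ¬ lin z ∣ MvPolynomial.bind₁ Ψ B := by
    rintro ⟨V, hV⟩
    apply hBy
    rw [hy, ← eval_bind, hV, map_mul, eval_lin_self, zero_mul]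
  set Q := MvPolynomial.bind₁ Ψ (lin y) with hQ
  have hQ0 : Q ≠ 0 := fun h0 => hpy.ne_zero (b5 k D Ψ hΨ hD hNZ _ 1 (lin_hom y) h0)
  obtain ⟨e', U, hU, hQU⟩ := WfDvdMonoid.max_power_factor hQ0 hpz.irreducible
  have hee : e ≤ e' := le_of_dvd hpz hU (hQU ▸ hdvd)
  -- the Jacobian
  have hQe : Q = MvPolynomial.C (y 1) * Ψ 0 - MvPolynomial.C (y 0) * Ψ 1 := by
    rw [hQ]; simp [lin, MvPolynomial.bind₁_X_right, MvPolynomial.bind₁_C_right]
  have hd0 : lin z ^ (e' - 1) ∣ MvPolynomial.pderiv 0 Q := by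
    rw [hQU]; exact pderiv_dvd 0 _ _ _
  have hd1 : lin z ^ (e' - 1) ∣ MvPolynomial.pderiv 1 Q := by
    rw [hQU]; exact pderiv_dvd 1 _ _ _
  have hj1 : lin z ^ (e' - 1) ∣ MvPolynomial.C (y 1) * jac Ψ := by
    have : MvPolynomial.C (y 1) * jac Ψ =
        MvPolynomial.pderiv 0 Q * MvPolynomial.pderiv 1 (Ψ 1) -
          MvPolynomial.pderiv 1 Q * MvPolynomial.pderiv 0 (Ψ 1) := by
      rw [hQe]; simp only [jac, map_sub, MvPolynomial.pderiv_C_mul]
      simp only [MvPolynomial.C_mul']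
      simp only [MvPolynomial.smul_eq_C_mul]
      ring
    rw [this]
    exact dvd_sub (Dvd.dvd.mul_right hd0 _) (Dvd.dvd.mul_right hd1 _)
  have hj0 : lin z ^ (e' - 1) ∣ MvPolynomial.C (y 0) * jac Ψ := by
    have : MvPolynomial.C (y 0) * jac Ψ =
        MvPolynomial.pderiv 0 Q * MvPolynomial.pderiv 1 (Ψ 0) -
          MvPolynomial.pderiv 1 Q * MvPolynomial.pderiv 0 (Ψ 0) := by
      rw [hQe]; simp only [jac, map_sub, MvPolynomial.pderiv_C_mul]
      simp only [MvPolynomial.C_mul']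
      simp only [MvPolynomial.smul_eq_C_mul]
      ring
    rw [this]
    exact dvd_sub (Dvd.dvd.mul_right hd0 _) (Dvd.dvd.mul_right hd1 _)
  have hj : lin z ^ (e' - 1) ∣ jac Ψ := by
    have hcase : y 0 ≠ 0 ∨ y 1 ≠ 0 := by
      by_contra hcon
      push Not at hcon
      apply hy0
      funext i
      fin_cases i
      · exact hcon.1
      · exact hcon.2
    rcases hcase with h0 | h1
    · have hu : IsUnit (MvPolynomial.C (y 0) : MvPolynomial (Fin (1 + 1)) k) :=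
        (isUnit_iff_ne_zero.2 h0).map MvPolynomial.C
      exact (hu.dvd_mul_left).1 hj0
    · have hu : IsUnit (MvPolynomial.C (y 1) : MvPolynomial (Fin (1 + 1)) k) :=
        (isUnit_iff_ne_zero.2 h1).map MvPolynomial.C
      exact (hu.dvd_mul_left).1 hj1
  have hmain : lin z ^ (m * (e' - 1)) ∣ lin z ^ (e' * μ) * (U ^ μ * MvPolynomial.bind₁ Ψ B) := by
    have e1 : MvPolynomial.bind₁ Ψ A = lin z ^ (e' * μ) * (U ^ μ * MvPolynomial.bind₁ Ψ B) := by
      rw [hAB, map_mul, map_pow, ← hQ, hQU, mul_pow, ← pow_mul, mul_assoc]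
    rw [← e1, hinv]
    apply Dvd.dvd.mul_left
    rw [mul_comm m, pow_mul]
    exact pow_dvd_pow_of_dvd hj m
  have hnd : ¬ lin z ∣ U ^ μ * MvPolynomial.bind₁ Ψ B := by
    intro hh
    rcases hpz.dvd_or_dvd hh with h1 | h1
    · exact hU (hpz.dvd_of_dvd_pow h1)
    · exact hbB h1
  exact arith m e e' μ he hee (le_of_dvd hpz hnd hmain)

end Pool.Agent.N715.AD

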