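import Mathlib
import Pool.Agent.N715.AD.Stm3
import Pool.Agent.N715.AD.Mul

/-!
Project AD, third part: local degrees are multiplicative (DML).  By helper323.
-/

set_option autoImplicit false

namespace Pool.Agent.N715.AD

namespace Dml

open MvPolynomial

theorem bind_lin {k : Type} [Field k] (Ψ : Fin (1 + 1) → MvPolynomial (Fin (1 + 1)) k)
    (y : Fin (1 + 1) → k) : MvPolynomial.bind₁ Ψ (lin y) =
      MvPolynomial.C (y 1) * Ψ 0 - MvPolynomial.C (y 0) * Ψ 1 := by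
  simp [lin, MvPolynomial.bind₁_X_right, MvPolynomial.bind₁_C_right]

theorem bind_lin_hom {k : Type} [Field k] (Ψ : Fin (1 + 1) → MvPolynomial (Fin (1 + 1)) k)
    (D : ℕ) (hΨ : ∀ i, (Ψ i).IsHomogeneous D) (y : Fin (1 + 1) → k) :
    (MvPolynomial.bind₁ Ψ (lin y)).IsHomogeneous D := by
  rw [bind_lin]
  have h : ∀ (c : k) (i : Fin (1 + 1)), (MvPolynomial.C c * Ψ i).IsHomogeneous D := by
    intro c i
    have := (MvPolynomial.isHomogeneous_C (Fin (1 + 1)) c).mul (hΨ i)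
    rwa [zero_add] at this
  exact (h _ _).sub (h _ _)

/-- the exact cofactor -/
theorem cof {R : Type} [CommRing R] [IsDomain R] {p A : R} {e : ℕ}
    (h1 : p ^ e ∣ A) (h2 : ¬ p ^ (e + 1) ∣ A) : ∃ U, A = p ^ e * U ∧ ¬ p ∣ U := by
  obtain ⟨U, hU⟩ := h1
  refine ⟨U, hU, fun ⟨W, hW⟩ => h2 ⟨W, ?_⟩⟩
  rw [hU, hW, pow_succ]
  ring

end Dml

open MulAux Dml in
/-- (DML) -/
theorem dmlLem (h1 : BinLem) (h2 : ChrLem) (h3 : ItfLem) : DmlLem := by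
  intro k _ _ q Φ hΦ hq hNZ a b e₁ e₂ z hz hd1 hd2
  obtain ⟨b1, b2, -, -, b5, b6⟩ := h1
  obtain ⟨i1, -, i3, -, i5, -⟩ := h3
  obtain ⟨w, hw⟩ : ∃ w, w = pt (itF Φ b) z := ⟨_, rfl⟩
  obtain ⟨y, hy⟩ : ∃ y, y = pt (itF Φ a) w := ⟨_, rfl⟩
  have hw0 : w ≠ 0 := by
    rw [hw]
    exact fun h0 => hz (i5 k Φ q hΦ hNZ b z h0)
  have hyab : pt (itF Φ (a + b)) z = y := by
    rw [hy, hw, i3, i3, i3, Function.iterate_add_apply]
  have hpz : Prime (lin z) := b2 k z hz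
  have hpw : Prime (lin w) := b2 k w hw0
  unfold Deg Ord at hd1 hd2 ⊢
  rw [← hw] at hd1 hd2
  rw [← hy] at hd1
  rw [hyab]
  obtain ⟨U, hU, hU'⟩ := cof hd1.1 hd1.2
  obtain ⟨V, hV, hV'⟩ := cof hd2.1 hd2.2
  have hQ0 : MvPolynomial.bind₁ (itF Φ a) (lin y) ≠ 0 := by
    intro h0
    apply hd1.2
    rw [h0]
    exact dvd_zero _
  have hQh := bind_lin_hom (itF Φ a) (q ^ a) (i1 k Φ q hΦ a) y
  obtain ⟨dU, hUh⟩ := b6 k _ U _ hQ0 hQh ⟨lin w ^ e₁, by rw [hU]; ring⟩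
  have hUw : MvPolynomial.eval w U ≠ 0 := fun h0 => hU' (b1 k w U dU hw0 hUh h0)
  have hbU : ¬ lin z ∣ MvPolynomial.bind₁ (itF Φ b) U := by
    rintro ⟨W, hW⟩
    apply hUw
    rw [hw, ← eval_bind, hW, map_mul, eval_lin_self, zero_mul]
  have hcomp : MvPolynomial.bind₁ (itF Φ (a + b)) (lin y) =
      MvPolynomial.bind₁ (itF Φ b) (MvPolynomial.bind₁ (itF Φ a) (lin y)) := by
    rw [MvPolynomial.bind₁_bind₁]
    congr 2
    funext i
    exact h2.2 k Φ a b i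
  have hmain : MvPolynomial.bind₁ (itF Φ (a + b)) (lin y) =
      lin z ^ (e₁ * e₂) * (V ^ e₁ * MvPolynomial.bind₁ (itF Φ b) U) := by
    rw [hcomp, hU, map_mul, map_pow, hV, mul_pow, ← pow_mul, mul_comm e₂, mul_assoc]
  have hnd : ¬ lin z ∣ V ^ e₁ * MvPolynomial.bind₁ (itF Φ b) U := by
    intro hh
    rcases hpz.dvd_or_dvd hh with h | h
    · exact hV' (hpz.dvd_of_dvd_pow h)
    · exact hbU h
  rw [hmain]
  refine ⟨Dvd.intro _ rfl, fun h => ?_⟩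
  have := le_of_dvd hpz hnd h
  omega

end Pool.Agent.N715.AD
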