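import Pool.Agent.N715.AD.Stm

/-!
Project AD (helper715), part FRM (helper263): the invariant form has no denominator.
-/

set_option autoImplicit false

namespace Pool.Agent.N715.AD

open MvPolynomial

namespace Frm

variable {k : Type} [Field k]

lemma eval_bind (Φ : Fin (1 + 1) → MvPolynomial (Fin (1 + 1)) k)
    (z : Fin (1 + 1) → k) (p : MvPolynomial (Fin (1 + 1)) k) :
    eval z (bind₁ Φ p) = eval (pt Φ z) p := by
  induction p using MvPolynomial.induction_on with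
  | C a => simp
  | add p q hp hq => rw [map_add, map_add, map_add, hp, hq]
  | mul_X p i hp => rw [map_mul, map_mul, map_mul, hp, bind₁_X_right, eval_X]; rfl

lemma homog_bind {D : ℕ} {Φ : Fin (1 + 1) → MvPolynomial (Fin (1 + 1)) k}
    (hΦ : ∀ i, (Φ i).IsHomogeneous D) {p : MvPolynomial (Fin (1 + 1)) k} {d : ℕ}
    (hp : p.IsHomogeneous d) : (bind₁ Φ p).IsHomogeneous (D * d) :=
  hp.aeval Φ hΦ

end Frm

open Frm in
theorem frmLem (h : BinLem) : FrmLem := by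
  intro k _ _ D Φ hΦ hD hNZ N m A₁ A₂ c hA₁ hA₂ hh₁ hh₂ hc heq
  obtain ⟨b1, b2, b3, _, b5, b6⟩ := h
  obtain ⟨B₁, B₂, d, hrel, hd1, hd2⟩ := UniqueFactorizationMonoid.exists_reduced_factors A₁ hA₁ A₂
  have hd0 : d ≠ 0 := by rintro rfl; rw [zero_mul] at hd1; exact hA₁ hd1.symm
  have hB₁ : B₁ ≠ 0 := by rintro rfl; rw [mul_zero] at hd1; exact hA₁ hd1.symm
  have hB₂ : B₂ ≠ 0 := by rintro rfl; rw [mul_zero] at hd2; exact hA₂ hd2.symm
  obtain ⟨e, he⟩ := b6 k A₁ d _ hA₁ hh₁ ⟨B₁, hd1.symm⟩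
  obtain ⟨e₁, he₁⟩ := b6 k A₁ B₁ _ hA₁ hh₁ ⟨d, by rw [mul_comm]; exact hd1.symm⟩
  obtain ⟨e₂, he₂⟩ := b6 k A₂ B₂ _ hA₂ hh₂ ⟨d, by rw [mul_comm]; exact hd2.symm⟩
  have hdeg₁ : N + 2 * m = e + e₁ := by
    have h1 : A₁.IsHomogeneous (e + e₁) := by rw [← hd1]; exact he.mul he₁
    exact hh₁.inj_right h1 hA₁
  have hdeg₂ : N = e + e₂ := by
    have h1 : A₂.IsHomogeneous (e + e₂) := by rw [← hd2]; exact he.mul he₂
    exact hh₂.inj_right h1 hA₂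
  have hbd : bind₁ Φ d ≠ 0 := fun h0 => hd0 (b5 k D Φ hΦ (by omega) hNZ d e he h0)
  have hbB₁ : bind₁ Φ B₁ ≠ 0 := fun h0 => hB₁ (b5 k D Φ hΦ (by omega) hNZ B₁ e₁ he₁ h0)
  have hbB₂ : bind₁ Φ B₂ ≠ 0 := fun h0 => hB₂ (b5 k D Φ hΦ (by omega) hNZ B₂ e₂ he₂ h0)
  have key : bind₁ Φ B₁ * B₂ = C c * B₁ * bind₁ Φ B₂ * jac Φ ^ m := by
    rw [← hd1, ← hd2, map_mul, map_mul] at heq
    have h1 : (d * bind₁ Φ d) * (bind₁ Φ B₁ * B₂) =
        (d * bind₁ Φ d) * (C c * B₁ * bind₁ Φ B₂ * jac Φ ^ m) := by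
      linear_combination heq
    exact mul_left_cancel₀ (mul_ne_zero hd0 hbd) h1
  have hrel2 : IsRelPrime (bind₁ Φ B₂) (bind₁ Φ B₁) := by
    rw [UniqueFactorizationMonoid.isRelPrime_iff_no_prime_factors hbB₂]
    intro q hq2 hq1 hqp
    obtain ⟨f, hf⟩ := b6 k _ q _ hbB₁ (homog_bind hΦ he₁) hq1
    have hf1 : 1 ≤ f := by
      by_contra hlt
      have hf0 : f = 0 := by omega
      have h1 : q.totalDegree = 0 := by rw [hf.totalDegree hqp.ne_zero, hf0]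
      rw [totalDegree_eq_zero_iff_eq_C] at h1
      have h2 : coeff 0 q ≠ 0 := by
        intro h3
        rw [h3, C_0] at h1
        exact hqp.ne_zero h1
      apply hqp.not_isUnit
      rw [h1]
      exact (IsUnit.mk0 _ h2).map C
    obtain ⟨z, hz0, hz⟩ := b3 k q f hf1 hf
    have hy0 : pt Φ z ≠ 0 := fun h0 => hz0 (hNZ z h0)
    have hv1 : eval (pt Φ z) B₁ = 0 := by
      rw [← eval_bind]
      obtain ⟨r, hr⟩ := hq1
      rw [hr, map_mul, hz, zero_mul]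
    have hv2 : eval (pt Φ z) B₂ = 0 := by
      rw [← eval_bind]
      obtain ⟨r, hr⟩ := hq2
      rw [hr, map_mul, hz, zero_mul]
    exact (b2 k (pt Φ z) hy0).not_isUnit (hrel (b1 k _ B₁ e₁ hy0 he₁ hv1) (b1 k _ B₂ e₂ hy0 he₂ hv2))
  have hdvd : bind₁ Φ B₂ ∣ B₂ := by
    have h1 : bind₁ Φ B₂ ∣ bind₁ Φ B₁ * B₂ := by
      rw [key]
      exact ⟨C c * B₁ * jac Φ ^ m, by ring⟩
    exact hrel2.dvd_of_dvd_mul_left h1
  obtain ⟨q, hq⟩ := hdvd
  have hq0 : q ≠ 0 := by rintro rfl; rw [mul_zero] at hq; exact hB₂ hq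
  have he20 : e₂ = 0 := by
    have h1 := congrArg totalDegree hq
    rw [totalDegree_mul_of_isDomain hbB₂ hq0, he₂.totalDegree hB₂,
      (homog_bind hΦ he₂).totalDegree hbB₂] at h1
    nlinarith
  have hC : B₂ = C (coeff 0 B₂) := by
    rw [← totalDegree_eq_zero_iff_eq_C, he₂.totalDegree hB₂, he20]
  refine ⟨B₁, hB₁, ?_, ?_⟩
  · have h1 : e₁ = 2 * m := by omega
    rw [← h1]
    exact he₁
  · have h1 : B₂ * bind₁ Φ B₁ = B₂ * (C c * B₁ * jac Φ ^ m) := by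
      have h2 : bind₁ Φ B₂ = B₂ := by
        rw [hC]
        simp
      rw [h2] at key
      linear_combination key
    exact mul_left_cancel₀ hB₂ h1

end Pool.Agent.N715.AD
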