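import Pool.Agent.N715.AD.Stm

/-!
# Project AD, part GAU: the lemma of Gauss over a valuation ring (helper803)
-/

set_option autoImplicit false
set_option linter.all false

namespace Pool.Agent.N715.AD

open Polynomial

namespace Gau

/-- polynomials in two variables with coefficients in `A` -/
theorem exists_lift {W : Type} [Field W] (A : ValuationSubring W) (h : W[X][X])
    (hA : ∀ i j, (h.coeff i).coeff j ∈ A) :
    ∃ h' : A[X][X], h'.map (mapRingHom A.subtype) = h := by
  have h1 : h ∈ lifts (mapRingHom A.subtype) := by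
    rw [lifts_iff_coeff_lifts]
    intro i
    have h2 : h.coeff i ∈ lifts A.subtype := by
      rw [lifts_iff_coeff_lifts]
      intro j
      exact ⟨⟨_, hA i j⟩, rfl⟩
    obtain ⟨q, hq⟩ := (mem_lifts _).1 h2
    exact ⟨q, hq⟩
  exact (mem_lifts _).1 h1

theorem inj2 {W : Type} [Field W] (A : ValuationSubring W) :
    Function.Injective (fun q : A[X][X] => q.map (mapRingHom A.subtype)) :=
  map_injective _ (map_injective _ A.subtype_injective)

theorem exists_norm {W : Type} [Field W] (A : ValuationSubring W) (h : W[X][X]) (h0 : h ≠ 0) :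
    ∃ (c : W) (h1 : A[X][X]), c ≠ 0 ∧ h = C (C c) * h1.map (mapRingHom A.subtype) ∧
      h1.map (mapRingHom (red A)) ≠ 0 := by
  classical
  -- the indices of the nonzero coefficients
  let T : Finset (ℕ × ℕ) := h.support.biUnion fun i => (h.coeff i).support.image fun j => (i, j)
  have hT : ∀ i j, (i, j) ∈ T ↔ (h.coeff i).coeff j ≠ 0 := by
    intro i j
    simp only [T, Finset.mem_biUnion, Finset.mem_image, Prod.mk.injEq, mem_support_iff]
    constructor
    · rintro ⟨a, ha, b, hb, rfl, rfl⟩
      exact hb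
    · intro hij
      refine ⟨i, ?_, j, hij, rfl, rfl⟩
      intro h2
      rw [h2, coeff_zero] at hij
      exact hij rfl
  obtain ⟨i0, hi0⟩ : ∃ i, h.coeff i ≠ 0 := by
    by_contra hcon
    push Not at hcon
    exact h0 (Polynomial.ext (by simpa using hcon))
  obtain ⟨j0, hj0⟩ : ∃ j, (h.coeff i0).coeff j ≠ 0 := by
    by_contra hcon
    push Not at hcon
    exact hi0 (Polynomial.ext (by simpa using hcon))
  obtain ⟨⟨i, j⟩, hij, hmax⟩ := Finset.exists_max_image T
    (fun q => A.valuation ((h.coeff q.1).coeff q.2)) ⟨(i0, j0), (hT _ _).2 hj0⟩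
  have hc : (h.coeff i).coeff j ≠ 0 := (hT i j).1 hij
  set c := (h.coeff i).coeff j with hcdef
  have hval : ∀ a b, A.valuation ((h.coeff a).coeff b) ≤ A.valuation c := by
    intro a b
    by_cases hab : (h.coeff a).coeff b = 0
    · rw [hab, map_zero]; exact zero_le'
    · exact hmax (a, b) ((hT a b).2 hab)
  have hcv : 0 < A.valuation c := zero_lt_iff.2 ((Valuation.ne_zero_iff _).2 hc)
  obtain ⟨h1, hh1⟩ := exists_lift A (C (C c⁻¹) * h) (by
    intro a b
    rw [coeff_C_mul, coeff_C_mul, ← A.valuation_le_one_iff, map_mul, map_inv₀]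
    exact (inv_mul_le_one₀ hcv).2 (hval a b))
  refine ⟨c, h1, hc, ?_, ?_⟩
  · rw [hh1, ← mul_assoc, ← C_mul, ← C_mul, mul_inv_cancel₀ hc]
    simp
  · intro h2
    have h3 : ((h1.coeff i).coeff j : W) = 1 := by
      have := congrArg (fun q : W[X][X] => (q.coeff i).coeff j) hh1
      simp only [coeff_map, coe_mapRingHom, coeff_C_mul] at this
      rw [← hcdef, inv_mul_cancel₀ hc] at this
      exact this
    have h4 : (h1.coeff i).coeff j = 1 := Subtype.ext h3
    have h5 := congrArg (fun q : (rf A)[X][X] => (q.coeff i).coeff j) h2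
    simp only [coeff_map, coe_mapRingHom, coeff_zero, h4, map_one] at h5
    exact one_ne_zero h5

end Gau

open Gau in
theorem gauLem : GauLem := by
  intro W _ A g N h hg hN
  by_cases h0 : h = 0
  · refine ⟨0, ?_⟩
    apply inj2 A
    simp only [mul_zero]
    rw [hN, h0, mul_zero, Polynomial.map_zero]
  obtain ⟨c, h1, hc, hh, hr⟩ := exists_norm A h h0
  by_cases hcA : c ∈ A
  · refine ⟨C (C ⟨c, hcA⟩) * h1, ?_⟩
    apply inj2 A
    simp only [Polynomial.map_mul]
    rw [hN, hh]
    congr 2
    simp [map_C]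
  · exfalso
    have hci : c⁻¹ ∈ A := (A.mem_or_inv_mem c).resolve_left hcA
    have hred : red A ⟨c⁻¹, hci⟩ = 0 := by
      rw [IsLocalRing.residue_eq_zero_iff]
      rw [IsLocalRing.mem_maximalIdeal, mem_nonunits_iff]
      intro hu
      obtain ⟨u, hu⟩ := hu
      apply hcA
      have h2 : ((u⁻¹ : Aˣ) : A).1 = c := by
        have h3 : ((u : A) : W) * (((u⁻¹ : Aˣ) : A) : W) = 1 :=
          congrArg (fun x : A => (x : W)) (Units.mul_inv u)
        rw [hu] at h3
        have h4 : c⁻¹ * (((u⁻¹ : Aˣ) : A) : W) = 1 := h3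
        have h5 : c * (c⁻¹ * (((u⁻¹ : Aˣ) : A) : W)) = c := by rw [h4, mul_one]
        rw [← mul_assoc, mul_inv_cancel₀ hc, one_mul] at h5
        exact h5
      rw [← h2]
      exact ((u⁻¹ : Aˣ) : A).2
    have h2 : C (C (⟨c⁻¹, hci⟩ : A)) * N = g * h1 := by
      apply inj2 A
      simp only [Polynomial.map_mul]
      rw [hN, hh, mul_left_comm, ← mul_assoc (Polynomial.map _ (C (C _)))]
      have h3 : (C (C (⟨c⁻¹, hci⟩ : A))).map (mapRingHom A.subtype) * C (C c) = 1 := by
        rw [map_C, coe_mapRingHom, map_C, ← C_mul, ← C_mul]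
        have : A.subtype ⟨c⁻¹, hci⟩ * c = 1 := inv_mul_cancel₀ hc
        rw [this]
        simp
      rw [h3, one_mul]
    have h3 := congrArg (fun q : A[X][X] => q.map (mapRingHom (red A))) h2
    simp only [Polynomial.map_mul, map_C, coe_mapRingHom, hred, C_0, map_zero, zero_mul] at h3
    rcases mul_eq_zero.1 h3.symm with h4 | h4
    · exact hg h4
    · exact hr h4

end Pool.Agent.N715.AD
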