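import Pool.Agent.N715.AD.Stm

/-!
Project AD (helper715): no common zero modulo `P` (helper717).
-/

set_option autoImplicit false

namespace Pool.Agent.N715.AD

open NumberField
open Pool.Agent.H627.LR (GoodK IC)

namespace Gnz

theorem lift {K : Type} [Field K] [NumberField K] (p : MvPolynomial (Fin (1 + 1)) K) (h : IC p) :
    ∃ p0 : MvPolynomial (Fin (1 + 1)) (𝓞 K), p = MvPolynomial.map (algebraMap (𝓞 K) K) p0 := by
  choose c hc using h
  refine ⟨∑ m ∈ p.support, MvPolynomial.monomial m (c m), ?_⟩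
  rw [map_sum]
  conv_lhs => rw [p.as_sum]
  refine Finset.sum_congr rfl fun m _ => ?_
  rw [MvPolynomial.map_monomial, hc]

end Gnz

theorem gnzLem : GnzLem := by
  intro K _ _ P _ q F G hFG hgood k _ χ hχ z hz
  obtain ⟨n, b, U, hb, hU, hred⟩ := hgood.red
  choose U0 hU0 using fun j i => Gnz.lift (U j i) (hU j i)
  have hinj : Function.Injective (MvPolynomial.map (σ := Fin (1 + 1)) (algebraMap (𝓞 K) K)) :=
    MvPolynomial.map_injective _ (FaithfulSMul.algebraMap_injective (𝓞 K) K)
  have h1 : ∀ j, MvPolynomial.C b * MvPolynomial.X j ^ n = ∑ i, U0 j i * G i := by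
    intro j
    apply hinj
    rw [map_mul, map_pow, MvPolynomial.map_C, MvPolynomial.map_X, map_sum]
    refine (hred j).trans ?_
    refine Finset.sum_congr rfl fun i _ => ?_
    rw [map_mul, ← hU0, ← hFG]
  have hχb : χ b ≠ 0 := fun h => hb ((hχ b).1 h)
  have h2 : ∀ j, χ b * z j ^ n = 0 := by
    intro j
    have h3 := congrArg (fun p => MvPolynomial.eval z (MvPolynomial.map χ p)) (h1 j)
    simp only [map_mul, map_pow, MvPolynomial.map_C, MvPolynomial.map_X, map_sum,
      MvPolynomial.eval_C, MvPolynomial.eval_X] at h3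
    rw [h3]
    refine Finset.sum_eq_zero fun i _ => ?_
    have h4 : MvPolynomial.eval z (MvPolynomial.map χ (G i)) = 0 := congrFun hz i
    rw [h4, mul_zero]
  funext j
  have h3 := (mul_eq_zero.1 (h2 j)).resolve_left hχb
  have h5 : z j = 0 := by
    have hn : n ≠ 0 := by
      intro h
      rw [h, pow_zero] at h3
      exact one_ne_zero h3
    exact (pow_eq_zero_iff hn).1 h3
  exact h5

end Pool.Agent.N715.AD
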