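import Pool.Agent.N715.AD.Stm

/-!
# AD/HOM: homogenisation of the invariant differential
-/

set_option autoImplicit false
set_option linter.unusedSectionVars false

namespace Pool.Agent.N715.AD
open Polynomial
namespace HomA

noncomputable section

variable {k : Type} [Field k]

/-- the form of degree `N` with dehomogenisation `C` -/
def frm (N : ℕ) (C : k[X]) : MvPolynomial (Fin (1 + 1)) k :=
  ∑ i ∈ Finset.range (N + 1), MvPolynomial.C (C.coeff i) * MvPolynomial.X 0 ^ i *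
    MvPolynomial.X 1 ^ (N - i)

theorem frm_hom (N : ℕ) (C : k[X]) : (frm N C).IsHomogeneous N := by
  unfold frm
  refine MvPolynomial.IsHomogeneous.sum _ _ _ fun i hi => ?_
  rw [Finset.mem_range] at hi
  have h1 := ((MvPolynomial.isHomogeneous_C (Fin (1 + 1)) (C.coeff i)).mul
    (MvPolynomial.isHomogeneous_X_pow (R := k) (0 : Fin (1 + 1)) i)).mul
    (MvPolynomial.isHomogeneous_X_pow (R := k) (1 : Fin (1 + 1)) (N - i))
  have e : 0 + i + (N - i) = N := by omega
  rw [e] at h1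
  exact h1

theorem aeval_frm (N : ℕ) (C f g : k[X]) :
    MvPolynomial.aeval ![f, g] (frm N C) = hom1 N f g C := by
  unfold frm hom1
  rw [map_sum]
  refine Finset.sum_congr rfl fun i _ => ?_
  rw [map_mul, map_mul, map_pow, map_pow, MvPolynomial.aeval_C, MvPolynomial.aeval_X,
    MvPolynomial.aeval_X]
  rfl

theorem dz_frm {N : ℕ} {C : k[X]} (h : C.natDegree ≤ N) : dz (frm N C) = C := by
  unfold dz
  rw [aeval_frm]
  unfold hom1
  conv_rhs => rw [C.as_sum_range' (N + 1) (by omega)]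
  refine Finset.sum_congr rfl fun i _ => ?_
  rw [one_pow, mul_one, Polynomial.C_mul_X_pow_eq_monomial]

theorem dz_mul (p q : MvPolynomial (Fin (1 + 1)) k) : dz (p * q) = dz p * dz q := map_mul _ _ _

theorem dz_bind (Φ : Fin (1 + 1) → MvPolynomial (Fin (1 + 1)) k)
    (p : MvPolynomial (Fin (1 + 1)) k) :
    dz (MvPolynomial.bind₁ Φ p) = MvPolynomial.aeval ![dz (Φ 0), dz (Φ 1)] p := by
  unfold dz
  rw [MvPolynomial.aeval_bind₁]
  congr 2
  funext i
  fin_cases i <;> rfl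

theorem hom1_add {N r : ℕ} {C : k[X]} (h : C.natDegree ≤ N) (f g : k[X]) :
    hom1 (N + r) f g C = g ^ r * hom1 N f g C := by
  unfold hom1
  rw [Finset.mul_sum]
  have h1 : Finset.range (N + 1) ⊆ Finset.range (N + r + 1) := by
    intro i hi
    rw [Finset.mem_range] at hi ⊢
    omega
  rw [← Finset.sum_subset h1]
  · refine Finset.sum_congr rfl fun i hi => ?_
    rw [Finset.mem_range] at hi
    rw [show N + r - i = (N - i) + r by omega, pow_add]
    ring
  · intro i _ hi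
    rw [Finset.mem_range] at hi
    rw [Polynomial.coeff_eq_zero_of_natDegree_lt (by omega)]
    simp

theorem dz_coeff {n : ℕ} {p : MvPolynomial (Fin (1 + 1)) k} (hp : p.IsHomogeneous n)
    (d : Fin (1 + 1) →₀ ℕ) (hd : d ∈ p.support) : (dz p).coeff (d 0) = p.coeff d := by
  unfold dz
  rw [MvPolynomial.aeval_def, MvPolynomial.eval₂_eq', Polynomial.finsetSum_coeff]
  rw [Finset.sum_eq_single d]
  · rw [Fin.prod_univ_two]
    simp [Polynomial.coeff_C_mul, Polynomial.coeff_X_pow]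
  · intro e he hne
    rw [Fin.prod_univ_two]
    have h0 : e 0 ≠ d 0 := by
      intro h
      apply hne
      have h1 := hp (MvPolynomial.mem_support_iff.1 he)
      have h2 := hp (MvPolynomial.mem_support_iff.1 hd)
      rw [Finsupp.weight_apply, Finsupp.sum_fintype _ _ (by simp), Fin.sum_univ_two] at h1 h2
      simp only [Pi.one_apply, smul_eq_mul, mul_one] at h1 h2
      ext i
      fin_cases i
      · exact h
      · change e 1 = d 1
        have h3 : e 0 + e 1 = n := h1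
        have h4 : d 0 + d 1 = n := h2
        omega
    simp [Polynomial.coeff_C_mul, Polynomial.coeff_X_pow, h0.symm]
  · intro h
    exact absurd hd h

theorem eq_zero_of_dz {n : ℕ} {p : MvPolynomial (Fin (1 + 1)) k} (hp : p.IsHomogeneous n)
    (h : dz p = 0) : p = 0 := by
  by_contra hne
  obtain ⟨d, hd⟩ := MvPolynomial.support_nonempty.2 hne
  have h1 := dz_coeff hp d hd
  rw [h, Polynomial.coeff_zero] at h1
  exact MvPolynomial.mem_support_iff.1 hd h1.symm

theorem dz_inj {n : ℕ} {p q : MvPolynomial (Fin (1 + 1)) k} (hp : p.IsHomogeneous n)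
    (hq : q.IsHomogeneous n) (h : dz p = dz q) : p = q := by
  rw [← sub_eq_zero]
  refine eq_zero_of_dz (hp.sub hq) ?_
  have : dz (p - q) = dz p - dz q := map_sub _ _ _
  rw [this, h, sub_self]

theorem dz_pderiv (p : MvPolynomial (Fin (1 + 1)) k) :
    dz (MvPolynomial.pderiv 0 p) = derivative (dz p) := by
  unfold dz
  induction p using MvPolynomial.induction_on with
  | C a => simp
  | add p q hp hq => rw [map_add, map_add, map_add, hp, hq, map_add]
  | mul_X p i hp =>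
    rw [MvPolynomial.pderiv_mul, map_add, map_mul, map_mul, hp, map_mul, Polynomial.derivative_mul,
      MvPolynomial.aeval_X]
    congr 2
    fin_cases i
    · simp
    · simp

theorem dz_pderiv1 {D : ℕ} {p : MvPolynomial (Fin (1 + 1)) k} (hp : p.IsHomogeneous D) :
    dz (MvPolynomial.pderiv 1 p) = (D : k[X]) * dz p - X * derivative (dz p) := by
  have h1 := hp.sum_X_mul_pderiv
  rw [Fin.sum_univ_two] at h1
  have h2 := congrArg dz h1
  have h3 : dz (MvPolynomial.X 0 * MvPolynomial.pderiv 0 p + MvPolynomial.X 1 *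
      MvPolynomial.pderiv 1 p) = X * dz (MvPolynomial.pderiv 0 p) +
      dz (MvPolynomial.pderiv 1 p) := by
    unfold dz
    rw [map_add, map_mul, map_mul, MvPolynomial.aeval_X, MvPolynomial.aeval_X]
    simp
  have h4 : dz (D • p) = (D : k[X]) * dz p := by
    unfold dz
    rw [map_nsmul, nsmul_eq_mul]
  rw [h3, h4, dz_pderiv] at h2
  rw [← h2]
  ring

theorem dz_jac {D : ℕ} {Φ : Fin (1 + 1) → MvPolynomial (Fin (1 + 1)) k}
    (hΦ : ∀ i, (Φ i).IsHomogeneous D) : dz (jac Φ) = (D : k[X]) *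
      (derivative (dz (Φ 0)) * dz (Φ 1) - dz (Φ 0) * derivative (dz (Φ 1))) := by
  have h1 : dz (jac Φ) = dz (MvPolynomial.pderiv 0 (Φ 0)) * dz (MvPolynomial.pderiv 1 (Φ 1)) -
      dz (MvPolynomial.pderiv 1 (Φ 0)) * dz (MvPolynomial.pderiv 0 (Φ 1)) := by
    unfold jac dz
    rw [map_sub, map_mul, map_mul]
  rw [h1, dz_pderiv, dz_pderiv, dz_pderiv1 (hΦ 0), dz_pderiv1 (hΦ 1)]
  ring

theorem jac_hom {D : ℕ} {Φ : Fin (1 + 1) → MvPolynomial (Fin (1 + 1)) k}
    (hΦ : ∀ i, (Φ i).IsHomogeneous D) : (jac Φ).IsHomogeneous ((D - 1) + (D - 1)) :=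
  (((hΦ 0).pderiv).mul ((hΦ 1).pderiv)).sub (((hΦ 0).pderiv).mul ((hΦ 1).pderiv))

end

end HomA

open HomA in
theorem homLem : HomLem := by
  intro k _ D Φ hΦ hD hDk N m C₁ C₂ h1 h2 hN1 hN2 heq
  have hDm : (D : k) ^ m ≠ 0 := pow_ne_zero _ hDk
  have d1 : dz (frm (N + 2 * m) C₁) = C₁ := dz_frm (by omega)
  have d2 : dz (frm N C₂) = C₂ := dz_frm hN2
  have n1 : frm (N + 2 * m) C₁ ≠ 0 := by
    intro h
    rw [h] at d1
    exact h1 (by rw [← d1]; exact map_zero _)
  have n2 : frm N C₂ ≠ 0 := by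
    intro h
    rw [h] at d2
    exact h2 (by rw [← d2]; exact map_zero _)
  refine ⟨frm (N + 2 * m) C₁, frm N C₂, ((D : k) ^ m)⁻¹, n1, n2, frm_hom _ _, frm_hom _ _,
    inv_ne_zero hDm, ?_⟩
  have g1 : (MvPolynomial.bind₁ Φ (frm (N + 2 * m) C₁) * frm N C₂).IsHomogeneous
      (D * (N + 2 * m) + N) :=
    ((frm_hom (N + 2 * m) C₁).aeval Φ hΦ).mul (frm_hom N C₂)
  have g2 : (MvPolynomial.C ((D : k) ^ m)⁻¹ * frm (N + 2 * m) C₁ *
      MvPolynomial.bind₁ Φ (frm N C₂) * jac Φ ^ m).IsHomogeneous (D * (N + 2 * m) + N) := by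
    have g3 := ((((MvPolynomial.isHomogeneous_C (Fin (1 + 1)) ((D : k) ^ m)⁻¹).mul
      (frm_hom (N + 2 * m) C₁)).mul ((frm_hom N C₂).aeval Φ hΦ)).mul ((jac_hom hΦ).pow m))
    have e : 0 + (N + 2 * m) + D * N + (D - 1 + (D - 1)) * m = D * (N + 2 * m) + N := by
      obtain ⟨D', rfl⟩ : ∃ D', D = D' + 1 := ⟨D - 1, by omega⟩
      simp only [Nat.add_sub_cancel]
      ring
    rw [e] at g3
    exact g3
  refine dz_inj g1 g2 ?_
  rw [dz_mul, dz_mul, dz_mul, dz_mul, dz_bind, dz_bind, aeval_frm, aeval_frm, d1, d2,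
    hom1_add hN1]
  have e1 : dz (jac Φ ^ m) = ((D : k[X]) *
      (derivative (dz (Φ 0)) * dz (Φ 1) - dz (Φ 0) * derivative (dz (Φ 1)))) ^ m := by
    rw [← dz_jac hΦ]
    exact map_pow _ _ _
  have e2 : dz (MvPolynomial.C ((D : k) ^ m)⁻¹ : MvPolynomial (Fin (1 + 1)) k) =
      Polynomial.C ((D : k) ^ m)⁻¹ := by
    unfold dz
    rw [MvPolynomial.aeval_C]
    rfl
  have e3 : Polynomial.C ((D : k) ^ m)⁻¹ * (D : k[X]) ^ m = 1 := by
    have : (D : k[X]) ^ m = Polynomial.C ((D : k) ^ m) := by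
      rw [Polynomial.C_pow, Polynomial.C_eq_natCast]
    rw [this, ← Polynomial.C_mul, inv_mul_cancel₀ hDm, Polynomial.C_1]
  rw [e1, e2, mul_pow]
  calc dz (Φ 1) ^ (2 * m) * hom1 N (dz (Φ 0)) (dz (Φ 1)) C₁ * C₂
      = hom1 N (dz (Φ 0)) (dz (Φ 1)) C₁ * C₂ * (dz (Φ 1)) ^ (2 * m) := by ring
    _ = C₁ * hom1 N (dz (Φ 0)) (dz (Φ 1)) C₂ *
        (derivative (dz (Φ 0)) * dz (Φ 1) - dz (Φ 0) * derivative (dz (Φ 1))) ^ m := heq
    _ = (Polynomial.C ((D : k) ^ m)⁻¹ * (D : k[X]) ^ m) * (C₁ * hom1 N (dz (Φ 0)) (dz (Φ 1)) C₂ *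
        (derivative (dz (Φ 0)) * dz (Φ 1) - dz (Φ 0) * derivative (dz (Φ 1))) ^ m) := by
        rw [e3, one_mul]
    _ = _ := by ring

end Pool.Agent.N715.AD
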