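import Pool.Agent.N715.AD.Stm

/-!
Project AD, part INF: the infinitesimal structure of an invariant curve which degenerates to the
diagonal.
-/

set_option autoImplicit false

namespace Pool.Agent.N715.AD

open Polynomial

noncomputable section

namespace Inf

/-! ### valuation rings -/

theorem exists_root {W : Type} [Field W] [IsAlgClosed W] (A : ValuationSubring W) (n : ℕ)
    (hn : 0 < n) (a : A) : ∃ l : A, l ^ n = a := by
  obtain ⟨z, hz⟩ := IsAlgClosed.exists_pow_nat_eq (a : W) hn
  have hzA : z ∈ A := by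
    rcases A.mem_or_inv_mem z with h | h
    · exact h
    · rcases eq_or_ne z 0 with h0 | h0
      · rw [h0]; exact A.zero_mem
      · have : z = z ^ n * (z⁻¹) ^ (n - 1) := by
          obtain ⟨k, rfl⟩ : ∃ k, n = k + 1 := ⟨n - 1, by omega⟩
          rw [Nat.add_sub_cancel, pow_succ, inv_pow]
          field_simp
        rw [this, hz]
        exact A.mul_mem _ _ a.2 (pow_mem h _)
  exact ⟨⟨z, hzA⟩, Subtype.ext (by simpa using hz)⟩

theorem exists_min {A : Type} [CommRing A] [IsDomain A] [ValuationRing A] {ι : Type}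
    (S : Finset ι) (hS : S.Nonempty) (φ : ι → A) : ∃ i ∈ S, ∀ j ∈ S, φ i ∣ φ j := by
  classical
  induction hS using Finset.Nonempty.cons_induction with
  | singleton a => exact ⟨a, by simp, by simp⟩
  | cons a s ha hs ih =>
    obtain ⟨i, hi, hij⟩ := ih
    rcases ValuationRing.dvd_total (φ i) (φ a) with h | h
    · refine ⟨i, by simp [hi], ?_⟩
      intro j hj
      rcases Finset.mem_cons.1 hj with rfl | hj
      · exact h
      · exact hij j hj
    · refine ⟨a, by simp, ?_⟩
      intro j hj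
      rcases Finset.mem_cons.1 hj with rfl | hj
      · exact dvd_rfl
      · exact h.trans (hij j hj)

/-! ### homogenisation -/

theorem hom1_C_mul {R : Type} [CommRing R] (N : ℕ) (f g p : R[X]) (a : R) :
    hom1 N f g (C a * p) = C a * hom1 N f g p := by
  unfold hom1
  rw [Finset.mul_sum]
  refine Finset.sum_congr rfl fun i _ => ?_
  rw [coeff_C_mul, C_mul]; ring

theorem hom1_map {R S : Type} [CommRing R] [CommRing S] (χ : R →+* S) (N : ℕ) (f g p : R[X]) :
    (hom1 N f g p).map χ = hom1 N (f.map χ) (g.map χ) (p.map χ) := by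
  unfold hom1
  simp [Polynomial.map_sum]

theorem hom1_ev {R : Type} [CommRing R] {F : Type} [Field F] (θ : R[X] →+* F) (N : ℕ)
    (f s p : R[X]) (x : F) (hx : θ f = x * θ s) (hp : p.natDegree ≤ N) :
    θ (hom1 N f s p) = θ s ^ N * p.eval₂ (θ.comp C) x := by
  unfold hom1
  rw [map_sum, eval₂_eq_sum_range' (θ.comp C) (Nat.lt_succ_of_le hp) x, Finset.mul_sum]
  refine Finset.sum_congr rfl fun i hi => ?_
  have hi' : i ≤ N := Nat.lt_succ_iff.1 (Finset.mem_range.1 hi)
  rw [map_mul, map_mul, map_pow, map_pow, hx, mul_pow]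
  have : θ s ^ N = θ s ^ i * θ s ^ (N - i) := by rw [← pow_add]; congr 1; omega
  rw [this, RingHom.comp_apply]; ring

/-! ### Taylor expansion -/

theorem natDegree_taylor_coeff {R : Type} [CommRing R] (b : ℕ) (g : R[X][X])
    (hg : g.natDegree ≤ b) (hx : XR b g) (j : ℕ) :
    ((taylor (X : R[X]) g).coeff j).natDegree ≤ 2 * b := by
  rw [taylor_coeff, eval_eq_sum_range' (n := b + 1)
    (Nat.lt_succ_of_le ((natDegree_hasseDeriv_le g j).trans (by omega)))]
  refine natDegree_sum_le_of_forall_le _ _ fun i hi => ?_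
  have hi' : i ≤ b := Nat.lt_succ_iff.1 (Finset.mem_range.1 hi)
  rw [hasseDeriv_coeff]
  refine natDegree_mul_le.trans ?_
  have h1 : ((X : R[X]) ^ i).natDegree ≤ i := natDegree_X_pow_le i
  have h2 : (((i + j).choose j : R[X]) * g.coeff (i + j)).natDegree ≤ b := by
    refine natDegree_mul_le.trans ?_
    have := hx (i + j)
    have h3 : (((i + j).choose j : ℕ) : R[X]).natDegree = 0 := natDegree_natCast _
    omega
  omega

theorem map_taylor' {R S : Type} [CommRing R] [CommRing S] (χ : R →+* S) (r : R) (g : R[X]) :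
    (taylor r g).map χ = taylor (χ r) (g.map χ) := by
  simp [taylor_apply, Polynomial.map_comp]

/-- the substitution -/
def sb {R : Type} [CommRing R] (l : R) : R[X][X] := C X + C (C l) * X

theorem comp_sb {R : Type} [CommRing R] (l : R) (g : R[X][X]) :
    g.comp (sb l) = (taylor (X : R[X]) g).comp (C (C l) * X) := by
  rw [taylor_apply, comp_assoc]
  congr 1
  simp [sb]
  ring

theorem coeff_comp_sb {R : Type} [CommRing R] (l : R) (g : R[X][X]) (j : ℕ) :
    (g.comp (sb l)).coeff j = (taylor (X : R[X]) g).coeff j * (C l) ^ j := by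
  rw [comp_sb, comp_C_mul_X_coeff]

/-- first order expansion -/
theorem first_order {R : Type} [CommRing R] (l : R) (p : R[X]) :
    ∃ r : R[X][X], (p.map C).comp (sb l) =
      C p + C (C l) * X * (C (derivative p) + C (C l) * r) := by
  have h := (p.map ((C : R[X] →+* R[X][X]).comp (C : R →+* R[X]))).binomExpansion
    (C X) (C (C l) * X)
  obtain ⟨k, hk⟩ := h
  refine ⟨k * X, ?_⟩
  have h1 : (p.map C).comp (sb l) =
      (p.map ((C : R[X] →+* R[X][X]).comp (C : R →+* R[X]))).eval (C X + C (C l) * X) := by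
    rw [comp, eval₂_map, eval_map, sb]
  have h2 : ∀ p : R[X], (p.map ((C : R[X] →+* R[X][X]).comp (C : R →+* R[X]))).eval (C X) =
      C p := by
    intro p
    rw [eval_map, ← hom_eval₂, eval₂_C_X]
  rw [h1, hk, h2, derivative_map, h2]
  ring

theorem comp_sb_ne_zero {R : Type} [CommRing R] (l : R) (p : R[X]) (hp : p ≠ 0) :
    (p.map C).comp (sb l) ≠ 0 := by
  intro h
  obtain ⟨r, hr⟩ := first_order l p
  rw [h] at hr
  have := congrArg (eval 0) hr
  simp at this
  exact hp this.symm

/-- the universal identity -/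
theorem key {R : Type} [CommRing R] [IsDomain R] (b : ℕ) (f s : R[X]) (g : R[X][X])
    (hg : g.natDegree ≤ b) (hx : XR b g) (hs : s ≠ 0) (l : R) :
    (C s) ^ (2 * b) * (hom2 b f s g).comp (sb l) =
      ∑ j ∈ Finset.range (b + 1), (C s * (s.map C).comp (sb l)) ^ (b - j) *
        C (hom1 (2 * b) f s ((taylor X g).coeff j)) *
        ((f.map C).comp (sb l) * C s - C f * (s.map C).comp (sb l)) ^ j := by
  set ι : R[X][X] →+* FractionRing R[X][X] := algebraMap _ _ with hι
  have hinj : Function.Injective ι := IsFractionRing.injective _ _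
  apply hinj
  set θ : R[X] →+* FractionRing R[X][X] := ι.comp C with hθ
  set x := θ f / θ s with hxdef
  set w0 := (f.map C).comp (sb l) with hw0
  set w1 := (s.map C).comp (sb l) with hw1
  set y := ι w0 / ι w1 with hydef
  have hθs : θ s ≠ 0 := by
    rw [hθ, RingHom.comp_apply]
    exact (map_ne_zero_iff ι hinj).2 (C_ne_zero.2 hs)
  have hw1' : ι w1 ≠ 0 := (map_ne_zero_iff ι hinj).2 (comp_sb_ne_zero l s hs)
  have hfx : θ f = x * θ s := by rw [hxdef]; field_simp
  have hw0y : ι w0 = y * ι w1 := by rw [hydef]; field_simp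
  have e1 : ι ((hom2 b f s g).comp (sb l)) =
      θ s ^ b * ι w1 ^ b * g.eval₂ (eval₂RingHom (θ.comp C) x) y := by
    unfold hom2
    rw [← coe_compRingHom_apply, map_sum, map_sum,
      eval₂_eq_sum_range' _ (Nat.lt_succ_of_le hg) y, Finset.mul_sum]
    refine Finset.sum_congr rfl fun j hj => ?_
    have hj' : j ≤ b := Nat.lt_succ_iff.1 (Finset.mem_range.1 hj)
    rw [coe_compRingHom_apply, mul_comp, mul_comp, C_comp, pow_comp, pow_comp, ← hw0, ← hw1,
      map_mul, map_mul, map_pow, map_pow, hw0y]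
    have h2 : ι (C (hom1 b f s (g.coeff j))) = θ (hom1 b f s (g.coeff j)) := rfl
    rw [h2, hom1_ev θ b f s (g.coeff j) x hfx (hx j), coe_eval₂RingHom, mul_pow]
    have : ι w1 ^ b = ι w1 ^ j * ι w1 ^ (b - j) := by rw [← pow_add]; congr 1; omega
    rw [this]; ring
  have e2 : g.eval₂ (eval₂RingHom (θ.comp C) x) y =
      ∑ j ∈ Finset.range (b + 1),
        ((taylor X g).coeff j).eval₂ (θ.comp C) x * (y - x) ^ j := by
    have h1 : g = (taylor X g).comp (X - C X) := by
      rw [taylor_apply, comp_assoc]; simp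
    have h2 : g.eval₂ (eval₂RingHom (θ.comp C) x) y =
        (taylor X g).eval₂ (eval₂RingHom (θ.comp C) x) (y - x) := by
      conv_lhs => rw [h1]
      rw [eval₂_comp]
      simp
    rw [h2, eval₂_eq_sum_range' _ (Nat.lt_succ_of_le ((natDegree_taylor g X).trans_le hg))]
    rfl
  rw [map_mul, map_pow, e1, e2, map_sum, Finset.mul_sum, Finset.mul_sum]
  refine Finset.sum_congr rfl fun j hj => ?_
  have hj' : j ≤ b := Nat.lt_succ_iff.1 (Finset.mem_range.1 hj)
  have h3 : ι (C (hom1 (2 * b) f s ((taylor X g).coeff j))) =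
      θ (hom1 (2 * b) f s ((taylor X g).coeff j)) := rfl
  have h4 : ι (C s) = θ s := rfl
  have h5 : ι (C f) = θ f := rfl
  rw [map_mul, map_mul, map_pow, map_mul, map_pow, map_sub, map_mul, map_mul, h3, h4, h5,
    hom1_ev θ (2 * b) f s _ x hfx (natDegree_taylor_coeff b g hg hx j), hw0y, hfx]
  have h6 : y * ι w1 * θ s - x * θ s * ι w1 = (y - x) * (θ s * ι w1) := by ring
  rw [h6, mul_pow (y - x)]
  have h7 : (θ s * ι w1) ^ b = (θ s * ι w1) ^ (b - j) * (θ s * ι w1) ^ j := by
    rw [← pow_add]; congr 1; omega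
  have h8 : θ s ^ b * ι w1 ^ b = (θ s * ι w1) ^ (b - j) * (θ s * ι w1) ^ j := by
    rw [← h7, mul_pow]
  rw [h8]; ring

end Inf

open Inf in
theorem infLem : InfLem := by
  intro W _ _ A b f s g h hgb hX hgr hg0 hgr0 hw heq
  classical
  set G := taylor (X : A[X]) g with hG
  have hGd : ∀ j, (G.coeff j).natDegree ≤ 2 * b := natDegree_taylor_coeff b g hgb hX
  have hG0 : G.coeff 0 = g.eval X := by rw [hG, taylor_coeff_zero]
  have hs : s ≠ 0 := by
    rintro rfl
    apply hw; simp
  have hsr : s.map (red A) ≠ 0 := by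
    intro h0
    apply hw
    rw [Polynomial.map_sub, Polynomial.map_mul, Polynomial.map_mul, ← derivative_map s, h0]
    simp
  have hex : ∃ j, (G.coeff j).map (red A) ≠ 0 := by
    by_contra hcon
    push Not at hcon
    apply hgr
    have h1 : G.map (mapRingHom (red A)) = 0 := by
      ext1 j
      rw [coeff_map, coe_mapRingHom, hcon j, coeff_zero]
    rw [hG, map_taylor'] at h1
    exact taylor_injective _ (by rw [h1, map_zero])
  set s0 := Nat.find hex with hs0def
  have hs0 : (G.coeff s0).map (red A) ≠ 0 := Nat.find_spec hex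
  have hs0' : ∀ j < s0, (G.coeff j).map (red A) = 0 := fun j hj => not_not.1 (Nat.find_min hex hj)
  have hs0pos : 0 < s0 := by
    rcases Nat.eq_zero_or_pos s0 with h0 | h0
    · rw [h0, hG0] at hs0
      exact absurd hgr0 hs0
    · exact h0
  have hs0b : s0 ≤ b := by
    by_contra hcon
    apply hs0
    rw [coeff_eq_zero_of_natDegree_lt, Polynomial.map_zero]
    rw [hG, natDegree_taylor]; omega
  have hl : ∀ q : ℕ × ℕ, ∃ l : A, q.1 < s0 → l ^ (s0 - q.1) = (G.coeff q.1).coeff q.2 := by
    intro q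
    by_cases hq : q.1 < s0
    · obtain ⟨l, hl⟩ := exists_root A (s0 - q.1) (by omega) ((G.coeff q.1).coeff q.2)
      exact ⟨l, fun _ => hl⟩
    · exact ⟨0, fun h => absurd h hq⟩
  choose l hl using hl
  set S : Finset (ℕ × ℕ) := (Finset.range s0 ×ˢ Finset.range (2 * b + 1)).filter
    (fun q => (G.coeff q.1).coeff q.2 ≠ 0) with hSdef
  have hmem : ∀ q : ℕ × ℕ, q.1 < s0 → (G.coeff q.1).coeff q.2 ≠ 0 → q ∈ S := by
    intro q h1 h2
    rw [hSdef, Finset.mem_filter, Finset.mem_product, Finset.mem_range, Finset.mem_range]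
    refine ⟨⟨h1, ?_⟩, h2⟩
    have := le_natDegree_of_ne_zero h2
    have := hGd q.1
    omega
  have hS : S.Nonempty := by
    have : ∃ i, (G.coeff 0).coeff i ≠ 0 := by
      by_contra hcon
      push Not at hcon
      apply hg0
      rw [← hG0]; ext1 i; rw [hcon i, coeff_zero]
    obtain ⟨i, hi⟩ := this
    exact ⟨(0, i), hmem (0, i) hs0pos hi⟩
  obtain ⟨q0, hq0, hmin⟩ := exists_min S hS l
  set lam := l q0 with hlam
  rw [hSdef, Finset.mem_filter, Finset.mem_product, Finset.mem_range, Finset.mem_range] at hq0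
  obtain ⟨⟨hj0, hi0⟩, hc0⟩ := hq0
  have hlq : lam ^ (s0 - q0.1) = (G.coeff q0.1).coeff q0.2 := hl q0 hj0
  have hlam0 : lam ≠ 0 := by
    intro h0
    rw [h0, zero_pow (by omega)] at hlq
    exact hc0 hlq.symm
  have hrl : red A lam = 0 := by
    have h1 : (red A lam) ^ (s0 - q0.1) = 0 := by
      rw [← map_pow, hlq, ← coeff_map, hs0' q0.1 hj0, coeff_zero]
    exact (pow_eq_zero_iff (by omega)).1 h1
  have hdiv : C (C (lam ^ s0)) ∣ g.comp (sb lam) := by
    rw [C_dvd_iff_dvd_coeff]
    intro j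
    rw [C_dvd_iff_dvd_coeff]
    intro i
    rw [coeff_comp_sb, ← hG, ← C_pow, coeff_mul_C]
    by_cases hj : j < s0
    · by_cases hc : (G.coeff j).coeff i = 0
      · rw [hc, zero_mul]; exact dvd_zero _
      · have h1 : lam ∣ l (j, i) := hmin (j, i) (hmem (j, i) hj hc)
        have h2 : lam ^ (s0 - j) ∣ (G.coeff j).coeff i := by
          have := hl (j, i) hj
          simp only at this
          rw [← this]
          exact pow_dvd_pow_of_dvd h1 _
        have h3 : lam ^ s0 = lam ^ (s0 - j) * lam ^ j := by rw [← pow_add]; congr 1; omega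
        rw [h3]
        exact mul_dvd_mul_right h2 _
    · exact dvd_mul_of_dvd_right (pow_dvd_pow _ (by omega)) _
  obtain ⟨H, hH⟩ := hdiv
  have hHc : ∀ j, C (lam ^ j) * G.coeff j = C (lam ^ s0) * H.coeff j := by
    intro j
    have h1 : C (lam ^ s0) * H.coeff j = (C (C (lam ^ s0)) * H).coeff j :=
      (coeff_C_mul ..).symm
    rw [h1, ← hH, coeff_comp_sb, ← hG, C_pow]; ring
  have hk := key b f s g hgb hX hs lam
  rw [heq, mul_comp, hH] at hk
  obtain ⟨r1, hr1⟩ := first_order lam f
  obtain ⟨r2, hr2⟩ := first_order lam s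
  set E : A[X][X] := (C (derivative f) + C (C lam) * r1) * C s -
    C f * (C (derivative s) + C (C lam) * r2) with hE
  have hδ : (f.map C).comp (sb lam) * C s - C f * (s.map C).comp (sb lam) =
      C (C lam) * (X * E) := by
    rw [hr1, hr2, hE]; ring
  have hk2 : (C s) ^ (2 * b) * (H * h.comp (sb lam)) =
      ∑ j ∈ Finset.range (b + 1), (C s * (s.map C).comp (sb lam)) ^ (b - j) *
        C (hom1 (2 * b) f s (H.coeff j)) * (X * E) ^ j := by
    have hne : (C (C (lam ^ s0)) : A[X][X]) ≠ 0 := by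
      rw [Ne, C_eq_zero, C_eq_zero]
      exact pow_ne_zero _ hlam0
    apply mul_left_cancel₀ hne
    rw [Finset.mul_sum]
    have h1 : C (C (lam ^ s0)) * ((C s) ^ (2 * b) * (H * h.comp (sb lam))) =
        (C s) ^ (2 * b) * (C (C (lam ^ s0)) * H * h.comp (sb lam)) := by ring
    rw [h1, hk]
    refine Finset.sum_congr rfl fun j _ => ?_
    rw [hδ, mul_pow (C (C lam))]
    have h2 : C (hom1 (2 * b) f s (G.coeff j)) * (C (C lam)) ^ j =
        C (C (lam ^ s0)) * C (hom1 (2 * b) f s (H.coeff j)) := by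
      rw [← C_mul, ← hom1_C_mul, ← hHc, hom1_C_mul, C_mul, ← C_pow, ← C_pow]; ring
    calc (C s * (s.map C).comp (sb lam)) ^ (b - j) * C (hom1 (2 * b) f s (G.coeff j)) *
          ((C (C lam)) ^ j * (X * E) ^ j)
        = (C s * (s.map C).comp (sb lam)) ^ (b - j) *
          (C (hom1 (2 * b) f s (G.coeff j)) * (C (C lam)) ^ j) * (X * E) ^ j := by ring
      _ = _ := by rw [h2]; ring
  -- reduction
  set fb := f.map (red A) with hfb
  set sB := s.map (red A) with hsB
  set wb := (derivative f * s - f * derivative s).map (red A) with hwb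
  set Hb := H.map (mapRingHom (red A)) with hHb
  set h0 := (h.map (mapRingHom (red A))).eval X with hh0
  have hsbr : (sb lam).map (mapRingHom (red A)) = C X := by
    simp [sb, hrl]
  have hk3 : (C sB) ^ (2 * b) * (Hb * C h0) =
      ∑ j ∈ Finset.range (b + 1), (C sB * C sB) ^ (b - j) *
        C (hom1 (2 * b) fb sB (Hb.coeff j)) * (X * C wb) ^ j := by
    have h1 := congrArg (Polynomial.map (mapRingHom (red A))) hk2
    rw [Polynomial.map_mul, Polynomial.map_pow, map_C, Polynomial.map_mul, Polynomial.map_comp,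
      hsbr, comp_C, Polynomial.map_sum] at h1
    rw [coe_mapRingHom, ← hsB, ← hHb, ← hh0] at h1
    rw [h1]
    refine Finset.sum_congr rfl fun j _ => ?_
    rw [Polynomial.map_mul, Polynomial.map_mul, Polynomial.map_pow, Polynomial.map_pow,
      Polynomial.map_mul, Polynomial.map_mul, map_C, map_C, map_X, hr2]
    rw [coe_mapRingHom, hom1_map, ← hfb, ← hsB, hHb, coeff_map]
    have h2 : (C s + C (C lam) * X * (C (derivative s) + C (C lam) * r2)).map
        (mapRingHom (red A)) = C sB := by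
      simp [hrl, hsB]
    have h3 : E.map (mapRingHom (red A)) = C wb := by
      simp [hE, hrl, hwb]
    rw [h2, h3]
    rfl
  have hcoef : ∀ j ≤ b, sB ^ (2 * j) * (Hb.coeff j * h0) =
      hom1 (2 * b) fb sB (Hb.coeff j) * wb ^ j := by
    intro j hj
    have h1 := congrArg (fun p => p.coeff j) hk3
    beta_reduce at h1
    rw [← C_pow, coeff_C_mul, coeff_mul_C, finsetSum_coeff] at h1
    have h2 : ∀ i ∈ Finset.range (b + 1), ((C sB * C sB) ^ (b - i) *
        C (hom1 (2 * b) fb sB (Hb.coeff i)) * (X * C wb) ^ i).coeff j =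
        if i = j then (sB * sB) ^ (b - i) * hom1 (2 * b) fb sB (Hb.coeff i) * wb ^ i else 0 := by
      intro i _
      rw [mul_pow X, ← C_mul, ← C_pow, ← C_mul, ← C_pow, coeff_C_mul, coeff_mul_C, coeff_X_pow]
      by_cases hij : i = j
      · subst hij; simp
      · have : ¬ j = i := fun h => hij h.symm
        simp [hij, this]
    rw [Finset.sum_congr rfl h2, Finset.sum_ite_eq' , if_pos (Finset.mem_range.2 (by omega))] at h1
    have h3 : sB ^ (2 * b) = (sB * sB) ^ (b - j) * sB ^ (2 * j) := by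
      rw [← sq, ← pow_mul, ← pow_add]; congr 1; omega
    rw [h3] at h1
    have hne : (sB * sB) ^ (b - j) ≠ 0 := pow_ne_zero _ (mul_ne_zero hsr hsr)
    apply mul_left_cancel₀ hne
    linear_combination h1
  have hC1 : Hb.coeff q0.1 ≠ 0 := by
    intro h0
    have h1 : (H.coeff q0.1).coeff q0.2 = 1 := by
      have h2 := congrArg (fun p => p.coeff q0.2) (hHc q0.1)
      simp only [coeff_C_mul] at h2
      rw [← hlq, ← pow_add] at h2
      have h3 : q0.1 + (s0 - q0.1) = s0 := by omega
      rw [h3] at h2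
      have h4 : lam ^ s0 ≠ 0 := pow_ne_zero _ hlam0
      exact (mul_left_cancel₀ h4 (by rw [← h2, mul_one]))
    have h5 := congrArg (fun p => p.coeff q0.2) h0
    simp only [hHb, coeff_map, coe_mapRingHom, h1, map_one, coeff_zero] at h5
    exact one_ne_zero h5
  have hC2 : Hb.coeff s0 ≠ 0 := by
    have h1 : H.coeff s0 = G.coeff s0 := by
      have h2 := hHc s0
      have h4 : (C (lam ^ s0) : A[X]) ≠ 0 := C_ne_zero.2 (pow_ne_zero _ hlam0)
      exact (mul_left_cancel₀ h4 h2).symm
    rw [hHb, coeff_map, h1]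
    exact hs0
  have hHd : ∀ j, (Hb.coeff j).natDegree ≤ 2 * b := by
    intro j
    rw [hHb, coeff_map]
    refine natDegree_map_le.trans ?_
    rw [natDegree_le_iff_coeff_eq_zero]
    intro N hN
    have h2 := congrArg (fun p => p.coeff N) (hHc j)
    simp only [coeff_C_mul] at h2
    rw [coeff_eq_zero_of_natDegree_lt (lt_of_le_of_lt (hGd j) hN), mul_zero] at h2
    rcases mul_eq_zero.1 h2.symm with h3 | h3
    · exact absurd h3 (pow_ne_zero _ hlam0)
    · exact h3
  refine ⟨s0 - q0.1, Hb.coeff q0.1, Hb.coeff s0, by omega, hC1, hC2, hHd _, hHd _, ?_⟩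
  have hw' : wb ≠ 0 := hw
  have ha := hcoef q0.1 (by omega)
  have hb := hcoef s0 hs0b
  by_cases hz : h0 = 0
  · rw [hz, mul_zero, mul_zero] at ha hb
    have ha' : hom1 (2 * b) fb sB (Hb.coeff q0.1) = 0 :=
      (mul_eq_zero.1 ha.symm).resolve_right (pow_ne_zero _ hw')
    have hb' : hom1 (2 * b) fb sB (Hb.coeff s0) = 0 :=
      (mul_eq_zero.1 hb.symm).resolve_right (pow_ne_zero _ hw')
    rw [ha', hb']; ring
  · have hne : h0 * wb ^ q0.1 * sB ^ (2 * q0.1) ≠ 0 :=
      mul_ne_zero (mul_ne_zero hz (pow_ne_zero _ hw')) (pow_ne_zero _ hsr)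
    apply mul_left_cancel₀ hne
    have e1 : sB ^ (2 * s0) = sB ^ (2 * q0.1) * sB ^ (2 * (s0 - q0.1)) := by
      rw [← pow_add]; congr 1; omega
    have e2 : wb ^ s0 = wb ^ q0.1 * wb ^ (s0 - q0.1) := by
      rw [← pow_add]; congr 1; omega
    rw [e1, e2] at hb
    linear_combination (-(Hb.coeff s0) * h0 * sB ^ (2 * q0.1) * sB ^ (2 * (s0 - q0.1))) * ha +
      (sB ^ (2 * q0.1) * (Hb.coeff q0.1) * h0) * hb

end

end Pool.Agent.N715.AD
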