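import Mathlib
import Pool.Agent.N715.AD.Stm
import Pool.Agent.N715.AB.Res
import Pool.Agent.N715.AB.Chn

/-!
Project AD, part INV (helper152): an irreducible relation which holds at a point of large degree and
at its image is invariant.
-/

set_option autoImplicit false

namespace Pool.Agent.N715.AD

open Polynomial
open Pool.Agent.R829.BG (XD subs natDegree_subs XD_subs)
open Pool.Agent.N715.AB (ev resLem)
open Pool.Agent.N715.AB.Chn (evH ev_eq ev_C ev_subs)

namespace Inv

lemma hom2_eq {K : Type} [Field K] (b : ℕ) (f s : K[X]) (g : K[X][X]) :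
    hom2 b f s g = subs f s b b g := by
  unfold hom2 subs hom1
  simp only [mul_assoc]

end Inv

theorem invLem : InvLem := by
  intro K _ L _ _ _ b D g hirr h1 hb hXD f s hf hs x y hxy hsx hsy hxy' hdeg
  by_contra hnd
  rw [Inv.hom2_eq] at hnd
  obtain ⟨c, U, V, hc0, hcd, hc⟩ := resLem K g (subs f s b b g) b (b * D) b (b * D) hirr h1 hb hXD
    (natDegree_subs hf hs b b g) (XD_subs hf hs b b g) hnd
  have h2 : aeval x c = 0 := by
    rw [← ev_C x y c, ev_eq, hc, map_add, map_mul, map_mul, ← ev_eq x y g,
      ← ev_eq x y (subs f s b b g), hxy, ev_subs hb hXD hsx hsy, hxy']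
    ring
  have h3 := natDegree_le_natDegree (minpoly.degree_le_of_ne_zero K x hc0 h2)
  have h4 : b * (b * D) + b * D * b = 2 * b * b * D := by ring
  omega

end Pool.Agent.N715.AD
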