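import Mathlib
import Pool.Agent.N715.AD.Stm
import Pool.Agent.N715.AC.Two2

/-!
Project AD: use of the two-variable inequality.
-/

set_option autoImplicit false
set_option linter.unusedSectionVars false

namespace Pool.Agent.N715.AD

open NumberField Module
open Pool.Agent.W238.Leh
open Pool.Agent.H627.LR (GR GoodK)
open Pool.Agent.H420R3 (mi nv TP ew sum_ew ew_pos)
open Pool.Agent.R829.BG (E2 finrank_E2_le)
open Pool.Agent.N715.AC (norm_two log_norm_pos)

noncomputable section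

variable {K : Type} [Field K] [NumberField K] {M : Type} [Field M] [NumberField M] [Algebra K M]
  {ι : Type} [Fintype ι] [DecidableEq ι]
variable {F : Fin (1 + 1) → MvPolynomial (Fin (1 + 1)) K} {q c a : ℕ} {A : ℝ}

/-- if the rank is maximal, the gain is bounded -/
theorem two_apply (hT : TwoPLem) (hB : Bds F q A a) (hq : 2 ≤ q)
    (hF : ∀ i, (F i).IsHomogeneous q)
    (hc : ∀ m, c + q ≤ m → ∀ p : MvPolynomial (Fin (1 + 1)) K, p.IsHomogeneous m →
      p ∈ Ideal.span (Set.range F))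
    {P : Ideal (𝓞 K)} [hP : P.IsMaximal] (hP0 : P ≠ ⊥) (hG : GoodK P F q)
    (x y : ι → M) {r : ℕ} (hr : 1 ≤ r) {c₀ : ℝ} (hc₀ : 0 < c₀)
    (Bad : FinitePlace M → Finset ι)
    (hclose : ∀ v ∈ TP M P, ∀ i, i ∉ Bad v →
      v (y i - x i) ≤ Real.exp (-(c₀ * ew K v)) * v (x i))
    (hprop : ∀ i, ∑ v ∈ TP M P, ew K v ≤
      r * ∑ v ∈ TP M P, if i ∉ Bad v then ew K v else 0)
    {H : ℝ} (hHx : ∀ i, canH F q ![x i, 1] ≤ H) (hHy : ∀ i, canH F q ![y i, 1] ≤ H)
    {n s : ℕ} (hn : 12 * r * s ≤ n)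
    (hrk : (n + 1) * (n + 1) ≤ finrank M (E2 K (fun i => ![x i, 1]) (fun i => ![y i, 1]) n n)) :
    s * (c₀ * Real.log P.absNorm) / (2 * r) ≤ finrank ℚ K * ((n + n) * H +
      hC A a * (c + q : ℕ) * (1 + Nat.log 2 n : ℕ) +
      hC A a * (c + q : ℕ) * (1 + Nat.log 2 n : ℕ) + Real.log ((n + 1) * (n + 1) : ℕ)) := by
  classical
  have hfd : FiniteDimensional K M := Pool.Agent.R829.DL.fd_inter K M
  obtain ⟨R, hR⟩ : ∃ R, R = (n + 1) * (n + 1) := ⟨_, rfl⟩
  have hRe : R = finrank M (E2 K (fun i => ![x i, 1]) (fun i => ![y i, 1]) n n) := by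
    rw [hR]
    exact le_antisymm hrk (finrank_E2_le _ _ _ _)
  have hR1 : 1 ≤ R := by
    rw [hR]
    exact Nat.one_le_iff_ne_zero.mpr (by positivity)
  have hR0 : (0 : ℝ) < R := by exact_mod_cast hR1
  obtain ⟨G, hGd⟩ : ∃ G : ℝ, G = ∑ v ∈ TP M P, c₀ * ew K v := ⟨_, rfl⟩
  have hG1 : G = c₀ * ((finrank K M : ℝ) * Real.log P.absNorm) := by
    rw [hGd, ← Finset.mul_sum, sum_ew hP0]
  have hr0 : (0 : ℝ) < r := by exact_mod_cast hr
  have hKM : (0 : ℝ) < finrank K M := by exact_mod_cast finrank_pos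
  have hPn : 0 < Real.log P.absNorm := log_norm_pos hP0
  have hG0 : 0 < G := by
    rw [hG1]
    positivity
  have hmain := hT K M ι F q c a A hB hq hF hc x y (TP M P)
    (fun v hv => hG.gr hP0 (by omega) hv) (fun v => c₀ * ew K v) Bad
    (fun v _ => mul_pos hc₀ (ew_pos v)) hclose (G / r) (fun i => by
      have h1 := hprop i
      have h2 : ∑ v ∈ TP M P, (if i ∉ Bad v then c₀ * ew K v else 0) =
          c₀ * (∑ v ∈ TP M P, if i ∉ Bad v then ew K v else 0) := by
        rw [Finset.mul_sum]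
        refine Finset.sum_congr rfl fun v _ => ?_
        split_ifs
        · rw [mul_zero]
        · rfl
      rw [h2, hGd, ← Finset.mul_sum, div_le_iff₀ hr0]
      calc c₀ * ∑ v ∈ TP M P, ew K v ≤
          c₀ * (r * ∑ v ∈ TP M P, if i ∉ Bad v then ew K v else 0) :=
            mul_le_mul_of_nonneg_left h1 hc₀.le
        _ = _ := by ring) H hHx hHy n n s R hRe hR1
  rw [← hGd] at hmain
  -- the dimension of the exceptional space
  have hdim : (2 * r * (s * (2 * (n + n + 1))) : ℕ) ≤ R := by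
    have h1 : 3 * (2 * r * (s * (2 * (n + n + 1)))) ≤ 3 * R := by
      calc 3 * (2 * r * (s * (2 * (n + n + 1)))) = (12 * r * s) * (n + n + 1) := by ring
        _ ≤ n * (n + n + 1) := Nat.mul_le_mul_right _ hn
        _ ≤ 3 * R := by
          rw [hR]
          nlinarith
    omega
  have hdim' : ((s * (2 * (n + n + 1)) : ℕ) : ℝ) ≤ R / (2 * r) := by
    rw [le_div_iff₀ (by positivity)]
    have : ((2 * r * (s * (2 * (n + n + 1))) : ℕ) : ℝ) ≤ R := by exact_mod_cast hdim
    push_cast at this ⊢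
    linarith
  have hs0 : (0 : ℝ) ≤ s := Nat.cast_nonneg s
  have hlow : s * (R * G / (2 * r)) ≤
      s * (R * (G / r) - G * (s * (2 * (n + n + 1)) : ℕ)) := by
    apply mul_le_mul_of_nonneg_left _ hs0
    have h1 : G * (s * (2 * (n + n + 1)) : ℕ) ≤ G * (R / (2 * r)) :=
      mul_le_mul_of_nonneg_left hdim' hG0.le
    have h2 : R * (G / r) - G * (R / (2 * r)) = R * G / (2 * r) := by
      field_simp
      ring
    linarith
  have hfin := hlow.trans hmain
  obtain ⟨Z, hZ⟩ : ∃ Z : ℝ, Z = (n + n) * H + hC A a * (c + q : ℕ) * (1 + Nat.log 2 n : ℕ) +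
          hC A a * (c + q : ℕ) * (1 + Nat.log 2 n : ℕ) + Real.log R := ⟨_, rfl⟩
  rw [← hZ] at hfin
  rw [← hR, ← hZ]
  have h1 : (finrank ℚ M : ℝ) = finrank ℚ K * finrank K M := by
    exact_mod_cast (finrank_mul_finrank ℚ K M).symm
  rw [h1, hG1] at hfin
  have h2 : s * (R * (c₀ * (finrank K M * Real.log P.absNorm)) / (2 * r)) =
      (R * finrank K M) * (s * (c₀ * Real.log P.absNorm) / (2 * r)) := by
    field_simp
  have h3 : (finrank ℚ K : ℝ) * finrank K M * (R * Z) =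
      (R * finrank K M) * (finrank ℚ K * Z) := by ring
  rw [h2, h3] at hfin
  exact le_of_mul_le_mul_left hfin (by positivity)

end

end Pool.Agent.N715.AD
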