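import Mathlib
import Pool.Agent.N715.AD.Two3
import Pool.Agent.N715.AD.Alg
import Pool.Agent.N715.AC.Loc2

/-!
Project AD: the local part: a small point of large degree with a wildly close conjugate does not
exist.
-/

set_option autoImplicit false
set_option linter.unusedSectionVars false

namespace Pool.Agent.N715.AD

open NumberField Module Polynomial
open Pool.Agent.W238.Leh
open Pool.Agent.H627.LP (Wnd)
open Pool.Agent.H627.LR (GR GoodK)
open Pool.Agent.H420R3 (mi nv TP ew sum_ew ew_pos)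
open Pool.Agent.R829.DL (fod fod_iter canH_hom)
open Pool.Agent.R829.BG (ax JJ ax_vec XD E2 exists_rel)
open Pool.Agent.N715.AB (ev fod_inf finrank_fod)
open Pool.Agent.N715.AB.Chn (evH ev_eq ev_C)
open Pool.Agent.N715.AC

noncomputable section

section elem

variable {K L : Type} [Field K] [Field L] [Algebra K L]

lemma aeval_vec (p : MvPolynomial (Fin (1 + 1)) K) (z : L) :
    MvPolynomial.aeval (![z, 1] : Fin (1 + 1) → L) p = aeval z (dz p) := by
  have h1 : (Polynomial.aeval z).comp (MvPolynomial.aeval (![X, 1] : Fin (1 + 1) → K[X])) =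
      MvPolynomial.aeval (R := K) (![z, 1] : Fin (1 + 1) → L) := by
    apply MvPolynomial.algHom_ext
    intro i
    fin_cases i
    · simp
    · simp
  rw [← h1]
  rfl

lemma evH_map (x y : L) (p : K[X]) : evH K x y (p.map C) = aeval y p := by
  induction p using Polynomial.induction_on' with
  | add p q hp hq => rw [Polynomial.map_add, map_add, hp, hq, map_add]
  | monomial n a =>
    rw [Polynomial.map_monomial, ← C_mul_X_pow_eq_monomial, map_mul, map_pow, ← ev_eq, ev_C,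
      aeval_C, aeval_monomial]
    congr 2
    simp [evH]

lemma eval_natDegree {g : K[X][X]} {n : ℕ} (h1 : g.natDegree ≤ n) (h2 : XD n g) :
    (g.eval X).natDegree ≤ 2 * n := by
  rw [eval_eq_sum_range]
  refine natDegree_sum_le_of_forall_le _ _ fun i hi => ?_
  have h3 := Finset.mem_range.mp hi
  refine natDegree_mul_le.trans ?_
  have h4 := h2 i
  have h5 : ((X : K[X]) ^ i).natDegree ≤ i := natDegree_X_pow_le i
  omega

end elem

variable {K : Type} [Field K] [NumberField K] {L : Type} [Field L] [NumberField L] [Algebra K L]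
variable {F : Fin (1 + 1) → MvPolynomial (Fin (1 + 1)) K} {q c a : ℕ} {A : ℝ}

lemma FC_iter (hB : Bds F q A a) (hF : ∀ i, (F i).IsHomogeneous q) {x : Fin (1 + 1) → L}
    (hx : x ≠ 0) (h0 : 0 ∈ JJ F x) (i : ℕ) {v : FinitePlace L} {e : ℝ}
    {M : IntermediateField K L} {σ τ : Gal(L/K)}
    (h : FC K v e M (σ (ax F x 0)) (σ (τ (ax F x 0)))) :
    FC K v e M (σ (ax F x i)) (σ (τ (ax F x i))) := by
  obtain ⟨φ, h1, h2⟩ := h
  refine ⟨φ, h1, ?_⟩
  exact eq_on_adjoin (g := φ * σ) (g' := σ * τ) (ax_mem hB hF hx h0 i) h2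

lemma ax_frac (hItf : ItfLem) (hF : ∀ i, (F i).IsHomogeneous q) (x : Fin (1 + 1) → L)
    (θ : Gal(L/K)) (j i : ℕ) (hi : i ∈ JJ F x) (hij : i + j ∈ JJ F x) :
    aeval (ax F x i) (dz (itF F j 1)) ≠ 0 ∧ aeval (θ (ax F x i)) (dz (itF F j 1)) ≠ 0 ∧
      ax F x (i + j) = aeval (ax F x i) (dz (itF F j 0)) / aeval (ax F x i) (dz (itF F j 1)) ∧
      θ (ax F x (i + j)) = aeval (θ (ax F x i)) (dz (itF F j 0)) /
        aeval (θ (ax F x i)) (dz (itF F j 1)) := by
  obtain ⟨hI1, -, -, hI4, -⟩ := hItf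
  have hH : ∀ t, (itF F j t).IsHomogeneous (q ^ j) := hI1 K F q hF j
  have hi' : ((act F)^[i] x) 1 ≠ 0 := hi
  have hij' : ((act F)^[i + j] x) 1 ≠ 0 := hij
  have hj : act (itF F j) ((act F)^[i] x) = (act F)^[i + j] x := by
    rw [hI4, ← Function.iterate_add_apply, Nat.add_comm j i]
  have h1 : ∀ t, MvPolynomial.aeval (![ax F x i, 1] : Fin (1 + 1) → L) (itF F j t) =
      ((((act F)^[i] x) 1)⁻¹) ^ (q ^ j) * ((act F)^[i + j] x) t := by
    intro t
    rw [ax_vec hi]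
    have h2 := congrFun (act_smul hH ((((act F)^[i] x) 1)⁻¹) ((act F)^[i] x)) t
    rw [hj] at h2
    exact h2
  have h3 : ∀ φ : Polynomial K, Polynomial.aeval (θ (ax F x i)) φ =
      θ (Polynomial.aeval (ax F x i) φ) := by
    intro φ
    exact Polynomial.aeval_algHom_apply θ.toAlgHom (ax F x i) φ
  have hpow : ((((act F)^[i] x) 1)⁻¹) ^ (q ^ j) ≠ 0 := pow_ne_zero _ (inv_ne_zero hi')
  have hne : aeval (ax F x i) (dz (itF F j 1)) ≠ 0 := by
    rw [← aeval_vec, h1]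
    exact mul_ne_zero hpow hij'
  have hax : ax F x (i + j) = aeval (ax F x i) (dz (itF F j 0)) /
      aeval (ax F x i) (dz (itF F j 1)) := by
    rw [← aeval_vec, ← aeval_vec, h1, h1, mul_div_mul_left _ _ hpow]
    rfl
  refine ⟨hne, ?_, hax, ?_⟩
  · rw [h3]
    exact (map_ne_zero θ).mpr hne
  · rw [h3, h3, hax, map_div₀]

variable {P : Ideal (𝓞 K)} [hP : P.IsMaximal]

lemma pprim_or {f : K[X]} (h : ∀ n, ∃ a : 𝓞 K, f.coeff n = (a : K)) :
    PPrim P f ∨ ∀ n, ∃ a : 𝓞 K, a ∈ P ∧ f.coeff n = (a : K) := by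
  by_cases h1 : ∃ n, ∃ a : 𝓞 K, a ∉ P ∧ f.coeff n = (a : K)
  · exact Or.inl ⟨h, h1⟩
  · right
    intro n
    obtain ⟨a, ha⟩ := h n
    refine ⟨a, ?_, ha⟩
    by_contra haP
    exact h1 ⟨n, a, haP, ha⟩

lemma eval_int {g : K[X][X]} (h : ∀ i j, ∃ a : 𝓞 K, (g.coeff j).coeff i = (a : K)) (n : ℕ) :
    ∃ a : 𝓞 K, (g.eval X).coeff n = (a : K) := by
  choose a ha using h
  have h1 : (g.eval X).coeff n = ∑ j ∈ Finset.range (g.natDegree + 1),
      if j ≤ n then (g.coeff j).coeff (n - j) else 0 := by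
    rw [eval_eq_sum_range, finsetSum_coeff]
    refine Finset.sum_congr rfl fun j _ => ?_
    rw [coeff_mul_X_pow']
  refine ⟨∑ j ∈ Finset.range (g.natDegree + 1), if j ≤ n then a (n - j) j else 0, ?_⟩
  rw [h1]
  push_cast
  refine Finset.sum_congr rfl fun j _ => ?_
  split_ifs
  · rw [ha]
  · rfl

/-- the difference quotient -/
lemma exists_diff (hVal : ValLem) (hAcl : AclLem) (hNzj : NzjLem) (hItf : ItfLem)
    (hGnz : GnzLem) (hWro : WroLem) (hP0 : P ≠ ⊥) (hG : GoodK P F q) (hq : 2 ≤ q)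
    {G : Fin (1 + 1) → MvPolynomial (Fin (1 + 1)) (𝓞 K)}
    (hGF : ∀ i, F i = MvPolynomial.map (algebraMap (𝓞 K) K) (G i))
    (hGh : ∀ i, (G i).IsHomogeneous q) (hqP : (q : 𝓞 K) ∉ P) :
    ∃ T : K[X][X], T.natDegree ≤ q ∧ XD q T ∧
      (∀ i j, ∃ a : 𝓞 K, (T.coeff j).coeff i = (a : K)) ∧ PPrim P (T.eval X) ∧
      ∀ (L : Type) [Field L] [Algebra K L] (x y : L),
        aeval x (dz (itF F 1 0)) * aeval y (dz (itF F 1 1)) -
          aeval y (dz (itF F 1 0)) * aeval x (dz (itF F 1 1)) = (x - y) * ev x y T := by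
  obtain ⟨A, ψ, hψ1, hψ2⟩ := hVal K P hP0
  obtain ⟨hI1, hI2, hI3, -, hI5, hI6, hI7, hI8⟩ := hItf
  have hAC : IsAlgClosed (rf A) := hAcl _ A
  obtain ⟨ι, hι⟩ : ∃ ι : 𝓞 K →+* K, ι = algebraMap (𝓞 K) K := ⟨_, rfl⟩
  have hι' : ∀ a : 𝓞 K, ι a = (a : K) := fun a => by rw [hι]
  have hFG : (fun i => MvPolynomial.map ι (G i)) = F := by
    funext i
    rw [hGF i, hι]
  obtain ⟨f₀, hf₀⟩ : ∃ f₀ : (𝓞 K)[X], f₀ = dz (itF G 1 0) := ⟨_, rfl⟩
  obtain ⟨s₀, hs₀⟩ : ∃ s₀ : (𝓞 K)[X], s₀ = dz (itF G 1 1) := ⟨_, rfl⟩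
  have hfK : f₀.map ι = dz (itF F 1 0) := by
    rw [hf₀, hI7, hI2, hFG]
  have hsK : s₀.map ι = dz (itF F 1 1) := by
    rw [hs₀, hI7, hI2, hFG]
  have hfd : f₀.natDegree ≤ q := by
    rw [hf₀]
    have := hI6 (𝓞 K) (itF G 1 0) (q ^ 1) (hI1 (𝓞 K) G q hGh 1 0)
    rwa [pow_one] at this
  have hsd : s₀.natDegree ≤ q := by
    rw [hs₀]
    have := hI6 (𝓞 K) (itF G 1 1) (q ^ 1) (hI1 (𝓞 K) G q hGh 1 1)
    rwa [pow_one] at this
  obtain ⟨T₀, hT1, hT2, hT3, hT4⟩ := hWro (𝓞 K) q f₀ s₀ hfd hsd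
  have hev : ∀ {R S : Type} [CommRing R] [CommRing S] (f : R →+* S) (p : R[X][X]),
      (p.eval X).map f = (p.map (mapRingHom f)).eval X := by
    intro R S _ _ f p
    rw [Polynomial.eval_map]
    have h1 := Polynomial.hom_eval₂ p (RingHom.id (R[X])) (mapRingHom f) (X : R[X])
    rw [Polynomial.eval₂_id] at h1
    rw [← coe_mapRingHom, h1, RingHom.comp_id, coe_mapRingHom, Polynomial.map_X]
  refine ⟨T₀.map (mapRingHom ι), (natDegree_map_le).trans hT1, fun n => ?_, fun i j => ?_,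
    ⟨fun n => ?_, ?_⟩, ?_⟩
  · rw [coeff_map, coe_mapRingHom]
    exact (natDegree_map_le).trans (hT2 n)
  · refine ⟨(T₀.coeff j).coeff i, ?_⟩
    rw [coeff_map, coe_mapRingHom, coeff_map, hι']
  · rw [← hev]
    exact ⟨(T₀.eval X).coeff n, by rw [coeff_map, hι']⟩
  · by_contra hcon
    push Not at hcon
    obtain ⟨χ, hχ⟩ : ∃ χ : 𝓞 K →+* rf A, χ = (red A).comp ψ := ⟨_, rfl⟩
    have hχP : ∀ a, χ a = 0 ↔ a ∈ P := fun a => by
      rw [hχ, RingHom.comp_apply]
      exact hψ2 a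
    obtain ⟨Γ, hΓ⟩ : ∃ Γ : Fin (1 + 1) → MvPolynomial (Fin (1 + 1)) (rf A),
      Γ = fun i => MvPolynomial.map χ (G i) := ⟨_, rfl⟩
    have hΓh : ∀ i, (Γ i).IsHomogeneous q := by
      intro i
      rw [hΓ]
      exact (hGh i).map χ
    have hΓn : NZ Γ := by
      rw [hΓ]
      exact hGnz K P q F G hGF hG (rf A) χ hχP
    have hqχ : (q : rf A) ≠ 0 := by
      intro h0
      apply hqP
      rw [← hχP, map_natCast]
      exact h0
    obtain ⟨-, hwr⟩ := hNzj (rf A) (q ^ 1) (itF Γ 1) (hI1 (rf A) Γ q hΓh 1) (by rw [pow_one]; omega)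
      (hI5 (rf A) Γ q hΓh hΓn 1) (by rw [pow_one]; exact hqχ)
    apply hwr
    have h1 : (T₀.eval X).map χ = 0 := by
      ext n
      rw [coeff_map, coeff_zero, hχP]
      by_contra h2
      refine hcon n _ h2 ?_
      rw [← hev, coeff_map, hι']
    have h2 : f₀.map χ = dz (itF Γ 1 0) := by
      rw [hf₀, hI7, hI2, hΓ]
    have h3 : s₀.map χ = dz (itF Γ 1 1) := by
      rw [hs₀, hI7, hI2, hΓ]
    rw [← h2, ← h3, derivative_map, derivative_map, ← Polynomial.map_mul, ← Polynomial.map_mul,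
      ← Polynomial.map_sub, ← hT4, h1]
  · intro L _ _ x y
    have h1 := congrArg (fun p => evH K x y (p.map (mapRingHom ι))) hT3
    simp only [Polynomial.map_sub, Polynomial.map_mul, map_sub, map_mul, Polynomial.map_C,
      Polynomial.map_X, coe_mapRingHom] at h1
    have h2 : ∀ p : (𝓞 K)[X], (p.map C).map (mapRingHom ι) = (p.map ι).map C := by
      intro p
      rw [Polynomial.map_map, Polynomial.map_map]
      congr 1
      ext z
      simp
    rw [h2, h2, evH_map, evH_map, ← ev_eq, ← ev_eq, ev_C, ev_C, hfK, hsK, ← ev_eq, ← ev_eq] at h1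
    rw [h1]
    congr 1
    rw [ev_C, aeval_X]
    congr 1
    simp [ev_eq, evH]

end

end Pool.Agent.N715.AD
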