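import Mathlib
import Pool.Agent.N715.AD.Loc

/-!
Project AD: the local part: a small point of large degree with a wildly close conjugate does not
exist.
-/

set_option autoImplicit false
set_option linter.unusedSectionVars false

namespace Pool.Agent.N715.AD

open NumberField Module Polynomial
open Pool.Agent.W238.Leh
open Pool.Agent.H627.LP (Wnd)
open Pool.Agent.H627.LR (GR GoodK)
open Pool.Agent.H420R3 (mi nv TP ew sum_ew ew_pos)
open Pool.Agent.R829.DL (fod fod_iter canH_hom)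
open Pool.Agent.R829.BG (ax JJ ax_vec XD E2 exists_rel)
open Pool.Agent.N715.AB (ev fod_inf finrank_fod)
open Pool.Agent.N715.AB.Chn (evH ev_eq ev_C)
open Pool.Agent.N715.AC

noncomputable section

variable {K : Type} [Field K] [NumberField K] {L : Type} [Field L] [NumberField L] [Algebra K L]

open Classical in
/-- **the local part** -/
theorem local_wild (hTwo : TwoPLem) (hBad : Bad2Lem) (hTrc : AC.TraceDesc2) (hClo : CloLem)
    (hWro : WroLem) (hNrm : NrmLem) (hInv : InvLem)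
    (hVal : ValLem) (hAcl : AclLem) (hGau : GauLem) (hInf : InfLem)
    (hHom : HomLem) (hFrm : FrmLem) (hItr : ItrLem) (hLdg : LdgLem) (hMul : MulLem)
    (hSum : SumLem) (hNzj : NzjLem) (hItf : ItfLem) (hGnz : GnzLem)
    {F : Fin (1 + 1) → MvPolynomial (Fin (1 + 1)) K} {q c a : ℕ} {A : ℝ} (hB : Bds F q A a)
    (hq : 2 ≤ q) (hF : ∀ i, (F i).IsHomogeneous q)
    (hc : ∀ m, c + q ≤ m → ∀ p : MvPolynomial (Fin (1 + 1)) K, p.IsHomogeneous m →
      p ∈ Ideal.span (Set.range F)) [IsGalois K L]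
    {P : Ideal (𝓞 K)} [hP : P.IsMaximal] (hP0 : P ≠ ⊥) (hG : GoodK P F q)
    {G : Fin (1 + 1) → MvPolynomial (Fin (1 + 1)) (𝓞 K)}
    (hGF : ∀ i, F i = MvPolynomial.map (algebraMap (𝓞 K) K) (G i))
    (hGh : ∀ i, (G i).IsHomogeneous q) (hqP : (q : 𝓞 K) ∉ P)
    {d : ℕ} {n e : Fin d → ℕ} (he : ∀ i, 1 ≤ e i) (hsum : 2 < ∑ i, (1 - 1 / (e i : ℝ)))
    (hdat : ∀ (A : ValuationSubring (AlgebraicClosure K)) (ψ : 𝓞 K →+* A),
      (∀ a, ((ψ a : A) : AlgebraicClosure K) = algebraMap K (AlgebraicClosure K) (a : K)) →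
      (∀ a, red A (ψ a) = 0 ↔ a ∈ P) →
      ∃ c' : Fin d → Fin (1 + 1) → rf A, (∀ i, c' i ≠ 0) ∧
        (∀ i, Dat (fun j => MvPolynomial.map ((red A).comp ψ) (G j)) (c' i) (n i) (e i)) ∧
        ∀ i j, i ≠ j → wdg
          ((pt (fun j => MvPolynomial.map ((red A).comp ψ) (G j)))^[n i] (c' i))
          ((pt (fun j => MvPolynomial.map ((red A).comp ψ) (G j)))^[n j] (c' j)) ≠ 0)
    {x : Fin (1 + 1) → L} (hx : x ≠ 0) (hpos : 0 < canH F q x)
    {τ : Gal(L/K)} {r b t S₁ S₂ R : ℕ} {c₀ : ℝ} (hc₀ : 0 < c₀) (hr : 1 ≤ r)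
    (hτ : τ (ax F x 0) ≠ ax F x 0)
    (hFC : ∀ σ : Gal(L/K), ∑ v ∈ TP L P, ew K v ≤
      r * ∑ v ∈ TP L P, (if FC K v c₀ (CF K (ax F x 0)) (σ (ax F x 0)) (σ (τ (ax F x 0))) then
        ew K v else 0))
    (hb : b = 12 * r * S₁) (hS₁ : 1 ≤ S₁) (ht : t = 2 * (b + q) + 1)
    (hR : R = 2 * (2 * r) * t * (S₂ + 1))
    (h2 : 1 + hC A a * (c + q : ℕ) * (1 + Nat.log 2 b : ℕ) +
      hC A a * (c + q : ℕ) * (1 + Nat.log 2 b : ℕ) +
        Real.log ((b + 1) * (b + 1) : ℕ) <
          S₁ * (c₀ * (Real.log P.absNorm / finrank ℚ K)) / (2 * r))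
    (h3 : 1 + hC A a * (c + q : ℕ) * (1 + Nat.log 2 R : ℕ) + Real.log R <
      S₂ * (c₀ * (Real.log P.absNorm / finrank ℚ K) / t) / (2 * (2 * r)))
    (hdR : R ≤ finrank K (fod K ((act F)^[2 * b] x)))
    (hdeg : 2 * b * b * q ^ (2 * b) < finrank K (fod K ((act F)^[2 * b] x)))
    (hh : (R + 2 * b : ℕ) * ((q : ℝ) ^ b * canH F q x) ≤ 1) : False := by
  have hfd : FiniteDimensional K L := Pool.Agent.R829.DL.fd_inter K L
  have hq1 : (1 : ℝ) ≤ q := by exact_mod_cast (by omega : 1 ≤ q)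
  have hb1 : 1 ≤ b := by
    rw [hb]
    exact Nat.mul_pos (by omega) hS₁
  have hr0 : (0 : ℝ) < r := by exact_mod_cast hr
  have hκ0 : (0 : ℝ) < finrank ℚ K := by exact_mod_cast finrank_pos
  have hPn := log_norm_pos (K := K) hP0
  have ht0 : (0 : ℝ) < t := by
    have : 1 ≤ t := by omega
    exact_mod_cast this
  -- degrees
  have hDi : ∀ i ≤ 2 * b, finrank K (fod K ((act F)^[2 * b] x)) ≤
      finrank K (fod K ((act F)^[i] x)) := by
    intro i hi
    have h1 : fod K ((act F)^[2 * b] x) ≤ fod K ((act F)^[i] x) := fod_iter hB hF hx hi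
    exact LinearMap.finrank_le_finrank_of_injective
      (f := (IntermediateField.inclusion h1).toLinearMap)
      (IntermediateField.inclusion_injective h1)
  have hqW : 1 ≤ q ^ (2 * b) := Nat.one_le_pow _ _ (by omega)
  have hbb : 1 ≤ b * b := Nat.mul_pos hb1 hb1
  have hbig : 2 ≤ finrank K (fod K ((act F)^[2 * b] x)) := by
    have e1 : 1 ≤ 2 * b * b * q ^ (2 * b) := by
      have h5 : 2 * b * b * q ^ (2 * b) = 2 * (b * b) * q ^ (2 * b) := by ring
      rw [h5]
      exact Nat.mul_pos (by omega) hqW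
    omega
  have hJ : ∀ i ≤ 2 * b, i ∈ JJ F x := by
    intro i hi h0
    have h1 := hDi i hi
    rw [fod_inf h0] at h1
    omega
  have hmin : ∀ i ≤ 2 * b, finrank K (fod K ((act F)^[i] x)) =
      (minpoly K (ax F x i)).natDegree := fun i hi => finrank_fod (hJ i hi)
  have hJ0 : 0 ∈ JJ F x := hJ 0 (by omega)
  have hfrac := fun (j i : ℕ) (hi : i ∈ JJ F x) (hij : i + j ∈ JJ F x) =>
    ax_frac hItf hF x τ j i hi hij
  obtain ⟨X', hX⟩ : ∃ X' : ℕ → L, X' = ax F x := ⟨_, rfl⟩
  rw [← hX] at hFC hmin hτ hfrac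
  have hXm : ∀ i, X' i ∈ IntermediateField.adjoin K {X' 0} := by
    intro i
    rw [hX]
    exact ax_mem hB hF hx hJ0 i
  have hXC : ∀ i, X' i ∈ CF K (X' 0) := fun i => adjoin_le_CF _ (hXm i)
  -- heights
  obtain ⟨H, hH⟩ : ∃ H : ℝ, H = (q : ℝ) ^ b * canH F q x := ⟨_, rfl⟩
  rw [← hH] at hh
  have hH0 : 0 < H := by rw [hH]; positivity
  have hcan : ∀ i ≤ b, canH F q ![X' i, 1] ≤ H := by
    intro i hi
    rw [hX, canH_ax hB hq hF hx (hJ i (by omega)), hH]
    apply mul_le_mul_of_nonneg_right _ hpos.le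
    exact pow_le_pow_right₀ hq1 hi
  have hsum0 : 0 < ∑ v ∈ TP L P, ew K v := by
    rw [sum_ew hP0]
    have h5 : (0 : ℝ) < finrank K L := by exact_mod_cast finrank_pos
    positivity
  -- the pairs at the iterates
  have hFCi : ∀ i (σ : Gal(L/K)), ∑ v ∈ TP L P, ew K v ≤
      r * ∑ v ∈ TP L P, (if FC K v c₀ (CF K (X' 0)) (σ (X' i)) (σ (τ (X' i))) then
        ew K v else 0) := by
    intro i σ
    refine (hFC σ).trans ?_
    apply mul_le_mul_of_nonneg_left _ hr0.le
    refine Finset.sum_le_sum fun v _ => ?_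
    have := ew_pos (K := K) v
    by_cases h5 : FC K v c₀ (CF K (X' 0)) (σ (X' 0)) (σ (τ (X' 0)))
    · have h6 : FC K v c₀ (CF K (X' 0)) (σ (X' i)) (σ (τ (X' i))) := by
        rw [hX] at h5 ⊢
        exact FC_iter hB hF hx hJ0 i h5
      rw [if_pos h5, if_pos h6]
    · rw [if_neg h5]
      split_ifs
      · exact this.le
      · exact le_rfl
  have hclose : ∀ i (σ : Gal(L/K)) (v : FinitePlace L),
      FC K v c₀ (CF K (X' 0)) (σ (X' i)) (σ (τ (X' i))) →
      v (σ (τ (X' i)) - σ (X' i)) ≤ Real.exp (-(c₀ * ew K v)) * v (σ (X' i)) := by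
    rintro i σ v ⟨φ, h5, h6⟩
    rw [← h6]
    exact h5 _ (CF_stable σ (hXC i))
  -- a relation at a pair is zero on the diagonal modulo `P`
  have hdiag : ∀ i ≤ b, ∀ g : K[X][X], g.natDegree ≤ b + q → XD (b + q) g →
      (∀ i j, ∃ a : 𝓞 K, (g.coeff j).coeff i = (a : K)) → ev (X' i) (τ (X' i)) g = 0 →
      ¬ PPrim P (g.eval X) := by
    intro i hi g hg1 hg2 hg3 hg4 hg5
    have hω : (finrank ℚ K : ℝ) * t * (c₀ * (Real.log P.absNorm / finrank ℚ K) / t) ≤
        c₀ * Real.log P.absNorm := by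
      apply le_of_eq
      field_simp
    have e1 := hBad K L F q c a A hB hq hF hc P hP0 hG (X' i) c₀
      (c₀ * (Real.log P.absNorm / finrank ℚ K) / t) hc₀ (by positivity)
      (2 * r) t S₂ R (2 * (b + q)) (by omega) hR (by omega) hω (g.eval X) hg5
      (eval_natDegree hg1 hg2) (by
        rw [← hmin i (by omega)]
        exact hdR.trans (hDi i (by omega))) (by
        have e2 : (R : ℝ) * canH F q ![X' i, 1] ≤ 1 := by
          refine le_trans (mul_le_mul_of_nonneg_left (hcan i hi) (Nat.cast_nonneg _)) ?_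
          refine le_trans (mul_le_mul_of_nonneg_right ?_ hH0.le) hh
          exact_mod_cast (by omega : R ≤ R + 2 * b)
        push_cast at h3 ⊢
        linarith)
    have e2 := hFCi i 1
    have e3 : ∑ v ∈ TP L P, (if FC K v c₀ (CF K (X' 0)) ((1 : Gal(L/K)) (X' i))
          ((1 : Gal(L/K)) (τ (X' i))) then ew K v else 0) ≤
        ∑ v ∈ TP L P, (if Real.exp (-(c₀ * ew K v)) * max 1 (v (X' i)) ^ (2 * (b + q)) <
          v (aeval (X' i) (g.eval X)) then 0 else ew K v) := by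
      refine Finset.sum_le_sum fun v _ => ?_
      have hv := ew_pos (K := K) v
      by_cases h5 : FC K v c₀ (CF K (X' 0)) ((1 : Gal(L/K)) (X' i))
          ((1 : Gal(L/K)) (τ (X' i)))
      · have h6 := hclose i 1 v h5
        have h7 := hClo K L v (b + q) g hg1 hg2 hg3 (X' i) (τ (X' i))
          (Real.exp (-(c₀ * ew K v))) (Real.exp_pos _).le (by
            rw [Real.exp_lt_one_iff]
            have := mul_pos hc₀ hv
            linarith) h6 hg4
        rw [if_pos h5, if_neg (not_lt.mpr h7)]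
      · rw [if_neg h5]
        split_ifs
        · exact le_rfl
        · exact hv.le
    have e4 := mul_le_mul_of_nonneg_left e3 hr0.le
    push_cast at e1
    nlinarith
  -- the conjugate points are different
  obtain ⟨T, hT1, hT2, hT3, hT4, hT5⟩ := exists_diff hVal hAcl hNzj hItf hGnz hWro hP0 hG hq hGF
    hGh hqP
  have hne : ∀ i ≤ b, τ (X' i) ≠ X' i := by
    intro i
    induction i with
    | zero => exact fun _ => hτ
    | succ i ih =>
      intro hi h0
      have hne' := ih (by omega)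
      obtain ⟨f1, f2, f3, f4⟩ := hfrac 1 i (hJ i (by omega)) (hJ (i + 1) (by omega))
      rw [h0] at f4
      have h5 : (X' i - τ (X' i)) * ev (X' i) (τ (X' i)) T = 0 := by
        rw [← hT5 L]
        rw [f4, div_eq_div_iff f2 f1] at f3
        rw [sub_eq_zero]
        linear_combination -f3
      rcases mul_eq_zero.mp h5 with h6 | h6
      · exact hne' (sub_eq_zero.mp h6).symm
      · exact hdiag i (by omega) T (hT1.trans (by omega)) (hT2.mono (by omega)) hT3 h6 hT4
  -- the relation over `L`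
  obtain ⟨Ψ, hG0, hG1, hG2, hG3⟩ := exists_rel (K := K)
    (ι := {i // i ∈ Finset.range (b + 1)} × Gal(L/K)) (x := fun iσ => iσ.2 (X' iσ.1))
    (y := fun iσ => iσ.2 (τ (X' iσ.1))) (m := b) (n := b) (by
      by_contra hcon
      push Not at hcon
      have e1 := two_apply hTwo hB hq hF hc hP0 hG (fun iσ => iσ.2 (X' iσ.1))
        (fun iσ : {i // i ∈ Finset.range (b + 1)} × Gal(L/K) => iσ.2 (τ (X' iσ.1))) hr hc₀
        (fun v => Finset.univ.filter fun iσ : {i // i ∈ Finset.range (b + 1)} × Gal(L/K) =>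
          ¬ FC K v c₀ (CF K (X' 0)) (iσ.2 (X' iσ.1)) (iσ.2 (τ (X' iσ.1))))
        (fun v hv iσ hi => by
          rw [Finset.mem_filter] at hi
          push Not at hi
          exact hclose _ _ v (hi (Finset.mem_univ _)))
        (fun iσ => by
          have h5 := hFCi iσ.1 iσ.2
          refine h5.trans (le_of_eq ?_)
          congr 1
          refine Finset.sum_congr rfl fun v _ => ?_
          simp only [Finset.mem_filter, Finset.mem_univ, true_and, not_not])
        (H := H) (fun iσ => by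
          rw [canH_conj]
          exact hcan _ (by have := Finset.mem_range.mp iσ.1.2; omega))
        (fun iσ => by
          rw [canH_conj, canH_conj]
          exact hcan _ (by have := Finset.mem_range.mp iσ.1.2; omega))
        (n := b) (s := S₁) (by rw [hb]) hcon
      have e2 : (finrank ℚ K : ℝ) * (S₁ * (c₀ * (Real.log P.absNorm / finrank ℚ K)) / (2 * r)) =
          S₁ * (c₀ * Real.log P.absNorm) / (2 * r) := by
        field_simp
      rw [← e2] at e1
      have e4 := le_of_mul_le_mul_left e1 hκ0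
      have e5 : ((b : ℝ) + b) * H ≤ 1 := by
        refine le_trans (mul_le_mul_of_nonneg_right ?_ hH0.le) hh
        have : b + b ≤ R + 2 * b := by omega
        exact_mod_cast this
      linarith)
  -- the relation over `K`
  obtain ⟨Γ, hΓ0, hΓ1, hΓ2, hΓ3⟩ := hTrc K L {i // i ∈ Finset.range (b + 1)} (fun i => X' i)
    (fun i => τ (X' i)) Ψ b b hG0 hG1 hG2 (fun σ i => hG3 (i, σ))
  have hΓ4 : ∀ i ≤ b, ev (X' i) (τ (X' i)) Γ = 0 := fun i hi =>
    hΓ3 ⟨i, Finset.mem_range.mpr (by omega)⟩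
  have hdeg' : ∀ i ≤ 2 * b, 2 * b * b * q ^ (2 * b) < (minpoly K (X' i)).natDegree := by
    intro i hi
    rw [← hmin i hi]
    exact lt_of_lt_of_le hdeg (hDi i hi)
  have hdegb : ∀ i ≤ 2 * b, b < (minpoly K (X' i)).natDegree := by
    intro i hi
    refine lt_of_le_of_lt ?_ (hdeg' i hi)
    calc b ≤ 2 * b * b * 1 := by nlinarith
      _ ≤ _ := Nat.mul_le_mul_left _ hqW
  -- the irreducible relations
  have hfac : ∀ i, i ≤ b → ∃ g : K[X][X], Irreducible g ∧ g ∣ Γ ∧ 1 ≤ g.natDegree ∧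
      g.natDegree ≤ b ∧ XD b g ∧ ev (X' i) (τ (X' i)) g = 0 := fun i hi =>
    exists_factor hΓ0 hΓ1 hΓ2 (hdegb i (by omega)) (hΓ4 i hi)
  choose! g hg1 hg2 hg3 hg4 hg5 hg6 using hfac
  have hAs : ∃ i i', i < i' ∧ i' ≤ b ∧ Associated (g i) (g i') := by
    by_contra hAs
    push Not at hAs
    have h5 := sum_natDegree_le hΓ0 (Finset.range (b + 1)) g (fun j hj => by
      have : j ≤ b := by
        have := Finset.mem_range.mp hj
        omega
      exact ⟨hg1 j this, hg2 j this⟩) (by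
      intro i hi j hj hij
      have hi' : i ≤ b := by
        have := Finset.mem_range.mp hi
        omega
      have hj' : j ≤ b := by
        have := Finset.mem_range.mp hj
        omega
      rcases lt_or_gt_of_ne hij with h | h
      · exact hAs i j h hj'
      · exact fun h' => hAs j i h hi' h'.symm)
    have h6 : b + 1 ≤ ∑ j ∈ Finset.range (b + 1), (g j).natDegree := by
      calc b + 1 = ∑ j ∈ Finset.range (b + 1), 1 := by simp
        _ ≤ _ := Finset.sum_le_sum fun j hj => hg3 j (by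
          have := Finset.mem_range.mp hj
          omega)
    omega
  obtain ⟨i, i', hii, hi', hass⟩ := hAs
  have hi : i ≤ b := by omega
  obtain ⟨k, hk⟩ : ∃ k, i' = i + k := ⟨i' - i, by omega⟩
  have hk1 : 1 ≤ k := by omega
  have hv' : ev (X' i') (τ (X' i')) (g i) = 0 := by
    obtain ⟨u, hu⟩ := hass
    have h5 := hg6 i' hi'
    rw [ev_eq, ← hu, map_mul, mul_eq_zero] at h5
    rcases h5 with h5 | h5
    · exact h5
    · exact absurd h5 (u.isUnit.map (evH K (X' i') (τ (X' i')))).ne_zero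
  -- normalisation
  obtain ⟨c₁, hc₁, hn1, hn2⟩ := hNrm K P hP0 (g i) (hg1 i hi).ne_zero
  obtain ⟨g', hg'⟩ : ∃ g' : K[X][X], g' = C (C c₁) * g i := ⟨_, rfl⟩
  have hcc : ∀ s j, (g'.coeff j).coeff s = c₁ * ((g i).coeff j).coeff s := by
    intro s j
    rw [hg', coeff_C_mul, coeff_C_mul]
  have hunit : IsUnit (C (C c₁) : K[X][X]) := by
    rw [isUnit_C, isUnit_C]
    exact hc₁.isUnit
  have hirr : Irreducible g' := by
    rw [hg']
    exact (irreducible_isUnit_mul hunit).mpr (hg1 i hi)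
  have hC0 : (C c₁ : K[X]) ≠ 0 := C_ne_zero.mpr hc₁
  have hnat : g'.natDegree = (g i).natDegree := by
    rw [hg', natDegree_C_mul hC0]
  have hXDg : XD b g' := by
    intro j
    rw [hg', coeff_C_mul, natDegree_C_mul hc₁]
    exact hg5 i hi j
  have hevg : ∀ y z : L, ev y z (g i) = 0 → ev y z g' = 0 := by
    intro y z h5
    rw [hg', ev_eq, map_mul, ← ev_eq, ← ev_eq, h5, mul_zero]
  have hint : ∀ s j, ∃ a : 𝓞 K, (g'.coeff j).coeff s = (a : K) := by
    intro s j
    rw [hcc]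
    exact hn1 s j
  -- the diagonal
  have hdg0 : g'.eval X ≠ 0 := by
    intro h0
    have h5 : X - C X ∣ g' := dvd_iff_isRoot.mpr h0
    obtain ⟨h, hh'⟩ := h5
    have h6 : ¬ IsUnit (X - C X : K[X][X]) := not_isUnit_X_sub_C _
    have h7 : IsUnit h := (hirr.isUnit_or_isUnit hh').resolve_left h6
    have h8 := hevg _ _ (hg6 i hi)
    rw [ev_eq, hh', map_mul, mul_eq_zero] at h8
    rcases h8 with h8 | h8
    · apply hne i hi
      have h9 : evH K (X' i) (τ (X' i)) (X - C X) = τ (X' i) - X' i := by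
        rw [map_sub, ← ev_eq, ← ev_eq, ev_C, aeval_X]
        congr 1
        simp [ev_eq, evH]
      rw [h9] at h8
      exact sub_eq_zero.mp h8
    · exact (h7.map (evH K (X' i) (τ (X' i)))).ne_zero h8
  have hdgP : ∀ m, ∃ a : 𝓞 K, a ∈ P ∧ (g'.eval X).coeff m = (a : K) := by
    rcases pprim_or (P := P) (eval_int hint) with h5 | h5
    · exact absurd h5 (hdiag i hi g' (by rw [hnat]; exact (hg4 i hi).trans (by omega))
        (hXDg.mono (by omega)) hint (hevg _ _ (hg6 i hi)))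
    · exact h5
  -- the invariance
  obtain ⟨f1, f2, f3, f4⟩ := hfrac k i (hJ i (by omega)) (hJ (i + k) (by omega))
  have hqk : q ^ k ≤ q ^ (2 * b) := Nat.pow_le_pow_right (by omega) (by omega)
  have hdk : ∀ t, (dz (itF F k t)).natDegree ≤ q ^ k := fun t =>
    hItf.2.2.2.2.2.1 K (itF F k t) (q ^ k) (hItf.1 K F q hF k t)
  have hdvd := hInv K L b (q ^ k) g' hirr (by rw [hnat]; exact hg3 i hi)
    (by rw [hnat]; exact hg4 i hi) hXDg (dz (itF F k 0)) (dz (itF F k 1)) (hdk 0) (hdk 1)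
    (X' i) (τ (X' i)) (hevg _ _ (hg6 i hi)) f1 f2 (by
      rw [← f3, ← f4, ← hk]
      exact hevg _ _ hv') (by
      refine lt_of_le_of_lt ?_ (hdeg' i (by omega))
      exact Nat.mul_le_mul_left _ hqk)
  exact alg_false hVal hAcl hGau hInf hHom hFrm hItr hLdg hMul hSum hNzj hItf hGnz hP0 hG hq hGF
    hGh hqP he hsum hdat hk1 (by rw [hnat]; exact hg4 i hi) hXDg hint (by
      obtain ⟨s, j, a, haP, ha⟩ := hn2
      exact ⟨s, j, a, haP, by rw [hcc, ha]⟩) hdg0 hdgP hdvd

end

end Pool.Agent.N715.AD
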