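import Mathlib
import Pool.Agent.N715.AD.Stm

/-!
Project AD: ramification data do not depend on the scaling of the forms.
-/

set_option autoImplicit false
set_option linter.unusedSectionVars false

namespace Pool.Agent.N715.AD

open MvPolynomial

noncomputable section

lemma bind_scale {R : Type} [CommRing R] (f : Fin (1 + 1) → MvPolynomial (Fin (1 + 1)) R) (μ : R)
    {p : MvPolynomial (Fin (1 + 1)) R} {q : ℕ} (hp : p.IsHomogeneous q) :
    bind₁ (fun j => C μ * f j) p = C (μ ^ q) * bind₁ f p := by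
  have h1 : ∀ g : Fin (1 + 1) → MvPolynomial (Fin (1 + 1)) R, bind₁ g p =
      ∑ d ∈ p.support, C (p.coeff d) * ∏ j, g j ^ d j := by
    intro g
    conv_lhs => rw [p.as_sum]
    rw [map_sum]
    refine Finset.sum_congr rfl fun d _ => ?_
    rw [bind₁_monomial, Finset.prod_subset (Finset.subset_univ d.support)]
    intro j _ hj
    rw [Finsupp.notMem_support_iff.mp hj, pow_zero]
  rw [h1, h1, Finset.mul_sum]
  refine Finset.sum_congr rfl fun d hd => ?_
  have h2 : ∑ j, d j = q := by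
    have h3 := hp (mem_support_iff.mp hd)
    rw [← h3, Finsupp.weight_apply, Finsupp.sum_fintype]
    · simp
    · simp
  have h3 : ∏ j, (C μ * f j) ^ d j = C (μ ^ q) * ∏ j, f j ^ d j := by
    simp only [mul_pow]
    rw [Finset.prod_mul_distrib, Finset.prod_pow_eq_pow_sum, h2, C_pow]
  rw [h3]
  ring

lemma itF_scale {k : Type} [Field k] {Φ : Fin (1 + 1) → MvPolynomial (Fin (1 + 1)) k} {q : ℕ}
    (hΦ : ∀ i, (Φ i).IsHomogeneous q) {c : k} (hc : c ≠ 0) (n : ℕ) :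
    ∃ μ : k, μ ≠ 0 ∧ ∀ i, itF (fun j => C c * Φ j) n i = C μ * itF Φ n i := by
  induction n with
  | zero => exact ⟨1, one_ne_zero, fun i => by simp [itF]⟩
  | succ n ih =>
    obtain ⟨μ, hμ, h⟩ := ih
    refine ⟨c * μ ^ q, mul_ne_zero hc (pow_ne_zero _ hμ), fun i => ?_⟩
    change bind₁ (itF (fun j => C c * Φ j) n) (C c * Φ i) = _
    have h1 : itF (fun j => C c * Φ j) n = fun j => C μ * itF Φ n j := funext h
    rw [h1, map_mul, bind_scale _ _ (hΦ i), bind₁_C_right]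
    change _ = C (c * μ ^ q) * bind₁ (itF Φ n) (Φ i)
    rw [C_mul]
    ring

lemma pt_scale (hItf : ItfLem) {k : Type} [Field k]
    {Φ : Fin (1 + 1) → MvPolynomial (Fin (1 + 1)) k} {q : ℕ}
    (hΦ : ∀ i, (Φ i).IsHomogeneous q) {c : k} (hc : c ≠ 0) (n : ℕ) :
    ∃ μ : k, μ ≠ 0 ∧ (∀ i, itF (fun j => C c * Φ j) n i = C μ * itF Φ n i) ∧
      ∀ z, (pt (fun j => C c * Φ j))^[n] z = μ • (pt Φ)^[n] z := by
  obtain ⟨-, -, hI3, -⟩ := hItf
  obtain ⟨μ, hμ, h⟩ := itF_scale hΦ hc n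
  refine ⟨μ, hμ, h, fun z => ?_⟩
  rw [← hI3, ← hI3]
  funext i
  change eval z (itF _ n i) = μ • eval z (itF Φ n i)
  rw [h, map_mul, eval_C, smul_eq_mul]

lemma dat_scale (hItf : ItfLem) {k : Type} [Field k]
    {Φ : Fin (1 + 1) → MvPolynomial (Fin (1 + 1)) k} {q : ℕ}
    (hΦ : ∀ i, (Φ i).IsHomogeneous q) {c : k} (hc : c ≠ 0) {z : Fin (1 + 1) → k} {n e : ℕ}
    (h : Dat Φ z n e) : Dat (fun j => C c * Φ j) z n e := by
  obtain ⟨μ, hμ, h1, h2⟩ := pt_scale hItf hΦ hc n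
  unfold Dat at h ⊢
  have h3 : itF (fun j => C c * Φ j) n = fun j => C μ * itF Φ n j := funext h1
  rw [h2, h3]
  have h4 : bind₁ (fun j => C μ * itF Φ n j) (lin (μ • (pt Φ)^[n] z)) =
      C (μ * μ) * bind₁ (itF Φ n) (lin ((pt Φ)^[n] z)) := by
    unfold lin
    simp only [map_sub, map_mul, bind₁_C_right, bind₁_X_right, Pi.smul_apply, smul_eq_mul]
    ring
  rw [h4]
  exact h.mul_left _

lemma wdg_smul {k : Type} [Field k] {a b : k} (ha : a ≠ 0) (hb : b ≠ 0)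
    {x y : Fin (1 + 1) → k} (h : wdg x y ≠ 0) : wdg (a • x) (b • y) ≠ 0 := by
  have h1 : wdg (a • x) (b • y) = a * b * wdg x y := by
    unfold wdg
    simp only [Pi.smul_apply, smul_eq_mul]
    ring
  rw [h1]
  exact mul_ne_zero (mul_ne_zero ha hb) h

end

end Pool.Agent.N715.AD
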