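import Mathlib
import Pool.Agent.N715.AD.Loc2
import Pool.Agent.N715.AD.Scl
import Pool.Agent.N715.AD.Stm2
import Pool.Agent.N715.AC.Fin

/-!
Project AD: the constant lower bound for points of bounded degree over abelian extensions.
-/

set_option autoImplicit false
set_option linter.unusedSectionVars false

namespace Pool.Agent.N715.AD

open NumberField Module Filter Topology
open Pool.Agent.W238.Leh
open Pool.Agent.H627.LP (Wnd act_iter_smul)
open Pool.Agent.H627.LR (GR GoodK IC)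
open Pool.Agent.H420R3 (mi nv TP NC ew)
open Pool.Agent.R829.DL (fod fod_iter fod_smul exists_rep canH_hom act_map iter_map)
open Pool.Agent.R829.BG (ax)
open Pool.Agent.N715.AB (bch act_bch_iter canH_bch Wnd_bch exists_model GD)
open Pool.Agent.N715.AC (CF IntLem exists_down finrank_fod_map Wnd_up ratio_mem norm_two
  log_norm_pos)

noncomputable section

section elem

variable {K : Type} [Field K] [NumberField K]

lemma exists_lift {p : MvPolynomial (Fin (1 + 1)) K} (h : IC (N := 1) p) :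
    ∃ p₀ : MvPolynomial (Fin (1 + 1)) (𝓞 K), MvPolynomial.map (algebraMap (𝓞 K) K) p₀ = p := by
  choose c hc using h
  refine ⟨∑ d ∈ p.support, MvPolynomial.monomial d (c d), ?_⟩
  rw [map_sum]
  conv_rhs => rw [p.as_sum]
  refine Finset.sum_congr rfl fun d _ => ?_
  rw [MvPolynomial.map_monomial, hc d]

lemma lift_hom {p₀ : MvPolynomial (Fin (1 + 1)) (𝓞 K)} {q : ℕ}
    (h : (MvPolynomial.map (algebraMap (𝓞 K) K) p₀).IsHomogeneous q) : p₀.IsHomogeneous q := by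
  intro d hd
  apply h
  rw [MvPolynomial.coeff_map]
  intro h0
  exact hd (RingOfIntegers.coe_injective (h0.trans (map_zero (algebraMap (𝓞 K) K)).symm))

lemma notMem_of_lt {P : Ideal (𝓞 K)} [hP : P.IsMaximal] {p : ℕ} (hp : p.Prime)
    (hpP : (p : 𝓞 K) ∈ P) {m : ℕ} (hm : m ≠ 0) (hmp : m < p) : (m : 𝓞 K) ∉ P := by
  intro h
  have h1 : Nat.Coprime m p := by
    rw [Nat.coprime_comm, Nat.Prime.coprime_iff_not_dvd hp]
    exact fun hd => absurd (Nat.le_of_dvd (Nat.pos_of_ne_zero hm) hd) (by omega)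
  apply hP.ne_top
  rw [Ideal.eq_top_iff_one]
  have h2 : IsCoprime (m : 𝓞 K) (p : 𝓞 K) := by
    have h3 := (Nat.isCoprime_iff_coprime.mpr h1).map (Int.castRingHom (𝓞 K))
    simpa using h3
  obtain ⟨u, v, huv⟩ := h2
  rw [← huv]
  exact P.add_mem (P.mul_mem_left _ h) (P.mul_mem_left _ hpP)

lemma prime_unique {P : Ideal (𝓞 K)} [hP : P.IsMaximal] {p p' : ℕ} (hp : p.Prime)
    (hp' : p'.Prime) (h : (p : 𝓞 K) ∈ P) (h' : (p' : 𝓞 K) ∈ P) : p = p' := by
  rcases lt_trichotomy p p' with h1 | h1 | h1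
  · exact absurd h (notMem_of_lt hp' h' hp.ne_zero h1)
  · exact h1
  · exact absurd h' (notMem_of_lt hp h hp'.ne_zero h1)

end elem

/-- **the lower bound** -/
theorem main (hTwo : TwoPLem) (hBad : Bad2Lem) (hTrc : AC.TraceDesc2) (hClo : CloLem)
    (hWro : WroLem) (hNrm : NrmLem) (hInv : InvLem)
    (hVal : ValLem) (hAcl : AclLem) (hGau : GauLem) (hInf : InfLem)
    (hHom : HomLem) (hFrm : FrmLem) (hItr : ItrLem) (hLdg : LdgLem) (hMul : MulLem)
    (hSum : SumLem) (hNzj : NzjLem) (hItf : ItfLem) (hGnz : GnzLem)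
    (hCrt : CrtLem) (hTam : TamLem) (hLift : LiftLem) (hPig : PigLem) (hAb : AbLem)
    (hPrm : Prm1Lem) (hPar : Par3) (hInt : IntLem)
    (K : Type) [Field K] [NumberField K] (q : ℕ) (hq : 2 ≤ q)
    (F : Fin (1 + 1) → MvPolynomial (Fin (1 + 1)) K) (hF : ∀ i, (F i).IsHomogeneous q)
    (hmor : ∀ z : Fin (1 + 1) → AlgebraicClosure K, (∀ i, MvPolynomial.aeval z (F i) = 0) → z = 0)
    {d : ℕ} (z : Fin d → Fin (1 + 1) → AlgebraicClosure K) (n e : Fin d → ℕ)
    (he : ∀ i, 1 ≤ e i)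
    (hdat : ∀ i, Dat (fun j => MvPolynomial.map (algebraMap K (AlgebraicClosure K)) (F j))
      (z i) (n i) (e i))
    (hdist : ∀ i j, i ≠ j → wdg
      ((pt (fun j => MvPolynomial.map (algebraMap K (AlgebraicClosure K)) (F j)))^[n i] (z i))
      ((pt (fun j => MvPolynomial.map (algebraMap K (AlgebraicClosure K)) (F j)))^[n j] (z j)) ≠ 0)
    (hsum : 2 < ∑ i, (1 - 1 / (e i : ℝ)))
    (r : ℕ) :
    ∃ C : ℕ, 1 ≤ C ∧ ∀ (E L : Type) [Field E] [NumberField E]
      [Field L] [NumberField L] [Algebra K E] [Algebra E L] [Algebra K L]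
      [IsScalarTower K E L] [IsAbelianGalois K E],
      finrank E L ≤ r →
      ∀ x : Fin (1 + 1) → L, x ≠ 0 → Wnd F x →
      ∃ h : ℝ, Tendsto (fun n : ℕ => Height.logHeight ((act F)^[n] x) /
          ((finrank ℚ L : ℝ) * (q : ℝ) ^ n)) atTop (𝓝 h) ∧ 1 / (C : ℝ) ≤ h := by
  classical
  have hq0 : (0 : ℝ) < q := by exact_mod_cast (by omega : 0 < q)
  have hd2 : 2 ≤ d := by
    by_contra hcon
    have h1 : ∑ i, (1 - 1 / (e i : ℝ)) ≤ ∑ _i : Fin d, (1 : ℝ) := by
      refine Finset.sum_le_sum fun i _ => ?_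
      have : (0 : ℝ) ≤ 1 / (e i : ℝ) := by positivity
      linarith
    have h2 : (∑ _i : Fin d, (1 : ℝ)) = d := by simp
    have h3 : (d : ℝ) ≤ 1 := by exact_mod_cast (by omega : d ≤ 1)
    linarith
  obtain ⟨b₀, c, a, nb, A, hb0, hmod⟩ := exists_model K q hq F hF hmor 1
  obtain ⟨H, hH⟩ : ∃ H : Fin (1 + 1) → MvPolynomial (Fin (1 + 1)) K,
    H = fun i => MvPolynomial.C (b₀ : K) * F i := ⟨_, rfl⟩
  rw [← hH] at hmod
  have hb0' : (b₀ : K) ≠ 0 := RingOfIntegers.coe_ne_zero_iff.mpr hb0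
  have hhom : ∀ i, (H i).IsHomogeneous q := by
    intro i
    have h7 := (MvPolynomial.isHomogeneous_C (Fin (1 + 1)) (b₀ : K)).mul (hF i)
    rw [zero_add] at h7
    rw [hH]
    exact h7
  have hmor' : ∀ z : Fin (1 + 1) → AlgebraicClosure K, (∀ i, MvPolynomial.aeval z (H i) = 0) →
      z = 0 := by
    intro z hz
    apply hmor
    intro i
    have h1 := hz i
    simp only [hH, map_mul, MvPolynomial.aeval_C] at h1
    refine (mul_eq_zero.mp h1).resolve_left ?_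
    exact (FaithfulSMul.algebraMap_eq_zero_iff K (AlgebraicClosure K)).not.mpr hb0'
  have hGDK : GD K H q c a nb A (finrank ℚ K * 1) := by
    have h1 := hmod K (by rw [finrank_self])
    have h2 : bch K H = H := by
      funext i
      exact MvPolynomial.map_id _
    rwa [h2] at h1
  have hB := hGDK.hB
  have hc := hGDK.hc
  -- the integral model
  obtain ⟨p₀, P₀, hp₀, hP₀, hP₀0, hp₀P, -, hnp₀, -⟩ := hPrm K nb
  have hIC : ∀ i, IC (N := 1) (H i) :=
    (hGDK.good P₀ hP₀ hP₀0 (notMem_of_lt hp₀ hp₀P hGDK.hnb hnp₀)).int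
  choose G hG using fun i => exists_lift (hIC i)
  have hGh : ∀ i, (G i).IsHomogeneous q := fun i => lift_hom (by rw [hG]; exact hhom i)
  obtain ⟨ι, hι⟩ : ∃ ι : K →+* AlgebraicClosure K, ι = algebraMap K (AlgebraicClosure K) :=
    ⟨_, rfl⟩
  have hΦh : ∀ i, (MvPolynomial.map ι (F i)).IsHomogeneous q := fun i => (hF i).map ι
  have hιb : ι (b₀ : K) ≠ 0 := (map_ne_zero ι).mpr hb0'
  have hGΦ : (fun j => MvPolynomial.map ((algebraMap K (AlgebraicClosure K)).comp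
      (algebraMap (𝓞 K) K)) (G j)) =
      fun j => MvPolynomial.C (ι (b₀ : K)) * MvPolynomial.map ι (F j) := by
    funext j
    rw [← hι, ← MvPolynomial.map_map, hG, hH, map_mul, MvPolynomial.map_C]
  rw [← hι] at hdat hdist
  obtain ⟨N, hN, hcrt⟩ := hCrt K q G hGh (by omega) d z n e (fun i => by
      rw [hGΦ]
      exact dat_scale hItf hΦh hιb (hdat i)) (fun i j hij => by
      rw [hGΦ]
      obtain ⟨μ, hμ, -, h1⟩ := pt_scale hItf hΦh hιb (n i)
      obtain ⟨μ', hμ', -, h2⟩ := pt_scale hItf hΦh hιb (n j)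
      rw [h1, h2]
      exact wdg_smul hμ hμ' (hdist i j hij)) hd2
  -- the prime
  obtain ⟨s, hs⟩ : ∃ s, s = r + 1 := ⟨_, rfl⟩
  have hs1 : 1 ≤ s := by omega
  obtain ⟨CT, hCT, htam⟩ := hTam K q hq H hhom hmor' a A hB s
  obtain ⟨p, P, hp, hP, hP0, hpP, hpP2, hnp, hNP⟩ := hPrm K (nb + s + N + CT + q + 3)
  have hnot : ∀ m : ℕ, m ≠ 0 → m ≤ nb + s + N + CT + q + 3 → (m : 𝓞 K) ∉ P := fun m hm hm' =>
    notMem_of_lt hp hpP hm (by omega)
  have hGood : GoodK P H q := hGDK.good P hP hP0 (hnot nb hGDK.hnb (by omega))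
  have hp0 : (0 : ℝ) < p := by exact_mod_cast hp.pos
  -- the parameters
  have hκ0 : (0 : ℝ) < finrank ℚ K := by exact_mod_cast finrank_pos
  have hPn := log_norm_pos (K := K) hP0
  have hE0 : 0 ≤ hC A a * (c + q : ℕ) := mul_nonneg hB.hC_nonneg (Nat.cast_nonneg _)
  obtain ⟨c₀, hc₀⟩ : ∃ c₀ : ℝ, c₀ = 1 / (p : ℝ) ^ 2 := ⟨_, rfl⟩
  have hc₀0 : 0 < c₀ := by rw [hc₀]; positivity
  obtain ⟨ω, hω⟩ : ∃ ω : ℝ, ω = Real.log P.absNorm / finrank ℚ K := ⟨_, rfl⟩
  have hω0 : 0 < ω := by rw [hω]; positivity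
  obtain ⟨S₁, S₂, b, t, R, hS₁, hb, ht, hR, hp1, hp2⟩ := hPar (hC A a * (c + q : ℕ)) c₀ ω s q hE0
    hc₀0 hω0 hs1 hq
  -- points of small degree
  obtain ⟨C₀, hC₀, hgen⟩ := Pool.Agent.W238.Leh.general K 1 q hq H hhom hmor' 1 one_pos
  have hlow : ∀ (L : Type) [Field L] [NumberField L] [Algebra K L]
      (x : Fin (1 + 1) → L), x ≠ 0 → Wnd H x →
      Real.exp (-(C₀ * ((finrank K K * finrank K (fod K x) : ℕ) : ℝ) ^ (((1 : ℕ) : ℝ) + 1))) ≤
        canH H q x := by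
    intro L _ _ _ x hx hw
    obtain ⟨y, hy, hyw, hyc⟩ := exists_down (k := K) hhom hx hw
    have h1 := (hgen (fod K x)).2.2.2 y hy hyw
    rw [hyc]
    rwa [← finrank_mul_finrank K K (fod K x)] at h1
  obtain ⟨D₀, hD₀⟩ : ∃ D₀, D₀ = R + 2 * b * b * q ^ (2 * b) + 1 := ⟨_, rfl⟩
  obtain ⟨ε₀, hε₀⟩ : ∃ ε₀ : ℝ, ε₀ = Real.exp (-(C₀ * (D₀ : ℝ) ^ (((1 : ℕ) : ℝ) + 1))) := ⟨_, rfl⟩
  have hε₀0 : 0 < ε₀ := by rw [hε₀]; exact Real.exp_pos _
  obtain ⟨ε₁, hε₁⟩ : ∃ ε₁ : ℝ, ε₁ = ε₀ / (q : ℝ) ^ (2 * b) := ⟨_, rfl⟩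
  have hε₁0 : 0 < ε₁ := by rw [hε₁]; positivity
  obtain ⟨ε₂, hε₂⟩ : ∃ ε₂ : ℝ, ε₂ = 1 / ((R + 2 * b + 1 : ℕ) * (q : ℝ) ^ b) := ⟨_, rfl⟩
  have hε₂0 : 0 < ε₂ := by rw [hε₂]; positivity
  obtain ⟨ε₃, hε₃⟩ : ∃ ε₃ : ℝ, ε₃ = 1 / (CT * (P.absNorm : ℝ) ^ CT) := ⟨_, rfl⟩
  have hCT0 : (0 : ℝ) < CT := by exact_mod_cast hCT
  have hN0 : (0 : ℝ) < P.absNorm := by
    have := norm_two (K := K) hP0
    exact_mod_cast (by omega : 0 < P.absNorm)
  have hε₃0 : 0 < ε₃ := by rw [hε₃]; positivity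
  -- the core
  have hcore : ∀ (L : Type) [Field L] [NumberField L] [Algebra K L] [IsGalois K L]
      (E : IntermediateField K L) [IsAbelianGalois K E] (x : Fin (1 + 1) → L), x ≠ 0 →
      (x 1 ≠ 0 → (minpoly E (x 0 / x 1)).natDegree ≤ s) → Wnd H x →
      min ε₁ (min ε₂ ε₃) ≤ canH H q x := by
    intro L _ _ _ _ E _ x hx hmp hw
    have hfd : FiniteDimensional K L := Pool.Agent.R829.DL.fd_inter K L
    have hpos : 0 < canH H q x := lt_of_lt_of_le (Real.exp_pos _) (hlow L x hx hw)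
    by_cases hsm : finrank K (fod K ((act H)^[2 * b] x)) ≤ D₀
    · refine (min_le_left _ _).trans ?_
      have hw' : Wnd H ((act H)^[2 * b] x) := by
        rintro ⟨m, n, hmn, d, hd, hd'⟩
        rw [← Function.iterate_add_apply, ← Function.iterate_add_apply] at hd'
        exact hw ⟨m + 2 * b, n + 2 * b, by omega, d, hd, hd'⟩
      have h1 := hlow L ((act H)^[2 * b] x) (hB.iter_ne_zero hx _) hw'
      have hcan : canH H q ((act H)^[2 * b] x) = (q : ℝ) ^ (2 * b) * canH H q x :=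
        hB.canH_iter hq hx (2 * b)
      rw [hcan, finrank_self, one_mul] at h1
      rw [hε₁, div_le_iff₀ (by positivity), mul_comm]
      refine le_trans ?_ h1
      rw [hε₀]
      apply Real.exp_le_exp.mpr
      apply neg_le_neg
      apply mul_le_mul_of_nonneg_left _ hC₀.le
      apply Real.rpow_le_rpow (by positivity) _ (by positivity)
      exact_mod_cast hsm
    push Not at hsm
    have hDle : finrank K (fod K ((act H)^[2 * b] x)) ≤ finrank K (fod K x) := by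
      have h1 : fod K ((act H)^[2 * b] x) ≤ fod K ((act H)^[0] x) :=
        fod_iter hB hhom hx (Nat.zero_le _)
      exact LinearMap.finrank_le_finrank_of_injective
        (f := (IntermediateField.inclusion h1).toLinearMap)
        (IntermediateField.inclusion_injective h1)
    have hx1 : x 1 ≠ 0 := by
      intro h0
      have h1 := Pool.Agent.N715.AB.fod_inf (K := K) h0
      rw [h1] at hDle
      omega
    have hmp1 := hmp hx1
    obtain ⟨E', hE'⟩ : ∃ E' : IntermediateField K L,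
      E' = E ⊓ IntermediateField.adjoin K {x 0 / x 1} := ⟨_, rfl⟩
    have hEab : IsAbelianGalois K E' := by
      rw [hE']
      exact IsAbelianGalois.of_algHom (IntermediateField.inclusion inf_le_left)
    have hEx : E' ≤ IntermediateField.adjoin K {x 0 / x 1} := by
      rw [hE']
      exact inf_le_right
    have hmp' : (minpoly E' (x 0 / x 1)).natDegree ≤ s := by
      rw [hE']
      exact hInt K L E (x 0 / x 1) s hmp1
    by_cases htm : ∀ p' : ℕ, p'.Prime → (p' : 𝓞 K) ∈ P → ∀ u ∈ TP E' P,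
        ¬ p' ∣ (mi u).ramificationIdx (𝓞 K)
    · -- the tame case
      refine (min_le_right _ _).trans ((min_le_right _ _).trans ?_)
      rw [hε₃]
      exact htam L E' x hx1 hw hEx hmp' P hP0 (hnot CT (by omega) (by omega)) htm
    -- the wild case
    push Not at htm
    obtain ⟨p', hp', hp'P, u, hu, hdvd⟩ := htm
    obtain rfl : p = p' := prime_unique hp hp' hpP hp'P
    refine (min_le_right _ _).trans ((min_le_left _ _).trans ?_)
    by_contra hcon
    push Not at hcon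
    obtain ⟨ρ, hρ1, hρ2⟩ := hAb K L P hP0 p hp (by omega) hpP hpP2 hNP E' ⟨u, hu, hdvd⟩
    have hexp : ∀ v : FinitePlace L, Real.exp (-(ew K v / (p : ℝ) ^ 2)) =
        Real.exp (-(c₀ * ew K v)) := by
      intro v
      rw [hc₀]
      congr 2
      ring
    have hlift := hLift K L P hP0 p hp hpP E' (x 0 / x 1) s hEx hmp' (by omega) c₀ hc₀0 ρ
      (fun v hv y hy => by
        rw [← hexp]
        exact hρ2 v hv y hy)
    obtain ⟨τ, hτ1, hτ2⟩ := hPig K L P hP0 E' (x 0 / x 1) s c₀ hEx hmp' ρ hρ1 hlift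
    have hax : ax H x 0 = x 0 / x 1 := rfl
    refine local_wild hTwo hBad hTrc hClo hWro hNrm hInv hVal hAcl hGau hInf hHom hFrm hItr hLdg
      hMul hSum hNzj hItf hGnz hB hq hhom hc hP0 hGood (G := G) (n := n) (fun i => (hG i).symm) hGh
      (hnot q (by omega) (by omega)) he hsum ?_ hx hpos (τ := τ) (r := s) (b := b) (t := t)
      (S₁ := S₁) (S₂ := S₂) (R := R) (c₀ := c₀) hc₀0 hs1 hτ1 ?_ hb hS₁ ht hR ?_ ?_ ?_ ?_ ?_
    · intro A' ψ hψ1 hψ2
      refine hcrt A' ψ hψ1 ?_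
      intro h0
      have h1 : red A' (ψ (N : 𝓞 K)) = 0 := by
        rw [map_natCast, map_natCast]
        exact h0
      exact hnot N hN (by omega) ((hψ2 _).mp h1)
    · exact hτ2
    · rw [← hω]
      have h1 : (S₁ : ℝ) * (c₀ * ω) / (4 * s) ≤ S₁ * (c₀ * ω) / (2 * s) := by
        have hs0 : (0 : ℝ) < s := by exact_mod_cast hs1
        apply div_le_div_of_nonneg_left (by positivity) (by positivity)
        linarith
      linarith
    · rw [← hω]
      linarith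
    · omega
    · omega
    · rw [hε₂, lt_div_iff₀ (by positivity)] at hcon
      have h1 : ((R + 2 * b : ℕ) : ℝ) ≤ (R + 2 * b + 1 : ℕ) := by
        exact_mod_cast (by omega : R + 2 * b ≤ R + 2 * b + 1)
      have h2 : 0 < (q : ℝ) ^ b * canH H q x := by positivity
      have h3 := mul_le_mul_of_nonneg_right h1 h2.le
      nlinarith
  -- the constant
  have hmin0 : 0 < min ε₁ (min ε₂ ε₃) := lt_min hε₁0 (lt_min hε₂0 hε₃0)
  obtain ⟨C, hC⟩ := exists_nat_ge (1 / min ε₁ (min ε₂ ε₃))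
  refine ⟨C + 1, by omega, ?_⟩
  have hCle : 1 / ((C + 1 : ℕ) : ℝ) ≤ min ε₁ (min ε₂ ε₃) := by
    rw [div_le_iff₀ (by positivity)]
    rw [div_le_iff₀ hmin0] at hC
    push_cast
    nlinarith
  intro E₀ L₀ _ _ _ _ _ _ _ _ _ hr x₀ hx₀ hw₀
  have hB' : Bds (fun i => MvPolynomial.C (b₀ : K) * F i) q A a := by
    rw [← hH]
    exact hB
  obtain ⟨hw1, hlim⟩ := Pool.Agent.H627.LR.transfer_scale hb0 hF hq hB' hx₀
  rw [← hH] at hw1 hlim
  refine ⟨canH H q x₀, hlim, hCle.trans ?_⟩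
  have hw₀' := hw1 hw₀
  -- the Galois closure
  let L := NC K L₀
  have hfd₀ : FiniteDimensional K L₀ := Pool.Agent.R829.DL.fd_inter K L₀
  have hfd₁ : FiniteDimensional E₀ L₀ := Pool.Agent.R829.DL.fd_inter E₀ L₀
  have hfd : FiniteDimensional K L := Pool.Agent.R829.DL.fd_inter K L
  let φ : L₀ →ₐ[K] L := IsScalarTower.toAlgHom K L₀ L
  let x : Fin (1 + 1) → L := fun i => φ (x₀ i)
  have hx : x ≠ 0 := by
    intro h
    apply hx₀
    funext i
    have h1 : φ (x₀ i) = 0 := congrFun h i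
    exact (map_eq_zero φ).mp h1
  have hw : Wnd H x := Wnd_up hB φ hx₀ hw₀'
  have hcan : canH H q x = canH H q x₀ := canH_hom φ H q x₀
  let ψ : E₀ →ₐ[K] L := φ.comp (IsScalarTower.toAlgHom K E₀ L₀)
  let E : IntermediateField K L := ψ.fieldRange
  let e' : E₀ ≃ₐ[K] E := AlgEquiv.ofInjectiveField ψ
  have hEab : IsAbelianGalois K E := IsAbelianGalois.of_algHom (e'.symm : E →ₐ[K] E₀)
  have hmp : ∀ z₀ : L₀, (minpoly E (φ z₀)).natDegree ≤ s := by
    intro z₀
    have hint : IsIntegral E₀ z₀ := Algebra.IsIntegral.isIntegral z₀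
    have h1 : Polynomial.aeval (φ z₀) ((minpoly E₀ z₀).map (e' : E₀ →+* E)) = 0 := by
      have h2 : Polynomial.aeval (φ z₀) ((minpoly E₀ z₀).map (e' : E₀ →+* E)) =
          φ (Polynomial.aeval z₀ (minpoly E₀ z₀)) := by
        rw [Polynomial.aeval_def, Polynomial.eval₂_map, Polynomial.aeval_def]
        exact (Polynomial.hom_eval₂ (minpoly E₀ z₀) (algebraMap E₀ L₀) (φ : L₀ →+* L) z₀).symm
      rw [h2, minpoly.aeval, map_zero]
    have h3 : ((minpoly E₀ z₀).map (e' : E₀ →+* E)) ≠ 0 :=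
      (Polynomial.Monic.map _ (minpoly.monic hint)).ne_zero
    have h4 := Polynomial.natDegree_le_natDegree (minpoly.degree_le_of_ne_zero E (φ z₀) h3 h1)
    have h5 : (minpoly E₀ z₀).natDegree ≤ finrank E₀ L₀ := minpoly.natDegree_le z₀
    rw [Polynomial.natDegree_map] at h4
    omega
  have hmp' : x 1 ≠ 0 → (minpoly E (x 0 / x 1)).natDegree ≤ s := by
    intro _
    have h1 : x 0 / x 1 = φ (x₀ 0 / x₀ 1) := (map_div₀ φ _ _).symm
    rw [h1]
    exact hmp _
  have h1 := hcore L E x hx hmp' hw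
  rwa [hcan] at h1

end

end Pool.Agent.N715.AD
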