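import Mathlib
import Pool.Agent.N715.AD.Stm2
import Pool.Agent.N715.AD.Cyk
import Pool.Agent.N715.AD.Lif

/-!
Project AD, second part: the wild inertia group of an abelian extension at an unramified prime of
degree one is not of type `(p, p)` (NPP).  By helper323.
-/

set_option autoImplicit false
set_option linter.unusedSectionVars false

namespace Pool.Agent.N715.AD

open NumberField Module
open Pool.Agent.H420R3 (mi nv TP ew nv_pos one_lt_nv card_inertia v_le_iff)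
open Pool.Agent.R829.BH (inertia_v)

noncomputable section

namespace Npp

section Basic

variable {K M : Type} [Field K] [Field M] [NumberField M] [Algebra K M] {v : FinitePlace M}

lemma w_pos (v : FinitePlace M) : 0 < (nv v)⁻¹ := inv_pos.2 (nv_pos v)

lemma w_lt (v : FinitePlace M) : (nv v)⁻¹ < 1 := inv_lt_one_of_one_lt₀ (one_lt_nv v)

lemma w_pow_le {a b : ℕ} : (nv v)⁻¹ ^ a ≤ (nv v)⁻¹ ^ b ↔ b ≤ a :=
  pow_le_pow_iff_right_of_lt_one₀ (w_pos v) (w_lt v)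

lemma Rn_mono {n m : ℕ} (h : m ≤ n) {σ : Gal(M/K)} (hn : Rn K v n σ) : Rn K v m σ := by
  intro z
  refine (hn z).trans ?_
  have h1 : (nv v)⁻¹ ^ n ≤ (nv v)⁻¹ ^ m := w_pow_le.2 h
  have h2 : 0 ≤ v z := by positivity
  exact mul_le_mul_of_nonneg_right h1 h2

lemma Rn_one (n : ℕ) : Rn K v n (1 : Gal(M/K)) := by
  intro z
  rw [AlgEquiv.one_apply, sub_self, map_zero]
  have := w_pos v
  positivity

lemma exists_jump {σ : Gal(M/K)} (h1 : Rn K v 1 σ) (hσ : σ ≠ 1) :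
    ∃ t, 1 ≤ t ∧ Rn K v t σ ∧ ¬ Rn K v (t + 1) σ := by
  classical
  have hex : ∃ n, ¬ Rn K v (n + 1) σ := by
    by_contra hcon
    push Not at hcon
    apply hσ
    ext z
    rw [AlgEquiv.one_apply]
    by_contra hz
    have h2 : 0 < v (σ z - z) := FinitePlace.pos_iff.2 (sub_ne_zero.2 hz)
    have h3 : Filter.Tendsto (fun n : ℕ => (nv v)⁻¹ ^ (n + 1) * v z) Filter.atTop (nhds 0) := by
      have h4 := (Filter.tendsto_add_atTop_iff_nat 1).2
        (tendsto_pow_atTop_nhds_zero_of_lt_one (w_pos v).le (w_lt v))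
      have h5 := h4.mul_const (v z)
      rwa [zero_mul] at h5
    obtain ⟨n, hn⟩ := (h3.eventually (gt_mem_nhds h2)).exists
    exact absurd (hcon n z) (not_le.2 hn)
  obtain ⟨t, ht⟩ : ∃ t, t = Nat.find hex := ⟨_, rfl⟩
  have hspec : ¬ Rn K v (t + 1) σ := by rw [ht]; exact Nat.find_spec hex
  have ht1 : 1 ≤ t := by
    by_contra h0
    have h2 : t = 0 := by omega
    rw [h2] at hspec
    exact hspec h1
  refine ⟨t, ht1, ?_, hspec⟩
  have h2 : ¬ ¬ Rn K v (t - 1 + 1) σ := Nat.find_min hex (by omega)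
  have h3 : t - 1 + 1 = t := by omega
  rw [h3] at h2
  exact not_not.1 h2

lemma v_pow {x : M} (hx : x ≠ 0) (hx1 : v x ≤ 1) : ∃ k : ℕ, v x = (nv v)⁻¹ ^ k := by
  obtain ⟨k, hk⟩ := Lif.v_pow_of_le hx hx1
  exact ⟨k, by rw [hk, inv_pow]⟩

/-- a uniformiser -/
lemma exists_pi (v : FinitePlace M) : ∃ π : M, v π = (nv v)⁻¹ := by
  have h1 : mi v ^ 2 < mi v := by
    have := Ideal.pow_lt_self (mi v) (H420R3.mi_ne_bot v) (Ideal.IsMaximal.ne_top inferInstance)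
      2 le_rfl
    exact this
  obtain ⟨a, ha, ha2⟩ := SetLike.exists_of_lt h1
  have h2 : v (a : M) ≤ (nv v ^ 1)⁻¹ := (v_le_iff v a 1).2 (by rwa [pow_one])
  have h3 : ¬ v (a : M) ≤ (nv v ^ 2)⁻¹ := fun h => ha2 ((v_le_iff v a 2).1 h)
  have ha0 : (a : M) ≠ 0 := by
    intro h
    apply h3
    rw [h, map_zero]
    have := nv_pos v
    positivity
  obtain ⟨k, hk⟩ := v_pow ha0 (H420R3.v_le_one v a)
  rw [← inv_pow, hk, w_pow_le] at h2 h3
  have hk1 : k = 1 := by omega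
  rw [hk1, pow_one] at hk
  exact ⟨a, hk⟩

end Basic

end Npp

open Npp in
/-- (NPP) -/
theorem nppLem (h2 : RuLem) (h3 : RwLem) (h4 : RoLem) (h5 : RtLem) (h6 : RqLem) (h7 : RrLem)
    (h8 : RnLem) : NppLem := by
  intro K _ _ M _ _ _ _ P hPm hP0 p hp hp3 hpP hpP2 hnorm v hv e₀ he₀ hcard hexp
  classical
  have hfp : Fact p.Prime := ⟨hp⟩
  have he1 : 1 ≤ e₀ := by
    by_contra h
    have h0 : e₀ = 0 := by omega
    exact he₀ (h0 ▸ dvd_zero p)
  -- the value of `p`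
  have hvp : v (p : M) = (nv v)⁻¹ ^ (e₀ * p ^ 2) := by
    have hc : Nat.card ((mi v).inertia Gal(M/K)) = e₀ * p ^ 2 := hcard
    rw [Cyk.v_p hP0 hv hpP hpP2, ← card_inertia hP0 hv, hc, Real.exp_neg, Real.exp_nat_mul,
      Real.exp_log (nv_pos v), inv_pow]
  have hcomm : ∀ a b : Gal(M/K), a * b = b * a :=
    (inferInstance : IsMulCommutative Gal(M/K)).is_comm.comm
  -- a group of order `p ^ 2` in the inertia group
  obtain ⟨S₀, hS₀⟩ := Sylow.exists_subgroup_card_pow_prime (G := In K v) p (n := 2)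
    (by rw [hcard]; exact Dvd.intro_left _ rfl)
  obtain ⟨S, hS⟩ : ∃ S : Subgroup Gal(M/K), S = S₀.map (In K v).subtype := ⟨_, rfl⟩
  have hSI : ∀ s ∈ S, s ∈ In K v := by
    intro s hs
    rw [hS] at hs
    obtain ⟨t, _, rfl⟩ := hs
    exact t.2
  have hSc : Nat.card S = p ^ 2 := by
    rw [hS, Subgroup.card_map_of_injective (Subgroup.subtype_injective _), hS₀]
  have hSp : ∀ s ∈ S, s ^ p = 1 := by
    intro s hs
    apply hexp s (hSI s hs)
    have h1 := pow_card_eq_one' (G := S) (x := ⟨s, hs⟩)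
    rw [hSc] at h1
    exact congrArg Subtype.val h1
  have hSw : ∀ s ∈ S, Rn K v 1 s := by
    intro s hs
    refine h3 K M P hP0 p hp hpP v hv s (hSI s hs) 1 ?_
    rw [pow_one]
    exact hSp s hs
  have hp2 : 1 < p ^ 2 := Nat.one_lt_pow (by norm_num) hp.one_lt
  -- an element of `S` with the smallest jump
  have hex : ∃ t, ∃ h ∈ S, h ≠ 1 ∧ Rn K v t h ∧ ¬ Rn K v (t + 1) h := by
    obtain ⟨h, hh⟩ : ∃ h : S, h ≠ 1 := by
      by_contra hcon
      push Not at hcon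
      have : Subsingleton S := ⟨fun a b => by rw [hcon a, hcon b]⟩
      have := Nat.card_of_subsingleton (1 : S)
      omega
    have hh' : (h : Gal(M/K)) ≠ 1 := fun e => hh (Subtype.ext e)
    obtain ⟨t, _, ht2, ht3⟩ := exists_jump (hSw h h.2) hh'
    exact ⟨t, h, h.2, hh', ht2, ht3⟩
  obtain ⟨t₁, ht₁⟩ : ∃ t, t = Nat.find hex := ⟨_, rfl⟩
  obtain ⟨h, hhS, hh1, hhR, hhR'⟩ : ∃ h ∈ S, h ≠ 1 ∧ Rn K v t₁ h ∧ ¬ Rn K v (t₁ + 1) h := by
    rw [ht₁]
    exact Nat.find_spec hex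
  have hmin : ∀ s ∈ S, Rn K v t₁ s := by
    intro s hs
    by_cases h1 : s = 1
    · rw [h1]
      exact Rn_one _
    · obtain ⟨t, _, ht2, ht3⟩ := exists_jump (hSw s hs) h1
      have h9 : t₁ ≤ t := by
        rw [ht₁]
        exact Nat.find_min' hex ⟨s, hs, h1, ht2, ht3⟩
      exact Rn_mono h9 ht2
  have ht11 : 1 ≤ t₁ := by
    by_contra h0
    have h1 : t₁ = 0 := by omega
    rw [h1] at hhR'
    exact hhR' (hSw h hhS)
  have hoh : orderOf h = p := orderOf_eq_prime (hSp h hhS) hh1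
  obtain ⟨Z, hZ⟩ : ∃ Z : Subgroup Gal(M/K), Z = Subgroup.zpowers h := ⟨_, rfl⟩
  have hZc : Nat.card Z = p := by rw [hZ, Nat.card_zpowers, hoh]
  have hhZ : h ∈ Z := by rw [hZ]; exact Subgroup.mem_zpowers h
  obtain ⟨s', hs'S, hs'Z⟩ : ∃ s' ∈ S, s' ∉ Z := by
    by_contra hcon
    push Not at hcon
    have h1 : Nat.card S ≤ Nat.card Z := Subgroup.card_le_of_le hcon
    rw [hSc, hZc] at h1
    have : p * 1 < p * p := Nat.mul_lt_mul_of_pos_left hp.one_lt hp.pos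
    nlinarith
  obtain ⟨k, hk⟩ := h6 K M P hP0 p hp hpP hnorm v hv t₁ h s' ht11 hhR hhR' (hmin s' hs'S)
  obtain ⟨s₂, hs₂⟩ : ∃ s₂, s₂ = s' * h ^ k := ⟨_, rfl⟩
  rw [← hs₂] at hk
  have hs₂S : s₂ ∈ S := by rw [hs₂]; exact S.mul_mem hs'S (S.pow_mem hhS k)
  have hs₂Z : s₂ ∉ Z := by
    rw [hs₂]
    intro h1
    exact hs'Z ((Subgroup.mul_mem_cancel_right Z (Z.pow_mem hhZ k)).1 h1)
  have hs₂1 : s₂ ≠ 1 := fun e => hs₂Z (e ▸ Z.one_mem)
  obtain ⟨t₂, ht21, ht2R, ht2R'⟩ := exists_jump (hSw s₂ hs₂S) hs₂1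
  have ht12 : t₁ + 1 ≤ t₂ := by
    by_contra hcon
    exact ht2R' (Rn_mono (by omega) hk)
  have hd1 : e₀ ∣ t₁ := h5 K M P hP0 p hp hpP v hv e₀ 2 t₁ h he₀ hcard ht11 hhR hhR'
  have hd2 : e₀ ∣ t₂ := h5 K M P hP0 p hp hpP v hv e₀ 2 t₂ s₂ he₀ hcard ht21 ht2R ht2R'
  have hE1 : e₀ ≤ t₁ := Nat.le_of_dvd (by omega) hd1
  have hE2 : t₁ + e₀ ≤ t₂ := by
    have h1 : e₀ ∣ t₂ - t₁ := Nat.dvd_sub hd2 hd1
    have h2 := Nat.le_of_dvd (by omega) h1
    omega
  -- the field fixed by `h`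
  obtain ⟨M', hM'⟩ : ∃ M' : IntermediateField K M, M' = IntermediateField.fixedField Z := ⟨_, rfl⟩
  have hfix : M'.fixingSubgroup = Z := by
    rw [hM']
    exact IntermediateField.fixingSubgroup_fixedField Z
  have habel : IsAbelianGalois K M' := inferInstance
  have hgal : IsGalois K M' := habel.toIsGalois
  obtain ⟨v', hv', f, hf1, hf2, hf3, hf4, hf5, hf6, hf7⟩ := h7 K M M' P hP0 v hv
  have hfp' : f = p := by
    have h1 : (In K v ⊓ M'.fixingSubgroup : Subgroup Gal(M/K)) = Z := by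
      rw [hfix, inf_eq_right, hZ, Subgroup.zpowers_le]
      exact hSI h hhS
    rw [h1, hZc] at hf3
    exact hf3
  subst hfp'
  have hcard' : Nat.card (In K v') = e₀ * f ^ 1 := by
    rw [hcard] at hf2
    have h1 : f * (e₀ * f ^ 1) = f * Nat.card (In K v') := by rw [← hf2]; ring
    exact (Nat.eq_of_mul_eq_mul_left hp.pos h1).symm
  have hrest : ∀ (σ : Gal(M/K)) (z : M'),
      ((AlgEquiv.restrictNormalHom M' σ z : M') : M) = σ z :=
    fun σ z => AlgEquiv.restrictNormal_commutes σ M' z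
  obtain ⟨s₃, hs₃⟩ : ∃ s₃, s₃ = AlgEquiv.restrictNormalHom M' s₂ := ⟨_, rfl⟩
  have hs₃I : s₃ ∈ In K v' := by rw [hs₃]; exact hf6 s₂ (hSI s₂ hs₂S)
  have hs₃p : s₃ ^ f = 1 := by rw [hs₃, ← map_pow, hSp s₂ hs₂S, map_one]
  have hs₃1 : s₃ ≠ 1 := by
    intro h1
    apply hs₂Z
    rw [← hfix, IntermediateField.mem_fixingSubgroup_iff]
    intro x hx
    have h9 := hrest s₂ ⟨x, hx⟩
    rw [← hs₃, h1] at h9
    exact h9.symm
  -- the uniformiser of `M'`
  obtain ⟨π, hπ⟩ := exists_pi v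
  have hπ0 : π ≠ 0 := by
    rintro rfl
    rw [map_zero] at hπ
    exact (w_pos v).ne hπ
  obtain ⟨π', hπ'⟩ : ∃ π', π' = ∏ j ∈ Finset.range f, (h ^ j) π := ⟨_, rfl⟩
  have hhp : h ^ f = 1 := hSp h hhS
  have hπ'h : h π' = π' := by
    rw [hπ', map_prod]
    have h1 : ∀ j, h ((h ^ j) π) = (h ^ (j + 1)) π := by
      intro j
      rw [pow_succ', AlgEquiv.mul_apply]
    rw [Finset.prod_congr rfl fun j _ => h1 j]
    have h9 : (∏ j ∈ Finset.range f, (h ^ (j + 1)) π) * (h ^ 0) π =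
        (∏ j ∈ Finset.range f, (h ^ j) π) * (h ^ f) π := by
      rw [← Finset.prod_range_succ' (fun j => (h ^ j) π), Finset.prod_range_succ]
    rw [hhp, pow_zero] at h9
    exact mul_right_cancel₀ (by rw [AlgEquiv.one_apply]; exact hπ0) h9
  have hπ'M : π' ∈ M' := by
    rw [hM', IntermediateField.mem_fixedField_iff]
    intro g hg
    rw [hZ] at hg
    obtain ⟨n, rfl⟩ := Subgroup.mem_zpowers_iff.1 hg
    have h1 : h ∈ MulAction.stabilizer Gal(M/K) π' := hπ'h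
    have h9 := Subgroup.zpow_mem _ h1 n
    exact h9
  have hvπj : ∀ j : ℕ, v ((h ^ j) π) = (nv v)⁻¹ := by
    intro j
    rw [inertia_v (Subgroup.pow_mem _ (hSI h hhS) j), hπ]
  have hvπ' : v π' = (nv v)⁻¹ ^ f := by
    rw [hπ', map_prod, Finset.prod_congr rfl fun j _ => hvπj j, Finset.prod_const,
      Finset.card_range]
  have hπ'0 : π' ≠ 0 := by
    rintro h1
    rw [h1, map_zero] at hvπ'
    exact (pow_pos (w_pos v) f).ne hvπ'
  obtain ⟨q, hq⟩ : ∃ q : M', (q : M) = π' := ⟨⟨π', hπ'M⟩, rfl⟩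
  have hq0 : q ≠ 0 := by
    rintro rfl
    exact hπ'0 hq.symm
  have hv1 : ∀ z : M', v (z : M) ≤ 1 → v' z ≤ 1 := by
    intro z hz
    have := (hf4 z 0).2
    rw [mul_zero, pow_zero, pow_zero] at this
    exact this hz
  have hvq : v' q = (nv v')⁻¹ := by
    have a1 := (hf4 q 1).2 (by rw [hq, hvπ', mul_one])
    have a2 : ¬ v' q ≤ (nv v')⁻¹ ^ 2 := by
      intro h1
      have h9 := (hf4 q 2).1 h1
      rw [hq, hvπ', w_pow_le] at h9
      have := hp.pos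
      omega
    obtain ⟨k, hk⟩ := v_pow (v := v') hq0 (hv1 q (by
      rw [hq, hvπ']
      exact pow_le_one₀ (w_pos v).le (w_lt v).le))
    rw [hk, w_pow_le] at a1 a2
    have hk1 : k = 1 := by omega
    rw [hk, hk1, pow_one]
  -- the move of the uniformiser
  obtain ⟨a, ha⟩ : ∃ a, a = s₂ π / π - 1 := ⟨_, rfl⟩
  have hva : v a ≤ (nv v)⁻¹ ^ t₂ := by
    have h1 : a = (s₂ π - π) / π := by
      rw [ha]
      field_simp
    have h9 := ht2R π
    have hvπ0 : 0 < v π := FinitePlace.pos_iff.2 hπ0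
    rw [h1, map_div₀, div_le_iff₀ hvπ0]
    exact h9
  have hprod : ∏ j ∈ Finset.range f, (1 + (h ^ j) a) = s₂ π' / π' := by
    have h1 : ∀ j, 1 + (h ^ j) a = s₂ ((h ^ j) π) / (h ^ j) π := by
      intro j
      have h9 : s₂ ((h ^ j) π) = (h ^ j) (s₂ π) := by
        rw [← AlgEquiv.mul_apply, ← AlgEquiv.mul_apply, hcomm]
      rw [ha, map_sub, map_one, map_div₀, h9]
      ring
    rw [Finset.prod_congr rfl fun j _ => h1 j, Finset.prod_div_distrib, hπ', map_prod]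
  have hf3' : 3 ≤ f := hp3
  have hT := h8 K M v f (e₀ * f ^ 2) t₁ t₂ (f * e₀ + 1) h a hp hvp hhp hhR hva
    (by
      obtain ⟨g, hg⟩ : ∃ g, f = g + 1 := ⟨f - 1, by omega⟩
      rw [hg, Nat.add_sub_cancel]
      nlinarith [Nat.mul_le_mul_left g hE1])
    (by
      have : f * e₀ ≤ e₀ * f ^ 2 := by nlinarith
      omega)
    (by
      have h1 : 2 * e₀ ≤ t₂ := by omega
      nlinarith [Nat.mul_le_mul_left f h1])
  rw [hprod] at hT
  -- the move in `M'`
  obtain ⟨y, hy⟩ : ∃ y : M', y = s₃ q / q - 1 := ⟨_, rfl⟩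
  have hyM : (y : M) = s₂ π' / π' - 1 := by
    have h1 : ((s₃ q : M') : M) = s₂ π' := by rw [hs₃, hrest, hq]
    rw [hy, ← h1, ← hq]
    push_cast
    rfl
  rw [← hyM] at hT
  have hvy : v' y ≤ (nv v')⁻¹ ^ (e₀ + 1) := by
    by_cases hy0 : y = 0
    · rw [hy0, map_zero]
      exact (pow_pos (w_pos v') _).le
    · have h1 : v' (y ^ f) ≤ (nv v')⁻¹ ^ (f * e₀ + 1) := by
        rw [hf4]
        push_cast
        rw [map_pow, mul_comm f (f * e₀ + 1), pow_mul]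
        exact pow_le_pow_left₀ (by positivity) hT f
      obtain ⟨n, hn⟩ := v_pow (v := v') hy0 (hv1 y (hT.trans
        (pow_le_one₀ (w_pos v).le (w_lt v).le)))
      rw [map_pow, hn, ← pow_mul, w_pow_le] at h1
      rw [hn, w_pow_le]
      by_contra hcon
      have h9 : n ≤ e₀ := by omega
      have h10 : n * f ≤ e₀ * f := Nat.mul_le_mul_right f h9
      nlinarith
  have hR3 : Rn K v' (e₀ + 1) s₃ := by
    refine h2 K M' P hP0 v' hv' s₃ hs₃I (e₀ + 1) q (by omega) hvq ?_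
    have h1 : s₃ q - q = y * q := by
      rw [hy]
      field_simp
    rw [h1, map_mul]
    exact mul_le_mul_of_nonneg_right hvy (by positivity)
  obtain ⟨t₃, ht31, ht3R, ht3R'⟩ := exists_jump (Rn_mono (by omega) hR3 : Rn K v' 1 s₃) hs₃1
  have ht3e : e₀ + 1 ≤ t₃ := by
    by_contra hcon
    exact ht3R' (Rn_mono (by omega) hR3)
  have hd3 : e₀ ∣ t₃ :=
    h5 K M' P hP0 f hp hpP v' hv' e₀ 1 t₃ s₃ he₀ hcard' ht31 ht3R ht3R'
  have ht3 : 2 * e₀ ≤ t₃ := by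
    obtain ⟨c, hc⟩ := hd3
    have hc2 : 2 ≤ c := by
      by_contra hcon
      have h1 : c ≤ 1 := by omega
      have h9 := Nat.mul_le_mul_left e₀ h1
      omega
    rw [hc, mul_comm 2]
    exact Nat.mul_le_mul_left e₀ hc2
  -- the value of `p` in `M'`
  have hvp' : v' (f : M') = (nv v')⁻¹ ^ (e₀ * f) := by
    have hf0 : (f : M') ≠ 0 := by exact_mod_cast hp.ne_zero
    have hfM : (((f : M') : M)) = (f : M) := by push_cast; rfl
    have a1 := (hf4 (f : M') (e₀ * f)).2 (by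
      rw [hfM, hvp, w_pow_le]
      exact le_of_eq (by ring))
    have a2 : ¬ v' (f : M') ≤ (nv v')⁻¹ ^ (e₀ * f + 1) := by
      intro h1
      have h9 := (hf4 (f : M') (e₀ * f + 1)).1 h1
      rw [hfM, hvp, w_pow_le] at h9
      have h10 : f * (e₀ * f + 1) = e₀ * f ^ 2 + f := by ring
      rw [h10] at h9
      omega
    obtain ⟨k, hk⟩ := v_pow (v := v') hf0 (hv1 _ (by
      rw [hfM, hvp]
      exact pow_le_one₀ (w_pos v).le (w_lt v).le))
    rw [hk, w_pow_le] at a1 a2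
    have hk1 : k = e₀ * f := by omega
    rw [hk, hk1]
  have hfin := h4 K M' v' f (e₀ * f) t₃ hp hvp' ht31 s₃ ht3R hs₃p hs₃1
  obtain ⟨g, hg⟩ : ∃ g, f = g + 3 := ⟨f - 3, by omega⟩
  rw [hg, show g + 3 - 1 = g + 2 by omega] at hfin
  have h1 : (g + 2) * (2 * e₀) ≤ (g + 2) * t₃ := Nat.mul_le_mul_left _ ht3
  nlinarith

end

end Pool.Agent.N715.AD
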