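import Mathlib
import Pool.Agent.N715.AD.Stm

/-!
Project AD: normalisation of a relation at a prime ideal (NRM).
-/

set_option autoImplicit false

namespace Pool.Agent.N715.AD

open NumberField Module Polynomial

namespace Nrm

open scoped nonZeroDivisors

/-- multiplication by an element of the inverse ideal -/
theorem core {K : Type} [Field K] [NumberField K] (P : Ideal (𝓞 K)) [P.IsMaximal]
    {ι : Type} (s : Finset ι) (f : ι → K) (hs : ∃ i ∈ s, f i ≠ 0) :
    ∃ c : K, c ≠ 0 ∧ (∀ i ∈ s, ∃ a : 𝓞 K, c * f i = (a : K)) ∧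
      ∃ i ∈ s, ∃ a : 𝓞 K, a ∉ P ∧ c * f i = (a : K) := by
  set I : FractionalIdeal (𝓞 K)⁰ K := FractionalIdeal.spanFinset (𝓞 K) s f with hI
  have hI0 : I ≠ 0 := by
    rw [hI]
    apply FractionalIdeal.spanFinset_ne_zero.2
    obtain ⟨i, hi, h⟩ := hs
    exact ⟨i, hi, h⟩
  have hmem : ∀ i ∈ s, f i ∈ I := by
    intro i hi
    rw [hI, ← FractionalIdeal.mem_coe, FractionalIdeal.spanFinset_coe]
    exact Submodule.subset_span ⟨i, hi, rfl⟩
  have hP1 : ((P : Ideal (𝓞 K)) : FractionalIdeal (𝓞 K)⁰ K) ≠ 1 := by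
    intro h
    rw [FractionalIdeal.coeIdeal_eq_one] at h
    exact (inferInstance : P.IsMaximal).ne_top (by rw [h, Ideal.one_eq_top])
  have hle : I⁻¹ * ((P : Ideal (𝓞 K)) : FractionalIdeal (𝓞 K)⁰ K) ≤ I⁻¹ := by
    calc I⁻¹ * ((P : Ideal (𝓞 K)) : FractionalIdeal (𝓞 K)⁰ K) ≤ I⁻¹ * 1 :=
          mul_le_mul_right FractionalIdeal.coeIdeal_le_one _
      _ = I⁻¹ := mul_one _
  have hne : I⁻¹ * ((P : Ideal (𝓞 K)) : FractionalIdeal (𝓞 K)⁰ K) ≠ I⁻¹ := by
    intro h
    apply hP1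
    have h2 := congrArg (fun J => I * J) h
    rwa [← mul_assoc, mul_inv_cancel₀ hI0, one_mul] at h2
  obtain ⟨c, hc, hc'⟩ := SetLike.exists_of_lt (lt_of_le_of_ne hle hne)
  have hint : ∀ i ∈ s, ∃ a : 𝓞 K, c * f i = (a : K) := by
    intro i hi
    have h1 : c * f i ∈ I⁻¹ * I := FractionalIdeal.mul_mem_mul hc (hmem i hi)
    rw [inv_mul_cancel₀ hI0, FractionalIdeal.mem_one_iff] at h1
    obtain ⟨a, ha⟩ := h1
    exact ⟨a, ha.symm⟩
  refine ⟨c, ?_, hint, ?_⟩
  · rintro rfl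
    exact hc' (Submodule.zero_mem _)
  · by_contra hcon
    push Not at hcon
    apply hc'
    have hspan : ∀ x ∈ I, c * x ∈ ((P : Ideal (𝓞 K)) : FractionalIdeal (𝓞 K)⁰ K) := by
      intro x hx
      rw [hI, ← FractionalIdeal.mem_coe, FractionalIdeal.spanFinset_coe] at hx
      induction hx using Submodule.span_induction with
      | mem x hx =>
        obtain ⟨i, hi, rfl⟩ := hx
        obtain ⟨a, ha⟩ := hint i hi
        by_cases haP : a ∈ P
        · rw [FractionalIdeal.mem_coeIdeal]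
          exact ⟨a, haP, ha.symm⟩
        · exact absurd ha (hcon i hi a haP)
      | zero => rw [mul_zero]; exact Submodule.zero_mem _
      | add x y _ _ hx hy => rw [mul_add]; exact Submodule.add_mem _ hx hy
      | smul a x _ hx =>
        rw [mul_smul_comm]
        exact Submodule.smul_mem _ a hx
    have hle2 : FractionalIdeal.spanSingleton (𝓞 K)⁰ c * I ≤
        ((P : Ideal (𝓞 K)) : FractionalIdeal (𝓞 K)⁰ K) := by
      rw [FractionalIdeal.spanSingleton_mul_le_iff]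
      exact hspan
    have h3 : FractionalIdeal.spanSingleton (𝓞 K)⁰ c ≤
        I⁻¹ * ((P : Ideal (𝓞 K)) : FractionalIdeal (𝓞 K)⁰ K) := by
      calc FractionalIdeal.spanSingleton (𝓞 K)⁰ c =
            I⁻¹ * (FractionalIdeal.spanSingleton (𝓞 K)⁰ c * I) := by
            rw [mul_comm _ I, ← mul_assoc, inv_mul_cancel₀ hI0, one_mul]
        _ ≤ _ := mul_le_mul_right hle2 _
    exact h3 (FractionalIdeal.mem_spanSingleton_self _ c)

end Nrm

theorem nrmLem : NrmLem := by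
  intro K _ _ P _ hP g hg
  obtain ⟨j, hj⟩ : ∃ j, g.coeff j ≠ 0 := by
    by_contra h
    push Not at h
    exact hg (Polynomial.ext fun j => by rw [h j, Polynomial.coeff_zero])
  obtain ⟨i, hi⟩ : ∃ i, (g.coeff j).coeff i ≠ 0 := by
    by_contra h
    push Not at h
    exact hj (Polynomial.ext fun i => by rw [h i, Polynomial.coeff_zero])
  obtain ⟨c, hc, h1, ⟨⟨j', i'⟩, -, a, ha, he⟩⟩ := Nrm.core P
    (g.support.sigma fun j => (g.coeff j).support)
    (fun p : (Σ _ : ℕ, ℕ) => (g.coeff p.1).coeff p.2)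
    ⟨⟨j, i⟩, Finset.mem_sigma.2 ⟨Polynomial.mem_support_iff.2 hj, Polynomial.mem_support_iff.2 hi⟩,
      hi⟩
  refine ⟨c, hc, fun i j => ?_, i', j', a, ha, he⟩
  by_cases h0 : (g.coeff j).coeff i = 0
  · exact ⟨0, by rw [h0, mul_zero]; rfl⟩
  · refine h1 ⟨j, i⟩ (Finset.mem_sigma.2 ⟨Polynomial.mem_support_iff.2 ?_,
      Polynomial.mem_support_iff.2 h0⟩)
    intro h2
    exact h0 (by rw [h2, Polynomial.coeff_zero])

end Pool.Agent.N715.AD
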