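import Pool.Agent.N715.AD.Stm

/-!
Project AD (helper715), part NZJ (helper427): the Jacobian is not zero in characteristic prime to the degree.
-/

set_option autoImplicit false

namespace Pool.Agent.N715.AD

open Polynomial

namespace Nzj

variable {k : Type} [Field k]

/-- the chain rule for the dehomogenisation -/
theorem der_dz (p : MvPolynomial (Fin (1 + 1)) k) :
    derivative (dz p) = dz (MvPolynomial.pderiv 0 p) := by
  induction p using MvPolynomial.induction_on with
  | C a =>
    unfold dz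
    rw [MvPolynomial.pderiv_C, MvPolynomial.aeval_C, map_zero]
    exact derivative_C
  | add p q hp hq =>
    unfold dz at hp hq ⊢
    rw [map_add, map_add, map_add, map_add, hp, hq]
  | mul_X p i hp =>
    unfold dz at hp ⊢
    rw [map_mul, derivative_mul, hp, Derivation.leibniz, smul_eq_mul, smul_eq_mul, map_add, map_mul, map_mul,
      MvPolynomial.aeval_X, MvPolynomial.pderiv_X]
    fin_cases i
    · simp
      try ring
    · simp

theorem eval_dz (p : MvPolynomial (Fin (1 + 1)) k) (x : k) :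
    (dz p).eval x = MvPolynomial.eval ![x, 1] p := by
  induction p using MvPolynomial.induction_on with
  | C a =>
    unfold dz
    rw [MvPolynomial.aeval_C, MvPolynomial.eval_C]
    exact eval_C
  | add p q hp hq =>
    unfold dz at hp hq ⊢
    rw [map_add, map_add, eval_add, hp, hq]
  | mul_X p i hp =>
    unfold dz at hp ⊢
    rw [map_mul, map_mul, eval_mul, hp, MvPolynomial.aeval_X, MvPolynomial.eval_X]
    fin_cases i <;> simp

theorem eval_smul {p : MvPolynomial (Fin (1 + 1)) k} {d : ℕ} (hp : p.IsHomogeneous d) (c : k)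
    (z : Fin (1 + 1) → k) :
    MvPolynomial.eval (fun i => c * z i) p = c ^ d * MvPolynomial.eval z p := by
  rw [MvPolynomial.eval_eq', MvPolynomial.eval_eq', Finset.mul_sum]
  refine Finset.sum_congr rfl fun α hα => ?_
  have h1 : α.degree = d := by
    have h2 := hp (MvPolynomial.mem_support_iff.1 hα)
    rw [← h2, Finsupp.degree_eq_sum]
    simp [Finsupp.weight_apply, Finsupp.sum_fintype]
  rw [← h1, Finsupp.degree_eq_sum, ← Finset.prod_pow_eq_pow_sum]
  simp only [mul_pow, Finset.prod_mul_distrib]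
  ring

/-- a form is determined by its dehomogenisation -/
theorem dz_inj [Infinite k] {p : MvPolynomial (Fin (1 + 1)) k} {d : ℕ} (hp : p.IsHomogeneous d)
    (h : dz p = 0) : p = 0 := by
  have h1 : p * MvPolynomial.X 1 = 0 := by
    apply MvPolynomial.funext
    intro z
    rw [map_mul, MvPolynomial.eval_X, map_zero]
    by_cases hz : z 1 = 0
    · rw [hz, mul_zero]
    · have h2 : MvPolynomial.eval ![z 0 / z 1, 1] p = 0 := by
        rw [← eval_dz, h, eval_zero]
      have h3 : z = fun i => z 1 * (![z 0 / z 1, 1] : Fin (1 + 1) → k) i := by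
        funext i
        fin_cases i
        · simp only [Fin.zero_eta, Fin.isValue, Matrix.cons_val_zero]
          field_simp
        · simp
      have h4 : MvPolynomial.eval z p = 0 := by
        rw [h3, eval_smul hp, h2, mul_zero]
      rw [h4, zero_mul]
  exact (mul_eq_zero.1 h1).resolve_right (MvPolynomial.X_ne_zero 1)

end Nzj

open Nzj in
theorem nzjLem (h : BinLem) : NzjLem := by
  obtain ⟨-, -, hzero, -, -, hfac⟩ := h
  intro k _ _ D Φ hΦ hD hNZ hDk
  have : Infinite k := IsAlgClosed.instInfinite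
  -- Euler
  have eu : ∀ i, MvPolynomial.X 0 * MvPolynomial.pderiv 0 (Φ i) +
      MvPolynomial.X 1 * MvPolynomial.pderiv 1 (Φ i) = MvPolynomial.C (D : k) * Φ i := by
    intro i
    have h1 := (hΦ i).sum_X_mul_pderiv
    rw [Fin.sum_univ_two, nsmul_eq_mul] at h1
    rw [h1, MvPolynomial.C_eq_coe_nat]
  have hCD : (MvPolynomial.C (D : k) : MvPolynomial (Fin (1 + 1)) k) ≠ 0 := by
    rw [Ne, MvPolynomial.C_eq_zero]; exact hDk
  have h0 : Φ 0 ≠ 0 := by
    intro h
    obtain ⟨z, hz, hz1⟩ := hzero k (Φ 1) D hD (hΦ 1)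
    refine hz (hNZ z ?_)
    funext i
    fin_cases i
    · change MvPolynomial.eval z (Φ 0) = 0
      rw [h, map_zero]
    · exact hz1
  have hrel : IsRelPrime (Φ 0) (Φ 1) := by
    intro r hr0 hr1
    obtain ⟨e, he⟩ := hfac k (Φ 0) r D h0 (hΦ 0) hr0
    have hr : r ≠ 0 := by
      rintro rfl
      exact h0 (zero_dvd_iff.1 hr0)
    rcases Nat.eq_zero_or_pos e with he0 | he0
    · subst he0
      have h1 := MvPolynomial.totalDegree_eq_zero_iff_eq_C.1 (he.totalDegree hr)
      rw [h1] at hr ⊢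
      rw [MvPolynomial.C_ne_zero] at hr
      exact (isUnit_iff_ne_zero.2 hr).map MvPolynomial.C
    · exfalso
      obtain ⟨z, hz, hz1⟩ := hzero k r e he0 he
      refine hz (hNZ z ?_)
      have h2 : ∀ q, r ∣ q → MvPolynomial.eval z q = 0 := by
        rintro q ⟨s, rfl⟩
        rw [map_mul, hz1, zero_mul]
      funext i
      fin_cases i
      · exact h2 _ hr0
      · exact h2 _ hr1
  have hdiv : ∀ i, Φ 0 ∣ MvPolynomial.pderiv i (Φ 0) → MvPolynomial.pderiv i (Φ 0) = 0 := by
    intro i hi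
    by_contra hne
    obtain ⟨q, hq⟩ := hi
    have hq0 : q ≠ 0 := by
      rintro rfl
      exact hne (by rw [hq, mul_zero])
    have h1 := congrArg MvPolynomial.totalDegree hq
    rw [MvPolynomial.totalDegree_mul_of_isDomain h0 hq0, (hΦ 0).totalDegree h0,
      ((hΦ 0).pderiv).totalDegree hne] at h1
    omega
  have hjac : jac Φ ≠ 0 := by
    intro hJ
    unfold jac at hJ
    have e1 : Φ 0 * MvPolynomial.pderiv 0 (Φ 1) = MvPolynomial.pderiv 0 (Φ 0) * Φ 1 := by
      apply mul_left_cancel₀ hCD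
      linear_combination (-(MvPolynomial.pderiv 0 (Φ 1))) * eu 0 + MvPolynomial.pderiv 0 (Φ 0) * eu 1 -
        MvPolynomial.X 1 * hJ
    have e2 : Φ 0 * MvPolynomial.pderiv 1 (Φ 1) = MvPolynomial.pderiv 1 (Φ 0) * Φ 1 := by
      apply mul_left_cancel₀ hCD
      linear_combination (-(MvPolynomial.pderiv 1 (Φ 1))) * eu 0 + MvPolynomial.pderiv 1 (Φ 0) * eu 1 +
        MvPolynomial.X 0 * hJ
    have a0 := hdiv 0 (hrel.dvd_of_dvd_mul_right ⟨_, e1.symm⟩)
    have b0 := hdiv 1 (hrel.dvd_of_dvd_mul_right ⟨_, e2.symm⟩)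
    have e3 := eu 0
    rw [a0, b0, mul_zero, mul_zero, add_zero] at e3
    exact (mul_ne_zero hCD h0) e3.symm
  refine ⟨hjac, fun hz => hjac ?_⟩
  have hhom : (jac Φ).IsHomogeneous ((D - 1) + (D - 1)) :=
    ((hΦ 0).pderiv.mul (hΦ 1).pderiv).sub ((hΦ 0).pderiv.mul (hΦ 1).pderiv)
  refine dz_inj hhom ?_
  have dmul : ∀ p q : MvPolynomial (Fin (1 + 1)) k, dz (p * q) = dz p * dz q := fun p q => by
    unfold dz; rw [map_mul]
  have dadd : ∀ p q : MvPolynomial (Fin (1 + 1)) k, dz (p + q) = dz p + dz q := fun p q => by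
    unfold dz; rw [map_add]
  have dsub : ∀ p q : MvPolynomial (Fin (1 + 1)) k, dz (p - q) = dz p - dz q := fun p q => by
    unfold dz; rw [map_sub]
  have dX0 : dz (MvPolynomial.X 0 : MvPolynomial (Fin (1 + 1)) k) = X := by
    unfold dz; rw [MvPolynomial.aeval_X]; rfl
  have dX1 : dz (MvPolynomial.X 1 : MvPolynomial (Fin (1 + 1)) k) = 1 := by
    unfold dz; rw [MvPolynomial.aeval_X]; rfl
  have g0 := congrArg dz (eu 0)
  have g1 := congrArg dz (eu 1)
  rw [dadd, dmul, dmul, dmul, dX0, dX1, ← der_dz] at g0 g1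
  unfold jac
  rw [dsub, dmul, dmul, ← der_dz, ← der_dz]
  linear_combination derivative (dz (Φ 0)) * g1 - derivative (dz (Φ 1)) * g0 +
    dz (MvPolynomial.C (D : k)) * hz

end Pool.Agent.N715.AD
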