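import Pool.Agent.N715.AD.Stm

/-!
# Project AD, part PAR: the choice of the parameters (helper271)
-/

set_option autoImplicit false

namespace Pool.Agent.N715.AD

namespace Par3S

open Filter

theorem lin (A E₁ E₂ σ : ℝ) (k : ℕ) (hE₁ : 0 ≤ E₁) (hE₂ : 0 ≤ E₂) (hσ : 0 < σ) (hk : 1 ≤ k) :
    ∃ S : ℕ, 1 ≤ S ∧ ∀ m : ℕ, 1 ≤ m → m ≤ k * (S + 1) →
      A + E₁ * (1 + Nat.log 2 m : ℕ) + E₂ * Real.log (m + 1) < σ * S := by
  have hl2 : 0 < Real.log 2 := Real.log_pos one_lt_two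
  obtain ⟨B, hB⟩ : ∃ B : ℝ, B = E₁ / Real.log 2 + E₂ := ⟨_, rfl⟩
  have hB0 : 0 ≤ B := by rw [hB]; positivity
  obtain ⟨ε, hε⟩ : ∃ ε : ℝ, ε = σ / (4 * (B + 1) * (2 * k + 1)) := ⟨_, rfl⟩
  have hε0 : 0 < ε := by rw [hε]; positivity
  have h1 := Real.isLittleO_log_id_atTop.bound hε0
  have h2 : Tendsto (fun S : ℕ => ((k : ℝ) * ((S : ℝ) + 1) + 1)) atTop atTop := by
    apply tendsto_atTop_add_const_right
    apply Tendsto.const_mul_atTop (by exact_mod_cast hk)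
    apply tendsto_atTop_add_const_right
    exact tendsto_natCast_atTop_atTop
  have h3 := h2.eventually h1
  have h4 : ∀ᶠ S : ℕ in atTop, A + E₁ < σ / 2 * S := by
    have h5 : Tendsto (fun S : ℕ => σ / 2 * (S : ℝ)) atTop atTop :=
      Tendsto.const_mul_atTop (by positivity) tendsto_natCast_atTop_atTop
    exact h5.eventually_gt_atTop _
  obtain ⟨S, hS3, hS4, hS1⟩ := (h3.and (h4.and (eventually_ge_atTop 1))).exists
  refine ⟨S, hS1, fun m hm hmk => ?_⟩
  have hk' : (1 : ℝ) ≤ k := by exact_mod_cast hk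
  have hS1' : (1 : ℝ) ≤ S := by exact_mod_cast hS1
  have hm' : (1 : ℝ) ≤ m := by exact_mod_cast hm
  have hmk' : (m : ℝ) ≤ k * (S + 1) := by exact_mod_cast hmk
  have hlogm : Real.log (m + 1) ≤ Real.log (k * (S + 1) + 1) :=
    Real.log_le_log (by linarith) (by linarith)
  have hlog0 : 0 ≤ Real.log (m + 1) := Real.log_nonneg (by linarith)
  have h6 : Real.log (k * (S + 1) + 1) ≤ ε * (k * (S + 1) + 1) := by
    have h7 := le_trans (Real.le_norm_self _) hS3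
    simp only [id] at h7
    rwa [Real.norm_of_nonneg (by positivity)] at h7
  have h8 : (Nat.log 2 m : ℝ) ≤ Real.log (m + 1) / Real.log 2 := by
    have h9 := Real.natLog_le_logb m 2
    have h10 : Real.logb 2 m ≤ Real.log (m + 1) / Real.log 2 := by
      rw [Real.logb]
      exact div_le_div_of_nonneg_right (Real.log_le_log (by linarith) (by linarith)) hl2.le
    refine le_trans ?_ h10
    exact_mod_cast h9
  have h9 : A + E₁ * (1 + Nat.log 2 m : ℕ) + E₂ * Real.log (m + 1) ≤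
      A + E₁ + B * Real.log (m + 1) := by
    push_cast
    rw [hB]
    have := mul_le_mul_of_nonneg_left h8 hE₁
    have e : (E₁ / Real.log 2 + E₂) * Real.log (m + 1) =
        E₁ * (Real.log (m + 1) / Real.log 2) + E₂ * Real.log (m + 1) := by ring
    rw [e]
    linarith
  have h10 : B * Real.log (m + 1) ≤ σ / 4 * S := by
    have h11 : (k : ℝ) * (S + 1) + 1 ≤ (2 * k + 1) * S := by nlinarith
    have h12 : Real.log (m + 1) ≤ ε * ((2 * k + 1) * S) :=
      (hlogm.trans h6).trans (mul_le_mul_of_nonneg_left h11 hε0.le)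
    have h13 : (B + 1) * (ε * ((2 * k + 1) * S)) = σ / 4 * S := by
      rw [hε]
      field_simp
    rw [← h13]
    calc B * Real.log (m + 1) ≤ (B + 1) * Real.log (m + 1) := by nlinarith
      _ ≤ _ := mul_le_mul_of_nonneg_left h12 (by linarith)
  have h11 : σ / 4 * S < σ / 2 * S := by nlinarith
  calc _ ≤ _ := h9
    _ < σ / 2 * S + σ / 2 * S := by linarith
    _ = σ * S := by ring

end Par3S

theorem par3 : Par3 := by
  intro E c₀ ω₀ r q hE hc hω hr hq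
  have hr' : (1 : ℝ) ≤ r := by exact_mod_cast hr
  obtain ⟨S₁, hS₁, h1⟩ := Par3S.lin 2 (2 * E) 2 (c₀ * ω₀ / (4 * r)) (12 * r) (by linarith)
    (by norm_num) (by positivity) (by omega)
  obtain ⟨b, hb⟩ : ∃ b, b = 12 * r * S₁ := ⟨_, rfl⟩
  obtain ⟨t, ht⟩ : ∃ t, t = 2 * (b + q) + 1 := ⟨_, rfl⟩
  have ht1 : 1 ≤ t := by omega
  have ht' : (1 : ℝ) ≤ t := by exact_mod_cast ht1
  obtain ⟨S₂, hS₂, h2⟩ := Par3S.lin 2 E 1 (c₀ * ω₀ / t / (2 * (2 * r))) (2 * (2 * r) * t) hE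
    (by norm_num) (by positivity) (by
      have : 1 ≤ r * t := Nat.mul_pos hr ht1
      nlinarith)
  refine ⟨S₁, S₂, b, t, 2 * (2 * r) * t * (S₂ + 1), hS₁, hb, ht, rfl, ?_, ?_⟩
  · have hb1 : 1 ≤ b := by
      rw [hb]
      have : 1 ≤ r * S₁ := Nat.mul_pos hr hS₁
      nlinarith
    have h3 := h1 b hb1 (by rw [hb]; nlinarith)
    have e1 : Real.log ((b + 1) * (b + 1) : ℕ) = 2 * Real.log (b + 1) := by
      push_cast
      rw [← pow_two, Real.log_pow]
      norm_num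
    rw [e1]
    have e2 : (S₁ : ℝ) * (c₀ * ω₀) / (4 * r) = c₀ * ω₀ / (4 * r) * S₁ := by ring
    rw [e2]
    linarith
  · have hR1 : 1 ≤ 2 * (2 * r) * t * (S₂ + 1) := by
      have : 1 ≤ r * t * (S₂ + 1) := Nat.mul_pos (Nat.mul_pos hr ht1) (Nat.succ_pos _)
      nlinarith
    have h3 := h2 _ hR1 le_rfl
    have e1 : Real.log ((2 * (2 * r) * t * (S₂ + 1) : ℕ) : ℝ) ≤
        Real.log (((2 * (2 * r) * t * (S₂ + 1) : ℕ) : ℝ) + 1) := by
      have : (1 : ℝ) ≤ ((2 * (2 * r) * t * (S₂ + 1) : ℕ) : ℝ) := by exact_mod_cast hR1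
      exact Real.log_le_log (by linarith) (by linarith)
    have e2 : (S₂ : ℝ) * (c₀ * ω₀ / t) / (2 * (2 * r)) = c₀ * ω₀ / t / (2 * (2 * r)) * S₂ := by
      ring
    rw [e2]
    linarith

end Pool.Agent.N715.AD
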