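import Mathlib
import Pool.Agent.N715.AD.Stm
import Pool.Agent.N715.AC.Frb

/-!
Project AD: one conjugate for many places.
-/

set_option autoImplicit false
set_option linter.unusedSectionVars false

namespace Pool.Agent.N715.AD

open NumberField Module Polynomial
open Pool.Agent.H627.LP (exists_place_smul)
open Pool.Agent.H420R3 (mi nv TP ew v_eq v_le_iff)
open Pool.Agent.N715.AC (CF)
open scoped Pointwise

noncomputable section

namespace PigAux

section

variable {K : Type} [Field K] [NumberField K] {L : Type} [Field L] [NumberField L] [Algebra K L]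

lemma nv_eq {v w : FinitePlace L} {g : Gal(L/K)} (hg : g • mi v = mi w) : nv v = nv w := by
  unfold Pool.Agent.H420R3.nv
  rw [← hg]
  congr 1
  rw [Ideal.absNorm_apply, Ideal.absNorm_apply, Submodule.cardQuot_apply,
    Submodule.cardQuot_apply]
  refine Nat.card_congr ?_
  exact (Ideal.quotientEquiv (mi v) (g • mi v) (MulSemiringAction.toRingEquiv _ _ g)
    (Ideal.pointwise_smul_def ..)).toEquiv

lemma v_int_le {v w : FinitePlace L} {g : Gal(L/K)} (hg : g • mi v = mi w) (b : 𝓞 L) :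
    w (g (b : L)) ≤ v (b : L) := by
  rcases eq_or_ne b 0 with rfl | hb
  · simp
  · rw [v_eq v hb, ← Pool.Agent.H420R3.coe_smul, nv_eq hg, v_le_iff]
    have h1 : b ∈ mi v ^ (multiplicity (mi v) (Ideal.span {b})) := by
      rw [← v_le_iff, ← v_eq v hb]
    have h2 : g • b ∈ g • (mi v ^ (multiplicity (mi v) (Ideal.span {b}))) :=
      Ideal.smul_mem_pointwise_smul_iff.mpr h1
    have h3 : g • (mi v ^ (multiplicity (mi v) (Ideal.span {b}))) =
        (g • mi v) ^ (multiplicity (mi v) (Ideal.span {b})) := smul_pow' _ _ _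
    rwa [h3, hg] at h2

lemma v_int {v w : FinitePlace L} {g : Gal(L/K)} (hg : g • mi v = mi w) (a : 𝓞 L) :
    w (g (a : L)) = v (a : L) := by
  apply le_antisymm (v_int_le hg a)
  have h1 : g⁻¹ • mi w = mi v := by
    rw [inv_smul_eq_iff, hg]
  have h2 := v_int_le h1 (g • a)
  rw [Pool.Agent.H420R3.coe_smul] at h2
  have h3 : (g⁻¹ : Gal(L/K)) (g (a : L)) = (a : L) := by
    rw [← AlgEquiv.mul_apply, inv_mul_cancel]
    rfl
  rwa [h3] at h2

/-- conjugate places -/
lemma v_conj {v w : FinitePlace L} {g : Gal(L/K)} (hg : g • mi v = mi w) (y : L) :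
    w (g y) = v y := by
  obtain ⟨a, b, hb, hab⟩ := IsFractionRing.div_surjective (A := 𝓞 L) y
  rw [← hab, map_div₀, map_div₀, map_div₀]
  rw [show (algebraMap (𝓞 L) L) a = (a : L) from rfl,
    show (algebraMap (𝓞 L) L) b = (b : L) from rfl, v_int hg, v_int hg]

lemma CF_mem (x : L) (ρ : Gal(L/K)) : ρ x ∈ CF K x :=
  IntermediateField.subset_adjoin K _ ⟨ρ, rfl⟩

lemma CF_stable {x z : L} (σ : Gal(L/K)) (hz : z ∈ CF K x) : σ z ∈ CF K x := by
  have h1 : (CF K x).map (σ : L →ₐ[K] L) ≤ CF K x := by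
    unfold Pool.Agent.N715.AC.CF
    rw [IntermediateField.adjoin_map, IntermediateField.adjoin_le_iff]
    rintro _ ⟨_, ⟨ρ, rfl⟩, rfl⟩
    exact CF_mem x (σ * ρ)
  exact h1 ⟨z, hz, rfl⟩

variable {P : Ideal (𝓞 K)} [hP : P.IsMaximal] [IsGalois K L]

/-- transport of a wildly close pair -/
lemma fc_conj (hP0 : P ≠ ⊥) {v w : FinitePlace L} (hv : v ∈ TP L P) (hw : w ∈ TP L P)
    {g : Gal(L/K)} (hg : g • mi v = mi w) {c : ℝ} {x y z : L} (h : FC K v c (CF K z) x y) :
    FC K w c (CF K z) (g x) (g y) := by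
  obtain ⟨φ, h1, h2⟩ := h
  refine ⟨g * φ * g⁻¹, fun u hu => ?_, ?_⟩
  · have h3 := h1 (g⁻¹ u) (CF_stable g⁻¹ hu)
    rw [← v_conj hg, ← v_conj hg (g⁻¹ u), map_sub, Pool.Agent.N715.AC.FrbAux.ew_eq hP0 hv hw] at h3
    have h4 : g ((g⁻¹ : Gal(L/K)) u) = u := by
      rw [← AlgEquiv.mul_apply, mul_inv_cancel]
      rfl
    rw [h4] at h3
    exact h3
  · rw [← h2]
    have e : (g * φ * g⁻¹ : Gal(L/K)) (g x) = (g * φ * g⁻¹ * g : Gal(L/K)) x := rfl
    rw [e, inv_mul_cancel_right]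
    rfl

/-- an automorphism which fixes `x` fixes `K(x)` -/
lemma fix_adjoin {x z : L} (hz : z ∈ IntermediateField.adjoin K {x}) {g : Gal(L/K)}
    (h : g x = x) : g z = z := by
  let S : IntermediateField K L :=
    (AlgHom.equalizer (g : L →ₐ[K] L) (AlgHom.id K L)).toIntermediateField (by
      intro y hy
      have hy' : g y = y := hy
      change g y⁻¹ = y⁻¹
      rw [map_inv₀, hy'])
  have h1 : IntermediateField.adjoin K {x} ≤ S := by
    rw [IntermediateField.adjoin_le_iff]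
    rintro _ rfl
    exact h
  exact h1 hz

end

end PigAux

open PigAux

theorem pigLem : PigLem := by
  intro K _ _ L _ _ _ _ P hP hP0 E hE x r c hEx hr ρ hρ hφ
  classical
  obtain ⟨v₀, hv₀⟩ := Pool.Agent.H420R3.TP_nonempty (M := L) (P := P) hP0
  have hne0 : Nonempty (Gal(L/K)) := ⟨1⟩
  choose! φ hφ1 hφ2 using hφ
  -- the finite set of values
  obtain ⟨X, hX⟩ : ∃ X : Finset L, X = (TP L P).image fun v => φ v x := ⟨_, rfl⟩
  have hint : IsIntegral E x := Algebra.IsIntegral.isIntegral x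
  have hmem : ∀ v ∈ TP L P, φ v x ∈ ((minpoly E x).rootSet L).toFinset.image fun y => ρ y := by
    intro v hv
    have hh : ρ⁻¹ * φ v ∈ E.fixingSubgroup := by
      rw [IntermediateField.mem_fixingSubgroup_iff]
      intro z hz
      have h1 : (ρ⁻¹ * φ v : Gal(L/K)) z = (ρ⁻¹ : Gal(L/K)) (φ v z) := rfl
      rw [h1, hφ1 v hv z hz, ← AlgEquiv.mul_apply, inv_mul_cancel]
      rfl
    refine Finset.mem_image.2 ⟨(ρ⁻¹ * φ v : Gal(L/K)) x, ?_, ?_⟩
    · rw [Set.mem_toFinset, Polynomial.mem_rootSet]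
      refine ⟨minpoly.ne_zero hint, ?_⟩
      let h' : L ≃ₐ[E] L := (IntermediateField.fixingSubgroupEquiv E) ⟨ρ⁻¹ * φ v, hh⟩
      have h2 : (ρ⁻¹ * φ v : Gal(L/K)) x = h' x := rfl
      have h3 := Polynomial.aeval_algHom_apply (h' : L →ₐ[E] L) x (minpoly E x)
      rw [minpoly.aeval, map_zero] at h3
      rw [h2]
      exact h3
    · have h1 : ρ ((ρ⁻¹ * φ v : Gal(L/K)) x) = (ρ * (ρ⁻¹ * φ v) : Gal(L/K)) x := rfl
      rw [h1, mul_inv_cancel_left]
  have hcard : X.card ≤ r := by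
    have h1 : X ⊆ ((minpoly E x).rootSet L).toFinset.image fun y => ρ y := by
      rw [hX]
      intro y hy
      obtain ⟨v, hv, rfl⟩ := Finset.mem_image.1 hy
      exact hmem v hv
    refine (Finset.card_le_card h1).trans (Finset.card_image_le.trans (le_trans ?_ hr))
    rw [← Set.ncard_eq_toFinset_card']
    exact Polynomial.ncard_rootSet_le _ _
  have hex : ∀ v ∈ TP L P, ∃ y ∈ X, FC K v c (CF K x) x y := by
    intro v hv
    refine ⟨φ v x, ?_, φ v, hφ2 v hv, rfl⟩
    rw [hX]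
    exact Finset.mem_image_of_mem _ hv
  obtain ⟨W, hW⟩ : ∃ W : L → ℝ, W = fun y => ∑ v ∈ TP L P,
    if FC K v c (CF K x) x y then ew K v else 0 := ⟨_, rfl⟩
  have hW0 : ∀ y, 0 ≤ W y := by
    intro y
    rw [hW]
    refine Finset.sum_nonneg fun v _ => ?_
    split_ifs
    · exact (Pool.Agent.H420R3.ew_pos _).le
    · exact le_rfl
  have htot : ∑ v ∈ TP L P, ew K v ≤ ∑ y ∈ X, W y := by
    rw [hW, Finset.sum_comm]
    refine Finset.sum_le_sum fun v hv => ?_
    obtain ⟨y, hy, hfp⟩ := hex v hv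
    calc ew K v = if FC K v c (CF K x) x y then ew K v else 0 := by rw [if_pos hfp]
      _ ≤ _ := Finset.single_le_sum (f := fun y => if FC K v c (CF K x) x y then ew K v else 0)
        (fun z _ => by
          beta_reduce
          split_ifs
          · exact (Pool.Agent.H420R3.ew_pos _).le
          · exact le_rfl) hy
  have hne : X.Nonempty := ⟨φ v₀ x, by
    rw [hX]
    exact Finset.mem_image_of_mem _ hv₀⟩
  obtain ⟨y, hy, hmax⟩ := Finset.exists_max_image X W hne
  have h1 : ∑ v ∈ TP L P, ew K v ≤ r * W y := by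
    refine htot.trans ((Finset.sum_le_card_nsmul X W (W y) hmax).trans ?_)
    rw [nsmul_eq_mul]
    exact mul_le_mul_of_nonneg_right (by exact_mod_cast hcard) (hW0 y)
  rw [hX] at hy
  obtain ⟨v₁, hv₁, hy1⟩ := Finset.mem_image.1 hy
  have hy2 : φ v₁ x = y := hy1
  refine ⟨φ v₁, fun hcon => ?_, fun σ => h1.trans ?_⟩
  · obtain ⟨z, hz, hz1⟩ := hρ
    apply hz1
    rw [← hφ1 v₁ hv₁ z hz]
    exact fix_adjoin (hEx hz) hcon
  · refine mul_le_mul_of_nonneg_left ?_ (Nat.cast_nonneg r)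
    rw [hW, hy2]
    have h2 := Pool.Agent.N715.AC.FrbAux.sum_smul (K := K) (L := L) hP0 σ
      (fun v => v ∈ TP L P ∧ FC K v c (CF K x) x y)
      (fun v => FC K v c (CF K x) (σ x) (σ y)) (fun v w hvw h => by
        obtain ⟨w', hw', hw''⟩ := exists_place_smul hP0 h.1 σ
        have h3 : w' = w := Pool.Agent.N715.AC.FrbAux.mi_inj (by rw [hw'', hvw])
        subst h3
        exact fc_conj hP0 h.1 hw' hvw h.2)
    have h4 : ∑ v ∈ TP L P, (if FC K v c (CF K x) x y then ew K v else 0) =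
        ∑ v ∈ TP L P, (if v ∈ TP L P ∧ FC K v c (CF K x) x y then ew K v else 0) := by
      refine Finset.sum_congr rfl fun v hv => ?_
      by_cases h : FC K v c (CF K x) x y
      · rw [if_pos h, if_pos ⟨hv, h⟩]
      · rw [if_neg h, if_neg fun h' => h h'.2]
    show ∑ v ∈ TP L P, (if FC K v c (CF K x) x y then ew K v else 0) ≤ _
    rw [h4]
    convert h2 using 3

end

end Pool.Agent.N715.AD
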