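import Pool.Agent.N715.AD.Stm2

set_option autoImplicit false

/-! # Project AD2, PR1: a prime ideal of degree one (helper607) -/

namespace Pool.Agent.N715.AD

open NumberField

namespace Prm1

open Polynomial

/-- a nonconstant integer polynomial has large prime divisors -/
theorem exists_prime (f : Polynomial ℤ) (hf : 0 < f.natDegree) (N : ℕ) :
    ∃ (p : ℕ) (m : ℤ), p.Prime ∧ N < p ∧ (p : ℤ) ∣ f.eval m := by
  by_cases h0 : f.coeff 0 = 0
  · obtain ⟨p, hp1, hp⟩ := Nat.exists_infinite_primes (N + 1)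
    refine ⟨p, 0, hp, by omega, ?_⟩
    rw [← coeff_zero_eq_eval_zero, h0]
    exact dvd_zero _
  · have hfg : ∀ m : ℤ, f.eval m = m * f.divX.eval m + f.coeff 0 := by
      intro m
      have h1 := congrArg (eval m) (X_mul_divX_add f)
      rw [eval_add, eval_mul, eval_X, eval_C] at h1
      exact h1.symm
    have hne : ∀ e : ℤ, f - C e ≠ 0 := by
      intro e h
      have h1 : f = C e := sub_eq_zero.1 h
      rw [h1, natDegree_C] at hf
      exact lt_irrefl _ hf
    have hfin : {x : ℤ | f.eval x = f.coeff 0 ∨ f.eval x = -f.coeff 0}.Finite := by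
      refine Set.Finite.subset (((f - C (f.coeff 0)).roots.toFinset ∪
        (f - C (-f.coeff 0)).roots.toFinset).finite_toSet) ?_
      intro x hx
      rw [Finset.coe_union]
      rcases hx with hx | hx
      · left
        rw [Finset.mem_coe, Multiset.mem_toFinset, mem_roots (hne _), IsRoot.def, eval_sub, eval_C,
          hx, sub_self]
      · right
        rw [Finset.mem_coe, Multiset.mem_toFinset, mem_roots (hne _), IsRoot.def, eval_sub, eval_C,
          hx, sub_self]
    have hNc : ((N.factorial : ℤ) * f.coeff 0) ≠ 0 :=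
      mul_ne_zero (by exact_mod_cast N.factorial_ne_zero) h0
    have hinj : Function.Injective fun t : ℕ => (N.factorial : ℤ) * f.coeff 0 * (t : ℤ) := by
      intro t t' h
      have h1 := mul_left_cancel₀ hNc h
      exact_mod_cast h1
    obtain ⟨_, ⟨t, rfl⟩, hm⟩ := (Set.infinite_range_of_injective hinj).exists_notMem_finite hfin
    set m : ℤ := (N.factorial : ℤ) * f.coeff 0 * (t : ℤ) with hmd
    set u : ℤ := (N.factorial : ℤ) * ((t : ℤ) * f.divX.eval m) + 1 with hu
    have hcu : f.eval m = f.coeff 0 * u := by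
      rw [hfg, hu]
      conv_lhs => rw [hmd]
      ring
    have hu1 : u.natAbs ≠ 1 := by
      intro h
      apply hm
      rcases Int.natAbs_eq u with h1 | h1
      · left
        show f.eval m = f.coeff 0
        rw [hcu, h1, h]
        simp
      · right
        show f.eval m = -f.coeff 0
        rw [hcu, h1, h]
        simp
    obtain ⟨p, hp, hpu⟩ := Nat.exists_prime_and_dvd hu1
    have hpu' : (p : ℤ) ∣ u := Int.natCast_dvd.2 hpu
    refine ⟨p, m, hp, ?_, hcu ▸ Dvd.dvd.mul_left hpu' _⟩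
    by_contra hle
    push Not at hle
    have h1 : (p : ℤ) ∣ (N.factorial : ℤ) := by
      exact_mod_cast (hp.dvd_factorial).2 hle
    have h2 : (p : ℤ) ∣ 1 := by
      have h3 := dvd_sub hpu' (Dvd.dvd.mul_right h1 ((t : ℤ) * f.divX.eval m))
      rwa [hu, add_sub_cancel_left] at h3
    have h4 : p ∣ 1 := by exact_mod_cast h2
    exact hp.one_lt.ne' (Nat.dvd_one.1 h4)

/-- an integral generator and the index -/
theorem exists_gen (K : Type) [Field K] [NumberField K] : ∃ (β : K) (d : ℤ), IsIntegral ℤ β ∧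
    d ≠ 0 ∧ ∀ y : K, IsIntegral ℤ y → ∃ g : Polynomial ℤ, aeval β g = (d : K) * y := by
  obtain ⟨α, hα⟩ := Field.exists_primitive_element ℚ K
  obtain ⟨k, hk0, hk⟩ := ((IsFractionRing.isAlgebraic_iff ℤ ℚ K).2
    (Algebra.IsAlgebraic.isAlgebraic (R := ℚ) α)).exists_integral_multiple
  set β : K := k • α with hβ
  have hkq : (k : ℚ) ≠ 0 := by exact_mod_cast hk0
  have htop' : IntermediateField.adjoin ℚ {β} = ⊤ := by
    rw [eq_top_iff, ← hα, IntermediateField.adjoin_simple_le_iff]
    have h1 : β ∈ IntermediateField.adjoin ℚ {β} := IntermediateField.mem_adjoin_simple_self ℚ β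
    have h2 : ((k : ℚ)⁻¹ : ℚ) • β ∈ IntermediateField.adjoin ℚ {β} :=
      (IntermediateField.adjoin ℚ {β}).smul_mem h1
    have h3 : ((k : ℚ)⁻¹ : ℚ) • β = α := by
      rw [hβ, zsmul_eq_mul, Algebra.smul_def, ← mul_assoc]
      have h4 : (algebraMap ℚ K) (k : ℚ)⁻¹ * (k : K) = 1 := by
        rw [map_inv₀, map_intCast]
        refine inv_mul_cancel₀ ?_
        exact_mod_cast hk0
      rw [h4, one_mul]
    rwa [h3] at h2
  have htop : Algebra.adjoin ℚ {β} = ⊤ := by
    rw [← IntermediateField.adjoin_simple_toSubalgebra_of_isAlgebraic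
      (Algebra.IsAlgebraic.isAlgebraic (R := ℚ) β), htop', IntermediateField.top_toSubalgebra]
  let B := PowerBasis.ofAdjoinEqTop (K := ℚ) (hk.tower_top : IsIntegral ℚ β) htop
  have hgen : B.gen = β := rfl
  have hint : IsIntegral ℤ (Algebra.discr ℚ B.basis) := by
    refine Algebra.discr_isIntegral ℚ fun i => ?_
    rw [B.basis_eq_pow, hgen]
    exact hk.pow _
  obtain ⟨d, hd⟩ := IsIntegrallyClosed.isIntegral_iff.1 hint
  have hd' : (d : ℚ) = Algebra.discr ℚ B.basis := hd
  refine ⟨β, d, hk, ?_, ?_⟩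
  · rintro rfl
    exact Algebra.discr_not_zero_of_basis ℚ B.basis (by rw [← hd']; simp)
  · intro y hy
    have h1 := Algebra.discr_mul_isIntegral_mem_adjoin (R := ℤ) ℚ (B := B) (by rw [hgen]; exact hk) hy
    rw [hgen, Algebra.adjoin_singleton_eq_range_aeval, AlgHom.mem_range, ← hd'] at h1
    obtain ⟨g, hg⟩ := h1
    refine ⟨g, ?_⟩
    rw [hg, Algebra.smul_def]
    simp

/-- ring homomorphisms to large prime fields -/
theorem exists_hom (K : Type) [Field K] [NumberField K] (n : ℕ) :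
    ∃ p : ℕ, p.Prime ∧ n < p ∧ Nonempty (𝓞 K →+* ZMod p) := by
  obtain ⟨β, d, hβ, hd0, key⟩ := exists_gen K
  obtain ⟨p, m, hp, hpn, hpm⟩ := exists_prime (minpoly ℤ β) (minpoly.natDegree_pos hβ)
    (max n d.natAbs)
  have hpF : Fact p.Prime := ⟨hp⟩
  have wd : ∀ g : Polynomial ℤ, aeval β g = 0 → ((g.eval m : ℤ) : ZMod p) = 0 := by
    intro g hg
    obtain ⟨q, rfl⟩ := minpoly.isIntegrallyClosed_dvd hβ hg
    rw [eval_mul, Int.cast_mul, (ZMod.intCast_zmod_eq_zero_iff_dvd _ p).2 hpm, zero_mul]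
  have hd : (d : ZMod p) ≠ 0 := by
    intro h
    have h1 := (ZMod.intCast_zmod_eq_zero_iff_dvd _ p).1 h
    have h2 : p ∣ d.natAbs := Int.natCast_dvd.1 h1
    have h3 := Nat.le_of_dvd (Int.natAbs_pos.2 hd0) h2
    have h4 := le_max_right n d.natAbs
    omega
  choose g hg using fun y : 𝓞 K => key (y : K) y.2
  have hadd : ∀ x y : 𝓞 K, (((g (x + y)).eval m : ℤ) : ZMod p) =
      (((g x).eval m : ℤ) : ZMod p) + (((g y).eval m : ℤ) : ZMod p) := by
    intro x y
    have h1 := wd (g (x + y) - (g x + g y)) (by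
      rw [map_sub, map_add, hg, hg, hg]
      push_cast
      ring)
    rw [eval_sub, eval_add] at h1
    push_cast at h1
    exact sub_eq_zero.1 h1
  have hmul : ∀ x y : 𝓞 K, (d : ZMod p) * (((g (x * y)).eval m : ℤ) : ZMod p) =
      (((g x).eval m : ℤ) : ZMod p) * (((g y).eval m : ℤ) : ZMod p) := by
    intro x y
    have h1 := wd (C d * g (x * y) - g x * g y) (by
      rw [map_sub, map_mul, map_mul, hg, hg, hg, aeval_C]
      push_cast
      simp only [algebraMap_int_eq, eq_intCast]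
      ring)
    rw [eval_sub, eval_mul, eval_mul, eval_C] at h1
    push_cast at h1
    exact sub_eq_zero.1 h1
  have hone : (((g 1).eval m : ℤ) : ZMod p) = d := by
    have h1 := wd (g 1 - C d) (by
      rw [map_sub, hg, aeval_C]
      push_cast
      simp)
    rw [eval_sub, eval_C] at h1
    push_cast at h1
    exact sub_eq_zero.1 h1
  have hzero : (((g 0).eval m : ℤ) : ZMod p) = 0 := wd _ (by rw [hg]; simp)
  refine ⟨p, hp, lt_of_le_of_lt (le_max_left _ _) hpn, ⟨{
    toFun := fun y => (((g y).eval m : ℤ) : ZMod p) * (d : ZMod p)⁻¹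
    map_one' := by rw [hone, mul_inv_cancel₀ hd]
    map_mul' := ?_
    map_zero' := by rw [hzero, zero_mul]
    map_add' := fun x y => by rw [hadd, add_mul] }⟩⟩
  intro x y
  have h1 : (((g (x * y)).eval m : ℤ) : ZMod p) =
      (d : ZMod p)⁻¹ * ((((g x).eval m : ℤ) : ZMod p) * (((g y).eval m : ℤ) : ZMod p)) := by
    rw [← hmul, ← mul_assoc, inv_mul_cancel₀ hd, one_mul]
  rw [h1]
  ring

/-- primes which do not divide the discriminant are unramified -/
theorem not_mem_sq (K : Type) [Field K] [NumberField K] (p : ℕ) (hp : p.Prime)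
    (hpd : (NumberField.discr K).natAbs < p) (P : Ideal (𝓞 K)) (hPm : P.IsMaximal)
    (hpP : (p : 𝓞 K) ∈ P) : (p : 𝓞 K) ∉ P ^ 2 := by
  have hd : NumberField.discr K ≠ 0 := NumberField.discr_ne_zero K
  have hnd : ¬ (p : ℤ) ∣ NumberField.discr K := by
    intro h
    have h1 : p ∣ (NumberField.discr K).natAbs := Int.natCast_dvd.1 h
    have h2 := Nat.le_of_dvd (Int.natAbs_pos.2 hd) h1
    omega
  have hpp : Prime (p : ℤ) := Nat.prime_iff_prime_int.1 hp
  have hmax : (Ideal.span {(p : ℤ)}).IsMaximal :=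
    PrincipalIdealRing.isMaximal_of_irreducible hpp.irreducible
  have hP : P.comap (algebraMap ℤ (𝓞 K)) = Ideal.span {(p : ℤ)} := by
    have h1 : Ideal.span {(p : ℤ)} ≤ P.comap (algebraMap ℤ (𝓞 K)) := by
      rw [Ideal.span_singleton_le_iff_mem, Ideal.mem_comap]
      simpa using hpP
    refine (hmax.eq_of_le ?_ h1).symm
    exact (Ideal.comap_isPrime (algebraMap ℤ (𝓞 K)) P (H := hPm.isPrime)).ne_top
  intro h2
  have h3 : P ^ 2 ∣ (Ideal.span {(p : ℤ)}).map (algebraMap ℤ (𝓞 K)) := by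
    rw [Ideal.dvd_iff_le, Ideal.map_span, Ideal.span_le]
    rintro x hx
    simp only [Set.image_singleton, Set.mem_singleton_iff] at hx
    rw [hx]
    simpa using h2
  have h4 := pow_sub_one_dvd_differentIdeal ℤ P 2
    (by rw [Ne, Ideal.span_singleton_eq_bot]; exact hpp.ne_zero) h3
  have h5 : ((NumberField.discr K : ℤ) : 𝓞 K) ∈ P := by
    have := Ideal.dvd_iff_le.1 h4 (NumberField.discr_mem_differentIdeal K (𝓞 K))
    simpa using this
  have h6 : NumberField.discr K ∈ P.comap (algebraMap ℤ (𝓞 K)) := by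
    rw [Ideal.mem_comap]
    simpa using h5
  rw [hP, Ideal.mem_span_singleton] at h6
  exact hnd h6

end Prm1

theorem prm1Lem : Prm1Lem := by
  intro K _ _ n
  obtain ⟨p, hp, hpn, ⟨φ⟩⟩ := Prm1.exists_hom K (max n (NumberField.discr K).natAbs)
  have hpF : Fact p.Prime := ⟨hp⟩
  have hs : Function.Surjective φ := ZMod.ringHom_surjective φ
  have hPm : (RingHom.ker φ).IsMaximal := RingHom.ker_isMaximal_of_surjective φ hs
  have hpP : (p : 𝓞 K) ∈ RingHom.ker φ := by
    rw [RingHom.mem_ker, map_natCast]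
    simp
  refine ⟨p, RingHom.ker φ, hp, hPm, ?_, hpP, ?_, lt_of_le_of_lt (le_max_left _ _) hpn, ?_⟩
  · intro h
    rw [h] at hpP
    have h1 : (p : 𝓞 K) = 0 := by simpa using hpP
    exact hp.ne_zero (Nat.cast_eq_zero.1 h1)
  · exact Prm1.not_mem_sq K p hp (lt_of_le_of_lt (le_max_right _ _) hpn) _ hPm hpP
  · rw [Ideal.absNorm_apply, Submodule.cardQuot_apply,
      Nat.card_congr (RingHom.quotientKerEquivOfSurjective hs).toEquiv, Nat.card_zmod]

end Pool.Agent.N715.AD
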