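import Mathlib
import Pool.Agent.N715.AD.Stm2
import Pool.Agent.R829.BH.Tame

/-!
Project AD2 (helper715): the tame ramification index at a prime of degree one (RE).  By helper407.
-/

set_option autoImplicit false
set_option linter.unusedSectionVars false

namespace Pool.Agent.N715.AD

namespace Re

open NumberField Module
open Pool.Agent.H420R3 (mi nv TP ew mem_TP v_smul nv_pos v_fixed_le v_lt_one_iff)
open Pool.Agent.H627.LP (FrobAt)
open Pool.Agent.R829.BH (Kr Kr_le prime_dvd_Kr card_comm)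
open scoped Pointwise

noncomputable section

theorem reLem0 : ReLem := by
  intro K _ _ M _ _ _ _ P hPm hP0 p hp hpP hnorm w hwT e₀ t he₀ hcardI
  classical
  have hlo := H420R3.liesOver_of_mem hP0 hwT
  -- Frobenius
  obtain ⟨τ₀, h1, h2⟩ := H420R3.exists_frob (K := K) hP0 hwT 1
  rw [pow_one, hnorm] at h2
  have h3 : FrobAt w τ₀ p := ⟨h1, h2⟩
  -- the residue characteristic
  have hwp : w (p : M) < 1 := by
    have h4 : (algebraMap (𝓞 K) (𝓞 M) (p : 𝓞 K)) ∈ mi w := by
      have h5 : (p : 𝓞 K) ∈ (mi w).under (𝓞 K) := by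
        rw [← hlo.over]
        exact hpP
      exact h5
    rw [map_natCast] at h4
    have h5 := (v_lt_one_iff w _).mpr h4
    simpa using h5
  have hcop : ∀ n : ℕ, ¬ p ∣ n → w (n : M) = 1 := by
    intro n hn
    apply le_antisymm
    · have := H420R3.v_le_one w (n : 𝓞 M)
      simpa using this
    · by_contra hcon
      push Not at hcon
      have hcop : Nat.Coprime p n := (Nat.Prime.coprime_iff_not_dvd hp).mpr hn
      have h4 : ((p : M) * (Nat.gcdA p n : ℤ) + (n : M) * (Nat.gcdB p n : ℤ)) = 1 := by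
        have h5 := Nat.gcd_eq_gcd_ab p n
        rw [Nat.Coprime.gcd_eq_one hcop] at h5
        exact_mod_cast h5.symm
      have h5 : w (1 : M) < 1 := by
        rw [← h4]
        have hz : ∀ z : ℤ, w (z : M) ≤ 1 := fun z => by
          have := H420R3.v_le_one w (z : 𝓞 M)
          simpa using this
        have hnn : ∀ y : M, 0 ≤ w y := fun y => by positivity
        refine lt_of_le_of_lt (FinitePlace.add_le w _ _) (max_lt ?_ ?_)
        · rw [map_mul]
          exact lt_of_le_of_lt (mul_le_of_le_one_right (hnn _) (hz _)) hwp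
        · rw [map_mul]
          exact lt_of_le_of_lt (mul_le_of_le_one_right (hnn _) (hz _)) hcon
      rw [map_one] at h5
      exact lt_irrefl _ h5
  -- the uniformizer
  obtain ⟨π₀, hπ1, hπ2⟩ := Ideal.exists_mem_pow_notMem_pow_succ (mi w) (H420R3.mi_ne_bot w)
    (Ideal.IsMaximal.ne_top inferInstance) 1
  rw [pow_one] at hπ1
  have hπ0 : (π₀ : M) ≠ 0 := by
    rw [RingOfIntegers.coe_ne_zero_iff]
    rintro rfl
    exact hπ2 (Submodule.zero_mem _)
  have hπ1' : w (π₀ : M) < 1 := (v_lt_one_iff w π₀).mpr hπ1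
  have hπ2' : ¬ w (π₀ : M) ≤ (nv w ^ 2)⁻¹ := fun h => hπ2 ((H420R3.v_le_iff w π₀ 2).mp h)
  -- the wild part
  have hcard : Nat.card (Kr (K := K) w hπ0) =
      p ^ (Nat.card (Kr (K := K) w hπ0)).primeFactorsList.length :=
    Nat.eq_prime_pow_of_unique_prime_dvd Nat.card_pos.ne' fun {l} hl hdvd =>
      prime_dvd_Kr hπ0 hπ1' hπ2' hcop hp hl hdvd
  obtain ⟨a, ha⟩ : ∃ a, Nat.card (Kr (K := K) w hπ0) = p ^ a := ⟨_, hcard⟩
  have hI : Nat.card ((mi w).inertia Gal(M/K)) = e₀ * p ^ t := hcardI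
  have hdvd : p ^ a ∣ e₀ * p ^ t := by
    rw [← hI, ← ha]
    exact Subgroup.card_dvd_of_le (Kr_le hπ0)
  have hcop2 : Nat.Coprime (p ^ a) e₀ :=
    Nat.Coprime.pow_left a ((Nat.Prime.coprime_iff_not_dvd hp).mpr he₀)
  have hat : p ^ a ≤ p ^ t := by
    have h4 : p ^ a ∣ p ^ t := hcop2.dvd_of_dvd_mul_left hdvd
    exact Nat.le_of_dvd (pow_pos hp.pos t) h4
  -- the centralizer of Frobenius
  have hcent : ((mi w).inertia Gal(M/K) ⊓ Subgroup.centralizer {τ₀} : Subgroup Gal(M/K)) =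
      (mi w).inertia Gal(M/K) := by
    apply inf_eq_left.mpr
    intro g _
    rw [Subgroup.mem_centralizer_singleton_iff]
    exact IsMulCommutative.is_comm.comm g τ₀
  have h4 := card_comm hπ0 hp.one_lt h3
  rw [hcent, hI, ha] at h4
  have h5 : e₀ * p ^ t ≤ p * p ^ t := by
    calc e₀ * p ^ t ≤ p ^ a * p := h4
      _ ≤ p ^ t * p := Nat.mul_le_mul_right _ hat
      _ = p * p ^ t := mul_comm _ _
  have h6 : e₀ ≤ p := Nat.le_of_mul_le_mul_right h5 (pow_pos hp.pos t)
  have h7 : e₀ ≠ p := by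
    rintro rfl
    exact he₀ dvd_rfl
  omega

end

end Re

/-- (RE) -/
theorem reLem (_h2 : RuLem) (_h3 : RpLem) : ReLem := Re.reLem0

end Pool.Agent.N715.AD
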