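import Pool.Agent.N715.AD.Stm2

/-!
Project AD, part RN (helper300): an estimate for norms in an extension of degree `p`.
-/

set_option autoImplicit false

namespace Pool.Agent.N715.AD.RnX

open Finset Polynomial

section
variable {M : Type} [Field M] (v : M → ℝ) (v0 : ∀ x, 0 ≤ v x) (vz : v 0 = 0) (v1 : v 1 = 1)
  (vm : ∀ x y, v (x * y) = v x * v y) (va : ∀ x y, v (x + y) ≤ max (v x) (v y))

include va vz in
theorem v_sum {ι : Type} (s : Finset ι) (f : ι → M) {B : ℝ} (hB : 0 ≤ B) (h : ∀ i ∈ s, v (f i) ≤ B) :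
    v (∑ i ∈ s, f i) ≤ B := by
  classical
  induction s using Finset.induction_on with
  | empty => rwa [sum_empty, vz]
  | insert i s hi ih =>
    rw [sum_insert hi]
    exact (va _ _).trans (max_le (h i (mem_insert_self i s)) (ih fun j hj => h j (mem_insert_of_mem hj)))

include va vz v1 in
theorem v_nat (n : ℕ) : v (n : M) ≤ 1 := by
  induction n with
  | zero => rw [Nat.cast_zero, vz]; exact zero_le_one
  | succ n ih => rw [Nat.cast_succ]; exact (va _ _).trans (max_le ih v1.le)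

include v1 vm in
theorem v_prod {ι : Type} (s : Finset ι) (f : ι → M) : v (∏ i ∈ s, f i) = ∏ i ∈ s, v (f i) := by
  classical
  induction s using Finset.induction_on with
  | empty => rw [prod_empty, prod_empty, v1]
  | insert i s hi ih => rw [prod_insert hi, prod_insert hi, vm, ih]

variable (p : ℕ) (hp : p.Prime) (w : ℝ) (hw0 : 0 < w) (hw1 : w ≤ 1) (e t₁ t₂ T : ℕ)
  (hpe : v (p : M) = w ^ e) (h : M →+* M) (hR : ∀ z, v (h z - z) ≤ w ^ t₁ * v z)

include v0 va hw0 hw1 hR in
theorem v_h (z : M) : v (h z) ≤ v z := by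
  have h1 : h z = (h z - z) + z := by ring
  rw [h1]
  refine (va _ _).trans (max_le ((hR z).trans ?_) le_rfl)
  exact mul_le_of_le_one_left (v0 z) (pow_le_one₀ hw0.le hw1)

include v0 va hw0 hw1 hR in
theorem v_hpow (j : ℕ) (z : M) : v (h^[j] z) ≤ v z := by
  induction j generalizing z with
  | zero => exact le_rfl
  | succ j ih =>
    rw [Function.iterate_succ_apply]
    exact (ih _).trans (v_h v v0 va w hw0 hw1 t₁ h hR z)

/-- the difference operator -/
def D (h : M →+* M) : Module.End ℤ M := h.toAddMonoidHom.toIntLinearMap - 1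

theorem D_apply (h : M →+* M) (z : M) : D h z = h z - z := rfl

theorem H_pow (h : M →+* M) (i : ℕ) (z : M) : ((D h + 1) ^ i) z = h^[i] z := by
  have h1 : D h + 1 = h.toAddMonoidHom.toIntLinearMap := by
    unfold D
    rw [sub_add_cancel]
  rw [h1]
  induction i with
  | zero => rfl
  | succ i ih =>
    rw [pow_succ', Module.End.mul_apply, ih, Function.iterate_succ_apply']
    rfl

include v0 hR hw0 in
theorem v_D (j : ℕ) (z : M) : v ((D h ^ j) z) ≤ (w ^ t₁) ^ j * v z := by
  induction j with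
  | zero => rw [pow_zero, pow_zero, one_mul]; exact le_rfl
  | succ j ih =>
    rw [pow_succ', Module.End.mul_apply, D_apply]
    refine (hR _).trans ?_
    rw [pow_succ', mul_assoc]
    exact mul_le_mul_of_nonneg_left ih (pow_nonneg hw0.le _)

theorem sum_H (h : M →+* M) (n : ℕ) (b : M) :
    ∑ i ∈ range n, h^[i] b = ∑ j ∈ range n, ((n.choose (j + 1) : ℕ) : M) * (D h ^ j) b := by
  have h1 := congrArg (fun q : ℕ[X] => (q.aeval (D h) : Module.End ℤ M) b)
    (geom_sum_X_comp_X_add_one_eq_sum (R := ℕ) n)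
  simp only [aeval_comp, map_sum, map_pow, aeval_X, map_mul, map_add, map_one, map_natCast,
    LinearMap.sum_apply, H_pow] at h1
  rw [h1]
  apply Finset.sum_congr rfl
  intro j _
  rw [Module.End.mul_apply, Module.End.natCast_apply, nsmul_eq_mul]

include v0 va vz v1 vm hp hpe hw0 hw1 hR in
theorem v_trace (b : M) (hb : v b ≤ w ^ t₂) (hT1 : T ≤ t₂ + (p - 1) * t₁) (hT2 : T ≤ e + t₂) :
    v (∑ i ∈ range p, h^[i] b) ≤ w ^ T := by
  rw [sum_H]
  apply v_sum v vz va _ _ (pow_nonneg hw0.le _)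
  intro j hj
  rw [mem_range] at hj
  have h1 := v_D v v0 w hw0 t₁ h hR j b
  rw [vm]
  by_cases hjp : j + 1 = p
  · subst hjp
    rw [Nat.choose_self, Nat.cast_one, v1, one_mul]
    calc v ((D h ^ j) b) ≤ (w ^ t₁) ^ j * v b := h1
      _ ≤ (w ^ t₁) ^ j * w ^ t₂ := mul_le_mul_of_nonneg_left hb (by positivity)
      _ = w ^ (t₂ + j * t₁) := by rw [← pow_mul, ← pow_add]; congr 1; ring
      _ ≤ w ^ T := pow_le_pow_of_le_one hw0.le hw1 (by simpa using hT1)
  · obtain ⟨c, hc⟩ := hp.dvd_choose_self (k := j + 1) (by omega) (by omega)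
    rw [hc, Nat.cast_mul, vm, hpe]
    have h2 := v_nat v vz v1 va c
    have h3 : (w ^ t₁) ^ j * v b ≤ v b := mul_le_of_le_one_left (v0 b) (pow_le_one₀ (by positivity) (pow_le_one₀ hw0.le hw1))
    calc w ^ e * v (c : M) * v ((D h ^ j) b) ≤ w ^ e * 1 * w ^ t₂ := by
          apply mul_le_mul _ (h1.trans (h3.trans hb)) (v0 _) (by positivity)
          exact mul_le_mul_of_nonneg_left h2 (by positivity)
      _ = w ^ (e + t₂) := by rw [mul_one, ← pow_add]
      _ ≤ w ^ T := pow_le_pow_of_le_one hw0.le hw1 hT2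

end

section comb
variable {M : Type} [Field M] (p : ℕ) [hp : Fact p.Prime] (h : M →+* M) (hh : ∀ z, h^[p] z = z) (a : M)

/-- the conjugates -/
def A (j : ZMod p) : M := h^[j.val] a

include hh in
theorem it_mod (n : ℕ) (z : M) : h^[n % p] z = h^[n] z := by
  conv_rhs => rw [← Nat.mod_add_div n p, Function.iterate_add_apply, Function.iterate_mul]
  have h1 : ∀ m : ℕ, (h^[p])^[m] z = z := by
    intro m
    induction m with
    | zero => rfl
    | succ m ih => rw [Function.iterate_succ_apply, hh, ih]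
  rw [h1]

include hh in
theorem it_A (i j : ZMod p) : h^[i.val] (A p h a j) = A p h a (i + j) := by
  unfold A
  rw [ZMod.val_add, it_mod p h hh, Function.iterate_add_apply]

theorem it_prod (n : ℕ) {ι : Type} (s : Finset ι) (f : ι → M) : h^[n] (∏ i ∈ s, f i) = ∏ i ∈ s, h^[n] (f i) := by
  induction n generalizing f with
  | zero => rfl
  | succ n ih =>
    simp only [Function.iterate_succ_apply]
    rw [map_prod, ih]

/-- the monomials -/
def mono (S : Finset (ZMod p)) : M := ∏ j ∈ S, A p h a j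

include hh in
theorem it_mono (i : ZMod p) (S : Finset (ZMod p)) :
    h^[i.val] (mono p h a S) = mono p h a (S.map (addLeftEmbedding i)) := by
  unfold mono
  rw [it_prod, prod_map]
  exact prod_congr rfl fun j _ => it_A p h hh a i j

theorem prod_eq : ∏ j ∈ range p, (1 + h^[j] a) = ∑ S : Finset (ZMod p), mono p h a S := by
  have h1 : ∏ j ∈ range p, (1 + h^[j] a) = ∏ j : ZMod p, (1 + A p h a j) := by
    refine prod_nbij' (fun j : ℕ => (j : ZMod p)) (fun j : ZMod p => j.val) ?_ ?_ ?_ ?_ ?_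
    · intro j _; exact mem_univ _
    · intro j _; rw [mem_range]; exact ZMod.val_lt j
    · intro j hj; exact ZMod.val_cast_of_lt (mem_range.1 hj)
    · intro j _; exact ZMod.natCast_zmod_val j
    · intro j hj
      unfold A
      rw [ZMod.val_cast_of_lt (mem_range.1 hj)]
  rw [h1, prod_one_add, powerset_univ]
  rfl

theorem card_ne {S : Finset (ZMod p)} (h1 : S ≠ ∅) (h2 : S ≠ univ) : ((S.card : ℕ) : ZMod p) ≠ 0 := by
  intro h3
  rw [ZMod.natCast_eq_zero_iff] at h3
  have h4 : 0 < S.card := card_pos.2 (nonempty_iff_ne_empty.2 h1)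
  have h5 : S.card < Fintype.card (ZMod p) := (card_lt_iff_ne_univ S).2 h2
  rw [ZMod.card] at h5
  exact absurd (Nat.le_of_dvd h4 h3) (by omega)

/-- translation -/
def tl (i : ZMod p) (S : Finset (ZMod p)) : Finset (ZMod p) := S.map (addLeftEmbedding i)

theorem tl_tl (i j : ZMod p) (S : Finset (ZMod p)) : tl p i (tl p j S) = tl p (i + j) S := by
  ext x
  simp [tl, add_assoc]

theorem tl_zero (S : Finset (ZMod p)) : tl p 0 S = S := by
  ext x
  simp [tl]

theorem tl_card (i : ZMod p) (S : Finset (ZMod p)) : (tl p i S).card = S.card := card_map _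

theorem tl_sum (i : ZMod p) (S : Finset (ZMod p)) : ∑ x ∈ tl p i S, x = S.card * i + ∑ x ∈ S, x := by
  unfold tl
  rw [sum_map]
  simp only [addLeftEmbedding_apply]
  rw [sum_add_distrib, sum_const, nsmul_eq_mul]

theorem tl_empty {i : ZMod p} {S : Finset (ZMod p)} (h : tl p i S = ∅) : S = ∅ := map_eq_empty.1 h

theorem tl_univ {i : ZMod p} {S : Finset (ZMod p)} (h : tl p i S = univ) : S = univ := by
  rw [← card_eq_iff_eq_univ] at h ⊢
  rwa [tl_card] at h

include hh in
theorem sum_mono : ∑ S ∈ (univ : Finset (Finset (ZMod p))).filter (fun S => S ≠ ∅ ∧ S ≠ univ), mono p h a S =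
    ∑ S ∈ (univ : Finset (Finset (ZMod p))).filter (fun S => (S ≠ ∅ ∧ S ≠ univ) ∧ ∑ x ∈ S, x = 0),
      ∑ i ∈ range p, h^[i] (mono p h a S) := by
  have h0 : ∀ S : Finset (ZMod p), ∑ i ∈ range p, h^[i] (mono p h a S) = ∑ i : ZMod p, mono p h a (tl p i S) := by
    intro S
    refine sum_nbij' (fun j : ℕ => (j : ZMod p)) (fun j : ZMod p => j.val) ?_ ?_ ?_ ?_ ?_
    · intro j _; exact mem_univ _
    · intro j _; rw [mem_range]; exact ZMod.val_lt j
    · intro j hj; exact ZMod.val_cast_of_lt (mem_range.1 hj)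
    · intro j _; exact ZMod.natCast_zmod_val j
    · intro j hj
      have h1 := it_mono p h hh a (j : ZMod p) S
      rw [ZMod.val_cast_of_lt (mem_range.1 hj)] at h1
      exact h1
  simp only [h0]
  rw [sum_sigma']
  symm
  refine sum_bij' (fun x _ => tl p x.2 x.1)
    (fun S _ => ⟨tl p (-((S.card : ZMod p)⁻¹ * ∑ x ∈ S, x)) S, (S.card : ZMod p)⁻¹ * ∑ x ∈ S, x⟩) ?_ ?_ ?_ ?_ ?_
  · rintro ⟨S, i⟩ hS
    simp only [mem_sigma, mem_filter, mem_univ, true_and, and_true] at hS ⊢
    exact ⟨fun h1 => hS.1.1 (tl_empty p h1), fun h1 => hS.1.2 (tl_univ p h1)⟩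
  · intro S hS
    simp only [mem_sigma, mem_filter, mem_univ, true_and, and_true] at hS ⊢
    refine ⟨⟨fun h1 => hS.1 (tl_empty p h1), fun h1 => hS.2 (tl_univ p h1)⟩, ?_⟩
    rw [tl_sum]
    have h1 := card_ne p hS.1 hS.2
    field_simp
    ring
  · rintro ⟨S, i⟩ hS
    simp only [mem_sigma, mem_filter, mem_univ, true_and, and_true] at hS
    have h1 := card_ne p hS.1.1 hS.1.2
    have h2 : ((tl p i S).card : ZMod p)⁻¹ * ∑ x ∈ tl p i S, x = i := by
      rw [tl_card, tl_sum, hS.2, add_zero]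
      field_simp
    simp only
    rw [h2, tl_tl, neg_add_cancel, tl_zero]
  · intro S _
    simp only
    rw [tl_tl, add_neg_cancel, tl_zero]
  · rintro ⟨S, i⟩ _
    rfl

end comb

section main
variable {M : Type} [Field M] (v : M → ℝ) (v0 : ∀ x, 0 ≤ v x) (vz : v 0 = 0) (v1 : v 1 = 1)
  (vm : ∀ x y, v (x * y) = v x * v y) (va : ∀ x y, v (x + y) ≤ max (v x) (v y))
  (p : ℕ) (hp : p.Prime) (w : ℝ) (hw0 : 0 < w) (hw1 : w ≤ 1) (e t₁ t₂ T : ℕ)
  (hpe : v (p : M) = w ^ e) (h : M →+* M) (hR : ∀ z, v (h z - z) ≤ w ^ t₁ * v z)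
  (hh : ∀ z, h^[p] z = z) (a : M) (ha : v a ≤ w ^ t₂)

include v0 vz v1 vm va hp hw0 hw1 hpe hR hh ha in
theorem core (hT1 : T ≤ t₂ + (p - 1) * t₁) (hT2 : T ≤ e + t₂) (hT3 : T ≤ p * t₂) :
    v (∏ j ∈ range p, (1 + h^[j] a) - 1) ≤ w ^ T := by
  have : Fact p.Prime := ⟨hp⟩
  have hA : ∀ j : ZMod p, v (A p h a j) ≤ w ^ t₂ := fun j =>
    (v_hpow v v0 va w hw0 hw1 t₁ h hR j.val a).trans ha
  have hm : ∀ S : Finset (ZMod p), v (mono p h a S) ≤ (w ^ t₂) ^ S.card := by
    intro S
    unfold mono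
    rw [v_prod v v1 vm]
    refine (prod_le_prod (fun j _ => v0 _) (fun j _ => hA j)).trans_eq ?_
    rw [prod_const]
  have e1 : ∏ j ∈ range p, (1 + h^[j] a) - 1 = mono p h a univ +
      ∑ S ∈ (univ : Finset (Finset (ZMod p))).filter (fun S => S ≠ ∅ ∧ S ≠ univ), mono p h a S := by
    rw [prod_eq]
    have e2 : (univ : Finset (Finset (ZMod p))) = insert ∅ (insert univ
        ((univ : Finset (Finset (ZMod p))).filter (fun S => S ≠ ∅ ∧ S ≠ univ))) := by
      ext S
      simp only [mem_univ, mem_insert, mem_filter, true_and, true_iff]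
      tauto
    rw [e2, sum_insert, sum_insert, ← e2]
    · unfold mono
      rw [prod_empty]
      ring
    · simp
    · simp only [mem_insert, mem_filter, mem_univ, true_and, ne_eq, not_true_eq_false, false_and, or_false]
      exact fun h1 => (univ_nonempty (α := ZMod p)).ne_empty h1.symm
  rw [e1]
  refine (va _ _).trans (max_le ?_ ?_)
  · refine (hm univ).trans ?_
    rw [card_univ, ZMod.card, ← pow_mul]
    exact pow_le_pow_of_le_one hw0.le hw1 (by rw [mul_comm]; exact hT3)
  · rw [sum_mono p h hh a]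
    apply v_sum v vz va _ _ (pow_nonneg hw0.le _)
    intro S hS
    apply v_trace v v0 vz v1 vm va p hp w hw0 hw1 e t₁ t₂ T hpe h hR _ _ hT1 hT2
    refine (hm S).trans ?_
    have h1 : 1 ≤ S.card := card_pos.2 (nonempty_iff_ne_empty.2 (mem_filter.1 hS).2.1.1)
    calc (w ^ t₂) ^ S.card ≤ (w ^ t₂) ^ 1 :=
          pow_le_pow_of_le_one (by positivity) (pow_le_one₀ hw0.le hw1) h1
      _ = w ^ t₂ := pow_one _

end main

end Pool.Agent.N715.AD.RnX

namespace Pool.Agent.N715.AD

open NumberField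
open Pool.Agent.H420R3 (mi nv TP ew)

theorem rnLem : RnLem := by
  intro K _ _ M _ _ _ v p e t₁ t₂ T h a hp hpe hh hR ha hT1 hT2 hT3
  have hit : ∀ (j : ℕ) (z : M), ((h : M →+* M))^[j] z = (h ^ j) z := by
    intro j z
    induction j with
    | zero => rfl
    | succ j ih =>
      rw [Function.iterate_succ_apply', ih, pow_succ']
      rfl
  have hw0 : 0 < (nv v)⁻¹ := inv_pos.2 (Pool.Agent.H420R3.nv_pos v)
  have hw1 : (nv v)⁻¹ ≤ 1 := inv_le_one_of_one_le₀ (Pool.Agent.H420R3.one_lt_nv v).le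
  have key := RnX.core (fun x => v x) (fun x => apply_nonneg v x) (map_zero v) (map_one v)
    (fun x y => map_mul v x y) (fun x y => FinitePlace.add_le v x y) p hp (nv v)⁻¹ hw0 hw1 e t₁ t₂ T hpe
    (h : M →+* M) (fun z => hR z) (fun z => by rw [hit, hh]; rfl) a ha hT1 hT2 hT3
  simp only [hit] at key
  exact key

end Pool.Agent.N715.AD
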