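import Pool.Agent.N715.AD.Stm2
import Pool.Agent.N715.AD.Lif

/-!
# AD2/RO: elements of order `p` are not too deep (helper296)
-/

set_option autoImplicit false

open NumberField Pool.Agent.H420R3

namespace Pool.Agent.N715.AD

namespace Ro

variable {K M : Type} [Field K] [Field M] [NumberField M] [Algebra K M] {v : FinitePlace M}

theorem w_pos (v : FinitePlace M) : 0 < (nv v)⁻¹ := inv_pos.2 (zero_lt_one.trans (one_lt_nv v))

theorem w_lt (v : FinitePlace M) : (nv v)⁻¹ < 1 := inv_lt_one_of_one_lt₀ (one_lt_nv v)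

/-- the greatest depth -/
theorem exists_max {n : ℕ} {σ : Gal(M/K)} (h : Rn K v n σ) (hσ : σ ≠ 1) :
    ∃ N, n ≤ N ∧ Rn K v N σ ∧ ¬ Rn K v (N + 1) σ := by
  classical
  by_contra hcon
  push Not at hcon
  have hall : ∀ k, Rn K v (n + k) σ := by
    intro k
    induction k with
    | zero => exact h
    | succ k ih => exact hcon (n + k) (by omega) ih
  apply hσ
  ext z
  show σ z = z
  by_contra hz
  have h0 : 0 < v (σ z - z) := FinitePlace.pos_iff.mpr (sub_ne_zero.2 hz)
  have hz0 : z ≠ 0 := by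
    rintro rfl
    exact hz (map_zero σ)
  have hv0 : 0 < v z := FinitePlace.pos_iff.mpr hz0
  obtain ⟨k, hk⟩ := exists_pow_lt_of_lt_one (div_pos h0 hv0) (w_lt v)
  have h1 := hall k z
  have h2 : (nv v)⁻¹ ^ (n + k) ≤ (nv v)⁻¹ ^ k :=
    pow_le_pow_of_le_one (w_pos v).le (w_lt v).le (by omega)
  rw [lt_div_iff₀ hv0] at hk
  have h3 : (nv v)⁻¹ ^ (n + k) * v z ≤ (nv v)⁻¹ ^ k * v z := mul_le_mul_of_nonneg_right h2 hv0.le
  linarith

/-- iterates of `σ - 1` -/
theorem iter {N : ℕ} {σ : Gal(M/K)} (h : Rn K v N σ) (y : M) (j : ℕ) :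
    v ((((σ.toLinearMap : Module.End K M) - 1) ^ j) y) ≤ (nv v)⁻¹ ^ (j * N) * v y := by
  induction j with
  | zero => simp
  | succ j ih =>
    rw [pow_succ', Module.End.mul_apply]
    have h1 := h ((((σ.toLinearMap : Module.End K M) - 1) ^ j) y)
    refine le_trans h1 ?_
    calc (nv v)⁻¹ ^ N * v ((((σ.toLinearMap : Module.End K M) - 1) ^ j) y) ≤
        (nv v)⁻¹ ^ N * ((nv v)⁻¹ ^ (j * N) * v y) :=
          mul_le_mul_of_nonneg_left ih (pow_nonneg (w_pos v).le _)
      _ = _ := by rw [← mul_assoc, ← pow_add]; congr 2; ring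

theorem sum_lt {ι : Type} (s : Finset ι) (f : ι → M) {c : ℝ} (hc : 0 < c)
    (h : ∀ i ∈ s, v (f i) < c) : v (∑ i ∈ s, f i) < c :=
  Finset.sum_induction f (fun x => v x < c) (fun _ _ ha hb => Lif.add_lt ha hb)
    (by simpa using hc) h

theorem main (p e n : ℕ) (hp : p.Prime) (hpe : v (p : M) = (nv v)⁻¹ ^ e) (hn : 1 ≤ n)
    (σ : Gal(M/K)) (h : Rn K v n σ) (hσp : σ ^ p = 1) (hσ : σ ≠ 1) : (p - 1) * n ≤ e := by
  by_contra hcon
  push Not at hcon
  obtain ⟨N, hnN, hN, hN1⟩ := exists_max h hσ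
  have hp2 := hp.two_le
  have hNe : e < (p - 1) * N := lt_of_lt_of_le hcon (Nat.mul_le_mul_left _ hnN)
  unfold Rn at hN1
  push Not at hN1
  obtain ⟨z, hz⟩ := hN1
  have hw := w_pos v
  have hw1 := w_lt v
  have hz0 : z ≠ 0 := by
    rintro rfl
    simp at hz
  have hvz : 0 < v z := FinitePlace.pos_iff.mpr hz0
  obtain ⟨y, hy⟩ : ∃ y, y = σ z - z := ⟨_, rfl⟩
  rw [← hy] at hz
  have hvy : 0 < v y := lt_of_le_of_lt (by positivity) hz
  have hy0 : y ≠ 0 := FinitePlace.pos_iff.mp hvy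
  -- the equation
  obtain ⟨d, hd⟩ : ∃ d : Module.End K M, d = (σ.toLinearMap : Module.End K M) - 1 := ⟨_, rfl⟩
  have hdz : d z = y := by
    rw [hd, hy]
    rfl
  have hs : (σ.toLinearMap : Module.End K M) = d + 1 := by rw [hd]; abel
  have hpow : ∀ k : ℕ, ((σ.toLinearMap : Module.End K M) ^ k) z = (σ ^ k) z := by
    intro k
    induction k with
    | zero => rfl
    | succ k ih =>
      rw [pow_succ', Module.End.mul_apply, ih, pow_succ']
      rfl
  have h1 := hpow p
  rw [hσp, hs, (Commute.one_right d).add_pow, LinearMap.sum_apply] at h1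
  have h2 : ∀ j ∈ Finset.range (p + 1), (d ^ j * 1 ^ (p - j) * ((p.choose j : ℕ) : Module.End K M)) z =
      (p.choose j : M) * (d ^ j) z := by
    intro j _
    rw [one_pow, mul_one, Module.End.mul_apply, Module.End.natCast_apply, map_nsmul,
      nsmul_eq_mul]
  rw [Finset.sum_congr rfl h2] at h1
  obtain ⟨q, rfl⟩ : ∃ q, p = q + 2 := ⟨p - 2, by omega⟩
  rw [Finset.sum_range_succ', Finset.sum_range_succ'] at h1
  have hnat : ∀ k : ℕ, v (k : M) ≤ 1 := by
    intro k
    have := v_le_one v (k : 𝓞 M)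
    simpa using this
  have h3 : ∑ j ∈ Finset.range (q + 1), (((q + 2).choose (j + 1 + 1) : ℕ) : M) *
      (d ^ (j + 1 + 1)) z = -(((q + 2 : ℕ) : M) * y) := by
    have e1 : (d ^ (0 + 1)) z = y := by rw [zero_add, pow_one, hdz]
    have e0 : (d ^ 0) z = z := rfl
    rw [e1, e0, zero_add, Nat.choose_one_right, Nat.choose_zero_right, Nat.cast_one, one_mul] at h1
    have e2 : (1 : Gal(M/K)) z = z := rfl
    rw [e2] at h1
    linear_combination h1
  have h4 : v (∑ j ∈ Finset.range (q + 1), (((q + 2).choose (j + 1 + 1) : ℕ) : M) *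
      (d ^ (j + 1 + 1)) z) < (nv v)⁻¹ ^ e * v y := by
    refine sum_lt _ _ (by positivity) fun j hj => ?_
    rw [Finset.mem_range] at hj
    have e1 : (d ^ (j + 1 + 1)) z = (d ^ (j + 1)) y := by
      rw [pow_succ, Module.End.mul_apply, hdz]
    have e2 := iter hN y (j + 1)
    rw [← hd] at e2
    rw [e1, map_mul]
    by_cases hjq : j + 2 = q + 2
    · have e3 : (q + 2).choose (j + 1 + 1) = 1 := by
        rw [show j + 1 + 1 = q + 2 from hjq, Nat.choose_self]
      rw [e3, Nat.cast_one, map_one, one_mul]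
      refine lt_of_le_of_lt e2 (mul_lt_mul_of_pos_right ?_ hvy)
      refine pow_lt_pow_right_of_lt_one₀ hw hw1 ?_
      have : j + 1 = q + 2 - 1 := by omega
      rw [this]
      exact hNe
    · obtain ⟨c, hc⟩ : (q + 2) ∣ (q + 2).choose (j + 1 + 1) :=
        hp.dvd_choose_self (by omega) (by omega)
      have e3 : v (((q + 2).choose (j + 1 + 1) : ℕ) : M) ≤ (nv v)⁻¹ ^ e := by
        rw [hc, Nat.cast_mul, map_mul, hpe]
        exact mul_le_of_le_one_right (by positivity) (hnat c)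
      calc v (((q + 2).choose (j + 1 + 1) : ℕ) : M) * v ((d ^ (j + 1)) y) ≤
          (nv v)⁻¹ ^ e * ((nv v)⁻¹ ^ ((j + 1) * N) * v y) := by gcongr
        _ < (nv v)⁻¹ ^ e * (1 * v y) := by
            refine mul_lt_mul_of_pos_left (mul_lt_mul_of_pos_right ?_ hvy) (by positivity)
            refine pow_lt_one₀ hw.le hw1 ?_
            have : 1 ≤ (j + 1) * N := Nat.mul_pos (by omega) (by omega)
            omega
        _ = _ := by rw [one_mul]
  rw [h3, map_neg_eq_map, map_mul, hpe] at h4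
  exact lt_irrefl _ h4

end Ro

/-- **RO** -/
theorem roLem : RoLem := by
  intro K _ _ M _ _ _ v p e n hp hpe hn σ h hσp hσ
  exact Ro.main p e n hp hpe hn σ h hσp hσ

end Pool.Agent.N715.AD
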