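import Mathlib
import Pool.Agent.N715.AD.Stm2

/-!
Project AD (helper715), second part: the `p`-th powers in the ramification groups (RP).
By helper755.
-/

set_option autoImplicit false
set_option linter.unusedSectionVars false

namespace Pool.Agent.N715.AD

namespace Rp

open NumberField Module
open Pool.Agent.H420R3 (mi nv one_lt_nv)

noncomputable section

section val

variable {M : Type} [Field M] [NumberField M]

lemma w_pos (v : FinitePlace M) : 0 < (nv v)⁻¹ :=
  inv_pos.2 (lt_trans zero_lt_one (one_lt_nv v))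

lemma w_le (v : FinitePlace M) : (nv v)⁻¹ ≤ 1 := inv_le_one_of_one_le₀ (one_lt_nv v).le

lemma nat_le (v : FinitePlace M) (n : ℕ) : v (n : M) ≤ 1 := by
  induction n with
  | zero => rw [Nat.cast_zero, map_zero]; exact zero_le_one
  | succ n ih =>
    rw [Nat.cast_succ]
    exact (FinitePlace.add_le v _ _).trans (max_le ih (by rw [map_one]))

lemma sum_le (v : FinitePlace M) {ι : Type} (s : Finset ι) (f : ι → M) {C : ℝ} (hC : 0 ≤ C)
    (h : ∀ i ∈ s, v (f i) ≤ C) : v (∑ i ∈ s, f i) ≤ C := by
  classical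
  induction s using Finset.induction_on with
  | empty => rw [Finset.sum_empty, map_zero]; exact hC
  | insert a s ha ih =>
    rw [Finset.sum_insert ha]
    exact (FinitePlace.add_le v _ _).trans (max_le (h a (Finset.mem_insert_self _ _))
      (ih fun i hi => h i (Finset.mem_insert_of_mem hi)))

end val

variable {K M : Type} [Field K] [Field M] [NumberField M] [Algebra K M]

/-- the automorphism as an additive endomorphism -/
def se (σ : Gal(M/K)) : Module.End ℤ M := ((σ : M ≃+* M) : M →+ M).toIntLinearMap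

lemma se_apply (σ : Gal(M/K)) (z : M) : se σ z = σ z := rfl

lemma se_pow (σ : Gal(M/K)) (n : ℕ) (z : M) : (se σ ^ n) z = (σ ^ n) z := by
  induction n generalizing z with
  | zero => rfl
  | succ n ih =>
    rw [pow_succ, pow_succ, Module.End.mul_apply, se_apply, ih, AlgEquiv.mul_apply]

/-- the difference -/
def de (σ : Gal(M/K)) : Module.End ℤ M := se σ - 1

lemma de_apply (σ : Gal(M/K)) (z : M) : de σ z = σ z - z := rfl

lemma de_pow_le {v : FinitePlace M} {n : ℕ} {σ : Gal(M/K)} (h : Rn K v n σ) (j : ℕ) (z : M) :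
    v ((de σ ^ j) z) ≤ (nv v)⁻¹ ^ (j * n) * v z := by
  induction j generalizing z with
  | zero => simp
  | succ j ih =>
    rw [pow_succ, Module.End.mul_apply]
    refine (ih _).trans ?_
    have h1 : v (de σ z) ≤ (nv v)⁻¹ ^ n * v z := h z
    have h2 : 0 ≤ (nv v)⁻¹ ^ (j * n) := pow_nonneg (w_pos v).le _
    calc (nv v)⁻¹ ^ (j * n) * v (de σ z) ≤ (nv v)⁻¹ ^ (j * n) * ((nv v)⁻¹ ^ n * v z) :=
          mul_le_mul_of_nonneg_left h1 h2
      _ = (nv v)⁻¹ ^ ((j + 1) * n) * v z := by rw [← mul_assoc, ← pow_add]; congr 2; ring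

lemma expand (σ : Gal(M/K)) (p : ℕ) (z : M) :
    (σ ^ p) z - z = ∑ m ∈ Finset.range p, (p.choose (m + 1) : M) * (de σ ^ (m + 1)) z := by
  have h1 : se σ = de σ + 1 := by unfold de; abel
  have h2 := (Commute.one_right (de σ)).add_pow p
  rw [← h1] at h2
  have h3 := congrArg (fun f : Module.End ℤ M => f z) h2
  simp only [one_pow, mul_one] at h3
  rw [se_pow, LinearMap.sum_apply, Finset.sum_range_succ'] at h3
  rw [h3]
  have h4 : ∀ m, (de σ ^ m * ((p.choose m : ℕ) : Module.End ℤ M)) z =
      (p.choose m : M) * (de σ ^ m) z := by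
    intro m
    rw [Module.End.mul_apply, Module.End.natCast_apply, map_nsmul, nsmul_eq_mul]
  simp only [h4]
  rw [Nat.choose_zero_right, Nat.cast_one, one_mul, pow_zero, Module.End.one_apply,
    add_sub_cancel_right]

end

end Rp

open Rp NumberField in
theorem rpLem : RpLem := by
  intro K _ _ M _ _ _ v p e n hp hv σ hσ z
  have hw := w_pos v
  have hw1 := w_le v
  have hz : 0 ≤ v z := by positivity
  rw [expand σ p z]
  refine sum_le v _ _ (by positivity) fun m hm => ?_
  have hm' := Finset.mem_range.1 hm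
  rw [map_mul]
  have h1 := de_pow_le hσ (m + 1) z
  rcases Nat.lt_or_ge (m + 1) p with hlt | hge
  · obtain ⟨c, hc⟩ := hp.dvd_choose_self (Nat.succ_ne_zero m) hlt
    have h2 : v (p.choose (m + 1) : M) ≤ (Pool.Agent.H420R3.nv v)⁻¹ ^ e := by
      rw [hc, Nat.cast_mul, map_mul, hv]
      exact mul_le_of_le_one_right (by positivity) (nat_le v c)
    have h3 : v ((de σ ^ (m + 1)) z) ≤ (Pool.Agent.H420R3.nv v)⁻¹ ^ n * v z := by
      refine h1.trans (mul_le_mul_of_nonneg_right ?_ hz)
      exact pow_le_pow_of_le_one hw.le hw1 (Nat.le_mul_of_pos_left n (Nat.succ_pos m))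
    calc v (p.choose (m + 1) : M) * v ((de σ ^ (m + 1)) z)
        ≤ (Pool.Agent.H420R3.nv v)⁻¹ ^ e * ((Pool.Agent.H420R3.nv v)⁻¹ ^ n * v z) :=
          mul_le_mul h2 h3 (by positivity) (by positivity)
      _ = (Pool.Agent.H420R3.nv v)⁻¹ ^ (n + e) * v z := by rw [← mul_assoc, ← pow_add, add_comm e]
      _ ≤ (Pool.Agent.H420R3.nv v)⁻¹ ^ (min (p * n) (n + e)) * v z :=
          mul_le_mul_of_nonneg_right (pow_le_pow_of_le_one hw.le hw1 (min_le_right _ _)) hz
  · have hmp : m + 1 = p := by omega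
    rw [hmp, Nat.choose_self, Nat.cast_one, map_one, one_mul]
    rw [hmp] at h1
    exact h1.trans
      (mul_le_mul_of_nonneg_right (pow_le_pow_of_le_one hw.le hw1 (min_le_left _ _)) hz)

end Pool.Agent.N715.AD
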