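import Mathlib
import Pool.Agent.N715.AD.Stm2
import Pool.Agent.N715.AD.Lif

/-!
Project AD2 (helper715): the graded pieces of the ramification filtration have at most `p` elements
at a prime of degree one (RQ).  By helper395.
-/

set_option autoImplicit false
set_option linter.unusedSectionVars false

namespace Pool.Agent.N715.AD

namespace Rq

open NumberField Module
open Pool.Agent.H420R3 (mi nv TP v_smul nv_pos v_lt_one_iff v_sub_le v_le_iff one_lt_nv)
open Pool.Agent.H627.LP (FrobAt)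
open Pool.Agent.N715.AD.Lif (v_ne v_nn add_lt v_pow_of_le)
open scoped Pointwise

noncomputable section

section A

variable {K M : Type} [Field K] [Field M] [NumberField M] [Algebra K M] {v : FinitePlace M}

lemma w_pos : 0 < (nv v)⁻¹ := inv_pos.mpr (nv_pos v)

lemma w_lt : (nv v)⁻¹ < 1 := inv_lt_one_of_one_lt₀ (one_lt_nv v)

/-- values below one are at most `w` -/
lemma le_w {x : M} (hx : v x < 1) : v x ≤ (nv v)⁻¹ := by
  rcases eq_or_ne x 0 with rfl | h0
  · rw [map_zero]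
    exact w_pos.le
  · obtain ⟨k, hk⟩ := v_pow_of_le h0 hx.le
    rw [hk, ← inv_pow]
    rcases Nat.eq_zero_or_pos k with rfl | h
    · rw [hk, pow_zero, inv_one] at hx
      exact absurd hx (lt_irrefl _)
    · calc (nv v)⁻¹ ^ k ≤ (nv v)⁻¹ ^ 1 := pow_le_pow_of_le_one w_pos.le w_lt.le h
        _ = _ := pow_one _

/-- a uniformiser -/
lemma exists_uni (v : FinitePlace M) : ∃ π : M, v π = (nv v)⁻¹ := by
  obtain ⟨a, ha, ha'⟩ := Ideal.exists_mem_pow_notMem_pow_succ (mi v) (H420R3.mi_ne_bot v)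
    (Ideal.IsMaximal.ne_top inferInstance) 1
  rw [← v_le_iff] at ha ha'
  have ha0 : (a : M) ≠ 0 := by
    intro h
    apply ha'
    rw [h, map_zero]
    have := nv_pos v
    positivity
  obtain ⟨k, hk⟩ := v_pow_of_le ha0 (H420R3.v_le_one v a)
  have h1 := one_lt_nv v
  have h2 := nv_pos v
  rw [hk, inv_le_inv₀ (by positivity) (by positivity), pow_le_pow_iff_right₀ h1] at ha ha'
  have h3 : k = 1 := by omega
  exact ⟨a, by rw [hk, h3, pow_one]⟩

/-- the relative move -/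
def bb (π : M) (τ : Gal(M/K)) : M := τ π / π - 1

lemma bb_eq {π : M} (hπ : π ≠ 0) (τ : Gal(M/K)) : τ π = (1 + bb π τ) * π := by
  unfold bb
  field_simp
  ring

lemma bb_le {n : ℕ} {τ : Gal(M/K)} (h : Rn K v n τ) {π : M} (hπ : π ≠ 0) :
    v (bb π τ) ≤ (nv v)⁻¹ ^ n := by
  have h1 : bb π τ = (τ π - π) / π := by
    unfold bb
    field_simp
  rw [h1, map_div₀, div_le_iff₀ (FinitePlace.pos_iff.mpr hπ)]
  exact h π

/-- the move of a product -/
lemma bb_mul {t : ℕ} (ht : 1 ≤ t) {τ τ' : Gal(M/K)} (h : Rn K v t τ) {π : M} (hπ : π ≠ 0)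
    (h' : v (bb π τ') ≤ (nv v)⁻¹ ^ t) :
    v (bb π (τ * τ') - bb π τ - bb π τ') ≤ (nv v)⁻¹ ^ (t + 1) := by
  have hw := w_pos (v := v)
  have hw1 := w_lt (v := v)
  have h1 : bb π (τ * τ') - bb π τ - bb π τ' =
      (τ (bb π τ') - bb π τ') + τ (bb π τ') * bb π τ := by
    have h2 : τ (τ' π) = (1 + τ (bb π τ')) * ((1 + bb π τ) * π) := by
      rw [bb_eq hπ τ', map_mul, map_add, map_one, bb_eq hπ τ]
    have h3 : bb π (τ * τ') = (1 + τ (bb π τ')) * (1 + bb π τ) - 1 := by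
      have h4 : bb π (τ * τ') = τ (τ' π) / π - 1 := rfl
      rw [h4, h2]
      field_simp
    rw [h3]
    ring
  have h2 : (nv v)⁻¹ ^ t * (nv v)⁻¹ ^ t ≤ (nv v)⁻¹ ^ (t + 1) := by
    rw [← pow_add]
    exact pow_le_pow_of_le_one hw.le hw1.le (by omega)
  have h3 : v (τ (bb π τ') - bb π τ') ≤ (nv v)⁻¹ ^ (t + 1) := by
    refine (h _).trans (le_trans ?_ h2)
    gcongr
  have h4 : v (τ (bb π τ')) ≤ (nv v)⁻¹ ^ t := by
    have h5 : τ (bb π τ') = (τ (bb π τ') - bb π τ') + bb π τ' := by ring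
    rw [h5]
    refine (FinitePlace.add_le v _ _).trans (max_le (h3.trans ?_) h')
    exact pow_le_pow_of_le_one hw.le hw1.le (by omega)
  rw [h1]
  refine (FinitePlace.add_le v _ _).trans (max_le h3 ?_)
  rw [map_mul]
  refine le_trans ?_ h2
  exact mul_le_mul h4 (bb_le h hπ) (v_nn _) (by positivity)

/-- the move of a power -/
lemma bb_pow {t : ℕ} (ht : 1 ≤ t) {τ : Gal(M/K)} (h : Rn K v t τ) {π : M} (hπ : π ≠ 0) (k : ℕ) :
    v (bb π (τ ^ k) - k * bb π τ) ≤ (nv v)⁻¹ ^ (t + 1) ∧ v (bb π (τ ^ k)) ≤ (nv v)⁻¹ ^ t := by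
  have hw := w_pos (v := v)
  have hw1 := w_lt (v := v)
  have hstep : (nv v)⁻¹ ^ (t + 1) ≤ (nv v)⁻¹ ^ t :=
    pow_le_pow_of_le_one hw.le hw1.le (by omega)
  induction k with
  | zero =>
    have h1 : bb π ((τ ^ 0 : Gal(M/K))) = 0 := by
      unfold bb
      rw [pow_zero, AlgEquiv.one_apply, div_self hπ, sub_self]
    rw [h1, Nat.cast_zero, zero_mul, sub_self, map_zero]
    exact ⟨by positivity, by positivity⟩
  | succ k ih =>
    have h1 := bb_mul ht h hπ ih.2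
    rw [← pow_succ'] at h1
    have h2 : bb π (τ ^ (k + 1)) - ((k + 1 : ℕ) : M) * bb π τ =
        (bb π (τ ^ (k + 1)) - bb π τ - bb π (τ ^ k)) + (bb π (τ ^ k) - k * bb π τ) := by
      push_cast
      ring
    have h3 : v (bb π (τ ^ (k + 1)) - ((k + 1 : ℕ) : M) * bb π τ) ≤ (nv v)⁻¹ ^ (t + 1) := by
      rw [h2]
      exact (FinitePlace.add_le v _ _).trans (max_le h1 ih.1)
    refine ⟨h3, ?_⟩
    have h4 : bb π (τ ^ (k + 1)) =
        (bb π (τ ^ (k + 1)) - bb π τ - bb π (τ ^ k)) + (bb π (τ ^ k) + bb π τ) := by ring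
    rw [h4]
    refine (FinitePlace.add_le v _ _).trans (max_le (h1.trans hstep) ?_)
    exact (FinitePlace.add_le v _ _).trans (max_le ih.2 (bb_le h hπ))

/-- residues fixed by the Frobenius map are in the prime field -/
lemma exists_nat {p : ℕ} (hp : p.Prime) (hvp : v (p : M) < 1) {c : M} (hc : v c ≤ 1)
    (h : v (c ^ p - c) < 1) : ∃ m : ℕ, v (c - m) < 1 := by
  obtain ⟨b, hb⟩ := H627.LR.exists_int v hc
  let : Field (𝓞 M ⧸ mi v) := Ideal.Quotient.field (mi v)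
  have hfp : Fact p.Prime := ⟨hp⟩
  have hpm : (p : 𝓞 M) ∈ mi v := by
    rw [← v_lt_one_iff]
    simpa using hvp
  have hchar : CharP (𝓞 M ⧸ mi v) p := by
    obtain ⟨l, hl⟩ := CharP.exists (𝓞 M ⧸ mi v)
    have h1 : (p : 𝓞 M ⧸ mi v) = 0 := by
      rw [← map_natCast (Ideal.Quotient.mk (mi v)), Ideal.Quotient.eq_zero_iff_mem]
      exact hpm
    have h2 : l ∣ p := (CharP.cast_eq_zero_iff _ l p).mp h1
    have h3 : l ≠ 1 := CharP.char_ne_one (𝓞 M ⧸ mi v) l
    rw [← (Nat.dvd_prime hp).mp h2 |>.resolve_left h3]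
    exact hl
  have h1 : Ideal.Quotient.mk (mi v) b ^ p = Ideal.Quotient.mk (mi v) b := by
    rw [← map_pow, Ideal.Quotient.eq, ← v_lt_one_iff]
    push_cast
    have h2 : (b : M) ^ p - b = ((c ^ p - c) + (c - b)) - (c ^ p - (b : M) ^ p) := by ring
    rw [h2]
    refine lt_of_le_of_lt (v_sub_le v _ _) (max_lt (add_lt h hb) ?_)
    exact R829.BG.pow_close hc (H420R3.v_le_one v b) hb p
  rw [← Subfield.mem_bot_iff_pow_eq_self (𝓞 M ⧸ mi v) p, mem_bot_iff_intCast p] at h1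
  obtain ⟨n, hn⟩ := h1
  have hp0 : (p : ℤ) ≠ 0 := by exact_mod_cast hp.ne_zero
  have h3 : (((n % p).toNat : ℕ) : ℤ) = n % p := Int.toNat_of_nonneg (Int.emod_nonneg _ hp0)
  refine ⟨(n % p).toNat, ?_⟩
  have h4 : v ((b : M) - n) < 1 := by
    have h5 : (b : M) - n = ((b - (n : 𝓞 M) : 𝓞 M) : M) := rfl
    rw [h5, v_lt_one_iff, ← Ideal.Quotient.eq, ← hn, map_intCast]
  have h5 : v ((p : M) * ((n / p : ℤ) : M)) < 1 := by
    have h6 : ((n / p : ℤ) : M) = (((n / p : ℤ) : 𝓞 M) : M) := rfl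
    rw [map_mul, h6]
    exact lt_of_le_of_lt (mul_le_of_le_one_right (v_nn _) (H420R3.v_le_one v _)) hvp
  have h6 : c - (((n % p).toNat : ℕ) : M) = ((c - b) + ((b : M) - n)) +
      (p : M) * ((n / p : ℤ) : M) := by
    have h7 : ((((n % p).toNat : ℕ) : ℤ) : M) = ((n % p : ℤ) : M) := by rw [h3]
    rw [Int.cast_natCast] at h7
    have h8 : (n : M) = (p : M) * ((n / p : ℤ) : M) + ((n % p : ℤ) : M) := by
      conv_lhs => rw [← Int.mul_ediv_add_emod n p]
      push_cast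
      ring
    rw [h7]
    linear_combination h8
  rw [h6]
  exact add_lt (add_lt hb h4) h5

end A

theorem rqLem (hRv : RvLem) (hRu : RuLem) : RqLem := by
  intro K _ _ M _ _ _ _ P _ hP0 p hp hpP hnorm v hv t σ σ' ht hσ hσ1 hσ'
  have hw := w_pos (v := v)
  have hw1 := w_lt (v := v)
  have hwt : (nv v)⁻¹ ^ t < 1 := pow_lt_one₀ hw.le hw1 (by omega)
  have hIn : ∀ τ : Gal(M/K), Rn K v t τ → τ ∈ In K v := by
    intro τ hτ
    refine AddSubgroup.mem_inertia.mpr fun x => ?_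
    have h1 : v (τ (x : M) - x) < 1 := by
      refine lt_of_le_of_lt (hτ x) ?_
      exact lt_of_le_of_lt (mul_le_of_le_one_right (by positivity) (H420R3.v_le_one v x)) hwt
    have h2 : τ (x : M) - x = ((τ • x - x : 𝓞 M) : M) := by push_cast; rfl
    rw [h2, v_lt_one_iff] at h1
    exact h1
  have hvp : v (p : M) < 1 := by
    have hlo := H420R3.liesOver_of_mem hP0 hv
    have h4 : (algebraMap (𝓞 K) (𝓞 M) (p : 𝓞 K)) ∈ mi v := by
      have h5 : (p : 𝓞 K) ∈ (mi v).under (𝓞 K) := by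
        rw [← hlo.over]
        exact hpP
      exact h5
    rw [map_natCast] at h4
    have h5 := (v_lt_one_iff v _).mpr h4
    simpa using h5
  obtain ⟨π, hπ⟩ := exists_uni v
  have hπ0 : π ≠ 0 := by
    rintro rfl
    rw [map_zero] at hπ
    exact hw.ne hπ
  have hvπ : 0 < v π := FinitePlace.pos_iff.mpr hπ0
  obtain ⟨a, ha⟩ : ∃ a, a = bb π σ := ⟨_, rfl⟩
  obtain ⟨a', ha'⟩ : ∃ a', a' = bb π σ' := ⟨_, rfl⟩
  have ha'le : v a' ≤ (nv v)⁻¹ ^ t := ha' ▸ bb_le hσ' hπ0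
  have hale : v a ≤ (nv v)⁻¹ ^ t := ha ▸ bb_le hσ hπ0
  have hmove : ∀ τ : Gal(M/K), v (τ π - π) = v (bb π τ) * v π := by
    intro τ
    rw [← map_mul]
    congr 1
    unfold bb
    field_simp
  have hgt : ¬ v a ≤ (nv v)⁻¹ ^ (t + 1) := by
    intro h
    apply hσ1
    refine hRu K M P hP0 v hv σ (hIn σ hσ) (t + 1) π (by omega) hπ ?_
    rw [hmove, ← ha]
    gcongr
  have ha0 : a ≠ 0 := by
    rintro h
    apply hgt
    rw [h, map_zero]
    positivity
  have hva : v a = (nv v)⁻¹ ^ t := by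
    obtain ⟨k, hk⟩ := v_pow_of_le ha0 (hale.trans hwt.le)
    rw [← inv_pow] at hk
    rw [hk] at hale hgt ⊢
    have h1 : t ≤ k := by
      by_contra hcon
      push Not at hcon
      exact absurd hale (not_le.mpr (pow_lt_pow_right_of_lt_one₀ hw hw1 hcon))
    have h2 : k < t + 1 := by
      by_contra hcon
      push Not at hcon
      exact hgt (pow_le_pow_of_le_one hw.le hw1.le hcon)
    have h3 : k = t := by omega
    rw [h3]
  have hva0 : 0 < v a := FinitePlace.pos_iff.mpr ha0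
  -- Frobenius
  obtain ⟨φ, hφ1, hφ2⟩ := H420R3.exists_frob (K := K) hP0 hv 1
  rw [pow_one, hnorm] at hφ2
  have hfr : FrobAt v φ p := ⟨hφ1, hφ2⟩
  have hφv : ∀ z, v (φ z) = v z := fun z => v_smul v hφ1 z
  have hφπ : φ π ≠ 0 := (map_ne_zero φ).mpr hπ0
  have hcm : ∀ τ : Gal(M/K), Rn K v t τ → v (φ (bb π τ) - bb π τ) ≤ (nv v)⁻¹ ^ (t + 1) := by
    intro τ hτ
    obtain ⟨y, hy⟩ : ∃ y, y = φ π / π := ⟨_, rfl⟩
    have hvy : v y = 1 := by rw [hy, map_div₀, hφv, div_self hvπ.ne']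
    have hy0 : y ≠ 0 := by
      rw [hy]
      exact div_ne_zero hφπ hπ0
    have hyπ : φ π = y * π := by
      rw [hy]
      field_simp
    have hcomm : φ (τ π) = τ (φ π) := by
      have h1 : (φ * τ) π = (τ * φ) π := by rw [IsMulCommutative.is_comm.comm φ τ]
      exact h1
    have hτπ : τ π = (1 + bb π τ) * π := bb_eq hπ0 τ
    have h1 : φ (bb π τ) - bb π τ = (τ y - y) / y * (1 + bb π τ) := by
      have h2 : φ (bb π τ) = (τ y * ((1 + bb π τ) * π)) / (y * π) - 1 := by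
        have h3 : φ (bb π τ) = φ (τ π) / φ π - 1 := by
          unfold bb
          rw [map_sub, map_div₀, map_one]
        rw [h3, hcomm, hyπ, map_mul, hτπ]
      rw [h2]
      field_simp
      ring
    have h2 : v (1 + bb π τ) ≤ 1 := by
      refine (FinitePlace.add_le v _ _).trans (max_le (by rw [map_one]) ?_)
      exact (bb_le hτ hπ0).trans hwt.le
    rw [h1, map_mul, map_div₀, hvy, div_one]
    exact (mul_le_of_le_one_right (v_nn _) h2).trans (hRv K M P hP0 v hv t τ ht hτ y hvy)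
  -- the residue of the quotient
  have hc1 : v (a' / a) ≤ 1 := by
    rw [map_div₀, hva]
    exact div_le_one_of_le₀ ha'le (by positivity)
  have hca : v (φ (a' / a) - a' / a) < 1 := by
    have hφa : φ a ≠ 0 := (map_ne_zero φ).mpr ha0
    have h1 : φ (a' / a) - a' / a = ((φ a' - a') * a - a' * (φ a - a)) / (φ a * a) := by
      rw [map_div₀]
      field_simp
      ring
    have h2 : v ((φ a' - a') * a - a' * (φ a - a)) ≤ (nv v)⁻¹ ^ (t + 1) * (nv v)⁻¹ ^ t := by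
      refine (v_sub_le v _ _).trans (max_le ?_ ?_)
      · rw [map_mul]
        exact mul_le_mul (ha' ▸ hcm σ' hσ') hale (v_nn _) (by positivity)
      · rw [map_mul, mul_comm]
        exact mul_le_mul (ha ▸ hcm σ hσ) ha'le (v_nn _) (by positivity)
    rw [h1, map_div₀, map_mul, hφv, hva]
    refine lt_of_le_of_lt (div_le_div_of_nonneg_right h2 (by positivity)) ?_
    rw [pow_succ]
    have h3 : ∀ r w : ℝ, r ≠ 0 → r * w * r / (r * r) = w := by
      intro r w hr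
      field_simp
    rw [h3 _ _ (pow_pos hw t).ne']
    exact hw1
  have hcp : v ((a' / a) ^ p - a' / a) < 1 := by
    have h1 : (a' / a) ^ p - a' / a = (φ (a' / a) - a' / a) - (φ (a' / a) - (a' / a) ^ p) := by
      ring
    rw [h1]
    exact lt_of_le_of_lt (v_sub_le v _ _) (max_lt hca (hfr.lt hc1))
  obtain ⟨m, hm⟩ := exists_nat hp hvp hc1 hcp
  obtain ⟨k, hk⟩ : ∃ k, k = (p - 1) * m := ⟨_, rfl⟩
  have hkm : (k : M) = p * m - m := by
    rw [hk, Nat.cast_mul, Nat.cast_sub hp.one_lt.le]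
    push_cast
    ring
  have hck : v (a' / a + k) ≤ (nv v)⁻¹ := by
    apply le_w
    have h1 : a' / a + k = (a' / a - m) + (p : M) * ((m : 𝓞 M) : M) := by
      rw [hkm]
      push_cast
      ring
    rw [h1]
    refine add_lt hm ?_
    rw [map_mul]
    exact lt_of_le_of_lt (mul_le_of_le_one_right (v_nn _) (H420R3.v_le_one v _)) hvp
  have hak : v (a' + k * a) ≤ (nv v)⁻¹ ^ (t + 1) := by
    have h1 : a' + k * a = a * (a' / a + k) := by
      field_simp
    rw [h1, map_mul, hva, pow_succ]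
    gcongr
  obtain ⟨h1, h2⟩ := bb_pow ht hσ hπ0 k
  have h3 := bb_mul ht hσ' hπ0 h2
  rw [← ha] at h1
  rw [← ha'] at h3
  refine ⟨k, hRu K M P hP0 v hv (σ' * σ ^ k) ?_ (t + 1) π (by omega) hπ ?_⟩
  · exact Subgroup.mul_mem _ (hIn σ' hσ') (Subgroup.pow_mem _ (hIn σ hσ) k)
  rw [hmove]
  gcongr
  have h4 : bb π (σ' * σ ^ k) = ((bb π (σ' * σ ^ k) - a' - bb π (σ ^ k)) +
      (bb π (σ ^ k) - k * a)) + (a' + k * a) := by ring
  rw [h4]
  exact (FinitePlace.add_le v _ _).trans (max_le ((FinitePlace.add_le v _ _).trans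
    (max_le h3 h1)) hak)

end

end Rq

/-- (RQ) -/
theorem rqLem (h1 : RvLem) (h2 : RuLem) : RqLem := Rq.rqLem h1 h2

end Pool.Agent.N715.AD
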