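import Mathlib
import Pool.Agent.N715.AD.Stm

/-!
# Project AD (helper715): restriction of a finite place to a subfield (helper887)
-/

set_option autoImplicit false
set_option linter.unusedSectionVars false

namespace Pool.Agent.N715.AD

open NumberField Module IsDedekindDomain Pool.Agent.H420R3

namespace Rst

noncomputable section

variable {K : Type*} [Field K] [NumberField K]
variable {M : Type*} [Field M] [NumberField M] [Algebra K M]

section

variable {L : Type*} [Field L] [NumberField L] [Algebra M L]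

/-- the value of a place at the integers of a subfield -/
lemma val_int (v : FinitePlace L) (u : FinitePlace M) [hlo : (mi v).LiesOver (mi u)] (a : 𝓞 M) :
    v (algebraMap M L a) = u (a : M) ^ ((mi v).ramificationIdx (𝓞 M) * (mi u).inertiaDeg' (mi v)) := by
  rcases eq_or_ne a 0 with rfl | ha
  · have he : 0 < (mi v).ramificationIdx (𝓞 M) := (mi v).ramificationIdx_pos (𝓞 M)
    have hf : 0 < (mi u).inertiaDeg' (mi v) := Ideal.inertiaDeg'_pos (mi u) (mi v)
    simp only [map_zero]
    rw [zero_pow (Nat.mul_pos he hf).ne']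
  · have h1 : algebraMap (𝓞 M) (𝓞 L) a ≠ 0 := by
      intro h
      exact ha ((FaithfulSMul.algebraMap_injective (𝓞 M) (𝓞 L)) (by rw [h, map_zero]))
    have h2 : algebraMap M L (a : M) = ((algebraMap (𝓞 M) (𝓞 L) a : 𝓞 L) : L) := rfl
    rw [h2, v_eq v h1, v_eq u ha]
    have h3 : multiplicity (mi v) (Ideal.span {algebraMap (𝓞 M) (𝓞 L) a}) =
        (mi v).ramificationIdx (𝓞 M) * multiplicity (mi u) (Ideal.span {a}) := by
      rw [← Set.image_singleton, ← Ideal.map_span]
      refine multiplicity_eq_of_emultiplicity_eq_some ?_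
      have h4 : Ideal.span {a} ≠ ⊥ := by simp [ha]
      rw [Ideal.IsDedekindDomain.emultiplicity_map_eq_ramificationIdx'_mul h4
        u.maximalIdeal.irreducible v.maximalIdeal.irreducible v.maximalIdeal.ne_bot,
        Nat.cast_mul, (finMult u ha).emultiplicity_eq_multiplicity,
        Ideal.ramificationIdx'_eq_ramificationIdx _ _ (mi_ne_bot u)]
    have h5 : nv v = nv u ^ ((mi u).inertiaDeg' (mi v)) := by
      unfold nv
      rw [Ideal.absNorm_eq_pow_inertiaDeg'_of_liesOver (mi v) (mi u) inferInstance (mi_ne_bot u)]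
      push_cast
      rfl
    rw [h3, h5, inv_pow, ← pow_mul, ← pow_mul]
    congr 2
    ring


lemma val_all (v : FinitePlace L) (u : FinitePlace M) [hlo : (mi v).LiesOver (mi u)] (z : M) :
    v (algebraMap M L z) = u z ^ ((mi v).ramificationIdx (𝓞 M) * (mi u).inertiaDeg' (mi v)) := by
  obtain ⟨a, b, hb, rfl⟩ := IsFractionRing.div_surjective (A := 𝓞 M) z
  rw [map_div₀, map_div₀, map_div₀, div_pow]
  rw [← val_int v u a, ← val_int v u b]

lemma exists_under (v : FinitePlace L) :
    ∃ u : FinitePlace M, (mi v).LiesOver (mi u) := by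
  have h1 : ((mi v).under (𝓞 M)).IsMaximal := inferInstance
  have h0 : (mi v).under (𝓞 M) ≠ ⊥ := by
    intro h
    exact mi_ne_bot v (Ideal.eq_bot_of_comap_eq_bot (R := 𝓞 M) h)
  let w : HeightOneSpectrum (𝓞 M) := ⟨(mi v).under (𝓞 M), h1.isPrime, h0⟩
  refine ⟨FinitePlace.mk w, ?_⟩
  have hw : mi (FinitePlace.mk w) = (mi v).under (𝓞 M) := by
    unfold mi
    rw [FinitePlace.maximalIdeal_mk]
  rw [hw]
  infer_instance

end

section tow

variable {L : Type*} [Field L] [NumberField L] [Algebra M L] [Algebra K L] [IsScalarTower K M L]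

lemma ew_mul (v : FinitePlace L) (u : FinitePlace M) [hlo : (mi v).LiesOver (mi u)] :
    ew K v = (((mi v).ramificationIdx (𝓞 M) * (mi u).inertiaDeg' (mi v) : ℕ) : ℝ) * ew K u := by
  unfold ew
  have h5 : nv v = nv u ^ ((mi u).inertiaDeg' (mi v)) := by
    unfold nv
    rw [Ideal.absNorm_eq_pow_inertiaDeg'_of_liesOver (mi v) (mi u) inferInstance (mi_ne_bot u)]
    push_cast
    rfl
  have h6 : (mi v).ramificationIdx (𝓞 K) =
      (mi u).ramificationIdx (𝓞 K) * (mi v).ramificationIdx (𝓞 M) :=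
    Ideal.ramificationIdx_tower (R := 𝓞 K) (mi u) (mi v)
  rw [h5, h6, Real.log_pow]
  push_cast
  ring

end tow

end

end Rst

open Rst in
theorem rstLem : RstLem := by
  intro K _ _ M _ _ L _ _ _ _ _ _ P _ hP0 v hv
  obtain ⟨u, hu⟩ := exists_under (M := M) v
  have h1 : mi v ∈ P.primesOver (𝓞 L) := (mem_TP hP0).mp hv
  have h2 : (mi v).LiesOver P := h1.2
  have h3 : (mi u).LiesOver P := Ideal.LiesOver.tower_bot (mi v) (mi u) P
  have he : 0 < (mi v).ramificationIdx (𝓞 M) := (mi v).ramificationIdx_pos (𝓞 M)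
  have hf : 0 < (mi u).inertiaDeg' (mi v) := Ideal.inertiaDeg'_pos (mi u) (mi v)
  refine ⟨u, (mem_TP hP0).mpr ⟨inferInstance, h3⟩,
    (((mi v).ramificationIdx (𝓞 M) * (mi u).inertiaDeg' (mi v) : ℕ) : ℝ), ?_, ?_, ?_⟩
  · exact_mod_cast Nat.mul_pos he hf
  · intro z
    rw [Real.rpow_natCast, val_all v u z]
  · exact ew_mul v u

end Pool.Agent.N715.AD
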