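import Mathlib
import Pool.Agent.N715.AD.Stm2
import Pool.Agent.N715.AD.Lif
import Pool.Agent.N715.AD.Rst

/-!
# Project AD2 (helper715): restriction of inertia and ramification to a subfield (helper618)
-/

set_option autoImplicit false
set_option linter.unusedSectionVars false

namespace Pool.Agent.N715.AD

open NumberField Module IsDedekindDomain
open Pool.Agent.H420R3 (mi nv TP ew mem_TP nv_pos v_lt_one_iff)
open Pool.Agent.R829.BH (inertia_lt)
open scoped Pointwise

theorem rrLem : RrLem := by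
  intro K _ _ M _ _ _ _ M' _ P _ hP0 v hv
  obtain ⟨v', hlo⟩ := Rst.exists_under (M := M') v
  have hPv : (mi v).LiesOver P := H420R3.liesOver_of_mem hP0 hv
  have hPv' : (mi v').LiesOver P := Ideal.LiesOver.tower_bot (mi v) (mi v') P
  set f := (mi v).ramificationIdx (𝓞 M') with hf
  set g := (mi v').inertiaDeg' (mi v) with hg
  have hf0 : 0 < f := (mi v).ramificationIdx_pos (𝓞 M')
  have hg0 : 0 < g := Ideal.inertiaDeg'_pos (mi v') (mi v)
  have hfg : f * g ≠ 0 := (Nat.mul_pos hf0 hg0).ne'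
  have hval : ∀ z : M', v (z : M) = v' z ^ (f * g) := fun z => Rst.val_all v v' z
  have hnv : nv v = nv v' ^ g := by
    unfold nv
    rw [Ideal.absNorm_eq_pow_inertiaDeg'_of_liesOver (mi v) (mi v') inferInstance
      (H420R3.mi_ne_bot v')]
    push_cast
    rfl
  have hpow : ∀ k : ℕ, (nv v)⁻¹ ^ (f * k) = ((nv v')⁻¹ ^ k) ^ (f * g) := by
    intro k
    rw [hnv, ← inv_pow, ← pow_mul, ← pow_mul]
    congr 1
    ring
  have hnn : 0 ≤ (nv v')⁻¹ := (inv_pos.2 (nv_pos v')).le
  have hres : ∀ (σ : Gal(M/K)) (z : M'),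
      ((AlgEquiv.restrictNormalHom M' σ z : M') : M) = σ (z : M) := fun σ z =>
    AlgEquiv.restrictNormal_commutes σ M' z
  have hunder : mi v' = (mi v).under (𝓞 M') := hlo.over
  have hmem : ∀ (φ : Gal(M/K)) (y : 𝓞 M'), AlgEquiv.restrictNormalHom M' φ • y - y ∈ mi v' ↔
      v (φ ((y : M') : M) - ((y : M') : M)) < 1 := by
    intro φ y
    have h1 : (((algebraMap (𝓞 M') (𝓞 M) (AlgEquiv.restrictNormalHom M' φ • y - y) : 𝓞 M)) : M) =
        φ ((y : M') : M) - ((y : M') : M) := by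
      rw [map_sub]
      have h2 : (((algebraMap (𝓞 M') (𝓞 M) (AlgEquiv.restrictNormalHom M' φ • y) : 𝓞 M)) : M) =
          φ ((y : M') : M) := AlgEquiv.restrictNormal_commutes φ M' (y : M')
      exact congrArg₂ (fun a b : M => a - b) h2 rfl
    rw [← h1, v_lt_one_iff, hunder]
    rfl
  refine ⟨v', (mem_TP hP0).mpr ⟨inferInstance, hPv'⟩, f, hf0, ?_, ?_, ?_, ?_, ?_, ?_⟩
  · have h1 : Nat.card (In K v) = (mi v).ramificationIdx (𝓞 K) := by
      unfold In
      rw [Ideal.card_inertia_eq_ramificationIdxIn (G := Gal(M/K)) P (mi v)]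
      exact Ideal.ramificationIdxIn_eq_ramificationIdx P (mi v) Gal(M/K)
    have h2 : (mi v).ramificationIdx (𝓞 K) =
        (mi v').ramificationIdx (𝓞 K) * (mi v).ramificationIdx (𝓞 M') :=
      Ideal.ramificationIdx_tower (R := 𝓞 K) (mi v') (mi v)
    have h3 : Nat.card (In K v') = (mi v').ramificationIdx (𝓞 K) := by
      unfold In
      rw [Ideal.card_inertia_eq_ramificationIdxIn (G := Gal(M'/K)) P (mi v')]
      exact Ideal.ramificationIdxIn_eq_ramificationIdx P (mi v') Gal(M'/K)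
    rw [h1, h2, h3, mul_comm]
  · exact (Lif.card_S hP0 hv M').symm
  · intro z k
    rw [hval, hpow]
    exact (pow_le_pow_iff_left₀ (Lif.v_nn z) (pow_nonneg hnn k) hfg).symm
  · intro σ n
    have key : ∀ z : M', v' (AlgEquiv.restrictNormalHom M' σ z - z) ≤ (nv v')⁻¹ ^ n * v' z ↔
        v (σ (z : M) - (z : M)) ≤ (nv v)⁻¹ ^ (f * n) * v (z : M) := by
      intro z
      have h1 : σ (z : M) - (z : M) =
          ((AlgEquiv.restrictNormalHom M' σ z - z : M') : M) := by
        rw [← hres]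
        rfl
      rw [h1, hval, hval, hpow, ← mul_pow]
      exact (pow_le_pow_iff_left₀ (Lif.v_nn _)
        (mul_nonneg (pow_nonneg hnn n) (Lif.v_nn _)) hfg).symm
    constructor
    · intro h z hz
      exact (key ⟨z, hz⟩).1 (h ⟨z, hz⟩)
    · intro h z
      exact (key z).2 (h z z.2)
  · intro σ hσ
    unfold In
    rw [AddSubgroup.mem_inertia]
    intro y
    change AlgEquiv.restrictNormalHom M' σ • y - y ∈ mi v'
    rw [hmem]
    apply inertia_lt hσ
    exact H420R3.v_le_one v (algebraMap (𝓞 M') (𝓞 M) y)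
  · intro σ' hσ'
    obtain ⟨ρ, hρ⟩ := AlgEquiv.restrictNormalHom_surjective (F := K) (K₁ := M') M σ'
    have h1 : ∀ z ∈ M', v z ≤ 1 → v (ρ z - z) < 1 := by
      intro z hz hz1
      have h2 : v' (⟨z, hz⟩ : M') ≤ 1 := by
        have h3 := hval ⟨z, hz⟩
        have h4 : v' (⟨z, hz⟩ : M') ^ (f * g) ≤ 1 := by
          rw [← h3]
          exact hz1
        exact (pow_le_one_iff_of_nonneg (Lif.v_nn _) hfg).1 h4
      have h3 := inertia_lt hσ' h2
      have h4 : ρ z - z = ((σ' ⟨z, hz⟩ - ⟨z, hz⟩ : M') : M) := by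
        rw [← hρ]
        exact congrArg (fun a : M => a - z) (hres ρ ⟨z, hz⟩).symm
      rw [h4, hval]
      exact pow_lt_one₀ (Lif.v_nn _) h3 hfg
    obtain ⟨φ, hφ, hφρ⟩ := Lif.exists_inertia hP0 hv M' ρ h1
    refine ⟨φ, hφ, ?_⟩
    rw [← hρ]
    ext z
    rw [hres, hres]
    exact hφρ z z.2

end Pool.Agent.N715.AD

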