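import Mathlib
import Pool.Agent.N715.AD.Stm2
import Pool.Agent.N715.AD.Lif

/-!
Project AD (helper715), part RT: the tame ramification index divides the jumps.  By helper394.
-/

set_option autoImplicit false
set_option linter.unusedSectionVars false

namespace Pool.Agent.N715.AD

namespace Rt

open NumberField Module
open Pool.Agent.H420R3 (mi nv TP ew v_smul nv_pos v_lt_one_iff v_sub_le)
open Pool.Agent.H627.LR (res res_spec res_eq)
open Pool.Agent.R829.BH (inertia_lt inertia_v tt Kr prime_dvd_Kr w_tt)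
open Pool.Agent.N715.AC.Dis (res_mul res_one tch tch_one w_nat)
open Pool.Agent.N715.AD.Lif (one_of_close v_ne v_nn v_pow_of_le)
open scoped Pointwise

noncomputable section

section Res

variable {M : Type} [Field M] [NumberField M] {v : FinitePlace M}

lemma res_pow' {a : M} (ha : v a ≤ 1) (n : ℕ) : res v (a ^ n) = res v a ^ n := by
  have hpow : ∀ n : ℕ, v (a ^ n) ≤ 1 := fun n => by
    rw [map_pow]
    exact pow_le_one₀ (v_nn a) ha
  induction n with
  | zero => rw [pow_zero, pow_zero, res_one]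
  | succ n ih =>
    rw [pow_succ (res v a), ← ih]
    apply res_mul (hpow n) ha (hpow (n + 1))
    rw [pow_succ, sub_self, map_zero]
    exact one_pos

lemma res_close_one {b : M} (h : v (b - 1) < 1) : res v b = 1 := by
  have h1 := res_mul (v := v) (a := 1) (a' := 1) (b := b) (by rw [map_one]) (by rw [map_one])
    (one_of_close h).le (by rw [mul_one]; exact h)
  rw [h1, res_one, mul_one]

/-- a uniformiser -/
lemma exists_pi (v : FinitePlace M) : ∃ π : M, π ≠ 0 ∧ v π = (nv v)⁻¹ ∧ v π < 1 ∧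
    ¬ v π ≤ (nv v ^ 2)⁻¹ := by
  obtain ⟨π₀, hπ1, hπ2⟩ := Ideal.exists_mem_pow_notMem_pow_succ (mi v) (H420R3.mi_ne_bot v)
    (Ideal.IsMaximal.ne_top inferInstance) 1
  have hπ00 : π₀ ≠ 0 := by
    rintro rfl
    exact hπ2 (Submodule.zero_mem _)
  have hπ0 : (π₀ : M) ≠ 0 := RingOfIntegers.coe_ne_zero_iff.mpr hπ00
  have h1 : v (π₀ : M) ≤ (nv v ^ 1)⁻¹ := (H420R3.v_le_iff v π₀ 1).mpr hπ1
  have h2 : ¬ v (π₀ : M) ≤ (nv v ^ 2)⁻¹ := fun h => hπ2 ((H420R3.v_le_iff v π₀ 2).mp h)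
  have hnv := H420R3.one_lt_nv v
  have hnv0 := nv_pos v
  refine ⟨(π₀ : M), hπ0, ?_, ?_, h2⟩
  · rw [H420R3.v_eq v hπ00] at h1 h2 ⊢
    rw [inv_le_inv₀ (by positivity) (by positivity), pow_le_pow_iff_right₀ hnv] at h1 h2
    have h3 : multiplicity (mi v) (Ideal.span {π₀}) = 1 := by omega
    rw [h3, pow_one]
  · rw [pow_one] at hπ1
    exact (v_lt_one_iff v π₀).mpr hπ1

/-- small values -/
lemma le_of_lt_pow {a : M} {t : ℕ} (h : v a < (nv v)⁻¹ ^ t) : v a ≤ (nv v)⁻¹ ^ (t + 1) := by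
  have hnv := H420R3.one_lt_nv v
  have hnv0 := nv_pos v
  rcases eq_or_ne a 0 with rfl | ha
  · rw [map_zero]
    positivity
  · have hle : v a ≤ 1 := by
      refine h.le.trans (pow_le_one₀ (by positivity) ?_)
      exact inv_le_one_of_one_le₀ hnv.le
    obtain ⟨k, hk⟩ := v_pow_of_le ha hle
    rw [hk, inv_pow] at h ⊢
    rw [inv_lt_inv₀ (by positivity) (by positivity), pow_lt_pow_iff_right₀ hnv] at h
    rw [inv_le_inv₀ (by positivity) (by positivity), pow_le_pow_iff_right₀ hnv]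
    omega

end Res

section Main

variable {K : Type} [Field K] [NumberField K] {M : Type} [Field M] [NumberField M]
  [Algebra K M] {v : FinitePlace M}

lemma mem_In {t : ℕ} {σ : Gal(M/K)} (ht : 1 ≤ t) (h : Rn K v t σ) : σ ∈ In K v := by
  have hnv := H420R3.one_lt_nv v
  have hnv0 := nv_pos v
  change σ ∈ (mi v).inertia Gal(M/K)
  rw [AddSubgroup.mem_inertia]
  intro x
  change σ • x - x ∈ mi v
  rw [← v_lt_one_iff]
  have h1 : ((σ • x - x : 𝓞 M) : M) = σ (x : M) - x := rfl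
  rw [h1]
  refine lt_of_le_of_lt (h x) ?_
  have h2 : (nv v)⁻¹ ^ t < 1 := by
    apply pow_lt_one₀ (by positivity) (inv_lt_one_of_one_lt₀ hnv)
    omega
  calc (nv v)⁻¹ ^ t * v (x : M) ≤ (nv v)⁻¹ ^ t * 1 := by
        gcongr
        exact H420R3.v_le_one v x
    _ < 1 := by rw [mul_one]; exact h2

end Main

/-- the character of the inertia group has order dividing the jump -/
lemma pow_jump (h1 : RvLem) (h2 : RuLem) (K : Type) [Field K] [NumberField K] (M : Type)
    [Field M] [NumberField M] [Algebra K M] [IsAbelianGalois K M] (P : Ideal (𝓞 K))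
    [P.IsMaximal] (hP0 : P ≠ ⊥) (v : FinitePlace M) (hv : v ∈ TP M P) (t : ℕ) (σ : Gal(M/K))
    (ht : 1 ≤ t) (hσ : Rn K v t σ) (hσ' : ¬ Rn K v (t + 1) σ) (π : M) (hπ0 : π ≠ 0)
    (hπ : v π = (nv v)⁻¹) (τ : Gal(M/K)) (hτ : τ ∈ In K v) : v (tt π τ ^ t - 1) < 1 := by
  have hnv := H420R3.one_lt_nv v
  have hnv0 := nv_pos v
  have hσI : σ ∈ In K v := mem_In ht hσ
  have hvπ : v π ≠ 0 := v_ne hπ0
  have hσπ0 : σ π ≠ 0 := (map_ne_zero σ).mpr hπ0
  have hτπ0 : τ π ≠ 0 := (map_ne_zero τ).mpr hπ0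
  obtain ⟨a, ha⟩ : ∃ a, a = σ π / π - 1 := ⟨_, rfl⟩
  have hva : v (σ π - π) = v a * v π := by
    rw [ha, ← map_mul]
    congr 1
    field_simp
  have hva1 : v a ≤ (nv v)⁻¹ ^ t := by
    have h3 := hσ π
    rw [hva] at h3
    exact le_of_mul_le_mul_right h3 (FinitePlace.pos_iff.mpr hπ0)
  have hva2 : v a = (nv v)⁻¹ ^ t := by
    apply le_antisymm hva1
    by_contra hlt
    push Not at hlt
    apply hσ'
    have h3 := le_of_lt_pow hlt
    refine h2 K M P hP0 v hv σ hσI (t + 1) π (by omega) hπ ?_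
    rw [hva]
    gcongr
  have ha0 : a ≠ 0 := by
    rintro rfl
    rw [map_zero] at hva2
    have : 0 < (nv v)⁻¹ ^ t := by positivity
    linarith
  -- the unit `x`
  obtain ⟨x, hx⟩ : ∃ x, x = tt π τ := ⟨_, rfl⟩
  have hvx : v x = 1 := by
    rw [hx]
    exact w_tt hπ0 hτ
  have hx0 : x ≠ 0 := by
    rintro rfl
    rw [map_zero] at hvx
    exact zero_ne_one hvx
  have h3 : v (σ x - x) ≤ (nv v)⁻¹ ^ (t + 1) := h1 K M P hP0 v hv t σ ht hσ x hvx
  have hcomm : σ (τ π) = τ (σ π) := by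
    have h4 : σ * τ = τ * σ := IsMulCommutative.is_comm.comm σ τ
    exact congrArg (fun g : Gal(M/K) => g π) h4
  have h4 : τ a - a = (1 + a) * ((σ x - x) / x) := by
    have e1 : 1 + a = σ π / π := by rw [ha]; ring
    have e2 : τ a = τ (σ π) / τ π - 1 := by rw [ha, map_sub, map_one, map_div₀]
    have e3 : σ x = τ (σ π) / σ π := by
      rw [hx, tt, map_div₀, hcomm]
    have e4 : x = τ π / π := hx
    have h5 : (1 + a) * ((σ x - x) / x) = (1 + a) * (σ x / x) - (1 + a) := by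
      field_simp
    rw [h5, e3, e4, e2]
    have h6 : (1 + a) * (τ (σ π) / σ π / (τ π / π)) = τ (σ π) / τ π := by
      rw [e1]
      field_simp
    rw [h6]
    ring
  have hv1a : v (1 + a) = 1 := by
    have e1 : 1 + a = σ π / π := by rw [ha]; ring
    rw [e1, map_div₀, inertia_v hσI, div_self hvπ]
  have h5 : v (τ a - a) ≤ (nv v)⁻¹ ^ (t + 1) := by
    rw [h4, map_mul, hv1a, one_mul, map_div₀, hvx, div_one]
    exact h3
  -- write `a = b π ^ t`
  obtain ⟨b, hb⟩ : ∃ b, b = a / π ^ t := ⟨_, rfl⟩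
  have hb0 : b ≠ 0 := by
    rw [hb]
    exact div_ne_zero ha0 (pow_ne_zero _ hπ0)
  have hvb : v b = 1 := by
    rw [hb, map_div₀, map_pow, hva2, hπ]
    exact div_self (by positivity)
  have hab : a = b * π ^ t := by
    rw [hb]
    field_simp
  have hτb0 : τ b ≠ 0 := (map_ne_zero τ).mpr hb0
  have h6 : τ a / a = (τ b / b) * x ^ t := by
    have e4 : x = τ π / π := hx
    rw [hab, map_mul, map_pow, e4, div_pow]
    field_simp
  have h7 : v (τ a / a - 1) < 1 := by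
    have e1 : τ a / a - 1 = (τ a - a) / a := by field_simp
    rw [e1, map_div₀, hva2, div_lt_one (by positivity)]
    refine lt_of_le_of_lt h5 ?_
    rw [pow_succ]
    have e2 : (nv v)⁻¹ < 1 := inv_lt_one_of_one_lt₀ hnv
    have e3 : 0 < (nv v)⁻¹ ^ t := by positivity
    calc (nv v)⁻¹ ^ t * (nv v)⁻¹ < (nv v)⁻¹ ^ t * 1 := by gcongr
      _ = _ := mul_one _
  have h8 : v (τ b / b - 1) < 1 := by
    have e1 : τ b / b - 1 = (τ b - b) / b := by field_simp
    rw [e1, map_div₀, hvb, div_one]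
    exact inertia_lt hτ hvb.le
  have h9 : v (τ b / b) = 1 := one_of_close h8
  have h10 : (τ b / b) * (x ^ t - 1) = (τ a / a - 1) - (τ b / b - 1) := by
    rw [h6]
    ring
  have h11 : v ((τ b / b) * (x ^ t - 1)) < 1 := by
    rw [h10]
    exact lt_of_le_of_lt (v_sub_le v _ _) (max_lt h7 h8)
  rw [map_mul, h9, one_mul, hx] at h11
  exact h11

theorem rtLem' (h1 : RvLem) (h2 : RuLem) : RtLem := by
  intro K _ _ M _ _ _ _ P hPm hP0 p hp hpP v hv e₀ w t σ he₀ hcard ht hσ hσ'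
  classical
  have hlo := H420R3.liesOver_of_mem hP0 hv
  have hvp : v (p : M) < 1 := by
    have h4 : (algebraMap (𝓞 K) (𝓞 M) (p : 𝓞 K)) ∈ mi v := by
      have h5 : (p : 𝓞 K) ∈ (mi v).under (𝓞 K) := by
        rw [← hlo.over]
        exact hpP
      exact h5
    rw [map_natCast] at h4
    have h5 := (v_lt_one_iff v _).mpr h4
    simpa using h5
  have hcop := w_nat hp hvp
  obtain ⟨π, hπ0, hπ, hπ1, hπ2⟩ := exists_pi v
  have hfin : Finite (𝓞 M ⧸ mi v) := Ideal.finiteQuotientOfFreeOfNeBot (mi v)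
    (H420R3.mi_ne_bot v)
  obtain ⟨θ, hθ⟩ : ∃ θ : In K v →* 𝓞 M ⧸ mi v, θ = tch hπ0 (In K v) le_rfl := ⟨_, rfl⟩
  obtain ⟨U, hU⟩ : ∃ U : In K v →* (𝓞 M ⧸ mi v)ˣ, U = θ.toHomUnits := ⟨_, rfl⟩
  have hUθ : ∀ δ, ((U δ : (𝓞 M ⧸ mi v)ˣ) : 𝓞 M ⧸ mi v) = θ δ := by
    intro δ
    rw [hU]
    rfl
  -- the kernel is a `p`-group
  have hker : ∀ δ ∈ U.ker, ((δ : In K v) : Gal(M/K)) ∈ Kr v hπ0 := by
    intro δ hδ
    have h3 : θ δ = 1 := by
      rw [← hUθ, MonoidHom.mem_ker.mp hδ, Units.val_one]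
    rw [hθ] at h3
    exact tch_one hπ0 le_rfl h3
  have hdvd : Nat.card U.ker ∣ Nat.card (Kr (K := K) v hπ0) := by
    have h3 : U.ker.map (In K v).subtype ≤ Kr (K := K) v hπ0 := by
      rintro _ ⟨δ, hδ, rfl⟩
      exact hker δ hδ
    have h4 : Nat.card (U.ker.map (In K v).subtype) = Nat.card U.ker :=
      Subgroup.card_map_of_injective (In K v).subtype_injective
    rw [← h4]
    exact Subgroup.card_dvd_of_le h3
  have hkp := Nat.eq_prime_pow_of_unique_prime_dvd (n := Nat.card U.ker) (p := p)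
    (Nat.card_pos.ne') (fun {l} hl hl' =>
      prime_dvd_Kr (K := K) hπ0 hπ1 hπ2 hcop hp hl (hl'.trans hdvd))
  -- the order of the image
  have hmul : Nat.card U.ker * Nat.card U.range = e₀ * p ^ w := by
    rw [← hcard, ← Subgroup.index_ker]
    exact Subgroup.card_mul_index U.ker
  have he : e₀ ∣ Nat.card U.range := by
    have h3 : e₀ ∣ Nat.card U.ker * Nat.card U.range := by
      rw [hmul]
      exact Dvd.intro _ rfl
    rw [hkp] at h3
    refine Nat.Coprime.dvd_of_dvd_mul_left ?_ h3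
    exact Nat.Coprime.pow_right _ ((Nat.Prime.coprime_iff_not_dvd hp).mpr he₀).symm
  refine he.trans ?_
  -- the image has exponent dividing `t`
  have hfinR : Finite U.range := (Set.finite_range U).to_subtype
  obtain ⟨γ, hγ⟩ := (inferInstance : IsCyclic U.range).exists_generator
  rw [← orderOf_eq_card_of_forall_mem_zpowers hγ]
  apply orderOf_dvd_of_pow_eq_one
  obtain ⟨τ, hτ⟩ := γ.2
  apply Subtype.ext
  rw [SubmonoidClass.coe_pow, ← hτ]
  apply Units.ext
  rw [Units.val_pow_eq_pow_val, hUθ, hθ]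
  change res v (tt π ((τ : In K v) : Gal(M/K))) ^ t = 1
  rw [← res_pow' (w_tt hπ0 τ.2).le]
  exact res_close_one (pow_jump h1 h2 K M P hP0 v hv t σ ht hσ hσ' π hπ0 hπ τ τ.2)

end

end Rt

/-- (RT) -/
theorem rtLem (h1 : RvLem) (h2 : RuLem) (_h3 : RpLem) : RtLem := Rt.rtLem' h1 h2

end Pool.Agent.N715.AD
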