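import Mathlib
import Pool.Agent.N715.AD.Stm2
import Pool.Agent.N715.AD.Lif

/-!
AD2-RU: the test on a uniformiser.  By helper216.
-/

set_option autoImplicit false
set_option linter.unusedSectionVars false

namespace Pool.Agent.N715.AD

namespace Ru

open NumberField Module
open Pool.Agent.H420R3 (mi nv TP v_lt_one_iff nv_pos one_lt_nv)
open Pool.Agent.R829.BH (inertia_lt inertia_v)
open Lif (D v_nn v_ne)

section

variable {M : Type} [Field M] [NumberField M] (v : FinitePlace M)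

/-- the residue characteristic -/
lemma exists_char : ∃ p : ℕ, p.Prime ∧ v (p : M) < 1 := by
  have hm : (mi v).IsMaximal := v.maximalIdeal.isMaximal
  have hfin : Finite (𝓞 M ⧸ mi v) := Ideal.finiteQuotientOfFreeOfNeBot (mi v) (H420R3.mi_ne_bot v)
  let : Field (𝓞 M ⧸ mi v) := Ideal.Quotient.field (mi v)
  obtain ⟨p, hp⟩ := CharP.exists (𝓞 M ⧸ mi v)
  refine ⟨p, CharP.char_is_prime (𝓞 M ⧸ mi v) p, ?_⟩
  have h1 : (p : 𝓞 M) ∈ mi v := by
    rw [← Ideal.Quotient.eq_zero_iff_mem, map_natCast]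
    exact CharP.cast_eq_zero _ p
  rw [← v_lt_one_iff] at h1
  simpa using h1

/-- every element is a unit times a power of a uniformiser -/
lemma exists_unit {π z : M} (hπ : v π = (nv v)⁻¹) (hz : z ≠ 0) :
    ∃ (u : M) (k : ℤ), v u = 1 ∧ z = u * π ^ k := by
  have h1 := one_lt_nv v
  have h0 := nv_pos v
  have hπ0 : π ≠ 0 := by
    rintro rfl
    rw [map_zero] at hπ
    exact absurd hπ (inv_pos.2 h0).ne
  have hπ1 : v π < 1 := by
    rw [hπ]
    exact inv_lt_one_of_one_lt₀ h1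
  obtain ⟨n, hn1, hn2⟩ := Lif.exists_zpow hπ0 hπ1 hz
  refine ⟨z * π ^ n, -n, ?_, ?_⟩
  · have hne : z * π ^ n ≠ 0 := mul_ne_zero hz (zpow_ne_zero _ hπ0)
    obtain ⟨k, hk⟩ := Lif.v_pow_of_le hne hn2
    rw [hk] at hn1 ⊢
    rw [hπ, inv_lt_inv₀ h0 (by positivity)] at hn1
    have h2 : k < 1 := by
      by_contra hcon
      push Not at hcon
      have h3 : nv v ^ 1 ≤ nv v ^ k := pow_le_pow_right₀ h1.le hcon
      rw [pow_one] at h3
      linarith
    have h3 : k = 0 := by omega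
    rw [h3, pow_zero, inv_one]
  · rw [mul_assoc, ← zpow_add₀ hπ0, add_neg_cancel, zpow_zero, mul_one]

end

section

variable {K M : Type} [Field K] [Field M] [NumberField M] [Algebra K M] {v : FinitePlace M}
  {σ : Gal(M/K)}

lemma D_mul (hσ : ∀ z : M, v (σ z) = v z) {x y : M} (hx : x ≠ 0) (hy : y ≠ 0) :
    D v σ (x * y) ≤ max (D v σ x) (D v σ y) := by
  have h1 : σ (x * y) / (x * y) - 1 = (σ x / x) * (σ y / y - 1) + (σ x / x - 1) := by
    rw [map_mul]
    field_simp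
    ring
  unfold D
  rw [h1]
  refine (FinitePlace.add_le v _ _).trans ?_
  rw [map_mul, map_div₀, hσ, div_self (v_ne hx), one_mul, max_comm]

lemma D_inv (hσ : ∀ z : M, v (σ z) = v z) {x : M} (hx : x ≠ 0) : D v σ x⁻¹ = D v σ x := by
  have hx' : σ x ≠ 0 := (map_ne_zero σ).mpr hx
  have h1 : σ x⁻¹ / x⁻¹ - 1 = -((σ x / x - 1) / (σ x / x)) := by
    rw [map_inv₀]
    field_simp
    ring
  unfold D
  rw [h1, H627.LR.v_neg, map_div₀, map_div₀, hσ, div_self (v_ne hx), div_one]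

lemma D_pow (hσ : ∀ z : M, v (σ z) = v z) {x : M} (hx : x ≠ 0) (n : ℕ) :
    D v σ (x ^ n) ≤ D v σ x := by
  induction n with
  | zero =>
    unfold D
    simp
  | succ n ih =>
    rw [pow_succ]
    exact (D_mul hσ (pow_ne_zero n hx) hx).trans (max_le ih le_rfl)

lemma D_zpow (hσ : ∀ z : M, v (σ z) = v z) {x : M} (hx : x ≠ 0) (n : ℤ) :
    D v σ (x ^ n) ≤ D v σ x := by
  obtain ⟨m, rfl | rfl⟩ := n.eq_nat_or_neg
  · rw [zpow_natCast]
    exact D_pow hσ hx m
  · rw [zpow_neg, zpow_natCast, D_inv hσ (pow_ne_zero m hx)]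
    exact D_pow hσ hx m

end

end Ru

open NumberField Pool.Agent.H420R3 in
theorem ruLem : RuLem := by
  intro K _ _ M _ _ _ _ P _ hP v hv σ hσ n π hn hπ hσπ
  have h0 := nv_pos v
  have h1 := one_lt_nv v
  have hw0 : (0 : ℝ) < (nv v)⁻¹ := inv_pos.2 h0
  have hw1 : (nv v)⁻¹ < 1 := inv_lt_one_of_one_lt₀ h1
  have hπ0 : π ≠ 0 := by
    rintro rfl
    rw [map_zero] at hπ
    exact hw0.ne hπ
  have hσv : ∀ z : M, v (σ z) = v z := fun z => Pool.Agent.R829.BH.inertia_v hσ z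
  obtain ⟨p, hp, hvp⟩ := Ru.exists_char v
  have hDπ : Lif.D v σ π ≤ (nv v)⁻¹ ^ n := (Lif.D_lt hπ0).2 hσπ
  have hDu : ∀ u : M, v u = 1 → Lif.D v σ u < 1 := by
    intro u hu
    have hu0 : u ≠ 0 := by
      rintro rfl
      rw [map_zero] at hu
      exact zero_ne_one hu
    have h2 := Pool.Agent.R829.BH.inertia_lt hσ hu.le
    rw [Lif.D_eq σ hu0, hu, mul_one] at h2
    exact h2
  have hDz : ∀ z : M, z ≠ 0 → ∃ u, v u = 1 ∧ Lif.D v σ z ≤ max (Lif.D v σ u) (Lif.D v σ π) := by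
    intro z hz
    obtain ⟨u, k, hu, hk⟩ := Ru.exists_unit v hπ hz
    have hu0 : u ≠ 0 := by
      rintro rfl
      rw [map_zero] at hu
      exact zero_ne_one hu
    refine ⟨u, hu, ?_⟩
    rw [hk]
    exact (Ru.D_mul hσv hu0 (zpow_ne_zero k hπ0)).trans
      (max_le_max le_rfl (Ru.D_zpow hσv hπ0 k))
  have hφ : ∀ z : M, z ≠ 0 → Lif.D v σ z < 1 := by
    intro z hz
    obtain ⟨u, hu, h2⟩ := hDz z hz
    refine lt_of_le_of_lt h2 (max_lt (hDu u hu) (lt_of_le_of_lt hDπ ?_))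
    exact pow_lt_one₀ hw0.le hw1 (by omega)
  have hall : ∀ z : M, z ≠ 0 → Lif.D v σ z ≤ (nv v)⁻¹ ^ n := by
    by_cases hne : ∃ y ∈ {y : M | ∃ z : M, z ≠ 0 ∧ y = σ z / z - 1}, y ≠ 0
    · obtain ⟨y, ⟨z0, hz0, hy⟩, hy0, hmax⟩ := Lif.exists_max (v := v) _ hne (by
        rintro _ ⟨z, hz, rfl⟩
        exact (hφ z hz).le)
      have hε : 0 < v y := FinitePlace.pos_iff.mpr hy0
      have hM : ∀ z ∈ (⊤ : IntermediateField K M), z ≠ 0 → Lif.D v σ z ≤ v y :=
        fun z _ hz => hmax _ ⟨z, hz, rfl⟩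
      obtain ⟨u, hu, h2⟩ := hDz z0 hz0
      have h3 := Lif.D_unit hφ hp hvp ⊤ hε hM (u := u) (by trivial) hu
      have h4 : Lif.D v σ z0 = v y := by
        rw [hy]
        rfl
      rw [h4] at h2
      have h5 : v y ≤ Lif.D v σ π := by
        rcases le_max_iff.1 h2 with h | h
        · exact absurd h3 (not_lt.2 h)
        · exact h
      intro z hz
      exact (hM z (by trivial) hz).trans (h5.trans hDπ)
    · push Not at hne
      intro z hz
      have h2 : σ z / z - 1 = 0 := hne _ ⟨z, hz, rfl⟩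
      unfold Lif.D
      rw [h2, map_zero]
      positivity
  intro z
  rcases eq_or_ne z 0 with rfl | hz
  · simp
  · exact (Lif.D_lt hz).1 (hall z hz)

end Pool.Agent.N715.AD
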