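import Mathlib
import Pool.Agent.N715.AD.Stm2
import Pool.Agent.N715.AD.Lif

/-!
Project AD2 (helper715): elements of the inertia group whose order is a power of `p` are wild (RW).
By helper767.
-/

set_option autoImplicit false
set_option linter.unusedSectionVars false

namespace Pool.Agent.N715.AD

open NumberField Module
open Pool.Agent.H420R3 (mi nv TP ew nv_pos v_lt_one_iff)

noncomputable section

namespace Rw

/-- the residue characteristic has value less than one -/
lemma v_char_lt {K M : Type} [Field K] [NumberField K] [Field M] [NumberField M] [Algebra K M]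
    {P : Ideal (𝓞 K)} [P.IsMaximal] (hP0 : P ≠ ⊥) {p : ℕ} (hpP : (p : 𝓞 K) ∈ P)
    {v : FinitePlace M} (hv : v ∈ TP M P) : v (p : M) < 1 := by
  have hlo := H420R3.liesOver_of_mem hP0 hv
  have h4 : (algebraMap (𝓞 K) (𝓞 M) (p : 𝓞 K)) ∈ mi v := by
    have h5 : (p : 𝓞 K) ∈ (mi v).under (𝓞 K) := by
      rw [← hlo.over]
      exact hpP
    exact h5
  rw [map_natCast] at h4
  have h5 := (v_lt_one_iff v _).mpr h4
  simpa using h5

/-- values less than one are at most the value of a uniformiser -/
lemma le_of_lt {M : Type} [Field M] [NumberField M] {v : FinitePlace M} {x : M} (hx : v x < 1) :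
    v x ≤ (nv v)⁻¹ := by
  have hnv := H420R3.one_lt_nv v
  rcases eq_or_ne x 0 with rfl | h0
  · rw [map_zero]
    exact inv_nonneg.2 (by linarith)
  · obtain ⟨k, hk⟩ := Lif.v_pow_of_le h0 hx.le
    rcases Nat.eq_zero_or_pos k with hk0 | hk0
    · rw [hk0, pow_zero, inv_one] at hk
      exact absurd hk hx.ne
    · rw [hk]
      refine inv_anti₀ (by linarith) ?_
      calc nv v = nv v ^ 1 := (pow_one _).symm
        _ ≤ nv v ^ k := pow_le_pow_right₀ hnv.le hk0

end Rw

/-- (RW) -/
theorem rwLem : RwLem := by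
  intro K _ _ M _ _ _ _ P _ hP0 p hp hpP v hv σ hσ k hk z
  have hvp := Rw.v_char_lt hP0 hpP hv
  rcases eq_or_ne z 0 with rfl | hz
  · rw [map_zero, sub_zero, map_zero, mul_zero]
  · have h1 := Lif.wild_of_order hp hvp hσ hk z hz
    have h2 : v (σ z / z - 1) ≤ (nv v)⁻¹ := Rw.le_of_lt h1
    have h3 : σ z - z = (σ z / z - 1) * z := by
      field_simp
    rw [h3, map_mul, pow_one]
    exact mul_le_mul_of_nonneg_right h2 (Lif.v_nn z)

end

end Pool.Agent.N715.AD
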