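import Mathlib
import Pool.Agent.N715.AD.Stm

/-!
# AD/SUM (helper401): multiplicities of a form at distinct points
-/

set_option autoImplicit false

namespace Pool.Agent.N715.AD

namespace SUM_

theorem lin_hom {k : Type} [Field k] (y : Fin (1 + 1) → k) : (lin y).IsHomogeneous 1 := by
  unfold lin
  refine MvPolynomial.IsHomogeneous.sub ?_ ?_
  · have := (MvPolynomial.isHomogeneous_C (Fin (1 + 1)) (y 1)).mul
      (MvPolynomial.isHomogeneous_X k (0 : Fin (1 + 1)))
    rwa [zero_add] at this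
  · have := (MvPolynomial.isHomogeneous_C (Fin (1 + 1)) (y 0)).mul
      (MvPolynomial.isHomogeneous_X k (1 : Fin (1 + 1)))
    rwa [zero_add] at this

theorem eval_lin {k : Type} [Field k] (x y : Fin (1 + 1) → k) :
    MvPolynomial.eval x (lin y) = wdg x y := by
  unfold lin wdg
  simp only [map_sub, map_mul, MvPolynomial.eval_C, MvPolynomial.eval_X]
  ring

theorem sum0 (k : Type) [Field k] (hp : ∀ y : Fin (1 + 1) → k, y ≠ 0 → Prime (lin y))
    (A : MvPolynomial (Fin (1 + 1)) k) (d : ℕ) (hA : A ≠ 0)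
    (hd : A.IsHomogeneous d) (s : ℕ) (y : Fin s → Fin (1 + 1) → k) (μ : Fin s → ℕ)
    (hy : ∀ i, y i ≠ 0) (hw : ∀ i j, i ≠ j → wdg (y i) (y j) ≠ 0)
    (hdvd : ∀ i, lin (y i) ^ μ i ∣ A) :
    ∑ i, μ i ≤ d := by
  classical
  have h1 : (∏ i, lin (y i) ^ μ i) ∣ A := by
    refine Finset.prod_dvd_of_isRelPrime ?_ (fun i _ => hdvd i)
    intro i _ j _ hij
    refine IsRelPrime.pow ?_
    rw [(hp (y i) (hy i)).irreducible.isRelPrime_iff_not_dvd]
    rintro ⟨q, hq⟩
    apply hw i j hij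
    rw [← eval_lin (y i) (y j), hq, map_mul, eval_lin]
    unfold wdg
    ring
  obtain ⟨B, hB⟩ := h1
  have hP0 : (∏ i, lin (y i) ^ μ i) ≠ 0 := by
    intro h0
    rw [h0, zero_mul] at hB
    exact hA hB
  have hB0 : B ≠ 0 := by
    intro h0
    rw [h0, mul_zero] at hB
    exact hA hB
  have h2 : (∏ i, lin (y i) ^ μ i).IsHomogeneous (∑ i, μ i) := by
    refine MvPolynomial.IsHomogeneous.prod _ _ _ fun i _ => ?_
    have := (lin_hom (y i)).pow (μ i)
    rwa [one_mul] at this
  have h3 := h2.totalDegree hP0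
  have h4 := hd.totalDegree hA
  have h5 := MvPolynomial.totalDegree_mul_of_isDomain hP0 hB0
  rw [← hB] at h5
  omega

end SUM_

theorem sumLem (h : BinLem) : SumLem := by
  intro k _ A d hA hd s y μ hy hw hdvd
  exact SUM_.sum0 k (fun y hy => h.2.1 k y hy) A d hA hd s y μ hy hw hdvd

end Pool.Agent.N715.AD
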