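import Mathlib
import Pool.Agent.N715.AD.Stm
import Pool.Agent.N715.AC.Fin
import Pool.Agent.N715.AC.Ind2

/-!
Project AD: the tame case.
-/

set_option autoImplicit false
set_option linter.unusedSectionVars false

namespace Pool.Agent.N715.AD

open NumberField Module IsDedekindDomain
open Pool.Agent.W238.Leh (act canH Bds hC canH_smul)
open Pool.Agent.H627.LP (Wnd act_iter_smul)
open Pool.Agent.H420R3 (mi nv TP ew mem_TP)
open Pool.Agent.R829.DL (canH_hom iter_map)

noncomputable section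

namespace Tam

/-- the place given by a prime ideal -/
lemma exists_place {K : Type} [Field K] [NumberField K] {E : Type} [Field E] [NumberField E]
    [Algebra K E] {P : Ideal (𝓞 K)} [P.IsMaximal] (hP0 : P ≠ ⊥) (𝔓 : Ideal (𝓞 E))
    (h1 : 𝔓.IsPrime) (h2 : 𝔓.under (𝓞 K) = P) : ∃ u ∈ TP E P, mi u = 𝔓 := by
  have hlo : 𝔓.LiesOver P := ⟨h2.symm⟩
  have h0 : 𝔓 ≠ ⊥ := Ideal.ne_bot_of_liesOver_of_ne_bot hP0 𝔓
  let w : HeightOneSpectrum (𝓞 E) := ⟨𝔓, h1, h0⟩
  have hw : mi (FinitePlace.mk w) = 𝔓 := by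
    unfold mi
    rw [FinitePlace.maximalIdeal_mk]
  refine ⟨FinitePlace.mk w, ?_, hw⟩
  rw [mem_TP hP0, hw]
  exact ⟨h1, hlo⟩

/-- the prime divisors of the norm -/
lemma mem_of_dvd {K : Type} [Field K] [NumberField K] {P : Ideal (𝓞 K)} [hP : P.IsMaximal]
    (hP0 : P ≠ ⊥) {p : ℕ} (hp : p.Prime) (hd : p ∣ P.absNorm) : (p : 𝓞 K) ∈ P := by
  obtain ⟨p', hp', hpP⟩ := AC.exists_char hP0
  have h6 : P.absNorm ∣ p' ^ finrank ℚ K := by
    have h7 : Ideal.span {(p' : 𝓞 K)} ≤ P := by
      rw [Ideal.span_singleton_le_iff_mem]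
      exact hpP
    have h8 := Ideal.absNorm_dvd_absNorm_of_le h7
    rwa [Ideal.absNorm_span_singleton, Algebra.norm_natCast, Int.natAbs_pow,
      Int.natAbs_natCast, RingOfIntegers.rank] at h8
  have h9 : p ∣ p' := hp.dvd_of_dvd_pow (hd.trans h6)
  rw [(Nat.prime_dvd_prime_iff_eq hp hp').mp h9]
  exact hpP

/-- the degree of the field of definition over a subfield -/
lemma finrank_le {K L : Type} [Field K] [NumberField K] [Field L] [NumberField L] [Algebra K L]
    (E M : IntermediateField K L) (z : L) (hM : IntermediateField.adjoin K {z} = M) (hE : E ≤ M)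
    {r : ℕ} (hr : (minpoly E z).natDegree ≤ r) :
    letI : Algebra E M := (IntermediateField.inclusion hE).toRingHom.toAlgebra
    finrank E M ≤ r := by
  let _ : Algebra E M := (IntermediateField.inclusion hE).toRingHom.toAlgebra
  have hfd : FiniteDimensional K L := Pool.Agent.R829.DL.fd_inter K L
  have : IsScalarTower K E M := IsScalarTower.of_algebraMap_eq fun c => rfl
  have : IsScalarTower E M L := IsScalarTower.of_algebraMap_eq fun c => rfl
  have : FiniteDimensional E M := FiniteDimensional.right K E M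
  obtain ⟨α, hα⟩ := Field.exists_primitive_element E M
  have h1 : finrank E M = (minpoly E α).natDegree := by
    rw [← IntermediateField.adjoin.finrank (Algebra.IsIntegral.isIntegral α), hα,
      IntermediateField.finrank_top']
  have h2 : minpoly E (α : L) = minpoly E α :=
    minpoly.algebraMap_eq (FaithfulSMul.algebraMap_injective M L) α
  show finrank E M ≤ r
  rw [h1, ← h2]
  exact AC.minpoly_le hr (hM ▸ α.2)

end Tam

open Tam in
/-- (TAM) the tame case -/
theorem tamLem : TamLem := by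
  intro K _ _ q hq F hF hmor a A hB r
  obtain ⟨C, hC, hmain⟩ := AC.main AC.numIndC AC.primeSelC K q hq F hF hmor 1 r
  refine ⟨C, hC, ?_⟩
  intro L _ _ _ _ E hab x hx1 hw hE hr P hPm hP0 hCP htame
  obtain ⟨M, hM⟩ : ∃ M : IntermediateField K L, IntermediateField.adjoin K {x 0 / x 1} = M :=
    ⟨_, rfl⟩
  rw [hM] at hE
  have hzM : x 0 / x 1 ∈ M := hM ▸ IntermediateField.mem_adjoin_simple_self K _
  have hfr := finrank_le E M (x 0 / x 1) hM hE hr
  let _ : Algebra E M := (IntermediateField.inclusion hE).toRingHom.toAlgebra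
  have : IsScalarTower K E M := IsScalarTower.of_algebraMap_eq fun c => rfl
  let x' : Fin (1 + 1) → M := ![⟨x 0 / x 1, hzM⟩, 1]
  have hx' : x' ≠ 0 := by
    intro h
    have h1 : (1 : M) = 0 := congrFun h 1
    exact one_ne_zero h1
  have hxx : x = x 1 • fun i => M.val (x' i) := by
    funext i
    fin_cases i
    · show x 0 = x 1 * (x 0 / x 1)
      rw [mul_div_cancel₀ _ hx1]
    · show x 1 = x 1 * ((1 : M) : L)
      rw [IntermediateField.coe_one, mul_one]
  have hw' : Wnd F x' := by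
    rintro ⟨m, n, hmn, d, hd, hd'⟩
    apply hw
    have h1 : ∀ n, (act F)^[n] x = (x 1) ^ (q ^ n) • fun i => M.val ((act F)^[n] x' i) := by
      intro n
      conv_lhs => rw [hxx]
      rw [act_iter_smul hF, iter_map]
    have hd0 : M.val d ≠ 0 := (map_ne_zero _).mpr hd
    refine ⟨m, n, hmn, (x 1) ^ (q ^ n) * M.val d * ((x 1) ^ (q ^ m))⁻¹, ?_, ?_⟩
    · exact mul_ne_zero (mul_ne_zero (pow_ne_zero _ hx1) hd0) (inv_ne_zero (pow_ne_zero _ hx1))
    · rw [h1, h1, hd', smul_smul, inv_mul_cancel_right₀ (pow_ne_zero _ hx1)]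
      funext i
      simp only [Pi.smul_apply, smul_eq_mul, map_mul]
      ring
  obtain ⟨h, hlim, -, hb⟩ := hmain K E M (by rw [finrank_self]) hfr x' hx' hw'
  have hh : h = canH F q x' := tendsto_nhds_unique hlim (hB.canH_tendsto hq hx')
  have hh' : canH F q x = canH F q x' := by
    conv_lhs => rw [hxx]
    rw [canH_smul hF hx1, canH_hom]
  rw [hh', ← hh]
  refine hb P hPm hP0 hCP ?_
  intro 𝔓 h𝔓 hu𝔓
  obtain ⟨u, hu, rfl⟩ := exists_place hP0 𝔓 h𝔓 hu𝔓
  rw [Nat.coprime_iff_gcd_eq_one]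
  by_contra hne
  obtain ⟨p, hp, hpd⟩ := Nat.exists_prime_and_dvd hne
  exact htame p hp (mem_of_dvd hP0 hp (hpd.trans (Nat.gcd_dvd_right _ _))) u hu
    (hpd.trans (Nat.gcd_dvd_left _ _))

end

end Pool.Agent.N715.AD
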