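import Mathlib
import Pool.Agent.N715.AD.Stm
import Pool.Agent.N715.AC.Two

/-!
Project AD (helper715), part TWP, by helper195: the two-variable interpolation inequality for pairs of
close points (in the chordal sense, both charts), with exceptional points.
-/

set_option autoImplicit false
set_option linter.unusedSectionVars false

namespace Pool.Agent.N715.AD.Twp

open NumberField Module
open Pool.Agent.W238.Leh
open Pool.Agent.H627.LP hiding det_ineq det_ineq' local_gain
open Pool.Agent.H627.LR (GR)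
open Pool.Agent.R829.BG hiding two_gain
open Pool.Agent.N715.AC.Two (mkp_ne nmf_mk aeval_int)

noncomputable section

section Local

variable {K : Type} [Field K] [NumberField K] {M : Type} [Field M] [NumberField M] [Algebra K M]
  {F : Fin (1 + 1) → MvPolynomial (Fin (1 + 1)) K} {q : ℕ} {v : FinitePlace M}

variable {ι : Type} [Fintype ι] [DecidableEq ι]

lemma nmf_mk' {x : M} (hx : 1 ≤ v x) : nmf v ![x, 1] = v x := by
  apply le_antisymm
  · obtain ⟨t, ht⟩ := exists_nmf (v := v) (![x, 1] : Fin (1 + 1) → M)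
    rw [← ht]
    fin_cases t
    · simp
    · simpa using hx
  · have h := le_nmf v (![x, 1] : Fin (1 + 1) → M) 0
    simpa using h

lemma v_sub_comm (x y : M) : v (x - y) = v (y - x) := by
  have h : x - y = -(y - x) := by ring
  rw [h, ← FinitePlace.norm_embedding_eq, map_neg, norm_neg, FinitePlace.norm_embedding_eq]

/-- close points have the same absolute value -/
lemma v_eq {x y : M} {η : ℝ} (hη1 : η < 1) (hx : 1 < v x) (h : v (y - x) ≤ η * v x) :
    v y = v x := by
  have h0 : v (y - x) < v x := by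
    refine h.trans_lt ?_
    have : 0 < v x := lt_trans zero_lt_one hx
    nlinarith
  apply le_antisymm
  · have h1 := FinitePlace.add_le v (y - x) x
    rw [sub_add_cancel] at h1
    exact h1.trans (max_le h0.le le_rfl)
  · have h1 := FinitePlace.add_le v (x - y) y
    rw [sub_add_cancel] at h1
    have h2 : v (x - y) = v (y - x) := v_sub_comm x y
    rw [h2] at h1
    rcases le_max_iff.mp h1 with h3 | h3
    · exact absurd h3 (not_le.mpr h0)
    · exact h3

/-- **the local gain for pairs of close points, with exceptions** -/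
theorem two_gain (hR : GR v F q) (hF : ∀ i, (F i).IsHomogeneous q) (la lb : List ℕ)
    (Φ Ψ : ι → MvPolynomial (Fin (1 + 1)) K) (hΦ : ∀ j, Φ j ∈ GG F la) (hΨ : ∀ j, Ψ j ∈ GG F lb)
    (x y : ι → M) {η : ℝ} (hη0 : 0 < η) (hη1' : η < 1) (E : Finset ι)
    (hE : ∀ i, i ∉ E → v (y i - x i) ≤ η * v (x i)) (s : ℕ) :
    v (Matrix.of fun i j => MvPolynomial.aeval ![x i, 1] (Φ j) *
        MvPolynomial.aeval ![y i, 1] (Ψ j)).det ≤
      (∏ i, nmf v ![x i, 1] ^ ldeg q la * nmf v ![y i, 1] ^ ldeg q lb) *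
        (η ^ s) ^ (Fintype.card ι - (E.card + s * (2 * (ldeg q la + ldeg q lb + 1)))) := by
  classical
  have hη1 : η ≤ 1 := hη1'.le
  set m := ldeg q la with hm
  set n := ldeg q lb with hn
  set p : ι → Fin (1 + 1) → M := fun i => ![x i, 1] with hp
  set p' : ι → Fin (1 + 1) → M := fun i => ![y i, 1] with hp'
  have hp0 : ∀ i, p i ≠ 0 := fun i => mkp_ne _
  have hp'0 : ∀ i, p' i ≠ 0 := fun i => mkp_ne _
  choose a ha using fun i => exists_nmf (v := v) (p i)
  choose b hb using fun i => exists_nmf (v := v) (p' i)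
  have hpos : ∀ i, 0 < nmf v (p i) := fun i => nmf_pos v (hp0 i)
  have hpos' : ∀ i, 0 < nmf v (p' i) := fun i => nmf_pos v (hp'0 i)
  -- the two charts
  have hy1 : ∀ i, i ∉ E → v (x i) ≤ 1 → v (y i) ≤ 1 := by
    intro i hi h1
    have h2 := FinitePlace.add_le v (y i - x i) (x i)
    rw [sub_add_cancel] at h2
    refine h2.trans (max_le ?_ h1)
    refine (hE i hi).trans ?_
    exact mul_le_one₀ hη1 (v_nonneg v _) h1
  have hy2 : ∀ i, i ∉ E → 1 < v (x i) → v (y i) = v (x i) := fun i hi h1 =>
    v_eq hη1' h1 (hE i hi)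
  have hne : ∀ w : M, 1 < v w → w ≠ 0 := by
    rintro w h1 rfl
    rw [map_zero] at h1
    linarith
  set ch : ι → Fin (1 + 1) := fun i => if v (x i) ≤ 1 then 1 else 0 with hch
  set ξ : ι → M := fun i => if v (x i) ≤ 1 then x i else (x i)⁻¹ with hξ
  set ζ : ι → M := fun i => if v (x i) ≤ 1 then y i else (y i)⁻¹ with hζ
  set δ : ι → M := fun i => ζ i - ξ i with hδ
  have hξ1 : ∀ i, v (ξ i) ≤ 1 := by
    intro i
    by_cases h : v (x i) ≤ 1
    · simp only [hξ, if_pos h]
      exact h
    · simp only [hξ, if_neg h, map_inv₀]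
      exact inv_le_one_of_one_le₀ (not_le.mp h).le
  have hδη : ∀ i, i ∉ E → v (δ i) ≤ η := by
    intro i hi
    by_cases h : v (x i) ≤ 1
    · simp only [hδ, hζ, hξ, if_pos h]
      exact (hE i hi).trans (mul_le_of_le_one_right hη0.le h)
    · have h' := not_le.mp h
      have hx0 := hne _ h'
      have hy0 : y i ≠ 0 := hne _ (by rw [hy2 i hi h']; exact h')
      simp only [hδ, hζ, hξ, if_neg h]
      have h1 : (y i)⁻¹ - (x i)⁻¹ = (x i - y i) * ((y i)⁻¹ * (x i)⁻¹) := by
        field_simp
      rw [h1, map_mul, map_mul, map_inv₀, map_inv₀, hy2 i hi h', v_sub_comm]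
      have h2 : 0 < v (x i) := lt_trans zero_lt_one h'
      calc v (y i - x i) * ((v (x i))⁻¹ * (v (x i))⁻¹) ≤
          (η * v (x i)) * ((v (x i))⁻¹ * (v (x i))⁻¹) :=
            mul_le_mul_of_nonneg_right (hE i hi) (by positivity)
        _ = η * (v (x i))⁻¹ := by field_simp
        _ ≤ η := mul_le_of_le_one_right hη0.le (inv_le_one_of_one_le₀ h'.le)
  have hζe : ∀ i, ζ i = ξ i + δ i := fun i => by
    simp only [hδ]
    ring
  -- the normalising factors
  obtain ⟨α, hαE, hαv⟩ : ∃ α : ι → M, (∀ i, i ∉ E → α i = if v (x i) ≤ 1 then 1 else x i) ∧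
      ∀ i, v (α i) = nmf v (p i) := by
    refine ⟨fun i => if i ∈ E then p i (a i) else if v (x i) ≤ 1 then 1 else x i,
      fun i hi => if_neg hi, fun i => ?_⟩
    by_cases hi : i ∈ E
    · simp only [if_pos hi]
      exact ha i
    · simp only [if_neg hi]
      by_cases h : v (x i) ≤ 1
      · simp only [if_pos h, map_one]
        exact (nmf_mk h).symm
      · simp only [if_neg h]
        exact (nmf_mk' (not_le.mp h).le).symm
  obtain ⟨β, hβE, hβv⟩ : ∃ β : ι → M, (∀ i, i ∉ E → β i = if v (x i) ≤ 1 then 1 else y i) ∧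
      ∀ i, v (β i) = nmf v (p' i) := by
    refine ⟨fun i => if i ∈ E then p' i (b i) else if v (x i) ≤ 1 then 1 else y i,
      fun i hi => if_neg hi, fun i => ?_⟩
    by_cases hi : i ∈ E
    · simp only [if_pos hi]
      exact hb i
    · simp only [if_neg hi]
      by_cases h : v (x i) ≤ 1
      · simp only [if_pos h, map_one]
        exact (nmf_mk (hy1 i hi h)).symm
      · simp only [if_neg h]
        exact (nmf_mk' (by rw [hy2 i hi (not_le.mp h)]; exact (not_le.mp h).le)).symm
  have hα0 : ∀ i, α i ≠ 0 := by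
    intro i h0
    have h1 := hαv i
    rw [h0, map_zero] at h1
    have := hpos i
    linarith
  have hβ0 : ∀ i, β i ≠ 0 := by
    intro i h0
    have h1 := hβv i
    rw [h0, map_zero] at h1
    have := hpos' i
    linarith
  set z : ι → Fin (1 + 1) → M := fun i => (α i)⁻¹ • p i with hz
  set w : ι → Fin (1 + 1) → M := fun i => (β i)⁻¹ • p' i with hw
  have hzle : ∀ i t, v (z i t) ≤ 1 := by
    intro i t
    simp only [hz, Pi.smul_apply, smul_eq_mul, map_mul, map_inv₀, hαv]
    rw [inv_mul_le_iff₀ (hpos i), mul_one]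
    exact le_nmf v _ _
  have hwle : ∀ i t, v (w i t) ≤ 1 := by
    intro i t
    simp only [hw, Pi.smul_apply, smul_eq_mul, map_mul, map_inv₀, hβv]
    rw [inv_mul_le_iff₀ (hpos' i), mul_one]
    exact le_nmf v _ _
  have ho1 : oth (1 : Fin (1 + 1)) = 0 := by decide
  have ho0 : oth (0 : Fin (1 + 1)) = 1 := by decide
  have hz1 : ∀ i, i ∉ E → z i (ch i) = 1 := by
    intro i hi
    by_cases h : v (x i) ≤ 1
    · simp only [hz, hαE i hi, hch, if_pos h, inv_one, one_smul, hp]
      rfl
    · simp only [hz, hαE i hi, hch, if_neg h, Pi.smul_apply, smul_eq_mul, hp]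
      exact inv_mul_cancel₀ (hne _ (not_le.mp h))
  have hz2 : ∀ i, i ∉ E → z i (oth (ch i)) = ξ i := by
    intro i hi
    by_cases h : v (x i) ≤ 1
    · simp only [hz, hαE i hi, hch, if_pos h, inv_one, one_smul, hp, hξ, ho1]
      rfl
    · simp only [hz, hαE i hi, hch, if_neg h, Pi.smul_apply, smul_eq_mul, hp, hξ, ho0]
      exact mul_one _
  have hw1 : ∀ i, i ∉ E → w i (ch i) = 1 := by
    intro i hi
    by_cases h : v (x i) ≤ 1
    · simp only [hw, hβE i hi, hch, if_pos h, inv_one, one_smul, hp']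
      rfl
    · simp only [hw, hβE i hi, hch, if_neg h, Pi.smul_apply, smul_eq_mul, hp']
      exact inv_mul_cancel₀ (hne _ (by rw [hy2 i hi (not_le.mp h)]; exact not_le.mp h))
  have hw2 : ∀ i, i ∉ E → w i (oth (ch i)) = ζ i := by
    intro i hi
    by_cases h : v (x i) ≤ 1
    · simp only [hw, hβE i hi, hch, if_pos h, inv_one, one_smul, hp', hζ, ho1]
      rfl
    · simp only [hw, hβE i hi, hch, if_neg h, Pi.smul_apply, smul_eq_mul, hp', hζ, ho0]
      exact mul_one _
  -- dehomogenised forms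
  set f : Fin (1 + 1) → ι → Polynomial M := fun c j =>
    dh c (MvPolynomial.map (algebraMap K M) (Φ j)) with hf
  set g : Fin (1 + 1) → ι → Polynomial M := fun c j =>
    dh c (MvPolynomial.map (algebraMap K M) (Ψ j)) with hg
  have hfI : ∀ c j, IU v (f c j) := fun c j => dh_int c (GG_intP hR.int la (hΦ j))
  have hgI : ∀ c j, IU v (g c j) := fun c j => dh_int c (GG_intP hR.int lb (hΨ j))
  have hfd : ∀ c j, (f c j).natDegree ≤ m := fun c j =>
    dh_natDegree c ((GG_hom hF la (hΦ j)).map _)
  have hgd : ∀ c j, (g c j).natDegree ≤ n := fun c j =>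
    dh_natDegree c ((GG_hom hF lb (hΨ j)).map _)
  set W' : Matrix ι ι M := Matrix.of fun i j =>
    MvPolynomial.aeval (z i) (Φ j) * MvPolynomial.aeval (w i) (Ψ j) with hW'
  set X' : Matrix ι ι M := Matrix.of fun i j => if i ∈ E then W' i j else
    (f (ch i) j).eval (ξ i) *
    ∑ k ∈ Finset.range s, (Polynomial.hasseDeriv k (g (ch i) j)).eval (ξ i) * δ i ^ k with hX'
  have hfe : ∀ i j, i ∉ E → MvPolynomial.aeval (z i) (Φ j) = (f (ch i) j).eval (ξ i) := by
    intro i j hi
    rw [aeval_eq_eval_map, ← hz2 i hi]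
    exact (dh_eval (ch i) _ (hz1 i hi)).symm
  have hge : ∀ i j, i ∉ E → MvPolynomial.aeval (w i) (Ψ j) = (g (ch i) j).eval (ξ i + δ i) := by
    intro i j hi
    rw [aeval_eq_eval_map, ← hζe, ← hw2 i hi]
    exact (dh_eval (ch i) _ (hw1 i hi)).symm
  have hW1 : ∀ i j, v (W' i j) ≤ 1 := by
    intro i j
    simp only [hW', Matrix.of_apply]
    rw [map_mul]
    exact mul_le_one₀ (aeval_int hR la (hΦ j) (hzle i)) (v_nonneg v _)
      (aeval_int hR lb (hΨ j) (hwle i))
  have hY : ∀ i j, v ((W' - X') i j) ≤ η ^ s := by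
    intro i j
    by_cases hi : i ∈ E
    · have h1 : (W' - X') i j = 0 := by
        rw [Matrix.sub_apply]
        simp only [hX', Matrix.of_apply, if_pos hi, sub_self]
      rw [h1, map_zero]
      positivity
    · have h1 : (W' - X') i j = (f (ch i) j).eval (ξ i) * ((g (ch i) j).eval (ξ i + δ i) -
          ∑ k ∈ Finset.range s, (Polynomial.hasseDeriv k (g (ch i) j)).eval (ξ i) *
            δ i ^ k) := by
        rw [Matrix.sub_apply, mul_sub]
        simp only [hW', hX', Matrix.of_apply, if_neg hi]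
        rw [hfe i j hi, hge i j hi]
      rw [h1, map_mul]
      calc _ ≤ 1 * η ^ s := mul_le_mul ((hfI _ _).eval (hξ1 i))
            (taylor_le (hgI _ _) (hξ1 i) hη0.le hη1 (hδη i hi) s) (v_nonneg v _) zero_le_one
        _ = η ^ s := one_mul _
  have hX1 : ∀ i j, v (X' i j) ≤ 1 := by
    intro i j
    by_cases hi : i ∈ E
    · simp only [hX', Matrix.of_apply, if_pos hi]
      exact hW1 i j
    · simp only [hX', Matrix.of_apply, if_neg hi]
      rw [map_mul]
      refine mul_le_one₀ ((hfI _ _).eval (hξ1 i)) (v_nonneg v _) ?_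
      refine v_sum_le v _ _ zero_le_one fun k _ => ?_
      rw [map_mul, map_pow]
      exact mul_le_one₀ (((hgI _ _).hasse k).eval (hξ1 i)) (pow_nonneg (v_nonneg v _) _)
        (pow_le_one₀ (v_nonneg v _) ((hδη i hi).trans hη1))
  -- the rank
  set U := m + n + 1 with hU
  set e : (Fin (1 + 1) × Fin s × Fin U) ⊕ E → ι → M := Sum.elim
    (fun (d : Fin (1 + 1) × Fin s × Fin U) (i : ι) => if i ∈ E then 0 else
      if ch i = d.1 then δ i ^ (d.2.1 : ℕ) * ξ i ^ (d.2.2 : ℕ) else 0)
    (fun (i₀ : E) (i : ι) => if i = (i₀ : ι) then 1 else 0) with he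
  have hcol : ∀ j, X'.col j ∈ Submodule.span M (Set.range e) := by
    intro j
    set h : Fin (1 + 1) → ℕ → Polynomial M := fun c k =>
      f c j * Polynomial.hasseDeriv k (g c j) with hh
    have hhd : ∀ c k, (h c k).natDegree < U := by
      intro c k
      have h1 : (h c k).natDegree ≤ m + n := by
        refine Polynomial.natDegree_mul_le.trans (Nat.add_le_add (hfd c j) ?_)
        exact (Polynomial.natDegree_hasseDeriv_le _ _).trans
          ((Nat.sub_le _ _).trans (hgd c j))
      omega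
    have h1 : X'.col j = ∑ d : Fin (1 + 1) × Fin s × Fin U,
        (h d.1 (d.2.1 : ℕ)).coeff (d.2.2 : ℕ) • e (Sum.inl d) +
        ∑ i₀ : E, W' i₀ j • e (Sum.inr i₀) := by
      funext i
      rw [Pi.add_apply, Finset.sum_apply, Finset.sum_apply]
      simp only [Matrix.col, Matrix.transpose_apply, hX', Matrix.of_apply, Pi.smul_apply,
        smul_eq_mul, he, Sum.elim_inl, Sum.elim_inr]
      by_cases hi : i ∈ E
      · simp only [if_pos hi, mul_zero, Finset.sum_const_zero, zero_add]
        rw [Finset.sum_eq_single (⟨i, hi⟩ : E)]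
        · simp
        · intro c _ hc
          rw [if_neg, mul_zero]
          intro hic
          exact hc (Subtype.ext hic.symm)
        · intro hh
          exact absurd (Finset.mem_univ _) hh
      · simp only [if_neg hi]
        have h0 : ∑ i₀ : E, W' i₀ j * (if i = (i₀ : ι) then (1 : M) else 0) = 0 := by
          refine Finset.sum_eq_zero fun c _ => ?_
          rw [if_neg, mul_zero]
          intro hic
          exact hi (hic ▸ c.2)
        rw [h0, add_zero, Fintype.sum_prod_type, Finset.sum_eq_single (ch i)]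
        · rw [Fintype.sum_prod_type]
          simp only [if_true]
          rw [Finset.mul_sum, Finset.sum_range]
          refine Finset.sum_congr rfl fun k _ => ?_
          have h2 : (f (ch i) j).eval (ξ i) *
              (Polynomial.hasseDeriv (k : ℕ) (g (ch i) j)).eval (ξ i) =
              (h (ch i) k).eval (ξ i) := by
            simp only [hh]
            rw [Polynomial.eval_mul]
          rw [← mul_assoc, h2, Polynomial.eval_eq_sum_range' (hhd _ _), Finset.sum_range,
            Finset.sum_mul]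
          refine Finset.sum_congr rfl fun l _ => ?_
          ring
        · intro c _ hc
          refine Finset.sum_eq_zero fun b _ => ?_
          rw [if_neg (fun h => hc h.symm), mul_zero]
        · intro h
          exact absurd (Finset.mem_univ _) h
    rw [h1]
    exact Submodule.add_mem _
      (Submodule.sum_mem _ fun b _ => Submodule.smul_mem _ _ (Submodule.subset_span ⟨_, rfl⟩))
      (Submodule.sum_mem _ fun b _ => Submodule.smul_mem _ _ (Submodule.subset_span ⟨_, rfl⟩))
  set S : Submodule M (ι → M) := Submodule.span M (Set.range X'.row) with hS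
  have hSr : finrank M S ≤ E.card + s * (2 * U) := by
    have h1 : finrank M (Submodule.span M (Set.range e)) ≤ E.card + s * (2 * U) := by
      refine (finrank_range_le_card e).trans (le_of_eq ?_)
      rw [Fintype.card_sum, Fintype.card_prod, Fintype.card_prod, Fintype.card_fin,
        Fintype.card_fin, Fintype.card_fin, Fintype.card_coe]
      ring
    refine le_trans ?_ h1
    rw [hS, ← Matrix.rank_eq_finrank_span_row, Matrix.rank_eq_finrank_span_cols]
    apply Submodule.finrank_mono
    rw [Submodule.span_le]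
    rintro _ ⟨j, rfl⟩
    exact hcol j
  have hXS : ∀ i, X' i ∈ S := fun i => Submodule.subset_span ⟨i, rfl⟩
  have h1 := det_rank_le v X' (W' - X') (pow_nonneg hη0.le s) (pow_le_one₀ hη0.le hη1) hX1 hY S
    hSr hXS
  rw [add_sub_cancel] at h1
  -- scaling
  have h2 : (Matrix.of fun i j => MvPolynomial.aeval (p i) (Φ j) *
      MvPolynomial.aeval (p' i) (Ψ j)) =
      Matrix.diagonal (fun i => α i ^ m * β i ^ n) * W' := by
    ext i j
    rw [Matrix.diagonal_mul]
    simp only [Matrix.of_apply, hW']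
    have h3 : p i = α i • z i := by
      simp only [hz]
      rw [smul_smul, mul_inv_cancel₀ (hα0 i), one_smul]
    have h4 : p' i = β i • w i := by
      simp only [hw]
      rw [smul_smul, mul_inv_cancel₀ (hβ0 i), one_smul]
    have h5 : MvPolynomial.aeval (p i) (Φ j) = α i ^ m * MvPolynomial.aeval (z i) (Φ j) := by
      conv_lhs => rw [h3]
      exact aeval_smul_hom (GG_hom hF la (hΦ j)) _ _
    have h6 : MvPolynomial.aeval (p' i) (Ψ j) = β i ^ n * MvPolynomial.aeval (w i) (Ψ j) := by
      conv_lhs => rw [h4]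
      exact aeval_smul_hom (GG_hom hF lb (hΨ j)) _ _
    rw [h5, h6]
    ring
  rw [h2, Matrix.det_mul, Matrix.det_diagonal, map_mul, map_prod]
  have h3 : ∏ i, v (α i ^ m * β i ^ n) = ∏ i, nmf v (p i) ^ m * nmf v (p' i) ^ n := by
    refine Finset.prod_congr rfl fun i _ => ?_
    rw [map_mul, map_pow, map_pow, hαv, hβv]
  rw [h3]
  refine mul_le_mul_of_nonneg_left h1 (Finset.prod_nonneg fun i _ => ?_)
  exact mul_nonneg (pow_nonneg (nmf_nonneg v _) _) (pow_nonneg (nmf_nonneg v _) _)

end Local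

section Global

open MvPolynomial

variable {K : Type} [Field K] [NumberField K] {M : Type} [Field M] [NumberField M] [Algebra K M]
  {ι : Type} [Fintype ι] [DecidableEq ι]
variable {F : Fin (1 + 1) → MvPolynomial (Fin (1 + 1)) K} {q c a : ℕ} {A : ℝ}

/-- **the inequality** -/
theorem two_ineq (hB : Bds F q A a) (hq : 2 ≤ q) (hF : ∀ i, (F i).IsHomogeneous q)
    (hc : ∀ m, c + q ≤ m → ∀ p : MvPolynomial (Fin (1 + 1)) K, p.IsHomogeneous m →
      p ∈ Ideal.span (Set.range F)) (x y : ι → M)
    (T : Finset (FinitePlace M)) (hT : ∀ v ∈ T, GR v F q) (g : FinitePlace M → ℝ)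
    (Bad : FinitePlace M → Finset ι) (hg : ∀ v ∈ T, 0 < g v)
    (hcl : ∀ v ∈ T, ∀ i, i ∉ Bad v → v (y i - x i) ≤ Real.exp (-g v) * v (x i)) {w₀ : ℝ}
    (hw : ∀ i, w₀ ≤ ∑ v ∈ T, if i ∉ Bad v then g v else 0)
    {H : ℝ} (hH : ∀ i, canH F q ![x i, 1] ≤ H) (hH' : ∀ i, canH F q ![y i, 1] ≤ H) (m n s : ℕ)
    (hr1 : 1 ≤ finrank M (E2 K (fun i => ![x i, 1]) (fun i => ![y i, 1]) m n)) :
    s * (finrank M (E2 K (fun i => ![x i, 1]) (fun i => ![y i, 1]) m n) * w₀ -
        (∑ v ∈ T, g v) * (s * (2 * (m + n + 1)) : ℕ)) ≤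
      finrank ℚ M * (finrank M (E2 K (fun i => ![x i, 1]) (fun i => ![y i, 1]) m n) *
        ((m + n) * H +
        hC A a * (c + q : ℕ) * (1 + Nat.log 2 m : ℕ) +
        hC A a * (c + q : ℕ) * (1 + Nat.log 2 n : ℕ) +
        Real.log (finrank M (E2 K (fun i => ![x i, 1]) (fun i => ![y i, 1]) m n)))) := by
  classical
  set p : ι → Fin (1 + 1) → M := fun i => ![x i, 1] with hp
  set p' : ι → Fin (1 + 1) → M := fun i => ![y i, 1] with hp'
  set r := finrank M (E2 K p p' m n) with hr
  obtain ⟨la, hl1, hl2, hl3, hl4⟩ := exists_list (c := c) hq m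
  obtain ⟨lb, hm1, hm2, hm3, hm4⟩ := exists_list (c := c) hq n
  have hspan := E2_le_span (F := F) hF hc p p' la lb hl2 hm2
  rw [hl1, hm1] at hspan
  obtain ⟨φv, hφt, hφli⟩ := exists_indep (L := M) _ (Submodule.finrank_mono hspan)
  choose φ ψ hφG hψG hφe using hφt
  obtain ⟨e, he⟩ := exists_minor φv hφli
  set P : Fin r → Fin (1 + 1) → M := fun k => p (e k) with hP
  set P' : Fin r → Fin (1 + 1) → M := fun k => p' (e k) with hP'
  have hP0 : ∀ k, P k ≠ 0 := fun k => mkp_ne _
  have hP'0 : ∀ k, P' k ≠ 0 := fun k => mkp_ne _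
  set W : Matrix (Fin r) (Fin r) M := Matrix.of fun k j => aeval (P k) (φ j) * aeval (P' k) (ψ j)
    with hW
  have hdet : W.det ≠ 0 := by
    have h1 : W = (Matrix.of fun j k => φv j (e k)).transpose := by
      ext k j
      simp only [hW, Matrix.of_apply, Matrix.transpose_apply, hP, hP']
      rw [hφe j]
    rw [h1, Matrix.det_transpose]
    exact he
  set E : FinitePlace M → Finset (Fin r) := fun v =>
    Finset.univ.filter fun k => e k ∈ Bad v with hE
  have hiter : ∀ i j, (act F)^[j] (P i) ≠ 0 := fun i j => hB.iter_ne_zero (hP0 i) j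
  have hiter' : ∀ i j, (act F)^[j] (P' i) ≠ 0 := fun i j => hB.iter_ne_zero (hP'0 i) j
  have wa : ∀ (w : InfinitePlace M) i, 0 < wt (nmi w) (act F) la (P i) :=
    fun w i => wt_pos la fun j => nmi_pos w (hiter _ j)
  have wb : ∀ (w : InfinitePlace M) i, 0 < wt (nmi w) (act F) lb (P' i) :=
    fun w i => wt_pos lb fun j => nmi_pos w (hiter' _ j)
  have va : ∀ (v : FinitePlace M) i, 0 < wt (nmf v) (act F) la (P i) :=
    fun v i => wt_pos la fun j => nmf_pos v (hiter _ j)
  have vb : ∀ (v : FinitePlace M) i, 0 < wt (nmf v) (act F) lb (P' i) :=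
    fun v i => wt_pos lb fun j => nmf_pos v (hiter' _ j)
  have hinf : ∀ w : InfinitePlace M, Real.log (w W.det) ≤
      ∑ i, (Real.log (wt (nmi w) (act F) la (P i)) + Real.log (wt (nmi w) (act F) lb (P' i))) +
        Real.log (Fintype.card (Fin r)).factorial := by
    intro w
    have h1 : w W.det ≤ (Fintype.card (Fin r)).factorial *
        ∏ i, (wt (nmi w) (act F) la (P i) * wt (nmi w) (act F) lb (P' i)) := by
      apply det_rows_le_inf
      intro i j
      simp only [hW, Matrix.of_apply]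
      rw [map_mul]
      refine mul_le_mul ?_ ?_ (by positivity) (wa w i).le
      · exact abs_le_wt (w.1.toMonoidWithZeroHom) (fun x => w.1.nonneg x)
          (fun x j => le_nmi w x j) (fun x => nmi_nonneg w x) la (hφG j) (P i)
      · exact abs_le_wt (w.1.toMonoidWithZeroHom) (fun x => w.1.nonneg x)
          (fun x j => le_nmi w x j) (fun x => nmi_nonneg w x) lb (hψG j) (P' i)
    have h2 : 0 < w W.det := InfinitePlace.pos_iff.mpr hdet
    have h3 := Real.log_le_log h2 h1
    have h4 : (0 : ℝ) < ((Fintype.card (Fin r)).factorial : ℝ) := by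
      exact_mod_cast Nat.factorial_pos _
    rw [Real.log_mul h4.ne' (Finset.prod_pos fun k _ => mul_pos (wa w k) (wb w k)).ne',
      Real.log_prod (fun k _ => (mul_pos (wa w k) (wb w k)).ne')] at h3
    have h5 : ∑ i, Real.log (wt (nmi w) (act F) la (P i) * wt (nmi w) (act F) lb (P' i)) =
        ∑ i, (Real.log (wt (nmi w) (act F) la (P i)) + Real.log (wt (nmi w) (act F) lb (P' i))) :=
      Finset.sum_congr rfl fun i _ => Real.log_mul (wa w i).ne' (wb w i).ne'
    rw [h5] at h3
    linarith
  have hfin0 : ∀ v : FinitePlace M, ∑ i, Real.log (wt (nmf v) (act F) la (P i) *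
      wt (nmf v) (act F) lb (P' i)) =
        ∑ i, (Real.log (wt (nmf v) (act F) la (P i)) + Real.log (wt (nmf v) (act F) lb (P' i))) :=
    fun v => Finset.sum_congr rfl fun i _ => Real.log_mul (va v i).ne' (vb v i).ne'
  have hfin : ∀ v : FinitePlace M, Real.log (v W.det) ≤
      ∑ i, (Real.log (wt (nmf v) (act F) la (P i)) +
        Real.log (wt (nmf v) (act F) lb (P' i))) := by
    intro v
    have h1 : v W.det ≤ ∏ i, (wt (nmf v) (act F) la (P i) * wt (nmf v) (act F) lb (P' i)) := by
      apply det_rows_le v _ _ (fun k => (mul_pos (va v k) (vb v k)).le)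
      intro i j
      simp only [hW, Matrix.of_apply]
      rw [map_mul]
      refine mul_le_mul ?_ ?_ (v_nonneg v _) (va v i).le
      · exact abs_le_wt (v.1.toMonoidWithZeroHom) (fun x => v.1.nonneg x)
          (fun x j => le_nmf v x j) (fun x => nmf_nonneg v x) la (hφG j) (P i)
      · exact abs_le_wt (v.1.toMonoidWithZeroHom) (fun x => v.1.nonneg x)
          (fun x j => le_nmf v x j) (fun x => nmf_nonneg v x) lb (hψG j) (P' i)
    have h2 : 0 < v W.det := FinitePlace.pos_iff.mpr hdet
    have h3 := Real.log_le_log h2 h1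
    rwa [Real.log_prod (fun k _ => (mul_pos (va v k) (vb v k)).ne'), hfin0] at h3
  have hfinT : ∀ v ∈ T, Real.log (v W.det) ≤
      ∑ i, (Real.log (wt (nmf v) (act F) la (P i)) + Real.log (wt (nmf v) (act F) lb (P' i))) -
        g v * (s * (r - ((E v).card + s * (2 * (m + n + 1))) : ℕ)) := by
    intro v hv
    have hR := hT v hv
    have hgv := hg v hv
    have h1 := two_gain hR hF la lb φ ψ hφG hψG (fun k => x (e k)) (fun k => y (e k))
      (Real.exp_pos (-g v)) (by rw [Real.exp_lt_one_iff]; linarith) (E v) (fun k hk => by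
        refine hcl v hv (e k) fun hb => hk ?_
        exact Finset.mem_filter.mpr ⟨Finset.mem_univ k, hb⟩) s
    have hW1 : (Matrix.of fun i j => aeval ![x (e i), 1] (φ j) * aeval ![y (e i), 1] (ψ j)) =
        W := rfl
    rw [hW1, hl1, hm1, Fintype.card_fin] at h1
    have h2 : 0 < v W.det := FinitePlace.pos_iff.mpr hdet
    have h3 := Real.log_le_log h2 h1
    have h4 : ∏ i, (nmf v ![x (e i), 1] ^ m * nmf v ![y (e i), 1] ^ n) =
        ∏ i, (wt (nmf v) (act F) la (P i) * wt (nmf v) (act F) lb (P' i)) := by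
      refine Finset.prod_congr rfl fun i _ => ?_
      rw [hR.wt_eq la (P i), hR.wt_eq lb (P' i), hl1, hm1]
    rw [h4, Real.log_mul (Finset.prod_pos fun i _ => mul_pos (va v i) (vb v i)).ne'
      (pow_pos (pow_pos (Real.exp_pos _) _) _).ne',
      Real.log_prod (fun k _ => (mul_pos (va v k) (vb v k)).ne'), hfin0, Real.log_pow,
      Real.log_pow, Real.log_exp] at h3
    refine h3.trans (le_of_eq ?_)
    push_cast
    ring
  have hgs1 : HasGS (fun w => ∑ i, (Real.log (wt (nmi w) (act F) la (P i)) +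
        Real.log (wt (nmi w) (act F) lb (P' i))))
      (fun v => ∑ i, (Real.log (wt (nmf v) (act F) la (P i)) +
        Real.log (wt (nmf v) (act F) lb (P' i)))) (∑ i, (HL F la (P i) + HL F lb (P' i))) :=
    HasGS.sum Finset.univ fun k _ => (HasGS.wt la (hiter k)).add (HasGS.wt lb (hiter' k))
  have hmain := HasGS_le_gain (HasGS.prod hdet) hgs1
    (c := Real.log (Fintype.card (Fin r)).factorial) hinf T
    (fun v => g v * (s * (r - ((E v).card + s * (2 * (m + n + 1))) : ℕ))) (fun v _ => hfin v)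
    hfinT
  rw [Fintype.card_fin] at hmain
  -- the right hand side
  have hD := finrank_pos' (L := M)
  have hr' : (1 : ℝ) ≤ r := by exact_mod_cast hr1
  have hlsum : ∀ (l : List ℕ) (N : ℕ), (∀ r ∈ l, r ≤ c + q) → l.length ≤ 1 + Nat.log 2 N →
      (l.sum : ℝ) ≤ (c + q : ℕ) * (1 + Nat.log 2 N : ℕ) := by
    intro l N h3 h4
    have h5 : l.sum ≤ l.length * (c + q) := by
      have := List.sum_le_card_nsmul l (c + q) h3
      simpa using this
    have h6 : l.length * (c + q) ≤ (c + q) * (1 + Nat.log 2 N) := by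
      rw [mul_comm]
      exact Nat.mul_le_mul_left _ h4
    exact_mod_cast h5.trans h6
  have hHL : ∀ i, HL F la (P i) ≤ finrank ℚ M * (m * H +
      hC A a * ((c + q : ℕ) * (1 + Nat.log 2 m : ℕ))) := by
    intro i
    refine (hB.HL_le hq la (hP0 i)).trans ?_
    rw [hl1]
    have h3 : (m : ℝ) * canH F q (P i) ≤ m * H :=
      mul_le_mul_of_nonneg_left (hH _) (Nat.cast_nonneg _)
    have h4 : hC A a * la.sum ≤ hC A a * ((c + q : ℕ) * (1 + Nat.log 2 m : ℕ)) :=
      mul_le_mul_of_nonneg_left (hlsum la m hl3 hl4) hB.hC_nonneg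
    exact mul_le_mul_of_nonneg_left (by linarith) hD.le
  have hHL' : ∀ i, HL F lb (P' i) ≤ finrank ℚ M * (n * H +
      hC A a * ((c + q : ℕ) * (1 + Nat.log 2 n : ℕ))) := by
    intro i
    refine (hB.HL_le hq lb (hP'0 i)).trans ?_
    rw [hm1]
    have h3 : (n : ℝ) * canH F q (P' i) ≤ n * H :=
      mul_le_mul_of_nonneg_left (hH' _) (Nat.cast_nonneg _)
    have h4 : hC A a * lb.sum ≤ hC A a * ((c + q : ℕ) * (1 + Nat.log 2 n : ℕ)) :=
      mul_le_mul_of_nonneg_left (hlsum lb n hm3 hm4) hB.hC_nonneg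
    exact mul_le_mul_of_nonneg_left (by linarith) hD.le
  have hsum : ∑ i, (HL F la (P i) + HL F lb (P' i)) ≤ r * (finrank ℚ M * (m * H +
      hC A a * ((c + q : ℕ) * (1 + Nat.log 2 m : ℕ))) + finrank ℚ M * (n * H +
      hC A a * ((c + q : ℕ) * (1 + Nat.log 2 n : ℕ)))) := by
    have h7 := Finset.sum_le_sum (fun k (_ : k ∈ (Finset.univ : Finset (Fin r))) =>
      add_le_add (hHL k) (hHL' k))
    rwa [Finset.sum_const, Finset.card_univ, Fintype.card_fin, nsmul_eq_mul] at h7
  have hfac : Real.log r.factorial ≤ r * Real.log r := by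
    have h2 : (r.factorial : ℝ) ≤ (r : ℝ) ^ r := by exact_mod_cast Nat.factorial_le_pow r
    have h3 := Real.log_le_log (by exact_mod_cast Nat.factorial_pos r) h2
    rwa [Real.log_pow] at h3
  have h5 := mul_le_mul_of_nonneg_left hfac hD.le
  -- the left hand side
  set κ := s * (2 * (m + n + 1)) with hκ
  have hlow : s * (r * w₀ - (∑ v ∈ T, g v) * (κ : ℕ)) ≤
      ∑ v ∈ T, g v * (s * (r - ((E v).card + κ) : ℕ)) := by
    have h1 : ∀ v ∈ T, s * (g v * ((r : ℝ) - (E v).card)) - s * (g v * κ) ≤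
        g v * (s * (r - ((E v).card + κ) : ℕ)) := by
      intro v hv
      have h2 : (r : ℝ) - ((E v).card + κ) ≤ ((r - ((E v).card + κ) : ℕ) : ℝ) := by
        have h3 : r ≤ (r - ((E v).card + κ)) + ((E v).card + κ) := by omega
        have h4 : (r : ℝ) ≤ (((r - ((E v).card + κ)) + ((E v).card + κ) : ℕ) : ℝ) := by
          exact_mod_cast h3
        push_cast at h4
        linarith
      have h5 := (hg v hv).le
      have h6 : (0 : ℝ) ≤ s := Nat.cast_nonneg s
      calc s * (g v * ((r : ℝ) - (E v).card)) - s * (g v * κ) =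
          g v * (s * ((r : ℝ) - ((E v).card + κ))) := by ring
        _ ≤ _ := by gcongr
    refine le_trans ?_ (Finset.sum_le_sum h1)
    rw [Finset.sum_sub_distrib, ← Finset.mul_sum, ← Finset.mul_sum, ← Finset.sum_mul, ← mul_sub]
    refine mul_le_mul_of_nonneg_left ?_ (Nat.cast_nonneg s)
    refine sub_le_sub_right ?_ _
    have h2 : ∀ v ∈ T, g v * ((r : ℝ) - (E v).card) =
        ∑ k : Fin r, if e k ∉ Bad v then g v else 0 := by
      intro v _
      have h3 : (r : ℝ) - (E v).card = ∑ k : Fin r, if e k ∉ Bad v then (1 : ℝ) else 0 := by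
        have h4 : (r : ℝ) = ∑ k : Fin r, (1 : ℝ) := by simp
        have h5 : ((E v).card : ℝ) = ∑ k : Fin r, if e k ∈ Bad v then (1 : ℝ) else 0 := by
          rw [hE, Finset.card_filter]
          push_cast
          rfl
        conv_lhs => rw [h4]
        rw [h5, ← Finset.sum_sub_distrib]
        refine Finset.sum_congr rfl fun k _ => ?_
        by_cases h : e k ∈ Bad v
        · simp [h]
        · simp [h]
      rw [h3, Finset.mul_sum]
      refine Finset.sum_congr rfl fun k _ => ?_
      split_ifs <;> simp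
    rw [Finset.sum_congr rfl h2, Finset.sum_comm]
    calc (r : ℝ) * w₀ = ∑ k : Fin r, w₀ := by simp
      _ ≤ _ := Finset.sum_le_sum fun k _ => hw (e k)
  calc _ ≤ ∑ v ∈ T, g v * (s * (r - ((E v).card + κ) : ℕ)) := hlow
    _ ≤ ∑ i, (HL F la (P i) + HL F lb (P' i)) + finrank ℚ M * Real.log r.factorial := by
        linarith
    _ ≤ r * (finrank ℚ M * (m * H + hC A a * ((c + q : ℕ) * (1 + Nat.log 2 m : ℕ))) +
        finrank ℚ M * (n * H + hC A a * ((c + q : ℕ) * (1 + Nat.log 2 n : ℕ)))) +
        finrank ℚ M * (r * Real.log r) := by linarith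
    _ = _ := by ring

end Global

end

end Pool.Agent.N715.AD.Twp

namespace Pool.Agent.N715.AD

/-- **(TWP)** -/
theorem twoPLem : TwoPLem := by
  intro K _ _ M _ _ _ ι _ _ F q c a A hB hq hF hc x y T hT g Bad hg hcl w₀ hw H hH hH' m n s r
    hr hr1
  subst hr
  exact Twp.two_ineq hB hq hF hc x y T hT g Bad hg hcl hw hH hH' m n s hr1

end Pool.Agent.N715.AD
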