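import Pool.Agent.N715.AD.Stm

/-!
# VAL and ACL: a valuation ring of the algebraic closure over `P`; its residue field
-/

set_option autoImplicit false

namespace Pool.Agent.N715.AD

open NumberField Module Polynomial

noncomputable section

theorem valLem : ValLem := by
  intro K _ _ P _ _
  have hinj : Function.Injective (algebraMap (𝓞 K) (AlgebraicClosure K)) := by
    rw [IsScalarTower.algebraMap_eq (𝓞 K) K (AlgebraicClosure K)]
    exact (algebraMap K (AlgebraicClosure K)).injective.comp (RingOfIntegers.coe_injective)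
  have hu : ∀ y : P.primeCompl, IsUnit (algebraMap (𝓞 K) (AlgebraicClosure K) y) := by
    intro y
    rw [isUnit_iff_ne_zero]
    intro h
    have h1 : (y : 𝓞 K) = 0 := hinj (by rw [h, map_zero])
    exact y.2 (by rw [h1]; exact P.zero_mem)
  obtain ⟨A, h, hloc⟩ := IsLocalRing.exists_factor_valuationRing
    (R := Localization.AtPrime P) (K := AlgebraicClosure K) (IsLocalization.lift hu)
  set f : Localization.AtPrime P →+* AlgebraicClosure K := IsLocalization.lift hu with hf
  have hfa : ∀ a : 𝓞 K, f (algebraMap _ _ a) = algebraMap (𝓞 K) (AlgebraicClosure K) a :=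
    fun a => IsLocalization.lift_eq hu a
  have hmem : ∀ a : 𝓞 K, algebraMap (𝓞 K) (AlgebraicClosure K) a ∈ A := by
    intro a
    rw [← hfa]
    exact h _
  refine ⟨A, (algebraMap (𝓞 K) (AlgebraicClosure K)).codRestrict A hmem, fun a => ?_, fun a => ?_⟩
  · change algebraMap (𝓞 K) (AlgebraicClosure K) a = _
    rw [IsScalarTower.algebraMap_apply (𝓞 K) K (AlgebraicClosure K)]
  · rw [red, IsLocalRing.residue_eq_zero_iff, IsLocalRing.mem_maximalIdeal, mem_nonunits_iff]
    have h1 : IsUnit ((algebraMap (𝓞 K) (AlgebraicClosure K)).codRestrict A hmem a) ↔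
        IsUnit (algebraMap (𝓞 K) (Localization.AtPrime P) a) := by
      constructor
      · intro hh
        refine hloc.map_nonunit _ ?_
        have e1 : (f.codRestrict A.toSubring h) (algebraMap (𝓞 K) (Localization.AtPrime P) a) =
            ⟨algebraMap (𝓞 K) (AlgebraicClosure K) a, hmem a⟩ := Subtype.ext (hfa a)
        rw [e1]
        exact hh
      · intro hh
        have h2 := hh.map (f.codRestrict A.toSubring h)
        have e1 : (f.codRestrict A.toSubring h) (algebraMap (𝓞 K) (Localization.AtPrime P) a) =
            ⟨algebraMap (𝓞 K) (AlgebraicClosure K) a, hmem a⟩ := Subtype.ext (hfa a)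
        rw [e1] at h2
        exact h2
    rw [h1, IsLocalization.AtPrime.isUnit_to_map_iff (Localization.AtPrime P) P a]
    exact not_not

theorem aclLem : AclLem := by
  intro W _ _ A
  refine IsAlgClosed.of_exists_root _ fun p hp hirr => ?_
  have hlift : p ∈ Polynomial.lifts (red A) := by
    rw [Polynomial.lifts_iff_coeff_lifts]
    intro n
    obtain ⟨a, ha⟩ := IsLocalRing.residue_surjective (R := A) (p.coeff n)
    exact ⟨a, ha⟩
  obtain ⟨q, hq, hdeg, hmon⟩ := Polynomial.lifts_and_natDegree_eq_and_monic hlift hp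
  have hd : 0 < p.natDegree := hirr.natDegree_pos
  have hd2 : (q.map A.subtype).degree ≠ 0 := by
    rw [hmon.degree_map, Polynomial.degree_eq_natDegree hmon.ne_zero, hdeg]
    exact_mod_cast hd.ne'
  obtain ⟨x, hx⟩ := IsAlgClosed.exists_root (q.map A.subtype) hd2
  have hxint : IsIntegral A x := by
    refine ⟨q, hmon, ?_⟩
    rw [Polynomial.IsRoot, Polynomial.eval_map] at hx
    exact hx
  obtain ⟨y, rfl⟩ := IsIntegrallyClosed.isIntegral_iff.1 hxint
  refine ⟨red A y, ?_⟩
  have h1 : q.eval y = 0 := by
    have h2 : A.subtype (q.eval y) = 0 := by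
      rw [Polynomial.IsRoot, Polynomial.eval_map] at hx
      rw [← Polynomial.eval₂_at_apply]
      exact hx
    exact Subtype.ext h2
  rw [← hq, Polynomial.eval_map, Polynomial.eval₂_at_apply, h1, map_zero]

end

end Pool.Agent.N715.AD
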