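import Pool.Agent.N715.AD.Stm

/-!
# (WRO) the difference quotient of a pair of polynomials (project AD of helper715; by helper946)
-/

set_option autoImplicit false

namespace Pool.Agent.N715.AD

open Polynomial

namespace Wro

open Polynomial Finset

variable {R : Type} [CommRing R]

/-- `∑ x^l y^(n-1-l)` -/
noncomputable def G (R : Type) [CommRing R] (n : ℕ) : R[X][X] :=
  ∑ l ∈ range n, (Polynomial.C (X : R[X])) ^ l * (X : R[X][X]) ^ (n - 1 - l)

/-- the quotient for a pair of monomials, first half -/
noncomputable def D (R : Type) [CommRing R] (i j : ℕ) : R[X][X] :=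
  (Polynomial.C (X : R[X])) ^ j * (X : R[X][X]) ^ j * G R (i - j)

theorem D_mul {i j : ℕ} (h : j ≤ i) : (Polynomial.C (X : R[X]) - X) * D R i j =
    (Polynomial.C (X : R[X])) ^ i * X ^ j - X ^ i * (Polynomial.C (X : R[X])) ^ j := by
  have h1 := geom_sum₂_mul (Polynomial.C (X : R[X])) (X : R[X][X]) (i - j)
  obtain ⟨k, rfl⟩ := Nat.exists_eq_add_of_le h
  unfold D G
  rw [Nat.add_sub_cancel_left] at h1 ⊢
  calc _ = (Polynomial.C (X : R[X])) ^ j * (X : R[X][X]) ^ j *
        ((∑ l ∈ range k, (Polynomial.C (X : R[X])) ^ l * (X : R[X][X]) ^ (k - 1 - l)) *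
          (Polynomial.C (X : R[X]) - X)) := by ring
    _ = _ := by
      rw [h1]
      ring

theorem D_zero {i j : ℕ} (h : i ≤ j) : D R i j = 0 := by
  unfold D G
  rw [Nat.sub_eq_zero_of_le h, range_zero, sum_empty, mul_zero]

theorem M_mul (i j : ℕ) : (Polynomial.C (X : R[X]) - X) * (D R i j - D R j i) =
    (Polynomial.C (X : R[X])) ^ i * X ^ j - X ^ i * (Polynomial.C (X : R[X])) ^ j := by
  rcases le_total j i with h | h
  · rw [D_zero h, sub_zero, D_mul h]
  · rw [D_zero h]
    have := D_mul (R := R) h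
    linear_combination -this

/-- the polynomials of degree at most `q` in both variables -/
def Good (q : ℕ) (T : R[X][X]) : Prop := T.natDegree ≤ q ∧ XR q T

theorem good_zero (q : ℕ) : Good q (0 : R[X][X]) :=
  ⟨by simp, fun n => by simp⟩

theorem good_add {q : ℕ} {T T' : R[X][X]} (h : Good q T) (h' : Good q T') : Good q (T + T') :=
  ⟨(natDegree_add_le _ _).trans (max_le h.1 h'.1), fun n => by
    rw [coeff_add]
    exact (natDegree_add_le _ _).trans (max_le (h.2 n) (h'.2 n))⟩

theorem good_neg {q : ℕ} {T : R[X][X]} (h : Good q T) : Good q (-T) :=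
  ⟨by rw [natDegree_neg]; exact h.1, fun n => by
    rw [coeff_neg, natDegree_neg]
    exact h.2 n⟩

theorem good_sum {q : ℕ} {ι : Type} (s : Finset ι) (T : ι → R[X][X]) (h : ∀ i ∈ s, Good q (T i)) :
    Good q (∑ i ∈ s, T i) := by
  classical
  induction s using Finset.induction_on with
  | empty =>
    rw [sum_empty]
    exact good_zero q
  | insert a s ha ih =>
    rw [sum_insert ha]
    exact good_add (h _ (mem_insert_self _ _)) (ih fun i hi => h i (mem_insert_of_mem hi))

theorem good_const {q : ℕ} {T : R[X][X]} (c : R) (h : Good q T) :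
    Good q (Polynomial.C (Polynomial.C c) * T) :=
  ⟨(natDegree_C_mul_le _ _).trans h.1, fun n => by
    rw [coeff_C_mul]
    exact (natDegree_C_mul_le _ _).trans (h.2 n)⟩

theorem good_mono {q a b : ℕ} (ha : a ≤ q) (hb : b ≤ q) :
    Good q ((Polynomial.C (X : R[X])) ^ a * (X : R[X][X]) ^ b) := by
  rw [← C_pow]
  refine ⟨(natDegree_C_mul_X_pow_le _ _).trans hb, fun n => ?_⟩
  rw [coeff_C_mul, coeff_X_pow]
  split_ifs
  · rw [mul_one]
    exact (natDegree_X_pow_le _).trans ha
  · rw [mul_zero, natDegree_zero]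
    exact Nat.zero_le _

theorem good_D {q i j : ℕ} (hi : i ≤ q) : Good q (D R i j) := by
  unfold D G
  rw [mul_sum]
  refine good_sum _ _ fun l hl => ?_
  rw [mem_range] at hl
  have e : (Polynomial.C (X : R[X])) ^ j * (X : R[X][X]) ^ j *
      ((Polynomial.C (X : R[X])) ^ l * (X : R[X][X]) ^ (i - j - 1 - l)) =
      (Polynomial.C (X : R[X])) ^ (j + l) * (X : R[X][X]) ^ (j + (i - j - 1 - l)) := by
    rw [pow_add, pow_add]
    ring
  rw [e]
  exact good_mono (by omega) (by omega)

end Wro

open Wro Finset in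
theorem wroLem : WroLem := by
  intro R _ q f s hf hs
  refine ⟨∑ i ∈ range (q + 1), ∑ j ∈ range (q + 1),
    Polynomial.C (Polynomial.C (f.coeff i * s.coeff j)) * (D R i j - D R j i), ?_⟩
  have hgood : Good q (∑ i ∈ range (q + 1), ∑ j ∈ range (q + 1),
      Polynomial.C (Polynomial.C (f.coeff i * s.coeff j)) * (D R i j - D R j i)) := by
    refine good_sum _ _ fun i hi => good_sum _ _ fun j hj => good_const _ ?_
    rw [mem_range] at hi hj
    rw [sub_eq_add_neg]
    exact good_add (good_D (by omega)) (good_neg (good_D (by omega)))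
  have hfs : f = ∑ i ∈ range (q + 1), Polynomial.C (f.coeff i) * X ^ i :=
    f.as_sum_range_C_mul_X_pow' (Nat.lt_succ_of_le hf)
  have hss : s = ∑ i ∈ range (q + 1), Polynomial.C (s.coeff i) * X ^ i :=
    s.as_sum_range_C_mul_X_pow' (Nat.lt_succ_of_le hs)
  have hmul : Polynomial.C f * s.map Polynomial.C - f.map Polynomial.C * Polynomial.C s =
        (Polynomial.C X - X) * ∑ i ∈ range (q + 1), ∑ j ∈ range (q + 1),
      Polynomial.C (Polynomial.C (f.coeff i * s.coeff j)) * (D R i j - D R j i) := by
    rw [mul_sum]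
    have e1 : Polynomial.C f = ∑ i ∈ range (q + 1), Polynomial.C (Polynomial.C (f.coeff i)) *
        (Polynomial.C (X : R[X])) ^ i := by
      conv_lhs => rw [hfs]
      rw [map_sum]
      exact sum_congr rfl fun i _ => by rw [map_mul, map_pow]
    have e2 : Polynomial.C s = ∑ i ∈ range (q + 1), Polynomial.C (Polynomial.C (s.coeff i)) *
        (Polynomial.C (X : R[X])) ^ i := by
      conv_lhs => rw [hss]
      rw [map_sum]
      exact sum_congr rfl fun i _ => by rw [map_mul, map_pow]
    have e3 : f.map Polynomial.C = ∑ i ∈ range (q + 1), Polynomial.C (Polynomial.C (f.coeff i)) *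
        (X : R[X][X]) ^ i := by
      conv_lhs => rw [hfs]
      rw [Polynomial.map_sum]
      exact sum_congr rfl fun i _ => by
        rw [Polynomial.map_mul, Polynomial.map_pow, map_X, map_C]
    have e4 : s.map Polynomial.C = ∑ i ∈ range (q + 1), Polynomial.C (Polynomial.C (s.coeff i)) *
        (X : R[X][X]) ^ i := by
      conv_lhs => rw [hss]
      rw [Polynomial.map_sum]
      exact sum_congr rfl fun i _ => by
        rw [Polynomial.map_mul, Polynomial.map_pow, map_X, map_C]
    rw [e3, e4, e1, e2, sum_mul_sum, sum_mul_sum, ← sum_sub_distrib]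
    refine sum_congr rfl fun i _ => ?_
    rw [mul_sum, ← sum_sub_distrib]
    refine sum_congr rfl fun j _ => ?_
    have := M_mul (R := R) i j
    rw [map_mul, map_mul]
    calc _ = Polynomial.C (Polynomial.C (f.coeff i)) * Polynomial.C (Polynomial.C (s.coeff j)) *
          ((Polynomial.C (X : R[X])) ^ i * X ^ j - X ^ i * (Polynomial.C (X : R[X])) ^ j) := by ring
      _ = _ := by
        rw [← this]
        ring
  refine ⟨hgood.1, hgood.2, hmul, ?_⟩
  have h1 := congrArg (fun P : R[X][X] => (derivative P).eval X) hmul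
  simp only [derivative_sub, derivative_mul, derivative_C, derivative_X, derivative_map,
    eval_sub, eval_add, eval_mul, eval_C, eval_X, zero_mul, mul_zero, zero_add, add_zero,
    zero_sub, sub_self] at h1
  have ev : ∀ p : R[X], (p.map Polynomial.C).eval X = p := fun p => by
    rw [eval_map]
    exact eval₂_C_X
  rw [ev, ev] at h1
  simp only [eval_neg, eval_one] at h1
  linear_combination h1

end Pool.Agent.N715.AD
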