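import Mathlib
import Pool.Agent.N715.AD.Main2
import Pool.Agent.N715.AD.Cert
import Pool.Agent.N715.AD.Abw
import Pool.Agent.N715.AD.Bd2
import Pool.Agent.N715.AD.Bin
import Pool.Agent.N715.AD.Chr
import Pool.Agent.N715.AD.Clo
import Pool.Agent.N715.AD.Cyw
import Pool.Agent.N715.AD.Frm
import Pool.Agent.N715.AD.Gau
import Pool.Agent.N715.AD.Gnz
import Pool.Agent.N715.AD.Hom
import Pool.Agent.N715.AD.Inf
import Pool.Agent.N715.AD.Inv
import Pool.Agent.N715.AD.Itf
import Pool.Agent.N715.AD.Lif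
import Pool.Agent.N715.AD.Npp
import Pool.Agent.N715.AD.Nrm
import Pool.Agent.N715.AD.Nzj
import Pool.Agent.N715.AD.Par3
import Pool.Agent.N715.AD.Pig
import Pool.Agent.N715.AD.Prm1
import Pool.Agent.N715.AD.Re
import Pool.Agent.N715.AD.Rn
import Pool.Agent.N715.AD.Ro
import Pool.Agent.N715.AD.Rp
import Pool.Agent.N715.AD.Rq
import Pool.Agent.N715.AD.Rr
import Pool.Agent.N715.AD.Rst
import Pool.Agent.N715.AD.Rt
import Pool.Agent.N715.AD.Ru
import Pool.Agent.N715.AD.Rv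
import Pool.Agent.N715.AD.Rw
import Pool.Agent.N715.AD.Sum
import Pool.Agent.N715.AD.Tam
import Pool.Agent.N715.AD.Twp
import Pool.Agent.N715.AD.Val
import Pool.Agent.N715.AD.Wro

/-!
Project AD: all the parts together.
-/

set_option autoImplicit false
set_option linter.unusedSectionVars false

namespace Pool.Agent.N715.AD

open NumberField Module Filter Topology
open Pool.Agent.W238.Leh
open Pool.Agent.H627.LP (Wnd)

noncomputable section

theorem abLemC : AbLem :=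
  abLem rwLem rpLem (reLem ruLem rpLem)
    (cywLem (nppLem ruLem rwLem roLem (rtLem rvLem ruLem rpLem) (rqLem rvLem ruLem) rrLem rnLem)
      rrLem) rstLem

/-- **the lower bound** -/
theorem fin2 (hMl3 : Ml3Lem) (hCrt : Crt2Lem)
    (K : Type) [Field K] [NumberField K] (q : ℕ) (hq : 2 ≤ q)
    (F : Fin (1 + 1) → MvPolynomial (Fin (1 + 1)) K) (hF : ∀ i, (F i).IsHomogeneous q)
    (hmor : ∀ z : Fin (1 + 1) → AlgebraicClosure K, (∀ i, MvPolynomial.aeval z (F i) = 0) → z = 0)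
    {d : ℕ} (y : Fin d → Fin (1 + 1) → AlgebraicClosure K) (ν : Fin d → ℕ) (hν : ∀ i, 1 ≤ ν i)
    (hy0 : ∀ i, y i ≠ 0) (hdist : ∀ i j, i ≠ j → wdg (y i) (y j) ≠ 0)
    (hL : ∀ i, ∀ M : ℕ, 1 ≤ M →
      (∀ (n : ℕ) (z : Fin (1 + 1) → AlgebraicClosure K) (e : ℕ), z ≠ 0 →
        wdg (pt (itF (fun a => MvPolynomial.map (algebraMap K (AlgebraicClosure K)) (F a)) n) z)
          (y i) = 0 →
        Deg (itF (fun a => MvPolynomial.map (algebraMap K (AlgebraicClosure K)) (F a)) n) z e →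
        e ∣ M) → ν i ≤ M)
    (hsum : 2 < ∑ i, (1 - 1 / (ν i : ℝ)))
    (r : ℕ) :
    ∃ C : ℕ, 1 ≤ C ∧ ∀ (E L : Type) [Field E] [NumberField E]
      [Field L] [NumberField L] [Algebra K E] [Algebra E L] [Algebra K L]
      [IsScalarTower K E L] [IsAbelianGalois K E],
      finrank E L ≤ r →
      ∀ x : Fin (1 + 1) → L, x ≠ 0 → Wnd F x →
      ∃ h : ℝ, Tendsto (fun n : ℕ => Height.logHeight ((act F)^[n] x) /
          ((finrank ℚ L : ℝ) * (q : ℝ) ^ n)) atTop (𝓝 h) ∧ 1 / (C : ℝ) ≤ h := by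
  have hI1 := itfLem.1
  obtain ⟨l, w, n, e, tt, h1, h2⟩ := exists_data binLem
    (Ψ := fun n => itF (fun a => MvPolynomial.map (algebraMap K (AlgebraicClosure K)) (F a)) n)
    (q := fun n => q ^ n) (fun n => hI1 _ _ q (fun i => (hF i).map _) n) y ν hL
  exact main2 twoPLem bad2Lem AC.traceDesc2 cloLem wroLem nrmLem invLem valLem aclLem gauLem infLem
    homLem (frmLem binLem) hMl3 binLem (sumLem binLem) (nzjLem binLem) itfLem gnzLem hCrt tamLem
    liftLem pigLem abLemC prm1Lem par3 AC.intLem K q hq F hF hmor y w n e tt ν hν h1 hy0 hdist h2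
    hsum r

end

end Pool.Agent.N715.AD
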