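import Mathlib
import Pool.Agent.N715.AD.Stm

/-!
Project AD: the invariant form of the iterates.
-/

set_option autoImplicit false

namespace Pool.Agent.N715.AD

open MvPolynomial

/-- (ITR) the iterates -/
theorem itrLem (h : ChrLem) : ItrLem := by
  intro k _ _ q Φ _ _ _ l m A c _ hc _ hA j
  induction j with
  | zero =>
    refine ⟨1, one_ne_zero, ?_⟩
    have h1 : jac (itF Φ (l * 0)) = 1 := by
      show jac (MvPolynomial.X) = 1
      unfold jac
      simp [MvPolynomial.pderiv_X]
    rw [h1, one_pow, map_one, one_mul, mul_one]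
    show bind₁ MvPolynomial.X A = A
    simp
  | succ j ih =>
    obtain ⟨c', hc', h1⟩ := ih
    refine ⟨c * c', mul_ne_zero hc hc', ?_⟩
    have h2 : itF Φ (l * (j + 1)) = fun i => bind₁ (itF Φ (l * j)) (itF Φ l i) := by
      funext i
      rw [← h.2 k Φ l (l * j) i]
      congr 1
      ring
    have h3 : bind₁ (fun i => bind₁ (itF Φ (l * j)) (itF Φ l i)) A =
        bind₁ (itF Φ (l * j)) (bind₁ (itF Φ l) A) := (bind₁_bind₁ _ _ _).symm
    rw [h2, h.1 k (itF Φ l) (itF Φ (l * j)), h3, hA, map_mul, map_mul, map_pow, h1, bind₁_C_right,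
      map_mul]
    ring

end Pool.Agent.N715.AD
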