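import Mathlib
import Pool.Agent.N715.AD.Stm3

/-!
Project AD3, part ML1: the orders of the invariant form at a point and at its image.
-/

set_option autoImplicit false

namespace Pool.Agent.N715.AD

namespace Ml1Aux

open MvPolynomial

theorem eval_lin_self {R : Type} [CommRing R] (z : Fin (1 + 1) → R) :
    MvPolynomial.eval z (lin z) = 0 := by
  simp [lin]; ring

theorem eval_bind {R : Type} [CommRing R] (Ψ : Fin (1 + 1) → MvPolynomial (Fin (1 + 1)) R)
    (z : Fin (1 + 1) → R) (B : MvPolynomial (Fin (1 + 1)) R) :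
    MvPolynomial.eval z (MvPolynomial.bind₁ Ψ B) = MvPolynomial.eval (pt Ψ z) B := by
  have := MvPolynomial.eval₂Hom_bind₁ (RingHom.id R) z Ψ B
  exact this

theorem le_of_dvd {R : Type} [CommRing R] [IsDomain R] {p U : R} (hp : Prime p) (hU : ¬ p ∣ U)
    {a b : ℕ} (h : p ^ a ∣ p ^ b * U) : a ≤ b := by
  by_contra hlt
  push Not at hlt
  have h1 : p ^ (b + 1) ∣ p ^ b * U := (pow_dvd_pow p hlt).trans h
  rw [pow_succ] at h1
  exact hU ((mul_dvd_mul_iff_left (pow_ne_zero b hp.ne_zero)).1 h1)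

theorem eq_of_eq {R : Type} [CommRing R] [IsDomain R] {p U V : R} (hp : Prime p) (hU : ¬ p ∣ U)
    (hV : ¬ p ∣ V) {a b : ℕ} (h : p ^ a * U = p ^ b * V) : a = b := by
  apply le_antisymm
  · exact le_of_dvd hp hV (h ▸ Dvd.intro _ rfl)
  · exact le_of_dvd hp hU (h.symm ▸ Dvd.intro _ rfl)

theorem ord_split {k : Type} [Field k] {A : MvPolynomial (Fin (1 + 1)) k}
    {z : Fin (1 + 1) → k} {μ : ℕ} (h : Ord A z μ) :
    ∃ U, A = lin z ^ μ * U ∧ ¬ lin z ∣ U := by
  obtain ⟨⟨U, hU⟩, h2⟩ := h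
  refine ⟨U, hU, ?_⟩
  rintro ⟨V, hV⟩
  apply h2
  rw [hU, hV, pow_succ]
  exact ⟨V, by ring⟩

theorem pderiv0_lin {k : Type} [Field k] (z : Fin (1 + 1) → k) :
    MvPolynomial.pderiv 0 (lin z) = MvPolynomial.C (z 1) := by
  simp [lin, MvPolynomial.pderiv_X]

theorem pderiv1_lin {k : Type} [Field k] (z : Fin (1 + 1) → k) :
    MvPolynomial.pderiv 1 (lin z) = - MvPolynomial.C (z 0) := by
  simp [lin, MvPolynomial.pderiv_X]

/-- Euler's identity at a point -/
theorem euler {k : Type} [Field k] (p : MvPolynomial (Fin (1 + 1)) k) (D : ℕ)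
    (hp : p.IsHomogeneous D) (z : Fin (1 + 1) → k) :
    z 0 * MvPolynomial.eval z (MvPolynomial.pderiv 0 p) +
      z 1 * MvPolynomial.eval z (MvPolynomial.pderiv 1 p) = D * MvPolynomial.eval z p := by
  have h := congrArg (MvPolynomial.eval z) hp.sum_X_mul_pderiv
  simpa [Fin.sum_univ_two] using h

/-- the order of the Jacobian of `lin z ^ (f + 1) * U` with a form `P` -/
theorem jac_ord {k : Type} [Field k] (z : Fin (1 + 1) → k) (f D : ℕ)
    (U P : MvPolynomial (Fin (1 + 1)) k) (hP : P.IsHomogeneous D) :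
    ∃ W : MvPolynomial (Fin (1 + 1)) k,
      MvPolynomial.pderiv 0 (lin z ^ (f + 1) * U) * MvPolynomial.pderiv 1 P -
        MvPolynomial.pderiv 1 (lin z ^ (f + 1) * U) * MvPolynomial.pderiv 0 P = lin z ^ f * W ∧
      MvPolynomial.eval z W = ((f + 1 : ℕ) : k) * MvPolynomial.eval z U *
        (D * MvPolynomial.eval z P) := by
  refine ⟨(((f + 1 : ℕ) : MvPolynomial (Fin (1 + 1)) k) * MvPolynomial.C (z 1) * U +
      lin z * MvPolynomial.pderiv 0 U) * MvPolynomial.pderiv 1 P -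
      (((f + 1 : ℕ) : MvPolynomial (Fin (1 + 1)) k) * (- MvPolynomial.C (z 0)) * U +
      lin z * MvPolynomial.pderiv 1 U) * MvPolynomial.pderiv 0 P, ?_, ?_⟩
  · rw [MvPolynomial.pderiv_mul, MvPolynomial.pderiv_pow, MvPolynomial.pderiv_mul,
      MvPolynomial.pderiv_pow, pderiv0_lin, pderiv1_lin, Nat.add_sub_cancel]
    ring
  · rw [← euler P D hP z]
    simp only [map_sub, map_mul, map_add, map_neg, MvPolynomial.eval_C, eval_lin_self, map_natCast]
    ring

end Ml1Aux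

open Ml1Aux in
theorem ml1Lem (h : BinLem) : Ml1Lem := by
  intro k _ _ D Ψ hΨ hD hNZ hDk m d A c hA hc hAh hinv z e μ μ' hz hdeg he hz1 hz2
  obtain ⟨b1, b2, -, -, b5, b6⟩ := h
  set y := pt Ψ z with hy
  have hy0 : y ≠ 0 := fun h0 => hz (hNZ z h0)
  have hpz : Prime (lin z) := b2 k z hz
  obtain ⟨B, hAB, hB⟩ := ord_split hz2
  obtain ⟨A', hAA, hA'⟩ := ord_split hz1
  have hdeg' : Ord (MvPolynomial.bind₁ Ψ (lin y)) z e := hdeg
  obtain ⟨U, hQU, hU⟩ := ord_split hdeg'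
  have hBA : B ∣ A := ⟨lin y ^ μ', by rw [hAB]; ring⟩
  obtain ⟨dB, hBh⟩ := b6 k A B d hA hAh hBA
  have hBy : MvPolynomial.eval y B ≠ 0 := fun h0 => hB (b1 k y B dB hy0 hBh h0)
  have hbB : ¬ lin z ∣ MvPolynomial.bind₁ Ψ B := by
    rintro ⟨V, hV⟩
    apply hBy
    rw [hy, ← eval_bind, hV, map_mul, eval_lin_self, zero_mul]
  have hQe : MvPolynomial.bind₁ Ψ (lin y) =
      MvPolynomial.C (y 1) * Ψ 0 - MvPolynomial.C (y 0) * Ψ 1 := by
    simp [lin, MvPolynomial.bind₁_X_right, MvPolynomial.bind₁_C_right]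
  have hQh : (MvPolynomial.bind₁ Ψ (lin y)).IsHomogeneous D := by
    rw [hQe]
    have e0 : (MvPolynomial.C (y 1) * Ψ 0).IsHomogeneous D := by
      simpa using (MvPolynomial.isHomogeneous_C (Fin (1 + 1)) (y 1)).mul (hΨ 0)
    have e1 : (MvPolynomial.C (y 0) * Ψ 1).IsHomogeneous D := by
      simpa using (MvPolynomial.isHomogeneous_C (Fin (1 + 1)) (y 0)).mul (hΨ 1)
    exact e0.sub e1
  have hQ0 : MvPolynomial.bind₁ Ψ (lin y) ≠ 0 := by
    intro h0
    rw [h0] at hQU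
    have := (mul_eq_zero.1 hQU.symm).resolve_left (pow_ne_zero e hpz.ne_zero)
    exact hU (this ▸ dvd_zero _)
  obtain ⟨dU, hUh⟩ := b6 k _ U D hQ0 hQh ⟨lin z ^ e, by rw [hQU]; ring⟩
  have hUz : MvPolynomial.eval z U ≠ 0 := fun h0 => hU (b1 k z U dU hz hUh h0)
  have he1 : 1 ≤ e := by
    rcases Nat.eq_zero_or_pos e with h0 | h0
    · exact absurd (by rw [h0]; simp) he
    · exact h0
  obtain ⟨f, rfl⟩ : ∃ f, e = f + 1 := ⟨e - 1, by omega⟩
  -- the Jacobian
  have hjac : ∃ J, jac Ψ = lin z ^ f * J ∧ ¬ lin z ∣ J := by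
    have key : ∀ j : Fin (1 + 1), y j ≠ 0 → MvPolynomial.C (y j) * jac Ψ =
        MvPolynomial.pderiv 0 (MvPolynomial.bind₁ Ψ (lin y)) * MvPolynomial.pderiv 1 (Ψ j) -
          MvPolynomial.pderiv 1 (MvPolynomial.bind₁ Ψ (lin y)) * MvPolynomial.pderiv 0 (Ψ j) →
        ∃ J, jac Ψ = lin z ^ f * J ∧ ¬ lin z ∣ J := by
      intro j hj hjj
      rw [hQU] at hjj
      obtain ⟨W, hW1, hW2⟩ := jac_ord z f D U (Ψ j) (hΨ j)
      rw [hW1] at hjj
      have hWz : MvPolynomial.eval z W ≠ 0 := by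
        rw [hW2]
        exact mul_ne_zero (mul_ne_zero he hUz) (mul_ne_zero hDk hj)
      refine ⟨MvPolynomial.C (y j)⁻¹ * W, ?_, ?_⟩
      · have h1 : MvPolynomial.C (y j)⁻¹ * MvPolynomial.C (y j) =
            (1 : MvPolynomial (Fin (1 + 1)) k) := by
          rw [← map_mul, inv_mul_cancel₀ hj, map_one]
        calc jac Ψ = (MvPolynomial.C (y j)⁻¹ * MvPolynomial.C (y j)) * jac Ψ := by
              rw [h1, one_mul]
          _ = MvPolynomial.C (y j)⁻¹ * (lin z ^ f * W) := by rw [mul_assoc, hjj]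
          _ = _ := by ring
      · rintro ⟨V, hV⟩
        have h2 := congrArg (MvPolynomial.eval z) hV
        rw [map_mul, map_mul, eval_lin_self, zero_mul, MvPolynomial.eval_C] at h2
        exact (mul_ne_zero (inv_ne_zero hj) hWz) h2
    have hcase : y 0 ≠ 0 ∨ y 1 ≠ 0 := by
      by_contra hcon
      push Not at hcon
      apply hy0
      funext i
      fin_cases i
      · exact hcon.1
      · exact hcon.2
    rcases hcase with h0 | h1
    · apply key 0 h0
      rw [hQe]; simp only [jac, map_sub, MvPolynomial.pderiv_C_mul]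
      simp only [MvPolynomial.C_mul']
      simp only [MvPolynomial.smul_eq_C_mul]
      ring
    · apply key 1 h1
      rw [hQe]; simp only [jac, map_sub, MvPolynomial.pderiv_C_mul]
      simp only [MvPolynomial.C_mul']
      simp only [MvPolynomial.smul_eq_C_mul]
      ring
  obtain ⟨J, hJ, hJz⟩ := hjac
  have hnd : ¬ lin z ∣ U ^ μ' * MvPolynomial.bind₁ Ψ B := by
    intro hh
    rcases hpz.dvd_or_dvd hh with h1 | h1
    · exact hU (hpz.dvd_of_dvd_pow h1)
    · exact hbB h1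
  have hcz : ¬ lin z ∣ MvPolynomial.C c := by
    rintro ⟨V, hV⟩
    have h2 := congrArg (MvPolynomial.eval z) hV
    rw [map_mul, eval_lin_self, zero_mul, MvPolynomial.eval_C] at h2
    exact hc h2
  have hnd2 : ¬ lin z ∣ MvPolynomial.C c * A' * J ^ m := by
    intro hh
    rcases hpz.dvd_or_dvd hh with h1 | h1
    · rcases hpz.dvd_or_dvd h1 with h2 | h2
      · exact hcz h2
      · exact hA' h2
    · exact hJz (hpz.dvd_of_dvd_pow h1)
  have hmain : lin z ^ ((f + 1) * μ') * (U ^ μ' * MvPolynomial.bind₁ Ψ B) =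
      lin z ^ (μ + f * m) * (MvPolynomial.C c * A' * J ^ m) := by
    have e1 : MvPolynomial.bind₁ Ψ A =
        lin z ^ ((f + 1) * μ') * (U ^ μ' * MvPolynomial.bind₁ Ψ B) := by
      conv_lhs => rw [hAB]
      rw [map_mul, map_pow, hQU, mul_pow, ← pow_mul, mul_assoc]
    have e2 : MvPolynomial.C c * A * jac Ψ ^ m =
        lin z ^ (μ + f * m) * (MvPolynomial.C c * A' * J ^ m) := by
      conv_lhs => rw [hAA, hJ]
      rw [mul_pow, ← pow_mul, pow_add]
      ring
    rw [← e1, hinv, e2]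
  have hfin := eq_of_eq hpz hnd hnd2 hmain
  have : m + (f + 1) * μ' = μ + (f + 1) * m := by
    rw [hfin]; ring
  exact this

end Pool.Agent.N715.AD
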