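import Mathlib
import Pool.Agent.N715.AD.Stm3

/-!
Project AD (helper715), part ML2, by helper765: the local degrees of the iterates are prime to the
characteristic.
-/

set_option autoImplicit false
set_option linter.unusedSectionVars false

namespace Pool.Agent.N715.AD

namespace ML2

open MvPolynomial

/-- the exact order is unique -/
theorem ord_unique {k : Type} [Field k] {A : MvPolynomial (Fin (1 + 1)) k}
    {z : Fin (1 + 1) → k} {a b : ℕ} (ha : Ord A z a) (hb : Ord A z b) : a = b := by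
  rcases lt_trichotomy a b with h | h | h
  · exact absurd ((pow_dvd_pow _ h).trans hb.1) ha.2
  · exact h
  · exact absurd ((pow_dvd_pow _ h).trans ha.1) hb.2

/-- the exact order exists -/
theorem exists_ord {k : Type} [Field k] {A : MvPolynomial (Fin (1 + 1)) k} (hA : A ≠ 0)
    {z : Fin (1 + 1) → k} (hz : Prime (lin z)) : ∃ a, Ord A z a := by
  obtain ⟨n, B, hB, hAB⟩ := WfDvdMonoid.max_power_factor hA hz.irreducible
  refine ⟨n, ⟨B, hAB⟩, ?_⟩
  rintro ⟨C, hC⟩
  apply hB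
  refine ⟨C, ?_⟩
  apply mul_left_cancel₀ (pow_ne_zero n hz.ne_zero)
  rw [← hAB, hC, pow_succ, mul_assoc]

theorem lin_hom {k : Type} [Field k] (y : Fin (1 + 1) → k) : (lin y).IsHomogeneous 1 :=
  (isHomogeneous_C_mul_X _ _).sub (isHomogeneous_C_mul_X _ _)

theorem bind_lin {k : Type} [Field k] (Ψ : Fin (1 + 1) → MvPolynomial (Fin (1 + 1)) k)
    (y : Fin (1 + 1) → k) : bind₁ Ψ (lin y) = C (y 1) * Ψ 0 - C (y 0) * Ψ 1 := by
  unfold lin
  rw [map_sub, map_mul, map_mul, bind₁_X_right, bind₁_X_right, bind₁_C_right, bind₁_C_right]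

theorem bind_lin_hom {k : Type} [Field k] {D : ℕ}
    {Ψ : Fin (1 + 1) → MvPolynomial (Fin (1 + 1)) k} (hΨ : ∀ i, (Ψ i).IsHomogeneous D)
    (y : Fin (1 + 1) → k) : (bind₁ Ψ (lin y)).IsHomogeneous D := by
  rw [bind_lin]
  exact ((hΨ 0).C_mul _).sub ((hΨ 1).C_mul _)

/-- the exact order is at most the degree -/
theorem ord_le {k : Type} [Field k] {A : MvPolynomial (Fin (1 + 1)) k} {d : ℕ} (hA : A ≠ 0)
    (hd : A.IsHomogeneous d) {z : Fin (1 + 1) → k} (hz : lin z ≠ 0) {a : ℕ} (h : Ord A z a) :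
    a ≤ d := by
  obtain ⟨B, hB⟩ := h.1
  have hB0 : B ≠ 0 := by
    rintro rfl
    exact hA (by rw [hB, mul_zero])
  have h1 : (lin z ^ a).totalDegree = a := by
    have := ((lin_hom z).pow a).totalDegree (pow_ne_zero a hz)
    rwa [one_mul] at this
  have h2 := hd.totalDegree hA
  rw [hB, totalDegree_mul_of_isDomain (pow_ne_zero a hz) hB0, h1] at h2
  omega

theorem eval_lin_self {k : Type} [Field k] (y : Fin (1 + 1) → k) : eval y (lin y) = 0 := by
  unfold lin
  simp
  ring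

end ML2

open ML2 MvPolynomial in
theorem ml2Lem (h1 : BinLem) (h2 : ChrLem) (h3 : ItfLem) (h4 : DmlLem) : Ml2Lem := by
  intro k _ _ q Φ hΦ hq hNZ hchar n
  obtain ⟨b1, b2, -, -, b5, -⟩ := h1
  obtain ⟨-, c2⟩ := h2
  obtain ⟨i1, -, -, -, i5, -⟩ := h3
  -- nonzero forms
  have hpos : ∀ l, 1 ≤ q ^ l := fun l => Nat.one_le_pow _ _ (by omega)
  have hpt : ∀ (l : ℕ) (z : Fin (1 + 1) → k), z ≠ 0 → pt (itF Φ l) z ≠ 0 := fun l z hz h =>
    hz (i5 k Φ q hΦ hNZ l z h)
  have hne : ∀ (l : ℕ) (z : Fin (1 + 1) → k), z ≠ 0 →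
      bind₁ (itF Φ l) (lin (pt (itF Φ l) z)) ≠ 0 := fun l z hz h =>
    (b2 k _ (hpt l z hz)).ne_zero
      (b5 k (q ^ l) (itF Φ l) (i1 k Φ q hΦ l) (hpos l) (i5 k Φ q hΦ hNZ l) _ 1 (lin_hom _) h)
  induction n with
  | zero =>
    intro e z hz he
    have h5 : pt (itF Φ 0) z = z := by
      funext i
      show eval z (X i) = z i
      rw [eval_X]
    have h6 : Ord (lin z) z e := by
      have h7 : bind₁ (itF Φ 0) (lin z) = lin z := by
        have h8 : itF Φ 0 = X := rfl
        rw [h8, bind₁_X_left]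
        rfl
      unfold Deg at he
      rwa [h5, h7] at he
    have hp := b2 k z hz
    have h7 : Ord (lin z) z 1 := by
      refine ⟨by rw [pow_one], ?_⟩
      rintro ⟨B, hB⟩
      apply hp.not_isUnit
      apply IsUnit.of_mul_eq_one B
      apply mul_left_cancel₀ hp.ne_zero
      rw [mul_one]
      nth_rewrite 3 [hB]
      ring
    rw [ord_unique h6 h7, Nat.cast_one]
    exact one_ne_zero
  | succ n ih =>
    intro e z hz he
    set w := pt (itF Φ n) z with hw
    have hw0 : w ≠ 0 := hpt n z hz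
    obtain ⟨e1, he1⟩ := exists_ord (hne 1 w hw0) (b2 k w hw0)
    obtain ⟨e2, he2⟩ := exists_ord (hne n z hz) (b2 k z hz)
    have h5 := h4 k q Φ hΦ hq hNZ 1 n e1 e2 z hz he1 he2
    rw [Nat.add_comm n 1] at he
    have h6 : e = e1 * e2 := ord_unique he h5
    have h7 : e1 ≤ q := by
      have h8 : (bind₁ (itF Φ 1) (lin (pt (itF Φ 1) w))).IsHomogeneous q := by
        have := bind_lin_hom (i1 k Φ q hΦ 1) (pt (itF Φ 1) w)
        rwa [pow_one] at this
      exact ord_le (hne 1 w hw0) h8 (b2 k w hw0).ne_zero he1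
    have h8 : 1 ≤ e1 := by
      by_contra h9
      have h10 : e1 = 0 := by omega
      subst h10
      apply he1.2
      rw [zero_add, pow_one]
      refine b1 k w _ (q ^ 1) hw0 (bind_lin_hom (i1 k Φ q hΦ 1) _) ?_
      rw [bind_lin, map_sub, map_mul, map_mul, eval_C, eval_C]
      show pt (itF Φ 1) w 1 * pt (itF Φ 1) w 0 - pt (itF Φ 1) w 0 * pt (itF Φ 1) w 1 = 0
      ring
    rw [h6, Nat.cast_mul]
    exact mul_ne_zero (hchar e1 h8 h7) (ih e2 z hz he2)

end Pool.Agent.N715.AD
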