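import Mathlib
import Pool.Agent.N715.AD.Stm3

/-!
Project AD3, part ML3: the order of the invariant form at a point with several ramified preimages
(helper297).
-/

set_option autoImplicit false

namespace Pool.Agent.N715.AD

noncomputable section

namespace Ml3

open MvPolynomial

variable {k : Type} [Field k]

lemma lin_smul (c : k) (z : Fin (1 + 1) → k) : lin (c • z) = C c * lin z := by
  unfold lin
  simp only [Pi.smul_apply, smul_eq_mul, map_mul]
  ring

lemma isUnit_C {c : k} (hc : c ≠ 0) : IsUnit (C c : MvPolynomial (Fin (1 + 1)) k) :=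
  (isUnit_iff_ne_zero.2 hc).map C

lemma lin_hom (z : Fin (1 + 1) → k) : (lin z).IsHomogeneous 1 := by
  unfold lin
  exact (isHomogeneous_C_mul_X _ _).sub (isHomogeneous_C_mul_X _ _)

lemma eval_lin (z w : Fin (1 + 1) → k) : eval w (lin z) = z 1 * w 0 - z 0 * w 1 := by
  unfold lin
  simp

lemma ord_pt {A : MvPolynomial (Fin (1 + 1)) k} {z : Fin (1 + 1) → k} {μ : ℕ} {c : k}
    (hc : c ≠ 0) : Ord A (c • z) μ ↔ Ord A z μ := by
  unfold Ord
  have h : ∀ n, lin (c • z) ^ n ∣ A ↔ lin z ^ n ∣ A := by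
    intro n
    rw [lin_smul, mul_pow]
    exact ((isUnit_C hc).pow n).mul_left_dvd
  rw [h, h]

lemma ord_C {A : MvPolynomial (Fin (1 + 1)) k} {z : Fin (1 + 1) → k} {μ : ℕ} {c : k}
    (hc : c ≠ 0) : Ord (C c * A) z μ ↔ Ord A z μ := by
  unfold Ord
  rw [(isUnit_C hc).dvd_mul_left, (isUnit_C hc).dvd_mul_left]

lemma prop {x y : Fin (1 + 1) → k} (hx : x ≠ 0) (hy : y ≠ 0) (h : wdg x y = 0) :
    ∃ c : k, c ≠ 0 ∧ x = c • y := by
  unfold wdg at h
  by_cases h0 : y 0 = 0
  · have h1 : y 1 ≠ 0 := by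
      intro h1
      apply hy
      funext i
      fin_cases i
      · exact h0
      · exact h1
    have h2 : x 0 = 0 := by
      rw [h0, mul_zero, sub_zero] at h
      exact (mul_eq_zero.1 h).resolve_right h1
    have h3 : x 1 ≠ 0 := by
      intro h3
      apply hx
      funext i
      fin_cases i
      · exact h2
      · exact h3
    refine ⟨x 1 / y 1, div_ne_zero h3 h1, ?_⟩
    funext i
    fin_cases i
    · show x 0 = x 1 / y 1 * y 0
      rw [h0, h2, mul_zero]
    · show x 1 = x 1 / y 1 * y 1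
      rw [div_mul_cancel₀ _ h1]
  · have h3 : x 0 ≠ 0 := by
      intro h3
      rw [h3, zero_mul, zero_sub, neg_eq_zero] at h
      have h4 := (mul_eq_zero.1 h).resolve_right h0
      apply hx
      funext i
      fin_cases i
      · exact h3
      · exact h4
    refine ⟨x 0 / y 0, div_ne_zero h3 h0, ?_⟩
    funext i
    fin_cases i
    · show x 0 = x 0 / y 0 * y 0
      rw [div_mul_cancel₀ _ h0]
    · show x 1 = x 0 / y 0 * y 1
      rw [div_mul_eq_mul_div, eq_div_iff h0]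
      linear_combination -h

lemma pt_smul {Ψ : Fin (1 + 1) → MvPolynomial (Fin (1 + 1)) k} {D : ℕ}
    (h : ∀ i, (Ψ i).IsHomogeneous D) (c : k) (z : Fin (1 + 1) → k) :
    pt Ψ (c • z) = c ^ D • pt Ψ z := by
  funext i
  show eval (c • z) (Ψ i) = c ^ D * eval z (Ψ i)
  rw [eval_eq', eval_eq', Finset.mul_sum]
  refine Finset.sum_congr rfl fun d hd => ?_
  have h1 : ∑ i, d i = D := by
    have h2 := h i (mem_support_iff.1 hd)
    rw [← h2, Finsupp.weight_apply, Finsupp.sum_fintype _ _ (fun _ => by simp)]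
    simp
  simp only [Pi.smul_apply, smul_eq_mul, mul_pow, Finset.prod_mul_distrib]
  rw [Finset.prod_pow_eq_pow_sum, h1]
  ring

lemma eval_bind (Ψ : Fin (1 + 1) → MvPolynomial (Fin (1 + 1)) k)
    (p : MvPolynomial (Fin (1 + 1)) k) (w : Fin (1 + 1) → k) :
    eval w (bind₁ Ψ p) = eval (pt Ψ w) p := by
  rw [← MvPolynomial.coe_aeval_eq_eval]
  show aeval w (bind₁ Ψ p) = _
  rw [aeval_bind₁]
  rfl

lemma bind_lin_smul (Ψ : Fin (1 + 1) → MvPolynomial (Fin (1 + 1)) k) (c : k)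
    (z : Fin (1 + 1) → k) : bind₁ Ψ (lin (c • z)) = C c * bind₁ Ψ (lin z) := by
  rw [lin_smul, map_mul, bind₁_C_right]

/-- The local degree at a proportional vector. -/
lemma deg_smul {Ψ : Fin (1 + 1) → MvPolynomial (Fin (1 + 1)) k} {D : ℕ}
    (h : ∀ i, (Ψ i).IsHomogeneous D) {c : k} (hc : c ≠ 0) (z : Fin (1 + 1) → k) (e : ℕ)
    (hd : Deg Ψ z e) : Deg Ψ (c • z) e := by
  unfold Deg at *
  rw [ord_pt hc, pt_smul h, bind_lin_smul, ord_C (pow_ne_zero _ hc)]
  exact hd

lemma ex_ord (hB : BinLem) {A : MvPolynomial (Fin (1 + 1)) k} (hA : A ≠ 0)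
    {z : Fin (1 + 1) → k} (hz : z ≠ 0) : ∃ μ, Ord A z μ := by
  have hp := hB.2.1 k z hz
  have hf : FiniteMultiplicity (lin z) A := FiniteMultiplicity.of_not_isUnit hp.not_isUnit hA
  exact ⟨multiplicity (lin z) A, pow_multiplicity_dvd _ _,
    hf.not_pow_dvd_of_multiplicity_lt (Nat.lt_succ_self _)⟩

/-- The degree of a divisor of a form. -/
lemma dvd_deg (hB : BinLem) {Q B : MvPolynomial (Fin (1 + 1)) k} {a b : ℕ}
    (hQ : Q.IsHomogeneous a) (hB0 : B ≠ 0) (hBh : B.IsHomogeneous b) (h : Q ∣ B) :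
    ∃ (R : MvPolynomial (Fin (1 + 1)) k) (e : ℕ), B = Q * R ∧ R.IsHomogeneous e ∧ a + e = b := by
  obtain ⟨R, hR⟩ := h
  obtain ⟨e, he⟩ := hB.2.2.2.2.2 k B R b hB0 hBh ⟨Q, by rw [hR, mul_comm]⟩
  refine ⟨R, e, hR, he, ?_⟩
  have h1 : B.IsHomogeneous (a + e) := by
    rw [hR]; exact hQ.mul he
  exact h1.inj_right hBh hB0

/-- Divisibility of forms by multiplicities. -/
lemma dvd_of (hB : BinLem) [IsAlgClosed k] : ∀ (D : ℕ) (Q B : MvPolynomial (Fin (1 + 1)) k),
    Q ≠ 0 → Q.IsHomogeneous D →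
    (∀ (w : Fin (1 + 1) → k), w ≠ 0 → ∀ r : ℕ, lin w ^ r ∣ Q → lin w ^ r ∣ B) → Q ∣ B := by
  intro D
  induction D with
  | zero =>
    intro Q B hQ0 hQ _
    have h1 : Q.totalDegree = 0 := by
      have := hQ.totalDegree hQ0
      exact this
    have h2 := MvPolynomial.totalDegree_eq_zero_iff_eq_C.1 h1
    have h3 : coeff 0 Q ≠ 0 := by
      intro h3
      apply hQ0
      rw [h2, h3, map_zero]
    rw [h2]
    exact (isUnit_C h3).dvd
  | succ D ih =>
    intro Q B hQ0 hQ h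
    obtain ⟨w, hw, hew⟩ := hB.2.2.1 k Q (D + 1) (by omega) hQ
    have hdQ : lin w ∣ Q := hB.1 k w Q (D + 1) hw hQ hew
    have hpw := hB.2.1 k w hw
    obtain ⟨Q', e, hQ', hQh, he⟩ := dvd_deg hB (lin_hom w) hQ0 hQ hdQ
    have he' : e = D := by omega
    rw [he'] at hQh
    have hQ'0 : Q' ≠ 0 := by
      rintro rfl
      apply hQ0
      rw [hQ', mul_zero]
    obtain ⟨B', hB'⟩ : lin w ∣ B := by
      have := h w hw 1 (by rwa [pow_one])
      rwa [pow_one] at this
    rw [hQ', hB']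
    refine mul_dvd_mul_left _ (ih Q' B' hQ'0 hQh ?_)
    intro v hv r hr
    have hpv := hB.2.1 k v hv
    by_cases hvw : lin v ∣ lin w
    · have has : Associated (lin v) (lin w) := (hpv.dvd_prime_iff_associated hpw).1 hvw
      have h1 : lin v ^ (r + 1) ∣ Q := by
        rw [hQ', pow_succ, mul_comm]
        exact mul_dvd_mul hvw hr
      have h2 := h v hv (r + 1) h1
      rw [hB', pow_succ, mul_comm] at h2
      have h3 : lin w * lin v ^ r ∣ lin w * B' := by
        refine dvd_trans ?_ h2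
        exact mul_dvd_mul_right has.symm.dvd _
      exact (mul_dvd_mul_iff_left hpw.ne_zero).1 h3
    · have h1 : lin v ^ r ∣ Q := by
        rw [hQ']
        exact dvd_mul_of_dvd_right hr _
      have h2 := h v hv r h1
      rw [hB'] at h2
      exact hpv.pow_dvd_of_dvd_mul_left r hvw h2

end Ml3

open Ml3 in
theorem ml3Lem (h1 : BinLem) (_h2 : ChrLem) (h3 : ItfLem) (h4 : ItrLem) (h5 : DmlLem)
    (h6 : Ml1Lem) (h7 : Ml2Lem) : Ml3Lem := by
  intro k _ _ q Φ hΦ hq hNZ hch l m A c hl hm hA hc hAh hrel y μ hy hμ S hS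
  by_cases hmm : m ≤ μ
  · calc m * (S.lcm id - 1) ≤ m * S.lcm id := Nat.mul_le_mul_left _ (Nat.sub_le _ _)
      _ = S.lcm id * m := mul_comm _ _
      _ ≤ S.lcm id * μ := Nat.mul_le_mul_left _ hmm
  push Not at hmm
  -- the claim
  have claim : ∀ e ∈ S, e * (m - μ) ∣ m := by
    intro e he
    obtain ⟨z, n, hz, hdeg, hw⟩ := hS e he
    set j := n + 2 * m * m + 1 with hj
    have hlj : n + (2 * m * m + 1) ≤ l * j := by
      calc n + (2 * m * m + 1) = 1 * j := by rw [hj]; ring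
        _ ≤ l * j := Nat.mul_le_mul_right _ hl
    obtain ⟨t, ht⟩ : ∃ t, l * j = n + t := ⟨l * j - n, by omega⟩
    have htm : 2 * m * m + 1 ≤ t := by omega
    have hqt : 2 * m * m < q ^ t := by
      calc 2 * m * m < t := by omega
        _ < 2 ^ t := Nat.lt_two_pow_self
        _ ≤ q ^ t := Nat.pow_le_pow_left hq t
    have hIh : ∀ s i, (itF Φ s i).IsHomogeneous (q ^ s) := h3.1 k Φ q hΦ
    have hIN : ∀ s, NZ (itF Φ s) := h3.2.2.2.2.1 k Φ q hΦ hNZ
    have hpw : ∀ s, 1 ≤ q ^ s := fun s => Nat.one_le_pow _ _ (by omega)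
    set Q := MvPolynomial.bind₁ (itF Φ t) (lin z) with hQ
    have hQ0 : Q ≠ 0 := by
      intro h0
      exact (h1.2.1 k z hz).ne_zero
        (h1.2.2.2.2.1 k (q ^ t) (itF Φ t) (hIh t) (hpw t) (hIN t) (lin z) 1 (lin_hom z) h0)
    have hQh : Q.IsHomogeneous (q ^ t) := by
      have h8 := (lin_hom z).aeval (itF Φ t) (hIh t)
      rw [mul_one] at h8
      exact h8
    -- the computation at a root
    obtain ⟨c', hc', hrel'⟩ := h4 k q Φ hΦ hq hNZ l m A c hl hc hAh hrel j
    have key : ∀ (w : Fin (1 + 1) → k), w ≠ 0 → lin w ∣ Q → ∀ e₂ ν : ℕ, Ord Q w e₂ →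
        Ord A w ν → m + e * e₂ * μ = ν + e * e₂ * m ∧ e * e₂ ≠ 0 := by
      intro w hw0 hwQ e₂ ν he₂ hν
      have hpt0 : pt (itF Φ t) w ≠ 0 := fun h => hw0 (hIN t w h)
      have hz' : wdg (pt (itF Φ t) w) z = 0 := by
        obtain ⟨R, hR⟩ := hwQ
        have e1 : MvPolynomial.eval w Q = 0 := by
          rw [hR, map_mul, eval_lin]
          ring
        rw [hQ, eval_bind, eval_lin] at e1
        unfold wdg
        linear_combination e1
      obtain ⟨a, ha, hpa⟩ := prop hpt0 hz hz'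
      have hd1 : Deg (itF Φ n) (pt (itF Φ t) w) e := by
        rw [hpa]
        exact deg_smul (hIh n) ha z e hdeg
      have hd2 : Deg (itF Φ t) w e₂ := by
        unfold Deg
        rw [hpa, bind_lin_smul, ord_C ha]
        exact he₂
      have hd3 := h5 k q Φ hΦ hq hNZ n t e e₂ w hw0 hd1 hd2
      have hy' : pt (itF Φ (n + t)) w = a ^ (q ^ n) • pt (itF Φ n) z := by
        rw [h3.2.2.1 k Φ (n + t) w, Function.iterate_add_apply, ← h3.2.2.1 k Φ t w,
          ← h3.2.2.1 k Φ n, hpa, pt_smul (hIh n)]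
      have hn0 : pt (itF Φ n) z ≠ 0 := fun h => hz (hIN n z h)
      obtain ⟨b, hb, hpb⟩ := prop hn0 hy hw
      have hoy : Ord A (pt (itF Φ (n + t)) w) μ := by
        rw [hy', ord_pt (pow_ne_zero _ ha), hpb, ord_pt hb]
        exact hμ
      have hch' : ((e * e₂ : ℕ) : k) ≠ 0 := h7 k q Φ hΦ hq hNZ hch (n + t) (e * e₂) w hw0 hd3
      rw [ht] at hrel'
      have hqk : ((q ^ (n + t) : ℕ) : k) ≠ 0 := by
        rw [Nat.cast_pow]
        exact pow_ne_zero _ (hch q (by omega) le_rfl)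
      refine ⟨h6 k (q ^ (n + t)) (itF Φ (n + t)) (hIh _) (hpw _) (hIN _) hqk m (2 * m) A c' hA hc'
        hAh hrel' w (e * e₂) ν μ hw0 hd3 hch' hν hoy, ?_⟩
      intro h0
      rw [h0] at hch'
      exact hch' Nat.cast_zero
    by_cases hex : ∃ w : Fin (1 + 1) → k, w ≠ 0 ∧ lin w ∣ Q ∧ ¬ lin w ∣ A
    · obtain ⟨w, hw0, hwQ, hwA⟩ := hex
      obtain ⟨e₂, he₂⟩ := ex_ord h1 hQ0 hw0
      have hν : Ord A w 0 := ⟨by rw [pow_zero]; exact one_dvd _, by rwa [zero_add, pow_one]⟩
      obtain ⟨k1, -⟩ := key w hw0 hwQ e₂ 0 he₂ hν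
      obtain ⟨N, hN⟩ : ∃ N, m = μ + N := ⟨m - μ, by omega⟩
      have hN' : m - μ = N := by omega
      rw [hN']
      refine ⟨e₂, ?_⟩
      rw [hN] at k1 ⊢
      have k2 : μ + N + e * e₂ * μ = e * e₂ * μ + e * e₂ * N := by
        calc μ + N + e * e₂ * μ = 0 + e * e₂ * (μ + N) := k1
          _ = _ := by ring
      calc μ + N = e * e₂ * N := by omega
        _ = e * N * e₂ := by ring
    · exfalso
      push Not at hex
      have hdvd : Q ∣ A ^ m := by
        refine dvd_of h1 (q ^ t) Q (A ^ m) hQ0 hQh ?_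
        intro w hw0 r hr
        rcases Nat.eq_zero_or_pos r with hr0 | hr0
        · rw [hr0, pow_zero]; exact one_dvd _
        have hwQ : lin w ∣ Q := (dvd_pow_self _ (by omega)).trans hr
        have hwA := hex w hw0 hwQ
        obtain ⟨e₂, he₂⟩ := ex_ord h1 hQ0 hw0
        obtain ⟨ν, hν⟩ := ex_ord h1 hA hw0
        obtain ⟨k1, k2⟩ := key w hw0 hwQ e₂ ν he₂ hν
        have hre : r ≤ e₂ := by
          by_contra hlt
          push Not at hlt
          exact he₂.2 ((pow_dvd_pow _ hlt).trans hr)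
        have he2m : e₂ ≤ m := by
          obtain ⟨N, hN⟩ : ∃ N, m = μ + (N + 1) := ⟨m - μ - 1, by omega⟩
          have k3 : e * e₂ * (N + 1) ≤ m := by
            rw [hN] at k1
            have k4 : μ + (N + 1) + e * e₂ * μ = ν + (e * e₂ * μ + e * e₂ * (N + 1)) := by
              rw [k1]; ring
            rw [hN]
            omega
          have k5 : 1 ≤ e := Nat.one_le_iff_ne_zero.2 fun h => k2 (by rw [h, zero_mul])
          calc e₂ = 1 * e₂ * 1 := by ring
            _ ≤ e * e₂ * (N + 1) := by gcongr; omega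
            _ ≤ m := k3
        exact (pow_dvd_pow _ (hre.trans he2m)).trans (pow_dvd_pow_of_dvd hwA m)
      obtain ⟨R, e', -, -, hdeg'⟩ := dvd_deg h1 hQh (pow_ne_zero m hA) (hAh.pow m) hdvd
      have : q ^ t ≤ 2 * m * m := by omega
      omega
  -- the conclusion
  rcases S.eq_empty_or_nonempty with hS0 | ⟨e₀, he₀⟩
  · rw [hS0]
    simp
  · obtain ⟨N, hN⟩ : ∃ N, m = μ + N := ⟨m - μ, by omega⟩
    have hN' : m - μ = N := by omega
    rw [hN'] at claim
    have hN0 : 0 < N := by omega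
    obtain ⟨m', hm'⟩ : N ∣ m := (Dvd.intro_left _ rfl).trans (claim e₀ he₀)
    have hL : S.lcm id ∣ m' := by
      refine Finset.lcm_dvd fun e he => ?_
      have := claim e he
      rw [hm', mul_comm e N] at this
      exact Nat.dvd_of_mul_dvd_mul_left hN0 this
    have hm'0 : 0 < m' := by
      rcases Nat.eq_zero_or_pos m' with h0 | h0
      · rw [h0, mul_zero] at hm'; omega
      · exact h0
    have hLm : S.lcm id ≤ m' := Nat.le_of_dvd hm'0 hL
    set L := S.lcm id with hLdef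
    have h9 : L * N ≤ m := by
      rw [hm', mul_comm N m']
      exact Nat.mul_le_mul_right _ hLm
    rcases Nat.eq_zero_or_pos L with h0 | h0
    · rw [h0]; simp
    · obtain ⟨L', hL'⟩ : ∃ L', L = L' + 1 := ⟨L - 1, by omega⟩
      rw [hL', Nat.add_sub_cancel]
      have h10 : (L' + 1) * N ≤ m := by rw [← hL']; exact h9
      rw [hN] at h10 ⊢
      nlinarith

end

end Pool.Agent.N715.AD
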