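import Mathlib
import Pool.Agent.N715.AD.Fin2
import Pool.Agent.N715.AD.Cr2
import Pool.Agent.N715.AD.Dml
import Pool.Agent.N715.AD.Itr
import Pool.Agent.N715.AD.Ml1
import Pool.Agent.N715.AD.Ml2
import Pool.Agent.N715.AD.Ml3

/-!
Project AD: all the parts together.
-/

set_option autoImplicit false
set_option linter.unusedSectionVars false

namespace Pool.Agent.N715.AD

open NumberField Module Filter Topology
open Pool.Agent.W238.Leh
open Pool.Agent.H627.LP (Wnd)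

noncomputable section

/-- **the lower bound** -/
theorem fin3
    (K : Type) [Field K] [NumberField K] (q : ℕ) (hq : 2 ≤ q)
    (F : Fin (1 + 1) → MvPolynomial (Fin (1 + 1)) K) (hF : ∀ i, (F i).IsHomogeneous q)
    (hmor : ∀ z : Fin (1 + 1) → AlgebraicClosure K, (∀ i, MvPolynomial.aeval z (F i) = 0) → z = 0)
    {d : ℕ} (y : Fin d → Fin (1 + 1) → AlgebraicClosure K) (ν : Fin d → ℕ) (hν : ∀ i, 1 ≤ ν i)
    (hy0 : ∀ i, y i ≠ 0) (hdist : ∀ i j, i ≠ j → wdg (y i) (y j) ≠ 0)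
    (hL : ∀ i, ∀ M : ℕ, 1 ≤ M →
      (∀ (n : ℕ) (z : Fin (1 + 1) → AlgebraicClosure K) (e : ℕ), z ≠ 0 →
        wdg (pt (itF (fun a => MvPolynomial.map (algebraMap K (AlgebraicClosure K)) (F a)) n) z)
          (y i) = 0 →
        Deg (itF (fun a => MvPolynomial.map (algebraMap K (AlgebraicClosure K)) (F a)) n) z e →
        e ∣ M) → ν i ≤ M)
    (hsum : 2 < ∑ i, (1 - 1 / (ν i : ℝ)))
    (r : ℕ) :
    ∃ C : ℕ, 1 ≤ C ∧ ∀ (E L : Type) [Field E] [NumberField E]
      [Field L] [NumberField L] [Algebra K E] [Algebra E L] [Algebra K L]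
      [IsScalarTower K E L] [IsAbelianGalois K E],
      finrank E L ≤ r →
      ∀ x : Fin (1 + 1) → L, x ≠ 0 → Wnd F x →
      ∃ h : ℝ, Tendsto (fun n : ℕ => Height.logHeight ((act F)^[n] x) /
          ((finrank ℚ L : ℝ) * (q : ℝ) ^ n)) atTop (𝓝 h) ∧ 1 / (C : ℝ) ≤ h :=
  fin2 (ml3Lem binLem chrLem itfLem (itrLem chrLem) (dmlLem binLem chrLem itfLem) (ml1Lem binLem)
    (ml2Lem binLem chrLem itfLem (dmlLem binLem chrLem itfLem))) crt2Lem K q hq F
    hF hmor y ν hν hy0 hdist hL hsum r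

end

end Pool.Agent.N715.AD
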