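import Mathlib
import Pool.Agent.N715.AD.Stm

/-!
Project AD, LDG: local degrees can be read on the iterates of an iterate (helper277)
-/

set_option autoImplicit false
set_option linter.unusedSectionVars false

namespace Pool.Agent.N715.AD

open NumberField Module Polynomial

noncomputable section

namespace Ldg

open MvPolynomial (bind₁ eval)

variable {k : Type} [Field k]

theorem homog {R : Type} [CommRing R] (Φ : Fin (1 + 1) → MvPolynomial (Fin (1 + 1)) R) (q : ℕ)
    (h : ∀ i, (Φ i).IsHomogeneous q) : ∀ l i, (itF Φ l i).IsHomogeneous (q ^ l) := by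
  intro l
  induction l with
  | zero =>
    intro i
    rw [pow_zero]
    exact MvPolynomial.isHomogeneous_X R i
  | succ l ih =>
    intro i
    have h1 := (h i).aeval (itF Φ l) ih
    rw [pow_succ]
    exact h1

theorem pt_itF {R : Type} [CommRing R] (Φ : Fin (1 + 1) → MvPolynomial (Fin (1 + 1)) R) :
    ∀ (l : ℕ) (z : Fin (1 + 1) → R), pt (itF Φ l) z = (pt Φ)^[l] z := by
  intro l
  induction l with
  | zero =>
    intro z
    funext i
    simp [pt, itF]
  | succ l ih =>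
    intro z
    rw [Function.iterate_succ_apply', ← ih]
    funext i
    unfold pt
    change eval z (bind₁ (itF Φ l) (Φ i)) = _
    rw [← MvPolynomial.coe_aeval_eq_eval, MvPolynomial.coe_aeval_eq_eval]
    change MvPolynomial.eval₂Hom (RingHom.id R) z (bind₁ (itF Φ l) (Φ i)) = _
    rw [MvPolynomial.eval₂Hom_bind₁]
    rfl

theorem nz_itF (Φ : Fin (1 + 1) → MvPolynomial (Fin (1 + 1)) k) (hn : NZ Φ) : ∀ l, NZ (itF Φ l) := by
  intro l
  induction l with
  | zero =>
    intro z hz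
    rw [pt_itF] at hz
    exact hz
  | succ l ih =>
    intro z hz
    rw [pt_itF, Function.iterate_succ_apply', ← pt_itF] at hz
    exact ih z (hn _ hz)

theorem eval_smul' (p : MvPolynomial (Fin (1 + 1)) k) (d : ℕ) (hp : p.IsHomogeneous d) (a : k)
    (z : Fin (1 + 1) → k) : eval (a • z) p = a ^ d * eval z p := by
  rw [MvPolynomial.eval_eq, MvPolynomial.eval_eq, Finset.mul_sum]
  apply Finset.sum_congr rfl
  intro m hm
  have h1 : ∑ i ∈ m.support, m i = d := by
    have := hp (MvPolynomial.mem_support_iff.1 hm)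
    rw [Finsupp.weight_apply, Finsupp.sum] at this
    simpa using this
  have h2 : ∏ i ∈ m.support, (a • z) i ^ m i = a ^ d * ∏ i ∈ m.support, z i ^ m i := by
    simp only [Pi.smul_apply, smul_eq_mul, mul_pow]
    rw [Finset.prod_mul_distrib, Finset.prod_pow_eq_pow_sum, h1]
  rw [h2]
  ring

theorem pt_smul (Φ : Fin (1 + 1) → MvPolynomial (Fin (1 + 1)) k) (q : ℕ)
    (h : ∀ i, (Φ i).IsHomogeneous q) (a : k) (z : Fin (1 + 1) → k) :
    pt Φ (a • z) = a ^ q • pt Φ z := by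
  funext i
  unfold pt
  rw [eval_smul' _ q (h i)]
  rfl

theorem iter_smul (Φ : Fin (1 + 1) → MvPolynomial (Fin (1 + 1)) k) (q : ℕ)
    (h : ∀ i, (Φ i).IsHomogeneous q) (a : k) (z : Fin (1 + 1) → k) (n : ℕ) :
    (pt Φ)^[n] (a • z) = a ^ (q ^ n) • (pt Φ)^[n] z := by
  rw [← pt_itF, ← pt_itF]
  exact pt_smul _ _ (homog Φ q h n) a z

theorem lin_smul (a : k) (y : Fin (1 + 1) → k) : lin (a • y) = MvPolynomial.C a * lin y := by
  unfold lin
  simp only [Pi.smul_apply, smul_eq_mul, MvPolynomial.C_mul]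
  ring

theorem bind_lin (Θ : Fin (1 + 1) → MvPolynomial (Fin (1 + 1)) k) (y : Fin (1 + 1) → k) :
    bind₁ Θ (lin y) = MvPolynomial.C (y 1) * Θ 0 - MvPolynomial.C (y 0) * Θ 1 := by
  unfold lin
  simp

theorem bind_hom (Θ : Fin (1 + 1) → MvPolynomial (Fin (1 + 1)) k) (d : ℕ)
    (h : ∀ i, (Θ i).IsHomogeneous d) (y : Fin (1 + 1) → k) : (bind₁ Θ (lin y)).IsHomogeneous d := by
  rw [bind_lin]
  have h0 := (MvPolynomial.isHomogeneous_C (Fin (1 + 1)) (y 1)).mul (h 0)
  have h1 := (MvPolynomial.isHomogeneous_C (Fin (1 + 1)) (y 0)).mul (h 1)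
  rw [zero_add] at h0 h1
  exact h0.sub h1

theorem eval_bind_lin (Θ : Fin (1 + 1) → MvPolynomial (Fin (1 + 1)) k) (y z : Fin (1 + 1) → k) :
    eval z (bind₁ Θ (lin y)) = y 1 * pt Θ z 0 - y 0 * pt Θ z 1 := by
  rw [bind_lin]
  simp [pt]

end Ldg

theorem ldgLem (h1 : BinLem) (h2 : ChrLem) : LdgLem := by
  intro k _ _ q Φ hΦ hq hNZ c n e l hc hl hD
  obtain ⟨t, ht⟩ : ∃ t, l * (n + 1) = n + t := by
    have : n ≤ l * (n + 1) := by nlinarith
    exact ⟨l * (n + 1) - n, by omega⟩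
  have hht := Ldg.homog Φ q hΦ t
  obtain ⟨c', a, hc', ha, hac⟩ := h1.2.2.2.1 k (q ^ t) (itF Φ t) hht (Nat.one_le_pow _ _ (by omega))
    (Ldg.nz_itF Φ hNZ t) c hc
  refine ⟨c', n + 1, hc', by omega, ?_, ?_⟩
  · rw [ht]
    unfold Dat at hD ⊢
    have e1 : (pt Φ)^[n + t] c' = a ^ (q ^ n) • (pt Φ)^[n] c := by
      rw [Function.iterate_add_apply, ← Ldg.pt_itF Φ t c', hac]
      exact Ldg.iter_smul Φ q hΦ a c n
    rw [e1, Ldg.lin_smul]
    have e2 : ∀ p : MvPolynomial (Fin (1 + 1)) k, MvPolynomial.bind₁ (itF Φ (n + t)) p =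
        MvPolynomial.bind₁ (itF Φ t) (MvPolynomial.bind₁ (itF Φ n) p) := by
      intro p
      rw [MvPolynomial.bind₁_bind₁]
      congr 2
      funext i
      exact h2.2 k Φ n t i
    rw [map_mul]
    apply Dvd.dvd.mul_left
    rw [e2]
    have e3 := map_dvd (MvPolynomial.bind₁ (itF Φ t)) hD
    rw [map_pow] at e3
    refine dvd_trans (pow_dvd_pow_of_dvd ?_ e) e3
    apply h1.1 k c' _ (q ^ t) hc' (Ldg.bind_hom _ _ hht c)
    rw [Ldg.eval_bind_lin, hac]
    simp only [Pi.smul_apply, smul_eq_mul]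
    ring
  · rw [ht]
    have e1 : (pt Φ)^[n + t] c' = a ^ (q ^ n) • (pt Φ)^[n] c := by
      rw [Function.iterate_add_apply, ← Ldg.pt_itF Φ t c', hac]
      exact Ldg.iter_smul Φ q hΦ a c n
    rw [e1]
    unfold wdg
    simp only [Pi.smul_apply, smul_eq_mul]
    ring

end

end Pool.Agent.N715.AD
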