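import Pool.Agent.N715.AD.Stm

set_option autoImplicit false

/-! # Project AD, PRM: a prime ideal of degree of ramification one -/

namespace Pool.Agent.N715.AD

open NumberField

theorem prmLem : PrmLem := by
  intro K _ _ n
  have hd : NumberField.discr K ≠ 0 := NumberField.discr_ne_zero K
  obtain ⟨p, hp1, hp⟩ := Nat.exists_infinite_primes (max n (NumberField.discr K).natAbs + 1)
  have hpn : n < p := lt_of_le_of_lt (le_max_left _ _) (Nat.lt_of_succ_le hp1)
  have hpd : (NumberField.discr K).natAbs < p :=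
    lt_of_le_of_lt (le_max_right _ _) (Nat.lt_of_succ_le hp1)
  have hnd : ¬ (p : ℤ) ∣ NumberField.discr K := by
    intro h
    have h1 : p ∣ (NumberField.discr K).natAbs := Int.natCast_dvd.1 h
    have h2 := Nat.le_of_dvd (Int.natAbs_pos.2 hd) h1
    omega
  have hpp : Prime (p : ℤ) := Nat.prime_iff_prime_int.1 hp
  have hmax : (Ideal.span {(p : ℤ)}).IsMaximal :=
    PrincipalIdealRing.isMaximal_of_irreducible hpp.irreducible
  obtain ⟨P, hPm, hP⟩ := Ideal.exists_ideal_over_maximal_of_isIntegral (S := 𝓞 K)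
    (Ideal.span {(p : ℤ)}) (by
      rw [(RingHom.injective_iff_ker_eq_bot _).1 (FaithfulSMul.algebraMap_injective ℤ (𝓞 K))]
      exact bot_le)
  have hpP : (p : 𝓞 K) ∈ P := by
    have h1 : (p : ℤ) ∈ P.comap (algebraMap ℤ (𝓞 K)) := by
      rw [hP]
      exact Ideal.mem_span_singleton_self _
    have h2 := Ideal.mem_comap.1 h1
    simpa using h2
  refine ⟨p, P, hp, hPm, ?_, hpP, ?_, hpn⟩
  · rintro rfl
    have h1 : (p : 𝓞 K) = 0 := by simpa using hpP
    exact hp.ne_zero (Nat.cast_eq_zero.1 h1)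
  · intro h2
    have h3 : P ^ 2 ∣ (Ideal.span {(p : ℤ)}).map (algebraMap ℤ (𝓞 K)) := by
      rw [Ideal.dvd_iff_le, Ideal.map_span, Ideal.span_le]
      rintro x hx
      simp only [Set.image_singleton, Set.mem_singleton_iff] at hx
      rw [hx]
      simpa using h2
    have h4 := pow_sub_one_dvd_differentIdeal ℤ P 2
      (by rw [Ne, Ideal.span_singleton_eq_bot]; exact hpp.ne_zero) h3
    have h5 : ((NumberField.discr K : ℤ) : 𝓞 K) ∈ P := by
      have := Ideal.dvd_iff_le.1 h4 (NumberField.discr_mem_differentIdeal K (𝓞 K))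
      simpa using this
    have h6 : NumberField.discr K ∈ P.comap (algebraMap ℤ (𝓞 K)) := by
      rw [Ideal.mem_comap]
      simpa using h5
    rw [hP, Ideal.mem_span_singleton] at h6
    exact hnd h6

end Pool.Agent.N715.AD
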