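import Mathlib
import Pool.Agent.N715.AD.Stm2
import Pool.Agent.N715.AD.Lif

/-!
Project AD2 (helper715), part RV: units move less than uniformisers.  By helper364.
-/

set_option autoImplicit false
set_option linter.unusedSectionVars false

namespace Pool.Agent.N715.AD

namespace Rv

open NumberField Module
open Pool.Agent.H420R3 (mi nv TP ew mem_TP nv_pos v_lt_one_iff)
open Pool.Agent.N715.AD.Lif (D D_eq D_pow v_pow_of_le exists_pow_close v_nn)

noncomputable section

variable {M : Type} [Field M] [NumberField M]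

/-- the residue characteristic -/
lemma exists_char (v : FinitePlace M) : ∃ p : ℕ, p.Prime ∧ v (p : M) < 1 := by
  let : Field (𝓞 M ⧸ mi v) := Ideal.Quotient.field (mi v)
  have hfin : Finite (𝓞 M ⧸ mi v) := Ideal.finiteQuotientOfFreeOfNeBot (mi v) (H420R3.mi_ne_bot v)
  obtain ⟨p, hp⟩ := CharP.exists (𝓞 M ⧸ mi v)
  have hpp : p.Prime := by
    rcases CharP.char_is_prime_or_zero (𝓞 M ⧸ mi v) p with h | h
    · exact h
    · subst h
      have := CharP.charP_to_charZero (𝓞 M ⧸ mi v)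
      exact absurd hfin (not_finite_iff_infinite.2 (Infinite.of_injective _
        (Nat.cast_injective (R := 𝓞 M ⧸ mi v))))
  refine ⟨p, hpp, ?_⟩
  have h1 : (p : 𝓞 M ⧸ mi v) = 0 := CharP.cast_eq_zero _ p
  rw [← map_natCast (Ideal.Quotient.mk (mi v)), Ideal.Quotient.eq_zero_iff_mem,
    ← v_lt_one_iff] at h1
  simpa using h1

/-- values less than one are at most `w` -/
lemma le_w {v : FinitePlace M} {y : M} (hy : v y < 1) : v y ≤ (nv v)⁻¹ := by
  rcases eq_or_ne y 0 with rfl | h0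
  · rw [map_zero]
    exact inv_nonneg.2 (nv_pos v).le
  · obtain ⟨k, hk⟩ := v_pow_of_le h0 hy.le
    have hk1 : 1 ≤ k := by
      rcases Nat.eq_zero_or_pos k with h | h
      · rw [h, pow_zero, inv_one] at hk
        exact absurd hk hy.ne
      · exact h
    rw [hk]
    have h2 := nv_pos v
    refine inv_anti₀ h2 ?_
    calc nv v = nv v ^ 1 := (pow_one _).symm
      _ ≤ nv v ^ k := pow_le_pow_right₀ (H420R3.one_lt_nv v).le hk1

lemma main {K : Type} [Field K] [Algebra K M] {v : FinitePlace M} {t : ℕ} {σ : Gal(M/K)}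
    (ht : 1 ≤ t) (hσ : Rn K v t σ) {z : M} (hz : v z = 1) :
    v (σ z - z) ≤ (nv v)⁻¹ ^ (t + 1) := by
  obtain ⟨p, hp, hvp⟩ := exists_char v
  have hw0 : 0 < (nv v)⁻¹ := inv_pos.2 (nv_pos v)
  have hw1 : (nv v)⁻¹ < 1 := inv_lt_one_of_one_lt₀ (H420R3.one_lt_nv v)
  have hwt : (nv v)⁻¹ ^ t < 1 := pow_lt_one₀ hw0.le hw1 (by omega)
  have hφ : ∀ x : M, x ≠ 0 → D v σ x < 1 := by
    intro x hx
    refine lt_of_le_of_lt ?_ hwt
    exact (Lif.D_lt hx).2 (hσ x)
  have hz0 : z ≠ 0 := by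
    rintro rfl
    rw [map_zero] at hz
    exact zero_ne_one hz
  obtain ⟨k, hk, hk'⟩ := exists_pow_close hp hvp hz
  obtain ⟨y, hy⟩ : ∃ y, y = z ^ k - 1 := ⟨_, rfl⟩
  have h1 : σ (z ^ k) / z ^ k - 1 = (σ y - y) / z ^ k := by
    have h2 : σ y = σ (z ^ k) - 1 := by rw [hy, map_sub, map_one]
    rw [h2, hy]
    have := pow_ne_zero k hz0
    field_simp
    ring
  have h2 : D v σ z = v (σ y - y) := by
    rw [← D_pow hφ hz0 hk]
    unfold D
    rw [h1, map_div₀, map_pow, hz, one_pow, div_one]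
  rw [D_eq σ hz0, hz, mul_one, h2, pow_succ]
  rw [← hy] at hk'
  exact (hσ y).trans (mul_le_mul_of_nonneg_left (le_w hk') (by positivity))

end

end Rv

theorem rvLem : RvLem := by
  intro K _ _ M _ _ _ P _ _ v _ t σ ht hσ z hz
  exact Rv.main ht hσ hz

end Pool.Agent.N715.AD
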